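import Pool.Agent.Lib.F059.Basic

/-!
# MP_f059c0_co, the definitions of the problem file

Triangulations as sets of triangles, flips of edges in convex quadrilaterals,
Hamiltonian triangulations, the function `h(n)`.
-/

namespace F059

/-- `T` is a triangulation of `P`, as in the problem file: triangles with vertices in `P` and
pairwise disjoint interiors, whose union is the convex hull of `P`, no triangle contains a point
of `P` in its interior, and every point of `P` is a vertex. -/
structure IsTriangulation (P : Finset Pt) (T : Finset (Finset Pt)) : Prop where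
  tri : ∀ t ∈ T, t ⊆ P ∧ t.card = 3
  disj : ∀ t ∈ T, ∀ t' ∈ T, t ≠ t' →
    Disjoint (interior (convexHull ℝ (t : Set Pt))) (interior (convexHull ℝ (t' : Set Pt)))
  cover : ⋃ t ∈ T, convexHull ℝ (t : Set Pt) = convexHull ℝ (P : Set Pt)
  empty : ∀ t ∈ T, ∀ p ∈ P, p ∉ interior (convexHull ℝ (t : Set Pt))
  vertex : ∀ p ∈ P, ∃ t ∈ T, p ∈ t

/-- the graph of `T`: vertex set `P`, the triangle sides as edges -/
def triGraph (P : Finset Pt) (T : Finset (Finset Pt)) : SimpleGraph {x : Pt // x ∈ P} where
  Adj x y := x ≠ y ∧ ∃ t ∈ T, x.1 ∈ t ∧ y.1 ∈ t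
  symm := ⟨by
    rintro x y ⟨h, t, ht, h1, h2⟩
    exact ⟨h.symm, t, ht, h2, h1⟩⟩
  loopless := ⟨fun x h => h.1 rfl⟩

open Classical in
/-- the triangulation `T` of `P` is Hamiltonian -/
def HamT (P : Finset Pt) (T : Finset (Finset Pt)) : Prop := (triGraph P T).IsHamiltonian

/-- `T'` is obtained from `T` by flipping the edge `a b`: the two triangles `a b c` and `a b d`,
whose union is convex, are replaced by `a c d` and `b c d`. -/
def FlipT (T T' : Finset (Finset Pt)) : Prop :=
  ∃ a b c d : Pt, c ≠ d ∧ {a, b, c} ∈ T ∧ {a, b, d} ∈ T ∧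
    Convex ℝ (convexHull ℝ ({a, b, c} : Set Pt) ∪ convexHull ℝ ({a, b, d} : Set Pt)) ∧
    T' = ((T.erase {a, b, c}).erase {a, b, d}) ∪ {{a, c, d}, {b, c, d}}

/-- `T'` is reached from `T` by exactly `k` successive flips -/
inductive ReachT : ℕ → Finset (Finset Pt) → Finset (Finset Pt) → Prop
  | refl (T : Finset (Finset Pt)) : ReachT 0 T T
  | step {k : ℕ} {T U V : Finset (Finset Pt)} : ReachT k T U → FlipT U V → ReachT (k + 1) T V

/-- `h(T)`: the least number of successive flips turning `T` into a Hamiltonian triangulation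
of `P` (`⊤` if impossible) -/
noncomputable def hT (P : Finset Pt) (T : Finset (Finset Pt)) : ℕ∞ :=
  ⨅ (k : ℕ) (_ : ∃ T', ReachT k T T' ∧ IsTriangulation P T' ∧ HamT P T'), (k : ℕ∞)

/-- `h(n)`: the maximum of `h(T)` over all `n`-point sets `P` in general position and all
triangulations `T` of `P` -/
noncomputable def h (n : ℕ) : ℕ∞ :=
  ⨆ (P : Finset Pt) (_ : GenPos P ∧ P.card = n) (T : Finset (Finset Pt))
    (_ : IsTriangulation P T), hT P T

end F059
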