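import Pool.Agent.Lib.F059.ADefs
import Pool.Agent.Lib.F059.Problem

/-!
# MP_f059c0_co, layer A, bridge between sets of triangles and plane sets of segments
-/

namespace F059

open Classical in
/-- the sides of the triangles of `T` -/
noncomputable def edg (T : Finset (Finset Pt)) : Finset (Sym2 Pt) :=
  T.biUnion (fun t => t.sym2.filter (fun e => ¬ e.IsDiag))

lemma mem_edg {T : Finset (Finset Pt)} {x y : Pt} :
    s(x, y) ∈ edg T ↔ x ≠ y ∧ ∃ t ∈ T, x ∈ t ∧ y ∈ t := by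
  unfold edg
  simp only [Finset.mem_biUnion, Finset.mem_filter, Finset.mk_mem_sym2_iff, Sym2.mk_isDiag_iff]
  constructor
  · rintro ⟨t, ht, ⟨h1, h2⟩, h3⟩; exact ⟨h3, t, ht, h1, h2⟩
  · rintro ⟨h3, t, ht, h1, h2⟩; exact ⟨t, ht, ⟨h1, h2⟩, h3⟩

end F059
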