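import Pool.Agent.Lib.F059.ADefs

/-!
# MP_f059c0_co, layer A, module AExt (0.7 h): extension to a triangulation

Every plane set of segments is contained in a triangulation: take a plane set `A` with
`F ⊆ A ⊆ Seg P` of maximal cardinality (`Finset.exists_max_image` on
`(Seg P).powerset.filter ...` or `Finset.exists_maximal`).  If `e ∈ Seg P` crosses no member of
`A` and `e ∉ A` then `insert e A` is plane (`SCr` is symmetric; a segment does not cross itself:
`SCr s(p,q) s(p,q)` would give `ori p q p ≠ 0`), contradiction to maximality.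
-/

namespace F059

lemma not_SCr_self (e : Sym2 Pt) : ¬ SCr e e := by
  induction e using Sym2.ind with
  | _ p q =>
    rw [SCr_mk]
    rintro ⟨h, _⟩
    rw [ori_self_left, zero_mul] at h
    exact lt_irrefl _ h

lemma exists_tri {P : Finset Pt} {F : Finset (Sym2 Pt)} (hF : F ⊆ Seg P) (hp : Plane F) :
    ∃ A, Tri P A ∧ F ⊆ A := by
  classical
  obtain ⟨A, hA, hmax⟩ := Finset.exists_max_image
    ((Seg P).powerset.filter fun A => F ⊆ A ∧ Plane A) Finset.card
    ⟨F, Finset.mem_filter.2 ⟨Finset.mem_powerset.2 hF, subset_rfl, hp⟩⟩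
  obtain ⟨hAS, hFA, hPA⟩ := Finset.mem_filter.1 hA
  rw [Finset.mem_powerset] at hAS
  refine ⟨A, ⟨hAS, hPA, fun e he hcr => ?_⟩, hFA⟩
  by_contra hne
  have h1 : insert e A ∈ (Seg P).powerset.filter fun A => F ⊆ A ∧ Plane A := by
    refine Finset.mem_filter.2 ⟨Finset.mem_powerset.2 (Finset.insert_subset he hAS),
      hFA.trans (Finset.subset_insert e A), ?_⟩
    intro f hf g hg
    rcases Finset.mem_insert.1 hf with rfl | hf1
    · rcases Finset.mem_insert.1 hg with rfl | hg1
      · exact not_SCr_self _
      · exact hcr g hg1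
    · rcases Finset.mem_insert.1 hg with rfl | hg1
      · exact fun h => hcr f hf1 h.symm
      · exact hPA f hf1 g hg1
  have h2 := hmax _ h1
  rw [Finset.card_insert_of_notMem hne] at h2
  omega

end F059
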