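import Pool.Agent.Lib.F059.ALocal
import Pool.Agent.Lib.F059.AExt

/-!
# MP_f059c0_co, layer A, module ACard (2.5 h): a plane set on `n` points has at most `6n` edges

**mid** (lexicographic order `p < q` iff `p.1 < q.1 ∨ (p.1 = q.1 ∧ p.2 < q.2)`, written `Lx p q`):
two empty triangles `q1 p r1`, `q2 p r2` with sides in the plane set `A`, with
`Lx q1 p`, `Lx p r1`, `Lx q2 p`, `Lx p r2`, and `p` on the same side of both long sides
(`0 < ori q1 r1 p * ori q2 r2 p`) are equal: `q1 = q2` and `r1 = r2`.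
Proof.  We may assume `ori q1 r1 p < 0`, `ori q2 r2 p < 0` (reflection, or the same proof with all
signs reversed).  Vectors `u_i = q_i - p` (lexicographically negative), `w_i = r_i - p`
(lexicographically positive); `det(w_i, u_i) = - ori q_i r_i p > 0`.  Suppose `q1 ≠ q2`; by general
position `det(u1, u2) = ori p q1 q2 ≠ 0`; say `det(u2, u1) > 0` (exchange the triangles).
Then `det(w1, u2) > 0`: otherwise the identity
`det(w1,u1) u2 = det(w1,u2) u1 + det(u2,u1) w1` has the left side lexicographically negative and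
the right side `= |det(w1,u2)| (-u1) + det(u2,u1) w1` lexicographically positive (or zero + positive).
So `u2` is strictly inside the angle of the triangle `q1 p r1` at `p`
(`det(w1,u2) > 0`, `det(u2,u1) > 0`).  `q2` is not in the closed triangle `q1 p r1` unless it is
`q1` or `r1` (`Em`); it is not `q1`, and not `r1` (`det(w1,u2) ≠ 0`); so `q2` is strictly beyond the
line `q1 r1`, and the edges `s(p,q2)` and `s(q1,r1)` cross: contradiction.  So `q1 = q2`, and by
the symmetric argument (reflection `x -> -x` exchanges left and right) `r1 = r2`.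

**card_tri**: `Tri P A`, general position: `A.card <= 6 * P.card`.  If `P.card <= 2` then `A` has at
most one element (`Seg P` has at most one) and it is nonempty only if `P` is nonempty.  Otherwise
every edge `s(a,b) ∈ A` has a third point `p ∈ P`, so by `local_side` it is a side of some
`ET P A a b c`.  Order the vertices lexicographically: `q < p < r`.  Map the edge to
(`p`, sign of `ori q r p`, which side: `q p`, `p r` or `q r`) in `P × Bool × Fin 3`.  By `mid` the
first two data determine `q` and `r`, so the map is injective (choose the triangle with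
`Classical.choose`; injectivity only needs that equal images force equal triangles, hence equal
edges).  Hence `A.card <= P.card * 2 * 3`.
**card_plane**: extend to a triangulation (`exists_tri` in AExt).
-/

namespace F059

/-- lexicographic order -/
def Lx (p q : Pt) : Prop := p.1 < q.1 ∨ (p.1 = q.1 ∧ p.2 < q.2)

lemma acLx_irrefl {p : Pt} (h : Lx p p) : False := by
  rcases h with h | h
  · exact lt_irrefl _ h
  · exact lt_irrefl _ h.2

lemma acLx_asymm {p q : Pt} (h : Lx p q) (h' : Lx q p) : False := by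
  rcases h with h | ⟨h1, h2⟩ <;> rcases h' with h' | ⟨h1', h2'⟩ <;> linarith

lemma acLx_total {p q : Pt} (h : p ≠ q) : Lx p q ∨ Lx q p := by
  rcases lt_trichotomy p.1 q.1 with h1 | h1 | h1
  · exact Or.inl (Or.inl h1)
  · rcases lt_trichotomy p.2 q.2 with h2 | h2 | h2
    · exact Or.inl (Or.inr ⟨h1, h2⟩)
    · exact absurd (Prod.ext h1 h2) h
    · exact Or.inr (Or.inr ⟨h1.symm, h2⟩)
  · exact Or.inr (Or.inl h1)

/-- lexicographic order (`t = 1`) or its opposite (`t = -1`) -/
def AcLL (t : ℝ) (p q : Pt) : Prop :=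
  0 < t * (q.1 - p.1) ∨ (p.1 = q.1 ∧ 0 < t * (q.2 - p.2))

lemma acLL_one {p q : Pt} (h : Lx p q) : AcLL 1 p q := by
  rcases h with h | ⟨h1, h2⟩
  · left; linarith
  · right; exact ⟨h1, by linarith⟩

lemma acLL_neg {p q : Pt} (h : Lx p q) : AcLL (-1) q p := by
  rcases h with h | ⟨h1, h2⟩
  · left; linarith
  · right; exact ⟨h1.symm, by linarith⟩

lemma AcLL.ne {t : ℝ} {p q : Pt} (h : AcLL t p q) : p ≠ q := by
  rintro rfl
  rcases h with h | ⟨_, h⟩ <;> simp at h

lemma AcLL.asymm {t : ℝ} {p q : Pt} (h : AcLL t p q) (h' : AcLL t q p) : False := by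
  rcases h with h | ⟨h1, h2⟩ <;> rcases h' with h' | ⟨h1', h2'⟩
  · nlinarith
  · rw [h1'] at h; simp at h
  · rw [h1] at h'; simp at h'
  · nlinarith

lemma AcLL.fst {t : ℝ} {p q : Pt} (h : AcLL t p q) : 0 ≤ t * (q.1 - p.1) := by
  rcases h with h | ⟨h, _⟩
  · exact h.le
  · rw [h]; simp

/-- the middle step: the vector to `q2` is inside the angle at `p` -/
lemma ac_inside {t s : ℝ} {p q1 r1 q2 : Pt} (ht : t * t = 1)
    (l1 : AcLL t q1 p) (l2 : AcLL t p r1) (l3 : AcLL t q2 p)
    (ha : 0 < s * ori p r1 q1) (hc : 0 < s * ori p q2 q1) (hb : s * ori p r1 q2 ≠ 0) :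
    0 < s * ori p r1 q2 := by
  by_contra hneg
  have hb' : s * ori p r1 q2 < 0 := lt_of_le_of_ne (not_lt.1 hneg) hb
  have f1 := l1.fst
  have f2 := l2.fst
  have f3 := l3.fst
  have id1 : (s * ori p r1 q1) * (t * (p.1 - q2.1))
      + (s * ori p q2 q1) * (t * (r1.1 - p.1))
      = (s * ori p r1 q2) * (t * (p.1 - q1.1)) := by
    unfold ori; ring
  have n1 : 0 ≤ (s * ori p r1 q1) * (t * (p.1 - q2.1)) := mul_nonneg ha.le f3
  have n2 : 0 ≤ (s * ori p q2 q1) * (t * (r1.1 - p.1)) := mul_nonneg hc.le f2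
  have n3 : (s * ori p r1 q2) * (t * (p.1 - q1.1)) ≤ 0 :=
    mul_nonpos_of_nonpos_of_nonneg hb'.le f1
  have z1 : (s * ori p r1 q1) * (t * (p.1 - q2.1)) = 0 := by linarith
  have z2 : (s * ori p q2 q1) * (t * (r1.1 - p.1)) = 0 := by linarith
  have z1' : t * (p.1 - q2.1) = 0 := by
    rcases mul_eq_zero.1 z1 with h | h
    · exact absurd h ha.ne'
    · exact h
  have z2' : t * (r1.1 - p.1) = 0 := by
    rcases mul_eq_zero.1 z2 with h | h
    · exact absurd h hc.ne'
    · exact h
  have ht0 : t ≠ 0 := by rintro rfl; simp at ht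
  have e1 : p.1 - q2.1 = 0 := by
    rcases mul_eq_zero.1 z1' with h | h
    · exact absurd h ht0
    · exact h
  have e2 : r1.1 - p.1 = 0 := by
    rcases mul_eq_zero.1 z2' with h | h
    · exact absurd h ht0
    · exact h
  apply hb
  have e1' : q2.1 - p.1 = 0 := by linarith
  unfold ori
  rw [e2, e1']
  ring

lemma ac_half {P : Finset Pt} (hP : GenPos P) {A : Finset (Sym2 Pt)}
    (hpl : Plane A) {t s : ℝ} (ht : t * t = 1) {p q1 r1 q2 r2 : Pt} (h1 : ET P A q1 p r1)
    (h2 : ET P A q2 p r2) (l1 : AcLL t q1 p) (l2 : AcLL t p r1) (l3 : AcLL t q2 p)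
    (ha : 0 < s * ori p r1 q1) (hc : 0 < s * ori p q2 q1) : False := by
  have hs0 : s ≠ 0 := by rintro rfl; simp at ha
  have nr : r1 ≠ q2 := by
    rintro rfl
    exact l2.asymm l3
  have nq : q1 ≠ q2 := by
    rintro rfl
    rw [ori_self_right, mul_zero] at hc
    exact lt_irrefl _ hc
  have hb0 : ori p r1 q2 ≠ 0 :=
    hP p h1.hb r1 h1.hc q2 h2.ha l2.ne l3.ne.symm nr
  have hb := ac_inside ht l1 l2 l3 ha hc (mul_ne_zero hs0 hb0)
  have e1 : ori q1 p q2 = ori p q2 q1 := (ori_cyc q1 p q2).symm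
  have e2 : ori q1 r1 q2 = - ori r1 q1 q2 := ori_swap r1 q1 q2
  have e3 : ori q1 r1 p = - ori p r1 q1 := by
    unfold ori; ring
  have e4 : ori p q2 r1 = - ori p r1 q2 := ori_swap' p r1 q2
  have key : s * ori r1 q1 q2 < 0 := by
    by_contra hge
    have hge' : 0 ≤ s * ori r1 q1 q2 := not_lt.1 hge
    have hT : InT q1 p r1 q2 := by
      rcases lt_or_gt_of_ne hs0 with hs | hs
      · right
        rw [e1]
        refine ⟨?_, ?_, ?_⟩
        · by_contra h
          exact absurd hc (not_lt.2 (mul_nonpos_of_nonpos_of_nonneg hs.le (not_le.1 h).le))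
        · by_contra h
          exact absurd hb (not_lt.2 (mul_nonpos_of_nonpos_of_nonneg hs.le (not_le.1 h).le))
        · by_contra h
          exact absurd hge' (not_le.2 (mul_neg_of_neg_of_pos hs (not_le.1 h)))
      · left
        rw [e1]
        refine ⟨?_, ?_, ?_⟩
        · by_contra h
          exact absurd hc (not_lt.2 (mul_nonpos_of_nonneg_of_nonpos hs.le (not_le.1 h).le))
        · by_contra h
          exact absurd hb (not_lt.2 (mul_nonpos_of_nonneg_of_nonpos hs.le (not_le.1 h).le))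
        · by_contra h
          exact absurd hge' (not_le.2 (mul_neg_of_pos_of_neg hs (not_le.1 h)))
    rcases h1.em.2 q2 h2.ha hT with h | h | h
    · exact nq h.symm
    · exact l3.ne h
    · exact nr h.symm
  have hcr : Cr p q2 q1 r1 := by
    have hss : 0 < s * s := mul_self_pos.2 hs0
    constructor
    · have h : 0 < (s * ori p q2 q1) * (s * ori p r1 q2) := mul_pos hc hb
      rw [e4]
      by_contra h'
      have h'' : 0 ≤ ori p q2 q1 * -ori p r1 q2 := not_lt.1 h'
      have := mul_nonneg hss.le h''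
      nlinarith
    · have h : 0 < (s * ori p r1 q1) * (-(s * ori r1 q1 q2)) := mul_pos ha (by linarith)
      rw [e3, e2]
      by_contra h'
      have h'' : 0 ≤ -ori p r1 q1 * -ori r1 q1 q2 := not_lt.1 h'
      have := mul_nonneg hss.le h''
      nlinarith
  refine hpl s(p, q2) ?_ s(q1, r1) ?_ (SCr_mk.2 hcr)
  · rw [Sym2.eq_swap]; exact h2.ab
  · rw [Sym2.eq_swap]; exact h1.ca

lemma ac_left_eq {P : Finset Pt} (hP : GenPos P) {A : Finset (Sym2 Pt)}
    (hpl : Plane A) {t s : ℝ} (ht : t * t = 1) {p q1 r1 q2 r2 : Pt} (h1 : ET P A q1 p r1)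
    (h2 : ET P A q2 p r2) (l1 : AcLL t q1 p) (l2 : AcLL t p r1) (l3 : AcLL t q2 p) (l4 : AcLL t p r2)
    (ha : 0 < s * ori p r1 q1) (ha' : 0 < s * ori p r2 q2) : q1 = q2 := by
  by_contra hne
  have hs0 : s ≠ 0 := by rintro rfl; simp at ha
  have h0 : ori p q2 q1 ≠ 0 :=
    hP p h1.hb q2 h2.ha q1 h1.ha l3.ne.symm l1.ne.symm (Ne.symm hne)
  rcases lt_or_gt_of_ne (mul_ne_zero hs0 h0) with h | h
  · refine ac_half hP hpl ht h2 h1 l3 l4 l1 ha' (s := s) ?_
    rw [ori_swap' p q2 q1]
    linarith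
  · exact ac_half hP hpl ht h1 h2 l1 l2 l3 ha h

lemma ET.ac_rev {P : Finset Pt} {A : Finset (Sym2 Pt)} {a b c : Pt} (h : ET P A a b c) :
    ET P A c b a := h.rot.swap

lemma mid {P : Finset Pt} (hP : GenPos P) {A : Finset (Sym2 Pt)} (hA : A ⊆ Seg P)
    (hpl : Plane A) {p q1 r1 q2 r2 : Pt} (h1 : ET P A q1 p r1) (h2 : ET P A q2 p r2)
    (l1 : Lx q1 p) (l2 : Lx p r1) (l3 : Lx q2 p) (l4 : Lx p r2)
    (hs : 0 < ori q1 r1 p * ori q2 r2 p) : q1 = q2 ∧ r1 = r2 := by
  have e1 : ori p r1 q1 = - ori q1 r1 p := by unfold ori; ring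
  have e2 : ori p r2 q2 = - ori q2 r2 p := by unfold ori; ring
  have e3 : ori p q1 r1 = ori q1 r1 p := by unfold ori; ring
  have e4 : ori p q2 r2 = ori q2 r2 p := by unfold ori; ring
  rcases (mul_pos_iff.1 hs) with ⟨ha, hb⟩ | ⟨ha, hb⟩
  · constructor
    · refine ac_left_eq hP hpl (t := 1) (s := -1) (by norm_num) h1 h2 (acLL_one l1) (acLL_one l2)
        (acLL_one l3) (acLL_one l4) ?_ ?_
      · rw [e1]; linarith
      · rw [e2]; linarith
    · refine ac_left_eq hP hpl (t := -1) (s := 1) (by norm_num) h1.ac_rev h2.ac_rev (acLL_neg l2) (acLL_neg l1)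
        (acLL_neg l4) (acLL_neg l3) ?_ ?_
      · rw [e3]; linarith
      · rw [e4]; linarith
  · constructor
    · refine ac_left_eq hP hpl (t := 1) (s := 1) (by norm_num) h1 h2 (acLL_one l1) (acLL_one l2)
        (acLL_one l3) (acLL_one l4) ?_ ?_
      · rw [e1]; linarith
      · rw [e2]; linarith
    · refine ac_left_eq hP hpl (t := -1) (s := -1) (by norm_num) h1.ac_rev h2.ac_rev (acLL_neg l2) (acLL_neg l1)
        (acLL_neg l4) (acLL_neg l3) ?_ ?_
      · rw [e3]; linarith
      · rw [e4]; linarith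

/-- side number `i` of the triangle `q p r` -/
def acSd (q p r : Pt) (i : Fin 3) : Sym2 Pt := ![s(q, p), s(p, r), s(q, r)] i

lemma ac_sorted {P : Finset Pt} {A : Finset (Sym2 Pt)} {a b c : Pt} (h : ET P A a b c) :
    ∃ q p r i, ET P A q p r ∧ Lx q p ∧ Lx p r ∧ s(a, b) = acSd q p r i := by
  have hab : a ≠ b := by
    rintro rfl
    exact h.em.1 (ori_self_same _ _)
  have hbc : b ≠ c := by
    rintro rfl
    exact h.em.1 (ori_self_right _ _)
  have hac : a ≠ c := by
    rintro rfl
    exact h.em.1 (ori_self_left _ _)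
  rcases acLx_total hab with h1 | h1
  · rcases acLx_total hbc with h2 | h2
    · exact ⟨a, b, c, 0, h, h1, h2, rfl⟩
    · rcases acLx_total hac with h3 | h3
      · exact ⟨a, c, b, 2, h.swap.rot, h3, h2, rfl⟩
      · exact ⟨c, a, b, 1, h.rot.rot, h3, h1, rfl⟩
  · rcases acLx_total hac with h2 | h2
    · exact ⟨b, a, c, 0, h.swap, h1, h2, Sym2.eq_swap⟩
    · rcases acLx_total hbc with h3 | h3
      · exact ⟨b, c, a, 2, h.rot, h3, h2, Sym2.eq_swap⟩
      · exact ⟨c, b, a, 1, h.ac_rev, h3, h1, Sym2.eq_swap⟩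

theorem card_tri {P : Finset Pt} (hP : GenPos P) {A : Finset (Sym2 Pt)} (hA : Tri P A) :
    A.card ≤ 6 * P.card := by
  classical
  rcases Nat.lt_or_ge P.card 3 with hc | hc
  · have h1 : A.card ≤ P.sym2.card := by
      refine Finset.card_le_card (hA.1.trans ?_)
      unfold Seg
      exact Finset.filter_subset _ _
    rw [Finset.card_sym2] at h1
    refine h1.trans ?_
    have : P.card = 0 ∨ P.card = 1 ∨ P.card = 2 := by omega
    rcases this with h | h | h <;> rw [h] <;> decide
  · have hmain : A.card ≤ (P ×ˢ (Finset.univ : Finset Bool) ×ˢ (Finset.univ : Finset (Fin 3))).card := by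
      refine Finset.card_le_card_of_forall_subsingleton
        (fun e x => ∃ q r, ET P A q x.1 r ∧ Lx q x.1 ∧ Lx x.1 r ∧
          (x.2.1 = decide (0 < ori q r x.1)) ∧ e = acSd q x.1 r x.2.2) ?_ ?_
      · intro e he
        induction e using Sym2.ind with
        | _ a b =>
          have hab := mem_Seg.1 (hA.1 he)
          obtain ⟨p, hp, hpa, hpb⟩ : ∃ p ∈ P, p ≠ a ∧ p ≠ b := by
            have h2 : ({a, b} : Finset Pt).card < P.card :=
              lt_of_le_of_lt Finset.card_le_two hc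
            obtain ⟨p, hp, hn⟩ := Finset.exists_mem_notMem_of_card_lt_card h2
            refine ⟨p, hp, ?_, ?_⟩
            · rintro rfl; exact hn (by simp)
            · rintro rfl; exact hn (by simp)
          obtain ⟨c, hc1, _⟩ := local_side hP hA he hp hpa hpb
          obtain ⟨q, p', r, i, g1, g2, g3, g4⟩ := ac_sorted hc1
          exact ⟨(p', decide (0 < ori q r p'), i),
            Finset.mem_product.2 ⟨g1.hb, Finset.mem_product.2 ⟨Finset.mem_univ _,
              Finset.mem_univ _⟩⟩, q, r, g1, g2, g3, rfl, g4⟩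
      · rintro ⟨p, s, i⟩ _ e ⟨_, q1, r1, g1, g2, g3, g4, g5⟩ e' ⟨_, q2, r2, k1, k2, k3, k4, k5⟩
        simp only at g1 g2 g3 g4 g5 k1 k2 k3 k4 k5
        have hs : 0 < ori q1 r1 p * ori q2 r2 p := by
          have n1 : ori q1 r1 p ≠ 0 := by
            have := g1.em.1
            rw [ori_swap'] ; exact neg_ne_zero.2 this
          have n2 : ori q2 r2 p ≠ 0 := by
            have := k1.em.1
            rw [ori_swap'] ; exact neg_ne_zero.2 this
          rw [g4] at k4
          have k4' : (0 < ori q1 r1 p) ↔ (0 < ori q2 r2 p) := by simpa using k4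
          by_cases h : 0 < ori q1 r1 p
          · exact mul_pos h (k4'.1 h)
          · have h' : ¬ 0 < ori q2 r2 p := fun h'' => h (k4'.2 h'')
            exact mul_pos_of_neg_of_neg (lt_of_le_of_ne (not_lt.1 h) n1)
              (lt_of_le_of_ne (not_lt.1 h') n2)
        obtain ⟨rfl, rfl⟩ := mid hP hA.1 hA.2.1 g1 k1 g2 g3 k2 k3 hs
        rw [g5, k5]
    refine hmain.trans ?_
    rw [Finset.card_product, Finset.card_product]
    simp
    omega

theorem card_plane {P : Finset Pt} (hP : GenPos P) {A : Finset (Sym2 Pt)} (hA : A ⊆ Seg P)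
    (hpl : Plane A) : A.card ≤ 6 * P.card := by
  obtain ⟨B, hB, hAB⟩ := exists_tri hA hpl
  exact (Finset.card_le_card hAB).trans (card_tri hP hB)

end F059
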