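import Pool.Agent.Lib.F059.AOrd

/-!
# MP_f059c0_co, layer A, module ACmp (1.5 h): positions do not change at a corner

**cmp**: `g, h` segments of `P` that do not cross each other, both cross `a b` and `a c`
(`ori a b c ≠ 0`); if `h` is before `g` on `a b` then `h` is before `g` on `a c`.
Proof.  Otherwise `tau a c g <= tau a c h`; equality gives `g = h` (`tau_inj`), contradiction to
`tau a b h < tau a b g`.  So with `x = pt a b (tau a b g)`, `y = pt a c (tau a c g)` on `g` and
`x' = pt a b (tau a b h)`, `y' = pt a c (tau a c h)` on `h`: the segments `x y` and `x' y'`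
cross: with `s' < s` the parameters on `a b` and `t < t'` on `a c` (all in `(0,1)`), compute
`ori x y x' = K * t * (s - s')`-like products (`K = ori a b c`): signs opposite at `x'` and `y'`,
and opposite for `x, y` with respect to the line `x' y'` (all four determinants are explicit
polynomials: `ori x y x' = (s - s') t K`, `ori x y y' = - s (t' - t) K`,
`ori x' y' x = - (s - s') t' K`, `ori x' y' y = s' (t' - t) K`, check signs with `ring`).  By
`Cr_sub` twice (both `x, y` are points of `g`; both `x', y'` of `h`; use `Cr.symm`) `g` and `h`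
cross: contradiction.

**pre_eq**: `a b c` empty, `B` plane, `g ∈ B` crosses `a b` and `a c`.  Then the members of `B`
crossing `a b` before `g` are the members crossing `a c` before `g`, so the numbers agree.
Proof: let `h ∈ B` cross `a b` with `tau a b h < tau a b g`.  `exitP`: `c ∈ h` or `h` crosses
`a c` or `b c`; in the first and third case `ord` gives `tau a b g < tau a b h`, contradiction;
so `h` crosses `a c`, and `cmp` gives `tau a c h < tau a c g`.  The converse is the same with
`b` and `c` exchanged (`Em` is symmetric: `Em.rot`, `Em.swap`).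
**pre_cut**: in the same situation all members of `B` crossing `a b` before `g`, and `g` itself,
cut off the corner `a`: `pre B a b (tau a b g) + 1 <= cut B a b c`.
-/

namespace F059

lemma cmp {P : Finset Pt} (hP : GenPos P) {a b c : Pt} (hT : ori a b c ≠ 0)
    {g h : Sym2 Pt} (hg : g ∈ Seg P) (hh : h ∈ Seg P) (hgh : ¬ SCr g h)
    (h1 : SCr s(a, b) g) (h2 : SCr s(a, c) g) (h3 : SCr s(a, b) h) (h4 : SCr s(a, c) h)
    (hlt : tau a b h < tau a b g) : tau a c h < tau a c g := by
  by_contra hcon
  push Not at hcon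
  rcases eq_or_lt_of_le hcon with heq | hlt2
  · have h5 : g = h := tau_inj hP hg hh hgh h2 h4 heq
    rw [h5] at hlt
    exact lt_irrefl _ hlt
  · induction g using Sym2.ind with
    | _ u v =>
    induction h using Sym2.ind with
    | _ u' v' =>
    rw [SCr_mk] at h1 h2 h3 h4
    obtain ⟨s0, s1, σ1, r1, r1', e1⟩ := Cr_pt h1
    obtain ⟨t0, t1, σ2, r2, r2', e2⟩ := Cr_pt h2
    obtain ⟨s0', s1', σ3, r3, r3', e3⟩ := Cr_pt h3
    obtain ⟨t0', t1', σ4, r4, r4', e4⟩ := Cr_pt h4
    set s := tau a b s(u, v) with hs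
    set t := tau a c s(u, v) with ht
    set s' := tau a b s(u', v') with hs'
    set t' := tau a c s(u', v') with ht'
    have k1 : ori (pt a b s) (pt a c t) (pt a b s') = (s - s') * t * ori a b c := by
      unfold ori pt; ring
    have k2 : ori (pt a b s) (pt a c t) (pt a c t') = - (s * (t' - t)) * ori a b c := by
      unfold ori pt; ring
    have k3 : ori (pt a b s') (pt a c t') (pt a b s) = - ((s - s') * t') * ori a b c := by
      unfold ori pt; ring
    have k4 : ori (pt a b s') (pt a c t') (pt a c t) = s' * (t' - t) * ori a b c := by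
      unfold ori pt; ring
    have hK : 0 < ori a b c ^ 2 := by positivity
    have hA : 0 < s - s' := by linarith
    have hB : 0 < t' - t := by linarith
    have hcr : Cr (pt a b s) (pt a c t) (pt a b s') (pt a c t') := by
      refine ⟨?_, ?_⟩
      · rw [k1, k2]
        have : 0 < (s - s') * t * (s * (t' - t)) * ori a b c ^ 2 := by positivity
        nlinarith
      · rw [k3, k4]
        have : 0 < (s - s') * t' * (s' * (t' - t)) * ori a b c ^ 2 := by positivity
        nlinarith
    rw [e1, e2] at hcr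
    have c1 := (Cr_sub r1.le r1'.le r2.le r2'.le hcr).symm
    rw [e3, e4] at c1
    have c2 := (Cr_sub r3.le r3'.le r4.le r4'.le c1).symm
    exact hgh (SCr_mk.2 c2)

namespace ACmpAux

lemma dir {P : Finset Pt} (hP : GenPos P) {B : Finset (Sym2 Pt)} (hBP : B ⊆ Seg P)
    (hB : Plane B) {a b c : Pt} (ha : a ∈ P) (hb : b ∈ P) (hc : c ∈ P) (hE : Em P a b c)
    {g : Sym2 Pt} (hg : g ∈ B) (h1 : SCr s(a, b) g) (h2 : SCr s(a, c) g)
    {h : Sym2 Pt} (hh : h ∈ B) (h3 : SCr s(a, b) h) (hlt : tau a b h < tau a b g) :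
    SCr s(a, c) h ∧ tau a c h < tau a c g := by
  have hgh : ¬ SCr g h := hB g hg h hh
  rcases exitP hP ha hb hc hE (hBP hh) h3 with h4 | h4 | h4
  · exact absurd (ord hP ha hb hc hE (hBP hg) (hBP hh) hgh h1 h2 h3 (Or.inl h4))
      (not_lt.2 hlt.le)
  · exact ⟨h4, cmp hP hE.1 (hBP hg) (hBP hh) hgh h1 h2 h3 h4 hlt⟩
  · exact absurd (ord hP ha hb hc hE (hBP hg) (hBP hh) hgh h1 h2 h3 (Or.inr h4))
      (not_lt.2 hlt.le)

end ACmpAux

lemma pre_eq {P : Finset Pt} (hP : GenPos P) {B : Finset (Sym2 Pt)} (hBP : B ⊆ Seg P)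
    (hB : Plane B) {a b c : Pt} (ha : a ∈ P) (hb : b ∈ P) (hc : c ∈ P) (hE : Em P a b c)
    {g : Sym2 Pt} (hg : g ∈ B) (h1 : SCr s(a, b) g) (h2 : SCr s(a, c) g) :
    pre B a b (tau a b g) = pre B a c (tau a c g) := by
  classical
  unfold pre
  congr 1
  ext h
  simp only [Finset.mem_filter]
  constructor
  · rintro ⟨hh, h3, h4⟩
    exact ⟨hh, ACmpAux.dir hP hBP hB ha hb hc hE hg h1 h2 hh h3 h4⟩
  · rintro ⟨hh, h3, h4⟩
    exact ⟨hh, ACmpAux.dir hP hBP hB ha hc hb hE.swap.rot hg h2 h1 hh h3 h4⟩

lemma pre_cut {P : Finset Pt} (hP : GenPos P) {B : Finset (Sym2 Pt)} (hBP : B ⊆ Seg P)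
    (hB : Plane B) {a b c : Pt} (ha : a ∈ P) (hb : b ∈ P) (hc : c ∈ P) (hE : Em P a b c)
    {g : Sym2 Pt} (hg : g ∈ B) (h1 : SCr s(a, b) g) (h2 : SCr s(a, c) g) :
    pre B a b (tau a b g) + 1 ≤ cut B a b c := by
  classical
  unfold pre cut
  rw [← Finset.card_insert_of_notMem (a := g)]
  · refine Finset.card_le_card ?_
    intro h hh
    rcases Finset.mem_insert.1 hh with rfl | hh
    · exact Finset.mem_filter.2 ⟨hg, h1, h2⟩
    · obtain ⟨hhB, h3, h4⟩ := Finset.mem_filter.1 hh
      exact Finset.mem_filter.2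
        ⟨hhB, h3, (ACmpAux.dir hP hBP hB ha hb hc hE hg h1 h2 hhB h3 h4).1⟩
  · intro hcon
    exact lt_irrefl _ (Finset.mem_filter.1 hcon).2.2

end F059
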