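import Pool.Agent.Lib.F059.AOrd

/-!
# MP_f059c0_co, layer A, module AConv (1.5 h): the quadrilateral is convex

`a b c`, `a b d` empty triangles on different sides of `a b`.  If some edge of `B` crosses `a b`
and meets the other side `a c` (crosses it or ends in `c`), and some edge of `B` crosses `a b` and
meets `a d` in the same sense, then the quadrilateral is strictly convex at `a`:
`ori a b c * ori a d c > 0`.

Proof.  Let `g = s(u,v)` be the edge of `B` crossing `a b` with minimal `tau a b g`.
Claim 1: `g` crosses `a c` or ends in `c`.  Otherwise `g` crosses `b c` (`exitP`).  Let `g1` be the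
given edge: it crosses `a b` and (crosses `a c` or ends in `c`).  `ord` for the triangle `b a c`
(`g` crosses `b a`, `b c`; `g1` crosses `b a` and (`c ∈ g1` or crosses `a c`)) gives
`tau b a g < tau b a g1`, i.e. (`tau_swap`) `tau a b g1 < tau a b g`: contradiction to the choice.
Claim 2: the same with `d`.
So `psi q = ori u v q` satisfies (changing the sign, i.e. exchanging `u, v`) `psi a > 0`,
`psi b < 0`, `psi c <= 0`, `psi d <= 0`.  Vectors `B, C, D` from `a` to `b, c, d`:
`(C x D) B + (D x B) C + (B x C) D = 0`, apply the linear part of `psi`: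
`(ori a c d)(psi b - psi a) + (ori a d b)(psi c - psi a) + (ori a b c)(psi d - psi a) = 0`
(check with `unfold ori; ring`).  `ori a b c` and `ori a d b = - ori a b d` have the same strict
sign `e`; all three differences are `< 0`; so `ori a c d` has the sign `- e`, i.e.
`ori a d c = - ori a c d` has the sign `e` of `ori a b c`.

`conv_cr`: convex at `a` and at `b` implies that `a b` and `c d` cross:
`ori c d a = - ori a d c`, `ori c d b = - ori b d c`, `ori b a c = - ori a b c`.
-/

namespace F059

namespace AConvAux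

/-- the crossing edge nearest to `a` meets the side `a c` -/
lemma first {P : Finset Pt} (hP : GenPos P) {B : Finset (Sym2 Pt)} (hBP : B ⊆ Seg P)
    (hB : Plane B) {a b c : Pt} (ha : a ∈ P) (hb : b ∈ P) (hc : c ∈ P)
    (hEc : Em P a b c) (hgc : ∃ g ∈ B, SCr s(a, b) g ∧ (SCr s(a, c) g ∨ c ∈ g))
    {g : Sym2 Pt} (hg : g ∈ B) (h1 : SCr s(a, b) g)
    (hmin : ∀ h ∈ B, SCr s(a, b) h → tau a b g ≤ tau a b h) :
    SCr s(a, c) g ∨ c ∈ g := by
  rcases exitP hP ha hb hc hEc (hBP hg) h1 with h | h | h
  · exact Or.inr h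
  · exact Or.inl h
  · obtain ⟨g1, hg1, h2, h3⟩ := hgc
    have := ord hP hb ha hc hEc.swap (hBP hg) (hBP hg1) (hB g hg g1 hg1) h1.swap_left h
      h2.swap_left h3.symm
    rw [tau_swap h1, tau_swap h2] at this
    have := hmin g1 hg1 h2
    linarith

lemma sgn {a c u v : Pt} (h : SCr s(a, c) s(u, v) ∨ c ∈ s(u, v)) :
    ori u v a * ori u v c ≤ 0 := by
  rcases h with h | h
  · exact (SCr_mk.1 h).2.le
  · rw [Sym2.mem_iff] at h
    rcases h with rfl | rfl
    · rw [ori_self_left]; simp
    · rw [ori_self_right]; simp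

end AConvAux

open AConvAux in
lemma conv {P : Finset Pt} (hP : GenPos P) {B : Finset (Sym2 Pt)} (hBP : B ⊆ Seg P)
    (hB : Plane B) {a b c d : Pt} (ha : a ∈ P) (hb : b ∈ P) (hc : c ∈ P) (hd : d ∈ P)
    (hEc : Em P a b c) (hEd : Em P a b d) (hs : ori a b c * ori a b d < 0)
    (hgc : ∃ g ∈ B, SCr s(a, b) g ∧ (SCr s(a, c) g ∨ c ∈ g))
    (hgd : ∃ g ∈ B, SCr s(a, b) g ∧ (SCr s(a, d) g ∨ d ∈ g)) :
    0 < ori a b c * ori a d c := by
  classical
  obtain ⟨g, hg, hmin⟩ := Finset.exists_min_image (B.filter (SCr s(a, b))) (fun h => tau a b h)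
    (by
      obtain ⟨g, hg, h1, -⟩ := hgc
      exact ⟨g, Finset.mem_filter.2 ⟨hg, h1⟩⟩)
  rw [Finset.mem_filter] at hg
  have hmin' : ∀ h ∈ B, SCr s(a, b) h → tau a b g ≤ tau a b h := by
    intro h hh h1
    exact hmin h (Finset.mem_filter.2 ⟨hh, h1⟩)
  have k1 := first hP hBP hB ha hb hc hEc hgc hg.1 hg.2 hmin'
  have k2 := first hP hBP hB ha hb hd hEd hgd hg.1 hg.2 hmin'
  have k0 := hg.2
  clear hmin hmin'
  induction g using Sym2.inductionOn with
  | _ u v =>
  have s0 := (SCr_mk.1 k0).2
  have s1 := sgn k1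
  have s2 := sgn k2
  have hid : ori a c d * (ori u v b - ori u v a) - ori a b d * (ori u v c - ori u v a)
      + ori a b c * (ori u v d - ori u v a) = 0 := by unfold ori; ring
  have hadc : ori a d c = - ori a c d := ori_swap' a c d
  rw [hadc]
  generalize ori u v a = A at *
  generalize ori u v b = Bb at *
  generalize ori u v c = C at *
  generalize ori u v d = Dd at *
  generalize ori a b c = X at *
  generalize ori a b d = Y at *
  generalize ori a c d = Z at *
  have hA : 0 < A * A := by
    have : A ≠ 0 := by rintro rfl; simp at s0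
    exact mul_self_pos.2 this
  have hX : 0 < X * X := by
    have : X ≠ 0 := by rintro rfl; simp at hs
    exact mul_self_pos.2 this
  have b1 : A * (Bb - A) < 0 := by nlinarith
  have b2 : A * (C - A) < 0 := by nlinarith
  have b3 : A * (Dd - A) < 0 := by nlinarith
  have e : X * Z * (A * (Bb - A)) = X * Y * (A * (C - A)) - X * X * (A * (Dd - A)) := by
    linear_combination (X * A) * hid
  have p1 : 0 < X * Y * (A * (C - A)) := mul_pos_of_neg_of_neg hs b2
  have p2 : X * X * (A * (Dd - A)) < 0 := mul_neg_of_pos_of_neg hX b3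
  have p3 : 0 < X * Z * (A * (Bb - A)) := by rw [e]; linarith
  have p4 : X * Z < 0 := by
    by_contra hcon
    rw [not_lt] at hcon
    have := mul_nonpos_of_nonneg_of_nonpos hcon b1.le
    linarith
  linarith

lemma conv_cr {a b c d : Pt} (hs : ori a b c * ori a b d < 0) (h1 : 0 < ori a b c * ori a d c)
    (h2 : 0 < ori b a c * ori b d c) : Cr a b c d := by
  refine ⟨hs, ?_⟩
  have e1 : ori c d a = - ori a d c := by unfold ori; ring
  have e2 : ori c d b = - ori b d c := by unfold ori; ring
  have e3 : ori b a c = - ori a b c := ori_swap a b c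
  rw [e3] at h2
  rw [e1, e2]
  generalize ori a b c = X at *
  generalize ori a d c = Y at *
  generalize ori b d c = Z at *
  have h3 : 0 < X * Y * (-X * Z) := mul_pos h1 h2
  have h4 : X * Y * (-X * Z) = - (X * X) * (Y * Z) := by ring
  rw [h4] at h3
  have hX : 0 ≤ X * X := mul_self_nonneg X
  by_contra hcon
  rw [not_lt] at hcon
  have h5 : 0 ≤ Y * Z := by linarith
  have := mul_nonneg hX h5
  linarith

end F059
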