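import Pool.Agent.Lib.F059.Basic

/-!
# MP_f059c0_co, layer A, definitions

Closed triangles, empty triangles, points on segments, crossing parameters, numbers of
edges cutting off a corner of a triangle or running through a vertex.
-/

namespace F059

/-- `p` lies in the closed triangle `x y z` (of any orientation) -/
def InT (x y z p : Pt) : Prop :=
  (0 ≤ ori x y p ∧ 0 ≤ ori y z p ∧ 0 ≤ ori z x p) ∨
  (ori x y p ≤ 0 ∧ ori y z p ≤ 0 ∧ ori z x p ≤ 0)

/-- `p` lies in the open triangle `x y z` (of any orientation) -/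
def InI (x y z p : Pt) : Prop :=
  (0 < ori x y p ∧ 0 < ori y z p ∧ 0 < ori z x p) ∨
  (ori x y p < 0 ∧ ori y z p < 0 ∧ ori z x p < 0)

/-- `a b c` is a nondegenerate triangle which contains no point of `P` except its vertices -/
def Em (P : Finset Pt) (a b c : Pt) : Prop :=
  ori a b c ≠ 0 ∧ ∀ p ∈ P, InT a b c p → p = a ∨ p = b ∨ p = c

/-- `a b c` is an empty triangle with vertices in `P` and all sides in `A` -/
structure ET (P : Finset Pt) (A : Finset (Sym2 Pt)) (a b c : Pt) : Prop where
  ha : a ∈ P
  hb : b ∈ P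
  hc : c ∈ P
  em : Em P a b c
  ab : s(a, b) ∈ A
  bc : s(b, c) ∈ A
  ca : s(c, a) ∈ A

/-- the point with parameter `t` on the line `a b` -/
def pt (a b : Pt) (t : ℝ) : Pt := (a.1 + t * (b.1 - a.1), a.2 + t * (b.2 - a.2))

/-- the parameter, seen from `a`, of the common point of the line `a b` and the line of `g` -/
noncomputable def tau (a b : Pt) (g : Sym2 Pt) : ℝ :=
  Sym2.lift ⟨fun u v => ori u v a / (ori u v a - ori u v b), by
    intro u v
    have h1 : ori u v a = - ori v u a := ori_swap v u a
    have h2 : ori u v b = - ori v u b := ori_swap v u b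
    show ori u v a / (ori u v a - ori u v b) = ori v u a / (ori v u a - ori v u b)
    rw [h1, h2, show -ori v u a - -ori v u b = -(ori v u a - ori v u b) by ring, neg_div_neg_eq]⟩ g

open Classical in
/-- number of members of `B` which cut off the corner `a` of the triangle `a b c`
(cross `a b` and `a c`) -/
noncomputable def cut (B : Finset (Sym2 Pt)) (a b c : Pt) : ℕ :=
  (B.filter (fun h => SCr s(a, b) h ∧ SCr s(a, c) h)).card

open Classical in
/-- number of members of `B` which have the end `c` and cross `a b` -/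
noncomputable def thr (B : Finset (Sym2 Pt)) (c a b : Pt) : ℕ :=
  (B.filter (fun h => c ∈ h ∧ SCr s(a, b) h)).card

open Classical in
/-- number of members of `B` which cross `a b` before the point with parameter `t` -/
noncomputable def pre (B : Finset (Sym2 Pt)) (a b : Pt) (t : ℝ) : ℕ :=
  (B.filter (fun h => SCr s(a, b) h ∧ tau a b h < t)).card

/-! ### first lemmas -/

lemma tau_mk (a b u v : Pt) : tau a b s(u, v) = ori u v a / (ori u v a - ori u v b) := rfl

/-- barycentric coordinates, multiplied by the area -/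
lemma bary (x y z u v p : Pt) :
    ori x y z * ori u v p
      = ori y z p * ori u v x + ori z x p * ori u v y + ori x y p * ori u v z := by
  unfold ori; ring

lemma bary_sum (x y z p : Pt) : ori y z p + ori z x p + ori x y p = ori x y z := by
  unfold ori; ring

/-- three vectors in the plane (Cramer) -/
lemma cramer (a p q w u v : Pt) :
    ori a p q * (ori u v w - ori u v a)
      = ori a w q * (ori u v p - ori u v a) + ori a p w * (ori u v q - ori u v a) := by
  unfold ori; ring

lemma ori_pt (p q a b : Pt) (t : ℝ) :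
    ori p q (pt a b t) = (1 - t) * ori p q a + t * ori p q b := by
  unfold ori pt; ring

lemma ori_self_left (p q : Pt) : ori p q p = 0 := by unfold ori; ring

lemma ori_self_right (p q : Pt) : ori p q q = 0 := by unfold ori; ring

lemma ori_self_same (p q : Pt) : ori p p q = 0 := by unfold ori; ring

lemma InT.rot {x y z p : Pt} (h : InT x y z p) : InT y z x p := by
  rcases h with ⟨h1, h2, h3⟩ | ⟨h1, h2, h3⟩
  · exact Or.inl ⟨h2, h3, h1⟩
  · exact Or.inr ⟨h2, h3, h1⟩

lemma InT.swap {x y z p : Pt} (h : InT x y z p) : InT y x z p := by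
  have e1 : ori y x p = - ori x y p := ori_swap x y p
  have e2 : ori x z p = - ori z x p := ori_swap z x p
  have e3 : ori z y p = - ori y z p := ori_swap y z p
  rcases h with ⟨h1, h2, h3⟩ | ⟨h1, h2, h3⟩
  · right; refine ⟨?_, ?_, ?_⟩ <;> linarith
  · left; refine ⟨?_, ?_, ?_⟩ <;> linarith

lemma Em.rot {P : Finset Pt} {a b c : Pt} (h : Em P a b c) : Em P b c a := by
  refine ⟨by rw [ori_cyc]; exact h.1, ?_⟩
  intro p hp hT
  have := h.2 p hp hT.rot.rot
  tauto

lemma Em.swap {P : Finset Pt} {a b c : Pt} (h : Em P a b c) : Em P b a c := by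
  refine ⟨by rw [ori_swap]; exact neg_ne_zero.mpr h.1, ?_⟩
  intro p hp hT
  have := h.2 p hp hT.swap
  tauto

lemma ET.swap {P : Finset Pt} {A : Finset (Sym2 Pt)} {a b c : Pt} (h : ET P A a b c) :
    ET P A b a c :=
  ⟨h.hb, h.ha, h.hc, h.em.swap, by rw [Sym2.eq_swap]; exact h.ab,
    by rw [Sym2.eq_swap]; exact h.ca, by rw [Sym2.eq_swap]; exact h.bc⟩

lemma ET.rot {P : Finset Pt} {A : Finset (Sym2 Pt)} {a b c : Pt} (h : ET P A a b c) :
    ET P A b c a :=
  ⟨h.hb, h.hc, h.ha, h.em.rot, h.bc, h.ca, h.ab⟩

lemma SCr.swap_left {a b : Pt} {g : Sym2 Pt} (h : SCr s(a, b) g) : SCr s(b, a) g := by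
  rw [Sym2.eq_swap]; exact h

end F059
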