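import Pool.Agent.Lib.F059.AStep

/-!
# MP_f059c0_co, layer A, module AEven (2 h): the even case

See the header of `AStep`, paragraph **even_false**.
-/

namespace F059

/-- `(a,b)` is a middle pair -/
private def Mid (A B : Finset (Sym2 Pt)) (m : ℕ) (w w1 w2 a b : Pt) : Prop :=
  s(a, b) ∈ A ∧ N B s(a, b) = 2 * m ∧ SCr s(a, b) s(w, w1) ∧ SCr s(a, b) s(w, w2) ∧
    pre B a b (tau a b s(w, w1)) + 1 = m ∧ pre B a b (tau a b s(w, w2)) = m

private lemma even_desc {P : Finset Pt} (hP : GenPos P) {A B : Finset (Sym2 Pt)} (hA : Tri P A)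
    (hB : Tri P B) {m : ℕ} (hm : 0 < m) (hmax : ∀ e ∈ A, N B e ≤ 2 * m)
    (hT : TieAll P A B (2 * m)) {w w1 w2 : Pt} (hW : ET P B w w1 w2) {a b : Pt}
    (hM : Mid A B m w w1 w2 a b) :
    ∃ a' b', Mid A B m w w1 w2 a' b' ∧ tau w w1 s(a', b') < tau w w1 s(a, b) := by
  obtain ⟨hab, hN, h1, h2, hp1, hp2⟩ := hM
  have hg1 : s(w, w1) ∈ B := hW.ab
  have hg2 : s(w, w2) ∈ B := by rw [Sym2.eq_swap]; exact hW.ca
  have c1 : Cr a b w w1 := SCr_mk.1 h1
  have hwa : w ≠ a := by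
    rintro rfl
    have := c1.1
    rw [ori_self_left, zero_mul] at this
    exact lt_irrefl _ this
  have hwb : w ≠ b := by
    rintro rfl
    have := c1.1
    rw [ori_self_right, zero_mul] at this
    exact lt_irrefl _ this
  obtain ⟨c, hE, hs⟩ := local_side hP hA hab hW.ha hwa hwb
  have hthr := (hT a b c hE hN).1
  have hno : ∀ h ∈ B, c ∈ h → ¬ SCr s(a, b) h := by
    intro h hh hc hcr
    classical
    unfold thr at hthr
    exact Finset.filter_eq_empty_iff.1 (Finset.card_eq_zero.1 hthr) hh ⟨hc, hcr⟩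
  have hac : s(a, c) ∈ A := by rw [Sym2.eq_swap]; exact hE.ca
  have hcb : s(c, b) ∈ A := by rw [Sym2.eq_swap]; exact hE.bc
  have x1 := exitP hP hE.ha hE.hb hE.hc hE.em (hB.1 hg1) h1
  have x2 := exitP hP hE.ha hE.hb hE.hc hE.em (hB.1 hg2) h2
  rcases x1 with x1 | x1 | x1
  · exact absurd h1 (hno _ hg1 x1)
  · rcases x2 with x2 | x2 | x2
    · exact absurd h2 (hno _ hg2 x2)
    · -- both cross `a c`
      obtain ⟨s1, s2⟩ := step hP hB hmax (by omega) hT hE hN hg2 h2 x2 (by rw [hp2]; omega)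
      have s3 := pre_eq hP hB.1 hB.2.1 hE.ha hE.hb hE.hc hE.em hg1 h1 x1
      refine ⟨a, c, ⟨hac, s1, x1, x2, ?_, ?_⟩, closer c1 (SCr_mk.1 x1) hs⟩
      · rw [← s3]; exact hp1
      · rw [s2]; exact hp2
    · exact (princ hP hB.1 hB.2.1 hE.ha hE.hb hE.hc hE.em hW h1 h2 hs x1 x2).elim
  · rcases x2 with x2 | x2 | x2
    · exact absurd h2 (hno _ hg2 x2)
    · -- wrong order
      exfalso
      have o1 := ord hP hE.ha hE.hb hE.hc hE.em (hB.1 hg2) (hB.1 hg1) (hB.2.1 _ hg2 _ hg1)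
        h2 x2 h1 (Or.inr x1)
      rw [pre_lt hg2 hg1 h2 h1] at o1
      omega
    · -- both cross `b c`
      have hE' := hE.swap
      have e1 : s(b, a) = s(a, b) := Sym2.eq_swap
      have h1' : SCr s(b, a) s(w, w1) := by rw [e1]; exact h1
      have h2' : SCr s(b, a) s(w, w2) := by rw [e1]; exact h2
      have hN' : N B s(b, a) = 2 * m := by rw [e1]; exact hN
      have n1 := n_split hP hB.1 hB.2.1 hg1 h1
      have n2 := n_split hP hB.1 hB.2.1 hg2 h2
      obtain ⟨s1, s2⟩ := step hP hB hmax (by omega) hT hE' hN' hg1 h1' x1 (by omega)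
      have s3 := pre_eq hP hB.1 hB.2.1 hE'.ha hE'.hb hE'.hc hE'.em hg2 h2' x2
      have n3 := n_split hP hB.1 hB.2.1 hg1 x1
      have n4 := n_split hP hB.1 hB.2.1 hg2 x2
      have e2 : s(c, b) = s(b, c) := Sym2.eq_swap
      have hs' : 0 < ori b a c * ori b a w := by
        rw [ori_swap a b c, ori_swap a b w]; linarith
      refine ⟨c, b, ⟨hcb, ?_, ?_, ?_, ?_, ?_⟩, ?_⟩
      · rw [e2]; exact s1
      · rw [e2]; exact x1
      · rw [e2]; exact x2
      · omega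
      · omega
      · rw [e2, ← e1]
        exact closer (SCr_mk.1 h1') (SCr_mk.1 x1) hs'

lemma even_false {P : Finset Pt} (hP : GenPos P) {A B : Finset (Sym2 Pt)} (hA : Tri P A)
    (hB : Tri P B) {m : ℕ} (hm : 0 < m) (hmax : ∀ e ∈ A, N B e ≤ 2 * m)
    (hT : TieAll P A B (2 * m)) {e : Sym2 Pt} (he : e ∈ A) (hN : N B e = 2 * m) : False := by
  classical
  induction e with
  | _ a0 b0 =>
  have hP0 := mem_Seg.1 (hA.1 he)
  obtain ⟨g, hg, h1, hp1⟩ := exists_pos (k := m - 1) hP hB.1 hB.2.1 (a := a0) (b := b0)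
    (by rw [hN]; omega)
  obtain ⟨g', hg', h2, hp2⟩ := exists_pos (k := m) hP hB.1 hB.2.1 (a := a0) (b := b0)
    (by rw [hN]; omega)
  have hlt : tau a0 b0 g < tau a0 b0 g' := by
    rw [pre_lt hg hg' h1 h2]; omega
  have hcons := pre_succ hg hg' h1 h2 (by omega)
  obtain ⟨w, w1, w2, rfl, rfl, hW⟩ := face hP hB hP0.1 hP0.2.1 hg hg' h1 h2 hlt hcons
  have hM0 : Mid A B m w w1 w2 a0 b0 := ⟨he, hN, h1, h2, by omega, hp2⟩
  set S := A.filter (fun e => ∃ a b, e = s(a, b) ∧ Mid A B m w w1 w2 a b) with hS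
  have hSne : S.Nonempty := ⟨s(a0, b0), Finset.mem_filter.2 ⟨he, a0, b0, rfl, hM0⟩⟩
  obtain ⟨e, heS, hmin⟩ := Finset.exists_min_image S (fun e => tau w w1 e) hSne
  obtain ⟨-, a, b, rfl, hM⟩ := Finset.mem_filter.1 heS
  obtain ⟨a', b', hM', hlt'⟩ := even_desc hP hA hB hm hmax hT hW hM
  have := hmin _ (Finset.mem_filter.2 ⟨hM'.1, a', b', rfl, hM'⟩)
  exact absurd hlt' (not_lt.2 this)

end F059
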