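import Pool.Agent.Lib.F059.ADefs

/-!
# MP_f059c0_co, layer A, module AExcl (1 h, pure algebra)

**excl1** (cevians cross): the segment `c w` crosses `a b`, the segment `a z` crosses `b c`;
then `c w` and `a z` cross.
Proof: `D = ori a b c`, wlog `D > 0` (or treat by signs).  `Cr a b c w` gives `ori a b w < 0`
and `ori c w a`, `ori c w b` of opposite signs; hence `w` lies in the cone at `c` spanned by
`a`, `b` (`ori c a w > 0`, `ori b c w > 0`; the other sign pattern would make all three
coordinates negative, `bary_sum`).  Similarly `ori b c z < 0`, `ori a b z > 0`,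
`ori c a z > 0`.  To show: `ori c w a * ori c w z < 0` and `ori a z c * ori a z w < 0`.
`bary` with `p := z`, `u v := c w`: `D ori c w z = (ori b c z)(ori c w a) + (ori c a z)(ori c w b)
+ 0` with `ori c w a = ori a c w = - ori c a w < 0`... both terms have the sign opposite to
`ori c w a` (`ori b c z < 0`; `ori c a z > 0`, `ori c w b` opposite to `ori c w a`).
The second product: the same computation with `a, z` for `c, w` (`bary` with `u v := a z`,
`p := w`).

**excl2** (`g = c w` against an edge cutting off the corner `c`): the segment `c w` crosses `a b`,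
the segment `u v` crosses `b c` and `a c`; then `c w` and `u v` cross.
Proof: `psi q = ori u v q`: `psi b * psi c < 0`, `psi a * psi c < 0`.
`D psi w = (ori b c w) psi a + (ori c a w) psi b + (ori a b w) psi c`, with the signs above
(`ori b c w, ori c a w > 0`, `ori a b w < 0` for `D > 0`): all terms have the sign of `psi a`.
So `psi c * psi w < 0`.  Other product `ori c w u * ori c w v < 0`: `phi q = ori c w q` has
opposite signs at `a` and `b`.  `D phi u = (ori b c u) phi a + (ori c a u) phi b`, the same for
`v`.  And `ori b c u * ori b c v < 0`, `ori c a u * ori c a v < 0` (both crossings).  If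
`ori b c u > 0 > ori b c v` then `ori c a u < 0 < ori c a v`: otherwise `ori c a u > 0 > ori c a v`
and `bary` at `v`: `0 = (ori b c v) psi a + (ori c a v) psi b + (ori a b v) psi c`; `psi a, psi b`
have the same sign, so `ori a b v * psi c` must have the sign of `psi a`, i.e. `ori a b v < 0`,
contradiction to `bary_sum` (sum `D > 0`).  So `phi u` has the sign of `phi a` and `phi v` has
the sign of `phi b`.  The other case is symmetric.
-/

namespace F059

namespace ExclAux

lemma sgn1 {D α β γ : ℝ} (hs : α + β + γ = D) (h1 : D * γ < 0) (h2 : 0 < α * β) :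
    0 < D * α ∧ 0 < D * β := by
  have h3 : 0 < D * α + D * β := by
    have e : D * α + D * β = D * D - D * γ := by rw [← hs]; ring
    rw [e]
    have := mul_self_nonneg D
    linarith
  have h4 : 0 < (D * α) * (D * β) := by
    have hD : D ≠ 0 := by
      rintro rfl
      simp at h1
    have := mul_pos (mul_self_pos.2 hD) h2
    nlinarith
  rcases pos_and_pos_or_neg_and_neg_of_mul_pos h4 with h | h
  · exact h
  · linarith [h.1, h.2]

lemma sgn2 {αu βu γu ψa ψb ψc : ℝ} (h0 : αu * ψa + βu * ψb + γu * ψc = 0) (hac : ψa * ψc < 0)
    (hbc : ψb * ψc < 0) (h : 0 < αu * βu) : 0 < αu * γu := by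
  have hα : αu ≠ 0 := by
    rintro rfl
    simp at h
  have hα2 : 0 < αu * αu := mul_self_pos.2 hα
  have hc : ψc ≠ 0 := by
    rintro rfl
    simp at hac
  have hc2 : 0 < ψc * ψc := mul_self_pos.2 hc
  have e : (αu * γu) * (ψc * ψc) = -((αu * αu) * (ψa * ψc)) - (αu * βu) * (ψb * ψc) := by
    have : αu * ψc * (αu * ψa + βu * ψb + γu * ψc) = 0 := by rw [h0, mul_zero]
    linarith
  have h5 := mul_neg_of_pos_of_neg hα2 hac
  have h6 := mul_neg_of_pos_of_neg h hbc
  have h7 : 0 < (αu * γu) * (ψc * ψc) := by rw [e]; linarith
  exact pos_of_mul_pos_left h7 hc2.le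

end ExclAux

open ExclAux

lemma excl1 {a b c w z : Pt} (h1 : Cr a b c w) (h2 : Cr b c a z) : Cr c w a z := by
  obtain ⟨h11, h12⟩ := h1
  obtain ⟨h21, h22⟩ := h2
  have sw := bary_sum a b c w
  have sz := bary_sum a b c z
  have e1 : ori c w a = - ori c a w := by unfold ori; ring
  have e2 : ori c w b = ori b c w := by unfold ori; ring
  have e3 : ori b c a = ori a b c := by unfold ori; ring
  have e4 : ori a z b = - ori a b z := by unfold ori; ring
  have e5 : ori a z c = ori c a z := by unfold ori; ring
  have b1 : ori a b c * ori c w z = ori b c z * (- ori c a w) + ori c a z * ori b c w := by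
    unfold ori; ring
  have b2 : ori a b c * ori a z w = ori c a w * (- ori a b z) + ori a b w * ori c a z := by
    unfold ori; ring
  rw [e1, e2] at h12
  rw [e3] at h21
  rw [e4, e5] at h22
  unfold Cr
  rw [e1, e5]
  generalize ori a b c = D at *
  generalize ori b c w = α at *
  generalize ori c a w = β at *
  generalize ori a b w = γ at *
  generalize ori b c z = α' at *
  generalize ori c a z = β' at *
  generalize ori a b z = γ' at *
  generalize ori c w z = X at *
  generalize ori a z w = Y at *
  have hαβ : 0 < α * β := by nlinarith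
  have hβγ : 0 < β' * γ' := by nlinarith
  obtain ⟨p1, p2⟩ := sgn1 (by linarith : α + β + γ = D) h11 hαβ
  obtain ⟨p3, p4⟩ := sgn1 (by linarith : β' + γ' + α' = D) h21 hβγ
  have hD2 : 0 < D * D := by
    apply mul_self_pos.2
    rintro rfl
    simp at p1
  constructor
  · have k1 : 0 < (D * D) * (β * X) := by
      have e : (D * D) * (β * X) = -(D * α') * (β * β) + (α * β) * (D * β') := by
        have : (D * D) * (β * X) = (D * β) * (D * X) := by ring
        rw [this, b1]
        ring
      rw [e]
      have hβ : β ≠ 0 := by
        rintro rfl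
        simp at p2
      have := mul_pos (by linarith : 0 < -(D * α')) (mul_self_pos.2 hβ)
      have := mul_pos hαβ p3
      linarith
    have k2 : 0 < β * X := pos_of_mul_pos_right k1 hD2.le
    linarith
  · have k1 : (D * D) * (β' * Y) < 0 := by
      have e : (D * D) * (β' * Y) = -((β' * γ') * (D * β)) + (β' * β') * (D * γ) := by
        have : (D * D) * (β' * Y) = (D * β') * (D * Y) := by ring
        rw [this, b2]
        ring
      rw [e]
      have hβ : β' ≠ 0 := by
        rintro rfl
        simp at p3
      have := mul_neg_of_pos_of_neg (mul_self_pos.2 hβ) h11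
      have := mul_pos hβγ p2
      linarith
    exact neg_of_mul_neg_right k1 hD2.le

lemma excl2 {a b c w u v : Pt} (h1 : Cr a b c w) (h2 : Cr b c u v) (h3 : Cr a c u v) :
    Cr c w u v := by
  obtain ⟨h11, h12⟩ := h1
  obtain ⟨h21, h22⟩ := h2
  obtain ⟨h31, h32⟩ := h3
  have sw := bary_sum a b c w
  have su := bary_sum a b c u
  have sv := bary_sum a b c v
  have e1 : ori c w a = - ori c a w := by unfold ori; ring
  have e2 : ori c w b = ori b c w := by unfold ori; ring
  have e3 : ori a c u = - ori c a u := by unfold ori; ring
  have e4 : ori a c v = - ori c a v := by unfold ori; ring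
  have b1 : ori a b c * ori u v w = ori b c w * ori u v a + ori c a w * ori u v b +
    ori a b w * ori u v c := bary a b c u v w
  have b2 : ori a b c * ori c w u = ori b c w * ori c a u - ori c a w * ori b c u := by
    unfold ori; ring
  have b3 : ori a b c * ori c w v = ori b c w * ori c a v - ori c a w * ori b c v := by
    unfold ori; ring
  have b4 : ori b c u * ori u v a + ori c a u * ori u v b + ori a b u * ori u v c = 0 := by
    rw [← bary a b c u v u, ori_self_left, mul_zero]
  have b5 : ori b c v * ori u v a + ori c a v * ori u v b + ori a b v * ori u v c = 0 := by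
    rw [← bary a b c u v v, ori_self_right, mul_zero]
  rw [e1, e2] at h12
  rw [e3, e4] at h31
  unfold Cr
  generalize ori a b c = D at *
  generalize ori b c w = α at *
  generalize ori c a w = β at *
  generalize ori a b w = γ at *
  generalize ori b c u = αu at *
  generalize ori c a u = βu at *
  generalize ori a b u = γu at *
  generalize ori b c v = αv at *
  generalize ori c a v = βv at *
  generalize ori a b v = γv at *
  generalize ori u v a = ψa at *
  generalize ori u v b = ψb at *
  generalize ori u v c = ψc at *
  generalize ori u v w = ψw at *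
  generalize ori c w u = φu at *
  generalize ori c w v = φv at *
  have hαβ : 0 < α * β := by nlinarith
  have hββ : βu * βv < 0 := by nlinarith
  obtain ⟨p1, p2⟩ := sgn1 (by linarith : α + β + γ = D) h11 hαβ
  have hD2 : 0 < D * D := by
    apply mul_self_pos.2
    rintro rfl
    simp at p1
  have hαu : αu ≠ 0 := by
    rintro rfl
    simp at h21
  have hβu : βu ≠ 0 := by
    rintro rfl
    simp at hββ
  have hαu2 := mul_self_pos.2 hαu
  have hβu2 := mul_self_pos.2 hβu
  have hneg : αu * βu < 0 := by
    rcases lt_or_gt_of_ne (mul_ne_zero hαu hβu) with h | h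
    · exact h
    · exfalso
      have q1 := sgn2 b4 h32 h22 h
      have q2 : 0 < αv * βv := by
        have : 0 < (αu * βu) * (αv * βv) := by
          have := mul_pos_of_neg_of_neg h21 hββ
          linarith
        exact pos_of_mul_pos_right this h.le
      have q3 := sgn2 b5 h32 h22 q2
      have q4 : 0 < αu * D := by
        have : αu * D = αu * αu + αu * βu + αu * γu := by rw [← su]; ring
        rw [this]
        linarith
      have q5 : 0 < αv * D := by
        have : αv * D = αv * αv + αv * βv + αv * γv := by rw [← sv]; ring
        rw [this]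
        have := mul_self_nonneg αv
        linarith
      have q6 := mul_pos q4 q5
      have q7 : (αu * D) * (αv * D) = (αu * αv) * (D * D) := by ring
      rw [q7] at q6
      have q8 := mul_neg_of_neg_of_pos h21 hD2
      linarith
  have r1 : 0 < αu * βv := by
    have : 0 < (βu * βu) * (αu * βv) := by
      have := mul_pos_of_neg_of_neg hneg hββ
      linarith
    exact pos_of_mul_pos_right this hβu2.le
  have r2 : 0 < αv * βu := by
    have : 0 < (αu * αu) * (αv * βu) := by
      have := mul_pos_of_neg_of_neg hneg h21
      linarith
    exact pos_of_mul_pos_right this hαu2.le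
  constructor
  · have k1 : (D * D) * (φu * φv) < 0 := by
      have e : (D * D) * (φu * φv) = (α * α) * (βu * βv) + (β * β) * (αu * αv) -
          (α * β) * (αu * βv + αv * βu) := by
        have : (D * D) * (φu * φv) = (D * φu) * (D * φv) := by ring
        rw [this, b2, b3]
        ring
      rw [e]
      have hα : α ≠ 0 := by
        rintro rfl
        simp at hαβ
      have hβ : β ≠ 0 := by
        rintro rfl
        simp at hαβ
      have := mul_neg_of_pos_of_neg (mul_self_pos.2 hα) hββ
      have := mul_neg_of_pos_of_neg (mul_self_pos.2 hβ) h21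
      have := mul_pos hαβ (by linarith : 0 < αu * βv + αv * βu)
      linarith
    exact neg_of_mul_neg_right k1 hD2.le
  · have k1 : (D * D) * (ψc * ψw) < 0 := by
      have e : (D * D) * (ψc * ψw) = (D * α) * (ψa * ψc) + (D * β) * (ψb * ψc) +
          (D * γ) * (ψc * ψc) := by
        have : (D * D) * (ψc * ψw) = (D * ψc) * (D * ψw) := by ring
        rw [this, b1]
        ring
      rw [e]
      have hc : ψc ≠ 0 := by
        rintro rfl
        simp at h22
      have := mul_neg_of_pos_of_neg p1 h32
      have := mul_neg_of_pos_of_neg p2 h22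
      have := mul_neg_of_neg_of_pos h11 (mul_self_pos.2 hc)
      linarith
    exact neg_of_mul_neg_right k1 hD2.le

/-- version for edges -/
lemma excl {a b c : Pt} {g h : Sym2 Pt} (hg : c ∈ g) (h1 : SCr s(a, b) g)
    (h2 : SCr s(b, c) h) (h3 : a ∈ h ∨ SCr s(a, c) h) : SCr g h := by
  obtain ⟨w, rfl⟩ := hg
  rw [SCr_mk] at h1
  rcases h3 with h3 | h3
  · obtain ⟨z, rfl⟩ := h3
    rw [SCr_mk] at h2 ⊢
    exact excl1 h1 h2
  · induction h using Sym2.ind with
    | _ u v =>
      rw [SCr_mk] at h2 h3 ⊢
      exact excl2 h1 h2 h3

end F059
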