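import Pool.Agent.Lib.F059.ADefs

/-!
# MP_f059c0_co, layer A, module AExit (1.5 h): how a segment leaves a triangle

Everything is proved with barycentric coordinates (`bary`, `bary_sum` in ADefs).

**exitR** (arbitrary points). Triangle `x y z` with `ori x y z ≠ 0`, the segment `u v` crosses
`x y` properly, and `u`, `v` are not in the closed triangle. Then the segment `u v` runs through
`z`, or crosses `y z`, or crosses `x z` properly.
Proof. We may assume `D = ori x y z > 0` (exchange `x` and `y`; `InT` is symmetric,
`InT.swap`) and `ori x y u > 0 > ori x y v` (exchange `u` and `v`; in the first alternative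
replace `t` by `1 - t`).  Put `psi p = ori u v p`; `psi x` and `psi y` have opposite signs.
`D * psi p = al p * psi x + be p * psi y + ga p * psi z` with `al p = ori y z p`,
`be p = ori z x p`, `ga p = ori x y p` (`bary`), `al + be + ga = D` (`bary_sum`), and
`psi u = psi v = 0`.
* Case `psi z` has the sign of `psi x` (opposite to `psi y`): claim `Cr y z u v`.  First half of
  `Cr y z u v` : `ori y z u * ori y z v < 0`.  If `al u >= 0`, then
  `- be u * psi y = al u * psi x + ga u * psi z` has the sign of `psi x`, so `be u > 0` and `u`
  is in the closed triangle: contradiction; so `al u < 0`.  If `al v <= 0`, then (as `ga v < 0`)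
  `be v * psi y = - al v * psi x - ga v * psi z` has the sign of `psi x`, so `be v < 0` and
  `al v + be v + ga v < 0 < D`: contradiction; so `al v > 0`.  Second half:
  `psi y * psi z < 0`.
* Case `psi z` has the sign of `psi y`: symmetric, `Cr x z u v`
  (use `be` instead of `al`; `ori z x = - ori x z`).
* Case `psi z = 0`: `al p * psi x + be p * psi y = 0` for `p = u, v`, so `al p` and `be p` have
  the same sign (both positive, both negative or both zero).  For `u`: they are not both
  `>= 0` (else `InT`), so both negative, so `ga u = D - al u - be u > D`.  And `ga v < 0`.  Put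
  `t = (ga u - D) / (ga u - ga v)`, then `0 < t < 1` and `z = pt u v t`: indeed
  `ga (pt u v t) = D = ga z` and `psi (pt u v t) = 0 = psi z`; two points with the same value of
  `ori x y ·` and of `ori u v ·` are equal because the directions `y - x` and `v - u` are not
  parallel (`ori x y v - ori x y u ≠ 0`).  (Coordinates: `field_simp`, `nlinarith` or a direct
  linear solve.)

**exitP** (points of `P`, general position): `g = s(u,v)`.  If `c` is `u` or `v`: first
alternative.  `u, v` are not `a`, `b` (a crossing `Cr a b u v` has nonzero determinants) hence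
by `Em` they are not in the closed triangle.  `exitR`; its first alternative gives
`ori u v c = 0`, impossible in general position.

**exc**: `ori u v a`, `ori u v b`, `ori u v c` cannot have pairwise opposite signs.
**exc_mem**: if `c` is an end of `g` then `g` does not cross `a c` (a determinant vanishes).
-/

namespace F059

/-- the main case of `exitR` -/
private lemma exitCore {x y z u v : Pt} (hD : 0 < ori x y z) (hgu : 0 < ori x y u)
    (hgv : ori x y v < 0) (hXY : ori u v x * ori u v y < 0) (hu : ¬ InT x y z u) :
    (∃ t : ℝ, 0 < t ∧ t < 1 ∧ z = pt u v t) ∨ Cr y z u v ∨ Cr x z u v := by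
  have eu := bary x y z u v u
  have ev := bary x y z u v v
  rw [ori_self_left, mul_zero] at eu
  rw [ori_self_right, mul_zero] at ev
  have su := bary_sum x y z u
  have sv := bary_sum x y z v
  have hu' : ori y z u < 0 ∨ ori z x u < 0 := by
    by_contra hc
    push Not at hc
    exact hu (Or.inl ⟨hgu.le, hc.1, hc.2⟩)
  have hzx : ∀ p, ori x z p = - ori z x p := fun p => ori_swap z x p
  rcases lt_trichotomy (ori u v z * ori u v x) 0 with hZX | hZX | hZX
  · -- sign of `psi z` is that of `psi y`
    have hX : ori u v x ≠ 0 := by
      intro h; rw [h, zero_mul] at hXY; exact lt_irrefl _ hXY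
    have hZY : 0 < ori u v z * ori u v y := by
      have h1 : 0 < (ori u v z * ori u v x) * (ori u v x * ori u v y) :=
        mul_pos_of_neg_of_neg hZX hXY
      have h2 : (ori u v z * ori u v x) * (ori u v x * ori u v y) =
        (ori u v z * ori u v y) * ori u v x ^ 2 := by ring
      rw [h2] at h1
      have h3 : 0 < ori u v x ^ 2 := by positivity
      exact (pos_iff_pos_of_mul_pos h1).2 h3
    have hbu : ori z x u < 0 := by
      by_contra hc
      push Not at hc
      have hal : ori y z u < 0 := hu'.resolve_right (not_lt.2 hc)
      have h1 : 0 = ori y z u * (ori u v x * ori u v y) + ori z x u * ori u v y ^ 2 +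
          ori x y u * (ori u v z * ori u v y) := by
        linear_combination (ori u v y) * eu
      have h2 : 0 < ori y z u * (ori u v x * ori u v y) := mul_pos_of_neg_of_neg hal hXY
      have h3 : 0 ≤ ori z x u * ori u v y ^ 2 := mul_nonneg hc (sq_nonneg _)
      have h4 : 0 < ori x y u * (ori u v z * ori u v y) := mul_pos hgu hZY
      linarith
    have hbv : 0 < ori z x v := by
      by_contra hc
      push Not at hc
      have h1 : 0 = ori y z v * (ori u v x * ori u v y) + ori z x v * ori u v y ^ 2 +
          ori x y v * (ori u v z * ori u v y) := by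
        linear_combination (ori u v y) * ev
      have h3 : ori z x v * ori u v y ^ 2 ≤ 0 := mul_nonpos_of_nonpos_of_nonneg hc (sq_nonneg _)
      have h4 : ori x y v * (ori u v z * ori u v y) < 0 := mul_neg_of_neg_of_pos hgv hZY
      have h5 : 0 < ori y z v * (ori u v x * ori u v y) := by linarith
      have h6 : ori y z v < 0 := by
        by_contra h7
        push Not at h7
        exact absurd h5 (not_lt.2 (mul_nonpos_of_nonneg_of_nonpos h7 hXY.le))
      linarith
    right; right
    refine ⟨?_, ?_⟩
    · rw [hzx, hzx]; nlinarith
    · rw [mul_comm]; exact hZX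
  · -- `psi z = 0`
    have hX : ori u v x ≠ 0 := by
      intro h; rw [h, zero_mul] at hXY; exact lt_irrefl _ hXY
    have hZ : ori u v z = 0 := (mul_eq_zero.1 hZX).resolve_right hX
    left
    have hX2 : 0 < ori u v x ^ 2 := by positivity
    have h1 : ori y z u * ori u v x ^ 2 + ori z x u * (ori u v x * ori u v y) = 0 := by
      rw [hZ] at eu
      linear_combination -(ori u v x) * eu
    have hal : ori y z u < 0 ∧ ori z x u < 0 := by
      rcases hu' with h | h
      · refine ⟨h, ?_⟩
        have h2 : ori y z u * ori u v x ^ 2 < 0 := mul_neg_of_neg_of_pos h hX2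
        have h3 : 0 < ori z x u * (ori u v x * ori u v y) := by linarith
        by_contra h7
        push Not at h7
        exact absurd h3 (not_lt.2 (mul_nonpos_of_nonneg_of_nonpos h7 hXY.le))
      · refine ⟨?_, h⟩
        have h2 : 0 < ori z x u * (ori u v x * ori u v y) := mul_pos_of_neg_of_neg h hXY
        have h3 : ori y z u * ori u v x ^ 2 < 0 := by linarith
        by_contra h7
        push Not at h7
        exact absurd h3 (not_lt.2 (mul_nonneg h7 hX2.le))
    have hgD : ori x y z < ori x y u := by linarith
    have hd : 0 < ori x y u - ori x y v := by linarith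
    refine ⟨(ori x y u - ori x y z) / (ori x y u - ori x y v), ?_, ?_, ?_⟩
    · exact div_pos (by linarith) hd
    · rw [div_lt_one hd]; linarith
    · have ht : (ori x y u - ori x y z) / (ori x y u - ori x y v) *
        (ori x y u - ori x y v) = ori x y u - ori x y z := div_mul_cancel₀ _ hd.ne'
      set t := (ori x y u - ori x y z) / (ori x y u - ori x y v) with htdef
      have hd' := hd.ne'
      apply Prod.ext
      · show z.1 = u.1 + t * (v.1 - u.1)
        have : (z.1 - (u.1 + t * (v.1 - u.1))) * (ori x y u - ori x y v) = 0 := by
          unfold ori at ht hZ ⊢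
          linear_combination -(v.1 - u.1) * ht + (y.1 - x.1) * hZ
        have := (mul_eq_zero.1 this).resolve_right hd'
        linarith
      · show z.2 = u.2 + t * (v.2 - u.2)
        have : (z.2 - (u.2 + t * (v.2 - u.2))) * (ori x y u - ori x y v) = 0 := by
          unfold ori at ht hZ ⊢
          linear_combination -(v.2 - u.2) * ht + (y.2 - x.2) * hZ
        have := (mul_eq_zero.1 this).resolve_right hd'
        linarith
  · -- sign of `psi z` is that of `psi x`
    have hX : ori u v x ≠ 0 := by
      intro h; rw [h, zero_mul] at hXY; exact lt_irrefl _ hXY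
    have hX2 : 0 < ori u v x ^ 2 := by positivity
    have hau : ori y z u < 0 := by
      by_contra hc
      push Not at hc
      have hbe : ori z x u < 0 := hu'.resolve_left (not_lt.2 hc)
      have h1 : 0 = ori y z u * ori u v x ^ 2 + ori z x u * (ori u v x * ori u v y) +
          ori x y u * (ori u v z * ori u v x) := by
        linear_combination (ori u v x) * eu
      have h2 : 0 < ori z x u * (ori u v x * ori u v y) := mul_pos_of_neg_of_neg hbe hXY
      have h3 : 0 ≤ ori y z u * ori u v x ^ 2 := mul_nonneg hc (sq_nonneg _)
      have h4 : 0 < ori x y u * (ori u v z * ori u v x) := mul_pos hgu hZX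
      linarith
    have hav : 0 < ori y z v := by
      by_contra hc
      push Not at hc
      have h1 : 0 = ori y z v * ori u v x ^ 2 + ori z x v * (ori u v x * ori u v y) +
          ori x y v * (ori u v z * ori u v x) := by
        linear_combination (ori u v x) * ev
      have h3 : ori y z v * ori u v x ^ 2 ≤ 0 := mul_nonpos_of_nonpos_of_nonneg hc (sq_nonneg _)
      have h4 : ori x y v * (ori u v z * ori u v x) < 0 := mul_neg_of_neg_of_pos hgv hZX
      have h5 : 0 < ori z x v * (ori u v x * ori u v y) := by linarith
      have h6 : ori z x v < 0 := by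
        by_contra h7
        push Not at h7
        exact absurd h5 (not_lt.2 (mul_nonpos_of_nonneg_of_nonpos h7 hXY.le))
      linarith
    right; left
    refine ⟨mul_neg_of_neg_of_pos hau hav, ?_⟩
    have h1 : (ori u v z * ori u v x) * (ori u v x * ori u v y) < 0 :=
      mul_neg_of_pos_of_neg hZX hXY
    have h2 : (ori u v z * ori u v x) * (ori u v x * ori u v y) =
      (ori u v y * ori u v z) * ori u v x ^ 2 := by ring
    rw [h2] at h1
    by_contra hc
    push Not at hc
    exact absurd h1 (not_lt.2 (mul_nonneg hc hX2.le))

/-- the case `0 < ori x y z` -/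
private lemma exitPos {x y z u v : Pt} (hD : 0 < ori x y z) (h : Cr x y u v)
    (hu : ¬ InT x y z u) (hv : ¬ InT x y z v) :
    (∃ t : ℝ, 0 < t ∧ t < 1 ∧ z = pt u v t) ∨ Cr y z u v ∨ Cr x z u v := by
  rcases lt_trichotomy (ori x y u) 0 with h0 | h0 | h0
  · have h1 : 0 < ori x y v := by
      have := h.1
      by_contra hc
      push Not at hc
      exact absurd this (not_lt.2 (mul_nonneg_of_nonpos_of_nonpos h0.le hc))
    have h2 := h.swap_right.2
    rcases exitCore hD h1 h0 h2 hv with ⟨t, ht0, ht1, hz⟩ | h3 | h3
    · left
      refine ⟨1 - t, by linarith, by linarith, ?_⟩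
      rw [hz]
      unfold pt
      ext <;> simp <;> ring
    · right; left; exact h3.swap_right
    · right; right; exact h3.swap_right
  · have := h.1
    rw [h0, zero_mul] at this
    exact absurd this (lt_irrefl _)
  · have h1 : ori x y v < 0 := by
      have := h.1
      by_contra hc
      push Not at hc
      exact absurd this (not_lt.2 (mul_nonneg h0.le hc))
    exact exitCore hD h0 h1 h.2 hu

lemma exitR {x y z u v : Pt} (hT : ori x y z ≠ 0) (h : Cr x y u v)
    (hu : ¬ InT x y z u) (hv : ¬ InT x y z v) :
    (∃ t : ℝ, 0 < t ∧ t < 1 ∧ z = pt u v t) ∨ Cr y z u v ∨ Cr x z u v := by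
  rcases lt_or_gt_of_ne hT with hD | hD
  · have hD' : 0 < ori y x z := by rw [ori_swap x y z]; linarith
    rcases exitPos hD' h.swap_left (fun h' => hu h'.swap) (fun h' => hv h'.swap) with
      h1 | h1 | h1
    · exact Or.inl h1
    · exact Or.inr (Or.inr h1)
    · exact Or.inr (Or.inl h1)
  · exact exitPos hD h hu hv

lemma exc {a b c : Pt} {g : Sym2 Pt} (h1 : SCr s(a, b) g) (h2 : SCr s(a, c) g) :
    ¬ SCr s(b, c) g := by
  intro h3
  induction g using Sym2.ind with
  | _ u v =>
    rw [SCr_mk] at h1 h2 h3
    have e1 := h1.2
    have e2 := h2.2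
    have e3 := h3.2
    have h4 : 0 < (ori u v a * ori u v b) * (ori u v a * ori u v c) :=
      mul_pos_of_neg_of_neg e1 e2
    have h5 : (ori u v a * ori u v b) * (ori u v a * ori u v c) * (ori u v b * ori u v c) < 0 :=
      mul_neg_of_pos_of_neg h4 e3
    have h6 : (ori u v a * ori u v b) * (ori u v a * ori u v c) * (ori u v b * ori u v c) =
      (ori u v a * ori u v b * ori u v c) ^ 2 := by ring
    rw [h6] at h5
    exact absurd h5 (not_lt.2 (sq_nonneg _))

lemma exc_mem {a c : Pt} {g : Sym2 Pt} (h : c ∈ g) : ¬ SCr s(a, c) g := by
  obtain ⟨d, rfl⟩ := h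
  rw [SCr_mk]
  intro h1
  have := h1.1
  rw [ori_self_right, zero_mul] at this
  exact lt_irrefl _ this

lemma exitP {P : Finset Pt} (hP : GenPos P) {a b c : Pt} (ha : a ∈ P) (hb : b ∈ P) (hc : c ∈ P)
    (hE : Em P a b c) {g : Sym2 Pt} (hg : g ∈ Seg P) (h : SCr s(a, b) g) :
    c ∈ g ∨ SCr s(a, c) g ∨ SCr s(b, c) g := by
  induction g using Sym2.ind with
  | _ u v =>
    rw [mem_Seg] at hg
    obtain ⟨huP, hvP, huv⟩ := hg
    rw [SCr_mk] at h
    by_cases hcu : c = u
    · left; rw [hcu]; exact Sym2.mem_mk_left _ _
    by_cases hcv : c = v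
    · left; rw [hcv]; exact Sym2.mem_mk_right _ _
    have hne : ∀ p : Pt, ori a b p ≠ 0 → p ≠ a ∧ p ≠ b := by
      intro p hp
      refine ⟨?_, ?_⟩
      · rintro rfl; exact hp (ori_self_left _ _)
      · rintro rfl; exact hp (ori_self_right _ _)
    have hu0 : ori a b u ≠ 0 := by
      intro h0
      have := h.1
      rw [h0, zero_mul] at this
      exact lt_irrefl _ this
    have hv0 : ori a b v ≠ 0 := by
      intro h0
      have := h.1
      rw [h0, mul_zero] at this
      exact lt_irrefl _ this
    have hu : ¬ InT a b c u := by
      intro h'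
      rcases hE.2 u huP h' with h1 | h1 | h1
      · exact (hne u hu0).1 h1
      · exact (hne u hu0).2 h1
      · exact hcu h1.symm
    have hv : ¬ InT a b c v := by
      intro h'
      rcases hE.2 v hvP h' with h1 | h1 | h1
      · exact (hne v hv0).1 h1
      · exact (hne v hv0).2 h1
      · exact hcv h1.symm
    rcases exitR hE.1 h hu hv with ⟨t, _, _, hz⟩ | h1 | h1
    · exfalso
      have h2 : ori u v c = 0 := by
        rw [hz, ori_pt, ori_self_left, ori_self_right]; ring
      exact hP u huP v hvP c hc huv (Ne.symm hcu) (Ne.symm hcv) h2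
    · right; right; exact SCr_mk.2 h1
    · right; left; exact SCr_mk.2 h1

end F059
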