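import Pool.Agent.Lib.F059.ADefs

/-!
# MP_f059c0_co, layer A, module ASegs (1.5 h): crossing points and parameters

**Cr_pt**: if `a b` and `u v` cross, the parameter `tau a b s(u,v) = A / (A - B)` with
`A = ori u v a`, `B = ori u v b` of opposite signs lies in `(0,1)`; the common point is
`pt u v t` with `t = C / (C - D)`, `C = ori a b u`, `D = ori a b v`, which also lies in `(0,1)`.
(Both coordinates: `field_simp; ring`, possibly after noting
`A - B = - (v - u) x (b - a)` and `C - D = (b - a) x (u - v)`, the same determinant up to sign.)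
**Cr_of_pt**: if an inner point of `a b` is an inner point of `u v` and `ori a b u ≠ 0`, they
cross: `0 = ori a b (pt u v t) = (1-t) ori a b u + t ori a b v` gives opposite signs; likewise
`(1-s) ori u v a + s ori u v b = 0`, so the product is `<= 0`; if it is `0` both vanish, then
`a, b` are on the line `u v` (`u ≠ v`, else `ori a b u = ori a b v` have opposite signs) and
`ori a b u = 0`: contradiction (identity: `ori u v a = 0`, `ori u v b = 0`, `u ≠ v` imply
`ori a b u = 0`).
**Cr_sub**: if a part of the segment `a b` is crossed by `u v` then `a b` is crossed: with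
`x = pt a b s`, `y = pt a b t`: `ori x y u = (t - s) * ori a b u`, so `ori a b u`, `ori a b v`
have opposite signs (`s ≠ t`); `ori u v x` and `ori u v y` are values at `s, t` of the affine
function `r -> (1-r) ori u v a + r ori u v b` with opposite signs, so its values at `0` and `1`
have opposite signs.
**meet**: two different segments of `P` (general position) with a common inner point cross:
by `Cr_of_pt` unless `ori u v u' = 0`, i.e. `u' = u` or `u' = v` (general position); if
`u' = u` then `s (v - u) = t (v' - u)`, so `ori u v v' = 0`, so `v'` is `u` or `v`, so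
`v' = v` (as `v' ≠ u'`) and the segments are equal; if `u' = v` similarly.
**tau_mem, tau_swap** are immediate; **tau_inj**: equal parameters give a common inner
point of `g` and `h` (`Cr_pt`), so `g = h` by `meet`.
**tau_lt**: a point before the crossing point is on the side of `a`:
`ori u v (pt a b t) = (1-t) A + t B` and `A = (A - B) * tau`, so it is `(A - B) * (tau - t)`.
-/

namespace F059

private lemma frac_mem {A B : ℝ} (h : A * B < 0) : 0 < A / (A - B) ∧ A / (A - B) < 1 ∧ A - B ≠ 0 := by
  rcases mul_neg_iff.1 h with ⟨h1, h2⟩ | ⟨h1, h2⟩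
  · have h3 : 0 < A - B := by linarith
    refine ⟨div_pos h1 h3, ?_, h3.ne'⟩
    rw [div_lt_one h3]
    linarith
  · have h3 : A - B < 0 := by linarith
    refine ⟨div_pos_of_neg_of_neg h1 h3, ?_, h3.ne⟩
    rw [div_lt_one_of_neg h3]
    linarith

private lemma diff_eq (a b u v : Pt) : ori a b u - ori a b v = -(ori u v a - ori u v b) := by
  unfold ori; ring

lemma Cr_pt {a b u v : Pt} (h : Cr a b u v) :
    0 < tau a b s(u, v) ∧ tau a b s(u, v) < 1 ∧
      ∃ t : ℝ, 0 < t ∧ t < 1 ∧ pt a b (tau a b s(u, v)) = pt u v t := by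
  obtain ⟨hC, hA⟩ := h
  obtain ⟨a1, a2, a3⟩ := frac_mem hA
  obtain ⟨c1, c2, _⟩ := frac_mem hC
  rw [tau_mk]
  refine ⟨a1, a2, _, c1, c2, ?_⟩
  rw [diff_eq a b u v]
  set E := ori u v a - ori u v b with hE
  have k1 : E * (a.1 - u.1) + ori u v a * (b.1 - a.1) + ori a b u * (v.1 - u.1) = 0 := by
    rw [hE]; unfold ori; ring
  have k2 : E * (a.2 - u.2) + ori u v a * (b.2 - a.2) + ori a b u * (v.2 - u.2) = 0 := by
    rw [hE]; unfold ori; ring
  unfold pt
  refine Prod.ext ?_ ?_
  · show a.1 + ori u v a / E * (b.1 - a.1) = u.1 + ori a b u / -E * (v.1 - u.1)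
    field_simp
    linarith
  · show a.2 + ori u v a / E * (b.2 - a.2) = u.2 + ori a b u / -E * (v.2 - u.2)
    field_simp
    linarith

private lemma conv_zero {s A B : ℝ} (hs : 0 < s) (hs1 : s < 1) (h : (1 - s) * A + s * B = 0) :
    A * B < 0 ∨ (A = 0 ∧ B = 0) := by
  rcases lt_trichotomy A 0 with h1 | h1 | h1
  · left
    have : 0 < B := by
      by_contra hB
      push Not at hB
      have t1 : (1 - s) * A < 0 := mul_neg_of_pos_of_neg (by linarith) h1
      have t2 : s * B ≤ 0 := mul_nonpos_of_nonneg_of_nonpos hs.le hB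
      linarith
    exact mul_neg_of_neg_of_pos h1 this
  · right
    refine ⟨h1, ?_⟩
    rw [h1, mul_zero, zero_add] at h
    exact (mul_eq_zero.1 h).resolve_left hs.ne'
  · left
    have : B < 0 := by
      by_contra hB
      push Not at hB
      have t1 : 0 < (1 - s) * A := mul_pos (by linarith) h1
      have t2 : 0 ≤ s * B := mul_nonneg hs.le hB
      linarith
    exact mul_neg_of_pos_of_neg h1 this

lemma Cr_of_pt {a b u v : Pt} {s t : ℝ} (hs : 0 < s) (hs1 : s < 1) (ht : 0 < t) (ht1 : t < 1)
    (h : pt a b s = pt u v t) (hn : ori a b u ≠ 0) : Cr a b u v := by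
  have e1 : (1 - t) * ori a b u + t * ori a b v = 0 := by
    rw [← ori_pt, ← h, ori_pt, ori_self_left, ori_self_right]
    ring
  have e2 : (1 - s) * ori u v a + s * ori u v b = 0 := by
    rw [← ori_pt, h, ori_pt, ori_self_left, ori_self_right]
    ring
  have hC : ori a b u * ori a b v < 0 := by
    rcases conv_zero ht ht1 e1 with h1 | ⟨h1, _⟩
    · exact h1
    · exact absurd h1 hn
  refine ⟨hC, ?_⟩
  rcases conv_zero hs hs1 e2 with h1 | ⟨h1, h2⟩
  · exact h1
  · exfalso
    have h3 := diff_eq a b u v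
    rw [h1, h2, sub_zero, neg_zero] at h3
    have h4 : ori a b u = ori a b v := by linarith
    rw [← h4] at hC
    nlinarith [sq_nonneg (ori a b u)]

lemma Cr_sub {a b u v : Pt} {s t : ℝ} (hs : 0 ≤ s) (hs1 : s ≤ 1) (ht : 0 ≤ t) (ht1 : t ≤ 1)
    (h : Cr (pt a b s) (pt a b t) u v) : Cr a b u v := by
  obtain ⟨h1, h2⟩ := h
  have e1 : ∀ w : Pt, ori (pt a b s) (pt a b t) w = (t - s) * ori a b w := by
    intro w
    unfold ori pt
    ring
  rw [e1, e1] at h1
  rw [ori_pt, ori_pt] at h2
  refine ⟨?_, ?_⟩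
  · by_contra hc
    push Not at hc
    have : 0 ≤ (t - s) ^ 2 * (ori a b u * ori a b v) := mul_nonneg (sq_nonneg _) hc
    nlinarith
  · by_contra hc
    push Not at hc
    set A := ori u v a
    set B := ori u v b
    have s1 : 0 ≤ 1 - s := by linarith
    have t1 : 0 ≤ 1 - t := by linarith
    rcases mul_nonneg_iff.1 hc with ⟨hA, hB⟩ | ⟨hA, hB⟩
    · have g1 : 0 ≤ (1 - s) * A + s * B := add_nonneg (mul_nonneg s1 hA) (mul_nonneg hs hB)
      have g2 : 0 ≤ (1 - t) * A + t * B := add_nonneg (mul_nonneg t1 hA) (mul_nonneg ht hB)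
      exact absurd (mul_nonneg g1 g2) (not_le.2 h2)
    · have g1 : (1 - s) * A + s * B ≤ 0 :=
        add_nonpos (mul_nonpos_of_nonneg_of_nonpos s1 hA) (mul_nonpos_of_nonneg_of_nonpos hs hB)
      have g2 : (1 - t) * A + t * B ≤ 0 :=
        add_nonpos (mul_nonpos_of_nonneg_of_nonpos t1 hA) (mul_nonpos_of_nonneg_of_nonpos ht hB)
      exact absurd (mul_nonneg_of_nonpos_of_nonpos g1 g2) (not_le.2 h2)

lemma meet {P : Finset Pt} (hP : GenPos P) {u v u' v' : Pt} (hg : s(u, v) ∈ Seg P)
    (hh : s(u', v') ∈ Seg P) (hne : s(u, v) ≠ s(u', v')) {s t : ℝ} (hs : 0 < s) (hs1 : s < 1)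
    (ht : 0 < t) (ht1 : t < 1) (h : pt u v s = pt u' v' t) : Cr u v u' v' := by
  obtain ⟨hu, hv, huv⟩ := mem_Seg.1 hg
  obtain ⟨hu', hv', huv'⟩ := mem_Seg.1 hh
  have x1 : u.1 + s * (v.1 - u.1) = u'.1 + t * (v'.1 - u'.1) := congrArg Prod.fst h
  have x2 : u.2 + s * (v.2 - u.2) = u'.2 + t * (v'.2 - u'.2) := congrArg Prod.snd h
  -- a third point on the line `u v` is `u` or `v`
  have key : ∀ w ∈ P, ori u v w = 0 → w = u ∨ w = v := by
    intro w hw h0
    by_contra hc
    push Not at hc
    exact hP u hu v hv w hw huv hc.1.symm hc.2.symm h0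
  by_cases h0 : ori u v u' = 0
  · exfalso
    rcases key u' hu' h0 with rfl | rfl
    · have e : t * ori u' v v' = 0 := by
        unfold ori
        linear_combination (-(v.1 - u'.1)) * x2 + (v.2 - u'.2) * x1
      have e' : ori u' v v' = 0 := (mul_eq_zero.1 e).resolve_left ht.ne'
      rcases key v' hv' e' with rfl | rfl
      · exact huv' rfl
      · exact hne rfl
    · have e : t * ori u u' v' = 0 := by
        unfold ori
        linear_combination (-(u'.1 - u.1)) * x2 + (u'.2 - u.2) * x1
      have e' : ori u u' v' = 0 := (mul_eq_zero.1 e).resolve_left ht.ne'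
      rcases key v' hv' e' with rfl | rfl
      · exact hne Sym2.eq_swap
      · exact huv' rfl
  · exact Cr_of_pt hs hs1 ht ht1 h h0

lemma tau_mem {a b : Pt} {g : Sym2 Pt} (h : SCr s(a, b) g) : 0 < tau a b g ∧ tau a b g < 1 := by
  induction g using Sym2.ind with
  | _ u v =>
    have := Cr_pt (SCr_mk.1 h)
    exact ⟨this.1, this.2.1⟩

lemma tau_swap {a b : Pt} {g : Sym2 Pt} (h : SCr s(a, b) g) : tau b a g = 1 - tau a b g := by
  induction g using Sym2.ind with
  | _ u v =>
    have h1 := (frac_mem (SCr_mk.1 h).2).2.2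
    rw [tau_mk, tau_mk]
    have h2 : ori u v b - ori u v a ≠ 0 := by
      intro h3
      apply h1
      linarith
    field_simp
    ring

lemma tau_inj {P : Finset Pt} (hP : GenPos P) {a b : Pt} {g h : Sym2 Pt} (hg : g ∈ Seg P)
    (hh : h ∈ Seg P) (hgh : ¬ SCr g h) (h1 : SCr s(a, b) g) (h2 : SCr s(a, b) h)
    (heq : tau a b g = tau a b h) : g = h := by
  induction g using Sym2.ind with
  | _ u v =>
    induction h using Sym2.ind with
    | _ u' v' =>
      by_contra hne
      obtain ⟨_, _, t, ht, ht1, e⟩ := Cr_pt (SCr_mk.1 h1)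
      obtain ⟨_, _, t', ht', ht1', e'⟩ := Cr_pt (SCr_mk.1 h2)
      rw [heq, e'] at e
      exact hgh (SCr_mk.2 (meet hP hg hh hne ht ht1 ht' ht1' e.symm))

/-- value of `ori u v` at the point of the line `a b` with parameter `t` -/
lemma tau_lt {a b u v : Pt} (h : Cr a b u v) (t : ℝ) :
    ori u v (pt a b t) = (ori u v a - ori u v b) * (tau a b s(u, v) - t) := by
  have h1 := (frac_mem h.2).2.2
  rw [ori_pt, tau_mk]
  field_simp
  ring

end F059
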