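import Pool.Agent.Lib.F059.AExit
import Pool.Agent.Lib.F059.ASegs

/-!
# MP_f059c0_co, layer A, module ANoInt (1.5 h): no edge runs through an empty triangle

`a b c` is an empty triangle with sides in the plane set `B`; `s(u,v) ∈ B`.  No inner point
`x = pt u v t` of `s(u,v)` lies strictly inside the triangle.

Proof.  We may assume `D = ori a b c > 0` (`ET.swap`, `InI` symmetric).  Then
`ori a b x, ori b c x, ori c a x > 0`.
`psi q = ori u v q`, `psi x = 0 = psi u = psi v`; `bary` at `p := x` shows that `psi` does not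
have one strict sign (or sign and zeros) on all of `a, b, c` unless all three are `0`; all three
`0` is impossible (`a, b, c` not collinear, `u ≠ v`).
(1) Some vertex, say `a` (rotate: `ET.rot`), has `psi a = 0`.  Then `a = u` or `a = v` (general
position: `u, v, a ∈ P`); say `a = u` (otherwise exchange `u, v`, `t -> 1 - t`).  `psi b`,
`psi c` are nonzero (if one is `0` then by `bary` at `x` so is the other, impossible) of opposite
signs.  `v` is not in the closed triangle (`v ≠ b, c` because `psi b, psi c ≠ 0`, `v ≠ a`).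
`x = pt a v t`, `ori a b x = t * ori a b v`, so `ori a b v > 0`, `ori c a v > 0`, hence
`ori b c v < 0` (not in the triangle).  With `ori b c a > 0` this is `Cr b c a v`: contradiction
to planarity (`s(b,c) ∈ B`).
(2) `psi a, psi b, psi c ≠ 0`: one of them, say `psi a` (rotate), has the sign opposite to the
two others.  `u, v` are not vertices, so `u` is not in the closed triangle.
Then `ori a b u < 0` or `ori c a u < 0`: otherwise `ori b c u < 0` and `bary` at `u` reads
`0 = (ori b c u) psi a + (ori c a u) psi b + (ori a b u) psi c`, where the first term is nonzero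
of the sign of `psi b` and the other terms are `>= 0` times that sign: contradiction.
If `ori a b u < 0`: `0 < ori a b x = (1-t) ori a b u + t ori a b v` gives `ori a b v > 0`, and with
`psi a * psi b < 0` this is `Cr a b u v`: contradiction to planarity.  If `ori c a u < 0`:
the same with `c a`.
-/

namespace F059

private lemma noInt_vertex {P : Finset Pt} {B : Finset (Sym2 Pt)} (hBP : B ⊆ Seg P)
    (hB : Plane B) {a b c : Pt} (hE : ET P B a b c) {v : Pt} (huv : s(a, v) ∈ B) {t : ℝ}
    (ht : 0 < t) (h1 : 0 < ori a b (pt a v t)) (h3 : 0 < ori c a (pt a v t))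
    (hD : 0 < ori a b c) : False := by
  rw [ori_pt, ori_self_left, mul_zero, zero_add] at h1
  rw [ori_pt, ori_self_right, mul_zero, zero_add] at h3
  have h1' : 0 < ori a b v := (mul_pos_iff_of_pos_left ht).1 h1
  have h3' : 0 < ori c a v := (mul_pos_iff_of_pos_left ht).1 h3
  obtain ⟨-, hvP, hav⟩ := mem_Seg.1 (hBP huv)
  have h2 : ori b c v < 0 := by
    by_contra hcon
    have hcon' : 0 ≤ ori b c v := not_lt.1 hcon
    rcases hE.em.2 v hvP (Or.inl ⟨h1'.le, hcon', h3'.le⟩) with h | h | h
    · exact hav h.symm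
    · rw [h, ori_self_right] at h1'
      exact lt_irrefl _ h1'
    · rw [h, ori_self_left] at h3'
      exact lt_irrefl _ h3'
  refine hB _ hE.bc _ huv (SCr_mk.2 ⟨?_, ?_⟩)
  · rw [ori_cyc a b c]
    exact mul_neg_of_pos_of_neg hD h2
  · rw [ori_swap' a b v, ori_cyc c a v]
    exact mul_neg_of_neg_of_pos (neg_lt_zero.2 h1') h3'

private lemma noInt_side {P : Finset Pt} {B : Finset (Sym2 Pt)} (hBP : B ⊆ Seg P)
    (hB : Plane B) {a b c : Pt} (hE : ET P B a b c) {u v : Pt} (huv : s(u, v) ∈ B) {t : ℝ}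
    (ht : 0 < t) (ht1 : t < 1) (h1 : 0 < ori a b (pt u v t)) (h3 : 0 < ori c a (pt u v t))
    (hab : ori u v a * ori u v b < 0) (hac : ori u v a * ori u v c < 0) : False := by
  rw [ori_pt] at h1 h3
  have ht' : 0 < 1 - t := sub_pos.2 ht1
  obtain ⟨huP, -, -⟩ := mem_Seg.1 (hBP huv)
  have hor : ori a b u < 0 ∨ ori c a u < 0 := by
    by_contra hcon
    rw [not_or, not_lt, not_lt] at hcon
    obtain ⟨k1, k3⟩ := hcon
    have k2 : ori b c u < 0 := by
      by_contra hcon
      have hcon' : 0 ≤ ori b c u := not_lt.1 hcon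
      rcases hE.em.2 u huP (Or.inl ⟨k1, hcon', k3⟩) with h | h | h
      · rw [h, ori_self_left, zero_mul] at hab
        exact lt_irrefl _ hab
      · rw [h, ori_self_left, mul_zero] at hab
        exact lt_irrefl _ hab
      · rw [h, ori_self_left, mul_zero] at hac
        exact lt_irrefl _ hac
    have hb := bary a b c u v u
    rw [ori_self_left, mul_zero] at hb
    have ha : ori u v a ≠ 0 := by
      intro h
      rw [h, zero_mul] at hab
      exact lt_irrefl _ hab
    have e1 : ori b c u * (ori u v a * ori u v a) < 0 :=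
      mul_neg_of_neg_of_pos k2 (mul_self_pos.2 ha)
    have e2 : ori c a u * (ori u v a * ori u v b) ≤ 0 :=
      mul_nonpos_of_nonneg_of_nonpos k3 hab.le
    have e3 : ori a b u * (ori u v a * ori u v c) ≤ 0 :=
      mul_nonpos_of_nonneg_of_nonpos k1 hac.le
    have e4 : ori b c u * (ori u v a * ori u v a) + ori c a u * (ori u v a * ori u v b) +
        ori a b u * (ori u v a * ori u v c) = 0 := by
      linear_combination (-ori u v a) * hb
    linarith
  rcases hor with h | h
  · have h4 : (1 - t) * ori a b u < 0 := mul_neg_of_pos_of_neg ht' h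
    have h5 : 0 < t * ori a b v := by linarith
    have h6 : 0 < ori a b v := (mul_pos_iff_of_pos_left ht).1 h5
    exact hB _ hE.ab _ huv (SCr_mk.2 ⟨mul_neg_of_neg_of_pos h h6, hab⟩)
  · have h4 : (1 - t) * ori c a u < 0 := mul_neg_of_pos_of_neg ht' h
    have h5 : 0 < t * ori c a v := by linarith
    have h6 : 0 < ori c a v := (mul_pos_iff_of_pos_left ht).1 h5
    exact hB _ hE.ca _ huv (SCr_mk.2 ⟨mul_neg_of_neg_of_pos h h6, by rwa [mul_comm]⟩)

private lemma noInt_pt_symm (u v : Pt) (t : ℝ) : pt v u (1 - t) = pt u v t := by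
  unfold pt
  ext
  · simp only; ring
  · simp only; ring

private lemma noInt_zero {P : Finset Pt} (hP : GenPos P) {B : Finset (Sym2 Pt)}
    (hBP : B ⊆ Seg P) (hB : Plane B) {a b c : Pt} (hE : ET P B a b c) {u v : Pt}
    (huv : s(u, v) ∈ B) {t : ℝ} (ht : 0 < t) (ht1 : t < 1) (h1 : 0 < ori a b (pt u v t))
    (h3 : 0 < ori c a (pt u v t)) (hD : 0 < ori a b c) (h0 : ori u v a = 0) : False := by
  obtain ⟨huP, hvP, hne⟩ := mem_Seg.1 (hBP huv)
  by_cases hua : u = a
  · subst hua
    exact noInt_vertex hBP hB hE huv ht h1 h3 hD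
  · by_cases hva : v = a
    · subst hva
      rw [← noInt_pt_symm] at h1 h3
      rw [Sym2.eq_swap] at huv
      exact noInt_vertex hBP hB hE huv (sub_pos.2 ht1) h1 h3 hD
    · exact hP u huP v hvP a hE.ha hne hua hva h0

private lemma noInt_pos {P : Finset Pt} (hP : GenPos P) {B : Finset (Sym2 Pt)}
    (hBP : B ⊆ Seg P) (hB : Plane B) {a b c : Pt} (hE : ET P B a b c) {u v : Pt}
    (huv : s(u, v) ∈ B) {t : ℝ} (ht : 0 < t) (ht1 : t < 1) (h1 : 0 < ori a b (pt u v t))
    (h2 : 0 < ori b c (pt u v t)) (h3 : 0 < ori c a (pt u v t)) : False := by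
  have hD : 0 < ori a b c := by
    have := bary_sum a b c (pt u v t)
    linarith
  have hD2 : 0 < ori b c a := by rwa [ori_cyc]
  have hD3 : 0 < ori c a b := by rwa [ori_cyc b c a, ori_cyc a b c]
  by_cases ha : ori u v a = 0
  · exact noInt_zero hP hBP hB hE huv ht ht1 h1 h3 hD ha
  by_cases hb : ori u v b = 0
  · exact noInt_zero hP hBP hB hE.rot huv ht ht1 h2 h1 hD2 hb
  by_cases hc : ori u v c = 0
  · exact noInt_zero hP hBP hB hE.rot.rot huv ht ht1 h3 h2 hD3 hc
  have h0 : ori u v (pt u v t) = 0 := by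
    rw [ori_pt, ori_self_left, ori_self_right]
    ring
  have hbary := bary a b c u v (pt u v t)
  rw [h0, mul_zero] at hbary
  rcases lt_or_gt_of_ne ha with ha' | ha' <;> rcases lt_or_gt_of_ne hb with hb' | hb' <;>
    rcases lt_or_gt_of_ne hc with hc' | hc'
  · have e1 := mul_neg_of_pos_of_neg h2 ha'
    have e2 := mul_neg_of_pos_of_neg h3 hb'
    have e3 := mul_neg_of_pos_of_neg h1 hc'
    linarith
  · exact noInt_side hBP hB hE.rot.rot huv ht ht1 h3 h2 (mul_neg_of_pos_of_neg hc' ha')
      (mul_neg_of_pos_of_neg hc' hb')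
  · exact noInt_side hBP hB hE.rot huv ht ht1 h2 h1 (mul_neg_of_pos_of_neg hb' hc')
      (mul_neg_of_pos_of_neg hb' ha')
  · exact noInt_side hBP hB hE huv ht ht1 h1 h3 (mul_neg_of_neg_of_pos ha' hb')
      (mul_neg_of_neg_of_pos ha' hc')
  · exact noInt_side hBP hB hE huv ht ht1 h1 h3 (mul_neg_of_pos_of_neg ha' hb')
      (mul_neg_of_pos_of_neg ha' hc')
  · exact noInt_side hBP hB hE.rot huv ht ht1 h2 h1 (mul_neg_of_neg_of_pos hb' hc')
      (mul_neg_of_neg_of_pos hb' ha')
  · exact noInt_side hBP hB hE.rot.rot huv ht ht1 h3 h2 (mul_neg_of_neg_of_pos hc' ha')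
      (mul_neg_of_neg_of_pos hc' hb')
  · have e1 := mul_pos h2 ha'
    have e2 := mul_pos h3 hb'
    have e3 := mul_pos h1 hc'
    linarith

lemma no_int {P : Finset Pt} (hP : GenPos P) {B : Finset (Sym2 Pt)} (hBP : B ⊆ Seg P)
    (hB : Plane B) {a b c : Pt} (hE : ET P B a b c) {u v : Pt} (huv : s(u, v) ∈ B) {t : ℝ}
    (ht : 0 < t) (ht1 : t < 1) (hx : InI a b c (pt u v t)) : False := by
  rcases hx with ⟨h1, h2, h3⟩ | ⟨h1, h2, h3⟩
  · exact noInt_pos hP hBP hB hE huv ht ht1 h1 h2 h3
  · have e1 : ori b a (pt u v t) = - ori a b (pt u v t) := ori_swap _ _ _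
    have e2 : ori a c (pt u v t) = - ori c a (pt u v t) := ori_swap _ _ _
    have e3 : ori c b (pt u v t) = - ori b c (pt u v t) := ori_swap _ _ _
    exact noInt_pos hP hBP hB hE.swap huv ht ht1 (by linarith) (by linarith) (by linarith)

end F059
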