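import Pool.Agent.Lib.F059.ALocal
import Pool.Agent.Lib.F059.ANoInt

/-!
# MP_f059c0_co, layer A, module AFace (2 h): consecutive crossing edges have a common end

`B` triangulation of `P`, `a, b ∈ P`, `g, g' ∈ B` cross `a b`, `g` before `g'`, no member of `B`
crosses `a b` strictly between them.  Then `g = s(w,w1)`, `g' = s(w,w2)` and `w w1 w2` is an empty
triangle with sides in `B`.

Proof.  `g = s(u,v)`.  `b` is not an end of `g`; `local_side` (triangulation `B`, edge
`s(u,v)`, point `b`): `z` with `ET P B u v z`, `z` and `b` on the same side of `u v`.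
Let `x = pt a b (tau a b g)`, `x' = pt a b (tau a b g')`, inner points of `g`, `g'` (`Cr_pt`).
Case `z = b`.  `x'` is strictly between `x` and `b`, so strictly inside the triangle `u v b`:
`ori u v x'` has the sign of `ori u v b` (`tau_lt`), and `ori v b x'`, `ori b u x'` have the
sign of `ori v b x`, `ori b u x` (linear along `x b`, zero at `b`), which is the sign of
`ori v b u`, `ori b u v` since `x` is strictly between `u` and `v`.  Contradiction to `no_int`
(`g' ∈ B`).
Case `z ≠ b`.  `s(a,b) ∈ Seg P` crosses `s(u,v)`; `exitP` for the triangle `u v z` with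
`g := s(a,b)`: `z ∈ s(a,b)` is impossible (`z ≠ b`; `z ≠ a` since `a` is on the other side of
`u v`); so `a b` crosses `h = s(u,z)` or `h = s(v,z)`; rename `u, v` so that `h = s(u,z) ∈ B`
(`ET.swap`).  The crossing point `x''` of `h` with `a b` is an inner point of `u z`, strictly on
the side of `z` (= side of `b`) of `u v`, so `tau a b g < tau a b h` (`tau_lt`).  No member of `B`
is strictly between `g` and `g'`, so `tau a b g' <= tau a b h`.  If equal then `g' = h`
(`tau_inj`): done with `w = u, w1 = v, w2 = z`.  If `tau a b g' < tau a b h` then `x'` is strictly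
between `x` (inner point of the side `u v`) and `x''` (inner point of the side `u z`), so strictly
inside the triangle `u v z` (all three determinants at `x'` are means of those at `x` and `x''`,
which are weakly of the right sign and not both zero): contradiction to `no_int`.
-/

namespace F059

private lemma InI_of_mul {x y z p : Pt} {D : ℝ} (h1 : 0 < D * ori x y p)
    (h2 : 0 < D * ori y z p) (h3 : 0 < D * ori z x p) : InI x y z p := by
  rcases lt_trichotomy D 0 with hD | hD | hD
  · right
    refine ⟨?_, ?_, ?_⟩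
    · exact neg_of_mul_pos_right h1 hD.le
    · exact neg_of_mul_pos_right h2 hD.le
    · exact neg_of_mul_pos_right h3 hD.le
  · rw [hD, zero_mul] at h1; exact absurd h1 (lt_irrefl _)
  · left
    refine ⟨?_, ?_, ?_⟩
    · exact (mul_pos_iff_of_pos_left hD).1 h1
    · exact (mul_pos_iff_of_pos_left hD).1 h2
    · exact (mul_pos_iff_of_pos_left hD).1 h3

private lemma aff_mid (p q a b : Pt) (r1 r2 r3 : ℝ) :
    (r3 - r1) * ori p q (pt a b r2)
      = (r3 - r2) * ori p q (pt a b r1) + (r2 - r1) * ori p q (pt a b r3) := by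
  unfold ori pt; ring

/-- case `z = b` -/
private lemma face_b {P : Finset Pt} (hP : GenPos P) {B : Finset (Sym2 Pt)} (hB : Tri P B)
    {a b u v u' v' : Pt} (hE : ET P B u v b) (hg' : s(u', v') ∈ B) (c1 : Cr a b u v)
    (c2 : Cr a b u' v') (hlt : tau a b s(u, v) < tau a b s(u', v')) : False := by
  obtain ⟨k1, k2, t, k3, k4, k5⟩ := Cr_pt c1
  obtain ⟨l1, l2, t', l3, l4, l5⟩ := Cr_pt c2
  have hlt0 := tau_lt c1 (tau a b s(u', v'))
  have hs := c1.2
  set τ := tau a b s(u, v) with hτ
  set τ' := tau a b s(u', v') with hτ'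
  have hD : ori u v b ≠ 0 := by
    intro h; rw [h, mul_zero] at hs; exact lt_irrefl _ hs
  have hDD : 0 < ori u v b * ori u v b := mul_self_pos.2 hD
  have e1 := ori_pt v b a b τ
  have e2 := ori_pt v b a b τ'
  have e3 := ori_pt b u a b τ
  have e4 := ori_pt b u a b τ'
  have f1 := ori_pt v b u v t
  have f2 := ori_pt b u u v t
  rw [← k5] at f1 f2
  rw [ori_self_right] at e1 e2
  rw [ori_self_left] at e3 e4 f1
  rw [ori_self_right] at f2
  have g1 : ori v b u = ori u v b := ori_cyc u v b
  have g2 : ori b u v = ori u v b := by rw [ori_cyc v b u, g1]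
  rw [g1] at f1
  rw [g2] at f2
  refine no_int hP hB.1 hB.2.1 hE hg' l3 l4 (InI_of_mul (D := ori u v b) ?_ ?_ ?_)
  · rw [← l5, hlt0]
    have : 0 < (ori u v b * ori u v b - ori u v a * ori u v b) * (τ' - τ) :=
      mul_pos (by linarith) (by linarith)
    calc 0 < (ori u v b * ori u v b - ori u v a * ori u v b) * (τ' - τ) := this
      _ = _ := by ring
  · rw [← l5]
    have h3 : 0 < (1 - τ) * (ori u v b * ori v b (pt a b τ')) := by
      have : (1 - τ) * (ori u v b * ori v b (pt a b τ'))
          = (1 - τ') * (1 - t) * (ori u v b * ori u v b) := by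
        rw [e2]
        linear_combination (1 - τ') * ori u v b * f1 - (1 - τ') * ori u v b * e1
      rw [this]
      exact mul_pos (mul_pos (by linarith) (by linarith)) hDD
    exact (mul_pos_iff_of_pos_left (by linarith)).1 h3
  · rw [← l5]
    have h3 : 0 < (1 - τ) * (ori u v b * ori b u (pt a b τ')) := by
      have : (1 - τ) * (ori u v b * ori b u (pt a b τ'))
          = (1 - τ') * t * (ori u v b * ori u v b) := by
        rw [e4]
        linear_combination (1 - τ') * ori u v b * f2 - (1 - τ') * ori u v b * e3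
      rw [this]
      exact mul_pos (mul_pos (by linarith) (by linarith)) hDD
    exact (mul_pos_iff_of_pos_left (by linarith)).1 h3

/-- case `z ≠ b` -/
private lemma face_z {P : Finset Pt} (hP : GenPos P) {B : Finset (Sym2 Pt)} (hB : Tri P B)
    {a b u v z u' v' : Pt} (hE : ET P B u v z) (hz : 0 < ori u v z * ori u v b)
    (hg' : s(u', v') ∈ B) (c1 : Cr a b u v)
    (c2 : Cr a b u' v') (c3 : Cr a b u z) (hlt : tau a b s(u, v) < tau a b s(u', v'))
    (hcons : ∀ h ∈ B, SCr s(a, b) h →
      tau a b h ≤ tau a b s(u, v) ∨ tau a b s(u', v') ≤ tau a b h) :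
    s(u', v') = s(u, z) := by
  have huz : s(u, z) ∈ B := by rw [Sym2.eq_swap]; exact hE.ca
  obtain ⟨k1, k2, t, k3, k4, k5⟩ := Cr_pt c1
  obtain ⟨l1, l2, t', l3, l4, l5⟩ := Cr_pt c2
  obtain ⟨m1, m2, t2, m3, m4, m5⟩ := Cr_pt c3
  have hlt0 := tau_lt c1 (tau a b s(u', v'))
  have hlt1 := tau_lt c1 (tau a b s(u, z))
  have hs := c1.2
  have hc := hcons _ huz (SCr_mk.2 c3)
  have hinj : tau a b s(u', v') = tau a b s(u, z) → s(u', v') = s(u, z) := fun h =>
    tau_inj hP (hB.1 hg') (hB.1 huz) (hB.2.1 _ hg' _ huz) (SCr_mk.2 c2) (SCr_mk.2 c3) h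
  set τ := tau a b s(u, v) with hτ
  set τ' := tau a b s(u', v') with hτ'
  set τ2 := tau a b s(u, z) with hτ2
  have hD : ori u v z ≠ 0 := by
    intro h; rw [h, zero_mul] at hz; exact lt_irrefl _ hz
  have hDD : 0 < ori u v z * ori u v z := mul_self_pos.2 hD
  have g1 : ori v z u = ori u v z := ori_cyc u v z
  have g2 : ori z u v = ori u v z := by rw [ori_cyc v z u, g1]
  have hDA : ori u v z * (ori u v a - ori u v b) < 0 := by
    have h1 : 0 < (ori u v b * ori u v b) := by
      have : ori u v b ≠ 0 := by
        intro h; rw [h, mul_zero] at hz; exact lt_irrefl _ hz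
      exact mul_self_pos.2 this
    have h2 : (ori u v b * ori u v b) * (ori u v z * (ori u v a - ori u v b)) < 0 := by
      have : (ori u v b * ori u v b) * (ori u v z * (ori u v a - ori u v b))
          = (ori u v z * ori u v b) * (ori u v a * ori u v b - ori u v b * ori u v b) := by ring
      rw [this]
      exact mul_neg_of_pos_of_neg hz (by linarith)
    by_contra hcon
    push Not at hcon
    have := mul_nonneg h1.le hcon
    linarith
  -- order
  have hord : τ < τ2 := by
    have h1 := ori_pt u v u z t2
    rw [← m5, ori_self_left, hlt1] at h1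
    by_contra hcon
    push Not at hcon
    have h2 : 0 < ori u v z * ((1 - t2) * 0 + t2 * ori u v z) := by
      have : ori u v z * ((1 - t2) * 0 + t2 * ori u v z) = t2 * (ori u v z * ori u v z) := by ring
      rw [this]; exact mul_pos m3 hDD
    rw [← h1] at h2
    have h3 : ori u v z * ((ori u v a - ori u v b) * (τ - τ2))
        = (ori u v z * (ori u v a - ori u v b)) * (τ - τ2) := by ring
    rw [h3] at h2
    have h4 := mul_nonpos_of_nonpos_of_nonneg hDA.le (sub_nonneg.2 hcon)
    linarith
  have hle : τ' ≤ τ2 := by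
    rcases hc with h | h
    · linarith
    · exact h
  rcases hle.eq_or_lt with heq | hlt2
  · exact hinj heq
  · exfalso
    have f1 := ori_pt v z u v t
    have f2 := ori_pt z u u v t
    have f3 := ori_pt v z u z t2
    have f4 := ori_pt z u u z t2
    rw [← k5] at f1 f2
    rw [← m5] at f3 f4
    rw [ori_self_left, g1] at f1
    rw [ori_self_right, g2] at f2
    rw [ori_self_right, g1] at f3
    rw [ori_self_left, ori_self_right] at f4
    have a1 := aff_mid v z a b τ τ' τ2
    have a2 := aff_mid z u a b τ τ' τ2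
    rw [f1, f3] at a1
    rw [f2, f4] at a2
    refine no_int hP hB.1 hB.2.1 hE hg' l3 l4 (InI_of_mul (D := ori u v z) ?_ ?_ ?_)
    · rw [← l5, hlt0]
      have h3 : ori u v z * ((ori u v a - ori u v b) * (τ - τ'))
        = (ori u v z * (ori u v a - ori u v b)) * (τ - τ') := by ring
      rw [h3]
      exact mul_pos_of_neg_of_neg hDA (by linarith)
    · rw [← l5]
      have h3 : 0 < (τ2 - τ) * (ori u v z * ori v z (pt a b τ')) := by
        have : (τ2 - τ) * (ori u v z * ori v z (pt a b τ'))
            = ((τ2 - τ') * (1 - t) + (τ' - τ) * (1 - t2)) * (ori u v z * ori u v z) := by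
          linear_combination ori u v z * a1
        rw [this]
        exact mul_pos (add_pos (mul_pos (by linarith) (by linarith))
          (mul_pos (by linarith) (by linarith))) hDD
      exact (mul_pos_iff_of_pos_left (by linarith)).1 h3
    · rw [← l5]
      have h3 : 0 < (τ2 - τ) * (ori u v z * ori z u (pt a b τ')) := by
        have : (τ2 - τ) * (ori u v z * ori z u (pt a b τ'))
            = ((τ2 - τ') * t) * (ori u v z * ori u v z) := by
          linear_combination ori u v z * a2
        rw [this]
        exact mul_pos (mul_pos (by linarith) (by linarith)) hDD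
      exact (mul_pos_iff_of_pos_left (by linarith)).1 h3

lemma face {P : Finset Pt} (hP : GenPos P) {B : Finset (Sym2 Pt)} (hB : Tri P B) {a b : Pt}
    (ha : a ∈ P) (hb : b ∈ P) {g g' : Sym2 Pt} (hg : g ∈ B) (hg' : g' ∈ B)
    (h1 : SCr s(a, b) g) (h2 : SCr s(a, b) g') (hlt : tau a b g < tau a b g')
    (hcons : ∀ h ∈ B, SCr s(a, b) h → tau a b h ≤ tau a b g ∨ tau a b g' ≤ tau a b h) :
    ∃ w w1 w2 : Pt, g = s(w, w1) ∧ g' = s(w, w2) ∧ ET P B w w1 w2 := by
  induction g with
  | _ u v =>
  induction g' with
  | _ u' v' =>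
  have c1 : Cr a b u v := SCr_mk.1 h1
  have c2 : Cr a b u' v' := SCr_mk.1 h2
  have hbu : b ≠ u := by
    rintro rfl
    have := c1.1
    rw [ori_self_right, zero_mul] at this
    exact lt_irrefl _ this
  have hbv : b ≠ v := by
    rintro rfl
    have := c1.1
    rw [ori_self_right, mul_zero] at this
    exact lt_irrefl _ this
  have hab : a ≠ b := by
    rintro rfl
    have := c1.1
    rw [ori_self_same, zero_mul] at this
    exact lt_irrefl _ this
  obtain ⟨z, hE, hz⟩ := local_side hP hB hg hb hbu hbv
  by_cases hzb : z = b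
  · subst hzb
    exact (face_b hP hB hE hg' c1 c2 hlt).elim
  · have hS : s(a, b) ∈ Seg P := mem_Seg.2 ⟨ha, hb, hab⟩
    rcases exitP hP hE.ha hE.hb hE.hc hE.em hS (SCr.symm h1) with h | h | h
    · exfalso
      rw [Sym2.mem_iff] at h
      rcases h with rfl | rfl
      · have := c1.2
        linarith
      · exact hzb rfl
    · have c3 : Cr a b u z := SCr_mk.1 h.symm
      have h4 := face_z hP hB hE hz hg' c1 c2 c3 hlt hcons
      exact ⟨u, v, z, rfl, h4, hE⟩
    · have c3 : Cr a b v z := SCr_mk.1 h.symm
      have e : s(u, v) = s(v, u) := Sym2.eq_swap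
      have hz' : 0 < ori v u z * ori v u b := by
        rw [ori_swap u v z, ori_swap u v b]; linarith
      have h4 := face_z hP hB hE.swap hz' hg' c1.swap_right c2 c3 (by rw [← e]; exact hlt)
        (by rw [← e]; exact hcons)
      exact ⟨v, u, z, e, h4, hE.swap⟩

end F059
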