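import Pool.Agent.Lib.F059.AHull

/-!
# MP_f059c0_co, layer A, module AFlipT (2.5 h): a flip of a set of triangles

`T` a triangulation of `P` (`IsTriangulation`), general position, `{a,b,c}`, `{a,b,d}` in `T`,
`a b` and `c d` cross.  Then `T' = T - {abc, abd} + {acd, bcd}` is obtained from `T` by `FlipT`, is
again a triangulation, and its sides are those of `T` with `a b` replaced by `c d`.

Proof.  `a, b, c, d ∈ P` are different.  FlipT: the union of the two hulls is
`convexHull {a,b,c,d}` (`qhull`), convex.  By `qhull` for `Cr c d a b` also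
`hull {a,c,d} ∪ hull {b,c,d} = hull {a,b,c,d}` (permute the sets).
*tri*: clear (`card = 3` because the points are different).
(i) A point `z` with `InI a c d z` and `ori a b z ≠ 0` satisfies `InI a b c z` or `InI a b d z`
(if `z` is on the side of `c`: the condition for `c a` is common, and `z` is strictly on the side
of `a` of the line `b c`, because `a`, `d` are strictly (from `Cr a b c d`) and `c` weakly).
The same for `b c d`.
*disj*: old/old: from `T`.  `acd`/`bcd`: interiors on different sides of `c d`.  New/old: if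
`int(acd)` and `int(t)` (`t ∈ T` different from `abc`, `abd`) have a common point, the
intersection is open, so it contains a point off the line `a b`, which by (i) is in `int(abc)` or
`int(abd)`: contradiction to `disj` of `T`.
*cover*: the two unions agree.
*empty*: `p ∈ P` with `InI a c d p`: if `ori a b p = 0` then `p ∈ {a,b}` (general position); `a` is not
in the open triangle, `b` is strictly on the other side of `c d`.  Else (i) contradicts `empty`.
*vertex*: clear.
*sides* (`Finset.ext`, `mem_edg`): `⊆`: sides of the new triangles are `a c, c d, a d, b c, b d`,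
all in `edg T` except `c d`, none equal to `a b`.  Sides of an old `t`: in `edg T`; `a b` is not a
side of `t`: otherwise `t = {a,b,z}`, `z ≠ c, d` and `z` is on the side of `c` or of `d`, say
`c`; points close to the midpoint of `a b` on this side are in the interior of both `t` and `abc`
(`InI`, e.g. `mid + eps ((c - a) + (z - a))`... choose a point `m + eps (c - m)`, `m` the
midpoint: `ori a b` has the right sign, the other determinants of both triangles are nonzero
at `m` with the right sign), contradiction to `disj`.  `⊇`: `s(c,d)` is a side of `acd`; a side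
`≠ a b` of `abc` or `abd` is a side of `acd` or `bcd`.
-/

namespace F059

namespace AFlipTAux

lemma InI_rot {x y z p : Pt} (h : InI x y z p) : InI y z x p := by
  rcases h with ⟨h1, h2, h3⟩ | ⟨h1, h2, h3⟩
  · exact Or.inl ⟨h2, h3, h1⟩
  · exact Or.inr ⟨h2, h3, h1⟩

lemma InI_swap {x y z p : Pt} (h : InI x y z p) : InI y x z p := by
  have e1 : ori y x p = - ori x y p := ori_swap x y p
  have e2 : ori x z p = - ori z x p := ori_swap z x p
  have e3 : ori z y p = - ori y z p := ori_swap y z p
  rcases h with ⟨h1, h2, h3⟩ | ⟨h1, h2, h3⟩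
  · right; refine ⟨?_, ?_, ?_⟩ <;> linarith
  · left; refine ⟨?_, ?_, ?_⟩ <;> linarith

lemma InI_swap' {x y z p : Pt} (h : InI x y z p) : InI x z y p :=
  InI_rot (InI_rot (InI_swap (InI_rot h)))

lemma coe3 (a b c : Pt) : ((({a, b, c} : Finset Pt)) : Set Pt) = {a, b, c} := by
  simp

lemma int3f {a b c : Pt} (h : ori a b c ≠ 0) :
    interior (convexHull ℝ ((({a, b, c} : Finset Pt)) : Set Pt)) = {p | InI a b c p} := by
  rw [coe3]; exact int3 h

/-- part (i), one orientation -/
lemma part_pos {a b c d z : Pt} (h1 : 0 < ori a b c) (h2 : ori a b d < 0)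
    (h3 : ori c d a * ori c d b < 0) (hz : InI a c d z) (h0 : ori a b z ≠ 0) :
    InI a b c z ∨ InI a b d z := by
  have e0 : ori c d b - ori c d a = ori a b c - ori a b d := by unfold ori; ring
  have hC : ori c d a < 0 := by
    by_contra hc
    push Not at hc
    have : 0 ≤ ori c d a * ori c d b := mul_nonneg hc (by linarith)
    linarith
  have hD : 0 < ori c d b := by
    by_contra hc
    push Not at hc
    have : 0 ≤ ori c d a * ori c d b := mul_nonneg_of_nonpos_of_nonpos hC.le hc
    linarith
  have e1 : ori a c d = ori c d a := (ori_cyc a c d).symm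
  have hs := bary_sum a c d z
  have hz' : ori a c z < 0 ∧ ori c d z < 0 ∧ ori d a z < 0 := by
    rcases hz with ⟨k1, k2, k3⟩ | hz
    · exfalso; linarith
    · exact hz
  obtain ⟨k1, k2, k3⟩ := hz'
  have b1 := bary a c d b c z
  have b2 := bary a c d b d z
  have f1 : ori b c a = ori a b c := ori_cyc a b c
  have f2 : ori b c c = 0 := ori_self_right b c
  have f3 : ori b c d = ori c d b := (ori_cyc b c d).symm
  have f4 : ori b d a = ori a b d := ori_cyc a b d
  have f5 : ori b d d = 0 := ori_self_right b d
  have f6 : ori b d c = - ori b c d := ori_swap' b c d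
  rw [f1, f2, f3] at b1
  rw [f4, f5, f6, f3] at b2
  have g1 : 0 < ori b c z := by
    have q1 : ori c d z * ori a b c < 0 := mul_neg_of_neg_of_pos k2 h1
    have q2 : ori a c z * ori c d b < 0 := mul_neg_of_neg_of_pos k1 hD
    have q3 : ori a c d * ori b c z < 0 := by rw [b1]; linarith
    by_contra hc
    push Not at hc
    have : 0 ≤ ori a c d * ori b c z :=
      mul_nonneg_of_nonpos_of_nonpos (by rw [e1]; exact hC.le) hc
    linarith
  have g2 : ori b d z < 0 := by
    have q1 : 0 < ori c d z * ori a b d := mul_pos_of_neg_of_neg k2 h2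
    have q2 : 0 < ori d a z * -ori c d b := mul_pos_of_neg_of_neg k3 (by linarith)
    have q3 : 0 < ori a c d * ori b d z := by rw [b2]; linarith
    by_contra hc
    push Not at hc
    have : ori a c d * ori b d z ≤ 0 :=
      mul_nonpos_of_nonpos_of_nonneg (by rw [e1]; exact hC.le) hc
    linarith
  rcases lt_or_gt_of_ne h0 with hlt | hgt
  · right; right
    exact ⟨hlt, g2, k3⟩
  · left; left
    refine ⟨hgt, g1, ?_⟩
    rw [ori_swap a c z]; linarith

/-- part (i) -/
lemma part {a b c d z : Pt} (hcr : Cr a b c d) (hz : InI a c d z) (h0 : ori a b z ≠ 0) :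
    InI a b c z ∨ InI a b d z := by
  rcases lt_trichotomy (ori a b c) 0 with h | h | h
  · have h2 : 0 < ori a b d := by
      by_contra hc
      push Not at hc
      have := mul_nonneg_of_nonpos_of_nonpos h.le hc
      linarith [hcr.1]
    have h3 := hcr.swap_right.2
    exact (part_pos h2 h h3 (InI_swap' hz) h0).symm
  · have := hcr.1
    rw [h, zero_mul] at this
    exact absurd this (lt_irrefl _)
  · have h2 : ori a b d < 0 := by
      by_contra hc
      push Not at hc
      have := mul_nonneg h.le hc
      linarith [hcr.1]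
    exact part_pos h h2 hcr.2 hz h0

/-- an open set is not contained in a line -/
lemma off_line {U : Set Pt} (hU : IsOpen U) {z : Pt} (hz : z ∈ U) {a b : Pt} (hab : a ≠ b) :
    ∃ w ∈ U, ori a b w ≠ 0 := by
  by_cases h0 : ori a b z = 0
  · let f : ℝ → Pt := fun e => (z.1 - e * (b.2 - a.2), z.2 + e * (b.1 - a.1))
    have hf : Continuous f := by
      apply Continuous.prodMk <;> fun_prop
    have h1 : ∀ᶠ e in nhds (0 : ℝ), f e ∈ U := by
      apply hf.continuousAt.preimage_mem_nhds
      have : f 0 = z := by simp [f]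
      rw [this]
      exact hU.mem_nhds hz
    have h2 : ∀ᶠ e in nhdsWithin (0 : ℝ) (Set.Ioi 0), f e ∈ U := h1.filter_mono nhdsWithin_le_nhds
    obtain ⟨e, he1, he2⟩ := (h2.and self_mem_nhdsWithin).exists
    refine ⟨f e, he1, ?_⟩
    have he : 0 < e := he2
    have e1 : ori a b (f e) = ori a b z + e * ((b.1 - a.1) ^ 2 + (b.2 - a.2) ^ 2) := by
      simp only [f, ori]; ring
    rw [e1, h0, zero_add]
    have h3 : 0 < (b.1 - a.1) ^ 2 + (b.2 - a.2) ^ 2 := by
      by_contra hc
      push Not at hc
      apply hab
      have g1 : (b.1 - a.1) ^ 2 = 0 := le_antisymm (by nlinarith [sq_nonneg (b.2 - a.2)])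
        (sq_nonneg _)
      have g2 : (b.2 - a.2) ^ 2 = 0 := le_antisymm (by nlinarith [sq_nonneg (b.1 - a.1)])
        (sq_nonneg _)
      rw [sq_eq_zero_iff, sub_eq_zero] at g1 g2
      exact Prod.ext g1.symm g2.symm
    exact (mul_pos he h3).ne'
  · exact ⟨z, hz, h0⟩

/-- two triangles on the same side of a common side overlap -/
lemma overlap_pos {a b c z : Pt} (hc : 0 < ori a b c) (hz : 0 < ori a b z) :
    ∃ w, InI a b c w ∧ InI a b z w := by
  obtain ⟨K, hK⟩ : ∃ K : ℝ, K = |ori b z c| + |ori z a c| := ⟨_, rfl⟩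
  have hK0 : 0 ≤ K := by rw [hK]; positivity
  obtain ⟨e, he, he2⟩ := exists_pos_mul_lt (half_pos hz) (ori a b z / 2 + K)
  have he1 : e < 1 := by
    by_contra hc1
    push Not at hc1
    have : (ori a b z / 2 + K) * 1 ≤ (ori a b z / 2 + K) * e :=
      mul_le_mul_of_nonneg_left hc1 (by linarith)
    linarith
  have hb1 : |ori b z c| ≤ K := by rw [hK]; linarith [abs_nonneg (ori z a c)]
  have hb2 : |ori z a c| ≤ K := by rw [hK]; linarith [abs_nonneg (ori b z c)]
  have hb1' : -K ≤ ori b z c := (abs_le.1 hb1).1
  have hb2' : -K ≤ ori z a c := (abs_le.1 hb2).1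
  obtain ⟨w, hw⟩ : ∃ w : Pt, w = ((1 - e) * ((a.1 + b.1) / 2) + e * c.1,
    (1 - e) * ((a.2 + b.2) / 2) + e * c.2) := ⟨_, rfl⟩
  have i1 : ori a b w = e * ori a b c := by rw [hw]; unfold ori; ring
  have i2 : ori b c w = (1 - e) * (ori a b c / 2) := by rw [hw]; unfold ori; ring
  have i3 : ori c a w = (1 - e) * (ori a b c / 2) := by rw [hw]; unfold ori; ring
  have i4 : ori b z w = (1 - e) * (ori a b z / 2) + e * ori b z c := by
    rw [hw]; unfold ori; ring
  have i5 : ori z a w = (1 - e) * (ori a b z / 2) + e * ori z a c := by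
    rw [hw]; unfold ori; ring
  have p1 : 0 < e * ori a b c := mul_pos he hc
  have p2 : 0 < (1 - e) * (ori a b c / 2) := mul_pos (by linarith) (by linarith)
  have p4 : e * (-K) ≤ e * ori b z c := mul_le_mul_of_nonneg_left hb1' he.le
  have p5 : e * (-K) ≤ e * ori z a c := mul_le_mul_of_nonneg_left hb2' he.le
  refine ⟨w, Or.inl ⟨?_, ?_, ?_⟩, Or.inl ⟨?_, ?_, ?_⟩⟩
  · rw [i1]; exact p1
  · rw [i2]; exact p2
  · rw [i3]; exact p2
  · rw [i1]; exact p1
  · rw [i4]; nlinarith
  · rw [i5]; nlinarith

lemma overlap {a b c z : Pt} (h : 0 < ori a b c * ori a b z) :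
    ∃ w, InI a b c w ∧ InI a b z w := by
  rcases lt_trichotomy (ori a b c) 0 with hc | hc | hc
  · have hz : ori a b z < 0 := by
      by_contra hz
      push Not at hz
      have := mul_nonpos_of_nonpos_of_nonneg hc.le hz
      linarith
    have hc' : 0 < ori b a c := by rw [ori_swap a b c]; linarith
    have hz' : 0 < ori b a z := by rw [ori_swap a b z]; linarith
    obtain ⟨w, h1, h2⟩ := overlap_pos hc' hz'
    exact ⟨w, InI_swap h1, InI_swap h2⟩
  · rw [hc, zero_mul] at h
    exact absurd h (lt_irrefl _)
  · have hz : 0 < ori a b z := by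
      by_contra hz
      push Not at hz
      have := mul_nonpos_of_nonneg_of_nonpos hc.le hz
      linarith
    exact overlap_pos hc hz

lemma mem_T' {T : Finset (Finset Pt)} {A B C D t : Finset Pt} :
    t ∈ ((T.erase A).erase B) ∪ {C, D} ↔ (t ≠ B ∧ t ≠ A ∧ t ∈ T) ∨ t = C ∨ t = D := by
  rw [Finset.mem_union, Finset.mem_erase, Finset.mem_erase, Finset.mem_insert,
    Finset.mem_singleton]

lemma card3 {a b c : Pt} (h1 : a ≠ b) (h2 : a ≠ c) (h3 : b ≠ c) :
    ({a, b, c} : Finset Pt).card = 3 := by
  rw [Finset.card_insert_of_notMem, Finset.card_insert_of_notMem, Finset.card_singleton]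
  · simpa using h3
  · simp [h1, h2]

/-- facts on the four points -/
lemma four {a b c d : Pt} (hcr : Cr a b c d) :
    a ≠ b ∧ a ≠ c ∧ b ≠ c ∧ a ≠ d ∧ b ≠ d ∧ c ≠ d ∧ ori a b c ≠ 0 ∧ ori a b d ≠ 0 ∧
      ori a c d ≠ 0 ∧ ori b c d ≠ 0 := by
  have h1 : ori a b c ≠ 0 := fun h => by
    have := hcr.1; rw [h, zero_mul] at this; exact lt_irrefl _ this
  have h2 : ori a b d ≠ 0 := fun h => by
    have := hcr.1; rw [h, mul_zero] at this; exact lt_irrefl _ this
  have h3 : ori a c d ≠ 0 := fun h => by
    have := hcr.2; rw [ori_cyc a c d, h, zero_mul] at this; exact lt_irrefl _ this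
  have h4 : ori b c d ≠ 0 := fun h => by
    have := hcr.2; rw [ori_cyc b c d, h, mul_zero] at this; exact lt_irrefl _ this
  refine ⟨?_, ?_, ?_, ?_, ?_, ?_, h1, h2, h3, h4⟩
  · rintro rfl; exact h1 (ori_self_same _ _)
  · rintro rfl; exact h1 (ori_self_left _ _)
  · rintro rfl; exact h1 (ori_self_right _ _)
  · rintro rfl; exact h2 (ori_self_left _ _)
  · rintro rfl; exact h2 (ori_self_right _ _)
  · rintro rfl; exact h3 (ori_self_right _ _)

/-- new and old triangles do not overlap (new triangle `a c d`) -/
lemma new_old {P : Finset Pt} {T : Finset (Finset Pt)} (hT : IsTriangulation P T)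
    {a b c d : Pt} (h1 : {a, b, c} ∈ T) (h2 : {a, b, d} ∈ T) (hcr : Cr a b c d)
    {t : Finset Pt} (ht : t ∈ T) (hn1 : t ≠ {a, b, c}) (hn2 : t ≠ {a, b, d}) :
    Disjoint (interior (convexHull ℝ ((({a, c, d} : Finset Pt)) : Set Pt)))
      (interior (convexHull ℝ (t : Set Pt))) := by
  obtain ⟨hab, hac, hbc, had, hbd, hcd, o1, o2, o3, o4⟩ := four hcr
  rw [Set.disjoint_left]
  intro z hz1 hz2
  obtain ⟨w, ⟨hw1, hw2⟩, hw3⟩ := off_line (isOpen_interior.inter isOpen_interior)
    (show z ∈ interior (convexHull ℝ ((({a, c, d} : Finset Pt)) : Set Pt)) ∩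
      interior (convexHull ℝ (t : Set Pt)) from ⟨hz1, hz2⟩) hab
  rw [int3f o3] at hw1
  rcases part hcr hw1 hw3 with h | h
  · refine Set.disjoint_left.1 (hT.disj _ h1 _ ht (Ne.symm hn1)) ?_ hw2
    rw [int3f o1]; exact h
  · refine Set.disjoint_left.1 (hT.disj _ h2 _ ht (Ne.symm hn2)) ?_ hw2
    rw [int3f o2]; exact h

/-- the new triangle `a c d` is empty -/
lemma new_empty {P : Finset Pt} (hP : GenPos P) {T : Finset (Finset Pt)}
    (hT : IsTriangulation P T) {a b c d : Pt} (h1 : {a, b, c} ∈ T) (h2 : {a, b, d} ∈ T)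
    (hcr : Cr a b c d) (ha : a ∈ P) (hb : b ∈ P) {p : Pt} (hp : p ∈ P) :
    p ∉ interior (convexHull ℝ ((({a, c, d} : Finset Pt)) : Set Pt)) := by
  obtain ⟨hab, hac, hbc, had, hbd, hcd, o1, o2, o3, o4⟩ := four hcr
  rw [int3f o3]
  intro hz
  have hz' : InI a c d p := hz
  by_cases h0 : ori a b p = 0
  · by_cases hpa : p = a
    · subst hpa
      have e : ori p c p = 0 := ori_self_left p c
      rcases hz' with ⟨k, _, _⟩ | ⟨k, _, _⟩
      · rw [e] at k; exact lt_irrefl _ k
      · rw [e] at k; exact lt_irrefl _ k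
    · by_cases hpb : p = b
      · subst hpb
        have hs := bary_sum a c d p
        have e1 : ori a c d = ori c d a := (ori_cyc a c d).symm
        have hc2 := hcr.2
        rcases hz' with ⟨k1, k2, k3⟩ | ⟨k1, k2, k3⟩
        · have : 0 < ori c d a * ori c d p := mul_pos (by rw [← e1]; linarith) k2
          linarith
        · have : 0 < ori c d a * ori c d p :=
            mul_pos_of_neg_of_neg (by rw [← e1]; linarith) k2
          linarith
      · exact hP a ha b hb p hp hab (Ne.symm hpa) (Ne.symm hpb) h0
  · rcases part hcr hz' h0 with h | h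
    · apply hT.empty _ h1 p hp
      rw [int3f o1]; exact h
    · apply hT.empty _ h2 p hp
      rw [int3f o2]; exact h

/-- only the two triangles have the side `a b` -/
lemma side_ab {P : Finset Pt} (hP : GenPos P) {T : Finset (Finset Pt)}
    (hT : IsTriangulation P T) {a b c d : Pt} (h1 : {a, b, c} ∈ T) (h2 : {a, b, d} ∈ T)
    (hcr : Cr a b c d) (ha : a ∈ P) (hb : b ∈ P) {t : Finset Pt} (ht : t ∈ T) (hta : a ∈ t)
    (htb : b ∈ t) : t = {a, b, c} ∨ t = {a, b, d} := by
  obtain ⟨hab, hac, hbc, had, hbd, hcd, o1, o2, o3, o4⟩ := four hcr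
  obtain ⟨htP, htc⟩ := hT.tri t ht
  have hsub : ({a, b} : Finset Pt) ⊆ t := by
    intro x hx
    rw [Finset.mem_insert, Finset.mem_singleton] at hx
    rcases hx with rfl | rfl
    · exact hta
    · exact htb
  have hlt : ({a, b} : Finset Pt).card < t.card := by
    rw [htc, Finset.card_pair hab]; norm_num
  obtain ⟨z, hz1, hz2⟩ := Finset.exists_mem_notMem_of_card_lt_card hlt
  rw [Finset.mem_insert, Finset.mem_singleton, not_or] at hz2
  have hteq : t = {a, b, z} := by
    symm
    apply Finset.eq_of_subset_of_card_le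
    · intro x hx
      rw [Finset.mem_insert, Finset.mem_insert, Finset.mem_singleton] at hx
      rcases hx with rfl | rfl | rfl
      · exact hta
      · exact htb
      · exact hz1
    · rw [htc, card3 hab (Ne.symm hz2.1) (Ne.symm hz2.2)]
  have oz : ori a b z ≠ 0 :=
    hP a ha b hb z (htP hz1) hab (Ne.symm hz2.1) (Ne.symm hz2.2)
  by_contra hcon
  rw [not_or] at hcon
  have key : ∀ y : Pt, ({a, b, y} : Finset Pt) ∈ T → t ≠ {a, b, y} → ori a b y ≠ 0 →
      ¬ 0 < ori a b y * ori a b z := by
    intro y hy hty oy hpos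
    obtain ⟨w, hw1, hw2⟩ := overlap hpos
    have hw1' : w ∈ interior (convexHull ℝ ((({a, b, y} : Finset Pt)) : Set Pt)) := by
      rw [int3f oy]; exact hw1
    have hw2' : w ∈ interior (convexHull ℝ (t : Set Pt)) := by
      rw [hteq, int3f oz]; exact hw2
    exact Set.disjoint_left.1 (hT.disj _ hy _ ht (Ne.symm hty)) hw1' hw2'
  have k1 := key c h1 hcon.1 o1
  have k2 := key d h2 hcon.2 o2
  have hc1 := hcr.1
  rcases lt_or_gt_of_ne o1 with q1 | q1 <;> rcases lt_or_gt_of_ne oz with q2 | q2
  · exact k1 (mul_pos_of_neg_of_neg q1 q2)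
  · apply k2
    apply mul_pos _ q2
    by_contra hc
    push Not at hc
    have := mul_nonneg_of_nonpos_of_nonpos q1.le hc
    linarith
  · apply k2
    apply mul_pos_of_neg_of_neg _ q2
    by_contra hc
    push Not at hc
    have := mul_nonneg q1.le hc
    linarith
  · exact k1 (mul_pos q1 q2)

end AFlipTAux

open AFlipTAux

lemma flipT_ok {P : Finset Pt} (hP : GenPos P) {T : Finset (Finset Pt)}
    (hT : IsTriangulation P T) {a b c d : Pt} (h1 : {a, b, c} ∈ T) (h2 : {a, b, d} ∈ T)
    (hcr : Cr a b c d) :
    FlipT T (((T.erase {a, b, c}).erase {a, b, d}) ∪ {{a, c, d}, {b, c, d}}) ∧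
    IsTriangulation P (((T.erase {a, b, c}).erase {a, b, d}) ∪ {{a, c, d}, {b, c, d}}) ∧
    edg (((T.erase {a, b, c}).erase {a, b, d}) ∪ {{a, c, d}, {b, c, d}})
      = insert s(c, d) ((edg T).erase s(a, b)) := by
  obtain ⟨hab, hac, hbc, had, hbd, hcd, o1, o2, o3, o4⟩ := four hcr
  have hsub1 := (hT.tri _ h1).1
  have hsub2 := (hT.tri _ h2).1
  have ha : a ∈ P := hsub1 (by simp)
  have hb : b ∈ P := hsub1 (by simp)
  have hc : c ∈ P := hsub1 (by simp)
  have hd : d ∈ P := hsub2 (by simp)
  have h1' : ({b, a, c} : Finset Pt) ∈ T := by rw [Finset.insert_comm]; exact h1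
  have h2' : ({b, a, d} : Finset Pt) ∈ T := by rw [Finset.insert_comm]; exact h2
  have hcr' : Cr b a c d := hcr.swap_left
  have e1 : ({b, a, c} : Finset Pt) = {a, b, c} := Finset.insert_comm _ _ _
  have e2 : ({b, a, d} : Finset Pt) = {a, b, d} := Finset.insert_comm _ _ _
  -- hulls
  have q1 := qhull hcr
  have q2 := qhull hcr.symm
  have s1 : ({c, d, a} : Set Pt) = {a, c, d} := by
    ext x; simp only [Set.mem_insert_iff, Set.mem_singleton_iff]; tauto
  have s2 : ({c, d, b} : Set Pt) = {b, c, d} := by
    ext x; simp only [Set.mem_insert_iff, Set.mem_singleton_iff]; tauto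
  have s3 : ({c, d, a, b} : Set Pt) = {a, b, c, d} := by
    ext x; simp only [Set.mem_insert_iff, Set.mem_singleton_iff]; tauto
  rw [s1, s2, s3] at q2
  -- disjointness of the two new triangles
  have hnew : Disjoint (interior (convexHull ℝ ((({a, c, d} : Finset Pt)) : Set Pt)))
      (interior (convexHull ℝ ((({b, c, d} : Finset Pt)) : Set Pt))) := by
    rw [Set.disjoint_left, int3f o3, int3f o4]
    intro z hz1 hz2
    have hz1' : InI a c d z := hz1
    have hz2' : InI b c d z := hz2
    have b1 := bary_sum a c d z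
    have b2 := bary_sum b c d z
    have f1 : ori a c d = ori c d a := (ori_cyc a c d).symm
    have f2 : ori b c d = ori c d b := (ori_cyc b c d).symm
    have hc2 := hcr.2
    rcases hz1' with ⟨k1, k2, k3⟩ | ⟨k1, k2, k3⟩ <;>
      rcases hz2' with ⟨l1, l2, l3⟩ | ⟨l1, l2, l3⟩
    · have : 0 < ori c d a * ori c d b :=
        mul_pos (by rw [← f1]; linarith) (by rw [← f2]; linarith)
      linarith
    · linarith
    · linarith
    · have : 0 < ori c d a * ori c d b :=
        mul_pos_of_neg_of_neg (by rw [← f1]; linarith) (by rw [← f2]; linarith)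
      linarith
  have ho1 : ∀ t ∈ T, t ≠ {a, b, c} → t ≠ {a, b, d} →
      Disjoint (interior (convexHull ℝ ((({a, c, d} : Finset Pt)) : Set Pt)))
        (interior (convexHull ℝ (t : Set Pt))) :=
    fun t ht n1 n2 => new_old hT h1 h2 hcr ht n1 n2
  have ho2 : ∀ t ∈ T, t ≠ {a, b, c} → t ≠ {a, b, d} →
      Disjoint (interior (convexHull ℝ ((({b, c, d} : Finset Pt)) : Set Pt)))
        (interior (convexHull ℝ (t : Set Pt))) :=
    fun t ht n1 n2 => new_old hT h1' h2' hcr' ht (by rw [e1]; exact n1) (by rw [e2]; exact n2)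
  refine ⟨⟨a, b, c, d, hcd, h1, h2, by rw [q1]; exact convex_convexHull ℝ _, rfl⟩, ?_, ?_⟩
  · constructor
    · -- tri
      intro t ht
      rw [mem_T'] at ht
      rcases ht with ⟨_, _, ht⟩ | rfl | rfl
      · exact hT.tri t ht
      · refine ⟨?_, card3 hac had hcd⟩
        intro x hx
        rw [Finset.mem_insert, Finset.mem_insert, Finset.mem_singleton] at hx
        rcases hx with rfl | rfl | rfl <;> assumption
      · refine ⟨?_, card3 hbc hbd hcd⟩
        intro x hx
        rw [Finset.mem_insert, Finset.mem_insert, Finset.mem_singleton] at hx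
        rcases hx with rfl | rfl | rfl <;> assumption
    · -- disj
      intro t ht t' ht' hne
      rw [mem_T'] at ht ht'
      rcases ht with ⟨m1, m2, ht⟩ | rfl | rfl <;> rcases ht' with ⟨n1, n2, ht'⟩ | rfl | rfl
      · exact hT.disj t ht t' ht' hne
      · exact (ho1 t ht m2 m1).symm
      · exact (ho2 t ht m2 m1).symm
      · exact ho1 t' ht' n2 n1
      · exact absurd rfl hne
      · exact hnew
      · exact ho2 t' ht' n2 n1
      · exact hnew.symm
      · exact absurd rfl hne
    · -- cover
      rw [← hT.cover]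
      apply Set.Subset.antisymm
      · intro x hx
        rw [Set.mem_iUnion₂] at hx ⊢
        obtain ⟨t, ht, hx⟩ := hx
        have hq : x ∈ convexHull ℝ ({a, b, c, d} : Set Pt) →
            ∃ t ∈ T, x ∈ convexHull ℝ (t : Set Pt) := by
          intro h
          rw [← q1] at h
          rcases h with h | h
          · exact ⟨_, h1, by rw [coe3]; exact h⟩
          · exact ⟨_, h2, by rw [coe3]; exact h⟩
        have hq' : (∃ t ∈ T, x ∈ convexHull ℝ (t : Set Pt)) →
            ∃ t, ∃ (_ : t ∈ T), x ∈ convexHull ℝ (t : Set Pt) := by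
          rintro ⟨t, ht, h⟩; exact ⟨t, ht, h⟩
        rw [mem_T'] at ht
        rcases ht with ⟨_, _, ht⟩ | rfl | rfl
        · exact ⟨t, ht, hx⟩
        · apply hq'; apply hq; rw [← q2]; left; rw [coe3] at hx; exact hx
        · apply hq'; apply hq; rw [← q2]; right; rw [coe3] at hx; exact hx
      · intro x hx
        rw [Set.mem_iUnion₂] at hx ⊢
        obtain ⟨t, ht, hx⟩ := hx
        have hq : x ∈ convexHull ℝ ({a, b, c, d} : Set Pt) →
            ∃ t, ∃ (_ : t ∈ ((T.erase {a, b, c}).erase {a, b, d}) ∪ {{a, c, d}, {b, c, d}}),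
              x ∈ convexHull ℝ (t : Set Pt) := by
          intro h
          rw [← q2] at h
          rcases h with h | h
          · exact ⟨{a, c, d}, mem_T'.2 (Or.inr (Or.inl rfl)), by rw [coe3]; exact h⟩
          · exact ⟨{b, c, d}, mem_T'.2 (Or.inr (Or.inr rfl)), by rw [coe3]; exact h⟩
        by_cases n1 : t = {a, b, c}
        · apply hq; rw [← q1]; left; rw [n1, coe3] at hx; exact hx
        · by_cases n2 : t = {a, b, d}
          · apply hq; rw [← q1]; right; rw [n2, coe3] at hx; exact hx
          · exact ⟨t, mem_T'.2 (Or.inl ⟨n2, n1, ht⟩), hx⟩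
    · -- empty
      intro t ht p hp
      rw [mem_T'] at ht
      rcases ht with ⟨_, _, ht⟩ | rfl | rfl
      · exact hT.empty t ht p hp
      · exact new_empty hP hT h1 h2 hcr ha hb hp
      · exact new_empty hP hT h1' h2' hcr' hb ha hp
    · -- vertex
      intro p hp
      obtain ⟨t, ht, hpt⟩ := hT.vertex p hp
      have hq : p = a ∨ p = b ∨ p = c ∨ p = d →
          ∃ t ∈ ((T.erase {a, b, c}).erase {a, b, d}) ∪ {{a, c, d}, {b, c, d}}, p ∈ t := by
        rintro (rfl | rfl | rfl | rfl)
        · exact ⟨_, mem_T'.2 (Or.inr (Or.inl rfl)), by simp⟩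
        · exact ⟨_, mem_T'.2 (Or.inr (Or.inr rfl)), by simp⟩
        · exact ⟨_, mem_T'.2 (Or.inr (Or.inl rfl)), by simp⟩
        · exact ⟨_, mem_T'.2 (Or.inr (Or.inl rfl)), by simp⟩
      by_cases n1 : t = {a, b, c}
      · apply hq
        rw [n1, Finset.mem_insert, Finset.mem_insert, Finset.mem_singleton] at hpt
        tauto
      · by_cases n2 : t = {a, b, d}
        · apply hq
          rw [n2, Finset.mem_insert, Finset.mem_insert, Finset.mem_singleton] at hpt
          tauto
        · exact ⟨t, mem_T'.2 (Or.inl ⟨n2, n1, ht⟩), hpt⟩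
  · -- sides
    ext e
    induction e using Sym2.ind with
    | _ x y =>
    rw [Finset.mem_insert, Finset.mem_erase, mem_edg, mem_edg]
    constructor
    · rintro ⟨hxy, t, ht, hx, hy⟩
      rw [mem_T'] at ht
      rcases ht with ⟨m1, m2, ht⟩ | rfl | rfl
      · right
        refine ⟨?_, hxy, t, ht, hx, hy⟩
        intro he
        rw [Sym2.eq_iff] at he
        rcases he with ⟨rfl, rfl⟩ | ⟨rfl, rfl⟩
        · rcases side_ab hP hT h1 h2 hcr ha hb ht hx hy with h | h
          · exact m2 h
          · exact m1 h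
        · rcases side_ab hP hT h1 h2 hcr ha hb ht hy hx with h | h
          · exact m2 h
          · exact m1 h
      · by_cases he : s(x, y) = s(c, d)
        · exact Or.inl he
        · right
          rw [Finset.mem_insert, Finset.mem_insert, Finset.mem_singleton] at hx hy
          have hnab : s(x, y) ≠ s(a, b) := by
            intro h
            rw [Sym2.eq_iff] at h
            rcases h with ⟨rfl, rfl⟩ | ⟨rfl, rfl⟩
            · rcases hy with h | h | h
              · exact hab h.symm
              · exact hbc h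
              · exact hbd h
            · rcases hx with h | h | h
              · exact hab h.symm
              · exact hbc h
              · exact hbd h
          refine ⟨hnab, hxy, ?_⟩
          rcases hx with rfl | rfl | rfl <;> rcases hy with rfl | rfl | rfl
          · exact absurd rfl hxy
          · exact ⟨_, h1, by simp, by simp⟩
          · exact ⟨_, h2, by simp, by simp⟩
          · exact ⟨_, h1, by simp, by simp⟩
          · exact absurd rfl hxy
          · exact absurd rfl he
          · exact ⟨_, h2, by simp, by simp⟩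
          · exact absurd Sym2.eq_swap he
          · exact absurd rfl hxy
      · by_cases he : s(x, y) = s(c, d)
        · exact Or.inl he
        · right
          rw [Finset.mem_insert, Finset.mem_insert, Finset.mem_singleton] at hx hy
          have hnab : s(x, y) ≠ s(a, b) := by
            intro h
            rw [Sym2.eq_iff] at h
            rcases h with ⟨rfl, rfl⟩ | ⟨rfl, rfl⟩
            · rcases hx with h | h | h
              · exact hab h
              · exact hac h
              · exact had h
            · rcases hy with h | h | h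
              · exact hab h
              · exact hac h
              · exact had h
          refine ⟨hnab, hxy, ?_⟩
          rcases hx with rfl | rfl | rfl <;> rcases hy with rfl | rfl | rfl
          · exact absurd rfl hxy
          · exact ⟨_, h1, by simp, by simp⟩
          · exact ⟨_, h2, by simp, by simp⟩
          · exact ⟨_, h1, by simp, by simp⟩
          · exact absurd rfl hxy
          · exact absurd rfl he
          · exact ⟨_, h2, by simp, by simp⟩
          · exact absurd Sym2.eq_swap he
          · exact absurd rfl hxy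
    · rintro (he | ⟨hne, hxy, t, ht, hx, hy⟩)
      · rw [Sym2.eq_iff] at he
        rcases he with ⟨rfl, rfl⟩ | ⟨rfl, rfl⟩
        · exact ⟨hcd, _, mem_T'.2 (Or.inr (Or.inl rfl)), by simp, by simp⟩
        · exact ⟨hcd.symm, _, mem_T'.2 (Or.inr (Or.inl rfl)), by simp, by simp⟩
      · refine ⟨hxy, ?_⟩
        by_cases n1 : t = {a, b, c}
        · rw [n1, Finset.mem_insert, Finset.mem_insert, Finset.mem_singleton] at hx hy
          rcases hx with rfl | rfl | rfl <;> rcases hy with rfl | rfl | rfl
          · exact absurd rfl hxy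
          · exact absurd rfl hne
          · exact ⟨_, mem_T'.2 (Or.inr (Or.inl rfl)), by simp, by simp⟩
          · exact absurd Sym2.eq_swap hne
          · exact absurd rfl hxy
          · exact ⟨_, mem_T'.2 (Or.inr (Or.inr rfl)), by simp, by simp⟩
          · exact ⟨_, mem_T'.2 (Or.inr (Or.inl rfl)), by simp, by simp⟩
          · exact ⟨_, mem_T'.2 (Or.inr (Or.inr rfl)), by simp, by simp⟩
          · exact absurd rfl hxy
        · by_cases n2 : t = {a, b, d}
          · rw [n2, Finset.mem_insert, Finset.mem_insert, Finset.mem_singleton] at hx hy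
            rcases hx with rfl | rfl | rfl <;> rcases hy with rfl | rfl | rfl
            · exact absurd rfl hxy
            · exact absurd rfl hne
            · exact ⟨_, mem_T'.2 (Or.inr (Or.inl rfl)), by simp, by simp⟩
            · exact absurd Sym2.eq_swap hne
            · exact absurd rfl hxy
            · exact ⟨_, mem_T'.2 (Or.inr (Or.inr rfl)), by simp, by simp⟩
            · exact ⟨_, mem_T'.2 (Or.inr (Or.inl rfl)), by simp, by simp⟩
            · exact ⟨_, mem_T'.2 (Or.inr (Or.inr rfl)), by simp, by simp⟩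
            · exact absurd rfl hxy
          · exact ⟨t, mem_T'.2 (Or.inl ⟨n2, n1, ht⟩), hx, hy⟩

end F059
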