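import Pool.Agent.Lib.F059.ANoInt

/-!
# MP_f059c0_co, layer A, module AFlipTri (1.5 h): flipping an edge

`a b c`, `a b d` empty triangles with sides in the triangulation `A`, `a b` and `c d` cross.  Then
`A' = insert s(c,d) (A.erase s(a,b))` is a triangulation and `s(c,d) ∉ A`.

Proof.  `s(c,d) ∉ A` because it crosses `s(a,b) ∈ A`; `s(c,d) ∈ Seg P`.
Plane: it suffices that no `g ∈ A`, `g ≠ s(a,b)`, crosses `s(c,d)` (and `s(c,d)` does not cross
itself).  Suppose it does, at the point `x = pt c d (tau c d g)`, an inner point of `g`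
(`Cr_pt`).  Let `o` be the crossing point of `a b` and `c d`.  If `x = o` then `g` and
`s(a,b)` have a common inner point and cross (`meet`), contradiction.  If `x` is strictly
between `c` and `o` then `x` is strictly inside the triangle `a b c` (`ori a b x` has the sign of
`ori a b c`; `ori b c x`, `ori c a x` have the sign of `ori b c o = ori b c (pt a b s)`, which is
`(1-s) ori b c a`, etc.): contradiction to `no_int`.  Similarly between `o` and `d`.
Maximal: let `e ∈ Seg P` cross no member of `A'`.  If `e` does not cross `s(a,b)` then it crosses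
no member of `A`, so `e ∈ A`; `e ≠ s(a,b)` because `s(a,b)` crosses `s(c,d) ∈ A'`; so `e ∈ A'`.
If `e` crosses `s(a,b)`: `exitP` for `a b c` gives `c ∈ e` (the sides `a c`, `b c` are in `A'`
since they are not `s(a,b)`), and for `a b d` it gives `d ∈ e`; so `e = s(c,d)`
(`c ≠ d`; `Sym2.mem_and_mem_iff`).
-/

namespace F059

namespace AFlipTriAux

lemma pt_rev (c d : Pt) (t : ℝ) : pt c d t = pt d c (1 - t) := by
  unfold pt
  ext <;> simp <;> ring

lemma ins {a b c d : Pt} {σ τ s : ℝ} (hD : ori a b c ≠ 0) (h : pt c d σ = pt a b s) (hτ : 0 < τ)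
    (hτσ : τ < σ) (hs : 0 < s) (hs1 : s < 1) : InI a b c (pt c d τ) := by
  have hσ : 0 < σ := hτ.trans hτσ
  have e1 : σ * ori a b (pt c d τ) = (σ - τ) * ori a b c := by
    have h1 : ori a b (pt c d σ) = 0 := by
      rw [h, ori_pt, ori_self_left, ori_self_right]
      ring
    rw [ori_pt] at h1 ⊢
    linear_combination τ * h1
  have e2 : σ * ori b c (pt c d τ) = τ * (1 - s) * ori a b c := by
    have h1 : ori b c (pt c d σ) = (1 - s) * ori a b c := by
      rw [h, ori_pt, ori_self_left, ori_cyc a b c]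
      ring
    rw [ori_pt, ori_self_right] at h1 ⊢
    linear_combination τ * h1
  have e3 : σ * ori c a (pt c d τ) = τ * s * ori a b c := by
    have h1 : ori c a (pt c d σ) = s * ori a b c := by
      rw [h, ori_pt, ori_self_right, ori_cyc b c a, ori_cyc a b c]
      ring
    rw [ori_pt, ori_self_left] at h1 ⊢
    linear_combination τ * h1
  have k1 : 0 < σ - τ := sub_pos.2 hτσ
  have k2 : 0 < τ * (1 - s) := mul_pos hτ (sub_pos.2 hs1)
  have k3 : 0 < τ * s := mul_pos hτ hs
  rcases lt_or_gt_of_ne hD with hn | hp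
  · right
    refine ⟨?_, ?_, ?_⟩
    · have : σ * ori a b (pt c d τ) < 0 := by rw [e1]; exact mul_neg_of_pos_of_neg k1 hn
      exact (pos_iff_neg_of_mul_neg this).1 hσ
    · have : σ * ori b c (pt c d τ) < 0 := by rw [e2]; exact mul_neg_of_pos_of_neg k2 hn
      exact (pos_iff_neg_of_mul_neg this).1 hσ
    · have : σ * ori c a (pt c d τ) < 0 := by rw [e3]; exact mul_neg_of_pos_of_neg k3 hn
      exact (pos_iff_neg_of_mul_neg this).1 hσ
  · left
    refine ⟨?_, ?_, ?_⟩
    · have : 0 < σ * ori a b (pt c d τ) := by rw [e1]; exact mul_pos k1 hp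
      exact (mul_pos_iff_of_pos_left hσ).1 this
    · have : 0 < σ * ori b c (pt c d τ) := by rw [e2]; exact mul_pos k2 hp
      exact (mul_pos_iff_of_pos_left hσ).1 this
    · have : 0 < σ * ori c a (pt c d τ) := by rw [e3]; exact mul_pos k3 hp
      exact (mul_pos_iff_of_pos_left hσ).1 this

lemma key {P : Finset Pt} (hP : GenPos P) {A : Finset (Sym2 Pt)} (hA : Tri P A)
    {a b c d : Pt} (h1 : ET P A a b c) (h2 : ET P A a b d) (hcr : Cr a b c d) {u v : Pt}
    (huv : s(u, v) ∈ A) (hne : s(u, v) ≠ s(a, b)) : ¬ Cr c d u v := by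
  intro hx
  obtain ⟨t0, t1, t, ht0, ht1, ht⟩ := Cr_pt hx
  obtain ⟨s0, s1, s, hs0, hs1, hs⟩ := Cr_pt hcr.symm
  set τ := tau c d s(u, v)
  set σ := tau c d s(a, b)
  rcases lt_trichotomy τ σ with h | h | h
  · have hI : InI a b c (pt c d τ) := ins h1.em.1 hs t0 h hs0 hs1
    rw [ht] at hI
    exact no_int hP hA.1 hA.2.1 h1 huv ht0 ht1 hI
  · have hm : Cr u v a b := by
      refine meet hP (hA.1 huv) (hA.1 h1.ab) hne ht0 ht1 hs0 hs1 ?_
      rw [← ht, ← hs, h]
    exact hA.2.1 _ huv _ h1.ab (SCr_mk.2 hm)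
  · have hs' : pt d c (1 - σ) = pt a b s := by rw [← pt_rev, hs]
    have hI : InI a b d (pt d c (1 - τ)) :=
      ins h2.em.1 hs' (sub_pos.2 t1) (by linarith) hs0 hs1
    rw [← pt_rev, ht] at hI
    exact no_int hP hA.1 hA.2.1 h2 huv ht0 ht1 hI

end AFlipTriAux

lemma flip_tri {P : Finset Pt} (hP : GenPos P) {A : Finset (Sym2 Pt)} (hA : Tri P A)
    {a b c d : Pt} (h1 : ET P A a b c) (h2 : ET P A a b d) (hcr : Cr a b c d) :
    s(c, d) ∉ A ∧ Tri P (insert s(c, d) (A.erase s(a, b))) := by
  have hcd : c ≠ d := by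
    rintro rfl
    have := hcr.1
    nlinarith [mul_self_nonneg (ori a b c)]
  have hseg : s(c, d) ∈ Seg P := mem_Seg.2 ⟨h1.hc, h2.hc, hcd⟩
  have hself : ¬ SCr s(c, d) s(c, d) := by
    rw [SCr_mk]
    intro h
    have := h.1
    rw [ori_self_left, zero_mul] at this
    exact lt_irrefl _ this
  have hkey : ∀ g ∈ A.erase s(a, b), ¬ SCr s(c, d) g := by
    intro g hg
    rw [Finset.mem_erase] at hg
    induction g using Sym2.ind with
    | _ u v =>
      rw [SCr_mk]
      exact AFlipTriAux.key hP hA h1 h2 hcr hg.2 hg.1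
  refine ⟨fun h => hA.2.1 _ h1.ab _ h (SCr_mk.2 hcr), ?_, ?_, ?_⟩
  · intro e he
    rw [Finset.mem_insert] at he
    rcases he with rfl | he
    · exact hseg
    · exact hA.1 (Finset.mem_of_mem_erase he)
  · intro e he f hf
    rw [Finset.mem_insert] at he hf
    rcases he with rfl | he <;> rcases hf with rfl | hf
    · exact hself
    · exact hkey f hf
    · exact fun h => hkey e he h.symm
    · exact hA.2.1 e (Finset.mem_of_mem_erase he) f (Finset.mem_of_mem_erase hf)
  · intro e he hno
    have hno' : ∀ f ∈ A, f ≠ s(a, b) → ¬ SCr e f := fun f hf hne =>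
      hno f (Finset.mem_insert_of_mem (Finset.mem_erase.2 ⟨hne, hf⟩))
    by_cases hab : SCr e s(a, b)
    · have hmem : ∀ z : Pt, ET P A a b z → z ∈ e := by
        intro z hz
        have hza : z ≠ a := by
          rintro rfl
          exact hz.em.1 (ori_self_left z b)
        have hzb : z ≠ b := by
          rintro rfl
          exact hz.em.1 (ori_self_right a z)
        rcases exitP hP hz.ha hz.hb hz.hc hz.em he hab.symm with h | h | h
        · exact h
        · exfalso
          refine hno' s(a, z) (by rw [Sym2.eq_swap]; exact hz.ca) ?_ h.symm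
          intro h3
          rw [Sym2.eq_iff] at h3
          rcases h3 with ⟨_, h4⟩ | ⟨_, h4⟩
          · exact hzb h4
          · exact hza h4
        · exfalso
          refine hno' s(b, z) hz.bc ?_ h.symm
          intro h3
          rw [Sym2.eq_iff] at h3
          rcases h3 with ⟨_, h4⟩ | ⟨_, h4⟩
          · exact hzb h4
          · exact hza h4
      have h3 : e = s(c, d) := (Sym2.mem_and_mem_iff hcd).1 ⟨hmem c h1, hmem d h2⟩
      rw [h3]
      exact Finset.mem_insert_self _ _
    · have heA : e ∈ A := by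
        refine hA.2.2 e he fun f hf => ?_
        by_cases hf2 : f = s(a, b)
        · rw [hf2]
          exact hab
        · exact hno' f hf hf2
      refine Finset.mem_insert_of_mem (Finset.mem_erase.2 ⟨?_, heA⟩)
      rintro rfl
      exact hno s(c, d) (Finset.mem_insert_self _ _) (SCr_mk.2 hcr)

end F059
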