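import Pool.Agent.Lib.F059.ADefs

/-!
# MP_f059c0_co, layer A, module AHeight (1 h, pure algebra)

Triangle `a b c` counterclockwise, `w` strictly inside, the segment `u v` crosses `a w`, `u` is
higher above the line `b c` than `w` and at least as high as `v`, and `u` is not in the
closed triangle.  Then `u v` crosses `a b` or `a c`.

Proof.  `psi q = ori u v q`, `psi a * psi w < 0`, `psi u = psi v = 0`.  `D = ori a b c > 0`.
Let `y` be the crossing point, an inner point of `a w`, so strictly inside the triangle, and
`y = (1-s) u + s v`, `0 < s < 1`  (`s = C/(C-C')` with `C = ori a w u`, `C' = ori a w v`).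
`psi b - psi c = (v - u) x (b - c) <= 0`... precisely
`psi c - psi b = ori b c u - ori b c v >= 0` up to the sign convention (check with `ring`:
`ori u v c - ori u v b = ori b c u - ori b c v`), so `psi b <= psi c`.
`0 = D psi y = al psi a + be psi b + ga psi c` with positive weights.
* `psi a > 0`: then `be psi b + ga psi c < 0`, so `psi b < 0`.  Claim `Cr a b u v`.
  `ori a b v - ori a b u = psi a - psi b > 0` (check with `ring`), so
  `ori a b v >= ori a b y > 0`.  Suppose `ori a b u >= 0`.  Since `ori b c u > 0` and `u` is not
  in the closed triangle, `ori c a u < 0`; as `ori c a y > 0` we get `ori c a v > ori c a u`, i.e.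
  `psi c - psi a = ori c a v - ori c a u > 0` (check with `ring`), so `psi c > psi a > 0`.
  Now `bary` at `u`: `0 = D psi u = (ori b c u) psi a + (ori c a u) psi b + (ori a b u) psi c`
  with `ori b c u > 0`, `psi a > 0`, `ori c a u < 0`, `psi b < 0`, `ori a b u >= 0`, `psi c > 0`:
  the right side is positive, contradiction.
* `psi a < 0`: then `be psi b + ga psi c > 0`, so `psi c > 0`.  Claim `Cr a c u v`, symmetric
  (mirror image): `ori c a v - ori c a u = psi c - psi a > 0`, `ori c a v >= ori c a y > 0`;
  if `ori c a u >= 0` then `ori a b u < 0`, `psi a - psi b > 0`, `psi b < psi a < 0`, and `bary`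
  at `u` gives `0 = (pos)(neg) + (>= 0)(neg) + (neg)(pos) < 0`, contradiction.
-/

namespace F059

private lemma height_aux {C C' X Y p : ℝ} (h : C' * X - C * Y = p) (hp : 0 < p) (hC' : 0 < C')
    (hC : C < 0) (hXY : X ≤ Y) : 0 < Y := by
  by_contra hY
  push Not at hY
  have h1 : C' * X ≤ 0 := mul_nonpos_of_nonneg_of_nonpos hC'.le (hXY.trans hY)
  have h2 : 0 ≤ C * Y := mul_nonneg_of_nonpos_of_nonpos hC.le hY
  linarith

private lemma opp {x y : ℝ} (h : x * y < 0) (h2 : x < y) : x < 0 ∧ 0 < y := by
  rcases mul_neg_iff.1 h with ⟨h3, h4⟩ | ⟨h3, h4⟩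
  · exact absurd h2 (by linarith)
  · exact ⟨h3, h4⟩

lemma height {a b c w u v : Pt} (hD : 0 < ori a b c) (h1 : 0 < ori a b w) (h2 : 0 < ori b c w)
    (h3 : 0 < ori c a w) (hcr : Cr a w u v) (hu : ori b c w < ori b c u)
    (huv : ori b c v ≤ ori b c u) (hout : ¬ InT a b c u) : Cr a b u v ∨ Cr a c u v := by
  obtain ⟨hC, hpsi⟩ := hcr
  have hbu : 0 < ori b c u := h2.trans hu
  have hw := bary a b c u v w
  have hbc : ori u v b ≤ ori u v c := by
    have e : ori u v c - ori u v b = ori b c u - ori b c v := by unfold ori; ring
    linarith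
  have i1 : ori a w v * ori a b u - ori a w u * ori a b v = ori u v a * ori a b w := by
    unfold ori; ring
  have i2 : ori a w v * ori c a u - ori a w u * ori c a v = ori u v a * ori c a w := by
    unfold ori; ring
  have i3 : ori a w v - ori a w u = ori u v a - ori u v w := by unfold ori; ring
  have i4 : ori a b v - ori a b u = ori u v a - ori u v b := by unfold ori; ring
  have i5 : ori c a v - ori c a u = ori u v c - ori u v a := by unfold ori; ring
  have hbu0 := bary a b c u v u
  rw [ori_self_left, mul_zero] at hbu0
  have hnot : ¬ (0 ≤ ori a b u ∧ 0 ≤ ori b c u ∧ 0 ≤ ori c a u) := fun h => hout (Or.inl h)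
  rcases mul_neg_iff.1 hpsi with ⟨ha, hwn⟩ | ⟨ha, hwp⟩
  · -- psi a > 0
    left
    have hC2 := opp (x := ori a w u) (y := ori a w v) hC (by linarith)
    have hDw : ori a b c * ori u v w < 0 := mul_neg_of_pos_of_neg hD hwn
    have ht1 : 0 < ori b c w * ori u v a := mul_pos h2 ha
    have hb : ori u v b < 0 := by
      by_contra hb
      push Not at hb
      have t1 : 0 ≤ ori c a w * ori u v b := mul_nonneg h3.le hb
      have t2 : 0 ≤ ori a b w * ori u v c := mul_nonneg h1.le (hb.trans hbc)
      linarith
    have hY : 0 < ori a b v :=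
      height_aux i1 (mul_pos ha h1) hC2.2 hC2.1 (by linarith)
    have hX : ori a b u < 0 := by
      by_contra hX
      push Not at hX
      have hcau : ori c a u < 0 := by
        by_contra h
        push Not at h
        exact hnot ⟨hX, hbu.le, h⟩
      have hY2 : 0 < ori c a v := by
        by_contra hn
        push Not at hn
        have t1 : ori a w v * ori c a u < 0 := mul_neg_of_pos_of_neg hC2.2 hcau
        have t2 : 0 ≤ ori a w u * ori c a v := mul_nonneg_of_nonpos_of_nonpos hC2.1.le hn
        have t3 : 0 < ori u v a * ori c a w := mul_pos ha h3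
        linarith
      have hc : 0 < ori u v c := by linarith
      have t1 : 0 < ori b c u * ori u v a := mul_pos hbu ha
      have t2 : 0 < ori c a u * ori u v b := mul_pos_of_neg_of_neg hcau hb
      have t3 : 0 ≤ ori a b u * ori u v c := mul_nonneg hX hc.le
      linarith
    exact ⟨mul_neg_of_neg_of_pos hX hY, mul_neg_of_pos_of_neg ha hb⟩
  · -- psi a < 0
    right
    have hC2 := opp (x := ori a w v) (y := ori a w u) (by rw [mul_comm]; exact hC) (by linarith)
    have hDw : 0 < ori a b c * ori u v w := mul_pos hD hwp
    have ht1 : ori b c w * ori u v a < 0 := mul_neg_of_pos_of_neg h2 ha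
    have hc : 0 < ori u v c := by
      by_contra hc
      push Not at hc
      have t1 : ori c a w * ori u v b ≤ 0 := mul_nonpos_of_nonneg_of_nonpos h3.le (hbc.trans hc)
      have t2 : ori a b w * ori u v c ≤ 0 := mul_nonpos_of_nonneg_of_nonpos h1.le hc
      linarith
    have hY2 : 0 < ori c a v := by
      refine height_aux (C := -ori a w u) (C' := -ori a w v) (X := ori c a u)
        (p := -(ori u v a * ori c a w)) (by linarith)
        (by have := mul_neg_of_neg_of_pos ha h3; linarith) (by linarith [hC2.1])
        (by linarith [hC2.2]) (by linarith)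
    have hX2 : ori c a u < 0 := by
      by_contra hX
      push Not at hX
      have habu : ori a b u < 0 := by
        by_contra h
        push Not at h
        exact hnot ⟨h, hbu.le, hX⟩
      have hY : 0 < ori a b v := by
        by_contra hn
        push Not at hn
        have t1 : 0 < ori a w v * ori a b u := mul_pos_of_neg_of_neg hC2.1 habu
        have t2 : ori a w u * ori a b v ≤ 0 := mul_nonpos_of_nonneg_of_nonpos hC2.2.le hn
        have t3 : ori u v a * ori a b w < 0 := mul_neg_of_neg_of_pos ha h1
        linarith
      have hb : ori u v b < 0 := by linarith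
      have t1 : ori b c u * ori u v a < 0 := mul_neg_of_pos_of_neg hbu ha
      have t2 : ori c a u * ori u v b ≤ 0 := mul_nonpos_of_nonneg_of_nonpos hX hb.le
      have t3 : ori a b u * ori u v c < 0 := mul_neg_of_neg_of_pos habu hc
      linarith
    refine ⟨?_, mul_neg_of_neg_of_pos ha hc⟩
    rw [ori_swap c a u, ori_swap c a v, neg_mul_neg]
    exact mul_neg_of_neg_of_pos hX2 hY2

end F059
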