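import Pool.Agent.Lib.F059.ALem0
import Pool.Agent.Lib.F059.AExcl

/-!
# MP_f059c0_co, layer A, module ASide (2 h): one triangle at an edge of maximal crossing number

**part**: `a b c` empty, `B` a plane set of segments of `P`:
`N B s(a,b) = cut B a b c + cut B b a c + thr B c a b`.
Proof: the members of `B` crossing `a b` are divided into three disjoint classes (`exitP`):
crossing `a c`, crossing `b c`, ending in `c` (disjoint by `exc`, `exc_mem`).  `N B e` filters by
`SCr e`.  (`cut B b a c` filters `SCr s(b,a) h ∧ SCr s(b,c) h`; `s(b,a) = s(a,b)`.)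

**side**: `A, B` triangulations, `a b c` an empty triangle with sides in `A`, and `s(a,b)` has
the largest crossing number of the three sides, which is positive.  Then
(1) no edge of `B` runs from `a` through `b c`, or from `b` through `a c`;
(2) if an edge of `B` runs from `c` through `a b` then none cuts off `c`;
(3) `0 < cut a + thr c`, `0 < cut b + thr c`.
Proof.  Write `p = cut B a b c`, `q = cut B b a c`, `r = cut B c a b`, `v = thr B c a b`,
`va = thr B a b c`, `vb = thr B b a c`.  `part` (three times, `Em` is symmetric, and `cut B a b c =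
cut B a c b`, `thr B a b c = thr B a c b` by symmetry of the definitions):
`N(ab) = p + q + v`, `N(ac) = p + r + vb`, `N(bc) = q + r + va`.
`excl` (applied with the vertices permuted): an edge from `a` through `b c` crosses every edge
that cuts off `a` and every edge from `c` through `a b` (and every edge from `b` through `a c`);
since `B` is plane: `va > 0 -> p = 0 ∧ v = 0`; similarly `vb > 0 -> q = 0 ∧ v = 0`;
`v > 0 -> r = 0`.
(1) if `va > 0` then `N(ab) = q < q + r + va = N(bc)`, contradiction; same for `vb`.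
(2) is `v > 0 -> r = 0`.
(3) if `p + v = 0` then `q = N(ab) > 0`; `lem0` (some edge crosses `a b`, `b c`) gives `p > 0` or
`va > 0` or `v > 0`; all excluded.  If `q + v = 0` then `p > 0`; `lem0` for the triangle `b a c`.
-/

namespace F059

lemma part {P : Finset Pt} (hP : GenPos P) {B : Finset (Sym2 Pt)} (hBP : B ⊆ Seg P)
    {a b c : Pt} (ha : a ∈ P) (hb : b ∈ P) (hc : c ∈ P) (hE : Em P a b c) :
    N B s(a, b) = cut B a b c + cut B b a c + thr B c a b := by
  classical
  unfold N cut thr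
  rw [Finset.card_filter, Finset.card_filter, Finset.card_filter, Finset.card_filter,
    ← Finset.sum_add_distrib, ← Finset.sum_add_distrib]
  refine Finset.sum_congr rfl fun h hh => ?_
  by_cases hX : SCr s(a, b) h
  · have hX' : SCr s(b, a) h := hX.swap_left
    rcases exitP hP ha hb hc hE (hBP hh) hX with h1 | h1 | h1
    · have h2 : ¬ SCr s(a, c) h := exc_mem h1
      have h3 : ¬ SCr s(b, c) h := exc_mem h1
      simp [hX, h1, h2, h3]
    · have h2 : ¬ c ∈ h := fun h' => exc_mem h' h1
      have h3 : ¬ SCr s(b, c) h := exc hX h1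
      simp [hX, h1, h2, h3]
    · have h2 : ¬ c ∈ h := fun h' => exc_mem h' h1
      have h3 : ¬ SCr s(a, c) h := fun h' => exc hX h' h1
      simp [hX, hX', h1, h2, h3]
  · have hX' : ¬ SCr s(b, a) h := fun h' => hX h'.swap_left
    simp [hX, hX']

lemma cut_comm (B : Finset (Sym2 Pt)) (a b c : Pt) : cut B a b c = cut B a c b := by
  classical
  unfold cut
  congr 1
  refine Finset.filter_congr fun h _ => and_comm

lemma thr_comm (B : Finset (Sym2 Pt)) (c a b : Pt) : thr B c a b = thr B c b a := by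
  unfold thr
  rw [Sym2.eq_swap]

private lemma cut_pos {B : Finset (Sym2 Pt)} {a b c : Pt} :
    0 < cut B a b c ↔ ∃ h ∈ B, SCr s(a, b) h ∧ SCr s(a, c) h := by
  classical
  unfold cut
  rw [Finset.card_pos]
  constructor
  · rintro ⟨h, hh⟩
    rw [Finset.mem_filter] at hh
    exact ⟨h, hh.1, hh.2⟩
  · rintro ⟨h, hh, h1⟩
    exact ⟨h, Finset.mem_filter.2 ⟨hh, h1⟩⟩

private lemma thr_pos {B : Finset (Sym2 Pt)} {c a b : Pt} :
    0 < thr B c a b ↔ ∃ h ∈ B, c ∈ h ∧ SCr s(a, b) h := by
  classical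
  unfold thr
  rw [Finset.card_pos]
  constructor
  · rintro ⟨h, hh⟩
    rw [Finset.mem_filter] at hh
    exact ⟨h, hh.1, hh.2⟩
  · rintro ⟨h, hh, h1⟩
    exact ⟨h, Finset.mem_filter.2 ⟨hh, h1⟩⟩

lemma side {P : Finset Pt} (hP : GenPos P) {A B : Finset (Sym2 Pt)} (hB : Tri P B)
    {a b c : Pt} (hE : ET P A a b c) (h1 : N B s(a, c) ≤ N B s(a, b))
    (h2 : N B s(b, c) ≤ N B s(a, b)) (hpos : 0 < N B s(a, b)) :
    N B s(a, b) = cut B a b c + cut B b a c + thr B c a b ∧
    N B s(a, c) = cut B a b c + cut B c a b ∧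
    N B s(b, c) = cut B b a c + cut B c a b ∧
    thr B a b c = 0 ∧ thr B b a c = 0 ∧
    (0 < thr B c a b → cut B c a b = 0) ∧
    0 < cut B a b c + thr B c a b ∧ 0 < cut B b a c + thr B c a b := by
  have hpl := hB.2.1
  have e1 := part hP hB.1 hE.ha hE.hb hE.hc hE.em
  have e2 := part hP hB.1 hE.ha hE.hc hE.hb hE.em.rot.rot.swap
  have e3 := part hP hB.1 hE.hb hE.hc hE.ha hE.em.rot
  rw [cut_comm B a c b] at e2
  rw [cut_comm B b c a, cut_comm B c b a] at e3
  have va1 : 0 < thr B a b c → cut B a b c = 0 ∧ thr B c a b = 0 := by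
    intro h
    obtain ⟨g, hg, hg1, hg2⟩ := thr_pos.1 h
    constructor
    · by_contra h3
      obtain ⟨k, hk, hk1, hk2⟩ := cut_pos.1 (Nat.pos_of_ne_zero h3)
      exact hpl g hg k hk (excl hg1 hg2 hk2.swap_left (Or.inr hk1.swap_left))
    · by_contra h3
      obtain ⟨k, hk, hk1, hk2⟩ := thr_pos.1 (Nat.pos_of_ne_zero h3)
      exact hpl g hg k hk (excl hg1 hg2.swap_left hk2.swap_left (Or.inl hk1))
  have vb1 : 0 < thr B b a c → cut B b a c = 0 ∧ thr B c a b = 0 := by
    intro h
    obtain ⟨g, hg, hg1, hg2⟩ := thr_pos.1 h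
    constructor
    · by_contra h3
      obtain ⟨k, hk, hk1, hk2⟩ := cut_pos.1 (Nat.pos_of_ne_zero h3)
      exact hpl g hg k hk (excl hg1 hg2 hk2.swap_left (Or.inr hk1.swap_left))
    · by_contra h3
      obtain ⟨k, hk, hk1, hk2⟩ := thr_pos.1 (Nat.pos_of_ne_zero h3)
      exact hpl g hg k hk (excl hg1 hg2.swap_left hk2 (Or.inl hk1))
  have va0 : thr B a b c = 0 := by
    by_contra h3
    obtain ⟨h4, h5⟩ := va1 (Nat.pos_of_ne_zero h3)
    omega
  have vb0 : thr B b a c = 0 := by
    by_contra h3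
    obtain ⟨h4, h5⟩ := vb1 (Nat.pos_of_ne_zero h3)
    omega
  refine ⟨e1, by omega, by omega, va0, vb0, ?_, ?_, ?_⟩
  · intro h
    obtain ⟨g, hg, hg1, hg2⟩ := thr_pos.1 h
    by_contra h3
    obtain ⟨k, hk, hk1, hk2⟩ := cut_pos.1 (Nat.pos_of_ne_zero h3)
    exact hpl g hg k hk (excl hg1 hg2 hk2.swap_left (Or.inr hk1.swap_left))
  · by_contra h3
    have h4 : 0 < cut B b a c := by omega
    obtain ⟨g, hg, hg1, hg2⟩ := cut_pos.1 h4
    rcases lem0 hP hB hE.ha hE.hb hE.hc hE.em ⟨g, hg, hg1.swap_left, hg2⟩ with h5 | h5 | h5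
    · have := cut_pos.2 h5
      omega
    · have := thr_pos.2 h5
      omega
    · have := thr_pos.2 h5
      omega
  · by_contra h3
    have h4 : 0 < cut B a b c := by omega
    obtain ⟨g, hg, hg1, hg2⟩ := cut_pos.1 h4
    rcases lem0 hP hB hE.hb hE.ha hE.hc hE.em.swap ⟨g, hg, hg1.swap_left, hg2⟩ with h5 | h5 | h5
    · have := cut_pos.2 h5
      omega
    · have := thr_pos.2 h5
      omega
    · obtain ⟨k, hk, hk1, hk2⟩ := h5
      have := thr_pos.2 ⟨k, hk, hk1, hk2.swap_left⟩
      omega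

end F059
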