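import Pool.Agent.Lib.F059.AQuad
import Pool.Agent.Lib.F059.ASide
import Pool.Agent.Lib.F059.AConv
import Pool.Agent.Lib.F059.AFlipTri

/-!
# MP_f059c0_co, layer A, module ATie (1.5 h): the flip of a maximal edge

`A, B` triangulations, `s(a,b) ∈ A` with the largest crossing number `N B s(a,b) > 0`,
`a b c`, `a b d` the empty triangles on its two sides.  Then `a b` and `c d` cross,
`N B s(c,d) <= N B s(a,b)`, and in the case of equality (`tie`): no edge of `B` runs from `c`
or `d` through `a b`, and `cut B c a b` is `cut B b a c` or `cut B a b c`, and likewise for `d`.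

Proof.  `side` for `c` and for `d`: `mu = p+q+v = p'+q'+v'`, `N(ac) = p + r <= mu`,
`N(bc) = q + r <= mu`, `v > 0 -> r = 0`, `0 < p + v`, `0 < q + v`, the same with primes
(`p = cut B a b c, q = cut B b a c, r = cut B c a b, v = thr B c a b`;
`p' = cut B a b d, q' = cut B b a d, r' = cut B d a b, v' = thr B d a b`).
`conv` at `a` (there are edges counted by `p + v > 0` and `p' + v' > 0`) and at `b` (triangles
`b a c`, `b a d`; edges counted by `q + v`, `q' + v'`), then `conv_cr`: `Cr a b c d`.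
`s(a,b) ∉ B`: some edge of the plane set `B` crosses it.
`quad1`, and `quad2` for `(a,b,c,d)` and for `(b,a,c,d)`: with `n1 = dg B a b c d`,
`n2 = dg B b a c d`: `N(cd) <= n1 + n2 + r + r'`;
`n1 > 0 -> n2 = 0 ∧ n1 + (q+v) + (p'+v') <= mu`; `n2 > 0 -> n1 = 0 ∧ n2 + (p+v) + (q'+v') <= mu`
(use `cut_comm`, `thr_comm`, and `N B s(b,a) = N B s(a,b)`).
Everything else is linear arithmetic (`omega`): if `n1 = n2 = 0` then `N(cd) <= r + r'`, and
`2r <= mu` (as `v > 0 -> r = 0` and otherwise `r <= p`, `r <= q`), with equality only if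
`v = 0, r = p = q`.  If `n1 > 0`: `N(cd) <= mu + (r - q - v) + (r' - p' - v')`, and
`r <= q + v` with equality only for `v = 0, r = q`.  Same for `n2 > 0`.
-/

namespace F059

/-- the arithmetic part -/
lemma tie_arith {mu p q v r p' q' v' r' n1 n2 n : ℕ} (hmu : 0 < mu)
    (h1 : mu = p + q + v) (h2 : p + r ≤ mu) (h3 : q + r ≤ mu) (h4 : 0 < v → r = 0)
    (h1' : mu = p' + q' + v') (h2' : p' + r' ≤ mu) (h3' : q' + r' ≤ mu) (h4' : 0 < v' → r' = 0)
    (hn : n ≤ n1 + n2 + r + r')
    (hn1 : 0 < n1 → n2 = 0 ∧ n1 + (q + v) + (p' + v') ≤ mu)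
    (hn2 : 0 < n2 → n1 = 0 ∧ n2 + (p + v) + (q' + v') ≤ mu) :
    n ≤ mu ∧ (n = mu → (v = 0 ∧ (r = q ∨ r = p)) ∧ (v' = 0 ∧ (r' = q' ∨ r' = p'))) := by
  rcases Nat.eq_zero_or_pos v with hv | hv
  · rcases Nat.eq_zero_or_pos v' with hv' | hv'
    · rcases Nat.eq_zero_or_pos n1 with h | h
      · rcases Nat.eq_zero_or_pos n2 with h' | h'
        · constructor <;> omega
        · have := hn2 h'; constructor <;> omega
      · have := hn1 h; constructor <;> omega
    · have := h4' hv'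
      rcases Nat.eq_zero_or_pos n1 with h | h
      · rcases Nat.eq_zero_or_pos n2 with h' | h'
        · constructor <;> omega
        · have := hn2 h'; constructor <;> omega
      · have := hn1 h; constructor <;> omega
  · have := h4 hv
    rcases Nat.eq_zero_or_pos v' with hv' | hv'
    · rcases Nat.eq_zero_or_pos n1 with h | h
      · rcases Nat.eq_zero_or_pos n2 with h' | h'
        · constructor <;> omega
        · have := hn2 h'; constructor <;> omega
      · have := hn1 h; constructor <;> omega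
    · have := h4' hv'
      rcases Nat.eq_zero_or_pos n1 with h | h
      · rcases Nat.eq_zero_or_pos n2 with h' | h'
        · constructor <;> omega
        · have := hn2 h'; constructor <;> omega
      · have := hn1 h; constructor <;> omega

private lemma of_cut_pos {B : Finset (Sym2 Pt)} {a b c : Pt} (h : 0 < cut B a b c) :
    ∃ g ∈ B, SCr s(a, b) g ∧ SCr s(a, c) g := by
  classical
  unfold cut at h
  obtain ⟨g, hg⟩ := Finset.card_pos.mp h
  rw [Finset.mem_filter] at hg
  exact ⟨g, hg.1, hg.2.1, hg.2.2⟩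

private lemma of_thr_pos {B : Finset (Sym2 Pt)} {a b c : Pt} (h : 0 < thr B c a b) :
    ∃ g ∈ B, c ∈ g ∧ SCr s(a, b) g := by
  classical
  unfold thr at h
  obtain ⟨g, hg⟩ := Finset.card_pos.mp h
  rw [Finset.mem_filter] at hg
  exact ⟨g, hg.1, hg.2.1, hg.2.2⟩

private lemma of_N_pos {B : Finset (Sym2 Pt)} {e : Sym2 Pt} (h : 0 < N B e) :
    ∃ g ∈ B, SCr e g := by
  classical
  unfold N at h
  obtain ⟨g, hg⟩ := Finset.card_pos.mp h
  rw [Finset.mem_filter] at hg
  exact ⟨g, hg.1, hg.2⟩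

private lemma conv_hyp {B : Finset (Sym2 Pt)} {a b c : Pt}
    (h : 0 < cut B a b c + thr B c a b) :
    ∃ g ∈ B, SCr s(a, b) g ∧ (SCr s(a, c) g ∨ c ∈ g) := by
  rcases Nat.eq_zero_or_pos (cut B a b c) with h0 | h0
  · obtain ⟨g, hg, h1, h2⟩ := of_thr_pos (B := B) (a := a) (b := b) (c := c) (by omega)
    exact ⟨g, hg, h2, Or.inr h1⟩
  · obtain ⟨g, hg, h1, h2⟩ := of_cut_pos h0
    exact ⟨g, hg, h1, Or.inl h2⟩

lemma tie {P : Finset Pt} (hP : GenPos P) {A B : Finset (Sym2 Pt)} (hA : Tri P A)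
    (hB : Tri P B) {a b c d : Pt} (hc : ET P A a b c) (hd : ET P A a b d)
    (hs : ori a b c * ori a b d < 0) (hmax : ∀ e ∈ A, N B e ≤ N B s(a, b))
    (hpos : 0 < N B s(a, b)) :
    Cr a b c d ∧ N B s(c, d) ≤ N B s(a, b) ∧
      (N B s(c, d) = N B s(a, b) →
        thr B c a b = 0 ∧ (cut B c a b = cut B b a c ∨ cut B c a b = cut B a b c) ∧
        thr B d a b = 0 ∧ (cut B d a b = cut B b a d ∨ cut B d a b = cut B a b d)) := by
  have hBP : B ⊆ Seg P := hB.1
  have hBpl : Plane B := hB.2.1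
  have hac : N B s(a, c) ≤ N B s(a, b) := hmax _ (by rw [Sym2.eq_swap]; exact hc.ca)
  have hbc : N B s(b, c) ≤ N B s(a, b) := hmax _ hc.bc
  have had : N B s(a, d) ≤ N B s(a, b) := hmax _ (by rw [Sym2.eq_swap]; exact hd.ca)
  have hbd : N B s(b, d) ≤ N B s(a, b) := hmax _ hd.bc
  obtain ⟨c1, c2, c3, c4, c5, c6, c7, c8⟩ := side hP hB hc hac hbc hpos
  obtain ⟨d1, d2, d3, d4, d5, d6, d7, d8⟩ := side hP hB hd had hbd hpos
  have hs' : ori b a c * ori b a d < 0 := by
    rw [ori_swap a b c, ori_swap a b d]; linarith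
  have k1 : 0 < ori a b c * ori a d c :=
    conv hP hBP hBpl hc.ha hc.hb hc.hc hd.hc hc.em hd.em hs (conv_hyp c7) (conv_hyp d7)
  have k2 : 0 < ori b a c * ori b d c := by
    refine conv hP hBP hBpl hc.hb hc.ha hc.hc hd.hc hc.em.swap hd.em.swap hs' ?_ ?_
    · exact conv_hyp (by rw [thr_comm B c b a]; exact c8)
    · exact conv_hyp (by rw [thr_comm B d b a]; exact d8)
  have hcr : Cr a b c d := conv_cr hs k1 k2
  have hab : s(a, b) ∉ B := by
    intro hmem
    obtain ⟨g, hg, hgc⟩ := of_N_pos hpos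
    exact hBpl _ hmem _ hg hgc
  have q1 := quad1 hP hBP hc.ha hc.hb hc.hc hd.hc hc.em hd.em hcr hab c4 c5 d4 d5
  have hn1 : 0 < dg B a b c d → dg B b a c d = 0 ∧
      dg B a b c d + (cut B b a c + thr B c a b) + (cut B a b d + thr B d a b) ≤ N B s(a, b) :=
    fun h => quad2 hP hBP hBpl hc.ha hc.hb hc.hc hd.hc hc.em hd.em hcr h
  have hn2 : 0 < dg B b a c d → dg B a b c d = 0 ∧
      dg B b a c d + (cut B a b c + thr B c a b) + (cut B b a d + thr B d a b) ≤ N B s(a, b) := by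
    intro h
    have := quad2 hP hBP hBpl hc.hb hc.ha hc.hc hd.hc hc.em.swap hd.em.swap hcr.swap_left h
    rw [thr_comm B c b a, thr_comm B d b a, Sym2.eq_swap (a := b) (b := a)] at this
    exact this
  have key := tie_arith (n := N B s(c, d)) hpos c1 (by rw [← c2]; exact hac)
    (by rw [← c3]; exact hbc) c6 d1 (by rw [← d2]; exact had) (by rw [← d3]; exact hbd) d6
    q1 hn1 hn2
  refine ⟨hcr, key.1, fun h => ?_⟩
  obtain ⟨⟨e1, e2⟩, e3, e4⟩ := key.2 h
  exact ⟨e1, e2, e3, e4⟩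

end F059
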