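import Pool.Agent.Lib.F059.AStep
import Pool.Agent.Lib.F059.AEven
import Pool.Agent.Lib.F059.ATie

/-!
# MP_f059c0_co, layer A, module AHos (1.5 h): Hanke, Ottmann, Schuierer

`A ≠ B` triangulations of `P` (general position).  Some edge `e` of `A` with the largest crossing
number with `B` can be flipped so that the number of crossings with `B` drops.

Proof.  Some edge of `A` crosses an edge of `B`: otherwise `A ⊆ B` (maximality of `B`: third part
of `Tri`, for `e ∈ A ⊆ Seg P`) and `B ⊆ A` (maximality of `A`, symmetry of `SCr`), so `A = B`.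
So `mu = max_{e ∈ A} N B e > 0` (`Finset.exists_max_image`).  Suppose the claim fails: for
every `e ∈ A` with `N B e = mu` and every `e' ∉ A` with `Tri P (insert e' (A.erase e))`, the number of
crossings does not drop, i.e. (`cr_flip` below) `N B e' >= N B e`.  Then `TieAll P A B mu`: let
`ET P A a b c`, `N B s(a,b) = mu`.  Since `mu > 0` an edge `s(u,v)` of `B` crosses `a b`, so there is
a point of `P` on the other side of `a b` than `c` (`u` or `v`); `local_side` gives `d` with
`ET P A a b d` and `ori a b c * ori a b d < 0`.  `tie`: `Cr a b c d`; `flip_tri`: `s(c,d) ∉ A` and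
`Tri P (insert s(c,d) (A.erase s(a,b)))`; so `N B s(c,d) >= mu`, `tie` gives the tie conditions
for `c`.  `mu` odd: `odd_false`; `mu` even: `even_false`.  Contradiction.
-/

namespace F059

lemma cr_flip {A B : Finset (Sym2 Pt)} {e e' : Sym2 Pt} (he : e ∈ A) (he' : e' ∉ A) :
    cr (insert e' (A.erase e)) B + N B e = cr A B + N B e' := by
  have hne : e' ∉ A.erase e := fun h => he' (Finset.mem_of_mem_erase h)
  unfold cr
  rw [Finset.sum_insert hne]
  have := Finset.sum_erase_add A (N B) he
  omega

theorem hos {P : Finset Pt} (hP : GenPos P) {A B : Finset (Sym2 Pt)} (hA : Tri P A)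
    (hB : Tri P B) (hne : A ≠ B) :
    ∃ e ∈ A, (∀ f ∈ A, N B f ≤ N B e) ∧ 0 < N B e ∧
      ∃ e', e' ∉ A ∧ Tri P (insert e' (A.erase e)) ∧ cr (insert e' (A.erase e)) B < cr A B := by
  classical
  -- some edge of `A` crosses an edge of `B`
  obtain ⟨e₁, he₁, hpos₁⟩ : ∃ e ∈ A, 0 < N B e := by
    by_contra hc
    push Not at hc
    have hno : ∀ e ∈ A, ∀ f ∈ B, ¬ SCr e f := by
      intro e he f hf hcr
      have h0 := hc e he
      have h1 : 0 < N B e := by
        unfold N
        exact Finset.card_pos.mpr ⟨f, Finset.mem_filter.mpr ⟨hf, hcr⟩⟩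
      omega
    apply hne
    apply Finset.Subset.antisymm
    · intro e he
      exact hB.2.2 e (hA.1 he) (fun f hf => hno e he f hf)
    · intro f hf
      exact hA.2.2 f (hB.1 hf) (fun e he h => hno e he f hf h.symm)
  obtain ⟨e₀, he₀, hmax⟩ := Finset.exists_max_image A (N B) ⟨e₁, he₁⟩
  have hpos : 0 < N B e₀ := lt_of_lt_of_le hpos₁ (hmax e₁ he₁)
  by_contra hcon
  have hcon' : ∀ e ∈ A, (∀ f ∈ A, N B f ≤ N B e) → 0 < N B e → ∀ e', e' ∉ A →
      Tri P (insert e' (A.erase e)) → cr A B ≤ cr (insert e' (A.erase e)) B := by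
    intro e he h1 h2 e' he' h3
    by_contra h4
    exact hcon ⟨e, he, h1, h2, e', he', h3, not_le.mp h4⟩
  have hT : TieAll P A B (N B e₀) := by
    intro a b c hE hN
    have hmax' : ∀ e ∈ A, N B e ≤ N B s(a, b) := by
      intro e he
      rw [hN]
      exact hmax e he
    have hpos' : 0 < N B s(a, b) := by rw [hN]; exact hpos
    -- a point on the other side
    obtain ⟨p, hp, hps⟩ : ∃ p ∈ P, ori a b c * ori a b p < 0 := by
      have h1 : (B.filter (SCr s(a, b))).Nonempty := by
        apply Finset.card_pos.mp
        exact hpos'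
      obtain ⟨f, hf⟩ := h1
      rw [Finset.mem_filter] at hf
      obtain ⟨hfB, hfc⟩ := hf
      induction f using Sym2.ind with
      | _ u v =>
        rw [SCr_mk] at hfc
        have huv := mem_Seg.mp (hB.1 hfB)
        have h2 := hfc.1
        have h3 := hE.em.1
        rcases lt_or_gt_of_ne h3 with h3 | h3
        · rcases lt_or_ge (ori a b u) 0 with h4 | h4
          · refine ⟨v, huv.2.1, ?_⟩
            have : 0 < ori a b v := by nlinarith
            exact mul_neg_of_neg_of_pos h3 this
          · refine ⟨u, huv.1, ?_⟩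
            have h5 : ori a b u ≠ 0 := by
              intro h6
              rw [h6, zero_mul] at h2
              exact lt_irrefl _ h2
            exact mul_neg_of_neg_of_pos h3 (lt_of_le_of_ne h4 (Ne.symm h5))
        · rcases lt_or_ge (ori a b u) 0 with h4 | h4
          · exact ⟨u, huv.1, mul_neg_of_pos_of_neg h3 h4⟩
          · refine ⟨v, huv.2.1, mul_neg_of_pos_of_neg h3 ?_⟩
            have h5 : ori a b u ≠ 0 := by
              intro h6
              rw [h6, zero_mul] at h2
              exact lt_irrefl _ h2
            have h6 : 0 < ori a b u := lt_of_le_of_ne h4 (Ne.symm h5)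
            by_contra h7
            have := mul_nonneg h6.le (not_lt.mp h7)
            linarith
    have hpa : p ≠ a := by
      rintro rfl
      rw [ori_self_left, mul_zero] at hps
      exact lt_irrefl _ hps
    have hpb : p ≠ b := by
      rintro rfl
      rw [ori_self_right, mul_zero] at hps
      exact lt_irrefl _ hps
    obtain ⟨d, hd, hds⟩ := local_side hP hA hE.ab hp hpa hpb
    have hs : ori a b c * ori a b d < 0 := by
      by_contra h1
      have h1' := not_lt.mp h1
      have h2 := mul_nonneg h1' hds.le
      have h3 : ori a b c * ori a b d * (ori a b d * ori a b p) =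
          (ori a b c * ori a b p) * (ori a b d * ori a b d) := by ring
      have h4 : 0 < ori a b d * ori a b d := mul_self_pos.mpr hd.em.1
      have h5 := mul_neg_of_neg_of_pos hps h4
      linarith
    obtain ⟨t1, t2, t3⟩ := tie hP hA hB hE hd hs hmax' hpos'
    obtain ⟨f1, f2⟩ := flip_tri hP hA hE hd t1
    have h1 := hcon' _ hE.ab hmax' hpos' _ f1 f2
    have h2 := cr_flip (B := B) hE.ab f1
    have h3 := t3 (by omega)
    exact ⟨h3.1, h3.2.1⟩
  rcases Nat.even_or_odd' (N B e₀) with ⟨m, hm | hm⟩
  · rw [hm] at hT
    exact even_false hP hA hB (by omega) (fun e he => by have := hmax e he; omega) hT he₀ hm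
  · rw [hm] at hT
    exact odd_false hP hA hB (fun e he => by have := hmax e he; omega) hT he₀ hm

end F059
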