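import Pool.Agent.Lib.F059.ABDefs

/-!
# MP_f059c0_co, layer A, module AHull (1.5 h): closed and open triangles by determinants

**hull3**: `convexHull ℝ {a,b,c} = {p | InT a b c p}` if `ori a b c ≠ 0`.
`InT` is invariant under permutations (`InT.rot`, `InT.swap`), so let `D = ori a b c > 0`; by
`bary_sum` then `InT a b c p` iff all three determinants `ori a b p`, `ori b c p`, `ori c a p` are
`>= 0` (all `<= 0` is impossible).  Inclusion: this set is convex and contains `a, b, c`
(`convexHull_min`; `ori a b ·` is affine).  Conversely `p = (ori b c p / D) a + (ori c a p / D) b +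
(ori a b p / D) c`, a convex combination (`convexHull_insert`, `segment`, or
`mem_convexHull_of_...`; e.g. two applications of convexity of `convexHull`).
**int3**: the interior is `{p | InI a b c p}`.  The set of strict inequalities is open and
contained in the triangle.  Conversely let `p` be interior and say `ori a b p = 0` (the sign
`>= 0` is known from `hull3`); moving `p` a little in a direction `d` with
`(b-a) x d < 0` (e.g. `d = (b.2-a.2, -(b.1-a.1))`) leaves the triangle: contradiction.
**qhull** (convex quadrilateral): if `a b` and `c d` cross then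
`hull {a,b,c} ∪ hull {a,b,d} = hull {a,b,c,d}`.  Inclusion `⊆` by monotonicity.  Conversely let
`p` be in the hull of the four points, weakly on the side of `c` of the line `a b` (else exchange
`c`, `d`).  All four points are weakly on the side of `a` of the line `b c` (`d` strictly: from
`Cr a b c d`: `ori b c d` has the sign of `ori b c a`; `bary`), so `p` is (half planes are
convex); the same for `c a`; so `InT a b c p`.
-/

namespace F059

namespace AHullAux

open Filter Topology

lemma hp_convex (a b : Pt) : Convex ℝ {p : Pt | 0 ≤ ori a b p} := by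
  intro x hx y hy s t hs ht hst
  simp only [Set.mem_ofPred_eq] at hx hy ⊢
  have h : ori a b (s • x + t • y) = s * ori a b x + t * ori a b y := by
    unfold ori
    simp only [Prod.fst_add, Prod.snd_add, Prod.smul_fst, Prod.smul_snd, smul_eq_mul]
    linear_combination ((b.2 - a.2) * a.1 - (b.1 - a.1) * a.2) * (1 - hst)
  rw [h]
  positivity

lemma hull_sub {S : Set Pt} {a b : Pt} (h : ∀ q ∈ S, 0 ≤ ori a b q) {p : Pt}
    (hp : p ∈ convexHull ℝ S) : 0 ≤ ori a b p :=
  convexHull_min (t := {p : Pt | 0 ≤ ori a b p}) h (hp_convex a b) hp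

lemma InT_pos {a b c p : Pt} (h : 0 < ori a b c) :
    InT a b c p ↔ 0 ≤ ori a b p ∧ 0 ≤ ori b c p ∧ 0 ≤ ori c a p := by
  constructor
  · rintro (h1 | ⟨h1, h2, h3⟩)
    · exact h1
    · have := bary_sum a b c p
      linarith
  · intro h1
    exact Or.inl h1

lemma InI_pos {a b c p : Pt} (h : 0 < ori a b c) :
    InI a b c p ↔ 0 < ori a b p ∧ 0 < ori b c p ∧ 0 < ori c a p := by
  constructor
  · rintro (h1 | ⟨h1, h2, h3⟩)
    · exact h1
    · have := bary_sum a b c p
      linarith
  · intro h1
    exact Or.inl h1

lemma InI.swap {x y z p : Pt} (h : InI x y z p) : InI y x z p := by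
  have e1 : ori y x p = - ori x y p := ori_swap x y p
  have e2 : ori x z p = - ori z x p := ori_swap z x p
  have e3 : ori z y p = - ori y z p := ori_swap y z p
  rcases h with ⟨h1, h2, h3⟩ | ⟨h1, h2, h3⟩
  · right; refine ⟨?_, ?_, ?_⟩ <;> linarith
  · left; refine ⟨?_, ?_, ?_⟩ <;> linarith

lemma hull3_pos {a b c : Pt} (h : 0 < ori a b c) :
    convexHull ℝ ({a, b, c} : Set Pt) = {p | InT a b c p} := by
  have hbc : ori b c a = ori a b c := ori_cyc a b c
  have hca : ori c a b = ori a b c := by rw [ori_cyc, ori_cyc]
  apply Set.Subset.antisymm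
  · intro p hp
    rw [Set.mem_ofPred_eq, InT_pos h]
    refine ⟨hull_sub ?_ hp, hull_sub ?_ hp, hull_sub ?_ hp⟩
    · rintro q (rfl | rfl | rfl)
      · rw [ori_self_left]
      · rw [ori_self_right]
      · exact h.le
    · rintro q (rfl | rfl | rfl)
      · rw [hbc]; exact h.le
      · rw [ori_self_left]
      · rw [ori_self_right]
    · rintro q (rfl | rfl | rfl)
      · rw [ori_self_right]
      · rw [hca]; exact h.le
      · rw [ori_self_left]
  · intro p hp
    rw [Set.mem_ofPred_eq, InT_pos h] at hp
    obtain ⟨h1, h2, h3⟩ := hp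
    have hS := convex_convexHull ℝ ({a, b, c} : Set Pt)
    have hsum := bary_sum a b c p
    have key := hS.sum_mem (t := Finset.univ) (w := ![ori b c p / ori a b c,
      ori c a p / ori a b c, ori a b p / ori a b c]) (z := ![a, b, c]) ?_ ?_ ?_
    · have e : p = ∑ i : Fin 3, (![ori b c p / ori a b c, ori c a p / ori a b c,
          ori a b p / ori a b c] i) • (![a, b, c] i) := by
        have hD : ori a b c ≠ 0 := h.ne'
        rw [Fin.sum_univ_three]
        simp only [Matrix.cons_val_zero, Matrix.cons_val_one, Matrix.cons_val]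
        refine Prod.ext ?_ ?_
        · simp only [Prod.fst_add, Prod.smul_fst, smul_eq_mul]
          field_simp
          unfold ori
          ring
        · simp only [Prod.snd_add, Prod.smul_snd, smul_eq_mul]
          field_simp
          unfold ori
          ring
      rw [e]
      exact key
    · intro i _
      fin_cases i
      · exact div_nonneg h2 h.le
      · exact div_nonneg h3 h.le
      · exact div_nonneg h1 h.le
    · rw [Fin.sum_univ_three]
      simp only [Matrix.cons_val_zero, Matrix.cons_val_one, Matrix.cons_val]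
      rw [← add_div, ← add_div, hsum, div_self h.ne']
    · intro i _
      fin_cases i
      · exact subset_convexHull ℝ _ (by simp)
      · exact subset_convexHull ℝ _ (by simp)
      · exact subset_convexHull ℝ _ (by simp)

lemma set_swap (a b : Pt) (S : Set Pt) : insert a (insert b S) = insert b (insert a S) :=
  Set.insert_comm a b S

lemma interior_pos {S : Set Pt} {a b p : Pt} (hab : a ≠ b) (hS : ∀ q ∈ S, 0 ≤ ori a b q)
    (hp : p ∈ interior S) : 0 < ori a b p := by
  have h1 : S ∈ 𝓝 p := mem_interior_iff_mem_nhds.1 hp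
  set d : Pt := (b.2 - a.2, -(b.1 - a.1)) with hd
  have hcont : Continuous fun t : ℝ => p + t • d := by fun_prop
  have h2 : Tendsto (fun t : ℝ => p + t • d) (𝓝 0) (𝓝 p) := by
    have := hcont.tendsto 0
    simpa using this
  have h3 : ∀ᶠ t in 𝓝[>] (0 : ℝ), p + t • d ∈ S :=
    (h2.eventually h1).filter_mono nhdsWithin_le_nhds
  obtain ⟨t, ht, ht0⟩ := (h3.and self_mem_nhdsWithin).exists
  have ht0 : 0 < t := ht0
  have h4 := hS _ ht
  have h5 : ori a b (p + t • d) =
      ori a b p - t * ((b.1 - a.1) ^ 2 + (b.2 - a.2) ^ 2) := by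
    unfold ori
    simp only [hd, Prod.fst_add, Prod.snd_add, Prod.smul_fst, Prod.smul_snd, smul_eq_mul]
    ring
  have h6 : 0 < (b.1 - a.1) ^ 2 + (b.2 - a.2) ^ 2 := by
    by_contra hcon
    push Not at hcon
    have e1 : (b.1 - a.1) ^ 2 = 0 := le_antisymm (by nlinarith [sq_nonneg (b.2 - a.2)])
      (sq_nonneg _)
    have e2 : (b.2 - a.2) ^ 2 = 0 := le_antisymm (by nlinarith [sq_nonneg (b.1 - a.1)])
      (sq_nonneg _)
    exact hab (Prod.ext (sub_eq_zero.1 (pow_eq_zero_iff two_ne_zero |>.1 e1)).symm
      (sub_eq_zero.1 (pow_eq_zero_iff two_ne_zero |>.1 e2)).symm)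
  have h7 : 0 < t * ((b.1 - a.1) ^ 2 + (b.2 - a.2) ^ 2) := mul_pos ht0 h6
  linarith

lemma ori_cont (a b : Pt) : Continuous fun p : Pt => ori a b p := by
  unfold ori
  fun_prop

lemma int3_pos {a b c : Pt} (h : 0 < ori a b c) :
    interior (convexHull ℝ ({a, b, c} : Set Pt)) = {p | InI a b c p} := by
  have hab : a ≠ b := by
    rintro rfl
    rw [ori_self_same] at h
    exact lt_irrefl _ h
  have hbc : b ≠ c := by
    rintro rfl
    rw [ori_self_right] at h
    exact lt_irrefl _ h
  have hca : c ≠ a := by
    rintro rfl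
    rw [ori_self_left] at h
    exact lt_irrefl _ h
  rw [hull3_pos h]
  apply Set.Subset.antisymm
  · intro p hp
    rw [Set.mem_ofPred_eq, InI_pos h]
    refine ⟨interior_pos hab (fun q hq => ((InT_pos h).1 hq).1) hp,
      interior_pos hbc (fun q hq => ((InT_pos h).1 hq).2.1) hp,
      interior_pos hca (fun q hq => ((InT_pos h).1 hq).2.2) hp⟩
  · have hopen : IsOpen {p : Pt | InI a b c p} := by
      have e : {p : Pt | InI a b c p} =
          {p | 0 < ori a b p} ∩ ({p | 0 < ori b c p} ∩ {p | 0 < ori c a p}) := by
        ext p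
        simp only [Set.mem_ofPred_eq, Set.mem_inter_iff, InI_pos h]
      rw [e]
      exact (isOpen_lt continuous_const (ori_cont a b)).inter
        ((isOpen_lt continuous_const (ori_cont b c)).inter
          (isOpen_lt continuous_const (ori_cont c a)))
    refine interior_maximal ?_ hopen
    intro p hp
    rw [Set.mem_ofPred_eq, InI_pos h] at hp
    rw [Set.mem_ofPred_eq, InT_pos h]
    exact ⟨hp.1.le, hp.2.1.le, hp.2.2.le⟩

lemma q_pos {a b c d p : Pt} (h : Cr a b c d) (hD : 0 < ori a b c)
    (hp : p ∈ convexHull ℝ ({a, b, c, d} : Set Pt)) (hpc : 0 ≤ ori a b p) : InT a b c p := by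
  have h1 : ori a b d < 0 := by
    by_contra hcon
    push Not at hcon
    exact absurd h.1 (not_lt.2 (mul_nonneg hD.le hcon))
  have h2 : ori c d b - ori c d a = ori a b c - ori a b d := by unfold ori; ring
  have h3 : 0 < ori c d b ∧ ori c d a < 0 := by
    rcases mul_neg_iff.1 h.2 with ⟨h4, h5⟩ | ⟨h4, h5⟩
    · linarith
    · exact ⟨h5, h4⟩
  have e1 : ori b c d = ori c d b := (ori_cyc b c d).symm
  have e2 : ori c a d = - ori c d a := by unfold ori; ring
  have hbc : ori b c a = ori a b c := ori_cyc a b c
  have hca : ori c a b = ori a b c := by rw [ori_cyc, ori_cyc]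
  refine Or.inl ⟨hpc, hull_sub ?_ hp, hull_sub ?_ hp⟩
  · rintro q (rfl | rfl | rfl | rfl)
    · rw [hbc]; exact hD.le
    · rw [ori_self_left]
    · rw [ori_self_right]
    · rw [e1]; exact h3.1.le
  · rintro q (rfl | rfl | rfl | rfl)
    · rw [ori_self_right]
    · rw [hca]; exact hD.le
    · rw [ori_self_left]
    · rw [e2]; linarith [h3.2]

lemma q_gen {a b c d p : Pt} (h : Cr a b c d)
    (hp : p ∈ convexHull ℝ ({a, b, c, d} : Set Pt)) (hpc : 0 ≤ ori a b p * ori a b c) :
    InT a b c p := by
  have h0 : ori a b c ≠ 0 := by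
    intro h0
    have := h.1
    rw [h0, zero_mul] at this
    exact lt_irrefl _ this
  rcases lt_or_gt_of_ne h0 with h1 | h1
  · have h2 : 0 < ori b a c := by rw [ori_swap]; linarith
    have h3 : 0 ≤ ori b a p := by
      rw [ori_swap]
      nlinarith
    have h4 : p ∈ convexHull ℝ ({b, a, c, d} : Set Pt) := by
      rw [set_swap b a]
      exact hp
    exact (q_pos h.swap_left h2 h4 h3).swap
  · exact q_pos h h1 hp (by
      by_contra hcon
      push Not at hcon
      nlinarith)

end AHullAux

open AHullAux

lemma hull3 {a b c : Pt} (h : ori a b c ≠ 0) :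
    convexHull ℝ ({a, b, c} : Set Pt) = {p | InT a b c p} := by
  rcases lt_or_gt_of_ne h with h1 | h1
  · have h2 : 0 < ori b a c := by rw [ori_swap]; linarith
    rw [set_swap a b, hull3_pos h2]
    ext p
    exact ⟨fun h => InT.swap h, fun h => InT.swap h⟩
  · exact hull3_pos h1

lemma int3 {a b c : Pt} (h : ori a b c ≠ 0) :
    interior (convexHull ℝ ({a, b, c} : Set Pt)) = {p | InI a b c p} := by
  rcases lt_or_gt_of_ne h with h1 | h1
  · have h2 : 0 < ori b a c := by rw [ori_swap]; linarith
    rw [set_swap a b, int3_pos h2]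
    ext p
    exact ⟨fun h => InI.swap h, fun h => InI.swap h⟩
  · exact int3_pos h1

lemma qhull {a b c d : Pt} (h : Cr a b c d) :
    convexHull ℝ ({a, b, c} : Set Pt) ∪ convexHull ℝ ({a, b, d} : Set Pt)
      = convexHull ℝ ({a, b, c, d} : Set Pt) := by
  have hc : ori a b c ≠ 0 := by
    intro h0
    have := h.1
    rw [h0, zero_mul] at this
    exact lt_irrefl _ this
  have hd : ori a b d ≠ 0 := by
    intro h0
    have := h.1
    rw [h0, mul_zero] at this
    exact lt_irrefl _ this
  apply Set.Subset.antisymm
  · refine Set.union_subset (convexHull_mono ?_) (convexHull_mono ?_)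
    · rintro q (rfl | rfl | rfl) <;> simp
    · rintro q (rfl | rfl | rfl) <;> simp
  · intro p hp
    by_cases hpc : 0 ≤ ori a b p * ori a b c
    · left
      rw [hull3 hc]
      exact q_gen h hp hpc
    · right
      rw [hull3 hd]
      refine q_gen h.swap_right ?_ ?_
      · rw [show ({a, b, d, c} : Set Pt) = {a, b, c, d} by
          rw [Set.pair_comm]]
        exact hp
      · push Not at hpc
        by_contra hcon
        push Not at hcon
        have h1 := h.1
        have h2 := mul_pos_of_neg_of_neg hpc hcon
        have h3 : 0 ≤ (ori a b p) ^ 2 := sq_nonneg _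
        nlinarith

end F059
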