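import Pool.Agent.Lib.F059.AHos
import Pool.Agent.Lib.F059.AExt

/-!
# MP_f059c0_co, layer A, module AMin (1 h): flips are bounded by crossings; minimal completions

**reach_cr**: by strong induction on `cr A B` : if `A = B`, `Reach.refl`; else `hos` gives
`A' = insert e' (A.erase e)` with `Flip P A A'`, `cr A' B < cr A B`, and `Reach P k A' B` with
`k <= cr A' B`; prepend the flip (`Flip P A A' -> Reach P k A' B -> Reach P (k+1) A B` by
induction on `Reach`).
**min_tri**: among the triangulations `A ⊇ F` (one exists: `exists_tri`) choose one with `cr A B`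
minimal (well-foundedness of `ℕ`).  If some `g ∈ A` has `N B g > F.sup (N B)` then `A ≠ B`
(an edge of `B` has crossing number `0` with the plane set `B`), `hos` gives `e ∈ A` with
`N B e >= N B g > F.sup (N B)`, so `e ∉ F` (`Finset.le_sup`), and
`insert e' (A.erase e) ⊇ F` is a triangulation with fewer crossings: contradiction.
-/

namespace F059

theorem AMin_prepend {P : Finset Pt} {A A' B : Finset (Sym2 Pt)} {k : ℕ} (hf : Flip P A A')
    (h : Reach P k A' B) : Reach P (k + 1) A B := by
  induction h with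
  | refl X => exact Reach.step (Reach.refl A) hf
  | step _ hf2 ih => exact Reach.step (ih hf) hf2

theorem reach_cr {P : Finset Pt} (hP : GenPos P) {A B : Finset (Sym2 Pt)} (hA : Tri P A)
    (hB : Tri P B) : ∃ k ≤ cr A B, Reach P k A B := by
  classical
  induction hn : cr A B using Nat.strong_induction_on generalizing A with
  | _ n ih =>
    by_cases hAB : A = B
    · subst hAB
      exact ⟨0, Nat.zero_le _, Reach.refl A⟩
    · obtain ⟨e, he, -, -, e', he', hT, hlt⟩ := hos hP hA hB hAB
      obtain ⟨k, hk, hr⟩ := ih _ (hn ▸ hlt) hT rfl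
      exact ⟨k + 1, by omega, AMin_prepend ⟨hA, hT, e, he, e', he', rfl⟩ hr⟩

theorem AMin_N_self {B : Finset (Sym2 Pt)} (hB : Plane B) {g : Sym2 Pt} (hg : g ∈ B) :
    N B g = 0 := by
  classical
  unfold N
  rw [Finset.card_eq_zero, Finset.filter_eq_empty_iff]
  intro f hf h
  exact hB g hg f hf h

theorem min_tri {P : Finset Pt} (hP : GenPos P) {F B : Finset (Sym2 Pt)} (hF : F ⊆ Seg P)
    (hp : Plane F) (hB : Tri P B) :
    ∃ A, Tri P A ∧ F ⊆ A ∧ ∀ g ∈ A, N B g ≤ F.sup (N B) := by
  classical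
  obtain ⟨A0, hA0, hFA0⟩ := exists_tri hF hp
  have hex : ∃ n : ℕ, ∃ A, Tri P A ∧ F ⊆ A ∧ cr A B = n := ⟨_, A0, hA0, hFA0, rfl⟩
  obtain ⟨A, hA, hFA, hn⟩ := Nat.find_spec hex
  have hmin : ∀ A', Tri P A' → F ⊆ A' → cr A B ≤ cr A' B := by
    intro A' hA' hFA'
    rw [hn]
    exact Nat.find_min' hex ⟨A', hA', hFA', rfl⟩
  refine ⟨A, hA, hFA, ?_⟩
  by_contra hcon
  push Not at hcon
  obtain ⟨g, hg, hlt⟩ := hcon
  have hne : A ≠ B := by
    rintro rfl
    rw [AMin_N_self hA.2.1 hg] at hlt
    exact absurd hlt (Nat.not_lt_zero _)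
  obtain ⟨e, he, hmax, -, e', he', hT, hlt2⟩ := hos hP hA hB hne
  have heF : e ∉ F := by
    intro heF
    have h1 : N B e ≤ F.sup (N B) := Finset.le_sup heF
    have h2 := hmax g hg
    omega
  have hsub : F ⊆ insert e' (A.erase e) := by
    intro f hf
    refine Finset.mem_insert_of_mem (Finset.mem_erase.2 ⟨?_, hFA hf⟩)
    rintro rfl
    exact heF hf
  have := hmin _ hT hsub
  omega

end F059
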