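import Pool.Agent.Lib.F059.AStart
import Pool.Agent.Lib.F059.AFlipT

/-!
# MP_f059c0_co, layer A, module AOut (1.2 h): flips in both languages

**flip_lift**: let `T` be a triangulation (set of triangles) with `edg T = A` and `Flip P A A'`.
Then there is `T'` with `FlipT T T'`, `IsTriangulation P T'`, `edg T' = A'`.
Proof.  `A' = insert e' (A.erase e)`, `e ∈ A`, `e' ∉ A`, `A`, `A'` maximal plane.  `e' = s(c,d) ∈ Seg P`
(`A' ⊆ Seg P`).  As `e' ∉ A`, by maximality of `A` it crosses some `f ∈ A`; `f` is not in `A.erase e`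
since `A'` is plane; so `f = e`, and `e` is the only member of `A` crossed by `e'`.  `start` for
`c, d`: `s(c,d) ∉ edg T`, so there is `{c,x,y} ∈ T` with `Cr c d x y`; `s(x,y) ∈ edg T = A` is
crossed by `e'`, so `e = s(x,y)`.  `start` for `d, c`: `{d,x',y'} ∈ T`, `e = s(x',y')`.  With
`a = x`, `b = y`: `{a,b,c}, {a,b,d} ∈ T` (equal as finsets), `Cr a b c d` (`Cr.symm`).
`flipT_ok` gives `T'` with `edg T' = insert s(c,d) (A.erase s(a,b)) = A'`.
**reach_lift**: induction on `Reach` (both `Reach` and `ReachT` add the last flip at the end).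
**ham_lift**: `triGraph P T' = gr P (edg T')` (`SimpleGraph.ext`, `mem_edg`).
-/

namespace F059

lemma flip_lift {P : Finset Pt} (hP : GenPos P) {T : Finset (Finset Pt)}
    (hT : IsTriangulation P T) {A A' : Finset (Sym2 Pt)} (hA : edg T = A) (hF : Flip P A A') :
    ∃ T', FlipT T T' ∧ IsTriangulation P T' ∧ edg T' = A' := by
  obtain ⟨⟨hAs, hAp, hAm⟩, ⟨hAs', hAp', hAm'⟩, e, he, e', he', hAe⟩ := hF
  induction e' using Sym2.ind with
  | _ c d =>
    have hcdA' : s(c, d) ∈ A' := by
      rw [hAe]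
      exact Finset.mem_insert_self _ _
    obtain ⟨hc, hd, hcd⟩ := mem_Seg.1 (hAs' hcdA')
    have honly : ∀ f ∈ A, SCr s(c, d) f → f = e := by
      intro f hf hcr
      by_contra hne
      have hf' : f ∈ A' := by
        rw [hAe]
        exact Finset.mem_insert_of_mem (Finset.mem_erase.2 ⟨hne, hf⟩)
      exact hAp' _ hcdA' _ hf' hcr
    have key : ∀ p q : Pt, p ∈ P → q ∈ P → p ≠ q → s(p, q) = s(c, d) →
        ∃ x y : Pt, {p, x, y} ∈ T ∧ Cr p q x y ∧ e = s(x, y) := by
      intro p q hp hq hpq hpqe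
      rcases start hP hT hp hq hpq with h | ⟨x, y, h1, h2⟩
      · exfalso
        rw [hA, hpqe] at h
        exact he' h
      · refine ⟨x, y, h1, h2, ?_⟩
        have hxy : x ≠ y := by
          rintro rfl
          have := h2.2
          rw [ori_self_same, zero_mul] at this
          exact lt_irrefl _ this
        have hmem : s(x, y) ∈ A := by
          rw [← hA, mem_edg]
          exact ⟨hxy, {p, x, y}, h1, by simp, by simp⟩
        have hcr : SCr s(c, d) s(x, y) := by
          rw [← hpqe]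
          exact SCr_mk.2 h2
        exact (honly _ hmem hcr).symm
    obtain ⟨a, b, h1, h2, h3⟩ := key c d hc hd hcd rfl
    obtain ⟨a', b', h1', -, h3'⟩ := key d c hd hc hcd.symm Sym2.eq_swap
    have hset : ({d, a', b'} : Finset Pt) = {a, b, d} := by
      rw [h3, Sym2.eq_iff] at h3'
      rcases h3' with ⟨rfl, rfl⟩ | ⟨rfl, rfl⟩
      · ext z
        simp only [Finset.mem_insert, Finset.mem_singleton]
        tauto
      · ext z
        simp only [Finset.mem_insert, Finset.mem_singleton]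
        tauto
    have hset2 : ({c, a, b} : Finset Pt) = {a, b, c} := by
      ext z
      simp only [Finset.mem_insert, Finset.mem_singleton]
      tauto
    rw [hset] at h1'
    rw [hset2] at h1
    obtain ⟨k1, k2, k3⟩ := flipT_ok hP hT h1 h1' h2.symm
    exact ⟨_, k1, k2, by rw [k3, hAe, hA, h3]⟩

theorem reach_lift {P : Finset Pt} (hP : GenPos P) {T : Finset (Finset Pt)}
    (hT : IsTriangulation P T) {A B : Finset (Sym2 Pt)} (hA : edg T = A) {k : ℕ}
    (hR : Reach P k A B) : ∃ T', ReachT k T T' ∧ IsTriangulation P T' ∧ edg T' = B := by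
  induction hR with
  | refl A => exact ⟨T, ReachT.refl T, hT, hA⟩
  | step _ hF ih =>
    obtain ⟨U, h1, h2, h3⟩ := ih hA
    obtain ⟨V, h4, h5, h6⟩ := flip_lift hP h2 h3 hF
    exact ⟨V, ReachT.step h1 h4, h5, h6⟩

theorem ham_lift {P : Finset Pt} {T : Finset (Finset Pt)} (h : Ham P (edg T)) : HamT P T := by
  have e : triGraph P T = gr P (edg T) := by
    ext x y
    change (x ≠ y ∧ ∃ t ∈ T, x.1 ∈ t ∧ y.1 ∈ t) ↔ (x ≠ y ∧ s(x.1, y.1) ∈ edg T)
    rw [mem_edg]
    constructor
    · rintro ⟨h1, h2⟩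
      exact ⟨h1, fun h3 => h1 (Subtype.ext h3), h2⟩
    · rintro ⟨h1, -, h2⟩
      exact ⟨h1, h2⟩
  unfold HamT
  rw [e]
  exact h

end F059
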