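import Pool.Agent.Lib.F059.ABDefs
import Pool.Agent.Lib.F059.AMin
import Pool.Agent.Lib.F059.ACard
import Pool.Agent.Lib.F059.AOut

/-!
# MP_f059c0_co: interface of layer A (flips)
-/

namespace F059

theorem a_reach {P : Finset Pt} (hgp : GenPos P) {A B : Finset (Sym2 Pt)} (hA : Tri P A)
    (hB : Tri P B) : ∃ k ≤ cr A B, Reach P k A B :=
  reach_cr hgp hA hB

theorem a_min {P : Finset Pt} (hgp : GenPos P) {F B : Finset (Sym2 Pt)} (hF : F ⊆ Seg P)
    (hFp : Plane F) (hB : Tri P B) :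
    ∃ A, Tri P A ∧ F ⊆ A ∧ ∀ g ∈ A, N B g ≤ F.sup (N B) :=
  min_tri hgp hF hFp hB

theorem a_card {P : Finset Pt} (hgp : GenPos P) {A : Finset (Sym2 Pt)} (hA : A ⊆ Seg P)
    (hp : Plane A) : A.card ≤ 6 * P.card :=
  card_plane hgp hA hp

theorem a_in {P : Finset Pt} (hgp : GenPos P) {T : Finset (Finset Pt)}
    (hT : IsTriangulation P T) : Tri P (edg T) :=
  tri_edg hgp hT

theorem a_out {P : Finset Pt} (hgp : GenPos P) {T : Finset (Finset Pt)}
    (hT : IsTriangulation P T) {k : ℕ} {B : Finset (Sym2 Pt)} (h : Reach P k (edg T) B) :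
    ∃ T', ReachT k T T' ∧ IsTriangulation P T' ∧ edg T' = B ∧ (Ham P B → HamT P T') := by
  obtain ⟨T', h1, h2, h3⟩ := reach_lift hgp hT rfl h
  exact ⟨T', h1, h2, h3, fun hH => ham_lift (h3.symm ▸ hH)⟩

end F059
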