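import Pool.Agent.Lib.F059.AExit
import Pool.Agent.Lib.F059.ASegs

/-!
# MP_f059c0_co, layer A, module AOrd (1.5 h): order of the edges crossing a side

`a b c` empty triangle of `P`; `g, h` segments of `P` not crossing each other; `g` crosses `a b`
and `a c`; `h` crosses `a b` and (ends at `c` or crosses `b c`).  Then `g` crosses `a b` closer
to `a` than `h`.

Proof.  Write `g = s(g1,g2)`, `h = s(h1,h2)`.  `g ≠ h` (`exc`, `exc_mem`: `g` crosses `a b`,
`a c`, so it neither crosses `b c` nor ends at `c`).  If `tau a b g = tau a b h` then `g = h`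
(`tau_inj`).  Suppose `tau a b h < tau a b g`.  Let `x = pt a b (tau a b g)`,
`y = pt a c (tau a c g)`, both inner points of `g` (`Cr_pt`).  `h` crosses the segment `a x`:
`ori h1 h2 a` and `ori h1 h2 x` have opposite signs (`tau_lt`), and `h1, h2` are on
different sides of the line `a x` (= line `a b`).  Triangle `a x y`: nondegenerate.  The ends of
`h` are not in the closed triangle `a x y`: it is contained in the closed triangle `a b c`, so
by `Em` an end would be `a`, `b` or `c`; `a`, `b` are not ends of `h` (it crosses `a b`), and `c`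
is not in the triangle `a x y` (`y` is strictly between `a` and `c`, `ori x y c ≠ 0` has the
sign opposite to `ori x y a`).  By `exitR` for the triangle `a x y` (`h` crosses `a x`):
* `y` is an inner point of `h`: `g` and `h` have a common inner point, so they cross (`meet`).
* `h` crosses `x y`, a part of `g`: then `h` crosses `g` (`Cr_sub`; `x = pt g1 g2 s`,
  `y = pt g1 g2 s'`).
* `h` crosses `a y`, a part of `a c`: then `h` crosses `a c` (`Cr_sub`); but `h` ends at `c`
  (`exc_mem`) or crosses `a b` and `b c` (`exc`): contradiction.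
-/

namespace F059

namespace AOrdAux

lemma inT_sub {a b c p : Pt} {t r : ℝ} (ht : 0 < t) (ht1 : t < 1) (hr : 0 < r) (hr1 : r < 1)
    (h : InT a (pt a b t) (pt a c r) p) : InT a b c p := by
  have e1 : ori a (pt a b t) p = t * ori a b p := by unfold ori pt; ring
  have e2 : ori (pt a c r) a p = r * ori c a p := by unfold ori pt; ring
  have e3 : ori (pt a b t) (pt a c r) p = t * r * ori b c p - r * (1 - t) * ori c a p
      - t * (1 - r) * ori a b p := by unfold ori pt; ring
  have htr : 0 < t * r := mul_pos ht hr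
  have h1t : 0 < 1 - t := by linarith
  have h1r : 0 < 1 - r := by linarith
  rcases h with ⟨h1, h2, h3⟩ | ⟨h1, h2, h3⟩
  · rw [e1] at h1
    rw [e2] at h3
    rw [e3] at h2
    have g1 : 0 ≤ ori a b p := nonneg_of_mul_nonneg_right h1 ht
    have g3 : 0 ≤ ori c a p := nonneg_of_mul_nonneg_right h3 hr
    have k1 : 0 ≤ r * (1 - t) * ori c a p := mul_nonneg (mul_nonneg hr.le h1t.le) g3
    have k2 : 0 ≤ t * (1 - r) * ori a b p := mul_nonneg (mul_nonneg ht.le h1r.le) g1
    have g2 : 0 ≤ ori b c p := nonneg_of_mul_nonneg_right (by linarith) htr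
    exact Or.inl ⟨g1, g2, g3⟩
  · rw [e1] at h1
    rw [e2] at h3
    rw [e3] at h2
    have g1 : ori a b p ≤ 0 := nonpos_of_mul_nonpos_right h1 ht
    have g3 : ori c a p ≤ 0 := nonpos_of_mul_nonpos_right h3 hr
    have k1 : r * (1 - t) * ori c a p ≤ 0 :=
      mul_nonpos_of_nonneg_of_nonpos (mul_nonneg hr.le h1t.le) g3
    have k2 : t * (1 - r) * ori a b p ≤ 0 :=
      mul_nonpos_of_nonneg_of_nonpos (mul_nonneg ht.le h1r.le) g1
    have g2 : ori b c p ≤ 0 := nonpos_of_mul_nonpos_right (by linarith) htr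
    exact Or.inr ⟨g1, g2, g3⟩

lemma not_inT {a b c : Pt} {t r : ℝ} (hD : ori a b c ≠ 0) (ht : 0 < t) (hr1 : r < 1) :
    ¬ InT a (pt a b t) (pt a c r) c := by
  have e1 : ori a (pt a b t) c = t * ori a b c := by unfold ori pt; ring
  have e3 : ori (pt a b t) (pt a c r) c = - (t * (1 - r)) * ori a b c := by unfold ori pt; ring
  have h1r : 0 < 1 - r := by linarith
  have htr : 0 < t * (1 - r) := mul_pos ht h1r
  rintro (⟨h1, h2, -⟩ | ⟨h1, h2, -⟩)
  · rw [e1] at h1
    rw [e3] at h2
    rcases lt_or_gt_of_ne hD with h | h <;> nlinarith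
  · rw [e1] at h1
    rw [e3] at h2
    rcases lt_or_gt_of_ne hD with h | h <;> nlinarith

end AOrdAux

open AOrdAux in
lemma ord {P : Finset Pt} (hP : GenPos P) {a b c : Pt} (ha : a ∈ P) (hb : b ∈ P) (hc : c ∈ P)
    (hE : Em P a b c) {g h : Sym2 Pt} (hg : g ∈ Seg P) (hh : h ∈ Seg P) (hgh : ¬ SCr g h)
    (h1 : SCr s(a, b) g) (h2 : SCr s(a, c) g) (h3 : SCr s(a, b) h)
    (h4 : c ∈ h ∨ SCr s(b, c) h) : tau a b g < tau a b h := by
  have hne : g ≠ h := by
    rintro rfl
    rcases h4 with h4 | h4
    · exact exc_mem h4 h2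
    · exact exc h1 h2 h4
  by_contra hcon
  rw [not_lt] at hcon
  have hlt : tau a b h < tau a b g := by
    rcases lt_or_eq_of_le hcon with h' | h'
    · exact h'
    · exact absurd (tau_inj hP hg hh hgh h1 h3 h'.symm) hne
  induction g using Sym2.inductionOn with
  | _ g1 g2 =>
  induction h using Sym2.inductionOn with
  | _ u v =>
  have c1 := SCr_mk.1 h1
  have c2 := SCr_mk.1 h2
  have c3 := SCr_mk.1 h3
  obtain ⟨t0, t1, s, s0, s1, hs⟩ := Cr_pt c1
  obtain ⟨r0, r1, s', s0', s1', hs'⟩ := Cr_pt c2
  set t := tau a b s(g1, g2) with ht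
  set r := tau a c s(g1, g2) with hr
  have hD : ori a b c ≠ 0 := hE.1
  -- `h` crosses `a x`
  have hax : Cr a (pt a b t) u v := by
    have e1 : ori a (pt a b t) u = t * ori a b u := by unfold ori pt; ring
    have e2 : ori a (pt a b t) v = t * ori a b v := by unfold ori pt; ring
    refine ⟨?_, ?_⟩
    · rw [e1, e2, show t * ori a b u * (t * ori a b v) = (t * t) * (ori a b u * ori a b v) by ring]
      exact mul_neg_of_pos_of_neg (mul_pos t0 t0) c3.1
    · rw [tau_lt c3 t]
      have hAB : 0 < ori u v a * (ori u v a - ori u v b) := by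
        have := c3.2
        nlinarith [mul_self_nonneg (ori u v a)]
      have hneg : tau a b s(u, v) - t < 0 := by linarith
      have := mul_neg_of_pos_of_neg hAB hneg
      linarith
  have hT : ori a (pt a b t) (pt a c r) ≠ 0 := by
    have e1 : ori a (pt a b t) (pt a c r) = t * r * ori a b c := by unfold ori pt; ring
    rw [e1]
    exact mul_ne_zero (mul_ne_zero t0.ne' r0.ne') hD
  have hend : ∀ p ∈ P, ori a b p ≠ 0 → ¬ InT a (pt a b t) (pt a c r) p := by
    intro p hp hne' hin
    rcases hE.2 p hp (inT_sub t0 t1 r0 r1 hin) with rfl | rfl | rfl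
    · exact hne' (ori_self_left _ _)
    · exact hne' (ori_self_right _ _)
    · exact not_inT hD t0 r1 hin
  have huv := mem_Seg.1 hh
  have nu : ori a b u ≠ 0 := by
    intro h0; have := c3.1; rw [h0] at this; simp at this
  have nv : ori a b v ≠ 0 := by
    intro h0; have := c3.1; rw [h0] at this; simp at this
  rcases exitR hT hax (hend u huv.1 nu) (hend v huv.2.1 nv) with ⟨w, w0, w1, hw⟩ | hx | hy
  · apply hgh
    rw [SCr_mk]
    exact meet hP hg hh hne s0' s1' w0 w1 (hs'.symm.trans hw)
  · apply hgh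
    rw [SCr_mk]
    rw [hs, hs'] at hx
    exact Cr_sub s0.le s1.le s0'.le s1'.le hx
  · have ha0 : a = pt a c 0 := by unfold pt; simp
    have hy' : Cr (pt a c 0) (pt a c r) u v := by rw [← ha0]; exact hy
    have hac : SCr s(a, c) s(u, v) := SCr_mk.2 (Cr_sub le_rfl zero_le_one r0.le r1.le hy')
    rcases h4 with h4 | h4
    · exact exc_mem h4 hac
    · exact exc h3 hac h4

end F059
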