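import Pool.Agent.Lib.F059.ALocal
import Pool.Agent.Lib.F059.AOrd

/-!
# MP_f059c0_co, layer A, module ALem0 (2 h): Lemma 0

`a b c` an empty triangle of `P`, `B` a triangulation of `P`, some edge of `B` crosses `a b` and
`b c` (cuts off `b`).  Then some edge of `B` cuts off `a`, or runs from `a` through `b c`, or from
`c` through `a b`.

Proof.  Among the edges of `B` crossing `a b` and `b c` choose `g = s(u,v)` with `tau a b g`
minimal (closest to `a`).  `a` is not an end of `g`; by `local_side` (triangulation `B`, edge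
`s(u,v)`, point `a`) there is `w` with `ET P B u v w` and `w`, `a` on the same side of `u v`.
`b` is on the other side; `c` is on the side of `a` (as `g` crosses `b c`).
Case `w ≠ a`: the edge `s(a,b) ∈ Seg P` crosses `s(u,v)`, and by `exitP` for the empty triangle
`u v w` (with `g := s(a,b)`): `w ∈ s(a,b)` (impossible: `w ≠ a`, and `b` is on the other side of
`u v`), or `s(a,b)` crosses `u w` or `v w`.  Let `h` be this edge of `B`.  Its crossing point
with `a b` is an inner point of `h` (`Cr_pt`), so strictly on the side of `w` (= side of `a`) of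
the line `u v`; by `tau_lt` (value of `ori u v` at the crossing point) `tau a b h < tau a b g`.
Now `h` crosses `a b`; `exitP` for `a b c`: `c ∈ h` (third alternative), or `h` crosses `a c`
(first alternative), or `h` crosses `b c`: contradiction to the choice of `g`.
Case `w = a`: `ET P B u v a`.  `s(b,c) ∈ Seg P` crosses `s(u,v)`; `exitP` for the triangle
`u v a`: `a ∈ s(b,c)` impossible, so `s(b,c)` crosses `h = s(u,a)` or `s(v,a)`, an edge of `B`
with end `a`: second alternative.
-/

namespace F059

/-- an edge of the triangle `u v w` crossing `a b` crosses it before `u v` -/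
private lemma before {a b u v w x : Pt} (hx : x = u ∨ x = v) (hg : Cr a b u v)
    (hw : 0 < ori u v w * ori u v a) (h : Cr a b x w) : tau a b s(x, w) < tau a b s(u, v) := by
  obtain ⟨-, -, t, ht, ht1, e⟩ := Cr_pt h
  have h1 := tau_lt hg (tau a b s(x, w))
  rw [e, ori_pt] at h1
  have h2 : ori u v x = 0 := by
    rcases hx with rfl | rfl
    · exact ori_self_left _ _
    · exact ori_self_right _ _
  rw [h2, mul_zero, zero_add] at h1
  have h3 := hg.2
  by_contra hc
  push Not at hc
  have h4 : 0 < t * (ori u v w * ori u v a) := mul_pos ht hw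
  have h5 : t * (ori u v w * ori u v a) =
      (ori u v a * ori u v a - ori u v a * ori u v b) *
        (tau a b s(u, v) - tau a b s(x, w)) := by
    linear_combination ori u v a * h1
  have h6 : 0 ≤ ori u v a * ori u v a - ori u v a * ori u v b := by
    nlinarith [mul_self_nonneg (ori u v a)]
  have h7 : (ori u v a * ori u v a - ori u v a * ori u v b) *
        (tau a b s(u, v) - tau a b s(x, w)) ≤ 0 :=
    mul_nonpos_of_nonneg_of_nonpos h6 (by linarith)
  linarith

lemma lem0 {P : Finset Pt} (hP : GenPos P) {B : Finset (Sym2 Pt)} (hB : Tri P B) {a b c : Pt}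
    (ha : a ∈ P) (hb : b ∈ P) (hc : c ∈ P) (hE : Em P a b c)
    (hg : ∃ g ∈ B, SCr s(a, b) g ∧ SCr s(b, c) g) :
    (∃ h ∈ B, SCr s(a, b) h ∧ SCr s(a, c) h) ∨ (∃ h ∈ B, a ∈ h ∧ SCr s(b, c) h) ∨
      (∃ h ∈ B, c ∈ h ∧ SCr s(a, b) h) := by
  classical
  obtain ⟨g0, hg0, hg1⟩ := hg
  obtain ⟨g, hgm, hmin⟩ := Finset.exists_min_image
    (B.filter fun g => SCr s(a, b) g ∧ SCr s(b, c) g) (tau a b)
    ⟨g0, Finset.mem_filter.2 ⟨hg0, hg1⟩⟩
  obtain ⟨hgB, hgab, hgbc⟩ := Finset.mem_filter.1 hgm
  induction g using Sym2.ind with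
  | _ u v =>
    have hab := SCr_mk.1 hgab
    have hbc := SCr_mk.1 hgbc
    obtain ⟨hu, hv, huv⟩ := mem_Seg.1 (hB.1 hgB)
    have hn := hE.1
    have nab : a ≠ b := fun h => hn (by rw [h]; exact ori_self_same _ _)
    have nbc : b ≠ c := fun h => hn (by rw [h]; exact ori_self_right _ _)
    have nac : a ≠ c := fun h => hn (by rw [← h]; exact ori_self_left _ _)
    have nau : a ≠ u := by
      rintro rfl
      have := hab.1
      rw [ori_self_left, zero_mul] at this
      exact lt_irrefl _ this
    have nav : a ≠ v := by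
      rintro rfl
      have := hab.1
      rw [ori_self_left, mul_zero] at this
      exact lt_irrefl _ this
    obtain ⟨w, hT, hw⟩ := local_side hP hB hgB ha nau nav
    have main : ∀ h ∈ B, SCr s(a, b) h → tau a b h < tau a b s(u, v) →
        (∃ h ∈ B, SCr s(a, b) h ∧ SCr s(a, c) h) ∨ (∃ h ∈ B, a ∈ h ∧ SCr s(b, c) h) ∨
          (∃ h ∈ B, c ∈ h ∧ SCr s(a, b) h) := by
      intro h hhB hh1 hh2
      rcases exitP hP ha hb hc hE (hB.1 hhB) hh1 with k | k | k
      · exact Or.inr (Or.inr ⟨h, hhB, k, hh1⟩)
      · exact Or.inl ⟨h, hhB, hh1, k⟩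
      · exact absurd (hmin h (Finset.mem_filter.2 ⟨hhB, hh1, k⟩)) (not_le.2 hh2)
    have hBu : s(u, w) ∈ B := by rw [Sym2.eq_swap]; exact hT.ca
    have hBv : s(v, w) ∈ B := hT.bc
    by_cases hwa : w = a
    · subst hwa
      rcases exitP hP hu hv ha hT.em (mem_Seg.2 ⟨hb, hc, nbc⟩) hgbc.symm with k | k | k
      · rw [Sym2.mem_iff] at k
        rcases k with k | k
        · exact absurd k nab
        · exact absurd k nac
      · exact Or.inr (Or.inl ⟨s(u, w), hBu, Sym2.mem_mk_right _ _, k.symm⟩)
      · exact Or.inr (Or.inl ⟨s(v, w), hBv, Sym2.mem_mk_right _ _, k.symm⟩)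
    · rcases exitP hP hu hv hT.hc hT.em (mem_Seg.2 ⟨ha, hb, nab⟩) hgab.symm with k | k | k
      · rw [Sym2.mem_iff] at k
        rcases k with k | k
        · exact absurd k hwa
        · rw [k] at hw
          have := hab.2
          exfalso
          rw [mul_comm] at hw
          linarith
      · exact main _ hBu k.symm (before (Or.inl rfl) hab hw (SCr_mk.1 k.symm))
      · exact main _ hBv k.symm (before (Or.inr rfl) hab hw (SCr_mk.1 k.symm))

end F059
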