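import Pool.Agent.Lib.F059.ASweep
import Pool.Agent.Lib.F059.AHeight

/-!
# MP_f059c0_co, layer A, module ALocal (2.5 h): the empty triangle on a side of an edge

`A` a maximal plane set, `s(a,b) ∈ A`, a point of `P` to the left of `a b`.  Then there is
`c ∈ P` to the left with `s(a,c), s(b,c) ∈ A` and `a b c` empty.

Proof.
Step 1: there is `c0 ∈ P` with `ori a b c0 > 0`, `s(a,c0) ∈ A`.
Choose `p ∈ Y = {p ∈ P | 0 < ori a b p}` with smallest angle from `a b`, i.e. maximal
`kappa p = <p-a, b-a> / ori a b p`; identity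
`<p-a,b-a> * ori a b q - <q-a,b-a> * ori a b p = |b-a|^2 * ori a p q`, so `ori a p q >= 0` for all
`q ∈ Y`.  If no edge of `A` crosses `a p` then `s(a,p) ∈ A`.  Else let `s(u,v) ∈ A` cross `a p`
with `tau a p` minimal (`Finset.exists_min_image`), named so that `ori a p u < 0 < ori a p v`.
`u ∉ Y` (else `ori a p u >= 0`), so `ori a b u <= 0`; the crossing point `x` has
`ori a b x > 0` (inner point of `a p`) and is an inner point of `u v`, so `ori a b v > 0`.
`sweep` gives `w` with `s(a,w) ∈ A`, `ori a p w > 0`, `ori a w v >= 0`; `cramer` gives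
`ori a p v * ori a b w = ori a w v * ori a b p + ori a p w * ori a b v > 0`
(with `u := a, v := b` in `cramer`, `ori a b a = 0`), so `c0 = w`.
Step 2: among the `c ∈ P` with `ori a b c > 0` and `s(a,c) ∈ A` choose the one with the smallest
angle (maximal `kappa`): `ori a c c' >= 0` for all such `c'`.
Step 3: no point of `P` is in the closed triangle `a b c` except the vertices.  Suppose `p` is;
by general position `ori a b p, ori b c p, ori c a p > 0`.  Among all such points choose `w` with
`ori b c w` maximal.  No edge of `A` crosses `a w`: suppose `s(u,v)` does; name the ends so that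
`ori b c v <= ori b c u`; the crossing point `y` (inner point of `a w`) has
`ori b c y > ori b c w` (since `ori b c a = ori a b c > ori b c w` by `bary_sum`) and is a mean of
`u`, `v`, so `ori b c u > ori b c w`.  `u` is not in the closed triangle: it is not `b`, `c`
(`ori b c b = 0`), not `a` (`Cr a w a v` is false), and not one of the inner points by the choice
of `w`.  `height`: `s(u,v)` crosses `a b` or `a c`, contradicting planarity.  Hence
`s(a,w) ∈ A`, `ori a b w > 0` and `ori a c w = - ori c a w < 0`: contradiction to Step 2.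
Step 4: no edge of `A` crosses `b c`.  Suppose `g` does.  `exitP` for the triangle `b c a` (Em):
`a ∈ g` or `g` crosses `b a` or `c a`; the last two contradict planarity.  So `g = s(a,w)`,
`Cr b c a w`; as `ori b c a > 0`, `ori b c w < 0`; `ori a w b` and `ori a w c` have opposite
signs; if `ori a b w < 0` then `ori a c w > 0`, i.e. `ori c a w < 0`, and all three of
`ori a b w, ori b c w, ori c a w` are negative, their sum is `ori a b c > 0` (`bary_sum`):
contradiction.  So `ori a b w > 0` and `ori a c w < 0`: contradiction to Step 2.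
So `s(b,c) ∈ A` by maximality.

`local_side` is the version for both sides (apply the first to `a b` or to `b a`,
`s(a,b) = s(b,a)`; `p` is not on the line by general position; use `ET.swap`).
-/

namespace F059

private lemma aloc_angle {a b : Pt} (hab : a ≠ b) (Y : Finset Pt) (hne : Y.Nonempty)
    (hY : ∀ q ∈ Y, 0 < ori a b q) : ∃ p ∈ Y, ∀ q ∈ Y, 0 ≤ ori a p q := by
  obtain ⟨p, hp, hmax⟩ := Y.exists_max_image
    (fun p => ((p.1 - a.1) * (b.1 - a.1) + (p.2 - a.2) * (b.2 - a.2)) / ori a b p) hne
  refine ⟨p, hp, fun q hq => ?_⟩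
  have h1 := hmax q hq
  have h2 := hY p hp
  have h3 := hY q hq
  rw [div_le_div_iff₀ h3 h2] at h1
  have h4 : ((p.1 - a.1) * (b.1 - a.1) + (p.2 - a.2) * (b.2 - a.2)) * ori a b q -
      ((q.1 - a.1) * (b.1 - a.1) + (q.2 - a.2) * (b.2 - a.2)) * ori a b p =
      ((b.1 - a.1) ^ 2 + (b.2 - a.2) ^ 2) * ori a p q := by
    unfold ori; ring
  have h5 : 0 < (b.1 - a.1) ^ 2 + (b.2 - a.2) ^ 2 := by
    have h6 : b.1 - a.1 ≠ 0 ∨ b.2 - a.2 ≠ 0 := by
      by_contra hc
      push Not at hc
      exact hab (Prod.ext (by linarith [hc.1]) (by linarith [hc.2]))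
    rcases h6 with h6 | h6
    · have := sq_nonneg (b.2 - a.2)
      positivity
    · have := sq_nonneg (b.1 - a.1)
      positivity
  have h7 : 0 ≤ ((b.1 - a.1) ^ 2 + (b.2 - a.2) ^ 2) * ori a p q := by
    rw [← h4]; linarith
  exact nonneg_of_mul_nonneg_right h7 h5

private lemma aloc_id (x y a p u v : Pt) :
    ori u v a * ori x y p - ori u v p * ori x y a = ori a p v * ori x y u - ori a p u * ori x y v := by
  unfold ori; ring

private lemma aloc_diff (a p u v : Pt) :
    ori u v a - ori u v p = ori a p v - ori a p u := by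
  unfold ori; ring

private lemma aloc_step1 {P : Finset Pt} (hP : GenPos P) {A : Finset (Sym2 Pt)} (hA : Tri P A)
    {a b p : Pt} (hab : s(a, b) ∈ A) (hp : p ∈ P) (hl : 0 < ori a b p) :
    ∃ c ∈ P, 0 < ori a b c ∧ s(a, c) ∈ A := by
  classical
  obtain ⟨haP, hbP, hne⟩ := mem_Seg.1 (hA.1 hab)
  obtain ⟨p, hpY, hmin⟩ := aloc_angle hne (P.filter fun q => 0 < ori a b q)
    ⟨p, Finset.mem_filter.2 ⟨hp, hl⟩⟩ (fun q hq => (Finset.mem_filter.1 hq).2)
  obtain ⟨hp, hl⟩ := Finset.mem_filter.1 hpY
  have hap : a ≠ p := by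
    rintro rfl
    rw [ori_self_left] at hl
    exact lt_irrefl _ hl
  by_cases hcr : ∃ g ∈ A, SCr s(a, p) g
  · obtain ⟨g, hgF, hgmin⟩ := (A.filter fun g => SCr s(a, p) g).exists_min_image (tau a p)
      (by obtain ⟨g, h1, h2⟩ := hcr; exact ⟨g, Finset.mem_filter.2 ⟨h1, h2⟩⟩)
    obtain ⟨hgA, hgc⟩ := Finset.mem_filter.1 hgF
    have hgmin' : ∀ g' ∈ A, SCr s(a, p) g' → tau a p g ≤ tau a p g' := fun g' h1 h2 =>
      hgmin g' (Finset.mem_filter.2 ⟨h1, h2⟩)
    obtain ⟨u, v, rfl, hv⟩ : ∃ u v, g = s(u, v) ∧ 0 < ori a p v := by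
      induction g using Sym2.ind with
      | _ u v =>
        have h1 := (SCr_mk.1 hgc).1
        rcases lt_trichotomy 0 (ori a p v) with h | h | h
        · exact ⟨u, v, rfl, h⟩
        · rw [← h, mul_zero] at h1
          exact absurd h1 (lt_irrefl _)
        · exact ⟨v, u, Sym2.eq_swap, by nlinarith⟩
    have hc := SCr_mk.1 hgc
    have hu : ori a p u < 0 := by
      have h1 := hc.1
      by_contra hc'
      push Not at hc'
      nlinarith [mul_nonneg hc' hv.le]
    obtain ⟨huP, hvP, -⟩ := mem_Seg.1 (hA.1 hgA)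
    have hub : ori a b u ≤ 0 := by
      by_contra hc'
      push Not at hc'
      have := hmin u (Finset.mem_filter.2 ⟨huP, hc'⟩)
      linarith
    have hA0 : 0 < ori u v a := by
      have h1 := aloc_diff a p u v
      have h2 := hc.2
      by_contra hc'
      push Not at hc'
      have h3 : ori u v p < 0 := by linarith
      nlinarith [mul_nonneg_of_nonpos_of_nonpos hc' h3.le]
    have hvb : 0 < ori a b v := by
      have h1 := aloc_id a b a p u v
      rw [ori_self_left a b, mul_zero, sub_zero] at h1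
      have h2 : 0 < ori u v a * ori a b p := mul_pos hA0 hl
      have h3 : ori a p v * ori a b u ≤ 0 := mul_nonpos_of_nonneg_of_nonpos hv.le hub
      by_contra hc'
      push Not at hc'
      have h4 : 0 ≤ ori a p u * ori a b v := mul_nonneg_of_nonpos_of_nonpos hu.le hc'
      linarith
    obtain ⟨w, hwP, hwA, hw1, hw2⟩ := sweep hP hA haP hp hgA hc hgmin' hv
    refine ⟨w, hwP, ?_, hwA⟩
    have h1 := cramer a p v w a b
    rw [ori_self_left a b, sub_zero, sub_zero, sub_zero] at h1
    have h2 : 0 ≤ ori a w v * ori a b p := mul_nonneg hw2 hl.le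
    have h3 : 0 < ori a p w * ori a b v := mul_pos hw1 hvb
    have h4 : 0 < ori a p v * ori a b w := by linarith
    exact (mul_pos_iff_of_pos_left hv).1 h4
  · push Not at hcr
    exact ⟨p, hp, hl, hA.2.2 _ (mem_Seg.2 ⟨haP, hp, hap⟩) hcr⟩

private lemma aloc_inside {P : Finset Pt} (hP : GenPos P) {a b c q : Pt} (ha : a ∈ P) (hb : b ∈ P)
    (hc : c ∈ P) (hq : q ∈ P) (hD : 0 < ori a b c) (hT : InT a b c q) (hqa : q ≠ a) (hqb : q ≠ b)
    (hqc : q ≠ c) : 0 < ori a b q ∧ 0 < ori b c q ∧ 0 < ori c a q := by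
  have hs := bary_sum a b c q
  have hab : a ≠ b := by
    rintro rfl
    rw [ori_self_same] at hD
    exact lt_irrefl _ hD
  have hac : a ≠ c := by
    rintro rfl
    rw [ori_self_left] at hD
    exact lt_irrefl _ hD
  have hbc : b ≠ c := by
    rintro rfl
    rw [ori_self_right] at hD
    exact lt_irrefl _ hD
  have h1 := hP a ha b hb q hq hab hqa.symm hqb.symm
  have h2 := hP b hb c hc q hq hbc hqb.symm hqc.symm
  have h3 := hP c hc a ha q hq hac.symm hqc.symm hqa.symm
  rcases hT with ⟨e1, e2, e3⟩ | ⟨e1, e2, e3⟩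
  · exact ⟨lt_of_le_of_ne e1 h1.symm, lt_of_le_of_ne e2 h2.symm, lt_of_le_of_ne e3 h3.symm⟩
  · linarith

private lemma aloc_step3 {P : Finset Pt} (hP : GenPos P) {A : Finset (Sym2 Pt)} (hA : Tri P A)
    {a b c : Pt} (hab : s(a, b) ∈ A) (hac : s(a, c) ∈ A) (hl : 0 < ori a b c)
    (hmin : ∀ c' ∈ P, 0 < ori a b c' → s(a, c') ∈ A → 0 ≤ ori a c c') : Em P a b c := by
  classical
  obtain ⟨haP, hbP, hne⟩ := mem_Seg.1 (hA.1 hab)
  obtain ⟨-, hcP, hnac⟩ := mem_Seg.1 (hA.1 hac)
  refine ⟨hl.ne', ?_⟩
  by_contra hcon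
  push Not at hcon
  obtain ⟨q, hqP, hqT, hqa, hqb, hqc⟩ := hcon
  have hq := aloc_inside hP haP hbP hcP hqP hl hqT hqa hqb hqc
  obtain ⟨w, hwX, hmax⟩ := (P.filter fun q => 0 < ori a b q ∧ 0 < ori b c q ∧
    0 < ori c a q).exists_max_image (fun q => ori b c q) ⟨q, Finset.mem_filter.2 ⟨hqP, hq⟩⟩
  obtain ⟨hwP, hw1, hw2, hw3⟩ := Finset.mem_filter.1 hwX
  have hsum := bary_sum a b c w
  have haw : a ≠ w := by
    rintro rfl
    rw [ori_self_left] at hw1
    exact lt_irrefl _ hw1
  have hkey : ∀ u v : Pt, s(u, v) ∈ A → Cr a w u v → ori b c v ≤ ori b c u → False := by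
    intro u v huv hcr hle
    obtain ⟨huP, hvP, -⟩ := mem_Seg.1 (hA.1 huv)
    have hfa : ori b c a = ori a b c := ori_cyc a b c
    have hlt : ori b c w < ori b c u := by
      have h1 := aloc_id b c a w u v
      have h2 := aloc_diff a w u v
      have h3 := hcr.1
      have h4 := hcr.2
      have h5 : ori b c w < ori b c a := by rw [hfa]; linarith
      by_contra hc'
      push Not at hc'
      rcases lt_trichotomy 0 (ori a w v) with hD | hD | hD
      · have hC : ori a w u < 0 := by
          by_contra hx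
          push Not at hx
          nlinarith [mul_nonneg hx hD.le]
        have hA0 : 0 < ori u v a := by
          by_contra hx
          push Not at hx
          have hy : ori u v w < 0 := by linarith
          nlinarith [mul_nonneg_of_nonpos_of_nonpos hx hy.le]
        have hB0 : ori u v w < 0 := by
          by_contra hx
          push Not at hx
          nlinarith [mul_nonneg hA0.le hx]
        -- A f(w) - B f(a) > (A-B) f(w) ; D f(u) - C f(v) ≤ (D-C) f(u)
        have e1 : (ori u v a - ori u v w) * ori b c w < ori u v a * ori b c w - ori u v w * ori b c a := by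
          nlinarith
        have e2 : ori a w v * ori b c u - ori a w u * ori b c v ≤ (ori a w v - ori a w u) * ori b c u := by
          nlinarith
        have e3 : (ori a w v - ori a w u) * ori b c u ≤ (ori a w v - ori a w u) * ori b c w :=
          mul_le_mul_of_nonneg_left hc' (by linarith)
        rw [← h2] at e3 e2
        linarith
      · rw [← hD, mul_zero] at h3
        exact lt_irrefl _ h3
      · have hC : 0 < ori a w u := by
          by_contra hx
          push Not at hx
          nlinarith [mul_nonneg_of_nonpos_of_nonpos hx hD.le]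
        have hA0 : ori u v a < 0 := by
          by_contra hx
          push Not at hx
          have hy : 0 < ori u v w := by linarith
          nlinarith [mul_nonneg hx hy.le]
        have hB0 : 0 < ori u v w := by
          by_contra hx
          push Not at hx
          nlinarith [mul_nonneg_of_nonpos_of_nonpos hA0.le hx]
        have e1 : ori u v a * ori b c w - ori u v w * ori b c a < (ori u v a - ori u v w) * ori b c w := by
          nlinarith
        have e2 : (ori a w v - ori a w u) * ori b c u ≤ ori a w v * ori b c u - ori a w u * ori b c v := by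
          nlinarith
        have e3 : (ori a w v - ori a w u) * ori b c w ≤ (ori a w v - ori a w u) * ori b c u :=
          mul_le_mul_of_nonpos_left hc' (by linarith)
        rw [← h2] at e3 e2
        linarith
    have hout : ¬ InT a b c u := by
      intro hT
      have hua : u ≠ a := by
        rintro rfl
        have h3 := hcr.1
        rw [ori_self_left, zero_mul] at h3
        exact lt_irrefl _ h3
      have hub : u ≠ b := by
        rintro rfl
        rw [ori_self_left] at hlt
        linarith
      have huc : u ≠ c := by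
        rintro rfl
        rw [ori_self_right] at hlt
        linarith
      have := aloc_inside hP haP hbP hcP huP hl hT hua hub huc
      have := hmax u (Finset.mem_filter.2 ⟨huP, this⟩)
      linarith
    rcases height hl hw1 hw2 hw3 hcr hlt hle hout with h | h
    · exact hA.2.1 _ hab _ huv (SCr_mk.2 h)
    · exact hA.2.1 _ hac _ huv (SCr_mk.2 h)
  have hno : ∀ g ∈ A, ¬ SCr s(a, w) g := by
    intro g hg hc
    induction g using Sym2.ind with
    | _ u v =>
      rcases le_total (ori b c v) (ori b c u) with h | h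
      · exact hkey u v hg (SCr_mk.1 hc) h
      · exact hkey v u (by rw [Sym2.eq_swap]; exact hg) (SCr_mk.1 hc).swap_right h
  have hwA : s(a, w) ∈ A := hA.2.2 _ (mem_Seg.2 ⟨haP, hwP, haw⟩) hno
  have h1 := hmin w hwP hw1 hwA
  have h2 : ori a c w = - ori c a w := ori_swap c a w
  linarith

lemma local_left {P : Finset Pt} (hP : GenPos P) {A : Finset (Sym2 Pt)} (hA : Tri P A)
    {a b p : Pt} (hab : s(a, b) ∈ A) (hp : p ∈ P) (hl : 0 < ori a b p) :
    ∃ c, ET P A a b c ∧ 0 < ori a b c := by
  classical
  obtain ⟨haP, hbP, hne⟩ := mem_Seg.1 (hA.1 hab)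
  obtain ⟨c0, hc0P, hc0l, hc0A⟩ := aloc_step1 hP hA hab hp hl
  obtain ⟨c, hcZ, hcmin⟩ := aloc_angle hne (P.filter fun q => 0 < ori a b q ∧ s(a, q) ∈ A)
    ⟨c0, Finset.mem_filter.2 ⟨hc0P, hc0l, hc0A⟩⟩ (fun q hq => (Finset.mem_filter.1 hq).2.1)
  obtain ⟨hcP, hcl, hcA⟩ := Finset.mem_filter.1 hcZ
  have hmin : ∀ c' ∈ P, 0 < ori a b c' → s(a, c') ∈ A → 0 ≤ ori a c c' := fun c' h1 h2 h3 =>
    hcmin c' (Finset.mem_filter.2 ⟨h1, h2, h3⟩)
  have hEm := aloc_step3 hP hA hab hcA hcl hmin
  have hbc : b ≠ c := by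
    rintro rfl
    rw [ori_self_right] at hcl
    exact lt_irrefl _ hcl
  have hno : ∀ g ∈ A, ¬ SCr s(b, c) g := by
    intro g hg hcr
    rcases exitP hP hbP hcP haP hEm.rot (hA.1 hg) hcr with h | h | h
    · obtain ⟨w, rfl⟩ := h
      obtain ⟨-, hwP, -⟩ := mem_Seg.1 (hA.1 hg)
      have hc := SCr_mk.1 hcr
      have h1 : ori b c a = ori a b c := ori_cyc a b c
      have h2 := hc.1
      have h3 := hc.2
      have h4 : ori b c w < 0 := by
        by_contra hx
        push Not at hx
        rw [h1] at h2
        nlinarith [mul_nonneg hcl.le hx]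
      have h5 : ori a w b = - ori a b w := ori_swap' a b w
      have h6 : ori a w c = - ori a c w := ori_swap' a c w
      have h7 : ori a c w = - ori c a w := ori_swap c a w
      have h8 := bary_sum a b c w
      by_cases hw : 0 < ori a b w
      · have h9 := hmin w hwP hw hg
        rw [h5, h6] at h3
        nlinarith [mul_nonneg hw.le h9]
      · push Not at hw
        have h10 : 0 < ori a c w := by
          by_contra hx
          push Not at hx
          rw [h5, h6] at h3
          nlinarith [mul_nonneg_of_nonpos_of_nonpos hw hx]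
        linarith
    · exact hA.2.1 _ hab _ hg h.swap_left
    · exact hA.2.1 _ hcA _ hg h.swap_left
  have hbcA : s(b, c) ∈ A := hA.2.2 _ (mem_Seg.2 ⟨hbP, hcP, hbc⟩) hno
  exact ⟨c, ⟨haP, hbP, hcP, hEm, hab, hbcA, by rw [Sym2.eq_swap]; exact hcA⟩, hcl⟩

lemma local_side {P : Finset Pt} (hP : GenPos P) {A : Finset (Sym2 Pt)} (hA : Tri P A)
    {a b p : Pt} (hab : s(a, b) ∈ A) (hp : p ∈ P) (hpa : p ≠ a) (hpb : p ≠ b) :
    ∃ c, ET P A a b c ∧ 0 < ori a b c * ori a b p := by
  obtain ⟨haP, hbP, hne⟩ := mem_Seg.1 (hA.1 hab)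
  have h0 := hP a haP b hbP p hp hne hpa.symm hpb.symm
  rcases lt_or_gt_of_ne h0 with h | h
  · obtain ⟨c, hc, hcl⟩ := local_left hP hA (a := b) (b := a) (by rw [Sym2.eq_swap]; exact hab) hp
      (by rw [ori_swap]; linarith)
    refine ⟨c, hc.swap, ?_⟩
    have h1 : ori b a c = - ori a b c := ori_swap a b c
    have h2 : ori a b c < 0 := by linarith
    exact mul_pos_of_neg_of_neg h2 h
  · obtain ⟨c, hc, hcl⟩ := local_left hP hA hab hp h
    exact ⟨c, hc, mul_pos hcl h⟩

end F059
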