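import Pool.Agent.Lib.F059.ASegs

/-!
# MP_f059c0_co, layer A, module APos (1.5 h): positions of the crossing edges

`B` a plane set of segments of `P` (general position).  The members of `B` crossing `a b` have
different parameters `tau a b` (`tau_inj`).
**n_split**: `N B s(a,b) = pre B a b (tau a b g) + 1 + pre B b a (tau b a g)` for `g ∈ B` crossing
`a b`: the members crossing `a b` are those with smaller parameter, `g` itself, those with
larger parameter; `tau b a h = 1 - tau a b h` (`tau_swap`), `s(b,a) = s(a,b)`.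
**exists_pos**: for `k < N B s(a,b)` there is `g ∈ B` crossing `a b` with
`pre B a b (tau a b g) = k`.  (Order statistics of an injective real function on a finite set:
e.g. the map `g -> pre B a b (tau a b g)` is injective and strictly monotone from the set `S` of
crossing members to `range (card S)`, hence surjective: `Finset.surj_on_of_inj_on_of_card_le`,
or induction on `k`.)
**pre_lt**: for `g, g' ∈ B` crossing `a b`: `tau a b g < tau a b g'` iff
`pre B a b (tau a b g) < pre B a b (tau a b g')`.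
**pre_succ**: if `pre B a b (tau a b g) + 1 = pre B a b (tau a b g')` then no member of `B` crossing
`a b` lies strictly between `g` and `g'` (it would be counted, together with `g` and everything
before `g`, in `pre B a b (tau a b g')`).
-/

namespace F059

namespace APosAux

lemma pre_mono {B : Finset (Sym2 Pt)} {a b : Pt} {t t' : ℝ} (h : t ≤ t') :
    pre B a b t ≤ pre B a b t' := by
  classical
  unfold pre
  apply Finset.card_le_card
  intro x hx
  rw [Finset.mem_filter] at hx ⊢
  exact ⟨hx.1, hx.2.1, lt_of_lt_of_le hx.2.2 h⟩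

lemma pre_strict {B : Finset (Sym2 Pt)} {a b : Pt} {g : Sym2 Pt} (hg : g ∈ B)
    (h1 : SCr s(a, b) g) {t' : ℝ} (h : tau a b g < t') :
    pre B a b (tau a b g) < pre B a b t' := by
  classical
  unfold pre
  apply Finset.card_lt_card
  rw [Finset.ssubset_iff_of_subset]
  · refine ⟨g, ?_, ?_⟩
    · rw [Finset.mem_filter]; exact ⟨hg, h1, h⟩
    · rw [Finset.mem_filter]; rintro ⟨-, -, h'⟩; exact lt_irrefl _ h'
  · intro x hx
    rw [Finset.mem_filter] at hx ⊢
    exact ⟨hx.1, hx.2.1, lt_trans hx.2.2 h⟩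

end APosAux

open APosAux in
lemma pre_lt {B : Finset (Sym2 Pt)} {a b : Pt} {g g' : Sym2 Pt} (hg : g ∈ B) (hg' : g' ∈ B)
    (h1 : SCr s(a, b) g) (h2 : SCr s(a, b) g') :
    tau a b g < tau a b g' ↔ pre B a b (tau a b g) < pre B a b (tau a b g') := by
  constructor
  · intro h; exact pre_strict hg h1 h
  · intro h
    by_contra hc
    exact absurd h (not_lt.mpr (pre_mono (not_lt.mp hc)))

lemma pre_succ {B : Finset (Sym2 Pt)} {a b : Pt} {g g' : Sym2 Pt} (hg : g ∈ B) (hg' : g' ∈ B)
    (h1 : SCr s(a, b) g) (h2 : SCr s(a, b) g')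
    (heq : pre B a b (tau a b g) + 1 = pre B a b (tau a b g')) :
    ∀ h ∈ B, SCr s(a, b) h → tau a b h ≤ tau a b g ∨ tau a b g' ≤ tau a b h := by
  intro h hh h3
  by_contra hc
  push Not at hc
  have e1 := (pre_lt hg hh h1 h3).1 hc.1
  have e2 := (pre_lt hh hg' h3 h2).1 hc.2
  omega

lemma n_split {P : Finset Pt} (hP : GenPos P) {B : Finset (Sym2 Pt)} (hBP : B ⊆ Seg P)
    (hB : Plane B) {a b : Pt} {g : Sym2 Pt} (hg : g ∈ B) (h1 : SCr s(a, b) g) :
    N B s(a, b) = pre B a b (tau a b g) + 1 + pre B b a (tau b a g) := by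
  classical
  have key : B.filter (SCr s(a, b)) =
      (insert g (B.filter (fun h => SCr s(a, b) h ∧ tau a b h < tau a b g))) ∪
        (B.filter (fun h => SCr s(b, a) h ∧ tau b a h < tau b a g)) := by
    ext h
    simp only [Finset.mem_filter, Finset.mem_union, Finset.mem_insert]
    constructor
    · rintro ⟨hh, h2⟩
      rcases lt_trichotomy (tau a b h) (tau a b g) with hlt | heq | hgt
      · exact Or.inl (Or.inr ⟨hh, h2, hlt⟩)
      · exact Or.inl (Or.inl (tau_inj hP (hBP hh) (hBP hg) (hB h hh g hg) h2 h1 heq))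
      · refine Or.inr ⟨hh, h2.swap_left, ?_⟩
        rw [tau_swap h2, tau_swap h1]; linarith
    · rintro ((rfl | ⟨hh, h2, -⟩) | ⟨hh, h2, -⟩)
      · exact ⟨hg, h1⟩
      · exact ⟨hh, h2⟩
      · exact ⟨hh, h2.swap_left⟩
  have hd : Disjoint (insert g (B.filter (fun h => SCr s(a, b) h ∧ tau a b h < tau a b g)))
      (B.filter (fun h => SCr s(b, a) h ∧ tau b a h < tau b a g)) := by
    rw [Finset.disjoint_left]
    intro h hh hh'
    simp only [Finset.mem_filter, Finset.mem_insert] at hh hh'
    obtain ⟨-, h3, h4⟩ := hh'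
    have h3' := h3.swap_left
    rw [tau_swap h3', tau_swap h1] at h4
    rcases hh with rfl | ⟨-, -, h5⟩
    · exact lt_irrefl _ h4
    · linarith
  have hn : g ∉ B.filter (fun h => SCr s(a, b) h ∧ tau a b h < tau a b g) := by
    rw [Finset.mem_filter]; rintro ⟨-, -, h'⟩; exact lt_irrefl _ h'
  unfold N pre
  rw [key, Finset.card_union_of_disjoint hd, Finset.card_insert_of_notMem hn]

open APosAux in
lemma exists_pos {P : Finset Pt} (hP : GenPos P) {B : Finset (Sym2 Pt)} (hBP : B ⊆ Seg P)
    (hB : Plane B) {a b : Pt} {k : ℕ} (hk : k < N B s(a, b)) :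
    ∃ g ∈ B, SCr s(a, b) g ∧ pre B a b (tau a b g) = k := by
  classical
  have hmaps : ∀ g ∈ B.filter (SCr s(a, b)), pre B a b (tau a b g) ∈
      Finset.range (B.filter (SCr s(a, b))).card := by
    intro g hg
    rw [Finset.mem_filter] at hg
    rw [Finset.mem_range]
    have := n_split hP hBP hB hg.1 hg.2
    unfold N at this
    omega
  have hinj : ∀ g₁ ∈ B.filter (SCr s(a, b)), ∀ g₂ ∈ B.filter (SCr s(a, b)),
      pre B a b (tau a b g₁) = pre B a b (tau a b g₂) → g₁ = g₂ := by
    intro g₁ hg₁ g₂ hg₂ h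
    rw [Finset.mem_filter] at hg₁ hg₂
    apply tau_inj hP (hBP hg₁.1) (hBP hg₂.1) (hB _ hg₁.1 _ hg₂.1) hg₁.2 hg₂.2
    rcases lt_trichotomy (tau a b g₁) (tau a b g₂) with hlt | heq | hgt
    · have := (pre_lt hg₁.1 hg₂.1 hg₁.2 hg₂.2).1 hlt; omega
    · exact heq
    · have := (pre_lt hg₂.1 hg₁.1 hg₂.2 hg₁.2).1 hgt; omega
  have hsurj : (B.filter (SCr s(a, b))).image (fun g => pre B a b (tau a b g)) =
      Finset.range (B.filter (SCr s(a, b))).card := by
    apply Finset.eq_of_subset_of_card_le
    · intro x hx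
      rw [Finset.mem_image] at hx
      obtain ⟨g, hg, rfl⟩ := hx
      exact hmaps g hg
    · rw [Finset.card_range, Finset.card_image_of_injOn]
      intro g₁ hg₁ g₂ hg₂ h
      exact hinj g₁ hg₁ g₂ hg₂ h
  have hk' : k ∈ Finset.range (B.filter (SCr s(a, b))).card := by
    rw [Finset.mem_range]; exact hk
  rw [← hsurj, Finset.mem_image] at hk'
  obtain ⟨g, hg, h⟩ := hk'
  rw [Finset.mem_filter] at hg
  exact ⟨g, hg.1, hg.2, h⟩

end F059
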