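import Pool.Agent.Lib.F059.AOrd

/-!
# MP_f059c0_co, layer A, module APrinc (1.5 h)

`a b c` empty triangle of `P`; `w w1 w2` an empty triangle with sides in the plane set `B`; the
sides `g = s(w,w1)` and `g' = s(w,w2)` cross `a b`; `w` and `c` are on the same side of `a b`.
Then it is impossible that `g` crosses `a c` and `g'` crosses `b c`.

Proof.  Suppose so.  By `ord` (`a b c`, `g`, `h := g'`) `tau a b g < tau a b g'`.  Let
`x = pt a b (tau a b g)`, `x' = pt a b (tau a b g')`; `x` is an inner point of `w w1`, `x'` of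
`w w2` (`Cr_pt`).  Claim: `c` is in the closed triangle `w x x'`, hence in the closed triangle
`w w1 w2`, so by `Em` `c ∈ {w, w1, w2}`; `c = w` is impossible (`g` crosses `a c`, `exc_mem`),
`w1`, `w2` are on the other side of `a b` than `w`, so `c ≠ w1, w2`.  Contradiction.
Signs (say `ori a b c > 0`, then `ori a b w > 0`; the other case is the mirror image, or use
`D = ori w w1 w2` and squares): `ori w w1` takes opposite signs at `a` and `b`, at `a` and `c`; so
`c` and `b` are on the same side of the line `g`; `x'` is also on the side of `b` (`tau_lt`,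
`tau g < tau g'`) and `w2` is on the side of `x'` (`x' = pt w w2 t'`,
`ori w w1 x' = t' * ori w w1 w2`).  So `ori w w1 c * ori w w1 w2 > 0`.  Similarly
`ori w w2 c * ori w w2 w1 > 0`.  Third side: `bary` for the triangle `w x x'` at `c` writes
`ori w w1 w2 ...`: `c = al w + be x + ga x'` with `al : be : ga = ori x x' c : ori x' w c :
ori w x c` over `ori w x x'`; `ori x x' c` has the sign of `ori a b c`, `ori x x' w` the
sign of `ori a b w` (same factor `tau g' - tau g`), so `al > 0`; `be, ga > 0` by the two
statements above; `chi q = ori w1 w2 q` is `(1-t) chi w` at `x` and `(1-t') chi w` at `x'`, so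
`chi c` has the strict sign of `chi w = ori w w1 w2`.  Together: `InT w w1 w2 c`.
-/

namespace F059

private lemma princ_aux {P : Finset Pt} (hP : GenPos P) {B : Finset (Sym2 Pt)} (hBP : B ⊆ Seg P)
    (hB : Plane B) {a b c w w1 w2 : Pt} (ha : a ∈ P) (hb : b ∈ P) (hc : c ∈ P)
    (hE : Em P a b c) (hW : ET P B w w1 w2) (h1 : Cr a b w w1)
    (h2 : Cr a b w w2) (hD : 0 < ori a b c) (hw : 0 < ori a b w)
    (h3 : Cr a c w w1) (h4 : Cr b c w w2) : False := by
  have k1 : ori a b w1 < 0 := by
    have := h1.1
    by_contra hn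
    push Not at hn
    nlinarith
  have k2 : ori a b w2 < 0 := by
    have := h2.1
    by_contra hn
    push Not at hn
    nlinarith
  have e1 : ori w w1 b - ori w w1 a = ori a b w - ori a b w1 := by unfold ori; ring
  have e2 : ori w w2 b - ori w w2 a = ori a b w - ori a b w2 := by unfold ori; ring
  have m1 := h1.2
  have m2 := h2.2
  have m3 := h3.2
  have m4 := h4.2
  have f1 : ori w w1 a < 0 := by
    by_contra hn
    push Not at hn
    nlinarith
  have f2 : 0 < ori w w1 b := by
    by_contra hn
    push Not at hn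
    nlinarith
  have f3 : 0 < ori w w1 c := by
    by_contra hn
    push Not at hn
    nlinarith
  have g1 : ori w w2 a < 0 := by
    by_contra hn
    push Not at hn
    nlinarith
  have g2 : 0 < ori w w2 b := by
    by_contra hn
    push Not at hn
    nlinarith
  have g3 : ori w w2 c < 0 := by
    by_contra hn
    push Not at hn
    nlinarith
  -- the order of the crossing points
  have hww2 : s(w, w2) ∈ B := by rw [Sym2.eq_swap]; exact hW.ca
  have ho := ord hP ha hb hc hE (hBP hW.ab) (hBP hww2) (hB _ hW.ab _ hww2)
    (SCr_mk.2 h1) (SCr_mk.2 h3) (SCr_mk.2 h2) (Or.inr (SCr_mk.2 h4))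
  obtain ⟨_, _, t, ht0, ht1, hx⟩ := Cr_pt h1
  obtain ⟨_, _, t', ht0', ht1', hx'⟩ := Cr_pt h2
  obtain ⟨x, hxd⟩ : ∃ x, x = tau a b s(w, w1) := ⟨_, rfl⟩
  obtain ⟨x', hxd'⟩ : ∃ x, x = tau a b s(w, w2) := ⟨_, rfl⟩
  have hl := tau_lt h1 (tau a b s(w, w2))
  rw [← hxd] at ho hx hl
  rw [← hxd'] at ho hx' hl
  have hΔ : 0 < ori w w1 w2 := by
    have e3 : ori w w1 (pt a b x') = t' * ori w w1 w2 := by
      rw [hx']
      unfold ori pt
      ring
    rw [e3] at hl
    have h5 : 0 < (ori w w1 a - ori w w1 b) * (x - x') := by nlinarith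
    rw [← hl] at h5
    by_contra hn
    push Not at hn
    nlinarith
  -- the third side
  have hb := bary w (pt a b x) (pt a b x') w1 w2 c
  have q1 : ori w (pt a b x) (pt a b x') = t * t' * ori w w1 w2 := by
    rw [hx, hx']
    unfold ori pt
    ring
  have q2 : ori (pt a b x) (pt a b x') c = (x' - x) * ori a b c := by
    unfold ori pt
    ring
  have q3 : ori (pt a b x') w c = -(t' * ori w w2 c) := by
    rw [hx']
    unfold ori pt
    ring
  have q4 : ori w (pt a b x) c = t * ori w w1 c := by
    rw [hx]
    unfold ori pt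
    ring
  have q5 : ori w1 w2 w = ori w w1 w2 := by unfold ori; ring
  have q6 : ori w1 w2 (pt a b x) = (1 - t) * ori w w1 w2 := by
    rw [hx]
    unfold ori pt
    ring
  have q7 : ori w1 w2 (pt a b x') = (1 - t') * ori w w1 w2 := by
    rw [hx']
    unfold ori pt
    ring
  rw [q1, q2, q3, q4, q5, q6, q7] at hb
  have r1 : 0 < (x' - x) * ori a b c * ori w w1 w2 := by
    have : 0 < x' - x := by linarith
    positivity
  have r2 : 0 < -(t' * ori w w2 c) * ((1 - t) * ori w w1 w2) := by
    have s1 : 0 < -(t' * ori w w2 c) := by nlinarith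
    have s2 : 0 < (1 - t) * ori w w1 w2 := mul_pos (by linarith) hΔ
    exact mul_pos s1 s2
  have r3 : 0 < t * ori w w1 c * ((1 - t') * ori w w1 w2) := by
    have s2 : 0 < (1 - t') * ori w w1 w2 := mul_pos (by linarith) hΔ
    positivity
  have r4 : 0 < t * t' * ori w w1 w2 := by positivity
  have h5 : 0 < ori w1 w2 c := by
    by_contra hn
    push Not at hn
    nlinarith
  have hin : InT w w1 w2 c := by
    left
    refine ⟨f3.le, h5.le, ?_⟩
    have : ori w2 w c = -ori w w2 c := ori_swap w w2 c
    linarith
  rcases hW.em.2 c hc hin with rfl | rfl | rfl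
  · rw [ori_self_left] at f3
    exact lt_irrefl _ f3
  · rw [ori_self_right] at f3
    exact lt_irrefl _ f3
  · rw [ori_self_right] at g3
    exact lt_irrefl _ g3

lemma princ {P : Finset Pt} (hP : GenPos P) {B : Finset (Sym2 Pt)} (hBP : B ⊆ Seg P)
    (hB : Plane B) {a b c w w1 w2 : Pt} (ha : a ∈ P) (hb : b ∈ P) (hc : c ∈ P)
    (hE : Em P a b c) (hW : ET P B w w1 w2) (h1 : SCr s(a, b) s(w, w1))
    (h2 : SCr s(a, b) s(w, w2)) (hs : 0 < ori a b c * ori a b w)
    (h3 : SCr s(a, c) s(w, w1)) (h4 : SCr s(b, c) s(w, w2)) : False := by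
  rw [SCr_mk] at h1 h2 h3 h4
  rcases lt_trichotomy (ori a b c) 0 with h | h | h
  · have hw : ori a b w < 0 := by
      by_contra hn
      push Not at hn
      nlinarith
    have e1 : ori b a c = - ori a b c := ori_swap a b c
    have e2 : ori b a w = - ori a b w := ori_swap a b w
    exact princ_aux hP hBP hB hb ha hc hE.swap hW.rot.swap.rot.rot (h2.swap_left) (h1.swap_left)
      (by linarith) (by linarith) h4 h3
  · rw [h, zero_mul] at hs
    exact lt_irrefl _ hs
  · have hw : 0 < ori a b w := by
      by_contra hn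
      push Not at hn
      nlinarith
    exact princ_aux hP hBP hB ha hb hc hE hW h1 h2 h hw h3 h4

/-- along the edge `w w1`, seen from `w`, the crossing with `a c` comes before the crossing with
`a b`, if `c` and `w` are on the same side of `a b`.
Proof: the crossing point `y = pt w w1 (tau w w1 s(a,c))` is an inner point of `a c`, so
`ori a b y * ori a b c > 0`; the value of `ori a b` on the line `w w1` is affine with
`ori a b w * ori a b c > 0` at `0` and value `0` at `tau w w1 s(a,b)` (`tau_lt`-like formula
`ori a b (pt w w1 t) = (ori a b w - ori a b w1) * (tau w w1 s(a,b) - t)`). -/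
lemma closer {a b c w w1 : Pt} (h1 : Cr a b w w1) (h2 : Cr a c w w1)
    (hs : 0 < ori a b c * ori a b w) : tau w w1 s(a, c) < tau w w1 s(a, b) := by
  have hl := tau_lt h1.symm (tau w w1 s(a, c))
  obtain ⟨_, _, t, ht0, ht1, hy⟩ := Cr_pt h2.symm
  have e1 : ori a b (pt w w1 (tau w w1 s(a, c))) = t * ori a b c := by
    rw [hy]
    unfold ori pt
    ring
  rw [e1] at hl
  have m1 := h1.1
  obtain ⟨x, hx⟩ : ∃ x, x = tau w w1 s(a, b) - tau w w1 s(a, c) := ⟨_, rfl⟩
  rw [← hx] at hl
  have hx0 : 0 < x := by
    rcases lt_trichotomy (ori a b c) 0 with h | h | h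
    · have hw : ori a b w < 0 := by
        by_contra hn
        push Not at hn
        nlinarith
      have hw1 : 0 < ori a b w1 := by
        by_contra hn
        push Not at hn
        nlinarith
      by_contra hn
      push Not at hn
      have : 0 ≤ (ori a b w - ori a b w1) * x := mul_nonneg_of_nonpos_of_nonpos (by linarith) hn
      nlinarith
    · rw [h, zero_mul] at hs
      exact absurd hs (lt_irrefl _)
    · have hw : 0 < ori a b w := by
        by_contra hn
        push Not at hn
        nlinarith
      have hw1 : ori a b w1 < 0 := by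
        by_contra hn
        push Not at hn
        nlinarith
      by_contra hn
      push Not at hn
      have : (ori a b w - ori a b w1) * x ≤ 0 := mul_nonpos_of_nonneg_of_nonpos (by linarith) hn
      nlinarith
  linarith

end F059
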