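import Pool.Agent.Lib.F059.AOrd

/-!
# MP_f059c0_co, layer A, module AQuad (2 h): crossings of the new diagonal

`a b c`, `a b d` empty triangles, `a b` and `c d` cross (so `a d b c` is a strictly convex
quadrilateral without points of `P` inside).  `B` is a plane set of segments of `P`, `s(a,b) ∉ B`,
and no edge of `B` runs from `a` through `b c` or `b d`, or from `b` through `a c` or `a d`.

**em_quad**: the triangles `c d a` and `c d b` are empty.  Proof: let `p ∈ P` be in the closed
triangle `c d a`.  If `p` is weakly on the side of `c` of the line `a b` then `p` is in the closed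
triangle `a b c`: the condition for `c a` is the same, and `p` is weakly on the side of `a` of the
line `b c` because `a`, `c`, `d` are (`d` strictly: from `Cr a b c d`; `bary` for the triangle
`c d a` writes `ori b c p` with nonnegative coefficients).  So `p` is `a`, `b` or `c`; `b` is not
in the closed triangle `c d a` (it is strictly on the other side of `c d` than `a`).  If `p` is on
the side of `d`: same with `a b d`.  Nondegenerate: `Cr`.

**quad1**: `N B s(c,d) <= n1 + n2 + cut B c a b + cut B d a b` where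
`n1 = #{h ∈ B : h crosses c d, a c, b d}`, `n2 = #{h ∈ B : h crosses c d, b c, a d}`.
Proof: let `h ∈ B` cross `c d`.  `exitP` for `c d a`: `a ∈ h`, or `h` crosses `c a`, or `d a`.
`exitP` for `c d b`: `b ∈ h`, or `h` crosses `c b`, or `d b`.  Nine cases: (`a`, `b`): `h = s(a,b)`,
excluded; (`a`, `c b`), (`a`, `d b`), (`c a`, `b`), (`d a`, `b`): excluded by hypothesis;
(`c a`, `c b`): `h` cuts off `c` in the triangle `a b c` (counted by `cut B c a b`);
(`d a`, `d b`): counted by `cut B d a b`; (`c a`, `d b`): `n1`; (`d a`, `c b`): `n2`.  So the set of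
`h` is contained in the union of four sets.

**quad2**: if `n1 > 0` then `n2 = 0` and
`n1 + (cut B b a c + thr B c a b) + (cut B a b d + thr B d a b) <= N B s(a,b)`.
Proof: let `h0 ∈ B` cross `c d`, `a c`, `b d`.  Any `h` in `B` that crosses `c d, a c, b d` crosses
`a b`: `exitP` for the triangle `a c b` (`h` crosses `a c`): `b ∈ h` (impossible, `exc_mem`), or
`h` crosses `a b`, or `h` crosses `c b` (impossible: `exc` for `c d, b d, c b`...: `h` crosses
`b d` and `c d` and `b c`).
If `h` crosses `c d, b c, a d` it also crosses `a b` (same argument); `ord` for `a b c` (`h0` crosses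
`a b`, `a c`; `h` crosses `a b`, `b c`): `tau a b h0 < tau a b h`; `ord` for `a b d` (`h` crosses
`a b`, `a d`; `h0` crosses `a b`, `b d`): `tau a b h < tau a b h0`.  Contradiction, so `n2 = 0`.
The sets `S1 = {cross c d, a c, b d}`, `S2 = {cross a b and b c} ∪ {cross a b, end c}`,
`S3 = {cross a b and a d} ∪ {cross a b, end d}` are pairwise disjoint subsets of the set of
members of `B` crossing `a b`: `S1 ∩ S2`: `h` crosses `a b`, `a c`, so not `b c` (`exc`), not
`c ∈ h` (`exc_mem`).  `S1 ∩ S3`: `h` crosses `a b`, `b d`, so not `a d`, not `d ∈ h`.  `S2 ∩ S3`: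
`ord` for `a b c` with `g := h0`: `tau a b h0 < tau a b h`; `ord` for the triangle `b a d` with
`g := h0` (`h0` crosses `b a`, `b d`; `h` crosses `b a` and (`d ∈ h` or crosses `a d`)):
`tau b a h0 < tau b a h`, i.e. (`tau_swap`) `tau a b h < tau a b h0`: contradiction.
The two parts of `S2` are disjoint (`exc_mem`), their sizes are `cut B b a c` and `thr B c a b`;
the same for `S3` (`cut B a b d`: cross `a b` and `a d`).
-/

namespace F059

open Classical in
/-- number of members of `B` crossing `c d`, `a c` and `b d` -/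
noncomputable def dg (B : Finset (Sym2 Pt)) (a b c d : Pt) : ℕ :=
  (B.filter (fun h => SCr s(c, d) h ∧ SCr s(a, c) h ∧ SCr s(b, d) h)).card

private lemma em_pos {P : Finset Pt} {a b c d : Pt} (hEc : Em P a b c) (hEd : Em P a b d)
    (hcr : Cr a b c d) (hD : 0 < ori c d a) : Em P c d a := by
  obtain ⟨hc1, hc2⟩ := hcr
  have hb : ori c d b < 0 := by
    by_contra h0
    push Not at h0
    nlinarith [mul_nonneg hD.le h0]
  have e0 : ori a b d - ori a b c = ori c d a - ori c d b := by unfold ori; ring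
  have had : 0 < ori a b d := by
    by_contra h0
    push Not at h0
    have h1 : ori a b c < 0 := by linarith
    nlinarith [mul_nonneg_of_nonpos_of_nonpos h0 h1.le]
  have hac : ori a b c < 0 := by
    by_contra h0
    push Not at h0
    nlinarith [mul_nonneg h0 had.le]
  refine ⟨hD.ne', ?_⟩
  intro p hp hT
  have hs := bary_sum c d a p
  rcases hT with ⟨g1, g2, g3⟩ | ⟨g1, g2, g3⟩
  swap
  · exfalso; linarith
  have hpb : p ≠ b := by
    rintro rfl
    linarith
  rcases le_or_gt (ori a b p) 0 with h1 | h1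
  · have h2 : InT a b c p := by
      right
      refine ⟨h1, ?_, ?_⟩
      · have e1 := bary c d a b c p
        rw [ori_self_right] at e1
        have e2 : ori b c d = ori c d b := (ori_cyc b c d).symm ▸ rfl
        have e3 : ori b c a = ori a b c := by unfold ori; ring
        rw [e3, e2, mul_zero, zero_add] at e1
        by_contra h0
        push Not at h0
        have h5 := mul_pos hD h0
        have h6 := mul_nonpos_of_nonneg_of_nonpos g3 hb.le
        have h7 := mul_nonpos_of_nonneg_of_nonpos g1 hac.le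
        linarith
      · have e1 : ori c a p = - ori a c p := ori_swap a c p
        linarith
    rcases hEc.2 p hp h2 with h | h | h
    · exact Or.inr (Or.inr h)
    · exact absurd h hpb
    · exact Or.inl h
  · have h2 : InT a b d p := by
      left
      refine ⟨h1.le, ?_, g2⟩
      have e1 := bary c d a b d p
      rw [ori_self_right] at e1
      have e2 : ori b d c = - ori c d b := by unfold ori; ring
      have e3 : ori b d a = ori a b d := by unfold ori; ring
      rw [e3, e2, mul_zero, add_zero] at e1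
      by_contra h0
      push Not at h0
      have h5 := mul_neg_of_pos_of_neg hD h0
      have h6 := mul_nonneg g2 (neg_nonneg.2 hb.le)
      have h7 := mul_nonneg g1 had.le
      linarith
    rcases hEd.2 p hp h2 with h | h | h
    · exact Or.inr (Or.inr h)
    · exact absurd h hpb
    · exact Or.inr (Or.inl h)

private lemma em_one {P : Finset Pt} {a b c d : Pt} (hEc : Em P a b c) (hEd : Em P a b d)
    (hcr : Cr a b c d) : Em P c d a := by
  rcases lt_trichotomy (ori c d a) 0 with h | h | h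
  · have h1 : 0 < ori d c a := by rw [ori_swap]; linarith
    exact (em_pos hEd hEc hcr.swap_right h1).swap
  · exfalso
    have := hcr.2
    rw [h, zero_mul] at this
    exact lt_irrefl _ this
  · exact em_pos hEc hEd hcr h

lemma em_quad {P : Finset Pt} {a b c d : Pt} (hEc : Em P a b c) (hEd : Em P a b d)
    (hcr : Cr a b c d) : Em P c d a ∧ Em P c d b :=
  ⟨em_one hEc hEd hcr, em_one hEc.swap hEd.swap hcr.swap_left⟩

private lemma thr_zero {B : Finset (Sym2 Pt)} {c a b : Pt} (h : thr B c a b = 0)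
    {g : Sym2 Pt} (hg : g ∈ B) (h1 : c ∈ g) (h2 : SCr s(a, b) g) : False := by
  classical
  unfold thr at h
  rw [Finset.card_eq_zero, Finset.filter_eq_empty_iff] at h
  exact h hg ⟨h1, h2⟩

lemma quad1 {P : Finset Pt} (hP : GenPos P) {B : Finset (Sym2 Pt)} (hBP : B ⊆ Seg P)
    {a b c d : Pt} (ha : a ∈ P) (hb : b ∈ P) (hc : c ∈ P) (hd : d ∈ P)
    (hEc : Em P a b c) (hEd : Em P a b d) (hcr : Cr a b c d) (hab : s(a, b) ∉ B)
    (h1 : thr B a b c = 0) (h2 : thr B b a c = 0) (h3 : thr B a b d = 0)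
    (h4 : thr B b a d = 0) :
    N B s(c, d) ≤ dg B a b c d + dg B b a c d + cut B c a b + cut B d a b := by
  classical
  obtain ⟨hEa, hEb⟩ := em_quad hEc hEd hcr
  have hne : a ≠ b := by
    rintro rfl
    apply hEc.1
    exact ori_self_same _ _
  unfold N dg cut
  have hsub : B.filter (SCr s(c, d)) ⊆
      ((B.filter (fun h => SCr s(c, d) h ∧ SCr s(a, c) h ∧ SCr s(b, d) h) ∪
        B.filter (fun h => SCr s(c, d) h ∧ SCr s(b, c) h ∧ SCr s(a, d) h)) ∪
        B.filter (fun h => SCr s(c, a) h ∧ SCr s(c, b) h)) ∪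
        B.filter (fun h => SCr s(d, a) h ∧ SCr s(d, b) h) := by
    intro h hh
    rw [Finset.mem_filter] at hh
    obtain ⟨hB, hcd⟩ := hh
    simp only [Finset.mem_union, Finset.mem_filter]
    rcases exitP hP hc hd ha hEa (hBP hB) hcd with k1 | k1 | k1 <;>
    rcases exitP hP hc hd hb hEb (hBP hB) hcd with k2 | k2 | k2
    · exfalso
      apply hab
      rwa [← (Sym2.mem_and_mem_iff hne).1 ⟨k1, k2⟩]
    · exact (thr_zero h1 hB k1 k2.swap_left).elim
    · exact (thr_zero h3 hB k1 k2.swap_left).elim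
    · exact (thr_zero h2 hB k2 k1.swap_left).elim
    · exact Or.inl (Or.inr ⟨hB, k1, k2⟩)
    · exact Or.inl (Or.inl (Or.inl ⟨hB, hcd, k1.swap_left, k2.swap_left⟩))
    · exact (thr_zero h4 hB k2 k1.swap_left).elim
    · exact Or.inl (Or.inl (Or.inr ⟨hB, hcd, k2.swap_left, k1.swap_left⟩))
    · exact Or.inr ⟨hB, k1, k2⟩
  refine (Finset.card_le_card hsub).trans ?_
  refine (Finset.card_union_le _ _).trans (Nat.add_le_add_right ?_ _)
  refine (Finset.card_union_le _ _).trans (Nat.add_le_add_right ?_ _)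
  exact Finset.card_union_le _ _

/-- a member crossing `c d`, `a c`, `b d` crosses `a b` -/
private lemma cross_ab {P : Finset Pt} (hP : GenPos P) {a b c d : Pt} (ha : a ∈ P) (hb : b ∈ P)
    (hc : c ∈ P) (hEc : Em P a b c) {h : Sym2 Pt} (hh : h ∈ Seg P) (k1 : SCr s(c, d) h)
    (k2 : SCr s(a, c) h) (k3 : SCr s(b, d) h) : SCr s(a, b) h := by
  have hE : Em P a c b := hEc.swap.rot
  rcases exitP hP ha hc hb hE hh k2 with k4 | k4 | k4
  · exact absurd k3.swap_left (exc_mem k4)
  · exact k4
  · exact absurd k3.swap_left (exc k1 k4)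

private lemma ind5 {p1 p2 p3 p4 p5 q : Prop} [Decidable p1] [Decidable p2] [Decidable p3]
    [Decidable p4] [Decidable p5] [Decidable q] (h1 : p1 → q) (h2 : p2 → q) (h3 : p3 → q)
    (h4 : p4 → q) (h5 : p5 → q) (h12 : p1 → ¬ p2) (h13 : p1 → ¬ p3) (h14 : p1 → ¬ p4)
    (h15 : p1 → ¬ p5) (h23 : p2 → ¬ p3) (h24 : p2 → ¬ p4) (h25 : p2 → ¬ p5) (h34 : p3 → ¬ p4)
    (h35 : p3 → ¬ p5) (h45 : p4 → ¬ p5) :
    (if p1 then 1 else 0) + ((if p2 then 1 else 0) + (if p3 then 1 else 0)) +
      ((if p4 then 1 else 0) + (if p5 then 1 else 0)) ≤ (if q then 1 else 0 : ℕ) := by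
  by_cases k1 : p1
  · simp [k1, h12 k1, h13 k1, h14 k1, h15 k1, h1 k1]
  by_cases k2 : p2
  · simp [k1, k2, h23 k2, h24 k2, h25 k2, h2 k2]
  by_cases k3 : p3
  · simp [k1, k2, k3, h34 k3, h35 k3, h3 k3]
  by_cases k4 : p4
  · simp [k1, k2, k3, k4, h45 k4, h4 k4]
  by_cases k5 : p5
  · simp [k1, k2, k3, k4, k5, h5 k5]
  · simp [k1, k2, k3, k4, k5]

lemma quad2 {P : Finset Pt} (hP : GenPos P) {B : Finset (Sym2 Pt)} (hBP : B ⊆ Seg P)
    (hB : Plane B) {a b c d : Pt} (ha : a ∈ P) (hb : b ∈ P) (hc : c ∈ P) (hd : d ∈ P)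
    (hEc : Em P a b c) (hEd : Em P a b d) (hcr : Cr a b c d) (hn : 0 < dg B a b c d) :
    dg B b a c d = 0 ∧
    dg B a b c d + (cut B b a c + thr B c a b) + (cut B a b d + thr B d a b) ≤ N B s(a, b) := by
  classical
  obtain ⟨h0, hh0⟩ := Finset.card_pos.1 hn
  rw [Finset.mem_filter] at hh0
  obtain ⟨h0B, h0cd, h0ac, h0bd⟩ := hh0
  have h0ab : SCr s(a, b) h0 := cross_ab hP ha hb hc hEc (hBP h0B) h0cd h0ac h0bd
  -- a member on both sides
  have key : ∀ h ∈ B, SCr s(a, b) h → (c ∈ h ∨ SCr s(b, c) h) → (d ∈ h ∨ SCr s(a, d) h) →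
      False := by
    intro h hhB hab k1 k2
    have g1 := ord hP ha hb hc hEc (hBP h0B) (hBP hhB) (hB h0 h0B h hhB) h0ab h0ac hab k1
    have g2 := ord hP hb ha hd hEd.swap (hBP h0B) (hBP hhB) (hB h0 h0B h hhB) h0ab.swap_left h0bd
      hab.swap_left k2
    rw [tau_swap h0ab, tau_swap hab] at g2
    linarith
  refine ⟨?_, ?_⟩
  · unfold dg
    rw [Finset.card_eq_zero, Finset.filter_eq_empty_iff]
    rintro h hhB ⟨k1, k2, k3⟩
    have k4 : SCr s(b, a) h := cross_ab hP hb ha hc hEc.swap (hBP hhB) k1 k2 k3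
    exact key h hhB k4.swap_left (Or.inr k2) (Or.inr k3)
  · unfold dg cut thr N
    simp only [Finset.card_filter]
    rw [← Finset.sum_add_distrib, ← Finset.sum_add_distrib, ← Finset.sum_add_distrib,
      ← Finset.sum_add_distrib]
    refine Finset.sum_le_sum fun h hhB => ?_
    apply ind5
    · rintro ⟨k1, k2, k3⟩
      exact cross_ab hP ha hb hc hEc (hBP hhB) k1 k2 k3
    · rintro ⟨k1, _⟩
      exact k1.swap_left
    · exact fun k => k.2
    · exact fun k => k.1
    · exact fun k => k.2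
    · rintro ⟨k1, k2, k3⟩ ⟨k4, k5⟩
      exact exc k4.swap_left k2 k5
    · rintro ⟨k1, k2, k3⟩ ⟨k4, _⟩
      exact exc_mem k4 k2
    · rintro ⟨k1, k2, k3⟩ ⟨k4, k5⟩
      exact exc k4 k5 k3
    · rintro ⟨k1, k2, k3⟩ ⟨k4, _⟩
      exact exc_mem k4 k3
    · rintro ⟨k1, k2⟩ ⟨k3, _⟩
      exact exc_mem k3 k2
    · rintro ⟨k1, k2⟩ ⟨k3, k4⟩
      exact key h hhB k3 (Or.inr k2) (Or.inr k4)
    · rintro ⟨k1, k2⟩ ⟨k3, k4⟩
      exact key h hhB k4 (Or.inr k2) (Or.inl k3)
    · rintro ⟨k1, k2⟩ ⟨k3, k4⟩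
      exact key h hhB k2 (Or.inl k1) (Or.inr k4)
    · rintro ⟨k1, k2⟩ ⟨k3, k4⟩
      exact key h hhB k2 (Or.inl k1) (Or.inl k3)
    · rintro ⟨k1, k2⟩ ⟨k3, _⟩
      exact exc_mem k3 k2

end F059
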