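import Pool.Agent.Lib.F059.AHull
import Pool.Agent.Lib.F059.ASegs

/-!
# MP_f059c0_co, layer A, module AStart (2 h): from a set of triangles to a maximal plane set

`T` a triangulation of `P` in the sense of the problem file (`IsTriangulation`), `P` in general
position.

**start**: for different points `p, q` of `P` either `s(p,q)` is a side of a triangle of `T`, or
there is a triangle `{p,x,y}` in `T` whose side `x y` is crossed by `p q`.
Proof.  The points `z_n = pt p q (1/(n+2))` are in `convexHull P`, so each lies in the hull of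
some `t ∈ T` (`cover`); by pigeonhole one `t` contains `z_n` for infinitely many `n`
(`Finite.exists_infinite_fiber` or `Set.infinite...`), and `p` too (the hull of `t` is
closed).  `t = {x', y', z'}`, `ori x' y' z' ≠ 0` (general position).  `p` is in the closed triangle
but not interior (`empty`), so by `int3`, `hull3` one determinant vanishes, so by general position
`p` is a vertex: `t = {p, x, y}`; let `D = ori p x y > 0` (exchange `x`, `y`).
Let `z = pt p q s` be one of the `z_n` in `t`, `0 < s < 1`: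
`ori p x z = s * ori p x q >= 0`, `ori y p z = s * ori y p q >= 0`.
If `ori p x q = 0` then `q = x` (general position, `q ≠ p`), and `s(p,q)` is a side of `t`;
same for `y`.  Otherwise both are `> 0`, `q ≠ x, y`; `q` is not interior (`empty`), so
`ori x y q <= 0`, hence `< 0` by general position.  So `Cr p q x y`.

**plane_edg**: the sides of the triangles of `T` do not cross.  Suppose `Cr p q r s`,
`p, q ∈ t = {p,q,x}`, `r, s ∈ t' = {r,s,y}`.  The four points are different, so `t ≠ t'` (`card = 3`).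
Let `o` be the crossing point (inner point of both segments).  Let `d1 = ± (q - p)` with sign
such that it points to the side of `y` of the line `r s`, and `d2 = ± (s - r)` pointing to the side
of `x` of the line `p q`.  For small `eps > 0` the point `o + eps (d1 + d2)` is strictly inside
both triangles (`InI`: the determinants with respect to the two other sides are nonzero at `o`
with the right sign, continuity; the one with respect to `p q` is `eps * ori`-part of `d2`).
By `int3` this contradicts `disj`.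

**tri_edg**: `edg T` is a maximal plane set: `edg T ⊆ Seg P` (`tri`, `mem_Seg`), `plane_edg`, and if
`s(p,q) ∈ Seg P` crosses no member of `edg T` then `start` gives `s(p,q) ∈ edg T` (the second
alternative is a crossing with `s(x,y) ∈ edg T`).
-/

namespace F059

open Filter Topology

private lemma ast_mem {t : Finset Pt} (h : t.card = 3) {p : Pt} (hp : p ∈ t) :
    ∃ x y, p ≠ x ∧ p ≠ y ∧ x ≠ y ∧ t = {p, x, y} := by
  obtain ⟨a, b, c, hab, hac, hbc, rfl⟩ := Finset.card_eq_three.1 h
  simp only [Finset.mem_insert, Finset.mem_singleton] at hp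
  rcases hp with rfl | rfl | rfl
  · exact ⟨b, c, hab, hac, hbc, rfl⟩
  · refine ⟨a, c, hab.symm, hbc, hac, ?_⟩
    ext z
    simp only [Finset.mem_insert, Finset.mem_singleton]
    tauto
  · refine ⟨a, b, hac.symm, hbc.symm, hab, ?_⟩
    ext z
    simp only [Finset.mem_insert, Finset.mem_singleton]
    tauto

private lemma ast_mem2 {t : Finset Pt} (h : t.card = 3) {p q : Pt} (hp : p ∈ t) (hq : q ∈ t)
    (hpq : p ≠ q) : ∃ x, p ≠ x ∧ q ≠ x ∧ t = {p, q, x} := by
  obtain ⟨x, y, h1, h2, h3, rfl⟩ := ast_mem h hp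
  simp only [Finset.mem_insert, Finset.mem_singleton] at hq
  rcases hq with rfl | rfl | rfl
  · exact absurd rfl hpq
  · exact ⟨y, h2, h3, rfl⟩
  · exact ⟨x, h1, h3.symm, by rw [Finset.pair_comm]⟩

private lemma ast_coe (a b c : Pt) :
    (({a, b, c} : Finset Pt) : Set Pt) = ({a, b, c} : Set Pt) := by
  ext z
  simp

/-- a point of `P` in a closed triangle is a vertex -/
private lemma ast_vertex {P : Finset Pt} (hP : GenPos P) {T : Finset (Finset Pt)}
    (hT : IsTriangulation P T) {t : Finset Pt} (ht : t ∈ T) {p : Pt} (hp : p ∈ P)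
    (h : p ∈ convexHull ℝ (t : Set Pt)) : p ∈ t := by
  obtain ⟨hsub, hcard⟩ := hT.tri t ht
  have hemp := hT.empty t ht p hp
  obtain ⟨a, b, c, hab, hac, hbc, rfl⟩ := Finset.card_eq_three.1 hcard
  have ha : a ∈ P := hsub (by simp)
  have hb : b ∈ P := hsub (by simp)
  have hc : c ∈ P := hsub (by simp)
  have hD := hP a ha b hb c hc hab hac hbc
  rw [ast_coe, hull3 hD] at h
  rw [ast_coe, int3 hD] at hemp
  simp only [Finset.mem_insert, Finset.mem_singleton]
  by_contra hn
  push Not at hn
  obtain ⟨n1, n2, n3⟩ := hn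
  have k1 := hP a ha b hb p hp hab n1.symm n2.symm
  have k2 := hP b hb c hc p hp hbc n2.symm n3.symm
  have k3 := hP c hc a ha p hp hac.symm n3.symm n1.symm
  apply hemp
  rcases h with ⟨h1, h2, h3⟩ | ⟨h1, h2, h3⟩
  · exact Or.inl ⟨lt_of_le_of_ne h1 k1.symm, lt_of_le_of_ne h2 k2.symm, lt_of_le_of_ne h3 k3.symm⟩
  · exact Or.inr ⟨lt_of_le_of_ne h1 k1, lt_of_le_of_ne h2 k2, lt_of_le_of_ne h3 k3⟩

private lemma ast_start {P : Finset Pt} (hP : GenPos P) {T : Finset (Finset Pt)}
    (hT : IsTriangulation P T) {p q : Pt} (hp : p ∈ P) (hq : q ∈ P) (hpq : p ≠ q) {x y : Pt}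
    (ht : {p, x, y} ∈ T) (hpx : p ≠ x) (hpy : p ≠ y) (hxy : x ≠ y) (hD : 0 < ori p x y) {s : ℝ}
    (hs0 : 0 < s) (hz : pt p q s ∈ convexHull ℝ ((({p, x, y} : Finset Pt) : Set Pt))) :
    s(p, q) ∈ edg T ∨ ∃ x y : Pt, {p, x, y} ∈ T ∧ Cr p q x y := by
  obtain ⟨hsub, _⟩ := hT.tri _ ht
  have hx : x ∈ P := hsub (by simp)
  have hy : y ∈ P := hsub (by simp)
  have hemp := hT.empty _ ht q hq
  rw [ast_coe, hull3 hD.ne'] at hz
  rw [ast_coe, int3 hD.ne'] at hemp
  have e1 : ori p x (pt p q s) = s * ori p x q := by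
    unfold ori pt
    ring
  have e2 : ori y p (pt p q s) = s * ori y p q := by
    unfold ori pt
    ring
  have e3 := bary_sum p x y (pt p q s)
  have h1 : 0 ≤ ori p x q ∧ 0 ≤ ori y p q := by
    rcases hz with ⟨h1, _, h3⟩ | ⟨h1, h2, h3⟩
    · rw [e1] at h1
      rw [e2] at h3
      exact ⟨nonneg_of_mul_nonneg_right h1 hs0, nonneg_of_mul_nonneg_right h3 hs0⟩
    · exfalso
      linarith
  rcases h1.1.eq_or_lt with h2 | h2
  · have : x = q := by
      by_contra hxq
      exact hP p hp x hx q hq hpx hpq hxq h2.symm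
    left
    subst this
    exact mem_edg.2 ⟨hpq, _, ht, by simp, by simp⟩
  · rcases h1.2.eq_or_lt with h3 | h3
    · have : y = q := by
        by_contra hyq
        exact hP y hy p hp q hq hpy.symm hyq hpq h3.symm
      left
      subst this
      exact mem_edg.2 ⟨hpq, _, ht, by simp, by simp⟩
    · right
      refine ⟨x, y, ht, ?_⟩
      have hqx : q ≠ x := by
        rintro rfl
        rw [ori_self_right] at h2
        exact lt_irrefl _ h2
      have hqy : q ≠ y := by
        rintro rfl
        rw [ori_self_left] at h3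
        exact lt_irrefl _ h3
      have k := hP x hx y hy q hq hxy hqx.symm hqy.symm
      have h4 : ori x y q < 0 := by
        by_contra hn
        push Not at hn
        exact hemp (Or.inl ⟨h2, lt_of_le_of_ne hn k.symm, h3⟩)
      have e4 : ori p q x = - ori p x q := ori_swap' p x q
      have e5 : ori p q y = ori y p q := (ori_cyc y p q)
      have e6 : ori x y p = ori p x y := ori_cyc p x y
      constructor
      · rw [e4, e5]
        nlinarith
      · rw [e6]
        nlinarith

lemma start {P : Finset Pt} (hP : GenPos P) {T : Finset (Finset Pt)}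
    (hT : IsTriangulation P T) {p q : Pt} (hp : p ∈ P) (hq : q ∈ P) (hpq : p ≠ q) :
    s(p, q) ∈ edg T ∨ ∃ x y : Pt, {p, x, y} ∈ T ∧ Cr p q x y := by
  obtain ⟨z, hz⟩ : ∃ z : ℕ → Pt, z = fun n : ℕ => pt p q (1 / ((n : ℝ) + 2)) :=
    ⟨_, rfl⟩
  have hlim : Tendsto z atTop (𝓝 p) := by
    have h1 : Tendsto (fun n : ℕ => 1 / ((n : ℝ) + 2)) atTop (𝓝 0) := by
      have h2 : Tendsto (fun n : ℕ => 1 / ((n : ℝ) + 1)) atTop (𝓝 0) :=
        tendsto_one_div_add_atTop_nhds_zero_nat
      have h3 := h2.comp (tendsto_add_atTop_nat 1)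
      refine h3.congr fun n => ?_
      simp only [Function.comp_apply]
      push_cast
      congr 1
      ring
    have h4 : Continuous (fun s : ℝ => pt p q s) := by
      unfold pt
      fun_prop
    have h5 := (h4.tendsto 0).comp h1
    have h6 : pt p q 0 = p := by
      unfold pt
      ext <;> simp
    rw [h6] at h5
    rw [hz]
    exact h5
  have hs : ∀ n : ℕ, 0 < 1 / ((n : ℝ) + 2) ∧ 1 / ((n : ℝ) + 2) ≤ 1 := by
    intro n
    have hn : (0 : ℝ) ≤ n := Nat.cast_nonneg n
    refine ⟨by positivity, ?_⟩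
    rw [div_le_one (by positivity)]
    linarith
  have hmem : ∀ n, ∃ t ∈ T, z n ∈ convexHull ℝ (t : Set Pt) := by
    intro n
    have h1 : z n ∈ convexHull ℝ (P : Set Pt) := by
      have h2 := (convex_convexHull ℝ (P : Set Pt)) (subset_convexHull ℝ _ hp)
        (subset_convexHull ℝ _ hq) (show (0 : ℝ) ≤ 1 - 1 / ((n : ℝ) + 2) by linarith [(hs n).2])
        (hs n).1.le (by ring)
      have h3 : z n = (1 - 1 / ((n : ℝ) + 2)) • p + (1 / ((n : ℝ) + 2)) • q := by
        rw [hz]
        unfold pt
        ext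
        · simp only [Prod.fst_add, Prod.smul_fst, smul_eq_mul]
          ring
        · simp only [Prod.snd_add, Prod.smul_snd, smul_eq_mul]
          ring
      rw [h3]
      exact h2
    rw [← hT.cover] at h1
    simpa only [Set.mem_iUnion, exists_prop] using h1
  obtain ⟨t, ht, hfr⟩ : ∃ t ∈ T, ∃ᶠ n in atTop, z n ∈ convexHull ℝ (t : Set Pt) := by
    by_contra hcon
    push Not at hcon
    have h1 : ∀ᶠ n in atTop, ∀ t ∈ T, z n ∉ convexHull ℝ (t : Set Pt) := by
      rw [Filter.eventually_all_finset]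
      intro t ht
      exact hcon t ht
    obtain ⟨n, hn⟩ := h1.exists
    obtain ⟨t, ht, h2⟩ := hmem n
    exact hn t ht h2
  have hclosed : IsClosed (convexHull ℝ (t : Set Pt)) :=
    (Finset.finite_toSet t).isClosed_convexHull ℝ
  have hpt : p ∈ convexHull ℝ (t : Set Pt) := hclosed.mem_of_frequently_of_tendsto hfr hlim
  obtain ⟨hsub, hcard⟩ := hT.tri t ht
  obtain ⟨x, y, hpx, hpy, hxy, rfl⟩ := ast_mem hcard (ast_vertex hP hT ht hp hpt)
  have hx : x ∈ P := hsub (by simp)
  have hy : y ∈ P := hsub (by simp)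
  obtain ⟨n, hn⟩ := hfr.exists
  rw [hz] at hn
  rcases lt_or_gt_of_ne (hP p hp x hx y hy hpx hpy hxy) with hD | hD
  · have e1 : ({p, x, y} : Finset Pt) = {p, y, x} := by rw [Finset.pair_comm]
    rw [e1] at ht hn
    exact ast_start hP hT hp hq hpq ht hpy hpx hxy.symm (by rw [ori_swap' p x y]; linarith)
      (hs n).1 hn
  · exact ast_start hP hT hp hq hpq ht hpx hpy hxy hD (hs n).1 hn

private lemma ast_pos (A B : ℝ) (hA : 0 < A) : ∀ᶠ ε in 𝓝[>] (0 : ℝ), 0 < A + ε * B := by
  have h1 : Tendsto (fun ε : ℝ => A + ε * B) (𝓝 0) (𝓝 (A + 0 * B)) :=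
    (by fun_prop : Continuous fun ε : ℝ => A + ε * B).tendsto 0
  have h2 : 0 < A + 0 * B := by linarith
  exact (h1.eventually (lt_mem_nhds h2)).filter_mono nhdsWithin_le_nhds

/-- two triangles with crossing sides have a common inner point -/
private lemma ast_common {p q x r s y : Pt} (h : Cr p q r s) (h1 : 0 < ori p q x)
    (h2 : 0 < ori r s y) : ∃ z, InI p q x z ∧ InI r s y z := by
  obtain ⟨ha0, ha1, b, hb0, hb1, ho⟩ := Cr_pt h
  obtain ⟨a, had⟩ : ∃ a, a = tau p q s(r, s) := ⟨_, rfl⟩
  rw [← had] at ha0 ha1 ho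
  obtain ⟨K, hK⟩ : ∃ K, K = ori r s q - ori r s p := ⟨_, rfl⟩
  have hK0 : K ≠ 0 := by
    intro h0
    have := h.2
    have h3 : ori r s q = ori r s p := by linarith
    rw [h3] at this
    nlinarith [mul_self_nonneg (ori r s p)]
  obtain ⟨o, hod⟩ : ∃ o, o = pt p q a := ⟨_, rfl⟩
  obtain ⟨d, hd⟩ : ∃ d : Pt, d = (K * ((q.1 - p.1) - (s.1 - r.1)), K * ((q.2 - p.2) - (s.2 - r.2))) :=
    ⟨_, rfl⟩
  have hev := ((ast_pos ((1 - a) * ori p q x) ((x.1 - q.1) * d.2 - (x.2 - q.2) * d.1)
      (mul_pos (by linarith) h1)).and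
    ((ast_pos (a * ori p q x) ((p.1 - x.1) * d.2 - (p.2 - x.2) * d.1) (mul_pos ha0 h1)).and
    ((ast_pos ((1 - b) * ori r s y) ((y.1 - s.1) * d.2 - (y.2 - s.2) * d.1)
      (mul_pos (by linarith) h2)).and
    ((ast_pos (b * ori r s y) ((r.1 - y.1) * d.2 - (r.2 - y.2) * d.1) (mul_pos hb0 h2)).and
    (self_mem_nhdsWithin : ∀ᶠ ε in 𝓝[>] (0 : ℝ), ε ∈ Set.Ioi (0 : ℝ))))))
  obtain ⟨ε, g1, g2, g3, g4, hε⟩ := hev.exists
  have hε0 : 0 < ε := hε
  have hKK : 0 < K * K := mul_self_pos.2 hK0
  refine ⟨(o.1 + ε * d.1, o.2 + ε * d.2), Or.inl ⟨?_, ?_, ?_⟩, Or.inl ⟨?_, ?_, ?_⟩⟩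
  · have e : ori p q (o.1 + ε * d.1, o.2 + ε * d.2) = ε * (K * K) := by
      rw [hd, hod]
      have e2 : K = (s.1 - r.1) * (q.2 - p.2) - (s.2 - r.2) * (q.1 - p.1) := by
        rw [hK]
        unfold ori
        ring
      have e3 : ori p q ((pt p q a).1 + ε * (K * ((q.1 - p.1) - (s.1 - r.1))),
          (pt p q a).2 + ε * (K * ((q.2 - p.2) - (s.2 - r.2)))) =
          ε * (K * ((s.1 - r.1) * (q.2 - p.2) - (s.2 - r.2) * (q.1 - p.1))) := by
        unfold ori pt
        ring
      rw [e3, ← e2]
    rw [e]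
    positivity
  · have e : ori q x (o.1 + ε * d.1, o.2 + ε * d.2) = (1 - a) * ori p q x +
        ε * ((x.1 - q.1) * d.2 - (x.2 - q.2) * d.1) := by
      rw [hod]
      unfold ori pt
      ring
    rw [e]
    exact g1
  · have e : ori x p (o.1 + ε * d.1, o.2 + ε * d.2) = a * ori p q x +
        ε * ((p.1 - x.1) * d.2 - (p.2 - x.2) * d.1) := by
      rw [hod]
      unfold ori pt
      ring
    rw [e]
    exact g2
  · have e : ori r s (o.1 + ε * d.1, o.2 + ε * d.2) = ε * (K * K) := by
      rw [hd, hod, ho]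
      have e2 : K = (s.1 - r.1) * (q.2 - p.2) - (s.2 - r.2) * (q.1 - p.1) := by
        rw [hK]
        unfold ori
        ring
      have e3 : ori r s ((pt r s b).1 + ε * (K * ((q.1 - p.1) - (s.1 - r.1))),
          (pt r s b).2 + ε * (K * ((q.2 - p.2) - (s.2 - r.2)))) =
          ε * (K * ((s.1 - r.1) * (q.2 - p.2) - (s.2 - r.2) * (q.1 - p.1))) := by
        unfold ori pt
        ring
      rw [e3, ← e2]
    rw [e]
    positivity
  · have e : ori s y (o.1 + ε * d.1, o.2 + ε * d.2) = (1 - b) * ori r s y +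
        ε * ((y.1 - s.1) * d.2 - (y.2 - s.2) * d.1) := by
      rw [hod, ho]
      unfold ori pt
      ring
    rw [e]
    exact g3
  · have e : ori y r (o.1 + ε * d.1, o.2 + ε * d.2) = b * ori r s y +
        ε * ((r.1 - y.1) * d.2 - (r.2 - y.2) * d.1) := by
      rw [hod, ho]
      unfold ori pt
      ring
    rw [e]
    exact g4

private lemma ast_pair {p q x : Pt} : ({p, q, x} : Finset Pt) = {q, p, x} := by
  ext z
  simp only [Finset.mem_insert, Finset.mem_singleton]
  tauto

lemma plane_edg {P : Finset Pt} (hP : GenPos P) {T : Finset (Finset Pt)}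
    (hT : IsTriangulation P T) : Plane (edg T) := by
  rintro e he f hf ⟨p, q, r, s, rfl, rfl, hc⟩
  obtain ⟨hpq, t, ht, hpt, hqt⟩ := mem_edg.1 he
  obtain ⟨hrs, t', ht', hrt, hst⟩ := mem_edg.1 hf
  obtain ⟨hsub, hcard⟩ := hT.tri t ht
  obtain ⟨hsub', hcard'⟩ := hT.tri t' ht'
  have hpr : p ≠ r := by
    rintro rfl
    have := hc.1
    rw [ori_self_left] at this
    simp at this
  have hps : p ≠ s := by
    rintro rfl
    have := hc.1
    rw [ori_self_left] at this
    simp at this
  have hqr : q ≠ r := by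
    rintro rfl
    have := hc.1
    rw [ori_self_right] at this
    simp at this
  have hqs : q ≠ s := by
    rintro rfl
    have := hc.1
    rw [ori_self_right] at this
    simp at this
  have hne : t ≠ t' := by
    rintro rfl
    have h4 : ({p, q, r, s} : Finset Pt).card = 4 := by
      rw [Finset.card_insert_of_notMem, Finset.card_insert_of_notMem,
        Finset.card_insert_of_notMem, Finset.card_singleton]
      · simpa using hrs
      · simp [hqr, hqs]
      · simp [hpq, hpr, hps]
    have h5 : ({p, q, r, s} : Finset Pt) ⊆ t := by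
      intro z hz
      simp only [Finset.mem_insert, Finset.mem_singleton] at hz
      rcases hz with rfl | rfl | rfl | rfl <;> assumption
    have := Finset.card_le_card h5
    omega
  obtain ⟨x, hpx, hqx, rfl⟩ := ast_mem2 hcard hpt hqt hpq
  obtain ⟨y, hry, hsy, rfl⟩ := ast_mem2 hcard' hrt hst hrs
  have hp : p ∈ P := hsub (by simp)
  have hq : q ∈ P := hsub (by simp)
  have hx : x ∈ P := hsub (by simp)
  have hr : r ∈ P := hsub' (by simp)
  have hs : s ∈ P := hsub' (by simp)
  have hy : y ∈ P := hsub' (by simp)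
  have hD := hP p hp q hq x hx hpq hpx hqx
  have hD' := hP r hr s hs y hy hrs hry hsy
  have hdis := hT.disj _ ht _ ht' hne
  rw [ast_coe, ast_coe, int3 hD, int3 hD'] at hdis
  have hcom : ∃ z, InI p q x z ∧ InI r s y z := by
    have hswap : ∀ {a b c z : Pt}, InI b a c z → InI a b c z := by
      intro a b c z h
      have e1 : ori a b z = - ori b a z := ori_swap b a z
      have e2 : ori b c z = - ori c b z := ori_swap c b z
      have e3 : ori c a z = - ori a c z := ori_swap a c z
      rcases h with ⟨h1, h2, h3⟩ | ⟨h1, h2, h3⟩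
      · right
        refine ⟨by linarith, by linarith, by linarith⟩
      · left
        refine ⟨by linarith, by linarith, by linarith⟩
    rcases lt_or_gt_of_ne hD with h1 | h1 <;> rcases lt_or_gt_of_ne hD' with h2 | h2
    · obtain ⟨z, hz1, hz2⟩ := ast_common (x := x) (y := y) hc.swap_left.swap_right
        (by rw [ori_swap p q x]; linarith) (by rw [ori_swap r s y]; linarith)
      exact ⟨z, hswap hz1, hswap hz2⟩
    · obtain ⟨z, hz1, hz2⟩ := ast_common (x := x) (y := y) hc.swap_left
        (by rw [ori_swap p q x]; linarith) h2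
      exact ⟨z, hswap hz1, hz2⟩
    · obtain ⟨z, hz1, hz2⟩ := ast_common (x := x) (y := y) hc.swap_right
        h1 (by rw [ori_swap r s y]; linarith)
      exact ⟨z, hz1, hswap hz2⟩
    · exact ast_common hc h1 h2
  obtain ⟨z, hz1, hz2⟩ := hcom
  exact Set.disjoint_left.1 hdis hz1 hz2

theorem tri_edg {P : Finset Pt} (hP : GenPos P) {T : Finset (Finset Pt)}
    (hT : IsTriangulation P T) : Tri P (edg T) := by
  refine ⟨?_, plane_edg hP hT, ?_⟩
  · intro e
    induction e using Sym2.ind with
    | _ x y =>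
      intro he
      obtain ⟨hxy, t, ht, hxt, hyt⟩ := mem_edg.1 he
      obtain ⟨hsub, _⟩ := hT.tri t ht
      exact mem_Seg.2 ⟨hsub hxt, hsub hyt, hxy⟩
  · intro e
    induction e using Sym2.ind with
    | _ p q =>
      intro he hno
      obtain ⟨hp, hq, hpq⟩ := mem_Seg.1 he
      rcases start hP hT hp hq hpq with h | ⟨x, y, ht, hc⟩
      · exact h
      · exfalso
        have hxy : x ≠ y := by
          rintro rfl
          have := hc.2
          rw [ori_self_same] at this
          simp at this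
        exact hno s(x, y) (mem_edg.2 ⟨hxy, _, ht, by simp, by simp⟩) (SCr_mk.2 hc)

end F059
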