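import Pool.Agent.Lib.F059.ASide
import Pool.Agent.Lib.F059.ACmp
import Pool.Agent.Lib.F059.APos
import Pool.Agent.Lib.F059.APrinc
import Pool.Agent.Lib.F059.AFace

/-!
# MP_f059c0_co, layer A, module AStep (2 h): ties cannot all occur

`A, B` triangulations, `mu > 0` the largest crossing number of an edge of `A`.  Suppose that every
maximal edge is a tie (`TieAll`).  We derive a contradiction.

**step**: `a b c` empty triangle with sides in `A`, `N B s(a,b) = mu`, tie, `g ∈ B` crosses `a b`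
and `a c`, and `mu < 2 (pre B a b (tau a b g) + 1)`.  Then `N B s(a,c) = mu` and
`pre B a c (tau a c g) = pre B a b (tau a b g)`.
Proof: `p = cut B a b c >= pre + 1 > mu / 2` (`pre_cut`); with `q = cut B b a c`,
`r = cut B c a b`, `thr B c a b = 0`: `mu = p + q` (`side`), `N(bc) = q + r <= mu`, so `r <= p`,
`N(ac) = p + r <= mu`, so `r <= q < p`; the tie `r = q ∨ r = p` gives `r = q` and `N(ac) = p + q = mu`.
The second statement is `pre_eq`.

**odd_false** (`mu = 2m+1`).  Let `N B s(a0,b0) = mu`, `s(a0,b0) ∈ A`; `exists_pos` with `k = m` gives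
`g = s(w,w1) ∈ B` crossing it with `pre = m`.  Let `S` be the finite set of all `e ∈ A` such that
`N B e = mu`, `SCr e g` and there are `a, b` with `e = s(a,b)`, `pre B a b (tau a b g) = m` (then
also `pre B b a (tau b a g) = m` by `n_split`).  `S` is nonempty; choose `e ∈ S` with
`tau w w1 e` minimal, `e = s(a,b)`.  `w ≠ a, b` (crossing), `local_side` (triangulation `A`, edge
`s(a,b)`, point `w`): `c` with `ET P A a b c`, `c` and `w` on the same side.  `thr B c a b = 0`
(TieAll), so `c ∉ g`, and by `exitP` `g` crosses `a c` or `b c`.  If it crosses `a c`: `step`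
(`2(m+1) > mu`): `N B s(a,c) = mu`, `pre B a c (tau a c g) = m`, so `s(a,c) ∈ S`, and `closer`:
`tau w w1 s(a,c) < tau w w1 s(a,b)`, contradiction.  If it crosses `b c`: the same with `a` and `b`
exchanged (`ET.swap`; TieAll and the hypotheses are symmetric).

**even_false** (`mu = 2m`, `m >= 1`).  `N B s(a0,b0) = mu`; `exists_pos` with `k = m-1` and `k = m`:
`g`, `g'`; `pre_lt`: `g` before `g'`; `pre_succ` + `face`: `g = s(w,w1)`, `g' = s(w,w2)`,
`ET P B w w1 w2`.  Call a pair `(a,b)` middle if `s(a,b) ∈ A`, `N B s(a,b) = mu`, both `s(w,w1)`,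
`s(w,w2)` cross `a b`, and
`pre B a b (tau a b s(w,w1)) + 1 = m ∧ pre B a b (tau a b s(w,w2)) = m`.
By `n_split`, `(a,b)` is middle iff `pre B b a (tau b a s(w,w2)) + 1 = m` and
`pre B b a (tau b a s(w,w1)) = m` (and the rest).  Let `S` be the set of `e ∈ A` of the form
`s(a,b)` with `(a,b)` middle; choose `e ∈ S` with `tau w w1 e` minimal, `(a,b)` middle.
`local_side`: `c` on the side of `w`, `ET P A a b c`; `thr B c a b = 0`; so `c` is not an end of the
two edges; each crosses `a c` or `b c` (`exitP`).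
 * `s(w,w1)` crosses `a c`, `s(w,w2)` crosses `b c`: `princ`, contradiction.
 * `s(w,w1)` crosses `b c`, `s(w,w2)` crosses `a c`: `ord` (with `g := s(w,w2)`, `h := s(w,w1)`)
   gives `tau a b s(w,w2) < tau a b s(w,w1)`; but `pre_lt` gives the opposite: contradiction.
 * both cross `a c`: `step` for `g := s(w,w2)` (`2(m+1) > 2m`): `N B s(a,c) = mu`,
   `pre B a c (tau a c s(w,w2)) = m`; `pre_eq` for `s(w,w1)`; so `(a,c)` is middle;
   `closer` gives `tau w w1 s(a,c) < tau w w1 s(a,b)`: contradiction.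
 * both cross `b c`: exchange `a` and `b` : `step` for the triangle `b a c` and `g := s(w,w1)`
   (`pre B b a (tau b a s(w,w1)) = m`): `N B s(b,c) = mu`, positions in `b c` seen from `b` are
   `m` and `m-1`, so seen from `c` `(c,b)` is middle (`n_split`); `closer`: contradiction.
-/

namespace F059

/-- every edge of `A` with crossing number `mu` is a tie -/
def TieAll (P : Finset Pt) (A B : Finset (Sym2 Pt)) (mu : ℕ) : Prop :=
  ∀ a b c : Pt, ET P A a b c → N B s(a, b) = mu →
    thr B c a b = 0 ∧ (cut B c a b = cut B b a c ∨ cut B c a b = cut B a b c)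

lemma step {P : Finset Pt} (hP : GenPos P) {A B : Finset (Sym2 Pt)} (hB : Tri P B) {mu : ℕ}
    (hmax : ∀ e ∈ A, N B e ≤ mu) (hmu : 0 < mu) (hT : TieAll P A B mu) {a b c : Pt}
    (hE : ET P A a b c) (hN : N B s(a, b) = mu) {g : Sym2 Pt} (hg : g ∈ B)
    (h1 : SCr s(a, b) g) (h2 : SCr s(a, c) g) (hlt : mu < 2 * (pre B a b (tau a b g) + 1)) :
    N B s(a, c) = mu ∧ pre B a c (tau a c g) = pre B a b (tau a b g) := by
  have hac : s(a, c) ∈ A := by rw [Sym2.eq_swap]; exact hE.ca
  have m1 : N B s(a, c) ≤ mu := hmax _ hac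
  have m2 : N B s(b, c) ≤ mu := hmax _ hE.bc
  obtain ⟨s1, s2, s3, s4, s5, s6, s7, s8⟩ := side hP hB hE (by rw [hN]; exact m1)
    (by rw [hN]; exact m2) (by rw [hN]; exact hmu)
  have hpc := pre_cut hP hB.1 hB.2.1 hE.ha hE.hb hE.hc hE.em hg h1 h2
  obtain ⟨t1, t2⟩ := hT a b c hE hN
  refine ⟨?_, (pre_eq hP hB.1 hB.2.1 hE.ha hE.hb hE.hc hE.em hg h1 h2).symm⟩
  rcases t2 with t2 | t2 <;> omega

/-- one move of the descent -/
lemma step_closer {P : Finset Pt} (hP : GenPos P) {A B : Finset (Sym2 Pt)} (hB : Tri P B) {m : ℕ}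
    (hmax : ∀ e ∈ A, N B e ≤ 2 * m + 1) (hT : TieAll P A B (2 * m + 1)) {a b c w w1 : Pt}
    (hE : ET P A a b c) (hN : N B s(a, b) = 2 * m + 1) (hg : s(w, w1) ∈ B)
    (h1 : SCr s(a, b) s(w, w1)) (h2 : SCr s(a, c) s(w, w1))
    (hm : pre B a b (tau a b s(w, w1)) = m) (hs : 0 < ori a b c * ori a b w) :
    s(a, c) ∈ A ∧ N B s(a, c) = 2 * m + 1 ∧ pre B a c (tau a c s(w, w1)) = m ∧
      tau w w1 s(a, c) < tau w w1 s(a, b) := by
  have hac : s(a, c) ∈ A := by rw [Sym2.eq_swap]; exact hE.ca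
  obtain ⟨k1, k2⟩ := step hP hB hmax (by omega) hT hE hN hg h1 h2 (by omega)
  exact ⟨hac, k1, by rw [k2, hm], closer (SCr_mk.1 h1) (SCr_mk.1 h2) hs⟩

lemma thr_not_mem {B : Finset (Sym2 Pt)} {c a b : Pt} (h : thr B c a b = 0) {g : Sym2 Pt}
    (hg : g ∈ B) (h1 : SCr s(a, b) g) : c ∉ g := by
  classical
  intro hc
  unfold thr at h
  rw [Finset.card_eq_zero] at h
  have : g ∈ (∅ : Finset (Sym2 Pt)) := by
    rw [← h, Finset.mem_filter]
    exact ⟨hg, hc, h1⟩
  simp at this

lemma odd_false {P : Finset Pt} (hP : GenPos P) {A B : Finset (Sym2 Pt)} (hA : Tri P A)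
    (hB : Tri P B) {m : ℕ} (hmax : ∀ e ∈ A, N B e ≤ 2 * m + 1) (hT : TieAll P A B (2 * m + 1))
    {e : Sym2 Pt} (he : e ∈ A) (hN : N B e = 2 * m + 1) : False := by
  classical
  induction e using Sym2.ind with
  | _ a0 b0 =>
  obtain ⟨g, hg, hcr, hpre⟩ := exists_pos hP hB.1 hB.2.1 (a := a0) (b := b0) (k := m)
    (by rw [hN]; omega)
  induction g using Sym2.ind with
  | _ w w1 =>
  have hw : w ∈ P := (mem_Seg.1 (hB.1 hg)).1
  set S : Finset (Sym2 Pt) := A.filter (fun e => N B e = 2 * m + 1 ∧ SCr e s(w, w1) ∧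
    ∃ a b, e = s(a, b) ∧ pre B a b (tau a b s(w, w1)) = m) with hS
  have hne : S.Nonempty := ⟨s(a0, b0), by
    rw [hS, Finset.mem_filter]
    exact ⟨he, hN, hcr, a0, b0, rfl, hpre⟩⟩
  obtain ⟨e, heS, hmin⟩ := Finset.exists_min_image S (fun e => tau w w1 e) hne
  rw [hS, Finset.mem_filter] at heS
  obtain ⟨heA, heN, hec, a, b, rfl, hab⟩ := heS
  have hba : pre B b a (tau b a s(w, w1)) = m := by
    have := n_split hP hB.1 hB.2.1 hg hec
    rw [heN, hab] at this
    omega
  have hCr := SCr_mk.1 hec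
  have hwa : w ≠ a := by
    rintro rfl
    have := hCr.1
    rw [ori_self_left, zero_mul] at this
    exact lt_irrefl _ this
  have hwb : w ≠ b := by
    rintro rfl
    have := hCr.1
    rw [ori_self_right, zero_mul] at this
    exact lt_irrefl _ this
  obtain ⟨c, hE, hs⟩ := local_side hP hA heA hw hwa hwb
  obtain ⟨t1, _⟩ := hT a b c hE heN
  have hcg := thr_not_mem t1 hg hec
  rcases exitP hP hE.ha hE.hb hE.hc hE.em (hB.1 hg) hec with h | h | h
  · exact hcg h
  · obtain ⟨k1, k2, k3, k4⟩ := step_closer hP hB hmax hT hE heN hg hec h hab hs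
    have := hmin s(a, c) (by
      rw [hS, Finset.mem_filter]
      exact ⟨k1, k2, h, a, c, rfl, k3⟩)
    exact absurd k4 (not_lt.2 this)
  · have hs' : 0 < ori b a c * ori b a w := by
      rw [ori_swap a b c, ori_swap a b w, neg_mul_neg]; exact hs
    have hN' : N B s(b, a) = 2 * m + 1 := by rw [Sym2.eq_swap]; exact heN
    obtain ⟨k1, k2, k3, k4⟩ := step_closer hP hB hmax hT hE.swap hN' hg hec.swap_left h hba hs'
    have := hmin s(b, c) (by
      rw [hS, Finset.mem_filter]
      exact ⟨k1, k2, h, b, c, rfl, k3⟩)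
    rw [show s(b, a) = s(a, b) from Sym2.eq_swap] at k4
    exact absurd k4 (not_lt.2 this)

end F059
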