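import Pool.Agent.Lib.F059.AExit
import Pool.Agent.Lib.F059.ASegs

/-!
# MP_f059c0_co, layer A, module ASweep (2.5 h): a visible point behind the first obstacle

`A` is a triangulation (maximal plane set) of `P`, `a, p` points of `P`, `s(u,v)` in `A` is the
edge crossing `a p` closest to `a`, `u` is to the right and `v` to the left of the directed
line `a p`.  Then there is `w` in `P` with `s(a,w)` in `A`, `ori a p w > 0`, `ori a w v >= 0`
(the direction of `w` is between the directions of `p` (excluded) and `v` (included)).

Proof.  Let `x = pt a p t0`, `t0 = tau a p s(u,v)`, the crossing point (`Cr_pt`): `x` is an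
inner point of `a p` and of `u v`.
`W = {w ∈ P | 0 < ori a p w, 0 <= ori a w v, 0 <= ori u v a * ori u v w}` (points of the closed
triangle `a x v` not on the side `a x`).  `v ∈ W`.  Choose `w ∈ W` for which
`kappa w = <w - a, p - a> / ori a p w` (cotangent of the angle) is maximal
(`Finset.exists_max_image`).  Identity
`<w-a,p-a> * ori a p w' - <w'-a,p-a> * ori a p w = |p-a|^2 * ori a w w'` shows
`ori a w w' >= 0` for all `w' ∈ W` (smallest angle).
Claim: no edge of `A` crosses `a w`; then `s(a,w) ∈ A` by maximality (third part of `Tri`).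
Suppose `g = s(u',v') ∈ A` crosses `a w`, with `ori a w u' < 0 < ori a w v'` (exchange names).
Let `T = ori u v a / (ori u v a - ori u v w)`; note `ori u v a ≠ 0`, `ori u v w` has the same
sign as `ori u v a` or is `0`, and `|ori u v w| < |ori u v a|`?  This last inequality holds
because `w` is strictly closer to the line `u v` than `a`: `w = a + al (x - a) + be (v - a)` with
`al, be >= 0`, `(al, be) ≠ (0,0)` (Cramer: `cramer`, from `0 < ori a p w`, `0 <= ori a w v`,
`0 < ori a p v`), so `ori u v w = (1 - al - be) ori u v a`, `al + be > 0`.  So `T >= 1` and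
`x'' = pt a w T` lies on the line `u v`, between `x` (excluded) and `v` (included):
`x'' - a = T (al (x-a) + be (v-a))` with `T (al + be) = 1`, so
`x'' = (1 - T be) x + (T be) v`, `0 < T be <= 1` (`be > 0` because `0 < ori a p w`).
The triangle `a x'' x` is nondegenerate; `g` crosses `a x''` (because it crosses the part `a w`,
`Cr_sub` with `w = pt a x'' (1/T)`, `a = pt a x'' 0`).  `v'` is not in the closed triangle
`a x'' x`: all its points `q` satisfy `ori a w q <= 0`.  `u'` is not in it: a point `q` of the
closed triangle satisfies `ori a p q >= 0`, `ori a w q <= 0`, and is weakly on the side of `a` of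
the line `u v`.  If `u'` were such: `ori a p u' = 0` is impossible (general position: `u'` would
be `a` or `p`; `a`: `ori a w a = 0` but `ori a w u' < 0`; `p` is strictly on the other side of
`u v`), so `ori a p u' > 0`; `ori a u' v >= 0` since the angle of `u'` is smaller than that
of `w` (Cramer or nlinarith from `ori a p u' > 0`, `ori a w u' < 0`, `ori a w v >= 0`,
`ori a p w > 0`, `ori a p v > 0`); so `u' ∈ W` and `ori a w u' < 0` contradicts the choice of `w`.
By `exitR` (triangle `a x'' x`, segment `u' v'`):
* `Cr a x u' v'`: then `g` crosses `a p` (`Cr_sub`) with `tau a p g < t0` (`tau_lt`: `ori u' v'`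
  has opposite signs at `a` and `x = pt a p t0`): contradiction to the choice of `s(u,v)`.
* `Cr x'' x u' v'`: then `s(u,v)` and `g` cross (`Cr_sub`, `x, x''` are points of the segment
  `u v`): contradiction to planarity.
* `x` is an inner point of `u' v'` and of `u v`: `meet` gives a crossing, unless
  `s(u,v) = s(u',v')`; but `g` crosses `a w`, and `a`, `w` are weakly on the same side of `u v`:
  contradiction.
-/

namespace F059

namespace ASweepAux

lemma id0 (a p u v : Pt) : ori u v a - ori u v p = ori a p v - ori a p u := by
  unfold ori; ring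

lemma tmpl (a p u v r s : Pt) :
    ori a p v * ori r s u - ori a p u * ori r s v
      = ori u v a * ori r s p - ori u v p * ori r s a := by
  unfold ori; ring

lemma pluck (a p w u v : Pt) :
    ori a p w * ori u v a = ori a p u * ori a w v - ori a p v * ori a w u := by
  unfold ori; ring

lemma pluck' (a p w u v : Pt) :
    ori a p w * ori a u v = ori a p u * ori a w v - ori a p v * ori a w u := by
  unfold ori; ring

lemma dotid (a p w w' : Pt) :
    ((w.1 - a.1) * (p.1 - a.1) + (w.2 - a.2) * (p.2 - a.2)) * ori a p w'
      - ((w'.1 - a.1) * (p.1 - a.1) + (w'.2 - a.2) * (p.2 - a.2)) * ori a p w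
      = ((p.1 - a.1) ^ 2 + (p.2 - a.2) ^ 2) * ori a w w' := by
  unfold ori; ring

lemma core {P : Finset Pt} (hP : GenPos P) {A : Finset (Sym2 Pt)} (hA : Tri P A)
    {a p u v : Pt} (ha : a ∈ P) (hp : p ∈ P) (hf : s(u, v) ∈ A)
    (hcr : Cr a p u v)
    (hmin : ∀ g ∈ A, SCr s(a, p) g → tau a p s(u, v) ≤ tau a p g)
    (hv : 0 < ori a p v) (hu : ori a p u < 0) (hUa : 0 < ori u v a) (hUp : ori u v p < 0)
    {w : Pt} (hw1 : 0 < ori a p w) (hw2 : 0 ≤ ori a w v) (hw3 : 0 ≤ ori u v w)
    (hstar : ∀ w' ∈ P, 0 < ori a p w' → 0 ≤ ori a w' v → 0 ≤ ori u v w' → 0 ≤ ori a w w')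
    {u' v' : Pt} (hg : s(u', v') ∈ A) (hc : Cr a w u' v') (h1 : ori a w u' < 0)
    (h2 : 0 < ori a w v') : False := by
  have hplane := hA.2.1
  have hu'P : u' ∈ P := (mem_Seg.1 (hA.1 hg)).1
  -- signs of G
  have i1 := id0 a w u' v'
  have hGa : 0 < ori u' v' a := by
    by_contra hcon
    push Not at hcon
    nlinarith [hc.2]
  have hGw : ori u' v' w < 0 := by
    by_contra hcon
    push Not at hcon
    nlinarith [hc.2, mul_nonneg hGa.le hcon]
  -- the position of the crossing point of the segments a w and u' v'
  have hY : 0 < ori a w v' * ori u v u' - ori a w u' * ori u v v' := by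
    rw [tmpl a w u' v' u v]
    have e1 : 0 ≤ ori u' v' a * ori u v w := mul_nonneg hGa.le hw3
    have e2 : 0 < -(ori u' v' w) * ori u v a := mul_pos (by linarith) hUa
    linarith
  have hI := pluck a p w u' v'
  have hI0 : 0 < ori a p w * ori u' v' a := mul_pos hw1 hGa
  rcases lt_or_ge (ori a p u') 0 with hα | hα
  · -- u' to the right of a p
    have hαv' : 0 < ori a p v' := by
      by_contra hcon
      push Not at hcon
      have e1 : ori a p u' * ori a w v' < 0 := mul_neg_of_neg_of_pos hα h2
      have e2 : 0 ≤ ori a p v' * ori a w u' := mul_nonneg_of_nonpos_of_nonpos hcon h1.le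
      linarith
    have hX := tmpl a p u' v' u v
    rcases lt_or_ge 0 (ori u v a * ori u' v' p - ori u v p * ori u' v' a) with hXp | hXn
    · -- crosses u v
      have hGv : ori u' v' v < 0 := by
        by_contra hcon
        push Not at hcon
        have e1 := cramer a p v w u' v'
        have e2 := cramer a p v w u v
        have e3 : ori u v v = 0 := ori_self_right u v
        rw [e3] at e2
        have e4 : ori a p v * (ori u v a * ori u' v' w - ori u' v' a * ori u v w) =
            ori a w v * (ori u v a * ori u' v' p - ori u v p * ori u' v' a) +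
            ori a p w * ori u v a * ori u' v' v := by
          linear_combination (ori u v a) * e1 - (ori u' v' a) * e2
        have e5 : 0 ≤ ori a w v * (ori u v a * ori u' v' p - ori u v p * ori u' v' a) :=
          mul_nonneg hw2 hXp.le
        have e6 : 0 ≤ ori a p w * ori u v a * ori u' v' v :=
          mul_nonneg (mul_pos hw1 hUa).le hcon
        have e7 : ori u v a * ori u' v' w - ori u' v' a * ori u v w < 0 := by
          have := mul_neg_of_pos_of_neg hUa hGw
          have := mul_nonneg hGa.le hw3
          linarith
        have e8 := mul_neg_of_pos_of_neg hv e7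
        linarith
      have hGu : 0 < ori u' v' u := by
        by_contra hcon
        push Not at hcon
        have e1 := tmpl a p u v u' v'
        have e2 : ori a p v * ori u' v' u ≤ 0 := mul_nonpos_of_nonneg_of_nonpos hv.le hcon
        have e3 : 0 < ori a p u * ori u' v' v := mul_pos_of_neg_of_neg hu hGv
        linarith
      have hUU : ori u v u' * ori u v v' < 0 := by
        by_contra hcon
        push Not at hcon
        have e0 : ori a p v' * ori u v u' - ori a p u' * ori u v v' < 0 := by linarith
        rcases lt_or_ge (ori u v u') 0 with k1 | k1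
        · have k2 : ori u v v' ≤ 0 := by
            by_contra k3
            push Not at k3
            have := mul_neg_of_neg_of_pos k1 k3
            linarith
          have e1 : ori a w v' * ori u v u' < 0 := mul_neg_of_pos_of_neg h2 k1
          have e2 : 0 ≤ ori a w u' * ori u v v' := mul_nonneg_of_nonpos_of_nonpos h1.le k2
          linarith
        · have k2 : ori u v v' < 0 := by
            by_contra k3
            push Not at k3
            have e1 : 0 ≤ ori a p v' * ori u v u' := mul_nonneg hαv'.le k1
            have e2 : ori a p u' * ori u v v' ≤ 0 := mul_nonpos_of_nonpos_of_nonneg hα.le k3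
            linarith
          rcases k1.lt_or_eq with k1 | k1
          · have := mul_neg_of_pos_of_neg k1 k2
            linarith
          · rw [← k1] at hY
            have e2 : 0 < ori a w u' * ori u v v' := mul_pos_of_neg_of_neg h1 k2
            linarith
      exact hplane _ hf _ hg (SCr_mk.2 ⟨hUU, mul_neg_of_pos_of_neg hGu hGv⟩)
    · -- crosses a p
      have hGp : ori u' v' p < 0 := by
        by_contra hcon
        push Not at hcon
        have e1 : 0 ≤ ori u v a * ori u' v' p := mul_nonneg hUa.le hcon
        have e2 : ori u v p * ori u' v' a < 0 := mul_neg_of_neg_of_pos hUp hGa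
        linarith
      have hcr' : Cr a p u' v' := ⟨mul_neg_of_neg_of_pos hα hαv', mul_neg_of_pos_of_neg hGa hGp⟩
      have ht := hmin _ hg (SCr_mk.2 hcr')
      have hd1 : 0 < ori u v a - ori u v p := by linarith
      have hd2 : 0 < ori u' v' a - ori u' v' p := by linarith
      rcases hXn.lt_or_eq with hXn | hXn
      · rw [tau_mk, tau_mk, div_le_div_iff₀ hd1 hd2] at ht
        nlinarith
      · have hteq : tau a p s(u, v) = tau a p s(u', v') := by
          rw [tau_mk, tau_mk, div_eq_div_iff hd1.ne' hd2.ne']
          linarith
        have heq := tau_inj hP (hA.1 hf) (hA.1 hg) (hplane _ hf _ hg) (SCr_mk.2 hcr)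
          (SCr_mk.2 hcr') hteq
        rw [Sym2.eq_iff] at heq
        rcases heq with ⟨rfl, rfl⟩ | ⟨rfl, rfl⟩
        · linarith
        · have := ori_swap u v a
          linarith
  · rcases lt_or_ge (ori u v u') 0 with hβ | hβ
    · -- u' behind the line u v
      have hUv' : 0 < ori u v v' := by
        by_contra hcon
        push Not at hcon
        have e1 : ori a w v' * ori u v u' < 0 := mul_neg_of_pos_of_neg h2 hβ
        have e2 : 0 ≤ ori a w u' * ori u v v' := mul_nonneg_of_nonpos_of_nonpos h1.le hcon
        linarith
      have hfu : ori a w u < 0 := by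
        by_contra hcon
        push Not at hcon
        have e0 := pluck a p w u v
        have e1 : ori a p u * ori a w v ≤ 0 := mul_nonpos_of_nonpos_of_nonneg hu.le hw2
        have e2 : 0 ≤ ori a p v * ori a w u := mul_nonneg hv.le hcon
        have e3 : 0 < ori a p w * ori u v a := mul_pos hw1 hUa
        linarith
      have e9 := id0 u v u' v'
      -- e9 : ori u' v' u - ori u' v' v = ori u v v' - ori u v u'
      have t1 := tmpl u v u' v' a p
      have t2 := tmpl u v u' v' a w
      -- positivity of the function ori a p at the crossing with the line u v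
      have q1 : 0 < ori u v v' * ori a p u' - ori u v u' * ori a p v' := by
        have r1 : -(ori a w u') * (ori u v v' * ori a p u' - ori u v u' * ori a p v') =
            (ori a w v' * ori u v u' - ori a w u' * ori u v v') * ori a p u' -
            ori u v u' * (ori a p u' * ori a w v' - ori a p v' * ori a w u') := by ring
        have r2 : 0 ≤ (ori a w v' * ori u v u' - ori a w u' * ori u v v') * ori a p u' :=
          mul_nonneg hY.le hα
        have r3 : 0 < -(ori u v u') * (ori a p u' * ori a w v' - ori a p v' * ori a w u') :=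
          mul_pos (by linarith) (by linarith)
        by_contra hcon
        push Not at hcon
        have r4 : -(ori a w u') * (ori u v v' * ori a p u' - ori u v u' * ori a p v') ≤ 0 :=
          mul_nonpos_of_nonneg_of_nonpos (by linarith) hcon
        linarith
      have q2 : ori u v v' * ori a w u' - ori u v u' * ori a w v' < 0 := by linarith
      have hGu : 0 < ori u' v' u := by
        by_contra hcon
        push Not at hcon
        have r1 : ori u' v' v < 0 := by linarith
        have r2 : ori u' v' u * ori a p v ≤ 0 := mul_nonpos_of_nonpos_of_nonneg hcon hv.le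
        have r3 : 0 < ori u' v' v * ori a p u := mul_pos_of_neg_of_neg r1 hu
        linarith
      have hGv : ori u' v' v < 0 := by
        by_contra hcon
        push Not at hcon
        have r2 : 0 ≤ ori u' v' u * ori a w v := mul_nonneg hGu.le hw2
        have r3 : ori u' v' v * ori a w u ≤ 0 := mul_nonpos_of_nonneg_of_nonpos hcon hfu.le
        linarith
      exact hplane _ hf _ hg (SCr_mk.2 ⟨mul_neg_of_neg_of_pos hβ hUv',
        mul_neg_of_pos_of_neg hGu hGv⟩)
    · -- u' in the closed triangle
      rcases hα.lt_or_eq with hα | hα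
      · have e0 := pluck' a p w u' v
        have e1 : 0 ≤ ori a p u' * ori a w v := mul_nonneg hα.le hw2
        have e2 : ori a p v * ori a w u' < 0 := mul_neg_of_pos_of_neg hv h1
        have e3 : 0 ≤ ori a u' v := by
          by_contra hcon
          push Not at hcon
          have := mul_neg_of_pos_of_neg hw1 hcon
          linarith
        have := hstar u' hu'P hα e3 hβ
        linarith
      · -- on the line a p
        have hap : a ≠ p := by
          rintro rfl
          rw [ori_self_same] at hv
          exact lt_irrefl _ hv
        by_cases k1 : u' = a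
        · rw [k1, ori_self_left] at h1
          exact lt_irrefl _ h1
        by_cases k2 : u' = p
        · rw [k2] at hβ
          linarith
        exact hP a ha p hp u' hu'P hap (Ne.symm k1) (Ne.symm k2) hα.symm

end ASweepAux

open ASweepAux in
lemma sweep {P : Finset Pt} (hP : GenPos P) {A : Finset (Sym2 Pt)} (hA : Tri P A)
    {a p u v : Pt} (ha : a ∈ P) (hp : p ∈ P) (hf : s(u, v) ∈ A) (hcr : Cr a p u v)
    (hmin : ∀ g ∈ A, SCr s(a, p) g → tau a p s(u, v) ≤ tau a p g)
    (hv : 0 < ori a p v) :
    ∃ w ∈ P, s(a, w) ∈ A ∧ 0 < ori a p w ∧ 0 ≤ ori a w v := by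
  classical
  have hu : ori a p u < 0 := by
    by_contra hcon
    push Not at hcon
    nlinarith [hcr.1, mul_nonneg hcon hv.le]
  have i0 := id0 a p u v
  have hUa : 0 < ori u v a := by
    by_contra hcon
    push Not at hcon
    nlinarith [hcr.2]
  have hUp : ori u v p < 0 := by
    by_contra hcon
    push Not at hcon
    nlinarith [hcr.2, mul_nonneg hUa.le hcon]
  have hvP : v ∈ P := (mem_Seg.1 (hA.1 hf)).2.1
  have hap : a ≠ p := by
    rintro rfl
    rw [ori_self_same] at hv
    exact lt_irrefl _ hv
  have hnorm : 0 < (p.1 - a.1) ^ 2 + (p.2 - a.2) ^ 2 := by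
    by_contra hcon
    push Not at hcon
    have k1 : (p.1 - a.1) ^ 2 = 0 := by nlinarith [sq_nonneg (p.1 - a.1), sq_nonneg (p.2 - a.2)]
    have k2 : (p.2 - a.2) ^ 2 = 0 := by nlinarith [sq_nonneg (p.1 - a.1), sq_nonneg (p.2 - a.2)]
    apply hap
    have k3 := pow_eq_zero_iff (two_ne_zero) |>.1 k1
    have k4 := pow_eq_zero_iff (two_ne_zero) |>.1 k2
    exact Prod.ext (by linarith) (by linarith)
  obtain ⟨w, hwW, hmax⟩ := Finset.exists_max_image
    (P.filter fun w => 0 < ori a p w ∧ 0 ≤ ori a w v ∧ 0 ≤ ori u v w)
    (fun w => ((w.1 - a.1) * (p.1 - a.1) + (w.2 - a.2) * (p.2 - a.2)) / ori a p w)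
    ⟨v, Finset.mem_filter.2 ⟨hvP, hv, by rw [ori_self_right], by rw [ori_self_right]⟩⟩
  obtain ⟨hwP, hw1, hw2, hw3⟩ := Finset.mem_filter.1 hwW
  have hstar : ∀ w' ∈ P, 0 < ori a p w' → 0 ≤ ori a w' v → 0 ≤ ori u v w' →
      0 ≤ ori a w w' := by
    intro w' hw' k1 k2 k3
    have k4 := hmax w' (Finset.mem_filter.2 ⟨hw', k1, k2, k3⟩)
    rw [div_le_div_iff₀ k1 hw1] at k4
    have k5 := dotid a p w w'
    by_contra hcon
    push Not at hcon
    have := mul_neg_of_pos_of_neg hnorm hcon
    linarith
  have hwa : a ≠ w := by
    rintro rfl
    rw [ori_self_left] at hw1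
    exact lt_irrefl _ hw1
  refine ⟨w, hwP, ?_, hw1, hw2⟩
  refine hA.2.2 _ (mem_Seg.2 ⟨ha, hwP, hwa⟩) ?_
  intro f hfA hcrw
  induction f using Sym2.ind with
  | _ u' v' =>
    rw [SCr_mk] at hcrw
    rcases lt_or_ge (ori a w u') 0 with k1 | k1
    · have k2 : 0 < ori a w v' := by
        by_contra hcon
        push Not at hcon
        have := mul_nonneg_of_nonpos_of_nonpos k1.le hcon
        linarith [hcrw.1]
      exact core hP hA ha hp hf hcr hmin hv hu hUa hUp hw1 hw2 hw3 hstar hfA hcrw k1 k2
    · have k2 : ori a w v' < 0 := by
        by_contra hcon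
        push Not at hcon
        have := mul_nonneg k1 hcon
        linarith [hcrw.1]
      have k3 : 0 < ori a w u' := by
        rcases k1.lt_or_eq with k1 | k1
        · exact k1
        · have := hcrw.1
          rw [← k1, zero_mul] at this
          exact absurd this (lt_irrefl _)
      exact core hP hA ha hp hf hcr hmin hv hu hUa hUp hw1 hw2 hw3 hstar
        (by rw [Sym2.eq_swap]; exact hfA) hcrw.swap_right k2 k3

end F059
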