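import Pool.Agent.Lib.F059.HullNbr

/-!
# F059D.Adj: non-crossing matchings of points in convex position

`exists_match`: existence of a non-crossing perfect matching of a finite set of even size.  PROOF.
Induction on the size: order the points lexicographically (first x, then y coordinate), match the two
smallest points a < b, and use the induction hypothesis for the rest.  The segment a b crosses no segment
r s with r, s > b: a common point of the open segments is (lexicographically) ≤ b and > b.  (For points c in the open segment between p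
and q: min ≤ c ≤ max lexicographically: lexicographic order is preserved under convex combinations.)
Or: take a perfect matching of minimal total length.

`exists_adj`: S in convex position (all points extreme in S), coloured with two colours (T, ¬T), both
used.  There are x ∈ T, y ∉ T with all other points of S strictly on one (the left) side of x → y.
PROOF.  Take a pair x, y with x ∈ T ↔ y ∉ T (differently coloured, in either order: T x ≠ T y) such that the number of points strictly on the right
of x → y is minimal.  Suppose c ∈ S is on the right: ori x y c < 0.  If c has the colour of x consider the pair (c,y), else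
(x,c).  Points a on the right of c → y are on the right of x → y: otherwise a ≠ x (x is on the left of c → y:
ori c y x = -ori x y c > 0), a ≠ y, so a is strictly on the left of x → y, ori x y a > 0, and then
y is inside the triangle x c a: ori x c y > 0, ori c a y = -ori c y a > 0, ori a x y = ori x y a > 0:
contradicts `Ext.not_inside`.  c itself is not on the right of c → y.  Similarly for (x,c) (mirror image).
So the number of points on the right is smaller: contradiction.  Hence no point is strictly on the right; general position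
gives strictly on the left.  Orientation: the statement only says that the pair is (x,y) with T x ≠ T y.

`swap_nc`: x, y adjacent (all other points of S on the left of x → y), not partners.  The matching with x y, x' y'
(x' = Mt x, y' = Mt y) instead of x x', y y' is non-crossing again.  PROOF.  x y crosses nothing (all points are weakly on the
left).  Let c c' be another chord, c, c' ∉ {x,y,x',y'}; suppose c c' crosses x' y'.  In convex position
(`cross_sides` below: if a chord does not cross c c' then its ends are on the same side of c c' (all four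
ends different) : x, x' are on the same side of the line c c', y, y' are on the same side, and x, y are on the same side, since otherwise
c, c' are on different sides of x y by convex position).  So x', y' are on the same side of c c': no crossing.
The chord x'y' versus x y: no crossing since x y is adjacent.
-/

namespace F059

/-- if the first coordinates of `a`, `b` are at most those of `r`, `s`, the segments do not cross -/
lemma not_cr_of_le {a b r s : Pt} (h1 : a.1 ≤ r.1) (h2 : a.1 ≤ s.1) (h3 : b.1 ≤ r.1)
    (h4 : b.1 ≤ s.1) : ¬ Cr a b r s := by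
  rintro ⟨hA, hB⟩
  set D1 := ori r s a with hD1
  set D2 := ori r s b with hD2
  set d1 := ori a b r with hd1
  set d2 := ori a b s with hd2
  have hid : D1 * b.1 - D2 * a.1 = d2 * r.1 - d1 * s.1 := by
    rw [hD1, hD2, hd1, hd2]; unfold ori; ring
  have hid2 : D1 - D2 = d2 - d1 := by
    rw [hD1, hD2, hd1, hd2]; unfold ori; ring
  have key : ∀ m : ℝ, d2 * (r.1 - m) + (-d1) * (s.1 - m) + D1 * (m - b.1) + (-D2) * (m - a.1) = 0 := by
    intro m; linear_combination hid.symm + (-m) * hid2.symm
  have hm : ∃ m : ℝ, a.1 ≤ m ∧ b.1 ≤ m ∧ m ≤ r.1 ∧ m ≤ s.1 :=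
    ⟨max a.1 b.1, le_max_left _ _, le_max_right _ _, max_le h1 h3, max_le h2 h4⟩
  obtain ⟨m, m1, m2, m3, m4⟩ := hm
  have hk := key m
  have hall : r.1 = m ∧ a.1 = m ∧ b.1 = m := by
    rcases lt_trichotomy D1 0 with h | h | h
    · have hD2' : 0 < D2 := by nlinarith
      have hdd : d2 < d1 := by linarith
      have hd1' : 0 < d1 := by
        by_contra hc
        push Not at hc
        nlinarith
      have hd2' : d2 < 0 := by nlinarith
      have t1 : 0 ≤ (-d2) * (r.1 - m) := mul_nonneg (by linarith) (by linarith)
      have t2 : 0 ≤ d1 * (s.1 - m) := mul_nonneg (by linarith) (by linarith)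
      have t3 : 0 ≤ (-D1) * (m - b.1) := mul_nonneg (by linarith) (by linarith)
      have t4 : 0 ≤ D2 * (m - a.1) := mul_nonneg (by linarith) (by linarith)
      have e1 : (-d2) * (r.1 - m) = 0 := by linarith
      have e3 : (-D1) * (m - b.1) = 0 := by linarith
      have e4 : D2 * (m - a.1) = 0 := by linarith
      have f1 := (mul_eq_zero.1 e1).resolve_left (by linarith)
      have f3 := (mul_eq_zero.1 e3).resolve_left (by linarith)
      have f4 := (mul_eq_zero.1 e4).resolve_left (by linarith)
      exact ⟨by linarith, by linarith, by linarith⟩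
    · rw [h] at hB; simp at hB
    · have hD2' : D2 < 0 := by nlinarith
      have hdd : d1 < d2 := by linarith
      have hd2' : 0 < d2 := by
        by_contra hc
        push Not at hc
        nlinarith
      have hd1' : d1 < 0 := by nlinarith
      have t1 : 0 ≤ d2 * (r.1 - m) := mul_nonneg (by linarith) (by linarith)
      have t2 : 0 ≤ (-d1) * (s.1 - m) := mul_nonneg (by linarith) (by linarith)
      have t3 : 0 ≤ D1 * (m - b.1) := mul_nonneg (by linarith) (by linarith)
      have t4 : 0 ≤ (-D2) * (m - a.1) := mul_nonneg (by linarith) (by linarith)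
      have e1 : d2 * (r.1 - m) = 0 := by linarith
      have e3 : D1 * (m - b.1) = 0 := by linarith
      have e4 : (-D2) * (m - a.1) = 0 := by linarith
      have f1 := (mul_eq_zero.1 e1).resolve_left (by linarith)
      have f3 := (mul_eq_zero.1 e3).resolve_left (by linarith)
      have f4 := (mul_eq_zero.1 e4).resolve_left (by linarith)
      exact ⟨by linarith, by linarith, by linarith⟩
  obtain ⟨hr, ha, hb⟩ := hall
  have h0 : d1 = 0 := by
    rw [hd1]; unfold ori; rw [hr, ha, hb]; ring
  rw [h0] at hA
  simp at hA

lemma not_cr_self {a b : Pt} : ¬ Cr a b a b := by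
  rintro ⟨h, -⟩
  have : ori a b a = 0 := by unfold ori; ring
  rw [this] at h; simp at h

lemma not_cr_self' {a b : Pt} : ¬ Cr a b b a := by
  intro h
  exact not_cr_self h.swap_right

theorem exists_match (S : Finset Pt) (he : Even S.card) :
    ∃ Mt : Pt → Pt, (∀ s ∈ S, Mt s ∈ S ∧ Mt s ≠ s ∧ Mt (Mt s) = s) ∧
      ∀ s ∈ S, ∀ t ∈ S, ¬ Cr s (Mt s) t (Mt t) := by
  classical
  obtain ⟨k, hk⟩ := he
  induction k generalizing S with
  | zero =>
    have : S = ∅ := Finset.card_eq_zero.1 (by omega)
    subst this
    exact ⟨id, by simp, by simp⟩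
  | succ k ih =>
    have hne : S.Nonempty := Finset.card_pos.1 (by omega)
    obtain ⟨a, haS, hamin⟩ := Finset.exists_min_image S (fun p => p.1) hne
    have hne2 : (S.erase a).Nonempty := Finset.card_pos.1 (by
      rw [Finset.card_erase_of_mem haS]; omega)
    obtain ⟨b, hbS', hbmin⟩ := Finset.exists_min_image (S.erase a) (fun p => p.1) hne2
    have hbS : b ∈ S := Finset.mem_of_mem_erase hbS'
    have hba : b ≠ a := Finset.ne_of_mem_erase hbS'
    set S' := (S.erase a).erase b with hS'
    have hcard : S'.card = k + k := by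
      rw [hS', Finset.card_erase_of_mem hbS', Finset.card_erase_of_mem haS]; omega
    obtain ⟨Mt, hM, hnc⟩ := ih S' hcard
    have hS'mem : ∀ s, s ∈ S' ↔ s ∈ S ∧ s ≠ a ∧ s ≠ b := by
      intro s; rw [hS']; simp only [Finset.mem_erase]; tauto
    refine ⟨fun s => if s = a then b else if s = b then a else Mt s, ?_, ?_⟩
    · intro s hs
      by_cases h1 : s = a
      · subst h1
        simp [hbS, hba]
      · by_cases h2 : s = b
        · subst h2
          simp [haS, hba, hba.symm]
        · have hs' : s ∈ S' := (hS'mem s).2 ⟨hs, h1, h2⟩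
          obtain ⟨m1, m2, m3⟩ := hM s hs'
          obtain ⟨m4, m5, m6⟩ := (hS'mem _).1 m1
          simp only [h1, h2, if_false, m5, m6]
          exact ⟨m4, m2, m3⟩
    · -- non-crossing
      have hle : ∀ r ∈ S', a.1 ≤ r.1 ∧ b.1 ≤ r.1 := by
        intro r hr
        obtain ⟨r1, r2, r3⟩ := (hS'mem r).1 hr
        exact ⟨hamin r r1, hbmin r (Finset.mem_erase.2 ⟨r2, r1⟩)⟩
      have hab : ∀ r ∈ S', ¬ Cr a b r (Mt r) := by
        intro r hr
        have := hle r hr
        have h2 := hle _ (hM r hr).1
        exact not_cr_of_le this.1 h2.1 this.2 h2.2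
      have hab2 : ∀ r ∈ S', ¬ Cr b a r (Mt r) := fun r hr h => hab r hr h.swap_left
      intro s hs t ht
      by_cases s1 : s = a
      · by_cases t1 : t = a
        · simp only [s1, t1, if_true]; exact not_cr_self
        · by_cases t2 : t = b
          · simp only [s1, t2, if_true, hba, if_false]; exact not_cr_self'
          · simp only [s1, t1, t2, if_true, if_false]
            exact hab t ((hS'mem t).2 ⟨ht, t1, t2⟩)
      · by_cases s2 : s = b
        · by_cases t1 : t = a
          · simp only [s2, t1, if_true, hba, if_false]; exact not_cr_self'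
          · by_cases t2 : t = b
            · simp only [s2, t2, if_true, hba, if_false]; exact not_cr_self
            · simp only [s2, t1, t2, if_true, if_false, hba]
              exact hab2 t ((hS'mem t).2 ⟨ht, t1, t2⟩)
        · have hs' : s ∈ S' := (hS'mem s).2 ⟨hs, s1, s2⟩
          by_cases t1 : t = a
          · simp only [s1, s2, t1, if_true, if_false]
            exact fun h => hab s hs' h.symm
          · by_cases t2 : t = b
            · simp only [s1, s2, t2, if_true, if_false, hba]
              exact fun h => hab2 s hs' h.symm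
            · simp only [s1, s2, t1, t2, if_false]
              exact hnc s hs' t ((hS'mem t).2 ⟨ht, t1, t2⟩)

/-- four points in convex position: `t`, `t'` on different sides of the line `d d'` implies that
the segments cross -/
theorem cross_of_sides_aux {S : Finset Pt} (hgp : GenPos S) (hext : ∀ s ∈ S, Ext S s)
    {d d' t t' : Pt} (hd : d ∈ S) (hd' : d' ∈ S) (ht : t ∈ S) (ht' : t' ∈ S)
    (h1 : ori d d' t < 0) (h2 : 0 < ori d d' t') : Cr d d' t t' := by
  have n1 : d ≠ d' := by
    rintro rfl
    have : ori d d t = 0 := by unfold ori; ring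
    linarith
  have n2 : t ≠ d := by
    rintro rfl
    have : ori t d' t = 0 := by unfold ori; ring
    linarith
  have n3 : t ≠ d' := by
    rintro rfl
    have : ori d t t = 0 := by unfold ori; ring
    linarith
  have n4 : t' ≠ d := by
    rintro rfl
    have : ori t' d' t' = 0 := by unfold ori; ring
    linarith
  have n5 : t' ≠ d' := by
    rintro rfl
    have : ori d t' t' = 0 := by unfold ori; ring
    linarith
  have n6 : t ≠ t' := by
    rintro rfl
    linarith
  have g1 := hgp t ht t' ht' d hd n6 n2 n4
  have g2 := hgp t ht t' ht' d' hd' n6 n3 n5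
  refine ⟨mul_neg_of_neg_of_pos h1 h2, ?_⟩
  rcases lt_or_gt_of_ne g1 with a1 | a1
  · rcases lt_or_gt_of_ne g2 with a2 | a2
    · exfalso
      refine (hext d hd).not_inside ht' ht hd' (y := d) (a := t') (b := t) (c := d') ?_ ?_ ?_
      · rw [ori_swap]; linarith
      · have : ori t d' d = - ori d d' t := by unfold ori; ring
        linarith
      · have : ori d' t' d = ori d d' t' := by unfold ori; ring
        linarith
    · exact mul_neg_of_neg_of_pos a1 a2
  · rcases lt_or_gt_of_ne g2 with a2 | a2
    · exact mul_neg_of_pos_of_neg a1 a2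
    · exfalso
      refine (hext d' hd').not_inside ht ht' hd (y := d') (a := t) (b := t') (c := d) ?_ ?_ ?_
      · exact a2
      · have : ori t' d d' = ori d d' t' := by unfold ori; ring
        linarith
      · have : ori d t d' = - ori d d' t := by unfold ori; ring
        linarith

theorem exists_adj {S : Finset Pt} (hgp : GenPos S) (hext : ∀ s ∈ S, Ext S s) (T : Pt → Prop)
    {x0 y0 : Pt} (hx0 : x0 ∈ S) (hT : T x0) (hy0 : y0 ∈ S) (hy : ¬ T y0) :
    ∃ x ∈ S, ∃ y ∈ S, ((T x ∧ ¬ T y) ∨ (¬ T x ∧ T y)) ∧
      ∀ q ∈ S, q ≠ x → q ≠ y → 0 < ori x y q := by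
  classical
  set Z : Finset (Pt × Pt) :=
    (S ×ˢ S).filter (fun p => (T p.1 ∧ ¬ T p.2) ∨ (¬ T p.1 ∧ T p.2)) with hZ
  have hZne : Z.Nonempty := ⟨(x0, y0), by
    rw [hZ]; simp [hx0, hy0, hT, hy]⟩
  obtain ⟨⟨x, y⟩, hxy, hmin⟩ := Finset.exists_min_image Z
    (fun p => (S.filter (fun q => ori p.1 p.2 q < 0)).card) hZne
  have hmem : ∀ p : Pt × Pt, p ∈ Z ↔ (p.1 ∈ S ∧ p.2 ∈ S) ∧
      ((T p.1 ∧ ¬ T p.2) ∨ (¬ T p.1 ∧ T p.2)) := by
    intro p; rw [hZ]; simp only [Finset.mem_filter, Finset.mem_product]
  obtain ⟨⟨hx, hy'⟩, hc⟩ := (hmem _).1 hxy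
  simp only at hx hy' hc
  have hne : x ≠ y := by
    rintro rfl
    tauto
  refine ⟨x, hx, y, hy', hc, ?_⟩
  intro q hq hqx hqy
  by_contra hneg
  have hlt : ori x y q < 0 := by
    have := hgp x hx y hy' q hq hne hqx.symm hqy.symm
    rcases lt_or_gt_of_ne this with h | h
    · exact h
    · exact absurd h hneg
  -- two cases
  by_cases hcol : (T q ↔ T x)
  · have hqZ : (q, y) ∈ Z := by
      rw [hmem]; refine ⟨⟨hq, hy'⟩, ?_⟩
      simp only; tauto
    have hle := hmin _ hqZ
    simp only at hle
    have hss : S.filter (fun a => ori q y a < 0) ⊂ S.filter (fun a => ori x y a < 0) := by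
      rw [Finset.ssubset_iff_of_subset]
      · refine ⟨q, by simp [hq, hlt], ?_⟩
        simp only [Finset.mem_filter, not_and, not_lt]
        intro _
        have : ori q y q = 0 := by unfold ori; ring
        linarith
      · intro a ha
        simp only [Finset.mem_filter] at ha ⊢
        refine ⟨ha.1, ?_⟩
        by_contra hna
        have hay : a ≠ y := by
          rintro rfl
          have : ori q a a = 0 := by unfold ori; ring
          linarith [ha.2]
        have hax : a ≠ x := by
          rintro rfl
          have : ori q y a = - ori a y q := by unfold ori; ring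
          linarith [ha.2]
        have hpos : 0 < ori x y a := by
          have := hgp x hx y hy' a ha.1 hne hax.symm hay.symm
          rcases lt_or_gt_of_ne this with h | h
          · exact absurd h hna
          · exact h
        refine (hext y hy').not_inside hx hq ha.1 (y := y) (a := x) (b := q) (c := a) ?_ ?_ ?_
        · have : ori x q y = - ori x y q := by unfold ori; ring
          linarith
        · have : ori q a y = - ori q y a := by unfold ori; ring
          linarith [ha.2]
        · have : ori a x y = ori x y a := by unfold ori; ring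
          linarith
    have := Finset.card_lt_card hss
    omega
  · have hqZ : (x, q) ∈ Z := by
      rw [hmem]; refine ⟨⟨hx, hq⟩, ?_⟩
      simp only; tauto
    have hle := hmin _ hqZ
    simp only at hle
    have hss : S.filter (fun a => ori x q a < 0) ⊂ S.filter (fun a => ori x y a < 0) := by
      rw [Finset.ssubset_iff_of_subset]
      · refine ⟨q, by simp [hq, hlt], ?_⟩
        simp only [Finset.mem_filter, not_and, not_lt]
        intro _
        have : ori x q q = 0 := by unfold ori; ring
        linarith
      · intro a ha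
        simp only [Finset.mem_filter] at ha ⊢
        refine ⟨ha.1, ?_⟩
        by_contra hna
        have hax : a ≠ x := by
          rintro rfl
          have : ori a q a = 0 := by unfold ori; ring
          linarith [ha.2]
        have hay : a ≠ y := by
          rintro rfl
          have : ori x q a = - ori x a q := by unfold ori; ring
          linarith [ha.2]
        have hpos : 0 < ori x y a := by
          have := hgp x hx y hy' a ha.1 hne hax.symm hay.symm
          rcases lt_or_gt_of_ne this with h | h
          · exact absurd h hna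
          · exact h
        refine (hext x hx).not_inside hq hy' ha.1 (y := x) (a := q) (b := y) (c := a) ?_ ?_ ?_
        · have : ori q y x = - ori x y q := by unfold ori; ring
          linarith
        · have : ori y a x = ori x y a := by unfold ori; ring
          linarith
        · have : ori a q x = - ori x q a := by unfold ori; ring
          linarith [ha.2]
    have := Finset.card_lt_card hss
    omega

theorem swap_nc {S : Finset Pt} (hgp : GenPos S) (hext : ∀ s ∈ S, Ext S s) (Mt : Pt → Pt)
    (hM : ∀ s ∈ S, Mt s ∈ S ∧ Mt s ≠ s ∧ Mt (Mt s) = s)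
    (hnc : ∀ s ∈ S, ∀ t ∈ S, ¬ Cr s (Mt s) t (Mt t)) {x y : Pt} (hx : x ∈ S) (hy : y ∈ S)
    (hxy : x ≠ y) (hxy' : Mt x ≠ y) (hadj : ∀ q ∈ S, q ≠ x → q ≠ y → 0 < ori x y q) :
    ∃ Mt' : Pt → Pt, (∀ s ∈ S, Mt' s ∈ S ∧ Mt' s ≠ s ∧ Mt' (Mt' s) = s) ∧
      (∀ s ∈ S, ∀ t ∈ S, ¬ Cr s (Mt' s) t (Mt' t)) ∧
      Mt' x = y ∧ Mt' y = x ∧ Mt' (Mt x) = Mt y ∧ Mt' (Mt y) = Mt x ∧
      ∀ d, d ≠ x → d ≠ y → d ≠ Mt x → d ≠ Mt y → Mt' d = Mt d := by
  classical
  obtain ⟨hx'S, hx'x, hxx⟩ := hM x hx
  obtain ⟨hy'S, hy'y, hyy⟩ := hM y hy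
  set x' := Mt x with hx'
  set y' := Mt y with hy'
  have n1 : y' ≠ x := by
    intro h
    apply hxy'
    rw [← hyy, h]
  have n2 : x' ≠ y' := by
    intro h
    apply hxy
    rw [← hxx, h, hyy]
  set Mt' : Pt → Pt := fun d => if d = x then y else if d = y then x else if d = x' then y'
    else if d = y' then x' else Mt d with hMt'
  have e1 : Mt' x = y := by simp [hMt']
  have e2 : Mt' y = x := by simp [hMt', hxy.symm]
  have e3 : Mt' x' = y' := by simp [hMt', hx'x, hxy']
  have e4 : Mt' y' = x' := by simp [hMt', n1, hy'y, n2.symm]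
  have e5 : ∀ d, d ≠ x → d ≠ y → d ≠ x' → d ≠ y' → Mt' d = Mt d := by
    intro d h1 h2 h3 h4
    simp [hMt', h1, h2, h3, h4]
  -- cases for an element
  have hcase : ∀ d, d = x ∨ d = y ∨ d = x' ∨ d = y' ∨ (d ≠ x ∧ d ≠ y ∧ d ≠ x' ∧ d ≠ y') := by
    intro d; tauto
  have hoth : ∀ d ∈ S, d ≠ x → d ≠ y → d ≠ x' → d ≠ y' →
      Mt d ≠ x ∧ Mt d ≠ y ∧ Mt d ≠ x' ∧ Mt d ≠ y' := by
    intro d hd h1 h2 h3 h4
    have hdd := (hM d hd).2.2
    refine ⟨?_, ?_, ?_, ?_⟩
    · intro h; apply h3; rw [← hdd, h]
    · intro h; apply h4; rw [← hdd, h]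
    · intro h; apply h1; rw [← hdd, h, hxx]
    · intro h; apply h2; rw [← hdd, h, hyy]
  -- chord x y crosses nothing
  have hxyge : ∀ q ∈ S, 0 ≤ ori x y q := by
    intro q hq
    by_cases h1 : q = x
    · subst h1
      have : ori q y q = 0 := by unfold ori; ring
      linarith
    · by_cases h2 : q = y
      · subst h2
        have : ori x q q = 0 := by unfold ori; ring
        linarith
      · exact (hadj q hq h1 h2).le
  have hxyc : ∀ c ∈ S, ∀ c' ∈ S, ¬ Cr x y c c' := by
    rintro c hc c' hc' ⟨h, -⟩
    have := mul_nonneg (hxyge c hc) (hxyge c' hc')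
    linarith
  -- same side lemma
  have hside : ∀ c ∈ S, c ≠ x → c ≠ y → c ≠ x' → c ≠ y' → ∀ u ∈ S, u ≠ c → u ≠ Mt c →
      0 < ori c (Mt c) u * ori c (Mt c) (Mt u) := by
    intro c hc _ _ _ _ u hu huc huc'
    obtain ⟨c1, c2, c3⟩ := hM c hc
    obtain ⟨u1, u2, u3⟩ := hM u hu
    have hu'c : Mt u ≠ c := by
      intro h; apply huc'; rw [← u3, h]
    have hu'c' : Mt u ≠ Mt c := by
      intro h; apply huc; rw [← u3, h, c3]
    have g1 := hgp c hc (Mt c) c1 u hu c2.symm huc.symm huc'.symm
    have g2 := hgp c hc (Mt c) c1 (Mt u) u1 c2.symm hu'c.symm hu'c'.symm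
    rcases lt_or_gt_of_ne g1 with a1 | a1
    · rcases lt_or_gt_of_ne g2 with a2 | a2
      · exact mul_pos_of_neg_of_neg a1 a2
      · exact absurd (cross_of_sides_aux hgp hext hc c1 hu u1 a1 a2) (hnc c hc u hu)
    · rcases lt_or_gt_of_ne g2 with a2 | a2
      · have := cross_of_sides_aux hgp hext hc c1 u1 hu a2 a1
        exact absurd this.swap_right (hnc c hc u hu)
      · exact mul_pos a1 a2
  have hmain : ∀ c ∈ S, c ≠ x → c ≠ y → c ≠ x' → c ≠ y' → ¬ Cr c (Mt c) x' y' := by
    intro c hc h1 h2 h3 h4 hcr
    obtain ⟨c1, c2, c3⟩ := hM c hc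
    obtain ⟨o1, o2, o3, o4⟩ := hoth c hc h1 h2 h3 h4
    have s1 := hside c hc h1 h2 h3 h4 x hx h1.symm o1.symm
    have s2 := hside c hc h1 h2 h3 h4 y hy h2.symm o2.symm
    have s3 := hcr.1
    rw [← hx'] at s1
    rw [← hy'] at s2
    have s4 : ori c (Mt c) x * ori c (Mt c) y < 0 := by
      rcases lt_trichotomy (ori c (Mt c) x') 0 with a | a | a
      · have b1 : 0 < ori c (Mt c) y' := by nlinarith
        have b2 : ori c (Mt c) x < 0 := by nlinarith
        have b3 : 0 < ori c (Mt c) y := by nlinarith
        exact mul_neg_of_neg_of_pos b2 b3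
      · rw [a] at s3; simp at s3
      · have b1 : ori c (Mt c) y' < 0 := by nlinarith
        have b2 : 0 < ori c (Mt c) x := by nlinarith
        have b3 : ori c (Mt c) y < 0 := by nlinarith
        exact mul_neg_of_pos_of_neg b2 b3
    rcases lt_trichotomy (ori c (Mt c) x) 0 with a | a | a
    · have b : 0 < ori c (Mt c) y := by nlinarith
      exact hxyc c hc _ c1 (cross_of_sides_aux hgp hext hc c1 hx hy a b).symm
    · rw [a] at s4; simp at s4
    · have b : ori c (Mt c) y < 0 := by nlinarith
      exact hxyc c hc _ c1 (cross_of_sides_aux hgp hext hc c1 hy hx b a).swap_right.symm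
  have hM' : ∀ s ∈ S, Mt' s ∈ S ∧ Mt' s ≠ s ∧ Mt' (Mt' s) = s := by
    intro s hs
    rcases hcase s with h | h | h | h | ⟨h1, h2, h3, h4⟩
    · rw [h, e1, e2]; exact ⟨hy, hxy.symm, rfl⟩
    · rw [h, e2, e1]; exact ⟨hx, hxy, rfl⟩
    · rw [h, e3, e4]; exact ⟨hy'S, n2.symm, rfl⟩
    · rw [h, e4, e3]; exact ⟨hx'S, n2, rfl⟩
    · obtain ⟨o1, o2, o3, o4⟩ := hoth s hs h1 h2 h3 h4
      rw [e5 s h1 h2 h3 h4, e5 _ o1 o2 o3 o4]
      exact hM s hs
  have hxy'c : ∀ t ∈ S, ¬ Cr x' y' t (Mt' t) := by
    intro t ht
    rcases hcase t with h | h | h | h | ⟨h1, h2, h3, h4⟩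
    · rw [h, e1]; exact fun hc => hxyc _ hx'S _ hy'S hc.symm
    · rw [h, e2]; exact fun hc => hxyc _ hx'S _ hy'S hc.swap_right.symm
    · rw [h, e3]; exact not_cr_self
    · rw [h, e4]; exact not_cr_self'
    · rw [e5 t h1 h2 h3 h4]
      exact fun hc => hmain t ht h1 h2 h3 h4 hc.symm
  refine ⟨Mt', hM', ?_, e1, e2, e3, e4, e5⟩
  intro s hs t ht
  rcases hcase s with h | h | h | h | ⟨h1, h2, h3, h4⟩
  · rw [h, e1]; exact hxyc _ ht _ (hM' t ht).1
  · rw [h, e2]; exact fun hc => hxyc _ ht _ (hM' t ht).1 hc.swap_left
  · rw [h, e3]; exact hxy'c t ht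
  · rw [h, e4]; exact fun hc => hxy'c t ht hc.swap_left
  · rw [e5 s h1 h2 h3 h4]
    rcases hcase t with h | h | h | h | ⟨k1, k2, k3, k4⟩
    · rw [h, e1]; exact fun hc => hxyc _ hs _ (hM s hs).1 hc.symm
    · rw [h, e2]; exact fun hc => hxyc _ hs _ (hM s hs).1 hc.swap_right.symm
    · rw [h, e3]; exact hmain s hs h1 h2 h3 h4
    · rw [h, e4]; exact fun hc => hmain s hs h1 h2 h3 h4 hc.swap_right
    · rw [e5 t k1 k2 k3 k4]
      exact hnc s hs t ht

end F059
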