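import Pool.Agent.Lib.F059.Meet

/-!
# F059D.Cut: small openings, and the neighbourhood of the openings

`exists_smallcut`.  PROOF.  Finitely many conditions, each true for all small δ > 0 (Filter.Eventually 𝓝[>] 0, or a minimum of finitely many bounds):
zin: zc δ = z + δ (z-b), y i = z + t (z-b), so δ < t.  gin: gc = b + (1+δ)(h-b), w = b + t (h-b), 1+δ < t.
zy, zw: y k ≠ z_i (y_notin_P), w j ≠ z_i (w_notin_P): the segment [z_i, zc] shrinks to z_i (all its points have distance ≤ δ |z-b|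
from z_i).  gw': w k ∉ [b_j, h_j]: w k ≠ b_j (w_notin_P); if w k ∈ [b_j,h_j], w k ≠ b_j then for k ≠ j `ear_free` says w k ∉ gw k: contradiction; for
k = j: w j = b + t (h-b), t > 1.  [b_j,h_j] is closed, so a neighbourhood of it does not contain w k, and [b_j, gc] is
contained in it for small δ.

`gap_z`: x in the open segment (z_i, zc_i).  x ∈ openSegment z_i (y i) by zin: `free` i: x ∈ Om, ∉ stars, ∉ cw k for k < i.
k > i: x ∈ cw k, then `wall_wall` (i < k; x ∈ cw k and x ∈ cw i): x = y k, excluded by zy.  gw j: `gad_wall`: x = w j, excluded by zw.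
`gap_b`: x in (b_j, gc_j) ⊆ openSegment b_j (w j): free j.  k > j: x ∈ gw k and x ∈ gw j: `gad_gad`: x = w k excluded by gw';
or x = b_k and g j = g k, so x = b_j: not in the open segment.

`gap_z_nbhd`, `gap_b_nbhd`: all other pieces are closed and do not contain x; finitely many; the own piece is on the line.
(the point zc is on the line z b: ori z (zc) a is a positive or negative multiple of ori z b a; points a of the own piece have ori z zc a = 0.)

`YY_sub`, `XX_diff`: cw i = [z, zc] ∪ [zc, y], gw j = [b, gc] ∪ [gc, w]; z, b ∈ stars ⊆ YY (e i ∈ E, g j ∈ E), zc, gc ∈ YY.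
-/

namespace F059

open Filter Topology

variable {P : Finset Pt} {M : ℝ} {E : Finset Leaf} {m : ℕ} {e : ℕ → Leaf} {y : ℕ → Pt}
  {K : ℕ} {g : ℕ → Leaf} {h w : ℕ → Pt}

namespace CutAux

theorem isClosed_seg (a b : Pt) : IsClosed (segment ℝ a b) := by
  rw [segment_eq_image']
  exact (isCompact_Icc.image (by fun_prop)).isClosed

theorem isClosed_stars (E : Finset Leaf) : IsClosed (stars E) :=
  isClosed_biUnion_finset fun _ _ => isClosed_seg _ _

theorem mem_seg {a v x : Pt} {t : ℝ} (hx : x ∈ segment ℝ a (a + t • v)) (ht : 0 ≤ t) :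
    ∃ s, 0 ≤ s ∧ s ≤ t ∧ x = a + s • v := by
  rw [segment_eq_image'] at hx
  obtain ⟨θ, ⟨h0, h1⟩, rfl⟩ := hx
  refine ⟨θ * t, mul_nonneg h0 ht, mul_le_of_le_one_left ht h1, ?_⟩
  simp only [add_sub_cancel_left, smul_smul]

theorem seg_mem {a v : Pt} {s t : ℝ} (hs : 0 ≤ s) (hst : s ≤ t) :
    a + s • v ∈ segment ℝ a (a + t • v) := by
  rw [segment_eq_image']
  rcases eq_or_lt_of_le (hs.trans hst) with ht | ht
  · have h0 : s = 0 := le_antisymm (hst.trans ht.symm.le) hs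
    exact ⟨0, ⟨le_refl _, zero_le_one⟩, by simp [h0]⟩
  · refine ⟨s / t, ⟨div_nonneg hs ht.le, (div_le_one ht).2 hst⟩, ?_⟩
    simp only [add_sub_cancel_left, smul_smul]
    rw [div_mul_cancel₀ _ ht.ne']

theorem open_mem {a v : Pt} {s t : ℝ} (hs : 0 < s) (hst : s < t) :
    a + s • v ∈ openSegment ℝ a (a + t • v) := by
  rw [openSegment_eq_image']
  have ht : 0 < t := hs.trans hst
  refine ⟨s / t, ⟨div_pos hs ht, (div_lt_one ht).2 hst⟩, ?_⟩
  simp only [add_sub_cancel_left, smul_smul]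
  rw [div_mul_cancel₀ _ ht.ne']

theorem open_mem' {a v : Pt} {r s t : ℝ} (hs : r < s) (hst : s < t) :
    a + s • v ∈ openSegment ℝ (a + r • v) (a + t • v) := by
  have h := open_mem (a := a + r • v) (v := v) (s := s - r) (t := t - r) (by linarith)
    (by linarith)
  have e1 : a + r • v + (s - r) • v = a + s • v := by module
  have e2 : a + r • v + (t - r) • v = a + t • v := by module
  rwa [e1, e2] at h

theorem open_sub {a q c : Pt} (hq : q ∈ openSegment ℝ a c) :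
    openSegment ℝ a q ⊆ openSegment ℝ a c := by
  rw [openSegment_eq_image'] at hq
  obtain ⟨θ, ⟨h0, h1⟩, rfl⟩ := hq
  intro x hx
  rw [openSegment_eq_image'] at hx ⊢
  obtain ⟨η, ⟨h2, h3⟩, rfl⟩ := hx
  refine ⟨η * θ, ⟨mul_pos h2 h0, mul_lt_one_of_nonneg_of_lt_one_left h2.le h3 h1.le⟩, ?_⟩
  simp only [add_sub_cancel_left, smul_smul]

theorem open_sub' {a q c : Pt} (hq : q ∈ openSegment ℝ a c) :
    openSegment ℝ q c ⊆ openSegment ℝ a c := by
  rw [openSegment_symm ℝ q c, openSegment_symm ℝ a c]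
  rw [openSegment_symm] at hq
  exact open_sub hq

theorem seg_sub {a q c : Pt} (hq : q ∈ segment ℝ a c) : segment ℝ a q ⊆ segment ℝ a c :=
  (convex_segment a c).segment_subset (left_mem_segment ℝ a c) hq

theorem seg_sub' {a q c : Pt} (hq : q ∈ segment ℝ a c) : segment ℝ q c ⊆ segment ℝ a c :=
  (convex_segment a c).segment_subset hq (right_mem_segment ℝ a c)

theorem seg_split {a q c x : Pt} (hq : q ∈ segment ℝ a c) (hx : x ∈ segment ℝ a c) :
    x ∈ segment ℝ a q ∨ x ∈ segment ℝ q c := by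
  rw [segment_eq_image'] at hq hx
  obtain ⟨η, ⟨h0, h1⟩, rfl⟩ := hq
  obtain ⟨θ, ⟨h2, h3⟩, rfl⟩ := hx
  rcases le_total θ η with hle | hle
  · exact Or.inl (seg_mem h2 hle)
  · right
    have h := seg_mem (a := a + η • (c - a)) (v := c - a) (s := θ - η) (t := 1 - η)
      (by linarith) (by linarith)
    have e1 : a + η • (c - a) + (θ - η) • (c - a) = a + θ • (c - a) := by module
    have e2 : a + η • (c - a) + (1 - η) • (c - a) = c := by module
    rwa [e1, e2] at h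

theorem ev_not_mem (a v q : Pt) (hv : v ≠ 0) {t₀ : ℝ} (ht₀ : 0 ≤ t₀)
    (hq : q ∉ segment ℝ a (a + t₀ • v)) :
    ∀ᶠ δ : ℝ in 𝓝[>] 0, q ∉ segment ℝ a (a + (t₀ + δ) • v) := by
  by_cases hs : ∃ s : ℝ, t₀ < s ∧ q = a + s • v
  · obtain ⟨s, h1, rfl⟩ := hs
    have h2 : ∀ᶠ δ : ℝ in 𝓝[>] 0, δ < s - t₀ :=
      nhdsWithin_le_nhds (eventually_lt_nhds (by linarith))
    filter_upwards [h2, self_mem_nhdsWithin] with δ hδ hpos hcon
    rw [Set.mem_Ioi] at hpos
    obtain ⟨s', h3, h4, h5⟩ := mem_seg hcon (by linarith)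
    have h6 : (s - s') • v = 0 := by
      rw [sub_smul, sub_eq_zero]
      exact add_left_cancel h5
    rcases smul_eq_zero.1 h6 with h7 | h7
    · linarith
    · exact hv h7
  · filter_upwards [self_mem_nhdsWithin] with δ hpos hcon
    rw [Set.mem_Ioi] at hpos
    obtain ⟨s', h3, h4, h5⟩ := mem_seg hcon (by linarith)
    rcases le_or_gt s' t₀ with h6 | h6
    · exact hq (h5 ▸ seg_mem h3 h6)
    · exact hs ⟨s', h6, h5⟩

theorem ball_of {x : Pt} {p : Pt → Prop} (hp : ∀ᶠ a in 𝓝 x, p a) :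
    ∃ r > 0, ∀ a ∈ Metric.ball x r, p a := by
  obtain ⟨r, hr, h⟩ := Metric.eventually_nhds_iff_ball.1 hp
  exact ⟨r, hr, h⟩

end CutAux

open CutAux

/-- the line of an opening, oriented as the line of the two points of `P` -/
theorem ori_zc (δ : ℝ) (e : ℕ → Leaf) (i : ℕ) (a : Pt) :
    ori (e i).z (zc δ e i) a = - δ * ori (e i).z (e i).b a := by
  unfold ori zc
  simp only [Prod.fst_add, Prod.snd_add, Prod.smul_fst, Prod.smul_snd, Prod.fst_sub, Prod.snd_sub,
    smul_eq_mul]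
  ring

theorem ori_gc (δ : ℝ) (g : ℕ → Leaf) (h : ℕ → Pt) (j : ℕ) (a : Pt) :
    ori (g j).b (gc δ g h j) a = (1 + δ) * ori (g j).b (h j) a := by
  unfold ori gc
  simp only [Prod.fst_add, Prod.snd_add, Prod.smul_fst, Prod.smul_snd, Prod.fst_sub, Prod.snd_sub,
    smul_eq_mul]
  ring

theorem WSys.cut_z_mem (S : WSys P M E m e y K g h w) {i : ℕ} (hi : i < m) : (e i).z ∈ P :=
  (S.star.mem _ (S.walls.memE i hi)).1

theorem WSys.cut_b_mem (S : WSys P M E m e y K g h w) {j : ℕ} (hj : j < K) : (g j).b ∈ P :=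
  (S.star.mem _ (S.gads.memE j hj).1).2.1

theorem WSys.cut_h_mem (S : WSys P M E m e y K g h w) {j : ℕ} (hj : j < K) : h j ∈ P := by
  obtain ⟨h1, h2 | h2⟩ := S.gads.memE j hj
  · rw [h2]; exact (S.star.mem _ h1).2.2.1
  · rw [h2]; exact (S.star.mem _ h1).2.2.2

theorem WSys.cut_hb (S : WSys P M E m e y K g h w) {j : ℕ} (hj : j < K) : h j - (g j).b ≠ 0 := by
  obtain ⟨h1, h2⟩ := S.gads.memE j hj
  obtain ⟨-, h3, h4, -⟩ := star_ne S.star h1
  rw [sub_ne_zero]
  rcases h2 with h2 | h2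
  · rw [h2]; exact h3.symm
  · rw [h2]; exact h4.symm

theorem WSys.cut_zb (S : WSys P M E m e y K g h w) {i : ℕ} (hi : i < m) :
    (e i).z - (e i).b ≠ 0 := by
  obtain ⟨h1, -⟩ := star_ne S.star (S.walls.memE i hi)
  exact sub_ne_zero.2 h1

theorem WSys.exists_smallcut (S : WSys P M E m e y K g h w) : ∃ δ, SmallCut m e y K g h w δ := by
  have hpos : ∀ᶠ δ : ℝ in 𝓝[>] 0, 0 < δ := self_mem_nhdsWithin
  have hzin : ∀ᶠ δ : ℝ in 𝓝[>] 0, ∀ i < m, zc δ e i ∈ openSegment ℝ (e i).z (y i) := by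
    refine (eventually_all_finite (Set.finite_lt_nat m)).2 fun i hi => ?_
    obtain ⟨t, ht, hy⟩ := S.walls.ray i hi
    have h2 : ∀ᶠ δ : ℝ in 𝓝[>] 0, δ < t := nhdsWithin_le_nhds (eventually_lt_nhds ht)
    filter_upwards [hpos, h2] with δ h3 h4
    rw [hy]
    exact open_mem h3 h4
  have hgin : ∀ᶠ δ : ℝ in 𝓝[>] 0, ∀ j < K, gc δ g h j ∈ openSegment ℝ (h j) (w j) := by
    refine (eventually_all_finite (Set.finite_lt_nat K)).2 fun j hj => ?_
    obtain ⟨t, ht, hw⟩ := S.gads.ray j hj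
    have h2 : ∀ᶠ δ : ℝ in 𝓝[>] 0, δ < t - 1 :=
      nhdsWithin_le_nhds (eventually_lt_nhds (by linarith))
    filter_upwards [hpos, h2] with δ h3 h4
    have h5 := open_mem' (a := (g j).b) (v := h j - (g j).b) (r := 1) (s := 1 + δ) (t := t)
      (by linarith) (by linarith)
    rw [← hw, one_smul, add_sub_cancel] at h5
    exact h5
  have hzy : ∀ᶠ δ : ℝ in 𝓝[>] 0, ∀ i < m, ∀ k < m, y k ∉ segment ℝ (e i).z (zc δ e i) := by
    refine (eventually_all_finite (Set.finite_lt_nat m)).2 fun i hi => ?_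
    refine (eventually_all_finite (Set.finite_lt_nat m)).2 fun k hk => ?_
    have h1 : y k ≠ (e i).z := fun h0 =>
      y_notin_P S.gp S.star S.walls hk (h0 ▸ S.cut_z_mem hi)
    have h2 := ev_not_mem (e i).z ((e i).z - (e i).b) (y k) (S.cut_zb hi) (le_refl 0)
      (by rw [zero_smul, add_zero, segment_same]; exact h1)
    simp only [zero_add] at h2
    exact h2
  have hzw : ∀ᶠ δ : ℝ in 𝓝[>] 0, ∀ i < m, ∀ j < K, w j ∉ segment ℝ (e i).z (zc δ e i) := by
    refine (eventually_all_finite (Set.finite_lt_nat m)).2 fun i hi => ?_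
    refine (eventually_all_finite (Set.finite_lt_nat K)).2 fun j hj => ?_
    have h1 : w j ≠ (e i).z := fun h0 => S.w_notin_P hj (h0 ▸ S.cut_z_mem hi)
    have h2 := ev_not_mem (e i).z ((e i).z - (e i).b) (w j) (S.cut_zb hi) (le_refl 0)
      (by rw [zero_smul, add_zero, segment_same]; exact h1)
    simp only [zero_add] at h2
    exact h2
  have hgw : ∀ᶠ δ : ℝ in 𝓝[>] 0, ∀ j < K, ∀ k < K, w k ∉ segment ℝ (g j).b (gc δ g h j) := by
    refine (eventually_all_finite (Set.finite_lt_nat K)).2 fun j hj => ?_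
    refine (eventually_all_finite (Set.finite_lt_nat K)).2 fun k hk => ?_
    refine ev_not_mem (g j).b (h j - (g j).b) (w k) (S.cut_hb hj) zero_le_one ?_
    rw [one_smul, add_sub_cancel]
    intro hcon
    by_cases hkj : k = j
    · subst hkj
      obtain ⟨t, ht, hw⟩ := S.gads.ray k hj
      have h3 : w k ∈ segment ℝ (g k).b ((g k).b + (1 : ℝ) • (h k - (g k).b)) := by
        rw [one_smul, add_sub_cancel]
        exact hcon
      obtain ⟨s, h4, h5, h6⟩ := mem_seg h3 zero_le_one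
      rw [hw] at h6
      have h7 : (t - s) • (h k - (g k).b) = 0 := by
        rw [sub_smul, sub_eq_zero]
        exact add_left_cancel h6
      rcases smul_eq_zero.1 h7 with h8 | h8
      · linarith
      · exact S.cut_hb hj h8
    · have h1 : w k ≠ (g j).b := fun h0 => S.w_notin_P hk (h0 ▸ S.cut_b_mem hj)
      exact (S.ear_free hj hcon h1).2.2.2 k hk hkj (right_mem_segment ℝ _ _)
  obtain ⟨δ, h1, h2, h3, h4, h5, h6⟩ :=
    (hpos.and (hzin.and (hgin.and (hzy.and (hzw.and hgw))))).exists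
  exact ⟨δ, h1, h2, h3, h4, h5, h6⟩

theorem WSys.gap_z (S : WSys P M E m e y K g h w) {δ : ℝ} (hδ : SmallCut m e y K g h w δ) {i : ℕ}
    (hi : i < m) {x : Pt} (hx : x ∈ openSegment ℝ (e i).z (zc δ e i)) :
    x ∈ Om M ∧ x ∈ cw e y i ∧ x ∉ stars E ∧ (∀ k < m, k ≠ i → x ∉ cw e y k) ∧
      ∀ j < K, x ∉ gw g w j := by
  have hx1 : x ∈ openSegment ℝ (e i).z (y i) := open_sub (hδ.zin i hi) hx
  have hx2 : x ∈ segment ℝ (e i).z (zc δ e i) := openSegment_subset_segment ℝ _ _ hx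
  have hxi : x ∈ cw e y i := openSegment_subset_segment ℝ _ _ hx1
  obtain ⟨h1, h2, h3⟩ := S.walls.free i hi x hx1
  refine ⟨h1, hxi, h2, fun k hk hki => ?_, fun j hj hxj => ?_⟩
  · rcases lt_or_gt_of_ne hki with hlt | hlt
    · exact h3 k hlt
    · intro hxk
      have h4 := wall_wall S.gp S.star S.walls hlt hk hxk hxi
      exact hδ.zy i hi k hk (h4 ▸ hx2)
  · have h4 := S.gad_wall hj hi hxj hxi
    exact hδ.zw i hi j hj (h4 ▸ hx2)

theorem WSys.cut_gc_mem (S : WSys P M E m e y K g h w) {δ : ℝ} (hδ : SmallCut m e y K g h w δ)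
    {j : ℕ} (hj : j < K) : gc δ g h j ∈ openSegment ℝ (g j).b (w j) := by
  obtain ⟨t, ht, hw⟩ := S.gads.ray j hj
  refine open_sub' ?_ (hδ.gin j hj)
  have h1 := open_mem (a := (g j).b) (v := h j - (g j).b) zero_lt_one ht
  rw [← hw, one_smul, add_sub_cancel] at h1
  exact h1

theorem WSys.cut_gc_ne (S : WSys P M E m e y K g h w) {δ : ℝ} (hδ : SmallCut m e y K g h w δ)
    {j : ℕ} (hj : j < K) : gc δ g h j ≠ (g j).b := by
  intro h0
  unfold gc at h0
  have h1 : (1 + δ) • (h j - (g j).b) = 0 := by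
    have h2 : (g j).b + (1 + δ) • (h j - (g j).b) = (g j).b + 0 := by rw [h0, add_zero]
    exact add_left_cancel h2
  have hp := hδ.pos
  rcases smul_eq_zero.1 h1 with h8 | h8
  · linarith
  · exact S.cut_hb hj h8

theorem WSys.gap_b (S : WSys P M E m e y K g h w) {δ : ℝ} (hδ : SmallCut m e y K g h w δ) {j : ℕ}
    (hj : j < K) {x : Pt} (hx : x ∈ openSegment ℝ (g j).b (gc δ g h j)) :
    x ∈ Om M ∧ x ∈ gw g w j ∧ x ∉ stars E ∧ (∀ i < m, x ∉ cw e y i) ∧
      ∀ k < K, k ≠ j → x ∉ gw g w k := by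
  have hx1 : x ∈ openSegment ℝ (g j).b (w j) := open_sub (S.cut_gc_mem hδ hj) hx
  have hx2 : x ∈ segment ℝ (g j).b (gc δ g h j) := openSegment_subset_segment ℝ _ _ hx
  have hxj : x ∈ gw g w j := openSegment_subset_segment ℝ _ _ hx1
  obtain ⟨h1, h2, h3, h4⟩ := S.gads.free j hj x hx1
  refine ⟨h1, hxj, h2, h3, fun k hk hkj => ?_⟩
  rcases lt_or_gt_of_ne hkj with hlt | hlt
  · exact h4 k hlt
  · intro hxk
    rcases S.gad_gad hlt hk hxk hxj with h5 | ⟨h5, h6⟩
    · exact hδ.gw' j hj k hk (h5 ▸ hx2)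
    · rw [← h6] at h5
      rw [h5, left_mem_openSegment_iff] at hx
      exact S.cut_gc_ne hδ hj hx.symm

theorem WSys.gap_z_nbhd (S : WSys P M E m e y K g h w) {δ : ℝ} (hδ : SmallCut m e y K g h w δ)
    {i : ℕ} (hi : i < m) {x : Pt} (hx : x ∈ openSegment ℝ (e i).z (zc δ e i)) :
    ∃ r > 0, ∀ a ∈ Metric.ball x r, a ∈ Om M ∧
      (a ∈ XX E m e y K g w → ori (e i).z (zc δ e i) a = 0) := by
  obtain ⟨h1, h2, h3, h4, h5⟩ := S.gap_z hδ hi hx
  apply ball_of
  have e1 : ∀ᶠ a in 𝓝 x, a ∈ Om M := Metric.isOpen_ball.mem_nhds h1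
  have e2 : ∀ᶠ a in 𝓝 x, a ∉ stars E := (isClosed_stars E).isOpen_compl.mem_nhds h3
  have e3 : ∀ᶠ a in 𝓝 x, ∀ k < m, k ≠ i → a ∉ cw e y k := by
    refine (eventually_all_finite (Set.finite_lt_nat m)).2 fun k hk => ?_
    by_cases hki : k = i
    · exact Eventually.of_forall fun a hne => absurd hki hne
    · have h6 : ∀ᶠ a in 𝓝 x, a ∉ cw e y k :=
        (isClosed_seg _ _).isOpen_compl.mem_nhds (h4 k hk hki)
      filter_upwards [h6] with a ha _
      exact ha
  have e4 : ∀ᶠ a in 𝓝 x, ∀ j < K, a ∉ gw g w j := by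
    refine (eventually_all_finite (Set.finite_lt_nat K)).2 fun j hj => ?_
    exact (isClosed_seg _ _).isOpen_compl.mem_nhds (h5 j hj)
  filter_upwards [e1, e2, e3, e4] with a a1 a2 a3 a4
  refine ⟨a1, fun hX => ?_⟩
  rcases hX with (hX | hX) | hX
  · exact absurd hX a2
  · obtain ⟨k, hX⟩ := Set.mem_iUnion.1 hX
    obtain ⟨hk, hX⟩ := Set.mem_iUnion.1 hX
    by_cases hki : k = i
    · subst hki
      rw [ori_zc, cw_ori S.walls hk hX, mul_zero]
    · exact absurd hX (a3 k hk hki)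
  · obtain ⟨j, hX⟩ := Set.mem_iUnion.1 hX
    obtain ⟨hj, hX⟩ := Set.mem_iUnion.1 hX
    exact absurd hX (a4 j hj)

theorem WSys.gap_b_nbhd (S : WSys P M E m e y K g h w) {δ : ℝ} (hδ : SmallCut m e y K g h w δ)
    {j : ℕ} (hj : j < K) {x : Pt} (hx : x ∈ openSegment ℝ (g j).b (gc δ g h j)) :
    ∃ r > 0, ∀ a ∈ Metric.ball x r, a ∈ Om M ∧
      (a ∈ XX E m e y K g w → ori (g j).b (gc δ g h j) a = 0) := by
  obtain ⟨h1, h2, h3, h4, h5⟩ := S.gap_b hδ hj hx
  apply ball_of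
  have e1 : ∀ᶠ a in 𝓝 x, a ∈ Om M := Metric.isOpen_ball.mem_nhds h1
  have e2 : ∀ᶠ a in 𝓝 x, a ∉ stars E := (isClosed_stars E).isOpen_compl.mem_nhds h3
  have e3 : ∀ᶠ a in 𝓝 x, ∀ k < K, k ≠ j → a ∉ gw g w k := by
    refine (eventually_all_finite (Set.finite_lt_nat K)).2 fun k hk => ?_
    by_cases hkj : k = j
    · exact Eventually.of_forall fun a hne => absurd hkj hne
    · have h6 : ∀ᶠ a in 𝓝 x, a ∉ gw g w k :=
        (isClosed_seg _ _).isOpen_compl.mem_nhds (h5 k hk hkj)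
      filter_upwards [h6] with a ha _
      exact ha
  have e4 : ∀ᶠ a in 𝓝 x, ∀ i < m, a ∉ cw e y i := by
    refine (eventually_all_finite (Set.finite_lt_nat m)).2 fun i hi => ?_
    exact (isClosed_seg _ _).isOpen_compl.mem_nhds (h4 i hi)
  filter_upwards [e1, e2, e3, e4] with a a1 a2 a3 a4
  refine ⟨a1, fun hX => ?_⟩
  rcases hX with (hX | hX) | hX
  · exact absurd hX a2
  · obtain ⟨i, hX⟩ := Set.mem_iUnion.1 hX
    obtain ⟨hi, hX⟩ := Set.mem_iUnion.1 hX
    exact absurd hX (a4 i hi)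
  · obtain ⟨k, hX⟩ := Set.mem_iUnion.1 hX
    obtain ⟨hk, hX⟩ := Set.mem_iUnion.1 hX
    by_cases hkj : k = j
    · subst hkj
      rw [ori_gc, S.gw_ori hk hX, mul_zero]
    · exact absurd hX (a3 k hk hkj)

theorem WSys.YY_sub (S : WSys P M E m e y K g h w) {δ : ℝ} (hδ : SmallCut m e y K g h w δ)
    (C : Finset ℕ) : YY E m e y K g h w δ C ⊆ XX E m e y K g w := by
  classical
  intro x hx
  rcases hx with (hx | hx) | hx
  · exact Or.inl (Or.inl hx)
  · refine Or.inl (Or.inr ?_)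
    obtain ⟨i, hx⟩ := Set.mem_iUnion.1 hx
    obtain ⟨hi, hx⟩ := Set.mem_iUnion.1 hx
    refine Set.mem_iUnion.2 ⟨i, Set.mem_iUnion.2 ⟨hi, ?_⟩⟩
    split_ifs at hx with hC
    · exact seg_sub' (openSegment_subset_segment ℝ _ _ (hδ.zin i hi)) hx
    · exact hx
  · refine Or.inr ?_
    obtain ⟨j, hx⟩ := Set.mem_iUnion.1 hx
    obtain ⟨hj, hx⟩ := Set.mem_iUnion.1 hx
    refine Set.mem_iUnion.2 ⟨j, Set.mem_iUnion.2 ⟨hj, ?_⟩⟩
    exact seg_sub' (openSegment_subset_segment ℝ _ _ (S.cut_gc_mem hδ hj)) hx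

theorem WSys.XX_diff (S : WSys P M E m e y K g h w) {δ : ℝ} (hδ : SmallCut m e y K g h w δ)
    (C : Finset ℕ) {x : Pt} (hx : x ∈ XX E m e y K g w) (hx' : x ∉ YY E m e y K g h w δ C) :
    (∃ i < m, i ∈ C ∧ x ∈ openSegment ℝ (e i).z (zc δ e i)) ∨
    (∃ j < K, x ∈ openSegment ℝ (g j).b (gc δ g h j)) := by
  classical
  have hs : ∀ q, q ∈ stars E → q ∈ YY E m e y K g h w δ C := fun q hq => Or.inl (Or.inl hq)
  rcases hx with (hx | hx) | hx
  · exact absurd (hs x hx) hx'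
  · obtain ⟨i, hx⟩ := Set.mem_iUnion.1 hx
    obtain ⟨hi, hx⟩ := Set.mem_iUnion.1 hx
    have hY : (if i ∈ C then segment ℝ (zc δ e i) (y i) else cw e y i) ⊆
        YY E m e y K g h w δ C := by
      intro q hq
      exact Or.inl (Or.inr (Set.mem_iUnion.2 ⟨i, Set.mem_iUnion.2 ⟨hi, hq⟩⟩))
    by_cases hC : i ∈ C
    · rw [if_pos hC] at hY
      refine Or.inl ⟨i, hi, hC, ?_⟩
      rcases seg_split (openSegment_subset_segment ℝ _ _ (hδ.zin i hi)) hx with h1 | h1
      · refine mem_openSegment_of_ne_left_right ?_ ?_ h1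
        · rintro rfl
          refine hx' (hs _ ?_)
          exact Set.mem_iUnion₂.2 ⟨e i, S.walls.memE i hi, left_mem_segment ℝ _ _⟩
        · rintro rfl
          exact hx' (hY (left_mem_segment ℝ _ _))
      · exact absurd (hY h1) hx'
    · rw [if_neg hC] at hY
      exact absurd (hY hx) hx'
  · obtain ⟨j, hx⟩ := Set.mem_iUnion.1 hx
    obtain ⟨hj, hx⟩ := Set.mem_iUnion.1 hx
    have hY : segment ℝ (gc δ g h j) (w j) ⊆ YY E m e y K g h w δ C := by
      intro q hq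
      exact Or.inr (Set.mem_iUnion.2 ⟨j, Set.mem_iUnion.2 ⟨hj, hq⟩⟩)
    refine Or.inr ⟨j, hj, ?_⟩
    rcases seg_split (openSegment_subset_segment ℝ _ _ (S.cut_gc_mem hδ hj)) hx with h1 | h1
    · refine mem_openSegment_of_ne_left_right ?_ ?_ h1
      · rintro rfl
        refine hx' (hs _ ?_)
        exact Set.mem_iUnion₂.2 ⟨g j, (S.gads.memE j hj).1, right_mem_segment ℝ _ _⟩
      · rintro rfl
        exact hx' (hY (left_mem_segment ℝ _ _))
    · exact absurd (hY h1) hx'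

end F059
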