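import Pool.Agent.Lib.F059.Side
import Pool.Agent.Lib.F059.Cut

/-!
# F059D.Loc: the three cells at a leaf, the two cells at a centre

Write b = f.b, m = f.m, p = f.p, z = f.z, X = XX.  j, j' the gadget walls through m and p.
(0) Near b the set X consists of [b,z], gw j, gw j': all other pieces are closed and do not contain b
    (star edges f' ≠ f: `star_star` with x = b gives x = z; closed walls: P_cw and zne; gadget walls k with g k ≠ f: P_gw and `ear`;
    gadget walls with g k = f: h k ∈ {m,p}, so k = j or k = j' by `inj`).  So there is r > 0 with ball b r ⊆ Om M and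
    a ∈ ball b r ∩ X → a ∈ [b,z] ∪ gw j ∪ gw j'.
(1) `side_cells` for (b, gc j) (gap_b_nbhd): u1 left, u2 right; for (b, gc j'): u3 left, u4 right; z' = b + s (z-b) with small s (in ball b r):
    `side_cells` for (b, z'): hfree from (0): points a near a point x of the open segment (b,z'), not on the line b z, are not in X: they are in ball b r, and
    gw j, gw j' are closed and do not contain x.  u5 left, u6 right.
(2) Sectors: L = {a ∈ ball b r : 0 < ori b m a, ori b z a < 0} is convex, in Om M, disjoint from X ([b,z]: ori b z a = 0; gw j: ori b m a = 0;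
    gw j': a = b + s (p-b), s ≥ 0, ori b m a = s ori b m p ≤ 0, as 0 < ori p m b = ori b p m = - ori b m p).  It contains points of cell u1
    (left of the open segment (b, gc j), close to b: x = b + s (m-b), ori b z x = s ori b z m < 0) and of cell u6 (right of (b,z') close to b: x = b + s (z-b), ori b m x = s ori b m z > 0:
    ori b m z = ori z b m > 0).  So cell u1 = cell u6 (`convex_sub_cell`, `cell_eq`).
    F = {a ∈ ball b r : ori b m a < 0, 0 < ori b p a}: disjoint from X ([b,z]: ori b p z < 0 since 0 < ori z p b = ori b z p = - ori b p z): cell u2 = cell u3.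
    R = {a ∈ ball b r : ori b p a < 0, 0 < ori b z a}: disjoint from X (gw j: ori b z m < 0): cell u4 = cell u5.
-/

namespace F059

variable {P : Finset Pt} {M : ℝ} {E : Finset Leaf} {m : ℕ} {e : ℕ → Leaf} {y : ℕ → Pt}
  {K : ℕ} {g : ℕ → Leaf} {h w : ℕ → Pt}


open SideAux ConvAux Filter Topology

namespace LocAux

lemma seg_isClosed (a b : Pt) : IsClosed (segment ℝ a b) := by
  rw [segment_eq_image]
  exact (isCompact_Icc.image (by fun_prop)).isClosed

lemma ev_notin {S : Set Pt} (hS : IsClosed S) {x : Pt} (hx : x ∉ S) : ∀ᶠ a in 𝓝 x, a ∉ S :=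
  hS.isOpen_compl.mem_nhds hx

/-- a convex set disjoint from the walls which meets two cells -/
lemma sector_eq {M : ℝ} {X : Set Pt} (hX : IsClosed X) (hT : Tight M X) {S : Set Pt}
    (hS : Convex ℝ S) (hSM : S ⊆ Om M) (hSX : Disjoint S X) {u v a a' : Pt} (hu : u ∈ Om M)
    (hv : v ∈ Om M) (ha : a ∈ S) (hau : a ∈ cell M X u) (ha' : a' ∈ S) (hav : a' ∈ cell M X v) :
    cell M X u = cell M X v := by
  have h1 : a' ∈ cell M X a := convex_sub_cell hS hSM hSX ha ha'
  rw [cell_eq hX hT hu hau] at h1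
  rw [← cell_eq hX hT hu h1, ← cell_eq hX hT hv hav]

lemma ori_conv (p q a b : Pt) {s t : ℝ} (hst : s + t = 1) :
    ori p q (s • a + t • b) = s * ori p q a + t * ori p q b := by
  have : s = 1 - t := by linarith
  rw [this]
  unfold ori
  simp only [Prod.fst_add, Prod.snd_add, Prod.smul_fst, Prod.smul_snd, smul_eq_mul]
  ring

lemma conv_pos (p q : Pt) : Convex ℝ {a : Pt | 0 < ori p q a} := by
  intro a ha b hb s t hs ht hst
  simp only [Set.mem_ofPred_eq] at ha hb ⊢
  rw [ori_conv p q a b hst]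
  rcases eq_or_lt_of_le hs with h | h
  · have ht1 : t = 1 := by linarith
    rw [← h, ht1]
    linarith
  · have h1 := mul_pos h ha
    have h2 := mul_nonneg ht hb.le
    linarith

lemma conv_neg (p q : Pt) : Convex ℝ {a : Pt | ori p q a < 0} := by
  have h := conv_pos q p
  have e : {a : Pt | 0 < ori q p a} = {a : Pt | ori p q a < 0} := by
    ext a
    simp only [Set.mem_ofPred_eq]
    rw [ori_swap p q a]
    constructor <;> intro h <;> linarith
  rwa [e] at h

lemma ori_lineMap (b q d : Pt) (s : ℝ) : ori b q (b + s • (d - b)) = s * ori b q d := by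
  unfold ori
  simp only [Prod.fst_add, Prod.snd_add, Prod.smul_fst, Prod.smul_snd, Prod.fst_sub, Prod.snd_sub,
    smul_eq_mul]
  ring

/-- points close to the beginning of a segment -/
lemma exists_near {b q : Pt} {U : Set Pt} (hU : U ∈ 𝓝 b) :
    ∃ s : ℝ, 0 < s ∧ s < 1 ∧ b + s • (q - b) ∈ U := by
  have h1 : ∀ᶠ t : ℝ in 𝓝[>] 0, b + t • (q - b) ∈ U := (tends b (q - b)).eventually hU
  have h2 : ∀ᶠ t : ℝ in 𝓝[>] 0, (0 : ℝ) < t := eventually_mem_nhdsWithin
  have h3 : ∀ᶠ t : ℝ in 𝓝[>] 0, t < 1 :=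
    (gt_mem_nhds one_pos).filter_mono nhdsWithin_le_nhds
  obtain ⟨t, ht1, ht2, ht3⟩ := (h1.and (h2.and h3)).exists
  exact ⟨t, ht2, ht3, ht1⟩

lemma mem_open {b q : Pt} {s : ℝ} (h0 : 0 < s) (h1 : s < 1) :
    b + s • (q - b) ∈ openSegment ℝ b q := by
  refine ⟨1 - s, s, by linarith, h0, by ring, ?_⟩
  rw [sub_smul, one_smul, smul_sub]
  abel

/-- a point of the left cell in a given open set which meets the beginning of the segment -/
lemma left_pt {b q : Pt} (hbq : b ≠ q) {A B : Set Pt} (hs : SideCells b q A B) {U : Set Pt}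
    {x : Pt} (hx : x ∈ openSegment ℝ b q) (hU : U ∈ 𝓝 x) : ∃ a ∈ U, 0 < ori b q a ∧ a ∈ A := by
  obtain ⟨r, hr, h⟩ := hs x hx
  obtain ⟨a, ha, ha2⟩ := near_pos hbq (ori_seg hx).ge
    (Filter.inter_mem hU (Metric.ball_mem_nhds x hr))
  exact ⟨a, ha.1, ha2, (h a ha.2).1 ha2⟩

lemma right_pt {b q : Pt} (hbq : b ≠ q) {A B : Set Pt} (hs : SideCells b q A B) {U : Set Pt}
    {x : Pt} (hx : x ∈ openSegment ℝ b q) (hU : U ∈ 𝓝 x) : ∃ a ∈ U, ori b q a < 0 ∧ a ∈ B := by
  obtain ⟨r, hr, h⟩ := hs x hx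
  obtain ⟨a, ha, ha2⟩ := near_neg hbq (ori_seg hx).le
    (Filter.inter_mem hU (Metric.ball_mem_nhds x hr))
  exact ⟨a, ha.1, ha2, (h a ha.2).2 ha2⟩

end LocAux

open LocAux

/-- near the leaf the system consists of the star edge and the two gadget walls -/
theorem WSys.leaf_nbhd (S : WSys P M E m e y K g h w) {f : Leaf} (hf : f ∈ E) {j j' : ℕ}
    (hj : j < K) (hj' : j' < K) (hhj : h j = f.m) (hhj' : h j' = f.p) :
    ∃ r > 0, ∀ a ∈ Metric.ball f.b r, a ∈ Om M ∧ (a ∈ XX E m e y K g w →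
      a ∈ segment ℝ f.z f.b ∨ a ∈ gw g w j ∨ a ∈ gw g w j') := by
  have hne := star_ne S.star hf
  have hP := S.star.mem f hf
  have hA : ∀ᶠ a in 𝓝 f.b, ∀ f' ∈ E, f' ≠ f → a ∉ segment ℝ f'.z f'.b := by
    rw [Filter.eventually_all_finset]
    intro f' hf'
    by_cases hff : f' = f
    · exact Filter.Eventually.of_forall fun a h0 => absurd hff h0
    · refine (ev_notin (seg_isClosed _ _) ?_).mono fun a ha _ => ha
      intro hb
      have h1 := star_star S.gp S.star hf hf' (Ne.symm hff) (right_mem_segment ℝ f.z f.b) hb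
      exact hne.1 h1.2.symm
  have hB : ∀ᶠ a in 𝓝 f.b, ∀ i ∈ Finset.range m, a ∉ cw e y i := by
    rw [Filter.eventually_all_finset]
    intro i hi
    rw [Finset.mem_range] at hi
    refine ev_notin (seg_isClosed _ _) ?_
    intro hb
    exact (S.star.zne _ (S.walls.memE i hi) f hf).1 (P_cw S.gp S.star S.walls hi hP.2.1 hb).symm
  have hC : ∀ᶠ a in 𝓝 f.b, ∀ k ∈ Finset.range K, k ≠ j → k ≠ j' → a ∉ gw g w k := by
    rw [Filter.eventually_all_finset]
    intro k hk
    rw [Finset.mem_range] at hk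
    by_cases hkj : k = j
    · exact Filter.Eventually.of_forall fun a h0 => absurd hkj h0
    by_cases hkj' : k = j'
    · exact Filter.Eventually.of_forall fun a _ h0 => absurd hkj' h0
    refine (ev_notin (seg_isClosed _ _) ?_).mono fun a ha _ _ => ha
    intro hb
    obtain ⟨hgk, hhk⟩ := S.gads.memE k hk
    have h1 := S.P_gw hk hP.2.1 hb
    by_cases hgf : g k = f
    · rcases hhk with h2 | h2
      · exact hkj (S.gads.inj k hk j hj (by rw [h2, hhj, hgf]))
      · exact hkj' (S.gads.inj k hk j' hj' (by rw [h2, hhj', hgf]))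
    · have h3 := fun x hx => (S.star.ear (g k) hgk f hf hgf x hx).1
      rcases h1 with h1 | h1
      · exact h3 _ (Or.inl rfl) h1.symm
      · rcases hhk with h2 | h2
        · exact h3 _ (Or.inr (Or.inl h2)) h1.symm
        · exact h3 _ (Or.inr (Or.inr h2)) h1.symm
  have hD : ∀ᶠ a in 𝓝 f.b, a ∈ Om M := Metric.isOpen_ball.mem_nhds (S.hP _ hP.2.1)
  obtain ⟨r, hr, hb⟩ := Metric.eventually_nhds_iff_ball.1 (hA.and (hB.and (hC.and hD)))
  refine ⟨r, hr, fun a ha => ?_⟩
  obtain ⟨h1, h2, h3, h4⟩ := hb a ha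
  refine ⟨h4, fun hX => ?_⟩
  rcases hX with (hX | hX) | hX
  · simp only [stars, Set.mem_iUnion] at hX
    obtain ⟨f', hf', hx⟩ := hX
    by_cases hff : f' = f
    · rw [hff] at hx
      exact Or.inl hx
    · exact absurd hx (h1 f' hf' hff)
  · simp only [Set.mem_iUnion] at hX
    obtain ⟨i, hi, hx⟩ := hX
    exact absurd hx (h2 i (Finset.mem_range.2 hi))
  · simp only [Set.mem_iUnion] at hX
    obtain ⟨k, hk, hx⟩ := hX
    by_cases hkj : k = j
    · rw [hkj] at hx
      exact Or.inr (Or.inl hx)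
    by_cases hkj' : k = j'
    · rw [hkj'] at hx
      exact Or.inr (Or.inr hx)
    exact absurd hx (h3 k (Finset.mem_range.2 hk) hkj hkj')

/-- points of gadget walls -/
theorem WSys.gw_pt (S : WSys P M E m e y K g h w) {j : ℕ} (hj : j < K) {a : Pt}
    (ha : a ∈ gw g w j) : ∃ s : ℝ, 0 ≤ s ∧ a = (g j).b + s • (h j - (g j).b) := by
  obtain ⟨t, ht, hw⟩ := S.gads.ray j hj
  unfold gw at ha
  rw [segment_eq_image'] at ha
  obtain ⟨s, ⟨hs0, hs1⟩, rfl⟩ := ha
  refine ⟨s * t, by positivity, ?_⟩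
  simp only
  rw [hw, add_sub_cancel_left, smul_smul]

theorem WSys.centre_cells (S : WSys P M E m e y K g h w) (hT : Tight M (XX E m e y K g w)) {δ : ℝ}
    (hδ : SmallCut m e y K g h w δ) {i : ℕ} (hi : i < m) :
    ∃ u v : Pt, (u ∈ Om M ∧ u ∉ XX E m e y K g w) ∧ (v ∈ Om M ∧ v ∉ XX E m e y K g w) ∧
      SideCells (e i).z (zc δ e i) (cell M (XX E m e y K g w) u)
        (cell M (XX E m e y K g w) v) := by
  have hne := star_ne S.star (S.walls.memE i hi)
  have hb : (e i).z ≠ zc δ e i := by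
    intro h0
    unfold zc at h0
    have h1 : δ • ((e i).z - (e i).b) = 0 := by
      have := congrArg (fun x => x - (e i).z) h0
      simp only [sub_self, add_sub_cancel_left] at this
      exact this.symm
    rcases smul_eq_zero.1 h1 with h2 | h2
    · exact hδ.pos.ne' h2
    · exact hne.1 (sub_eq_zero.1 h2)
  obtain ⟨u, hu, v, hv, huX, hvX, hs⟩ := side_cells S.XX_isClosed hT hb (fun x hx => by
    obtain ⟨r, hr, h1⟩ := S.gap_z_nbhd hδ hi hx
    exact ⟨r, hr, fun a ha hne => ⟨(h1 a ha).1, fun haX => hne ((h1 a ha).2 haX)⟩⟩)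
  exact ⟨u, v, ⟨hu, huX⟩, ⟨hv, hvX⟩, hs⟩

theorem WSys.gad_cells (S : WSys P M E m e y K g h w) (hT : Tight M (XX E m e y K g w)) {δ : ℝ}
    (hδ : SmallCut m e y K g h w δ) {j : ℕ} (hj : j < K) :
    ∃ u v : Pt, (u ∈ Om M ∧ u ∉ XX E m e y K g w) ∧ (v ∈ Om M ∧ v ∉ XX E m e y K g w) ∧
      SideCells (g j).b (gc δ g h j) (cell M (XX E m e y K g w) u)
        (cell M (XX E m e y K g w) v) := by
  have hne := star_ne S.star (S.gads.memE j hj).1
  have hb : (g j).b ≠ gc δ g h j := by
    intro h0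
    unfold gc at h0
    have h1 : (1 + δ) • (h j - (g j).b) = 0 := by
      have := congrArg (fun x => x - (g j).b) h0
      simp only [sub_self, add_sub_cancel_left] at this
      exact this.symm
    rcases smul_eq_zero.1 h1 with h2 | h2
    · have := hδ.pos
      linarith
    · have h3 : h j = (g j).b := sub_eq_zero.1 h2
      rcases (S.gads.memE j hj).2 with h4 | h4
      · exact hne.2.1 (h3.symm.trans h4)
      · exact hne.2.2.1 (h3.symm.trans h4)
  obtain ⟨u, hu, v, hv, huX, hvX, hs⟩ := side_cells S.XX_isClosed hT hb (fun x hx => by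
    obtain ⟨r, hr, h1⟩ := S.gap_b_nbhd hδ hj hx
    exact ⟨r, hr, fun a ha hne => ⟨(h1 a ha).1, fun haX => hne ((h1 a ha).2 haX)⟩⟩)
  exact ⟨u, v, ⟨hu, huX⟩, ⟨hv, hvX⟩, hs⟩

theorem WSys.leaf_cells (S : WSys P M E m e y K g h w) (hT : Tight M (XX E m e y K g w)) {δ : ℝ}
    (hδ : SmallCut m e y K g h w δ) {f : Leaf} (hf : f ∈ E) {j j' : ℕ} (hj : j < K) (hj' : j' < K)
    (hgj : g j = f) (hgj' : g j' = f) (hhj : h j = f.m) (hhj' : h j' = f.p) :
    ∃ u1 u2 u3 : Pt, (u1 ∈ Om M ∧ u1 ∉ XX E m e y K g w) ∧ (u2 ∈ Om M ∧ u2 ∉ XX E m e y K g w) ∧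
      (u3 ∈ Om M ∧ u3 ∉ XX E m e y K g w) ∧
      SideCells f.b (gc δ g h j) (cell M (XX E m e y K g w) u1) (cell M (XX E m e y K g w) u2) ∧
      SideCells f.b (gc δ g h j') (cell M (XX E m e y K g w) u2) (cell M (XX E m e y K g w) u3) ∧
      ∃ z' ∈ openSegment ℝ f.b f.z,
        SideCells f.b z' (cell M (XX E m e y K g w) u3) (cell M (XX E m e y K g w) u1) := by
  have hne := star_ne S.star hf
  have hgood := S.star.good f hf
  have hXc := S.XX_isClosed
  obtain ⟨r, hr, hloc⟩ := S.leaf_nbhd hf hj hj' hhj hhj'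
  obtain ⟨v1, v2, hv1, hv2, hs1⟩ := S.gad_cells hT hδ hj
  obtain ⟨v3, v4, hv3, hv4, hs2⟩ := S.gad_cells hT hδ hj'
  rw [hgj] at hs1
  rw [hgj'] at hs2
  -- orientations
  have o1 : ori f.b f.m f.p < 0 := by
    have h1 := hgood.2.2
    have h2 : ori f.p f.m f.b = - ori f.b f.m f.p := by unfold ori; ring
    linarith
  have o2 : ori f.b f.p f.z < 0 := by
    have h1 := hgood.2.1
    have h2 : ori f.z f.p f.b = - ori f.b f.p f.z := by unfold ori; ring
    linarith
  have o3 : ori f.b f.z f.m < 0 := by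
    have h1 := hgood.1
    have h2 : ori f.z f.b f.m = - ori f.b f.z f.m := by unfold ori; ring
    linarith
  have o4 : 0 < ori f.b f.m f.z := by
    have h2 : ori f.b f.m f.z = - ori f.b f.z f.m := by unfold ori; ring
    linarith
  have o5 : 0 < ori f.b f.p f.m := by
    have h2 : ori f.b f.p f.m = - ori f.b f.m f.p := by unfold ori; ring
    linarith
  have o6 : 0 < ori f.b f.z f.p := by
    have h2 : ori f.b f.z f.p = - ori f.b f.p f.z := by unfold ori; ring
    linarith
  -- points of the walls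
  have hwj : ∀ a ∈ gw g w j, ∃ s : ℝ, 0 ≤ s ∧ a = f.b + s • (f.m - f.b) := by
    intro a ha
    have := S.gw_pt hj ha
    rwa [hgj, hhj] at this
  have hwj' : ∀ a ∈ gw g w j', ∃ s : ℝ, 0 ≤ s ∧ a = f.b + s • (f.p - f.b) := by
    intro a ha
    have := S.gw_pt hj' ha
    rwa [hgj', hhj'] at this
  have hwz : ∀ a ∈ segment ℝ f.z f.b, ∃ s : ℝ, 0 ≤ s ∧ a = f.b + s • (f.z - f.b) := by
    intro a ha
    rw [segment_symm, segment_eq_image'] at ha
    obtain ⟨s, ⟨hs0, hs1⟩, rfl⟩ := ha
    exact ⟨s, hs0, rfl⟩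
  have self0 : ∀ q : Pt, ori f.b q q = 0 := by intro q; unfold ori; ring
  -- the point `z'`
  obtain ⟨s0, hs00, hs01, hs02⟩ := exists_near (b := f.b) (q := f.z) (Metric.ball_mem_nhds f.b hr)
  set z' := f.b + s0 • (f.z - f.b) with hz'
  have hz'o : z' ∈ openSegment ℝ f.b f.z := mem_open hs00 hs01
  have hbz' : f.b ≠ z' := by
    intro h0
    have h1 : s0 • (f.z - f.b) = 0 := by
      have := congrArg (fun x => x - f.b) h0
      simp only [sub_self, hz', add_sub_cancel_left] at this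
      exact this.symm
    rcases smul_eq_zero.1 h1 with h2 | h2
    · exact hs00.ne' h2
    · exact hne.1 (sub_eq_zero.1 h2)
  have hz'ori : ∀ a, ori f.b z' a = s0 * ori f.b f.z a := by
    intro a
    rw [hz']
    unfold ori
    simp only [Prod.fst_add, Prod.snd_add, Prod.smul_fst, Prod.smul_snd, Prod.fst_sub,
      Prod.snd_sub, smul_eq_mul]
    ring
  obtain ⟨v5, hv5, v6, hv6, hv5X, hv6X, hs3⟩ := side_cells hXc hT hbz' (fun x hx => by
    have hxs : x ∈ openSegment ℝ f.b f.z := by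
      obtain ⟨c, d, hc, hd, hcd, rfl⟩ := hx
      refine ⟨1 - d * s0, d * s0, by nlinarith, by positivity, by ring, ?_⟩
      rw [hz', sub_smul, one_smul, smul_add, smul_smul, smul_sub]
      have : c = 1 - d := by linarith
      rw [this, sub_smul, one_smul]
      abel
    have hxb : x ∈ Metric.ball f.b r :=
      (convex_ball f.b r).segment_subset (Metric.mem_ball_self hr) hs02
        (openSegment_subset_segment ℝ _ _ hx)
    have hxne : x ≠ f.b := by
      rintro rfl
      obtain ⟨c, d, hc, hd, hcd, h0⟩ := hxs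
      have hc' : c = 1 - d := by linarith
      have h1 : d • (f.z - f.b) = 0 := by
        have := congrArg (fun x => x - f.b) h0
        simp only [sub_self, hc', sub_smul, one_smul] at this
        rw [smul_sub, ← this]
        abel
      rcases smul_eq_zero.1 h1 with h2 | h2
      · exact hd.ne' h2
      · exact hne.1 (sub_eq_zero.1 h2)
    have hxseg : x ∈ segment ℝ f.z f.b := by
      rw [segment_symm]
      exact openSegment_subset_segment ℝ _ _ hxs
    have e1 : ∀ᶠ a in 𝓝 x, a ∉ gw g w j := by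
      refine ev_notin (seg_isClosed _ _) fun h0 => hxne ?_
      have := S.gad_own_star hj h0 (by rw [hgj]; exact hxseg)
      rw [this, hgj]
    have e2 : ∀ᶠ a in 𝓝 x, a ∉ gw g w j' := by
      refine ev_notin (seg_isClosed _ _) fun h0 => hxne ?_
      have := S.gad_own_star hj' h0 (by rw [hgj']; exact hxseg)
      rw [this, hgj']
    have e3 : ∀ᶠ a in 𝓝 x, a ∈ Metric.ball f.b r := Metric.isOpen_ball.mem_nhds hxb
    obtain ⟨r', hr', hb⟩ := Metric.eventually_nhds_iff_ball.1 (e1.and (e2.and e3))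
    refine ⟨r', hr', fun a ha hne0 => ?_⟩
    obtain ⟨k1, k2, k3⟩ := hb a ha
    refine ⟨(hloc a k3).1, fun haX => ?_⟩
    rcases (hloc a k3).2 haX with h0 | h0 | h0
    · obtain ⟨s, -, rfl⟩ := hwz a h0
      apply hne0
      rw [hz'ori, ori_lineMap, self0, mul_zero, mul_zero]
    · exact k1 h0
    · exact k2 h0)
  -- neighbourhoods
  have hmne : f.m ≠ f.b := hne.2.1.symm
  have hpne : f.p ≠ f.b := hne.2.2.1.symm
  have hgc1 : gc δ g h j = f.b + (1 + δ) • (f.m - f.b) := by
    unfold gc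
    rw [hgj, hhj]
  have hgc2 : gc δ g h j' = f.b + (1 + δ) • (f.p - f.b) := by
    unfold gc
    rw [hgj', hhj']
  have hδ0 := hδ.pos
  have hgo1 : ∀ a, ori f.b (gc δ g h j) a = (1 + δ) * ori f.b f.m a := by
    intro a
    rw [hgc1]
    unfold ori
    simp only [Prod.fst_add, Prod.snd_add, Prod.smul_fst, Prod.smul_snd, Prod.fst_sub,
      Prod.snd_sub, smul_eq_mul]
    ring
  have hgo2 : ∀ a, ori f.b (gc δ g h j') a = (1 + δ) * ori f.b f.p a := by
    intro a
    rw [hgc2]
    unfold ori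
    simp only [Prod.fst_add, Prod.snd_add, Prod.smul_fst, Prod.smul_snd, Prod.fst_sub,
      Prod.snd_sub, smul_eq_mul]
    ring
  have hgne1 : f.b ≠ gc δ g h j := by
    intro h0
    rw [hgc1] at h0
    have h1 : (1 + δ) • (f.m - f.b) = 0 := by
      have := congrArg (fun x => x - f.b) h0
      simp only [sub_self, add_sub_cancel_left] at this
      exact this.symm
    rcases smul_eq_zero.1 h1 with h2 | h2
    · linarith
    · exact hmne (sub_eq_zero.1 h2)
  have hgne2 : f.b ≠ gc δ g h j' := by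
    intro h0
    rw [hgc2] at h0
    have h1 : (1 + δ) • (f.p - f.b) = 0 := by
      have := congrArg (fun x => x - f.b) h0
      simp only [sub_self, add_sub_cancel_left] at this
      exact this.symm
    rcases smul_eq_zero.1 h1 with h2 | h2
    · linarith
    · exact hpne (sub_eq_zero.1 h2)
  -- points of the opening segments close to `b`
  obtain ⟨t1, ht10, ht11, ht12⟩ :=
    exists_near (b := f.b) (q := gc δ g h j) (Metric.ball_mem_nhds f.b hr)
  obtain ⟨t2, ht20, ht21, ht22⟩ :=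
    exists_near (b := f.b) (q := gc δ g h j') (Metric.ball_mem_nhds f.b hr)
  obtain ⟨t3, ht30, ht31, ht32⟩ :=
    exists_near (b := f.b) (q := z') (Metric.ball_mem_nhds f.b hr)
  have key : ∀ (q : Pt) (t : ℝ) (c : Pt), ∀ᶠ a in 𝓝 (f.b + t • (c - f.b)),
      (0 < t * ori f.b q c → 0 < ori f.b q a) ∧ (t * ori f.b q c < 0 → ori f.b q a < 0) := by
    intro q t c
    have hc := (cont_ori f.b q).tendsto (f.b + t • (c - f.b))
    rw [ori_lineMap] at hc
    rcases lt_trichotomy (t * ori f.b q c) 0 with h0 | h0 | h0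
    · exact (hc.eventually (gt_mem_nhds h0)).mono fun a ha =>
        ⟨fun h1 => absurd h1 (not_lt.2 h0.le), fun _ => ha⟩
    · exact Filter.Eventually.of_forall fun a =>
        ⟨fun h1 => absurd h1 (by rw [h0]; exact lt_irrefl _),
          fun h1 => absurd h1 (by rw [h0]; exact lt_irrefl _)⟩
    · exact (hc.eventually (lt_mem_nhds h0)).mono fun a ha =>
        ⟨fun _ => ha, fun h1 => absurd h1 (not_lt.2 h0.le)⟩
  have inball : ∀ (t : ℝ) (c : Pt), f.b + t • (c - f.b) ∈ Metric.ball f.b r →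
      ∀ᶠ a in 𝓝 (f.b + t • (c - f.b)), a ∈ Metric.ball f.b r :=
    fun t c hx => Metric.isOpen_ball.mem_nhds hx
  have hδ1 : 0 < 1 + δ := by linarith
  have gm : ∀ q, ori f.b q (gc δ g h j) = (1 + δ) * ori f.b q f.m := by
    intro q
    rw [hgc1, ori_lineMap]
  have gp' : ∀ q, ori f.b q (gc δ g h j') = (1 + δ) * ori f.b q f.p := by
    intro q
    rw [hgc2, ori_lineMap]
  have gz : ∀ q, ori f.b q z' = s0 * ori f.b q f.z := by
    intro q
    rw [hz', ori_lineMap]
  -- sector `L`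
  have eL : cell M (XX E m e y K g w) v1 = cell M (XX E m e y K g w) v6 := by
    obtain ⟨a, ⟨⟨ha1, ha2⟩, ha3⟩, ha4, ha5⟩ := left_pt hgne1 hs1 (mem_open ht10 ht11)
      (Filter.inter_mem (key f.z t1 (gc δ g h j)) (inball t1 _ ht12))
    obtain ⟨a', ⟨⟨hb1, hb2⟩, hb3⟩, hb4, hb5⟩ := right_pt hbz' hs3 (mem_open ht30 ht31)
      (Filter.inter_mem (key f.m t3 z') (inball t3 _ ht32))
    refine sector_eq hXc hT (S := Metric.ball f.b r ∩ ({a | 0 < ori f.b f.m a} ∩
      {a | ori f.b f.z a < 0})) ((convex_ball _ _).inter ((conv_pos _ _).inter (conv_neg _ _)))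
      (fun a ha => (hloc a ha.1).1) ?_ hv1.1 hv6 ⟨ha3, ?_, ?_⟩ ha5 ⟨hb3, ?_, ?_⟩ hb5
    · rw [Set.disjoint_left]
      rintro c ⟨hc1, hc2, hc3⟩ hcX
      simp only [Set.mem_ofPred_eq] at hc2 hc3
      rcases (hloc c hc1).2 hcX with h0 | h0 | h0
      · obtain ⟨s, -, rfl⟩ := hwz c h0
        rw [ori_lineMap, self0] at hc3
        linarith
      · obtain ⟨s, -, rfl⟩ := hwj c h0
        rw [ori_lineMap, self0] at hc2
        linarith
      · obtain ⟨s, hs, rfl⟩ := hwj' c h0
        rw [ori_lineMap] at hc2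
        nlinarith
    · show 0 < ori f.b f.m a
      rw [hgo1] at ha4
      exact (mul_pos_iff_of_pos_left hδ1).1 ha4
    · refine ha2 ?_
      rw [gm]
      have := mul_pos ht10 hδ1
      nlinarith
    · refine hb1 ?_
      rw [gz]
      positivity
    · show ori f.b f.z a' < 0
      rw [hz'ori] at hb4
      by_contra hcon
      have := mul_nonneg hs00.le (not_lt.1 hcon)
      linarith
  -- sector `F`
  have eF : cell M (XX E m e y K g w) v2 = cell M (XX E m e y K g w) v3 := by
    obtain ⟨a, ⟨⟨ha1, ha2⟩, ha3⟩, ha4, ha5⟩ := right_pt hgne1 hs1 (mem_open ht10 ht11)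
      (Filter.inter_mem (key f.p t1 (gc δ g h j)) (inball t1 _ ht12))
    obtain ⟨a', ⟨⟨hb1, hb2⟩, hb3⟩, hb4, hb5⟩ := left_pt hgne2 hs2 (mem_open ht20 ht21)
      (Filter.inter_mem (key f.m t2 (gc δ g h j')) (inball t2 _ ht22))
    refine sector_eq hXc hT (S := Metric.ball f.b r ∩ ({a | 0 < ori f.b f.p a} ∩
      {a | ori f.b f.m a < 0})) ((convex_ball _ _).inter ((conv_pos _ _).inter (conv_neg _ _)))
      (fun a ha => (hloc a ha.1).1) ?_ hv2.1 hv3.1 ⟨ha3, ?_, ?_⟩ ha5 ⟨hb3, ?_, ?_⟩ hb5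
    · rw [Set.disjoint_left]
      rintro c ⟨hc1, hc2, hc3⟩ hcX
      simp only [Set.mem_ofPred_eq] at hc2 hc3
      rcases (hloc c hc1).2 hcX with h0 | h0 | h0
      · obtain ⟨s, hs, rfl⟩ := hwz c h0
        rw [ori_lineMap] at hc2
        nlinarith
      · obtain ⟨s, -, rfl⟩ := hwj c h0
        rw [ori_lineMap, self0] at hc3
        linarith
      · obtain ⟨s, -, rfl⟩ := hwj' c h0
        rw [ori_lineMap, self0] at hc2
        linarith
    · refine ha1 ?_
      rw [gm]
      positivity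
    · show ori f.b f.m a < 0
      rw [hgo1] at ha4
      by_contra hcon
      have := mul_nonneg hδ1.le (not_lt.1 hcon)
      linarith
    · show 0 < ori f.b f.p a'
      rw [hgo2] at hb4
      exact (mul_pos_iff_of_pos_left hδ1).1 hb4
    · refine hb2 ?_
      rw [gp']
      have := mul_pos ht20 hδ1
      nlinarith
  -- sector `R`
  have eR : cell M (XX E m e y K g w) v4 = cell M (XX E m e y K g w) v5 := by
    obtain ⟨a, ⟨⟨ha1, ha2⟩, ha3⟩, ha4, ha5⟩ := right_pt hgne2 hs2 (mem_open ht20 ht21)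
      (Filter.inter_mem (key f.z t2 (gc δ g h j')) (inball t2 _ ht22))
    obtain ⟨a', ⟨⟨hb1, hb2⟩, hb3⟩, hb4, hb5⟩ := left_pt hbz' hs3 (mem_open ht30 ht31)
      (Filter.inter_mem (key f.p t3 z') (inball t3 _ ht32))
    refine sector_eq hXc hT (S := Metric.ball f.b r ∩ ({a | 0 < ori f.b f.z a} ∩
      {a | ori f.b f.p a < 0})) ((convex_ball _ _).inter ((conv_pos _ _).inter (conv_neg _ _)))
      (fun a ha => (hloc a ha.1).1) ?_ hv4.1 hv5 ⟨ha3, ?_, ?_⟩ ha5 ⟨hb3, ?_, ?_⟩ hb5
    · rw [Set.disjoint_left]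
      rintro c ⟨hc1, hc2, hc3⟩ hcX
      simp only [Set.mem_ofPred_eq] at hc2 hc3
      rcases (hloc c hc1).2 hcX with h0 | h0 | h0
      · obtain ⟨s, -, rfl⟩ := hwz c h0
        rw [ori_lineMap, self0] at hc2
        linarith
      · obtain ⟨s, hs, rfl⟩ := hwj c h0
        rw [ori_lineMap] at hc2
        nlinarith
      · obtain ⟨s, -, rfl⟩ := hwj' c h0
        rw [ori_lineMap, self0] at hc3
        linarith
    · refine ha1 ?_
      rw [gp']
      positivity
    · show ori f.b f.p a < 0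
      rw [hgo2] at ha4
      by_contra hcon
      have := mul_nonneg hδ1.le (not_lt.1 hcon)
      linarith
    · show 0 < ori f.b f.z a'
      rw [hz'ori] at hb4
      exact (mul_pos_iff_of_pos_left hs00).1 hb4
    · refine hb2 ?_
      rw [gz]
      have := mul_pos ht30 hs00
      nlinarith
  refine ⟨v1, v2, v4, hv1, hv2, hv4, hs1, ?_, z', hz'o, ?_⟩
  · rw [eF]
    exact hs2
  · rw [eR, eL]
    exact hs3


end F059
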