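import Pool.Agent.Lib.F059.DDefs

/-!
# F059D.SlitConn: a set built by adding segments attached at most at one end does not separate

`tip`: U open and preconnected, p ≠ q, all points of the segment [p,q] except possibly p in U.
Then U \ [p,q] is preconnected.
PROOF.  Let A, B be open, U \ [p,q] ⊆ A ∪ B, both meeting U \ [p,q]; suppose A ∩ B ∩ (U \ [p,q]) = ∅.
Put A' = A ∩ (U \ [p,q]), B' = B ∩ (U \ [p,q]): open, disjoint, not empty, union U \ [p,q].
For x in the open segment (p,q) choose r(x) > 0 with ball x r ⊆ U, p, q ∉ ball x r; the two open half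
discs (0 < ori p q ·, and ori p q · < 0) of ball x r are convex and disjoint from [p,q], so each of them
is contained in A' or in B' (preconnected).  So there are functions λ, ρ : (p,q) → {A',B'} (the side
types), locally constant (half discs of neighbouring points overlap), hence constant on the open
segment.  At q: ball q r ⊆ U with p ∉ ball: the set ball q r \ [p,q] is star shaped with centre
c = q + ε(q-p) (a point a of it not on the line p q: the segment [c,a] meets the line only in c; a point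
a of it on the line is beyond q: the segment [c,a] is beyond q), so it is preconnected, and contained
in A' or in B'; it contains points of both half discs of a point x of the open segment close to q.
So λ = ρ = const, say A'.  Then A' ∪ ([p,q] \ {p}) is open (at points of the open segment: half discs
and the points of the segment; at q: the punctured disc and the segment), B' is open, they are disjoint,
their union is U, both not empty: contradicts U preconnected.
(`IsPreconnected` can be used in the form isPreconnected_iff_subset_of_disjoint or directly.)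

`slit_preconnected`: induction over `Slit`: Om M is convex; Om M \ (Y ∪ [p,q]) = (Om M \ Y) \ [p,q], and
Om M \ Y is open (Y closed: finite union of segments).
-/

namespace F059

/-- a point of the thickening of a set in a given direction -/
theorem exists_mem_thickening {S : Set Pt} {z w : Pt} (hz : z ∈ S) {ρ : ℝ} (hρ : 0 < ρ) :
    ∃ ε : ℝ, 0 < ε ∧ z + ε • w ∈ Metric.thickening ρ S ∧ z + ε • w ∈ Metric.ball z ρ := by
  have h1 : 0 < ‖w‖ + 1 := by positivity
  have h2 : dist (z + (ρ / (‖w‖ + 1)) • w) z < ρ := by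
    rw [dist_eq_norm, add_sub_cancel_left, norm_smul, Real.norm_eq_abs,
      abs_of_pos (by positivity), div_mul_eq_mul_div, div_lt_iff₀ h1]
    nlinarith [norm_nonneg w]
  exact ⟨ρ / (‖w‖ + 1), by positivity, Metric.mem_thickening_iff.2 ⟨z, hz, h2⟩,
    Metric.mem_ball.2 h2⟩

/-- abstract form of the contradiction in `tip` -/
theorem tip_aux {U : Set Pt} (hc : IsPreconnected U) {p q d n : Pt}
    (L φ : Pt →L[ℝ] ℝ) (hq : q = p + d) (hLd : L d = 0) (hφd : 0 < φ d) (hLn : 0 < L n)
    (hφn : φ n = 0) (hon : ∀ a, L a = L p → φ p ≤ φ a → φ a ≤ φ q → a ∈ segment ℝ p q)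
    (hs : ∀ x ∈ segment ℝ p q, x ≠ p → x ∈ U) (hU : IsOpen U) {A B : Set Pt} (hA : IsOpen A)
    (hB : IsOpen B) (hAB : Disjoint A B) (hcov : U \ segment ℝ p q = A ∪ B) {r₀ : ℝ}
    (hr₀ : 0 < r₀) (h0 : Metric.ball q r₀ ∩ {a | φ q < φ a} ⊆ A) (hAn : A.Nonempty)
    (hBn : B.Nonempty) : False := by
  have hLq : L q = L p := by rw [hq, map_add, hLd, add_zero]
  have hφq : φ q = φ p + φ d := by rw [hq, map_add]
  have hS : ∀ x ∈ segment ℝ p q, L x = L p ∧ φ p ≤ φ x ∧ φ x ≤ φ q ∧ (φ x = φ p → x = p) := by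
    intro x hx
    rw [segment_eq_image'] at hx
    obtain ⟨t, ⟨ht0, ht1⟩, rfl⟩ := hx
    have hqp : q - p = d := by rw [hq, add_sub_cancel_left]
    rw [hqp, map_add, map_add, map_smul, map_smul, hLd, hφq, smul_eq_mul, smul_eq_mul]
    refine ⟨by ring, by nlinarith, by nlinarith, fun h => ?_⟩
    have h1 : t * φ d = 0 := by linarith
    rcases mul_eq_zero.1 h1 with h2 | h2
    · change p + t • d = p
      rw [h2, zero_smul, add_zero]
    · exact absurd h2 hφd.ne'
  have hkey : ∀ C : Set Pt, Convex ℝ C → C ⊆ U \ segment ℝ p q → (C ∩ A).Nonempty → C ⊆ A :=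
    fun C hC hCU hCA => IsPreconnected.subset_left_of_subset_union hA hB hAB (hcov ▸ hCU) hCA
      hC.isPreconnected
  have hcLgt : Convex ℝ {a | L p < L a} := convex_halfSpace_gt L.isLinear _
  have hcLlt : Convex ℝ {a | L a < L p} := convex_halfSpace_lt L.isLinear _
  have hcφgt : ∀ c, Convex ℝ {a | c < φ a} := fun c => convex_halfSpace_gt φ.isLinear _
  have hcφlt : Convex ℝ {a | φ a < φ p} := convex_halfSpace_lt φ.isLinear _
  have hqS : q ∈ segment ℝ p q := right_mem_segment ℝ p q
  have hpS : p ∈ segment ℝ p q := left_mem_segment ℝ p q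
  have hnb : ∀ x ∈ segment ℝ p q, x ∈ U → ∃ V, IsOpen V ∧ x ∈ V ∧ V \ segment ℝ p q ⊆ A := by
    intro x hx hxU
    have hseg : segment ℝ x q ⊆ segment ℝ p q :=
      (convex_segment p q).segment_subset hx hqS
    have hsegU : segment ℝ x q ⊆ U := by
      intro y hy
      by_cases hyp : y = p
      · have h1 : φ x ≤ φ y := by
          rw [segment_eq_image'] at hy
          obtain ⟨t, ⟨ht0, ht1⟩, rfl⟩ := hy
          rw [map_add, map_smul, map_sub, smul_eq_mul]
          have := (hS x hx).2.2.1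
          nlinarith
        have h2 : x = p := (hS x hx).2.2.2 (le_antisymm (by rw [← hyp]; exact h1) (hS x hx).2.1)
        rw [hyp, ← h2]
        exact hxU
      · exact hs y (hseg hy) hyp
    have hcomp : IsCompact (segment ℝ x q) := by
      rw [segment_eq_image']
      exact isCompact_Icc.image (by fun_prop)
    obtain ⟨ρ, hρ, hT⟩ := hcomp.exists_thickening_subset_open hU hsegU
    have hTc : Convex ℝ (Metric.thickening ρ (segment ℝ x q)) := (convex_segment x q).thickening ρ
    have hqx : q ∈ segment ℝ x q := right_mem_segment ℝ x q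
    have hxx : x ∈ segment ℝ x q := left_mem_segment ℝ x q
    -- the part beyond the tip
    have hE : Metric.thickening ρ (segment ℝ x q) ∩ {a | φ q < φ a} ⊆ A := by
      refine hkey _ (hTc.inter (hcφgt _)) ?_ ?_
      · rintro a ⟨ha1, ha2⟩
        exact ⟨hT ha1, fun ha => absurd (hS a ha).2.2.1 (not_le.2 ha2)⟩
      · obtain ⟨ε, hε, h1, h2⟩ := exists_mem_thickening (w := d) hqx (lt_min hρ hr₀)
        have h3 : q + ε • d ∈ {a | φ q < φ a} := by
          change φ q < φ (q + ε • d)
          rw [map_add, map_smul, smul_eq_mul]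
          have := mul_pos hε hφd
          linarith
        exact ⟨_, ⟨Metric.thickening_mono (min_le_left _ _) _ h1, h3⟩,
          h0 ⟨Metric.ball_subset_ball (min_le_right _ _) h2, h3⟩⟩
    have hHp : Metric.thickening ρ (segment ℝ x q) ∩ {a | L p < L a} ⊆ A := by
      refine hkey _ (hTc.inter hcLgt) ?_ ?_
      · rintro a ⟨ha1, ha2⟩
        exact ⟨hT ha1, fun ha => absurd (hS a ha).1 (ne_of_gt ha2)⟩
      · obtain ⟨ε, hε, h1, -⟩ := exists_mem_thickening (w := d + n) hqx hρ
        refine ⟨_, ⟨h1, ?_⟩, hE ⟨h1, ?_⟩⟩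
        · change L p < L (q + ε • (d + n))
          rw [map_add, map_smul, map_add, smul_eq_mul, hLd, hLq]
          have := mul_pos hε hLn
          linarith
        · change φ q < φ (q + ε • (d + n))
          rw [map_add, map_smul, map_add, smul_eq_mul, hφn]
          have := mul_pos hε hφd
          linarith
    have hHm : Metric.thickening ρ (segment ℝ x q) ∩ {a | L a < L p} ⊆ A := by
      refine hkey _ (hTc.inter hcLlt) ?_ ?_
      · rintro a ⟨ha1, ha2⟩
        exact ⟨hT ha1, fun ha => absurd (hS a ha).1 (ne_of_lt ha2)⟩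
      · obtain ⟨ε, hε, h1, -⟩ := exists_mem_thickening (w := d - n) hqx hρ
        refine ⟨_, ⟨h1, ?_⟩, hE ⟨h1, ?_⟩⟩
        · change L (q + ε • (d - n)) < L p
          rw [map_add, map_smul, map_sub, smul_eq_mul, hLd, hLq]
          have := mul_pos hε hLn
          linarith
        · change φ q < φ (q + ε • (d - n))
          rw [map_add, map_smul, map_sub, smul_eq_mul, hφn]
          have := mul_pos hε hφd
          linarith
    have hmem : ∀ a ∈ Metric.thickening ρ (segment ℝ x q), a ∉ segment ℝ p q → φ p ≤ φ a →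
        a ∈ A := by
      intro a ha haS hpa
      rcases lt_trichotomy (L p) (L a) with h | h | h
      · exact hHp ⟨ha, h⟩
      · refine hE ⟨ha, ?_⟩
        change φ q < φ a
        by_contra hcon
        exact haS (hon a h.symm hpa (not_lt.1 hcon))
      · exact hHm ⟨ha, h⟩
    have hxT : x ∈ Metric.thickening ρ (segment ℝ x q) :=
      Metric.self_subset_thickening hρ _ hxx
    by_cases hxp : x = p
    · refine ⟨Metric.thickening ρ (segment ℝ x q), Metric.isOpen_thickening, hxT, ?_⟩
      have hE' : Metric.thickening ρ (segment ℝ x q) ∩ {a | φ a < φ p} ⊆ A := by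
        refine hkey _ (hTc.inter hcφlt) ?_ ?_
        · rintro a ⟨ha1, ha2⟩
          exact ⟨hT ha1, fun ha => absurd (hS a ha).2.1 (not_le.2 ha2)⟩
        · obtain ⟨ε, hε, h1, -⟩ := exists_mem_thickening (w := n - d) hxx hρ
          refine ⟨_, ⟨h1, ?_⟩, hHp ⟨h1, ?_⟩⟩
          · change φ (x + ε • (n - d)) < φ p
            rw [map_add, map_smul, map_sub, smul_eq_mul, hφn, hxp]
            have := mul_pos hε hφd
            linarith
          · change L p < L (x + ε • (n - d))
            rw [map_add, map_smul, map_sub, smul_eq_mul, hLd, hxp]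
            have := mul_pos hε hLn
            linarith
      rintro a ⟨ha1, ha2⟩
      rcases lt_or_ge (φ a) (φ p) with h | h
      · exact hE' ⟨ha1, h⟩
      · exact hmem a ha1 ha2 h
    · refine ⟨Metric.thickening ρ (segment ℝ x q) ∩ {a | φ p < φ a},
        Metric.isOpen_thickening.inter (isOpen_lt continuous_const φ.continuous), ⟨hxT, ?_⟩, ?_⟩
      · exact lt_of_le_of_ne (hS x hx).2.1 fun h => hxp ((hS x hx).2.2.2 h.symm)
      · rintro a ⟨⟨ha1, ha3⟩, ha2⟩
        exact hmem a ha1 ha2 (le_of_lt ha3)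
  have hAU : A ⊆ U \ segment ℝ p q := hcov ▸ Set.subset_union_left
  have hBU : B ⊆ U \ segment ℝ p q := hcov ▸ Set.subset_union_right
  obtain ⟨z, hzU, hz1, hz2⟩ := hc (⋃₀ {V | IsOpen V ∧ V \ segment ℝ p q ⊆ A}) B
    (isOpen_sUnion fun V hV => hV.1) hB (by
      intro x hx
      by_cases hxS : x ∈ segment ℝ p q
      · obtain ⟨V, hV1, hV2, hV3⟩ := hnb x hxS hx
        exact Or.inl ⟨V, ⟨hV1, hV3⟩, hV2⟩
      · have hx' : x ∈ A ∪ B := by rw [← hcov]; exact ⟨hx, hxS⟩
        rcases hx' with h | h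
        · exact Or.inl ⟨A, ⟨hA, Set.sdiff_subset⟩, h⟩
        · exact Or.inr h)
    (by
      obtain ⟨x, hx⟩ := hAn
      exact ⟨x, (hAU hx).1, A, ⟨hA, Set.sdiff_subset⟩, hx⟩)
    (by
      obtain ⟨x, hx⟩ := hBn
      exact ⟨x, (hBU hx).1, hx⟩)
  obtain ⟨V, ⟨-, hV⟩, hzV⟩ := hz1
  exact Set.disjoint_left.1 hAB (hV ⟨hzV, (hBU hz2).2⟩) hz2

theorem tip {U : Set Pt} (hU : IsOpen U) (hc : IsPreconnected U) {p q : Pt} (hpq : p ≠ q)
    (hs : ∀ x ∈ segment ℝ p q, x ≠ p → x ∈ U) : IsPreconnected (U \ segment ℝ p q) := by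
  set L : Pt →L[ℝ] ℝ := (q.1 - p.1) • ContinuousLinearMap.snd ℝ ℝ ℝ -
    (q.2 - p.2) • ContinuousLinearMap.fst ℝ ℝ ℝ with hL
  set φ : Pt →L[ℝ] ℝ := (q.1 - p.1) • ContinuousLinearMap.fst ℝ ℝ ℝ +
    (q.2 - p.2) • ContinuousLinearMap.snd ℝ ℝ ℝ with hφ
  have hLa : ∀ a : Pt, L a = (q.1 - p.1) * a.2 - (q.2 - p.2) * a.1 := fun a => rfl
  have hφa : ∀ a : Pt, φ a = (q.1 - p.1) * a.1 + (q.2 - p.2) * a.2 := fun a => rfl
  have hN : 0 < (q.1 - p.1) ^ 2 + (q.2 - p.2) ^ 2 := by
    by_contra hcon
    have h1 : q.1 - p.1 = 0 := by nlinarith [sq_nonneg (q.1 - p.1), sq_nonneg (q.2 - p.2)]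
    have h2 : q.2 - p.2 = 0 := by nlinarith [sq_nonneg (q.1 - p.1), sq_nonneg (q.2 - p.2)]
    exact hpq (Prod.ext (by linarith) (by linarith))
  have hq : q = p + (q - p) := by rw [add_sub_cancel]
  have hLd : L (q - p) = 0 := by
    rw [hLa, Prod.fst_sub, Prod.snd_sub]; ring
  have hφd : 0 < φ (q - p) := by
    rw [hφa, Prod.fst_sub, Prod.snd_sub]; nlinarith
  have hLn : 0 < L (-(q.2 - p.2), q.1 - p.1) := by
    rw [hLa]; simp only; nlinarith
  have hφn : φ (-(q.2 - p.2), q.1 - p.1) = 0 := by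
    rw [hφa]; simp only; ring
  have hon : ∀ a, L a = L p → φ p ≤ φ a → φ a ≤ φ q → a ∈ segment ℝ p q := by
    intro a h1 h2 h3
    rw [hLa, hLa] at h1
    rw [hφa, hφa] at h2 h3
    rw [segment_eq_image']
    refine ⟨((q.1 - p.1) * (a.1 - p.1) + (q.2 - p.2) * (a.2 - p.2)) /
      ((q.1 - p.1) ^ 2 + (q.2 - p.2) ^ 2), ⟨?_, ?_⟩, ?_⟩
    · apply div_nonneg _ hN.le
      linarith
    · rw [div_le_one hN]
      nlinarith
    · ext
      · simp only [Prod.fst_add, Prod.smul_fst, Prod.fst_sub, smul_eq_mul]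
        field_simp
        linear_combination (q.2 - p.2) * h1
      · simp only [Prod.snd_add, Prod.smul_snd, Prod.snd_sub, smul_eq_mul]
        field_simp
        linear_combination (-(q.1 - p.1)) * h1
  have hScl : IsClosed (segment ℝ p q) := by
    rw [segment_eq_image']
    exact (isCompact_Icc.image (by fun_prop)).isClosed
  have hqS : q ∈ segment ℝ p q := right_mem_segment ℝ p q
  have hqU : q ∈ U := hs q hqS hpq.symm
  obtain ⟨r₀, hr₀, hball⟩ := Metric.isOpen_iff.1 hU q hqU
  intro u v hu hv huv hun hvn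
  by_contra hemp
  rw [Set.not_nonempty_iff_eq_empty] at hemp
  have hUS : IsOpen (U \ segment ℝ p q) := hU.sdiff hScl
  have hA : IsOpen (u ∩ (U \ segment ℝ p q)) := hu.inter hUS
  have hB : IsOpen (v ∩ (U \ segment ℝ p q)) := hv.inter hUS
  have hAB : Disjoint (u ∩ (U \ segment ℝ p q)) (v ∩ (U \ segment ℝ p q)) := by
    rw [Set.disjoint_left]
    rintro x ⟨hx1, hx2⟩ ⟨hx3, -⟩
    have : x ∈ (∅ : Set Pt) := by rw [← hemp]; exact ⟨hx2, hx1, hx3⟩
    exact this
  have hcov : U \ segment ℝ p q = (u ∩ (U \ segment ℝ p q)) ∪ (v ∩ (U \ segment ℝ p q)) := by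
    rw [← Set.union_inter_distrib_right]
    exact (Set.inter_eq_right.2 huv).symm
  have hAn : (u ∩ (U \ segment ℝ p q)).Nonempty := by rw [Set.inter_comm]; exact hun
  have hBn : (v ∩ (U \ segment ℝ p q)).Nonempty := by rw [Set.inter_comm]; exact hvn
  have hC0 : Metric.ball q r₀ ∩ {a | φ q < φ a} ⊆ U \ segment ℝ p q := by
    rintro a ⟨ha1, ha2⟩
    refine ⟨hball ha1, fun ha => ?_⟩
    rw [segment_eq_image'] at ha
    obtain ⟨t, ⟨ht0, ht1⟩, rfl⟩ := ha
    change φ q < φ (p + t • (q - p)) at ha2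
    rw [map_add, map_smul, smul_eq_mul] at ha2
    have h1 : φ q = φ p + φ (q - p) := by rw [← map_add, add_sub_cancel]
    nlinarith
  have hC0c : IsPreconnected (Metric.ball q r₀ ∩ {a | φ q < φ a}) :=
    ((convex_ball q r₀).inter (convex_halfSpace_gt φ.isLinear _)).isPreconnected
  have hC0' := hC0
  rw [hcov] at hC0'
  rcases (isPreconnected_iff_subset_of_disjoint.1 hC0c) _ _ hA hB hC0' (by
    rw [hAB.inter_eq, Set.inter_empty]) with h | h
  · exact tip_aux hc L φ hq hLd hφd hLn hφn hon hs hU hA hB hAB hcov hr₀ h hAn hBn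
  · exact tip_aux hc L φ hq hLd hφd hLn hφn hon hs hU hB hA hAB.symm
      (by rw [Set.union_comm]; exact hcov) hr₀ h hBn hAn

theorem Slit.isClosed {M : ℝ} {Y : Set Pt} (h : Slit M Y) : IsClosed Y := by
  induction h with
  | empty => exact isClosed_empty
  | @add Y p q hY hpq hq hi ih =>
    refine ih.union ?_
    rw [segment_eq_image']
    exact (isCompact_Icc.image (by fun_prop)).isClosed

theorem slit_preconnected {M : ℝ} {Y : Set Pt} (h : Slit M Y) :
    IsClosed Y ∧ IsPreconnected (Om M \ Y) := by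
  refine ⟨h.isClosed, ?_⟩
  induction h with
  | empty =>
    rw [Set.sdiff_empty]
    exact (convex_ball _ _).isPreconnected
  | @add Y p q hY hpq hq hi ih =>
    rw [← Set.sdiff_sdiff]
    refine tip (Metric.isOpen_ball.sdiff hY.isClosed) ih hpq fun x hx hxp => ?_
    constructor
    · by_contra hcon
      exact hxp (hi ⟨hx, Or.inr hcon⟩)
    · intro hxY
      exact hxp (hi ⟨hx, Or.inl hxY⟩)

end F059
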