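import Pool.Agent.Lib.F059.DDefs

/-!
# F059D.Rank: the orders of the pieces (purely combinatorial)

Walls W_0, ..., W_{m-1} and stars S_0, ..., S_{m-1}.  A k i : the end y_k of wall k is on the star S_i; B k i : y_k is on the wall W_i and y_k ≠ y_i.
k is linked if k+1 < m and A k (k+1).  `RankOK C`: ranks such that every piece can be drawn after the pieces on which it ends,
and every wall with index not in C before its star.
The RUN END r(k) of k is the least r ≥ k which is not linked.
Ce = {k < m : k unlinked, ∃ i < k, r(i) = k and (A k i ∨ B k i)}.   Cf = {k - 1 : k ∈ Ce}.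
-/

namespace F059

/-- ranks for the walls and the stars which make the drawing order possible -/
def RankOK (m : ℕ) (A B : ℕ → ℕ → Prop) (C : Finset ℕ) (ρW ρS : ℕ → ℕ) : Prop :=
  (∀ k < m, ∀ i < m, A k i → ρS i < ρW k) ∧ (∀ k < m, ∀ i < m, B k i → ρW i < ρW k) ∧
    ∀ i < m, i ∉ C → ρW i < ρS i

/-- run ends -/
private theorem exists_runEnd (m : ℕ) (L : ℕ → Prop) (hL : ∀ k, L k → k + 1 < m) :
    ∃ r : ℕ → ℕ, (∀ k, k ≤ r k) ∧ (∀ k, ¬ L (r k)) ∧ (∀ k j, k ≤ j → j < r k → L j) ∧
      (∀ k, k < m → r k < m) := by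
  classical
  have hex : ∀ k, ∃ j, k ≤ j ∧ ¬ L j := by
    intro k
    refine ⟨k + m, Nat.le_add_right _ _, fun h => ?_⟩
    have := hL _ h
    omega
  refine ⟨fun k => Nat.find (hex k), fun k => (Nat.find_spec (hex k)).1,
    fun k => (Nat.find_spec (hex k)).2, ?_, ?_⟩
  · intro k j hkj hj
    by_contra hn
    exact Nat.find_min (hex k) hj ⟨hkj, hn⟩
  · intro k hk
    have h1 : Nat.find (hex k) ≤ m - 1 := by
      refine Nat.find_min' (hex k) ⟨by omega, fun h => ?_⟩
      have := hL _ h
      omega
    show Nat.find (hex k) < m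
    omega

private theorem base_lt {a b c x y : ℕ} (hab : a < b) (hx : x < c) : a * c + x < b * c + y := by
  have h1 : (a + 1) * c ≤ b * c := Nat.mul_le_mul_right c hab
  have h2 : (a + 1) * c = a * c + c := by ring
  omega

theorem ranks (m : ℕ) (A B : ℕ → ℕ → Prop)
    (f1 : ∀ k < m, ∀ i < m, A k i → i < k ∨ i = k + 1)
    (f2 : ∀ k, k + 1 < m → A k (k + 1) → ∀ i < m, A k i → i = k + 1)
    (f3 : ∀ k < m, ∀ i < m, B k i → i < k)
    (f3' : ∀ k, k + 1 < m → A k (k + 1) → ∀ i < m, ¬ B k i)
    (f4 : ∀ k, k + 1 < m → A k (k + 1) → ¬ B (k + 1) k) :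
    ∃ Ce Cf : Finset ℕ, Ce ⊆ Finset.range m ∧ Cf ⊆ Finset.range m ∧ Disjoint Ce Cf ∧
      (∃ ρW ρS, RankOK m A B Ce ρW ρS) ∧ (∃ ρW ρS, RankOK m A B Cf ρW ρS) := by
  classical
  obtain ⟨r, hr1, hr2, hr3, hr4⟩ := exists_runEnd m (fun k => k + 1 < m ∧ A k (k + 1))
    (fun k h => h.1)
  have hmem : ∀ k j, k ≤ j → j ≤ r k → r j = r k := by
    intro k j hkj hj
    apply le_antisymm
    · by_contra hlt
      push Not at hlt
      exact hr2 k (hr3 j (r k) hj hlt)
    · by_contra hlt
      push Not at hlt
      exact hr2 j (hr3 k (r j) (hkj.trans (hr1 j)) hlt)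
  have hunl : ∀ k, ¬ (k + 1 < m ∧ A k (k + 1)) → r k = k := by
    intro k hk
    rcases (hr1 k).lt_or_eq with h | h
    · exact absurd (hr3 k k le_rfl h) hk
    · exact h.symm
  have hmono : ∀ i k, i ≤ k → r i ≤ r k := by
    intro i k hik
    by_cases h : k ≤ r i
    · exact (hmem i k hik h).ge
    · have := hr1 k
      omega
  set Ce : Finset ℕ := (Finset.range m).filter
    (fun k => ¬ (k + 1 < m ∧ A k (k + 1)) ∧ ∃ i < k, r i = k ∧ (A k i ∨ B k i)) with hCe
  have hCe' : ∀ k, k ∈ Ce ↔ k < m ∧ ¬ (k + 1 < m ∧ A k (k + 1)) ∧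
      ∃ i < k, r i = k ∧ (A k i ∨ B k i) := by
    intro k
    simp [hCe]
  set Cf : Finset ℕ := Ce.image (fun k => k - 1) with hCf
  -- the two situations in which a wall ends on an earlier piece
  have key : ∀ k < m, ¬ (k + 1 < m ∧ A k (k + 1)) → ∀ i < m, (A k i ∨ B k i) →
      i < k ∧ r k = k ∧ (r i < k ∨ (r i = k ∧ k ∈ Ce)) := by
    intro k hk hkl i hi hAB
    have hik : i < k := by
      rcases hAB with h | h
      · rcases f1 k hk i hi h with h1 | h1
        · exact h1
        · subst h1
          exact absurd ⟨hi, h⟩ hkl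
      · exact f3 k hk i hi h
    have hrk := hunl k hkl
    refine ⟨hik, hrk, ?_⟩
    have h1 := hmono i k hik.le
    rw [hrk] at h1
    rcases h1.lt_or_eq with h2 | h2
    · exact Or.inl h2
    · exact Or.inr ⟨h2, (hCe' k).2 ⟨hk, hkl, i, hik, h2, hAB⟩⟩
  refine ⟨Ce, Cf, Finset.filter_subset _ _, ?_, ?_, ?_, ?_⟩
  · intro x hx
    rw [hCf, Finset.mem_image] at hx
    obtain ⟨k, hk, rfl⟩ := hx
    have := ((hCe' k).1 hk).1
    rw [Finset.mem_range]
    omega
  · rw [Finset.disjoint_left]
    intro x hx hx'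
    rw [hCf, Finset.mem_image] at hx'
    obtain ⟨k, hk, rfl⟩ := hx'
    obtain ⟨hkm, hkl, i, hik, hri, _⟩ := (hCe' k).1 hk
    exact ((hCe' _).1 hx).2.1 (hr3 i (k - 1) (by omega) (by omega))
  · refine ⟨fun i => r i * (4 * m + 4) + (if i ∈ Ce then 4 * m + 2 else 2 * (r i - i)),
      fun i => r i * (4 * m + 4) + (2 * (r i - i) + 1), ?_, ?_, ?_⟩
    · intro k hk i hi hA
      by_cases hkl : k + 1 < m ∧ A k (k + 1)
      · have hi' := f2 k hkl.1 hkl.2 i hi hA
        subst hi'
        have hlt : k < r k := by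
          rcases (hr1 k).lt_or_eq with h | h
          · exact h
          · exact absurd hkl (by have := hr2 k; rwa [← h] at this)
        have h1 := hmem k (k + 1) (by omega) (by omega)
        have h2 : k ∉ Ce := fun h => ((hCe' k).1 h).2.1 hkl
        simp only [h1, if_neg h2]
        omega
      · obtain ⟨hik, hrk, hor⟩ := key k hk hkl i hi (Or.inl hA)
        have h4 := hr4 i hi
        simp only [hrk]
        rcases hor with h | ⟨h, hc⟩
        · exact base_lt h (by omega)
        · rw [if_pos hc, h]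
          omega
    · intro k hk i hi hB
      have hkl : ¬ (k + 1 < m ∧ A k (k + 1)) := fun h => f3' k h.1 h.2 i hi hB
      obtain ⟨hik, hrk, hor⟩ := key k hk hkl i hi (Or.inr hB)
      have h4 := hr4 i hi
      simp only [hrk]
      rcases hor with h | ⟨h, hc⟩
      · refine base_lt h ?_
        split_ifs <;> omega
      · have h2 : i ∉ Ce := by
          intro hh
          exact ((hCe' i).1 hh).2.1 (hr3 i i le_rfl (by omega))
        rw [if_pos hc, if_neg h2, h]
        omega
    · intro i hi hiC
      simp only [if_neg hiC]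
      omega
  · refine ⟨fun i => r i * (4 * m + 4) + (if r i ∈ Ce ∧ i + 1 = r i then 4 * m + 3 else
        if r i ∈ Ce ∧ i = r i then 4 * m + 1 else 2 * (r i - i)),
      fun i => r i * (4 * m + 4) + (if r i ∈ Ce ∧ i + 1 = r i then 0 else
        if r i ∈ Ce ∧ i = r i then 4 * m + 2 else 2 * (r i - i) + 1), ?_, ?_, ?_⟩
    · intro k hk i hi hA
      by_cases hkl : k + 1 < m ∧ A k (k + 1)
      · have hi' := f2 k hkl.1 hkl.2 i hi hA
        subst hi'
        have hlt : k < r k := by
          rcases (hr1 k).lt_or_eq with h | h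
          · exact h
          · exact absurd hkl (by have := hr2 k; rwa [← h] at this)
        have h1 := hmem k (k + 1) (by omega) (by omega)
        have h4 := hr4 k hk
        simp only [h1]
        by_cases hc : r k ∈ Ce
        · simp only [hc, true_and]
          split_ifs <;> omega
        · simp only [hc, false_and, if_false]
          omega
      · obtain ⟨hik, hrk, hor⟩ := key k hk hkl i hi (Or.inl hA)
        have h4 := hr4 i hi
        simp only [hrk]
        rcases hor with h | ⟨h, hc⟩
        · refine base_lt h ?_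
          split_ifs <;> omega
        · simp only [h, hc, true_and]
          split_ifs <;> omega
    · intro k hk i hi hB
      have hkl : ¬ (k + 1 < m ∧ A k (k + 1)) := fun h => f3' k h.1 h.2 i hi hB
      obtain ⟨hik, hrk, hor⟩ := key k hk hkl i hi (Or.inr hB)
      have h4 := hr4 i hi
      simp only [hrk]
      rcases hor with h | ⟨h, hc⟩
      · refine base_lt h ?_
        split_ifs <;> omega
      · have hne : i + 1 ≠ k := by
          intro hh
          have hl := hr3 i i le_rfl (by omega)
          subst hh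
          exact f4 i hl.1 hl.2 hB
        simp only [h, hc, true_and]
        split_ifs <;> omega
    · intro i hi hiC
      have hn : ¬ (r i ∈ Ce ∧ i + 1 = r i) := by
        rintro ⟨h1, h2⟩
        apply hiC
        rw [hCf, Finset.mem_image]
        exact ⟨r i, h1, by omega⟩
      simp only [if_neg hn]
      split_ifs <;> omega

end F059
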