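import Pool.Agent.Lib.F059.SlitRank
import Pool.Agent.Lib.F059.Cut
import Pool.Agent.Lib.F059.Rank

/-!
# F059D.SlitYY: the systems with openings are slit sets

relA k i : y k ∈ starAt E (e i).z;   relB k i : y k ∈ cw e y i and y k ≠ y i.

`rank_facts` (f1)-(f4) of `ranks`.  PROOF.  (s) stars of different centres are disjoint (`star_star`), so y k is in at most one star: f2.
f1: claim by strong induction on k: y k ∈ starAt (e i).z, i < m → i < k ∨ i = k+1.  `hit` k: y k ∉ Om M: impossible (star_Om).  y k ∈ star edge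
of e (k+1): i = k+1 by (s) and `inj`.  ∃ l < k, y k ∈ starAt (e l).z: i = l < k.  ∃ l < k, y k ∈ cw l: y k ∈ stars, so by `wall_star` y k = (e l).z (impossible,
y_notin_P) or y k = y l; induction for l: i < l or i = l+1 ≤ k; i = k is impossible: y k ∈ cw k ∩ own star gives y k = z (own_star), contradiction y_notin_P.
f3: B k i: i ≠ k as y k ≠ y i; if k < i: `wall_wall` (k < i, x = y k ∈ cw i and ∈ cw k): x = y i: contradiction.  So i < k.
f3': A k (k+1) and B k i: y k ∈ stars and y k ∈ cw i: wall_star: y k = (e i).z (no, y_notin_P) or y k = y i: contradiction.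
f4: let y k ∈ starAt (e (k+1)).z, by f1-type argument (hit) even y k ∈ segment (e (k+1)).z (e (k+1)).b: from `hit` k: y k ∉ Om impossible; second alternative is what we want; third: an earlier star l < k:
contradiction to (s); an earlier wall l < k: y k = y l as above, then f1 for l gives k+1 < l or k+1 = l+1: contradiction.  Suppose
y (k+1) ∈ cw k.  The line of cw (k+1) is the line of (e (k+1)).z, (e (k+1)).b, it contains y k and y (k+1), both also on the line of cw k ((e k).z, (e k).b).  If y k ≠ y (k+1) the lines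
are equal: then (e k).z, (e k).b, (e (k+1)).z are collinear, three different points of P: contradiction.  And
y (k+1) ≠ y k: B requires it.

`slit_YY`.  PROOF by `slit_of_rank` with index type Leaf ⊕ ℕ ⊕ ℕ: star edge f ∈ E: p = f.z, q = f.b, rank ρS i where (e i).z = f.z; wall i < m:
p = y i, q = (e i).z or zc δ e i (i ∈ C), rank ρW i; gadget wall j < K: p = w j, q = gc δ g h j, rank N + j, N larger than all ρS, ρW (i < m).
Conditions (x a common point, rank of the second ≤ rank of the first, to show x = p of the first):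
 star/star: star_star: x = f.z.   star f (i) / wall k with ρW k ≤ ρS i: x = (e k).z or y k (wall_star); x = (e k).z: P_star: = f.z.  (or = f.b: no, zne).  x = y k: A k i gives ρS i < ρW k: contradiction.
 wall k / star f (i), ρS i ≤ ρW k: x = y k: fine; x = (e k).z: then f.z = x (P_star, zne), i = k; if k ∈ C x is not on [zc, y]; otherwise ρW k < ρS k: contradiction.
 wall k / wall i, ρW i ≤ ρW k: i < k: wall_wall: x = y k.  k < i: x = y i ∈ cw k; if y i ≠ y k then B i k gives ρW k < ρW i: contradiction; so x = y k.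
 gadget j / star, wall: gad_star, gad_wall: x = w j (b_j is not on [gc, w]).  star, wall / gadget: the rank of the gadget wall is larger: excluded.
 gadget j / gadget i, i < j: gad_gad: x = w j (or x = b_j: not on [gc,w]).   (i > j excluded by rank)
 hom: star edges are in Om M (star_Om), open walls in Om M by `free`, z, zc, gc in Om M.
-/

namespace F059

variable {P : Finset Pt} {M : ℝ} {E : Finset Leaf} {m : ℕ} {e : ℕ → Leaf} {y : ℕ → Pt}
  {K : ℕ} {g : ℕ → Leaf} {h w : ℕ → Pt}

/-- the end of wall `k` is on the star of centre `(e i).z` -/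
def relA (E : Finset Leaf) (e : ℕ → Leaf) (y : ℕ → Pt) (k i : ℕ) : Prop :=
  y k ∈ starAt E (e i).z

/-- the end of wall `k` is on the wall `i` but is not its end -/
def relB (e : ℕ → Leaf) (y : ℕ → Pt) (k i : ℕ) : Prop := y k ∈ cw e y i ∧ y k ≠ y i

section facts

variable (hgp : GenPos P) (hE : StarSys P E) (hP : ∀ p ∈ P, p ∈ Om M) (hW : Walls M E m e y)

theorem sl_starAt_sub_stars {c : Pt} : starAt E c ⊆ stars E := by
  intro x hx
  unfold starAt at hx
  simp only [Set.mem_iUnion] at hx
  obtain ⟨f, hf, -, hx⟩ := hx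
  unfold stars
  exact Set.mem_biUnion hf hx

include hE hP in
theorem sl_stars_Om {x : Pt} (hx : x ∈ stars E) : x ∈ Om M := by
  unfold stars at hx
  simp only [Set.mem_iUnion] at hx
  obtain ⟨f, hf, hx⟩ := hx
  exact star_Om hE hP hf hx

include hgp hE hW in
/-- the stars of different centres are disjoint -/
theorem sl_star_uniq {i i' : ℕ} (hi : i < m) (hi' : i' < m) {x : Pt}
    (h : x ∈ starAt E (e i).z) (h' : x ∈ starAt E (e i').z) : i = i' := by
  unfold starAt at h h'
  simp only [Set.mem_iUnion] at h h'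
  obtain ⟨f, hf, hfz, hx⟩ := h
  obtain ⟨f', hf', hfz', hx'⟩ := h'
  apply hW.inj i hi i' hi'
  by_cases hff : f = f'
  · rw [← hfz, ← hfz', hff]
  · have := (star_star hgp hE hf hf' hff hx hx').1
    rw [← hfz, ← hfz', this]

include hE hW in
theorem slit_z_mem {i : ℕ} (hi : i < m) : (e i).z ∈ P := (hE.mem _ (hW.memE i hi)).1

theorem slit_y_mem_cw (i : ℕ) : y i ∈ cw e y i := right_mem_segment ℝ _ _

include hgp hE hW in
theorem sl_not_relA_self {k : ℕ} (hk : k < m) : ¬ relA E e y k k := by
  intro h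
  unfold relA starAt at h
  simp only [Set.mem_iUnion] at h
  obtain ⟨f, hf, hfz, hx⟩ := h
  have h1 := own_star hgp hE hW hk hf hfz (slit_y_mem_cw k) hx
  exact y_notin_P hgp hE hW hk (h1 ▸ slit_z_mem hE hW hk)

include hgp hE hW in
/-- the end of a wall on a star and on another wall is the end of this wall -/
theorem sl_y_eq_of_cw {k l : ℕ} (hk : k < m) (hl : l < m) (h : y k ∈ cw e y l)
    (h' : y k ∈ stars E) : y k = y l := by
  rcases wall_star hW hl h h' with h1 | h1
  · exact absurd (h1 ▸ slit_z_mem hE hW hl) (y_notin_P hgp hE hW hk)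
  · exact h1

include hgp hE hP hW in
theorem sl_fact1 (k : ℕ) : k < m → ∀ i < m, relA E e y k i → i < k ∨ i = k + 1 := by
  induction k using Nat.strong_induction_on with
  | _ k ih =>
    intro hk i hi hA
    have hst : y k ∈ stars E := sl_starAt_sub_stars hA
    rcases hW.hit k hk with h1 | ⟨h1, h2⟩ | ⟨l, hl, h1 | h1⟩
    · exact absurd (sl_stars_Om hE hP hst) h1
    · right
      have h3 : y k ∈ starAt E (e (k + 1)).z := by
        unfold starAt
        simp only [Set.mem_iUnion]
        exact ⟨e (k + 1), hW.memE _ h1, rfl, h2⟩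
      exact sl_star_uniq hgp hE hW hi h1 hA h3
    · left
      have h2 := sl_y_eq_of_cw hgp hE hW hk (hl.trans hk) h1 hst
      have h3 : relA E e y l i := by
        unfold relA at hA ⊢
        rw [← h2]
        exact hA
      have h4 : i ≠ k := by
        rintro rfl
        exact sl_not_relA_self hgp hE hW hk hA
      rcases ih l hl (hl.trans hk) i hi h3 with h5 | h5
      · omega
      · omega
    · left
      have := sl_star_uniq hgp hE hW hi (hl.trans hk) hA h1
      omega

theorem sl_on_ray_zero {u v z b : Pt} {a t : ℝ} {F : Pt → ℝ}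
    (hF : ∀ (r : ℝ) (p q : Pt), F ((1 - r) • p + r • q) = (1 - r) * F p + r * F q)
    (hu : u = (1 - a) • z + a • b) (hv : v = z + t • (z - b)) (ha : 0 ≤ a) (ht : 0 < t)
    (h1 : F u = 0) (h2 : F v = 0) : F z = 0 := by
  have e1 : v = (1 - (-t)) • z + (-t) • b := by
    rw [hv]
    module
  rw [hu, hF] at h1
  rw [e1, hF] at h2
  have h3 : (t + a) * F z = 0 := by linear_combination t * h1 + a * h2
  rcases mul_eq_zero.1 h3 with h | h
  · linarith
  · exact h

theorem sl_ori_affine (p q : Pt) (r : ℝ) (a b : Pt) :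
    ori p q ((1 - r) • a + r • b) = (1 - r) * ori p q a + r * ori p q b := by
  unfold ori
  simp only [Prod.smul_fst, Prod.fst_add, smul_eq_mul, Prod.smul_snd, Prod.snd_add]
  ring

end facts

theorem rank_facts (hgp : GenPos P) (hE : StarSys P E) (hP : ∀ p ∈ P, p ∈ Om M)
    (hW : Walls M E m e y) :
    (∀ k < m, ∀ i < m, relA E e y k i → i < k ∨ i = k + 1) ∧
    (∀ k, k + 1 < m → relA E e y k (k + 1) → ∀ i < m, relA E e y k i → i = k + 1) ∧
    (∀ k < m, ∀ i < m, relB e y k i → i < k) ∧
    (∀ k, k + 1 < m → relA E e y k (k + 1) → ∀ i < m, ¬ relB e y k i) ∧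
    (∀ k, k + 1 < m → relA E e y k (k + 1) → ¬ relB e y (k + 1) k) := by
  refine ⟨fun k hk i hi h => sl_fact1 hgp hE hP hW k hk i hi h, ?_, ?_, ?_, ?_⟩
  · intro k hk hA i hi hAi
    exact sl_star_uniq hgp hE hW hi hk hAi hA
  · intro k hk i hi hB
    obtain ⟨h1, h2⟩ := hB
    by_contra h3
    push Not at h3
    rcases eq_or_lt_of_le h3 with h4 | h4
    · exact h2 (by rw [h4])
    · exact h2 (wall_wall hgp hE hW h4 hi h1 (slit_y_mem_cw k))
  · intro k hk hA i hi hB
    exact hB.2 (sl_y_eq_of_cw hgp hE hW (by omega) hi hB.1 (sl_starAt_sub_stars hA))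
  · intro k hk hA hB
    have hk' : k < m := by omega
    have hst : y k ∈ stars E := sl_starAt_sub_stars hA
    -- the end of wall `k` is on the star edge which is prolonged next
    have h1 : y k ∈ segment ℝ (e (k + 1)).z (e (k + 1)).b := by
      rcases hW.hit k hk' with h1 | ⟨h1, h2⟩ | ⟨l, hl, h1 | h1⟩
      · exact absurd (sl_stars_Om hE hP hst) h1
      · exact h2
      · exfalso
        have h2 := sl_y_eq_of_cw hgp hE hW hk' (hl.trans hk') h1 hst
        have h3 : relA E e y l (k + 1) := by
          unfold relA at hA ⊢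
          rw [← h2]
          exact hA
        rcases sl_fact1 hgp hE hP hW l (hl.trans hk') _ hk h3 with h4 | h4 <;> omega
      · exfalso
        have := sl_star_uniq hgp hE hW (hl.trans hk') hk h1 hA
        omega
    obtain ⟨h2, h3⟩ := hB
    rw [segment_eq_image] at h1
    obtain ⟨a, ⟨ha0, ha1⟩, hu⟩ := h1
    obtain ⟨t, ht, hv⟩ := hW.ray (k + 1) hk
    have h4 : ori (e k).z (e k).b (e (k + 1)).z = 0 :=
      sl_on_ray_zero (F := ori (e k).z (e k).b) (fun r p q => sl_ori_affine _ _ r p q) hu.symm hv ha0 ht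
        (cw_ori hW hk' (slit_y_mem_cw k)) (cw_ori hW hk' h2)
    have hek := hW.memE k hk'
    have hek1 := hW.memE (k + 1) hk
    rcases on_line hgp (hE.mem _ hek).1 (hE.mem _ hek).2.1 (hE.mem _ hek1).1 (star_ne hE hek).1
      h4 with h5 | h5
    · have := hW.inj (k + 1) hk k hk' h5
      omega
    · exact (hE.zne _ hek1 _ hek).1 h5

theorem sl_not_mem_seg_ray {a v : Pt} (hv : v ≠ 0) {s t : ℝ} (hs : 0 < s) (ht : 0 < t) :
    a ∉ segment ℝ (a + s • v) (a + t • v) := by
  intro h
  rw [segment_eq_image] at h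
  obtain ⟨r, ⟨hr0, hr1⟩, hr⟩ := h
  simp only at hr
  have e1 : (1 - r) • (a + s • v) + r • (a + t • v) = a + ((1 - r) * s + r * t) • v := by module
  rw [e1, add_eq_left] at hr
  rcases smul_eq_zero.1 hr with h1 | h1
  · have h2 : 0 ≤ (1 - r) * s := mul_nonneg (by linarith) hs.le
    have h3 : 0 ≤ r * t := mul_nonneg hr0 ht.le
    have h4 : (1 - r) * s = 0 := by linarith
    have h5 : r * t = 0 := by linarith
    rcases mul_eq_zero.1 h4 with h6 | h6
    · rcases mul_eq_zero.1 h5 with h7 | h7 <;> linarith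
    · linarith
  · exact hv h1

section pieces

open Classical in
/-- the segments of the system with openings -/
noncomputable def sl_pcP (y w : ℕ → Pt) : Leaf ⊕ (ℕ ⊕ ℕ) → Pt :=
  Sum.elim (fun f => f.z) (Sum.elim y w)

open Classical in
noncomputable def sl_pcQ (δ : ℝ) (e : ℕ → Leaf) (g : ℕ → Leaf) (h : ℕ → Pt) (C : Finset ℕ) :
    Leaf ⊕ (ℕ ⊕ ℕ) → Pt :=
  Sum.elim (fun f => f.b) (Sum.elim (fun i => if i ∈ C then zc δ e i else (e i).z) (gc δ g h))

open Classical in
theorem sl_YY_eq (δ : ℝ) (C : Finset ℕ) :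
    YY E m e y K g h w δ C = ⋃ i ∈ E.disjSum ((Finset.range m).disjSum (Finset.range K)),
      segment ℝ (sl_pcP y w i) (sl_pcQ δ e g h C i) := by
  ext x
  unfold YY Ycl stars sl_pcP sl_pcQ
  simp only [Set.mem_union, Set.mem_iUnion, Finset.mem_disjSum]
  constructor
  · rintro ((⟨f, hf, hx⟩ | ⟨i, hi, hx⟩) | ⟨j, hj, hx⟩)
    · exact ⟨Sum.inl f, Or.inl ⟨f, hf, rfl⟩, hx⟩
    · refine ⟨Sum.inr (Sum.inl i), Or.inr ⟨Sum.inl i, Or.inl ⟨i, Finset.mem_range.2 hi, rfl⟩,
        rfl⟩, ?_⟩
      simp only [Sum.elim_inr, Sum.elim_inl]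
      rw [segment_symm]
      by_cases h : i ∈ C
      · rw [if_pos h] at hx ⊢
        exact hx
      · rw [if_neg h] at hx ⊢
        exact hx
    · refine ⟨Sum.inr (Sum.inr j), Or.inr ⟨Sum.inr j, Or.inr ⟨j, Finset.mem_range.2 hj, rfl⟩,
        rfl⟩, ?_⟩
      simp only [Sum.elim_inr]
      rw [segment_symm]
      exact hx
  · rintro ⟨i, (⟨f, hf, rfl⟩ | ⟨i', (⟨k, hk, rfl⟩ | ⟨k, hk, rfl⟩), rfl⟩), hx⟩
    · exact Or.inl (Or.inl ⟨f, hf, hx⟩)
    · refine Or.inl (Or.inr ⟨k, Finset.mem_range.1 hk, ?_⟩)
      simp only [Sum.elim_inr, Sum.elim_inl] at hx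
      rw [segment_symm] at hx
      by_cases h : k ∈ C
      · rw [if_pos h] at hx ⊢
        exact hx
      · rw [if_neg h] at hx ⊢
        exact hx
    · refine Or.inr ⟨k, Finset.mem_range.1 hk, ?_⟩
      simp only [Sum.elim_inr] at hx
      rw [segment_symm] at hx
      exact hx

variable (S : WSys P M E m e y K g h w) {δ : ℝ} (hδ : SmallCut m e y K g h w δ) (C : Finset ℕ)

include S hδ in
theorem sl_pW_sub {i : ℕ} (hi : i < m) {x : Pt}
    (hx : x ∈ segment ℝ (y i) (sl_pcQ δ e g h C (Sum.inr (Sum.inl i)))) : x ∈ cw e y i := by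
  have hsub : segment ℝ (y i) (sl_pcQ δ e g h C (Sum.inr (Sum.inl i))) ⊆ cw e y i := by
    unfold sl_pcQ cw
    simp only [Sum.elim_inr, Sum.elim_inl]
    refine (convex_segment _ _).segment_subset (right_mem_segment ℝ _ _) ?_
    split_ifs with h1
    · exact openSegment_subset_segment ℝ _ _ (hδ.zin i hi)
    · exact left_mem_segment ℝ _ _
  exact hsub hx

include S in
theorem slit_hb_ne {j : ℕ} (hj : j < K) : h j - (g j).b ≠ 0 := by
  obtain ⟨h1, h2⟩ := S.gads.memE j hj
  have h3 := star_ne S.star h1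
  rcases h2 with h2 | h2
  · rw [h2]
    exact sub_ne_zero.2 h3.2.1.symm
  · rw [h2]
    exact sub_ne_zero.2 h3.2.2.1.symm

include S in
theorem slit_h_mem {j : ℕ} (hj : j < K) : h j ∈ P := by
  obtain ⟨h1, h2⟩ := S.gads.memE j hj
  have h3 := S.star.mem _ h1
  rcases h2 with h2 | h2
  · rw [h2]
    exact h3.2.2.1
  · rw [h2]
    exact h3.2.2.2

include S hδ in
theorem sl_pG_sub {j : ℕ} (hj : j < K) {x : Pt} (hx : x ∈ segment ℝ (w j) (gc δ g h j)) :
    x ∈ gw g w j ∧ x ≠ (g j).b := by
  obtain ⟨t, ht, hwt⟩ := S.gads.ray j hj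
  constructor
  · have h1 : h j ∈ segment ℝ (g j).b (w j) := by
      rw [segment_eq_image']
      refine ⟨1 / t, ⟨by positivity, by rw [div_le_one (by linarith)]; exact ht.le⟩, ?_⟩
      simp only
      rw [hwt, add_sub_cancel_left, smul_smul, one_div_mul_cancel (by linarith), one_smul,
        add_sub_cancel]
    have h2 : gc δ g h j ∈ segment ℝ (g j).b (w j) :=
      (convex_segment _ _).segment_subset h1 (right_mem_segment ℝ _ _)
        (openSegment_subset_segment ℝ _ _ (hδ.gin j hj))
    exact (convex_segment _ _).segment_subset (right_mem_segment ℝ _ _) h2 hx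
  · rintro rfl
    rw [hwt] at hx
    unfold gc at hx
    exact sl_not_mem_seg_ray (slit_hb_ne S hj) (by linarith) (by have := hδ.pos; linarith) hx

end pieces

open Classical in
theorem WSys.slit_YY (S : WSys P M E m e y K g h w) {δ : ℝ} (hδ : SmallCut m e y K g h w δ)
    (C : Finset ℕ) (ρW ρS : ℕ → ℕ) (hr : RankOK m (relA E e y) (relB e y) C ρW ρS) :
    Slit M (YY E m e y K g h w δ C) := by
  obtain ⟨hrA, hrB, hrC⟩ := hr
  have hidx : ∀ f : Leaf, ∃ i, f ∈ E → i < m ∧ (e i).z = f.z := by
    intro f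
    by_cases hf : f ∈ E
    · obtain ⟨i, hi, hiz⟩ := S.walls.cov f hf
      exact ⟨i, fun _ => ⟨hi, hiz⟩⟩
    · exact ⟨0, fun h => absurd h hf⟩
  choose idx hidx' using hidx
  set N : ℕ := ∑ i ∈ Finset.range m, (ρS i + ρW i) with hN
  have hNle : ∀ i < m, ρS i ≤ N ∧ ρW i ≤ N := by
    intro i hi
    have h1 : ρS i + ρW i ≤ N := Finset.single_le_sum (f := fun i => ρS i + ρW i)
      (fun _ _ => Nat.zero_le _) (Finset.mem_range.2 hi)
    omega
  let ρ : Leaf ⊕ (ℕ ⊕ ℕ) → ℕ :=
    Sum.elim (fun f => ρS (idx f)) (Sum.elim ρW (fun j => N + j + 1))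
  rw [sl_YY_eq]
  refine slit_of_rank _ (sl_pcP y w) (sl_pcQ δ e g h C) ρ ?_ ?_ ?_
  · -- the segments are not degenerate
    intro i hi
    simp only [Finset.mem_disjSum] at hi
    rcases hi with ⟨f, hf, rfl⟩ | ⟨i', (⟨k, hk, rfl⟩ | ⟨k, hk, rfl⟩), rfl⟩
    · exact (star_ne S.star hf).1
    · have hk := Finset.mem_range.1 hk
      show y k ≠ if k ∈ C then zc δ e k else (e k).z
      have hyz : y k ≠ (e k).z := fun h1 =>
        y_notin_P S.gp S.star S.walls hk (h1 ▸ slit_z_mem S.star S.walls hk)
      split_ifs with h1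
      · intro h2
        have h3 := hδ.zin k hk
        rw [← h2] at h3
        exact hyz (right_mem_openSegment_iff.1 h3).symm
      · exact hyz
    · have hk := Finset.mem_range.1 hk
      show w k ≠ gc δ g h k
      intro h2
      have h3 := hδ.gin k hk
      rw [← h2] at h3
      have h4 := right_mem_openSegment_iff.1 h3
      exact S.w_notin_P hk (h4 ▸ F059.slit_h_mem S hk)
  · -- they are in the square
    intro i hi x hx hxp
    simp only [Finset.mem_disjSum] at hi
    rcases hi with ⟨f, hf, rfl⟩ | ⟨i', (⟨k, hk, rfl⟩ | ⟨k, hk, rfl⟩), rfl⟩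
    · exact star_Om S.star S.hP hf hx
    · have hk := Finset.mem_range.1 hk
      have h1 := sl_pW_sub S hδ C hk hx
      unfold cw at h1
      rw [← insert_endpoints_openSegment] at h1
      rcases h1 with h1 | h1 | h1
      · rw [h1]
        exact S.hP _ (slit_z_mem S.star S.walls hk)
      · exact absurd h1 hxp
      · exact (S.walls.free k hk x h1).1
    · have hk := Finset.mem_range.1 hk
      obtain ⟨h1, -⟩ := sl_pG_sub S hδ hk hx
      unfold gw at h1
      rw [← insert_endpoints_openSegment] at h1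
      rcases h1 with h1 | h1 | h1
      · rw [h1]
        exact S.hP _ (S.star.mem _ (S.gads.memE k hk).1).2.1
      · exact absurd h1 hxp
      · exact (S.gads.free k hk x h1).1
  · -- intersections
    intro i hi j hj hij hρ x hx hx'
    have hst : ∀ f ∈ E, x ∈ segment ℝ f.z f.b → x ∈ stars E := by
      intro f hf hx
      unfold stars
      exact Set.mem_biUnion hf hx
    simp only [Finset.mem_disjSum] at hi hj
    rcases hi with ⟨f, hf, rfl⟩ | ⟨i', (⟨k, hk, rfl⟩ | ⟨k, hk, rfl⟩), rfl⟩
    · obtain ⟨hif, hifz⟩ := hidx' f hf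
      rcases hj with ⟨f', hf', rfl⟩ | ⟨j', (⟨l, hl, rfl⟩ | ⟨l, hl, rfl⟩), rfl⟩
      · have hne : f ≠ f' := fun h1 => hij (by rw [h1])
        exact (star_star S.gp S.star hf hf' hne hx hx').2
      · have hl := Finset.mem_range.1 hl
        have h1 := sl_pW_sub S hδ C hl hx'
        rcases wall_star S.walls hl h1 (hst f hf hx) with h2 | h2
        · have hzl := slit_z_mem S.star S.walls hl
          rcases P_star S.gp S.star hf (h2 ▸ hzl) hx with h3 | h3
          · exact h3
          · exact absurd (h2 ▸ h3) (S.star.zne _ (S.walls.memE l hl) _ hf).1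
        · exfalso
          have h3 : relA E e y l (idx f) := by
            unfold relA starAt
            simp only [Set.mem_iUnion]
            exact ⟨f, hf, hifz.symm, h2 ▸ hx⟩
          have h4 := hrA l hl _ hif h3
          have h5 : ρW l ≤ ρS (idx f) := hρ
          omega
      · exfalso
        have h5 : N + l + 1 ≤ ρS (idx f) := hρ
        have := (hNle _ hif).1
        omega
    · have hk := Finset.mem_range.1 hk
      have h1 := sl_pW_sub S hδ C hk hx
      rcases hj with ⟨f', hf', rfl⟩ | ⟨j', (⟨l, hl, rfl⟩ | ⟨l, hl, rfl⟩), rfl⟩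
      · obtain ⟨hif, hifz⟩ := hidx' f' hf'
        rcases wall_star S.walls hk h1 (hst f' hf' hx') with h2 | h2
        · exfalso
          have hzk := slit_z_mem S.star S.walls hk
          have h3 : (e k).z = f'.z := by
            rcases P_star S.gp S.star hf' (h2 ▸ hzk) hx' with h3 | h3
            · rw [← h2, h3]
            · exact absurd (h2 ▸ h3) (S.star.zne _ (S.walls.memE k hk) _ hf').1
          have h4 : idx f' = k := S.walls.inj _ hif k hk (by rw [hifz, h3])
          by_cases hkC : k ∈ C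
          · have hx2 : (e k).z ∈ segment ℝ (y k) (zc δ e k) := by
              have : x ∈ segment ℝ (y k) (if k ∈ C then zc δ e k else (e k).z) := hx
              rw [if_pos hkC, h2] at this
              exact this
            obtain ⟨t, ht, hyt⟩ := S.walls.ray k hk
            rw [hyt] at hx2
            unfold zc at hx2
            exact sl_not_mem_seg_ray (sub_ne_zero.2 (star_ne S.star (S.walls.memE k hk)).1) ht
              hδ.pos hx2
          · have h5 := hrC k hk hkC
            have h6 : ρS (idx f') ≤ ρW k := hρ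
            rw [h4] at h6
            omega
        · exact h2
      · have hl := Finset.mem_range.1 hl
        have h2 := sl_pW_sub S hδ C hl hx'
        have hkl : k ≠ l := fun h3 => hij (by rw [h3])
        rcases lt_or_gt_of_ne hkl with h3 | h3
        · -- `k < l`
          have h4 := wall_wall S.gp S.star S.walls h3 hl h2 h1
          by_cases h5 : y l = y k
          · show x = y k
            rw [h4, h5]
          · exfalso
            have h6 : relB e y l k := ⟨h4 ▸ h1, h5⟩
            have h7 := hrB l hl k hk h6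
            have h8 : ρW l ≤ ρW k := hρ
            omega
        · exact wall_wall S.gp S.star S.walls h3 hk h1 h2
      · exfalso
        have h5 : N + l + 1 ≤ ρW k := hρ
        have := (hNle _ hk).2
        omega
    · have hk := Finset.mem_range.1 hk
      obtain ⟨h1, h1b⟩ := sl_pG_sub S hδ hk hx
      rcases hj with ⟨f', hf', rfl⟩ | ⟨j', (⟨l, hl, rfl⟩ | ⟨l, hl, rfl⟩), rfl⟩
      · rcases S.gad_star hk h1 (hst f' hf' hx') with h2 | h2
        · exact absurd h2 h1b
        · exact h2
      · have hl := Finset.mem_range.1 hl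
        exact S.gad_wall hk hl h1 (sl_pW_sub S hδ C hl hx')
      · have hl := Finset.mem_range.1 hl
        obtain ⟨h2, -⟩ := sl_pG_sub S hδ hl hx'
        have hkl : k ≠ l := fun h3 => hij (by rw [h3])
        have h3 : N + l + 1 ≤ N + k + 1 := hρ
        rcases S.gad_gad (show l < k by omega) hk h1 h2 with h4 | ⟨h4, -⟩
        · exact h4
        · exact absurd h4 h1b

end F059
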