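import Pool.Agent.Lib.F059.DoorConn
import Pool.Agent.Lib.F059.SlitConn
import Pool.Agent.Lib.F059.Loc
import Pool.Agent.Lib.F059.SlitYY

/-!
# F059D.AllConn: connectivity of the doors

PROOF.  `door_conn` with X = XX, Y = YY .. C (preconnected complement: `slit_preconnected`), ι = {i // i < m ∧ i ∈ C} ⊕ {j // j < K},
(p,q) = ((e i).z, zc δ e i) resp. ((g j).b, gc δ g h j), the cells from `centre_cells`, `gad_cells`; hcov = `XX_diff`; hsub from gap_z, gap_b (x ∈ cw i, x ∈ gw j).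
-/

namespace F059

variable {P : Finset Pt} {M : ℝ} {E : Finset Leaf} {m : ℕ} {e : ℕ → Leaf} {y : ℕ → Pt}
  {K : ℕ} {g : ℕ → Leaf} {h w : ℕ → Pt}

theorem WSys.conn (S : WSys P M E m e y K g h w) (hT : Tight M (XX E m e y K g w)) {δ : ℝ}
    (hδ : SmallCut m e y K g h w δ) (C : Finset ℕ) (hs : Slit M (YY E m e y K g h w δ C))
    (κ : Set Pt → Prop)
    (hz : ∀ i < m, i ∈ C → ∀ u ∈ Om M, ∀ v ∈ Om M, u ∉ XX E m e y K g w →
      v ∉ XX E m e y K g w → SideCells (e i).z (zc δ e i) (cell M (XX E m e y K g w) u)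
        (cell M (XX E m e y K g w) v) →
      (κ (cell M (XX E m e y K g w) u) ↔ κ (cell M (XX E m e y K g w) v)))
    (hg : ∀ j < K, ∀ u ∈ Om M, ∀ v ∈ Om M, u ∉ XX E m e y K g w →
      v ∉ XX E m e y K g w → SideCells (g j).b (gc δ g h j) (cell M (XX E m e y K g w) u)
        (cell M (XX E m e y K g w) v) →
      (κ (cell M (XX E m e y K g w) u) ↔ κ (cell M (XX E m e y K g w) v))) :
    ∀ a ∈ Om M, a ∉ XX E m e y K g w → ∀ b ∈ Om M, b ∉ XX E m e y K g w →
      (κ (cell M (XX E m e y K g w) a) ↔ κ (cell M (XX E m e y K g w) b)) := by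
  let p : {i // i < m ∧ i ∈ C} ⊕ {j // j < K} → Pt :=
    Sum.elim (fun i => (e i.1).z) (fun j => (g j.1).b)
  let q : {i // i < m ∧ i ∈ C} ⊕ {j // j < K} → Pt :=
    Sum.elim (fun i => zc δ e i.1) (fun j => gc δ g h j.1)
  have hcells : ∀ t, ∃ u v : Pt, (u ∈ Om M ∧ u ∉ XX E m e y K g w) ∧
      (v ∈ Om M ∧ v ∉ XX E m e y K g w) ∧
      SideCells (p t) (q t) (cell M (XX E m e y K g w) u) (cell M (XX E m e y K g w) v) := by
    rintro (⟨i, hi, _⟩ | ⟨j, hj⟩)
    · exact S.centre_cells hT hδ hi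
    · exact S.gad_cells hT hδ hj
  choose u v hu hv hside using hcells
  refine door_conn S.XX_isClosed hT (slit_preconnected hs).2 (S.YY_sub hδ C) p q ?_ ?_ ?_ u v
    (fun t => (hu t).1) (fun t => (hv t).1) hside κ ?_
  · rintro (⟨i, hi, _⟩ | ⟨j, hj⟩)
    · show (e i).z ≠ zc δ e i
      have h1 := (star_ne S.star (S.walls.memE i hi)).1
      intro h2
      have h3 : δ • ((e i).z - (e i).b) = 0 := by
        unfold zc at h2
        exact left_eq_add.1 h2
      rcases smul_eq_zero.1 h3 with h4 | h4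
      · exact hδ.pos.ne' h4
      · exact h1 (sub_eq_zero.1 h4)
    · show (g j).b ≠ gc δ g h j
      obtain ⟨h1, h2⟩ := S.gads.memE j hj
      have h5 := star_ne S.star h1
      have h6 : h j ≠ (g j).b := by
        rcases h2 with h2 | h2
        · rw [h2]
          exact h5.2.1.symm
        · rw [h2]
          exact h5.2.2.1.symm
      intro h7
      have h3 : (1 + δ) • (h j - (g j).b) = 0 := by
        unfold gc at h7
        exact left_eq_add.1 h7
      rcases smul_eq_zero.1 h3 with h4 | h4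
      · have := hδ.pos
        linarith
      · exact h6 (sub_eq_zero.1 h4)
  · intro x hx hxY _
    rcases S.XX_diff hδ C hx hxY with ⟨i, hi, hiC, h1⟩ | ⟨j, hj, h1⟩
    · exact ⟨Sum.inl ⟨i, hi, hiC⟩, h1⟩
    · exact ⟨Sum.inr ⟨j, hj⟩, h1⟩
  · rintro (⟨i, hi, _⟩ | ⟨j, hj⟩) x hx
    · have h1 := (S.gap_z hδ hi hx).2.1
      unfold XX
      exact Or.inl (Or.inr (Set.mem_iUnion₂.2 ⟨i, hi, h1⟩))
    · have h1 := (S.gap_b hδ hj hx).2.1
      unfold XX
      exact Or.inr (Set.mem_iUnion₂.2 ⟨j, hj, h1⟩)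
  · rintro (⟨i, hi, hiC⟩ | ⟨j, hj⟩)
    · exact hz i hi hiC _ (hu _).1 _ (hv _).1 (hu _).2 (hv _).2
        (hside (Sum.inl ⟨i, hi, hiC⟩))
    · exact hg j hj _ (hu _).1 _ (hv _).1 (hu _).2 (hv _).2 (hside (Sum.inr ⟨j, hj⟩))

end F059
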