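import Pool.Agent.Lib.F059.PathL

/-!
# F059D.CellPath: the paths in one cell

Q in general position, S ⊆ Q not empty, all points of S extreme in Q, M a fixed point free involution of
S whose segments s (M s) do not cross.  There is a plane edge set F on Q consisting of paths from s to
M s which together cover Q.
PROOF.  Induction on |S|.  Choose d ∈ S such that the number of points of S strictly
on the right of d → M d is minimal; then this number is 0.  Cut Q along the line d (M d).
-/

namespace F059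

/-- affine dependence of four points and an affine function -/
private theorem cp_dep (x y p q r s : Pt) :
    ori x y p * ori r s q - ori x y q * ori r s p + ori x y r * ori p q s
      - ori x y s * ori p q r = 0 := by
  unfold ori; ring

private theorem cp_sum (p q r s : Pt) :
    ori p q r - ori p q s + ori r s p - ori r s q = 0 := by
  unfold ori; ring

/-- four points in convex position (all extreme in `S`): `t`, `t'` on different sides of the line
`d d'` implies that the segments cross -/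
theorem cross_of_sides {S : Finset Pt} (hgp : GenPos S) (hext : ∀ s ∈ S, Ext S s) {d d' t t' : Pt}
    (hd : d ∈ S) (hd' : d' ∈ S) (ht : t ∈ S) (ht' : t' ∈ S) (h1 : ori d d' t < 0)
    (h2 : 0 < ori d d' t') : Cr d d' t t' := by
  have e0 : d ≠ t := by
    rintro rfl
    have : ori d d' d = 0 := by unfold ori; ring
    linarith
  have e1 : d' ≠ t := by
    rintro rfl
    have : ori d d' d' = 0 := by unfold ori; ring
    linarith
  have e2 : d ≠ t' := by
    rintro rfl
    have : ori d d' d = 0 := by unfold ori; ring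
    linarith
  have e3 : d' ≠ t' := by
    rintro rfl
    have : ori d d' d' = 0 := by unfold ori; ring
    linarith
  have e4 : t ≠ t' := by
    rintro rfl
    linarith
  refine ⟨mul_neg_of_neg_of_pos h1 h2, ?_⟩
  have n1 : ori t t' d ≠ 0 := hgp t ht t' ht' d hd e4 e0.symm e2.symm
  have n2 : ori t t' d' ≠ 0 := hgp t ht t' ht' d' hd' e4 e1.symm e3.symm
  by_contra hcon
  have hcon' : 0 ≤ ori t t' d * ori t t' d' := not_lt.mp hcon
  rcases lt_or_gt_of_ne n1 with a1 | a1
  · have a2 : ori t t' d' < 0 := by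
      rcases lt_or_gt_of_ne n2 with a2 | a2
      · exact a2
      · have := mul_neg_of_neg_of_pos a1 a2
        linarith
    refine (hext d hd).not_inside ht' ht hd' ?_ ?_ ?_
    · have : ori t' t d = - ori t t' d := by unfold ori; ring
      linarith
    · have : ori t d' d = - ori d d' t := by unfold ori; ring
      linarith
    · have : ori d' t' d = ori d d' t' := by unfold ori; ring
      linarith
  · have a2 : 0 < ori t t' d' := by
      rcases lt_or_gt_of_ne n2 with a2 | a2
      · have := mul_neg_of_pos_of_neg a1 a2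
        linarith
      · exact a2
    refine (hext d' hd').not_inside ht ht' hd ?_ ?_ ?_
    · exact a2
    · have : ori t' d d' = ori d d' t' := by unfold ori; ring
      linarith
    · have : ori d t d' = - ori d d' t := by unfold ori; ring
      linarith

private theorem cp_Seg_mono {Q Q' : Finset Pt} (h : Q ⊆ Q') : Seg Q ⊆ Seg Q' := by
  intro e he
  induction e using Sym2.ind with
  | _ a b =>
    rw [mem_Seg] at he ⊢
    exact ⟨h he.1, h he.2.1, he.2.2⟩

private theorem cp_EClosed_mono {F F' : Finset (Sym2 Pt)} {T : Set Pt} (h : F ⊆ F')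
    (hT : EClosed F' T) : EClosed F T := fun a b hab ha => hT a b (h hab) ha

private theorem cp_edgesAt_union_left {F1 F2 : Finset (Sym2 Pt)} {Q2 : Finset Pt}
    (h2 : F2 ⊆ Seg Q2) {q : Pt} (hq : q ∉ Q2) : edgesAt (F1 ∪ F2) q = edgesAt F1 q := by
  classical
  ext e
  simp only [edgesAt, Finset.mem_filter, Finset.mem_union]
  constructor
  · rintro ⟨h | h, hqe⟩
    · exact ⟨h, hqe⟩
    · exfalso
      have h3 := h2 h
      induction e using Sym2.ind with
      | _ a b =>
        rw [mem_Seg] at h3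
        rw [Sym2.mem_iff] at hqe
        rcases hqe with rfl | rfl
        · exact hq h3.1
        · exact hq h3.2.1
  · rintro ⟨h, hqe⟩
    exact ⟨Or.inl h, hqe⟩

private theorem cp_nocross {x y p q r s : Pt} (hp : ori x y p ≤ 0) (hq : ori x y q ≤ 0)
    (hr : 0 < ori x y r) (hs : 0 < ori x y s) : ¬ Cr p q r s := by
  rintro ⟨h1, h2⟩
  have k1 := cp_dep x y p q r s
  have k2 := cp_sum p q r s
  rcases lt_trichotomy (ori p q r) 0 with a | a | a
  · have b : 0 < ori p q s := by
      by_contra hb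
      have := mul_nonneg_of_nonpos_of_nonpos a.le (not_lt.mp hb)
      linarith
    have c : 0 < ori r s p ∧ ori r s q < 0 := by
      rcases lt_trichotomy (ori r s p) 0 with c | c | c
      · exfalso
        have : 0 < ori r s q := by
          by_contra hb
          have := mul_nonneg_of_nonpos_of_nonpos c.le (not_lt.mp hb)
          linarith
        linarith
      · rw [c] at h2; simp at h2
      · refine ⟨c, ?_⟩
        by_contra hb
        have := mul_nonneg c.le (not_lt.mp hb)
        linarith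
    have t1 : 0 ≤ ori x y p * ori r s q := mul_nonneg_of_nonpos_of_nonpos hp c.2.le
    have t2 : ori x y q * ori r s p ≤ 0 := mul_nonpos_of_nonpos_of_nonneg hq c.1.le
    have t3 : 0 < ori x y r * ori p q s := mul_pos hr b
    have t4 : ori x y s * ori p q r < 0 := mul_neg_of_pos_of_neg hs a
    linarith
  · rw [a] at h1; simp at h1
  · have b : ori p q s < 0 := by
      by_contra hb
      have := mul_nonneg a.le (not_lt.mp hb)
      linarith
    have c : ori r s p < 0 ∧ 0 < ori r s q := by
      rcases lt_trichotomy (ori r s p) 0 with c | c | c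
      · refine ⟨c, ?_⟩
        by_contra hb
        have := mul_nonneg_of_nonpos_of_nonpos c.le (not_lt.mp hb)
        linarith
      · rw [c] at h2; simp at h2
      · exfalso
        have : ori r s q < 0 := by
          by_contra hb
          have := mul_nonneg c.le (not_lt.mp hb)
          linarith
        linarith
    have t1 : ori x y p * ori r s q ≤ 0 := mul_nonpos_of_nonpos_of_nonneg hp c.2.le
    have t2 : 0 ≤ ori x y q * ori r s p := mul_nonneg_of_nonpos_of_nonpos hq c.1.le
    have t3 : ori x y r * ori p q s < 0 := mul_neg_of_pos_of_neg hr b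
    have t4 : 0 < ori x y s * ori p q r := mul_pos hs a
    linarith

private theorem cp_ori_self (x y : Pt) : ori x y x = 0 ∧ ori x y y = 0 := by
  constructor <;> · unfold ori; ring

/-- the pair with no points on its right -/
private theorem cp_exists_outer {S : Finset Pt} (hgp : GenPos S) (hne : S.Nonempty)
    (hext : ∀ s ∈ S, Ext S s) (Mt : Pt → Pt)
    (hM : ∀ s ∈ S, Mt s ∈ S ∧ Mt s ≠ s ∧ Mt (Mt s) = s)
    (hnc : ∀ s ∈ S, ∀ t ∈ S, ¬ Cr s (Mt s) t (Mt t)) :
    ∃ d ∈ S, ∀ q ∈ S, ¬ ori d (Mt d) q < 0 := by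
  classical
  obtain ⟨d, hd, hmin⟩ := S.exists_min_image
    (fun d => (S.filter (fun q => ori d (Mt d) q < 0)).card) hne
  refine ⟨d, hd, ?_⟩
  intro t0 ht0 hneg0
  obtain ⟨hd', hdne, hdd⟩ := hM d hd
  -- both ends of the pair of t0 are on the right, and `d`, `d'` are on one side
  have key : ∃ t ∈ S, ori d (Mt d) t < 0 ∧ ori d (Mt d) (Mt t) < 0 ∧
      0 < ori t (Mt t) d ∧ 0 < ori t (Mt t) (Mt d) := by
    have right : ∀ t ∈ S, ori d (Mt d) t < 0 → ori d (Mt d) (Mt t) < 0 := by
      intro t ht hneg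
      obtain ⟨ht', htne, htt⟩ := hM t ht
      have f1 : Mt t ≠ d := by
        intro h
        have : t = Mt d := by rw [← h, htt]
        rw [this, (cp_ori_self d (Mt d)).2] at hneg
        exact lt_irrefl _ hneg
      have f2 : Mt t ≠ Mt d := by
        intro h
        have : t = d := by rw [← htt, h, hdd]
        rw [this, (cp_ori_self d (Mt d)).1] at hneg
        exact lt_irrefl _ hneg
      rcases lt_or_gt_of_ne (hgp d hd (Mt d) hd' (Mt t) ht' hdne.symm f1.symm f2.symm) with h | h
      · exact h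
      · exact absurd (cross_of_sides hgp hext hd hd' ht ht' hneg h) (hnc d hd t ht)
    have side : ∀ t ∈ S, ori d (Mt d) t < 0 →
        (0 < ori t (Mt t) d ∧ 0 < ori t (Mt t) (Mt d)) ∨
        (ori t (Mt t) d < 0 ∧ ori t (Mt t) (Mt d) < 0) := by
      intro t ht hneg
      obtain ⟨ht', htne, htt⟩ := hM t ht
      have hneg' := right t ht hneg
      have g1 : t ≠ d := by
        rintro rfl
        rw [(cp_ori_self t (Mt t)).1] at hneg
        exact lt_irrefl _ hneg
      have g2 : t ≠ Mt d := by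
        intro h
        rw [h, (cp_ori_self d (Mt d)).2] at hneg
        exact lt_irrefl _ hneg
      have g3 : Mt t ≠ d := by
        intro h
        rw [h, (cp_ori_self d (Mt d)).1] at hneg'
        exact lt_irrefl _ hneg'
      have g4 : Mt t ≠ Mt d := by
        intro h
        rw [h, (cp_ori_self d (Mt d)).2] at hneg'
        exact lt_irrefl _ hneg'
      have n1 := hgp t ht (Mt t) ht' d hd htne.symm g1 g3
      have n2 := hgp t ht (Mt t) ht' (Mt d) hd' htne.symm g2 g4
      rcases lt_or_gt_of_ne n1 with h | h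
      · rcases lt_or_gt_of_ne n2 with h' | h'
        · exact Or.inr ⟨h, h'⟩
        · exact absurd (cross_of_sides hgp hext ht ht' hd hd' h h') (hnc t ht d hd)
      · rcases lt_or_gt_of_ne n2 with h' | h'
        · exact absurd ((cross_of_sides hgp hext ht ht' hd' hd h' h).swap_right) (hnc t ht d hd)
        · exact Or.inl ⟨h, h'⟩
    rcases side t0 ht0 hneg0 with h | h
    · exact ⟨t0, ht0, hneg0, right t0 ht0 hneg0, h⟩
    · obtain ⟨ht', htne, htt⟩ := hM t0 ht0
      refine ⟨Mt t0, ht', right t0 ht0 hneg0, ?_, ?_, ?_⟩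
      · rw [htt]; exact hneg0
      · rw [htt, ori_swap]; linarith [h.1]
      · rw [htt, ori_swap]; linarith [h.2]
  obtain ⟨t, ht, k1, k2, k3, k4⟩ := key
  obtain ⟨ht', htne, htt⟩ := hM t ht
  have hlt : (S.filter (fun q => ori t (Mt t) q < 0)).card
      < (S.filter (fun q => ori d (Mt d) q < 0)).card := by
    apply Finset.card_lt_card
    refine ⟨?_, ?_⟩
    · intro s hs
      rw [Finset.mem_filter] at hs ⊢
      refine ⟨hs.1, ?_⟩
      have g1 : s ≠ d := by
        rintro rfl
        linarith [hs.2]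
      have g2 : s ≠ Mt d := by
        intro h
        rw [h] at hs
        linarith [hs.2]
      rcases lt_or_gt_of_ne (hgp d hd (Mt d) hd' s hs.1 hdne.symm g1.symm g2.symm) with h | h
      · exact h
      · exfalso
        have hc := cross_of_sides hgp hext hd hd' ht hs.1 k1 h
        -- the dependence
        have e1 := cp_dep t (Mt t) d (Mt d) t s
        have e2 := cp_sum d (Mt d) t s
        have e3 : ori t (Mt t) t = 0 := (cp_ori_self t (Mt t)).1
        rw [e3] at e1
        have c2 := hc.2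
        have e4 : ori t s (Mt d) < ori t s d ∨ ori t s d ≤ ori t s (Mt d) := lt_or_ge _ _
        have e5 : 0 < ori t s d ∧ ori t s (Mt d) < 0 := by
          rcases lt_trichotomy (ori t s d) 0 with c | c | c
          · exfalso
            have : 0 < ori t s (Mt d) := by
              by_contra hb
              have := mul_nonneg_of_nonpos_of_nonpos c.le (not_lt.mp hb)
              linarith
            linarith
          · rw [c] at c2; simp at c2
          · refine ⟨c, ?_⟩
            by_contra hb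
            have := mul_nonneg c.le (not_lt.mp hb)
            linarith
        have t1 : ori t (Mt t) d * ori t s (Mt d) < 0 := mul_neg_of_pos_of_neg k3 e5.2
        have t2 : 0 < ori t (Mt t) (Mt d) * ori t s d := mul_pos k4 e5.1
        have t3 : 0 < ori t (Mt t) s * ori d (Mt d) t := mul_pos_of_neg_of_neg hs.2 k1
        linarith
    · intro hsub
      have : t ∈ S.filter (fun q => ori t (Mt t) q < 0) :=
        hsub (Finset.mem_filter.mpr ⟨ht, k1⟩)
      rw [Finset.mem_filter, (cp_ori_self t (Mt t)).1] at this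
      exact lt_irrefl _ this.2
  exact absurd hlt (not_lt.mpr (hmin t ht))

theorem cell_path {Q S : Finset Pt} (hgp : GenPos Q) (hSQ : S ⊆ Q) (hne : S.Nonempty)
    (hext : ∀ s ∈ S, Ext Q s) (Mt : Pt → Pt)
    (hM : ∀ s ∈ S, Mt s ∈ S ∧ Mt s ≠ s ∧ Mt (Mt s) = s)
    (hnc : ∀ s ∈ S, ∀ t ∈ S, ¬ Cr s (Mt s) t (Mt t)) :
    ∃ F : Finset (Sym2 Pt), F ⊆ Seg Q ∧ Plane F ∧ (∀ s ∈ S, (edgesAt F s).card = 1) ∧
      (∀ q ∈ Q, q ∉ S → (edgesAt F q).card = 2) ∧
      (∀ T : Set Pt, EClosed F T → ∀ s ∈ S, s ∈ T → Mt s ∈ T) ∧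
      (∀ T : Set Pt, EClosed F T → (∃ q ∈ Q, q ∈ T) → ∃ s ∈ S, s ∈ T) := by
  classical
  induction hn : S.card using Nat.strong_induction_on generalizing Q S with
  | _ n ih =>
  subst hn
  have hgpS : GenPos S := fun p hp q hq r hr => hgp p (hSQ hp) q (hSQ hq) r (hSQ hr)
  have hextS : ∀ s ∈ S, Ext S s := fun s hs => (hext s hs).mono hSQ hs
  obtain ⟨d, hd, hout⟩ := cp_exists_outer hgpS hne hextS Mt hM hnc
  obtain ⟨hd', hdne, hdd⟩ := hM d hd
  have hcov : ∀ q ∈ Q, q ≠ d → q ≠ Mt d → ori d (Mt d) q < 0 ∨ 0 < ori d (Mt d) q := by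
    intro q hq h1 h2
    exact lt_or_gt_of_ne (hgp d (hSQ hd) (Mt d) (hSQ hd') q hq hdne.symm h1.symm h2.symm)
  have hz1 : ori d (Mt d) d = 0 := (cp_ori_self d (Mt d)).1
  have hz2 : ori d (Mt d) (Mt d) = 0 := (cp_ori_self d (Mt d)).2
  set Q1 : Finset Pt := Q.filter (fun q => ¬ 0 < ori d (Mt d) q) with hQ1
  set Q2 : Finset Pt := Q.filter (fun q => 0 < ori d (Mt d) q) with hQ2
  have hQ1Q : Q1 ⊆ Q := Finset.filter_subset _ _
  have hQ2Q : Q2 ⊆ Q := Finset.filter_subset _ _
  have hdQ1 : d ∈ Q1 := Finset.mem_filter.mpr ⟨hSQ hd, by rw [hz1]; exact lt_irrefl _⟩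
  have hd'Q1 : Mt d ∈ Q1 := Finset.mem_filter.mpr ⟨hSQ hd', by rw [hz2]; exact lt_irrefl _⟩
  have hgp1 : GenPos Q1 := fun p hp q hq r hr => hgp p (hQ1Q hp) q (hQ1Q hq) r (hQ1Q hr)
  have hgp2 : GenPos Q2 := fun p hp q hq r hr => hgp p (hQ2Q hp) q (hQ2Q hq) r (hQ2Q hr)
  obtain ⟨F1, hF1, hP1, hc1, hc1', hc1'', hT1⟩ := path_lemma hgp1 hdne.symm
    ((hext d hd).mono hQ1Q hdQ1) ((hext (Mt d) hd').mono hQ1Q hd'Q1)
  have hnot2 : ∀ q ∈ Q1, q ∉ Q2 := by
    intro q h1 h2
    rw [hQ1, Finset.mem_filter] at h1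
    rw [hQ2, Finset.mem_filter] at h2
    exact h1.2 h2.2
  have hnot1 : ∀ q ∈ Q2, q ∉ Q1 := fun q h2 h1 => hnot2 q h1 h2
  set S2 : Finset Pt := (S.erase d).erase (Mt d) with hS2
  have hS2S : S2 ⊆ S := (Finset.erase_subset _ _).trans (Finset.erase_subset _ _)
  have hS2Q2 : S2 ⊆ Q2 := by
    intro s hs
    rw [hS2, Finset.mem_erase, Finset.mem_erase] at hs
    refine Finset.mem_filter.mpr ⟨hSQ hs.2.2, ?_⟩
    rcases hcov s (hSQ hs.2.2) hs.2.1 hs.1 with h | h
    · exact absurd h (hout s hs.2.2)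
    · exact h
  by_cases hne2 : S2.Nonempty
  · have hlt : S2.card < S.card := by
      apply Finset.card_lt_card
      refine ⟨hS2S, fun h => ?_⟩
      have := h hd
      rw [hS2, Finset.mem_erase, Finset.mem_erase] at this
      exact this.2.1 rfl
    have hM2 : ∀ s ∈ S2, Mt s ∈ S2 ∧ Mt s ≠ s ∧ Mt (Mt s) = s := by
      intro s hs
      have hsS := hS2S hs
      obtain ⟨g1, g2, g3⟩ := hM s hsS
      refine ⟨?_, g2, g3⟩
      rw [hS2, Finset.mem_erase, Finset.mem_erase] at hs ⊢
      refine ⟨?_, ?_, g1⟩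
      · intro h
        exact hs.2.1 (by rw [← g3, h, hdd])
      · intro h
        exact hs.1 (by rw [← g3, h])
    obtain ⟨F2, hF2, hP2, ha2, hb2, hT2, hU2⟩ := ih S2.card hlt hgp2 hS2Q2 hne2
      (fun s hs => (hext s (hS2S hs)).mono hQ2Q (hS2Q2 hs)) hM2
      (fun s hs t ht => hnc s (hS2S hs) t (hS2S ht)) rfl
    have hcross : ∀ e ∈ F1, ∀ f ∈ F2, ¬ SCr e f := by
      intro e he f hf hef
      have he' := hF1 he
      have hf' := hF2 hf
      induction e using Sym2.ind with
      | _ p q =>
      induction f using Sym2.ind with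
      | _ r s =>
      rw [SCr_mk] at hef
      rw [mem_Seg] at he' hf'
      rw [hQ1, Finset.mem_filter, Finset.mem_filter] at he'
      rw [hQ2, Finset.mem_filter, Finset.mem_filter] at hf'
      exact cp_nocross (not_lt.mp he'.1.2) (not_lt.mp he'.2.1.2) hf'.1.2 hf'.2.1.2 hef
    have hat1 : ∀ q ∈ Q1, edgesAt (F1 ∪ F2) q = edgesAt F1 q :=
      fun q hq => cp_edgesAt_union_left hF2 (hnot2 q hq)
    have hat2 : ∀ q ∈ Q2, edgesAt (F1 ∪ F2) q = edgesAt F2 q := by
      intro q hq
      rw [Finset.union_comm]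
      exact cp_edgesAt_union_left hF1 (hnot1 q hq)
    have hcl1 : ∀ T : Set Pt, EClosed (F1 ∪ F2) T → EClosed F1 T :=
      fun T hT => cp_EClosed_mono Finset.subset_union_left hT
    have hcl2 : ∀ T : Set Pt, EClosed (F1 ∪ F2) T → EClosed F2 T :=
      fun T hT => cp_EClosed_mono Finset.subset_union_right hT
    have hcase : ∀ q ∈ Q, q ∈ Q1 ∨ q ∈ Q2 := by
      intro q hq
      by_cases h : 0 < ori d (Mt d) q
      · exact Or.inr (Finset.mem_filter.mpr ⟨hq, h⟩)
      · exact Or.inl (Finset.mem_filter.mpr ⟨hq, h⟩)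
    have hmemS2 : ∀ s ∈ S, s ≠ d → s ≠ Mt d → s ∈ S2 := by
      intro s hs h1 h2
      rw [hS2, Finset.mem_erase, Finset.mem_erase]
      exact ⟨h2, h1, hs⟩
    refine ⟨F1 ∪ F2, ?_, ?_, ?_, ?_, ?_, ?_⟩
    · exact Finset.union_subset (hF1.trans (cp_Seg_mono hQ1Q)) (hF2.trans (cp_Seg_mono hQ2Q))
    · intro e he f hf
      rcases Finset.mem_union.mp he with he | he <;> rcases Finset.mem_union.mp hf with hf | hf
      · exact hP1 e he f hf
      · exact hcross e he f hf
      · exact fun h => hcross f hf e he h.symm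
      · exact hP2 e he f hf
    · intro s hs
      by_cases h1 : s = d
      · subst h1; rw [hat1 _ hdQ1]; exact hc1
      · by_cases h2 : s = Mt d
        · rw [h2, hat1 _ hd'Q1]; exact hc1'
        · have := hmemS2 s hs h1 h2
          rw [hat2 s (hS2Q2 this)]; exact ha2 s this
    · intro q hq hqS
      have h1 : q ≠ d := fun h => hqS (h ▸ hd)
      have h2 : q ≠ Mt d := fun h => hqS (h ▸ hd')
      rcases hcase q hq with h | h
      · rw [hat1 q h]; exact hc1'' q h h1 h2
      · rw [hat2 q h]; exact hb2 q h (fun h' => hqS (hS2S h'))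
    · intro T hT s hs hsT
      by_cases h1 : s = d
      · rw [h1]; exact hT1 T (hcl1 T hT) ⟨d, hdQ1, h1 ▸ hsT⟩ (Mt d) hd'Q1
      · by_cases h2 : s = Mt d
        · rw [h2, hdd]; exact hT1 T (hcl1 T hT) ⟨Mt d, hd'Q1, h2 ▸ hsT⟩ d hdQ1
        · exact hT2 T (hcl2 T hT) s (hmemS2 s hs h1 h2) hsT
    · rintro T hT ⟨q, hq, hqT⟩
      rcases hcase q hq with h | h
      · exact ⟨d, hd, hT1 T (hcl1 T hT) ⟨q, h, hqT⟩ d hdQ1⟩
      · obtain ⟨s, hs, hsT⟩ := hU2 T (hcl2 T hT) ⟨q, h, hqT⟩
        exact ⟨s, hS2S hs, hsT⟩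
  · -- only the pair itself
    rw [Finset.not_nonempty_iff_eq_empty] at hne2
    have honly : ∀ s ∈ S, s = d ∨ s = Mt d := by
      intro s hs
      by_contra hcon
      push Not at hcon
      have : s ∈ S2 := by
        rw [hS2, Finset.mem_erase, Finset.mem_erase]
        exact ⟨hcon.2, hcon.1, hs⟩
      rw [hne2] at this
      simp at this
    obtain ⟨F, hF, hP, ha, hb, hc, hT⟩ := path_lemma hgp hdne.symm (hext d hd) (hext (Mt d) hd')
    refine ⟨F, hF, hP, ?_, ?_, ?_, ?_⟩
    · intro s hs
      rcases honly s hs with h | h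
      · rw [h]; exact ha
      · rw [h]; exact hb
    · intro q hq hqS
      exact hc q hq (fun h => hqS (h ▸ hd)) (fun h => hqS (h ▸ hd'))
    · intro T hTT s hs hsT
      exact hT T hTT ⟨s, hSQ hs, hsT⟩ (Mt s) (hSQ (hM s hs).1)
    · rintro T hTT ⟨q, hq, hqT⟩
      exact ⟨d, hd, hT T hTT ⟨q, hq, hqT⟩ d (hSQ hd)⟩

end F059
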