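import Pool.Agent.Lib.F059.DDefs

/-!
# F059D.NoCross: segments in the closures of disjoint convex sets do not cross

u open convex, v convex, u ∩ v = ∅; a, b ∈ closure u, c, d ∈ closure v.  Then a b and c d do not cross
properly.  PROOF.  If u or v is empty nothing to do.  `geometric_hahn_banach_open` gives a continuous
linear f and s with f < s on u and s ≤ f on v; so f ≤ s on closure u, f ≥ s on closure v.  If `Cr a b c d`,
there is a point x in the open segments a b and c d (x = a + t (b-a), t = ori c d a / (ori c d a - ori c d b)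
∈ (0,1), and similarly on c d).  f x ≤ s and f x ≥ s, so f x = s, hence f a = f b = s and f c = f d = s
(convex combinations with positive weights); f ≠ 0 (as f < s = f a on u, u not empty) so a, b, c, d are on one line, and
ori a b c = 0: contradiction with `Cr`.
-/

namespace F059

namespace NoCrossAux

lemma div_pos' {x y : ℝ} (h : 0 < x * y) : 0 < x / y := by
  have hy : y ≠ 0 := by
    rintro rfl
    simp at h
  have e : x / y = x * y / (y * y) := by
    field_simp
  rw [e]
  exact div_pos h (mul_self_pos.2 hy)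

lemma ori_comb (p q c d : Pt) (s t : ℝ) (h : s + t = 1) :
    ori p q (s • c + t • d) = s * ori p q c + t * ori p q d := by
  have hs : s = 1 - t := by linarith
  subst hs
  unfold ori
  simp only [Prod.fst_add, Prod.snd_add, Prod.smul_fst, Prod.smul_snd, smul_eq_mul]
  ring

lemma ori_self (p q : Pt) (s t : ℝ) (h : s + t = 1) : ori p q (s • p + t • q) = 0 := by
  rw [ori_comb p q p q s t h]
  unfold ori
  ring

lemma diff_eq (a b c d : Pt) : ori a b c - ori a b d = -(ori c d a - ori c d b) := by
  unfold ori
  ring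

lemma ne_of_opp {x y s t : ℝ} (hs : 0 < s) (ht : 0 < t) (h : s * x + t * y = 0) (hx : x ≠ 0) :
    x * y < 0 ∧ x ≠ y := by
  have hy : y = -(s / t) * x := by
    field_simp
    linarith
  have hst : 0 < s / t := div_pos hs ht
  have hxx : 0 < x * x := mul_self_pos.2 hx
  constructor
  · rw [hy]
    have : x * (-(s / t) * x) = -((s / t) * (x * x)) := by ring
    rw [this]
    have := mul_pos hst hxx
    linarith
  · intro hxy
    rw [← hxy] at h
    have h2 : (s + t) * x = 0 := by linarith
    rcases mul_eq_zero.1 h2 with h3 | h3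
    · linarith
    · exact hx h3

end NoCrossAux

open NoCrossAux

/-- the crossing point -/
theorem Cr.exists_mem {a b c d : Pt} (h : Cr a b c d) :
    ∃ x, x ∈ openSegment ℝ a b ∧ x ∈ openSegment ℝ c d := by
  obtain ⟨h1, h2⟩ := h
  set oa := ori c d a with hoa
  set ob := ori c d b with hob
  set oc := ori a b c with hoc
  set od := ori a b d with hod
  have hD : oc - od = -(oa - ob) := diff_eq a b c d
  have hne : oa - ob ≠ 0 := by
    intro h0
    have : oa = ob := by linarith
    rw [this] at h2
    nlinarith [mul_self_nonneg ob]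
  have hne' : oc - od ≠ 0 := by
    rw [hD]
    exact neg_ne_zero.2 hne
  have t1 : 0 < oa / (oa - ob) := div_pos' (by nlinarith [mul_self_nonneg oa])
  have t2 : 0 < -ob / (oa - ob) := div_pos' (by nlinarith [mul_self_nonneg ob])
  have s1 : 0 < oc / (oc - od) := div_pos' (by nlinarith [mul_self_nonneg oc])
  have s2 : 0 < -od / (oc - od) := div_pos' (by nlinarith [mul_self_nonneg od])
  refine ⟨(-ob / (oa - ob)) • a + (oa / (oa - ob)) • b, ⟨_, _, t2, t1, ?_, rfl⟩,
    ⟨-od / (oc - od), oc / (oc - od), s2, s1, ?_, ?_⟩⟩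
  · rw [← add_div, div_eq_one_iff_eq hne]
    ring
  · rw [← add_div, div_eq_one_iff_eq hne']
    ring
  · rw [hD]
    ext
    · simp only [Prod.fst_add, Prod.smul_fst, smul_eq_mul]
      rw [div_neg, div_neg]
      field_simp
      simp only [hoa, hob, hoc, hod]
      unfold ori
      ring
    · simp only [Prod.snd_add, Prod.smul_snd, smul_eq_mul]
      rw [div_neg, div_neg]
      field_simp
      simp only [hoa, hob, hoc, hod]
      unfold ori
      ring

/-- conversely: a common point of the open segments, no three of the ends on a line -/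
theorem cr_of_mem {a b c d x : Pt} (h1 : x ∈ openSegment ℝ a b) (h2 : x ∈ openSegment ℝ c d)
    (h3 : ori a b c ≠ 0) : Cr a b c d := by
  obtain ⟨t1, t2, ht1, ht2, ht, rfl⟩ := h1
  obtain ⟨s1, s2, hs1, hs2, hs, hx⟩ := h2
  have e1 : s1 * ori a b c + s2 * ori a b d = 0 := by
    rw [← ori_comb a b c d s1 s2 hs, hx]
    exact ori_self a b t1 t2 ht
  have e2 : t1 * ori c d a + t2 * ori c d b = 0 := by
    rw [← ori_comb c d a b t1 t2 ht, ← hx]
    exact ori_self c d s1 s2 hs
  obtain ⟨h4, h5⟩ := ne_of_opp hs1 hs2 e1 h3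
  have h6 : ori c d a ≠ 0 := by
    intro h0
    rw [h0, mul_zero, zero_add] at e2
    rcases mul_eq_zero.1 e2 with h7 | h7
    · exact ht2.ne' h7
    · have := diff_eq a b c d
      rw [h0, h7] at this
      exact h5 (by linarith)
  exact ⟨h4, (ne_of_opp ht1 ht2 e2 h6).1⟩

theorem no_cross {u v : Set Pt} (hu : IsOpen u) (hu' : Convex ℝ u) (hune : u.Nonempty)
    (hv : Convex ℝ v) (huv : Disjoint u v) {a b c d : Pt} (ha : a ∈ closure u) (hb : b ∈ closure u)
    (hc : c ∈ closure v) (hd : d ∈ closure v) : ¬ Cr a b c d := by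
  intro hcr
  obtain ⟨f, s, hf1, hf2⟩ := geometric_hahn_banach_open hu' hu hv huv
  have h1 : ∀ z ∈ closure u, f z ≤ s := fun z hz =>
    closure_minimal (s := u) (t := {z | f z ≤ s}) (fun z hz => (hf1 z hz).le)
      (isClosed_le f.continuous continuous_const) hz
  have h2 : ∀ z ∈ closure v, s ≤ f z := fun z hz =>
    closure_minimal (s := v) (t := {z | s ≤ f z}) (fun z hz => hf2 z hz)
      (isClosed_le continuous_const f.continuous) hz
  obtain ⟨x, ⟨t1, t2, ht1, ht2, ht, hx1⟩, ⟨s1, s2, hs1, hs2, hs, hx2⟩⟩ := hcr.exists_mem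
  have e1 : f x = t1 * f a + t2 * f b := by
    rw [← hx1]
    simp
  have e2 : f x = s1 * f c + s2 * f d := by
    rw [← hx2]
    simp
  have fa := h1 a ha
  have fb := h1 b hb
  have fc := h2 c hc
  have fd := h2 d hd
  have g1 : f x ≤ s := by
    rw [e1]
    have : t1 * s + t2 * s = s := by rw [← add_mul, ht, one_mul]
    have i1 := mul_le_mul_of_nonneg_left fa ht1.le
    have i2 := mul_le_mul_of_nonneg_left fb ht2.le
    linarith
  have g2 : s ≤ f x := by
    rw [e2]
    have : s1 * s + s2 * s = s := by rw [← add_mul, hs, one_mul]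
    have i1 := mul_le_mul_of_nonneg_left fc hs1.le
    have i2 := mul_le_mul_of_nonneg_left fd hs2.le
    linarith
  have hfx : f x = s := le_antisymm g1 g2
  have ka : f a = s := by
    have : t1 * s + t2 * s = s := by rw [← add_mul, ht, one_mul]
    have i2 := mul_le_mul_of_nonneg_left fb ht2.le
    have i3 : t1 * s ≤ t1 * f a := by linarith
    have i4 := le_of_mul_le_mul_left i3 ht1
    exact le_antisymm fa i4
  have kb : f b = s := by
    have : t1 * s + t2 * s = s := by rw [← add_mul, ht, one_mul]
    have i2 := mul_le_mul_of_nonneg_left fa ht1.le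
    have i3 : t2 * s ≤ t2 * f b := by linarith
    have i4 := le_of_mul_le_mul_left i3 ht2
    exact le_antisymm fb i4
  have kc : f c = s := by
    have : s1 * s + s2 * s = s := by rw [← add_mul, hs, one_mul]
    have i2 := mul_le_mul_of_nonneg_left fd hs2.le
    have i3 : s1 * f c ≤ s1 * s := by linarith
    have i4 := le_of_mul_le_mul_left i3 hs1
    exact le_antisymm i4 fc
  have hfe : ∀ z : Pt, f z = z.1 * f (1, 0) + z.2 * f (0, 1) := by
    intro z
    have : z = z.1 • ((1, 0) : Pt) + z.2 • ((0, 1) : Pt) := by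
      ext <;> simp
    calc f z = f (z.1 • ((1, 0) : Pt) + z.2 • ((0, 1) : Pt)) := congrArg f this
      _ = z.1 * f (1, 0) + z.2 * f (0, 1) := by
        rw [map_add, map_smul, map_smul, smul_eq_mul, smul_eq_mul]
  have hori : ori a b c = 0 := by
    rw [hfe] at ka kb kc
    set α := f (1, 0) with hα
    set β := f (0, 1) with hβ
    have k1 : (b.1 - a.1) * α + (b.2 - a.2) * β = 0 := by linarith
    have k2 : (c.1 - a.1) * α + (c.2 - a.2) * β = 0 := by linarith
    have k3 : ori a b c * α = 0 := by
      unfold ori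
      linear_combination (c.2 - a.2) * k1 - (b.2 - a.2) * k2
    have k4 : ori a b c * β = 0 := by
      unfold ori
      linear_combination (b.1 - a.1) * k2 - (c.1 - a.1) * k1
    by_contra hne
    have hα0 : α = 0 := (mul_eq_zero.1 k3).resolve_left hne
    have hβ0 : β = 0 := (mul_eq_zero.1 k4).resolve_left hne
    obtain ⟨z, hz⟩ := hune
    have h7 := hf1 z hz
    rw [hfe, hα0, hβ0] at h7
    rw [hα0, hβ0] at ka
    linarith
  have := hcr.1
  rw [hori] at this
  simp at this

end F059
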