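import Pool.Agent.Lib.F059.Trail
import Pool.Agent.Lib.F059.CellPath
import Pool.Agent.Lib.F059.NoCross

/-!
# F059D.Asm: assembling the polygon

PROOF of `assemble`.  Mt from `exists_trail`.  Every p ∈ P \ D is assigned to one cell c(p) ∈ V with
p ∈ closure (c p) (`cov`, choice).  For v ∈ V: S_v = doorsOf D A B v, Q_v = S_v ∪ {p ∈ P \ D : c p = v}.
`cell_path` gives F_v.  H = ⋃ F_v.  Different F_v have no common edge: a common edge would have
two doors as ends which form a set closed under the partners, but |D| ≥ 3.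
-/

namespace F059

private theorem as_mem_of_mem_Seg {Q : Finset Pt} {e : Sym2 Pt} (h : e ∈ Seg Q) :
    ∀ p ∈ e, p ∈ Q := by
  intro p hp
  induction e using Sym2.ind with
  | _ a b =>
    rw [mem_Seg] at h
    rw [Sym2.mem_iff] at hp
    rcases hp with rfl | rfl
    · exact h.1
    · exact h.2.1

private theorem as_Seg_mono {Q Q' : Finset Pt} (h : Q ⊆ Q') : Seg Q ⊆ Seg Q' := by
  intro e he
  induction e using Sym2.ind with
  | _ a b =>
    rw [mem_Seg] at he ⊢
    exact ⟨h he.1, h he.2.1, he.2.2⟩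

/-- two points with only one edge, the common one, form a closed set -/
private theorem as_pair_closed {F : Finset (Sym2 Pt)} {a b : Pt} (hab : s(a, b) ∈ F)
    (ha : (edgesAt F a).card = 1) (hb : (edgesAt F b).card = 1) :
    EClosed F ({a, b} : Set Pt) := by
  classical
  have key : ∀ x : Pt, x ∈ s(a, b) → (edgesAt F x).card = 1 → ∀ y, s(x, y) ∈ F →
      s(x, y) = s(a, b) := by
    intro x hx hcard y hy
    rw [Finset.card_eq_one] at hcard
    obtain ⟨e, he⟩ := hcard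
    have h1 : s(x, y) ∈ edgesAt F x := by
      rw [edgesAt, Finset.mem_filter]; exact ⟨hy, Sym2.mem_mk_left x y⟩
    have h2 : s(a, b) ∈ edgesAt F x := by
      rw [edgesAt, Finset.mem_filter]; exact ⟨hab, hx⟩
    rw [he, Finset.mem_singleton] at h1 h2
    rw [h1, h2]
  intro x y hxy hx
  rcases hx with rfl | hx
  · have := key x (Sym2.mem_mk_left _ _) ha y hxy
    have hy : y ∈ s(x, b) := by rw [← this]; exact Sym2.mem_mk_right _ _
    rw [Sym2.mem_iff] at hy
    rcases hy with rfl | rfl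
    · exact Or.inl rfl
    · exact Or.inr rfl
  · have hx' : x = b := hx
    subst hx'
    have := key x (Sym2.mem_mk_right _ _) hb y hxy
    have hy : y ∈ s(a, x) := by rw [← this]; exact Sym2.mem_mk_right _ _
    rw [Sym2.mem_iff] at hy
    rcases hy with rfl | rfl
    · exact Or.inl rfl
    · exact Or.inr rfl

theorem assemble {P : Finset Pt} (hgp : GenPos P) {V : Finset (Set Pt)} {A B : Pt → Set Pt}
    {D : Finset Pt} (h : EvenDoors P V A B D) :
    ∃ H : Finset (Sym2 Pt), H ⊆ Seg P ∧ Plane H ∧ (∀ p ∈ P, (edgesAt H p).card = 2) ∧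
      (∀ T : Set Pt, EClosed H T → (∃ q ∈ P, q ∈ T) → ∀ q ∈ P, q ∈ T) ∧
      ∀ e ∈ H, ∃ v ∈ V, ∀ p ∈ e, p ∈ closure v := by
  classical
  obtain ⟨Mt, hm, htr⟩ := exists_trail hgp h
  have hDP : ∀ d ∈ D, d ∈ P := fun d hd => (h.door d hd).2.2.2.1.1
  have hDne : D.Nonempty := by
    rw [← Finset.card_pos]; have := h.card; omega
  have hch : ∀ p : Pt, ∃ v : Set Pt, p ∈ P → v ∈ V ∧ p ∈ closure v := by
    intro p
    by_cases hp : p ∈ P
    · obtain ⟨v, hv, hpv⟩ := h.cov p hp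
      exact ⟨v, fun _ => ⟨hv, hpv⟩⟩
    · exact ⟨∅, fun hp' => absurd hp' hp⟩
  choose c hc using hch
  -- the point sets
  obtain ⟨Qf, hQf⟩ : ∃ Qf : Set Pt → Finset Pt, ∀ v p, p ∈ Qf v ↔
      (p ∈ doorsOf D A B v ∨ (p ∈ P ∧ p ∉ D ∧ c p = v)) := by
    refine ⟨fun v => doorsOf D A B v ∪ P.filter (fun p => p ∉ D ∧ c p = v), fun v p => ?_⟩
    rw [Finset.mem_union, Finset.mem_filter]
  have hS : ∀ v d, d ∈ doorsOf D A B v ↔ d ∈ D ∧ (A d = v ∨ B d = v) := by
    intro v d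
    rw [doorsOf, Finset.mem_filter]
  have hSQ : ∀ v, doorsOf D A B v ⊆ Qf v := fun v d hd => (hQf v d).2 (Or.inl hd)
  have hQP : ∀ v, Qf v ⊆ P := by
    intro v p hp
    rcases (hQf v p).1 hp with hp | hp
    · exact hDP p ((hS v p).1 hp).1
    · exact hp.1
  have hsupp : ∀ v d, d ∈ doorsOf D A B v → Supp P v d := by
    intro v d hd
    obtain ⟨hdD, h1 | h1⟩ := (hS v d).1 hd
    · rw [← h1]; exact (h.door d hdD).2.2.2.1
    · rw [← h1]; exact (h.door d hdD).2.2.2.2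
  have hQcl : ∀ v, ∀ p ∈ Qf v, p ∈ closure v := by
    intro v p hp
    rcases (hQf v p).1 hp with hp | hp
    · exact (hsupp v p hp).2.1
    · rw [← hp.2.2]; exact (hc p hp.1).2
  have hSne : ∀ v ∈ V, (doorsOf D A B v).Nonempty := by
    intro v hv
    by_contra hcon
    rw [Finset.not_nonempty_iff_eq_empty] at hcon
    have hno : ∀ d ∈ D, ¬ (A d = v ∨ B d = v) := by
      intro d hd h1
      have : d ∈ doorsOf D A B v := (hS v d).2 ⟨hd, h1⟩
      rw [hcon] at this
      simp at this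
    obtain ⟨d, hd⟩ := hDne
    have := h.conn (fun u => u = v) (fun d hd => by
      have := hno d hd
      push Not at this
      exact ⟨fun h1 => absurd h1 this.1, fun h1 => absurd h1 this.2⟩) (A d) (h.door d hd).1 v hv
    exact hno d hd (Or.inl (this.2 rfl))
  have hcell : ∀ v : Set Pt, ∃ F : Finset (Sym2 Pt), v ∈ V →
      (F ⊆ Seg (Qf v) ∧ Plane F ∧ (∀ s ∈ doorsOf D A B v, (edgesAt F s).card = 1) ∧
      (∀ q ∈ Qf v, q ∉ doorsOf D A B v → (edgesAt F q).card = 2) ∧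
      (∀ T : Set Pt, EClosed F T → ∀ s ∈ doorsOf D A B v, s ∈ T → Mt v s ∈ T) ∧
      (∀ T : Set Pt, EClosed F T → (∃ q ∈ Qf v, q ∈ T) → ∃ s ∈ doorsOf D A B v, s ∈ T)) := by
    intro v
    by_cases hv : v ∈ V
    · obtain ⟨F, hF⟩ := cell_path (Q := Qf v) (S := doorsOf D A B v)
        (fun p hp q hq r hr => hgp p (hQP v hp) q (hQP v hq) r (hQP v hr)) (hSQ v) (hSne v hv)
        (fun s hs => ext_of_supp hgp (hsupp v s hs) (hQP v) (hQcl v) (hSQ v hs)) (Mt v)
        (fun s hs => ⟨hm.mem v hv s hs, hm.ne v hv s hs, hm.inv v hv s hs⟩)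
        (fun s hs t ht => hm.nc v hv s hs t ht)
      exact ⟨F, fun _ => hF⟩
    · exact ⟨∅, fun hv' => absurd hv' hv⟩
  choose F hF using hcell
  have hFS : ∀ v ∈ V, F v ⊆ Seg (Qf v) := fun v hv => (hF v hv).1
  have hend : ∀ v ∈ V, ∀ e ∈ F v, ∀ p ∈ e, p ∈ Qf v :=
    fun v hv e he => as_mem_of_mem_Seg (hFS v hv he)
  have hmemH : ∀ e, e ∈ V.biUnion F ↔ ∃ v ∈ V, e ∈ F v := fun e => Finset.mem_biUnion
  have hVne : ∀ v ∈ V, v.Nonempty := by
    intro v hv
    obtain ⟨d, hd⟩ := hSne v hv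
    exact closure_nonempty_iff.mp ⟨d, (hsupp v d hd).2.1⟩
  -- different cells have no common edge
  have hdisj : ∀ u ∈ V, ∀ v ∈ V, u ≠ v → ∀ e, e ∈ F u → e ∉ F v := by
    intro u hu v hv huv e heu hev
    induction e using Sym2.ind with
    | _ a b =>
    have hboth : ∀ p, p ∈ Qf u → p ∈ Qf v → p ∈ D ∧ ((A p = u ∧ B p = v) ∨ (A p = v ∧ B p = u)) := by
      intro p hpu hpv
      rcases (hQf u p).1 hpu with h1 | h1 <;> rcases (hQf v p).1 hpv with h2 | h2
      · obtain ⟨hpD, h3⟩ := (hS u p).1 h1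
        obtain ⟨_, h4⟩ := (hS v p).1 h2
        refine ⟨hpD, ?_⟩
        rcases h3 with h3 | h3 <;> rcases h4 with h4 | h4
        · exact absurd (h3.symm.trans h4) huv
        · exact Or.inl ⟨h3, h4⟩
        · exact Or.inr ⟨h4, h3⟩
        · exact absurd (h3.symm.trans h4) huv
      · exact absurd ((hS u p).1 h1).1 h2.2.1
      · exact absurd ((hS v p).1 h2).1 h1.2.1
      · exact absurd (h1.2.2.symm.trans h2.2.2) huv
    have haa := hboth a (hend u hu _ heu a (Sym2.mem_mk_left _ _))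
      (hend v hv _ hev a (Sym2.mem_mk_left _ _))
    have hbb := hboth b (hend u hu _ heu b (Sym2.mem_mk_right _ _))
      (hend v hv _ hev b (Sym2.mem_mk_right _ _))
    have hin : ∀ p, p ∈ D ∧ ((A p = u ∧ B p = v) ∨ (A p = v ∧ B p = u)) →
        p ∈ doorsOf D A B u ∧ p ∈ doorsOf D A B v := by
      rintro p ⟨hpD, ⟨h1, h2⟩ | ⟨h1, h2⟩⟩
      · exact ⟨(hS u p).2 ⟨hpD, Or.inl h1⟩, (hS v p).2 ⟨hpD, Or.inr h2⟩⟩
      · exact ⟨(hS u p).2 ⟨hpD, Or.inr h2⟩, (hS v p).2 ⟨hpD, Or.inl h1⟩⟩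
    obtain ⟨hau, hav⟩ := hin a haa
    obtain ⟨hbu, hbv⟩ := hin b hbb
    have hclu : EClosed (F u) ({a, b} : Set Pt) :=
      as_pair_closed heu ((hF u hu).2.2.1 a hau) ((hF u hu).2.2.1 b hbu)
    have hclv : EClosed (F v) ({a, b} : Set Pt) :=
      as_pair_closed hev ((hF v hv).2.2.1 a hav) ((hF v hv).2.2.1 b hbv)
    have ta : a ∈ ({a, b} : Set Pt) := Or.inl rfl
    have tb : b ∈ ({a, b} : Set Pt) := Or.inr rfl
    have mau := (hF u hu).2.2.2.2.1 _ hclu a hau ta
    have mbu := (hF u hu).2.2.2.2.1 _ hclu b hbu tb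
    have mav := (hF v hv).2.2.2.2.1 _ hclv a hav ta
    have mbv := (hF v hv).2.2.2.2.1 _ hclv b hbv tb
    have conv : ∀ x : Pt, x ∈ ({a, b} : Set Pt) → x ∈ ({a, b} : Finset Pt) := by
      intro x hx
      rcases hx with rfl | hx
      · simp
      · have hx' : x = b := hx
        subst hx'; simp
    have hMC : MClosed A B Mt ({a, b} : Finset Pt) := by
      intro d hd
      rw [Finset.mem_insert, Finset.mem_singleton] at hd
      rcases hd with rfl | rfl
      · rcases haa.2 with ⟨h1, h2⟩ | ⟨h1, h2⟩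
        · rw [h1, h2]; exact ⟨conv _ mau, conv _ mav⟩
        · rw [h1, h2]; exact ⟨conv _ mav, conv _ mau⟩
      · rcases hbb.2 with ⟨h1, h2⟩ | ⟨h1, h2⟩
        · rw [h1, h2]; exact ⟨conv _ mbu, conv _ mbv⟩
        · rw [h1, h2]; exact ⟨conv _ mbv, conv _ mbu⟩
    have hTD : ({a, b} : Finset Pt) = D := by
      refine htr _ ?_ ⟨a, by simp⟩ hMC
      intro x hx
      rw [Finset.mem_insert, Finset.mem_singleton] at hx
      rcases hx with rfl | rfl
      · exact haa.1
      · exact hbb.1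
    have h3 := h.card
    rw [← hTD] at h3
    have := Finset.card_le_two (a := a) (b := b)
    omega
  refine ⟨V.biUnion F, ?_, ?_, ?_, ?_, ?_⟩
  · intro e he
    obtain ⟨v, hv, hev⟩ := (hmemH e).1 he
    exact as_Seg_mono (hQP v) (hFS v hv hev)
  · intro e he f hf hef
    obtain ⟨u, hu, heu⟩ := (hmemH e).1 he
    obtain ⟨v, hv, hfv⟩ := (hmemH f).1 hf
    by_cases huv : u = v
    · subst huv
      exact (hF u hu).2.1 e heu f hfv hef
    · induction e using Sym2.ind with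
      | _ p q =>
      induction f using Sym2.ind with
      | _ r s =>
      rw [SCr_mk] at hef
      exact no_cross (h.isOpen u hu) (h.conv u hu) (hVne u hu) (h.conv v hv) (h.disj u hu v hv huv)
        (hQcl u p (hend u hu _ heu p (Sym2.mem_mk_left _ _)))
        (hQcl u q (hend u hu _ heu q (Sym2.mem_mk_right _ _)))
        (hQcl v r (hend v hv _ hfv r (Sym2.mem_mk_left _ _)))
        (hQcl v s (hend v hv _ hfv s (Sym2.mem_mk_right _ _))) hef
  · intro p hp
    by_cases hpD : p ∈ D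
    · obtain ⟨hA, hB, hAB, _, _⟩ := h.door p hpD
      have heq : edgesAt (V.biUnion F) p = edgesAt (F (A p)) p ∪ edgesAt (F (B p)) p := by
        ext e
        rw [Finset.mem_union, edgesAt, edgesAt, edgesAt, Finset.mem_filter, Finset.mem_filter,
          Finset.mem_filter, hmemH]
        constructor
        · rintro ⟨⟨v, hv, hev⟩, hpe⟩
          rcases (hQf v p).1 (hend v hv e hev p hpe) with h1 | h1
          · obtain ⟨_, h2 | h2⟩ := (hS v p).1 h1
            · rw [h2]; exact Or.inl ⟨hev, hpe⟩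
            · rw [h2]; exact Or.inr ⟨hev, hpe⟩
          · exact absurd hpD h1.2.1
        · rintro (⟨h1, h2⟩ | ⟨h1, h2⟩)
          · exact ⟨⟨_, hA, h1⟩, h2⟩
          · exact ⟨⟨_, hB, h1⟩, h2⟩
      have hd : Disjoint (edgesAt (F (A p)) p) (edgesAt (F (B p)) p) := by
        rw [Finset.disjoint_left]
        intro e h1 h2
        rw [edgesAt, Finset.mem_filter] at h1 h2
        exact hdisj _ hA _ hB hAB e h1.1 h2.1
      rw [heq, Finset.card_union_of_disjoint hd,
        (hF (A p) hA).2.2.1 p ((hS _ _).2 ⟨hpD, Or.inl rfl⟩),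
        (hF (B p) hB).2.2.1 p ((hS _ _).2 ⟨hpD, Or.inr rfl⟩)]
    · have hcp := hc p hp
      have heq : edgesAt (V.biUnion F) p = edgesAt (F (c p)) p := by
        ext e
        rw [edgesAt, edgesAt, Finset.mem_filter, Finset.mem_filter, hmemH]
        constructor
        · rintro ⟨⟨v, hv, hev⟩, hpe⟩
          rcases (hQf v p).1 (hend v hv e hev p hpe) with h1 | h1
          · exact absurd ((hS v p).1 h1).1 hpD
          · rw [h1.2.2]; exact ⟨hev, hpe⟩
        · rintro ⟨h1, h2⟩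
          exact ⟨⟨_, hcp.1, h1⟩, h2⟩
      rw [heq]
      exact (hF (c p) hcp.1).2.2.2.1 p ((hQf _ _).2 (Or.inr ⟨hp, hpD, rfl⟩))
        (fun h1 => hpD ((hS _ _).1 h1).1)
  · -- connectivity
    have hmain : ∀ T : Set Pt, EClosed (V.biUnion F) T → (∃ q ∈ P, q ∈ T) → ∀ d ∈ D, d ∈ T := by
      rintro T hT ⟨q, hq, hqT⟩
      have hTv : ∀ v ∈ V, EClosed (F v) T := fun v hv a b hab ha =>
        hT a b ((hmemH _).2 ⟨v, hv, hab⟩) ha
      have hdoor : ∃ d ∈ D, d ∈ T := by
        have : ∃ v ∈ V, q ∈ Qf v := by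
          by_cases hqD : q ∈ D
          · exact ⟨A q, (h.door q hqD).1, hSQ _ ((hS _ _).2 ⟨hqD, Or.inl rfl⟩)⟩
          · exact ⟨c q, (hc q hq).1, (hQf _ _).2 (Or.inr ⟨hq, hqD, rfl⟩)⟩
        obtain ⟨v, hv, hqv⟩ := this
        obtain ⟨s, hs, hsT⟩ := (hF v hv).2.2.2.2.2 T (hTv v hv) ⟨q, hqv, hqT⟩
        exact ⟨s, ((hS v s).1 hs).1, hsT⟩
      have hcl : MClosed A B Mt (D.filter (fun d => d ∈ T)) := by
        intro d hd
        rw [Finset.mem_filter] at hd
        obtain ⟨hdD, hdT⟩ := hd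
        have hA := (h.door d hdD).1
        have hB := (h.door d hdD).2.1
        have dA : d ∈ doorsOf D A B (A d) := (hS _ _).2 ⟨hdD, Or.inl rfl⟩
        have dB : d ∈ doorsOf D A B (B d) := (hS _ _).2 ⟨hdD, Or.inr rfl⟩
        rw [Finset.mem_filter, Finset.mem_filter]
        exact ⟨⟨((hS _ _).1 (hm.mem _ hA d dA)).1, (hF _ hA).2.2.2.2.1 T (hTv _ hA) d dA hdT⟩,
          ⟨((hS _ _).1 (hm.mem _ hB d dB)).1, (hF _ hB).2.2.2.2.1 T (hTv _ hB) d dB hdT⟩⟩
      obtain ⟨d0, hd0, hd0T⟩ := hdoor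
      have := htr (D.filter (fun d => d ∈ T)) (Finset.filter_subset _ _)
        ⟨d0, Finset.mem_filter.mpr ⟨hd0, hd0T⟩⟩ hcl
      intro d hd
      rw [← this, Finset.mem_filter] at hd
      exact hd.2
    intro T hT hTne q hq
    by_contra hqT
    have h1 := hmain T hT hTne
    have hTc : EClosed (V.biUnion F) Tᶜ := by
      intro a b hab ha hb
      exact ha (hT b a (by rw [Sym2.eq_swap]; exact hab) hb)
    have h2 := hmain Tᶜ hTc ⟨q, hq, hqT⟩
    obtain ⟨d, hd⟩ := hDne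
    exact h2 d hd (h1 d hd)
  · intro e he
    obtain ⟨v, hv, hev⟩ := (hmemH e).1 he
    exact ⟨v, hv, fun p hp => hQcl v p (hend v hv e hev p hp)⟩

end F059
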