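import Mathlib

/-!
# MP_f059c0_co, common definitions

Points of the plane, orientation determinant, general position, proper crossings,
plane sets of segments, triangulations as maximal plane sets of segments,
crossing numbers, flips.
-/

namespace F059

/-- points of the plane -/
abbrev Pt := ℝ × ℝ

/-- orientation determinant: positive iff `r` is to the left of the directed line `p q` -/
def ori (p q r : Pt) : ℝ := (q.1 - p.1) * (r.2 - p.2) - (q.2 - p.2) * (r.1 - p.1)

/-- general position: no three distinct points of `P` are collinear -/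
def GenPos (P : Finset Pt) : Prop :=
  ∀ p ∈ P, ∀ q ∈ P, ∀ r ∈ P, p ≠ q → p ≠ r → q ≠ r → ori p q r ≠ 0

/-- the segments `p q` and `r s` cross properly -/
def Cr (p q r s : Pt) : Prop :=
  ori p q r * ori p q s < 0 ∧ ori r s p * ori r s q < 0

/-- two unordered pairs of points cross properly as segments -/
def SCr (e f : Sym2 Pt) : Prop :=
  ∃ p q r s : Pt, e = s(p, q) ∧ f = s(r, s) ∧ Cr p q r s

/-- the segments with ends in `P` -/
noncomputable def Seg (P : Finset Pt) : Finset (Sym2 Pt) := P.sym2.filter (fun e => ¬ e.IsDiag)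

/-- no two members cross -/
def Plane (A : Finset (Sym2 Pt)) : Prop := ∀ e ∈ A, ∀ f ∈ A, ¬ SCr e f

/-- triangulations of `P` as maximal plane sets of segments -/
def Tri (P : Finset Pt) (A : Finset (Sym2 Pt)) : Prop :=
  A ⊆ Seg P ∧ Plane A ∧ ∀ e ∈ Seg P, (∀ f ∈ A, ¬ SCr e f) → e ∈ A

open Classical in
/-- number of members of `A` crossing `e` -/
noncomputable def N (A : Finset (Sym2 Pt)) (e : Sym2 Pt) : ℕ := (A.filter (SCr e)).card

/-- number of crossings between `A` and `B` -/
noncomputable def cr (A B : Finset (Sym2 Pt)) : ℕ := ∑ e ∈ A, N B e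

/-- `A'` is obtained from the triangulation `A` of `P` by one flip
(exchange of one edge; both are triangulations) -/
def Flip (P : Finset Pt) (A A' : Finset (Sym2 Pt)) : Prop :=
  Tri P A ∧ Tri P A' ∧ ∃ e ∈ A, ∃ e' ∉ A, A' = insert e' (A.erase e)

/-- `B` is reached from `A` by exactly `k` flips -/
inductive Reach (P : Finset Pt) : ℕ → Finset (Sym2 Pt) → Finset (Sym2 Pt) → Prop
  | refl (A : Finset (Sym2 Pt)) : Reach P 0 A A
  | step {k : ℕ} {A B C : Finset (Sym2 Pt)} :
      Reach P k A B → Flip P B C → Reach P (k + 1) A C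

/-- the graph on `P` with edge set `A` -/
def gr (P : Finset Pt) (A : Finset (Sym2 Pt)) : SimpleGraph {x : Pt // x ∈ P} where
  Adj x y := x ≠ y ∧ s(x.1, y.1) ∈ A
  symm := ⟨by
    intro x y h
    exact ⟨h.1.symm, by rw [Sym2.eq_swap]; exact h.2⟩⟩
  loopless := ⟨fun x h => h.1 rfl⟩

open Classical in
/-- the graph on `P` with edge set `A` has a Hamiltonian cycle -/
def Ham (P : Finset Pt) (A : Finset (Sym2 Pt)) : Prop := (gr P A).IsHamiltonian

/-! ### first lemmas -/

lemma ori_swap (p q r : Pt) : ori q p r = - ori p q r := by unfold ori; ring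

lemma ori_cyc (p q r : Pt) : ori q r p = ori p q r := by unfold ori; ring

lemma ori_swap' (p q r : Pt) : ori p r q = - ori p q r := by unfold ori; ring

lemma Cr.symm {p q r s : Pt} (h : Cr p q r s) : Cr r s p q := ⟨h.2, h.1⟩

lemma Cr.swap_left {p q r s : Pt} (h : Cr p q r s) : Cr q p r s := by
  refine ⟨?_, ?_⟩
  · rw [ori_swap p q r, ori_swap p q s]; have := h.1; nlinarith
  · have := h.2; nlinarith

lemma Cr.swap_right {p q r s : Pt} (h : Cr p q r s) : Cr p q s r := h.symm.swap_left.symm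

lemma SCr_mk {p q r s : Pt} : SCr s(p, q) s(r, s) ↔ Cr p q r s := by
  constructor
  · rintro ⟨a, b, c, d, h1, h2, h⟩
    rw [Sym2.eq_iff] at h1 h2
    rcases h1 with ⟨rfl, rfl⟩ | ⟨rfl, rfl⟩ <;> rcases h2 with ⟨rfl, rfl⟩ | ⟨rfl, rfl⟩
    · exact h
    · exact h.swap_right
    · exact h.swap_left
    · exact h.swap_left.swap_right
  · intro h; exact ⟨p, q, r, s, rfl, rfl, h⟩

lemma SCr.symm {e f : Sym2 Pt} (h : SCr e f) : SCr f e := by
  obtain ⟨p, q, r, s, rfl, rfl, h⟩ := h
  exact ⟨r, s, p, q, rfl, rfl, h.symm⟩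

lemma mem_Seg {P : Finset Pt} {p q : Pt} : s(p, q) ∈ Seg P ↔ p ∈ P ∧ q ∈ P ∧ p ≠ q := by
  unfold Seg
  simp [Finset.mem_filter, Finset.mk_mem_sym2_iff, and_assoc]

end F059
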