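import Pool.Agent.Lib.F059.DDefs

/-!
# MP_f059c0_co, layers B and C: definitions (classes, hull edges, candidates, conflicts)
-/

namespace F059

/-- `p`, `q` are on the same side (or both on the line) for all lines through a point of `S`
parallel to a line spanned by two points of `S` -/
def SameS (S : Finset Pt) (p q : Pt) : Prop :=
  ∀ a ∈ S, ∀ b ∈ S, ∀ s ∈ S,
    SignType.sign (ori a b p - ori a b s) = SignType.sign (ori a b q - ori a b s)

/-- the open strip in direction `a b` between `s1` and `s2` -/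
def Strip (a b s1 s2 p : Pt) : Prop := ori a b s1 < ori a b p ∧ ori a b p < ori a b s2

/-- the open double wedge at `s` spanned by the directions `a b` and `a' b'` -/
def DWedge (a b a' b' s p : Pt) : Prop :=
  (ori a b p - ori a b s) * (ori a' b' p - ori a' b' s) < 0

open Classical in
/-- the points of `P` whose class (relation `Rel`) is met by the line `x y` (the class has points
weakly on both sides) -/
noncomputable def metBy (P : Finset Pt) (Rel : Pt → Pt → Prop) (x y : Pt) : Finset Pt :=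
  P.filter (fun p => ∃ q ∈ P, ∃ q' ∈ P, Rel p q ∧ Rel p q' ∧ ori x y q ≤ 0 ∧ 0 ≤ ori x y q')

open Classical in
/-- class number `i` of the class function `c` -/
noncomputable def cls (P : Finset Pt) (c : Pt → ℕ) (i : ℕ) : Finset Pt :=
  P.filter (fun p => c p = i)

/-- `p → q` is a hull edge of its class, all other points of the class are on the left -/
def HE (P : Finset Pt) (c : Pt → ℕ) (p q : Pt) : Prop :=
  p ∈ P ∧ q ∈ P ∧ p ≠ q ∧ c p = c q ∧ ∀ x ∈ P, c x = c p → x ≠ p → x ≠ q → 0 < ori p q x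

open Classical in
/-- the hull edges of all classes -/
noncomputable def HEs (P : Finset Pt) (c : Pt → ℕ) : Finset (Sym2 Pt) :=
  (Seg P).filter (fun e => ∃ p q, e = s(p, q) ∧ HE P c p q)

/-- the line `a b` supports the class of `b` at `b` -/
def Bad (P : Finset Pt) (c : Pt → ℕ) (a b : Pt) : Prop :=
  (∀ x ∈ P, c x = c b → x ≠ b → 0 < ori a b x) ∨ (∀ x ∈ P, c x = c b → x ≠ b → ori a b x < 0)

/-- `l.m`, `l.p` are the two hull neighbours of `l.b` in its class, and `l.b` is inside the
triangle `l.z l.m l.p` -/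
def Good (P : Finset Pt) (c : Pt → ℕ) (l : Leaf) : Prop :=
  HE P c l.m l.b ∧ HE P c l.b l.p ∧ 0 < ori l.z l.b l.m ∧ 0 < ori l.z l.p l.b ∧
    0 < ori l.p l.m l.b

open Classical in
/-- the edges between different classes -/
noncomputable def outer (T : Finset (Sym2 Pt)) (c : Pt → ℕ) : Finset (Sym2 Pt) :=
  T.filter (fun e => ∃ a b, e = s(a, b) ∧ c a ≠ c b)

/-- number of outer edges at `v` -/
noncomputable def deg (T : Finset (Sym2 Pt)) (c : Pt → ℕ) (v : Pt) : ℕ :=
  (edgesAt (outer T c) v).card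

/-- a class function with disjoint hulls -/
structure ClsSys (P : Finset Pt) (c : Pt → ℕ) : Prop where
  gp : GenPos P
  disj : ∀ i j, i ≠ j → Disjoint (convexHull ℝ (cls P c i : Set Pt))
    (convexHull ℝ (cls P c j : Set Pt))

/-- a triangulation containing the hull edges of all classes -/
structure TriSys (P : Finset Pt) (c : Pt → ℕ) (T : Finset (Sym2 Pt)) : Prop where
  cs : ClsSys P c
  sub : T ⊆ Seg P
  plane : Plane T
  hull : HEs P c ⊆ T

/-- candidates for star edges: `l.b` small and good, `l.z` small or a hub, `l.m`, `l.p` no hubs -/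
structure IsCand (P : Finset Pt) (c : Pt → ℕ) (T : Finset (Sym2 Pt)) (d0 D0 : ℕ) (l : Leaf) :
    Prop where
  edge : s(l.z, l.b) ∈ T
  out : c l.z ≠ c l.b
  good : Good P c l
  bsmall : deg T c l.b < d0
  zend : deg T c l.z < d0 ∨ D0 ≤ deg T c l.z
  mhub : deg T c l.m < D0
  phub : deg T c l.p < D0

/-- the line `x y` misses the closed ear of `l` -/
def Miss (x y : Pt) (l : Leaf) : Prop :=
  (0 < ori x y l.b ∧ 0 < ori x y l.m ∧ 0 < ori x y l.p) ∨
  (ori x y l.b < 0 ∧ ori x y l.m < 0 ∧ ori x y l.p < 0)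

/-- the three lines of `l` miss the ear of `l'` -/
def MissL (l l' : Leaf) : Prop := Miss l.z l.b l' ∧ Miss l.b l.m l' ∧ Miss l.b l.p l'

/-- the private points of a candidate -/
def IsPt (T : Finset (Sym2 Pt)) (c : Pt → ℕ) (d0 : ℕ) (l : Leaf) (x : Pt) : Prop :=
  x = l.b ∨ x = l.m ∨ x = l.p ∨ (x = l.z ∧ deg T c l.z < d0)

/-- conflict of two candidates -/
def Conf (T : Finset (Sym2 Pt)) (c : Pt → ℕ) (d0 : ℕ) (l l' : Leaf) : Prop :=
  (∃ x, IsPt T c d0 l x ∧ IsPt T c d0 l' x) ∨ ¬ MissL l l' ∨ ¬ MissL l' l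

end F059
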