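import Pool.Agent.Lib.F059.CDefs
import Pool.Agent.Lib.F059.NoCross

/-!
# F059C.HullPl: the hull edges are plane; hull edges are unique; lines meet few hull edges and ears

`HEs_plane`: same class: in `Cr p q p' q'` ori p q p' * ori p q q' < 0 but all points of the class are weakly on the left of p → q.
Different classes: `Cr.exists_mem`: a common point of the segments is in both hulls.
`HE.unique_right`: HE p q, HE p q' → q = q': otherwise 0 < ori p q q' and 0 < ori p q' q = - ori p q q'.  `HE.unique_left`: similarly.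
`two_up`: f(x) = ori x0 y0 x an (affine) function with f(p), f(p') ≤ 0 < f(q), f(q'), HE p q, HE p' q', same class: then p = p' (and q = q').  Otherwise p ≠ p', and q ≠ q' by uniqueness
(also p ≠ q', q ≠ p' by the signs), so 0 < ori p q p', 0 < ori p q q', 0 < ori p' q' p, 0 < ori p' q' q; this gives `Cr p p' q q'`
(ori p p' q = - ori p q p' < 0, ori p p' q' = ori p' q' p > 0, ori q q' p = ori p q q' > 0, ori q q' p' = - ori p' q' q·(-1)... = -ori q' q p'... compute: ori q q' p' = ori p' q q' = - ori p' q' q < 0), and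
f ≤ 0 on the segment p p', f > 0 on q q': contradiction with a common point.
`hull_met`: the number of hull edges p → q of class i (pairs) with f(p) f(q) ≤ 0 (met by the line) is at most 5: types f(p) ≤ 0 < f(q); f(q) ≤ 0 < f(p); f(p) < 0 ≤ f(q); f(q) < 0 ≤ f(p):
at most one each (two_up for ±f and the mirrored versions), and f(p) = f(q) = 0: p, q are on the line x0 y0, which contains at most 2 points of P, so {p,q} is determined: at most 2 ordered pairs.
So at most 6 pairs.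
`ears_met`: if the ear of b (m → b, b → p hull edges) is not missed by the line, then one of the hull edges m → b, b → p is met: otherwise f(m) f(b) > 0 and f(b) f(p) > 0, so all three have the same sign.
Each pair (hull edge) gives at most 2 such b (its ends): at most 12 points b per class; sum over the classes i ∈ P.image c.
-/

namespace F059

namespace HullPlAux

lemma HE.nonneg {P : Finset Pt} {c : Pt → ℕ} {p q x : Pt} (h : HE P c p q) (hx : x ∈ P)
    (hc : c x = c p) : 0 ≤ ori p q x := by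
  by_cases h1 : x = p
  · rw [h1]
    apply le_of_eq
    unfold ori
    ring
  by_cases h2 : x = q
  · rw [h2]
    apply le_of_eq
    unfold ori
    ring
  exact (h.2.2.2.2 x hx hc h1 h2).le

lemma mem_hull {P : Finset Pt} {c : Pt → ℕ} {p q z : Pt} {i : ℕ} (hp : p ∈ P) (hq : q ∈ P)
    (hcp : c p = i) (hcq : c q = i) (hz : z ∈ openSegment ℝ p q) :
    z ∈ convexHull ℝ (cls P c i : Set Pt) := by
  have h1 : p ∈ convexHull ℝ (cls P c i : Set Pt) :=
    subset_convexHull ℝ _ (by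
      unfold cls
      simp [hp, hcp])
  have h2 : q ∈ convexHull ℝ (cls P c i : Set Pt) :=
    subset_convexHull ℝ _ (by
      unfold cls
      simp [hq, hcq])
  exact (convex_convexHull ℝ _).segment_subset h1 h2 (openSegment_subset_segment ℝ p q hz)

end HullPlAux

open HullPlAux

theorem HEs_plane {P : Finset Pt} {c : Pt → ℕ} (S : ClsSys P c) : Plane (HEs P c) := by
  classical
  intro e he f hf hcr
  unfold HEs at he hf
  obtain ⟨_, p, q, rfl, h⟩ := Finset.mem_filter.1 he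
  obtain ⟨_, p', q', rfl, h'⟩ := Finset.mem_filter.1 hf
  rw [SCr_mk] at hcr
  by_cases hc : c p = c p'
  · have h1 : 0 ≤ ori p q p' := HE.nonneg h h'.1 hc.symm
    have h2 : 0 ≤ ori p q q' := HE.nonneg h h'.2.1 (h'.2.2.2.1.symm.trans hc.symm)
    have := hcr.1
    nlinarith [mul_nonneg h1 h2]
  · obtain ⟨z, hz1, hz2⟩ := hcr.exists_mem
    exact Set.disjoint_left.1 (S.disj _ _ hc)
      (mem_hull h.1 h.2.1 rfl h.2.2.2.1.symm hz1)
      (mem_hull h'.1 h'.2.1 rfl h'.2.2.2.1.symm hz2)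

theorem HEs_sub (P : Finset Pt) (c : Pt → ℕ) : HEs P c ⊆ Seg P := by
  classical
  unfold HEs
  exact Finset.filter_subset _ _

theorem HE.unique_right {P : Finset Pt} {c : Pt → ℕ} {p q q' : Pt} (h : HE P c p q)
    (h' : HE P c p q') : q = q' := by
  by_contra hne
  have h1 := h.2.2.2.2 q' h'.2.1 h'.2.2.2.1.symm h'.2.2.1.symm (fun h => hne h.symm)
  have h2 := h'.2.2.2.2 q h.2.1 h.2.2.2.1.symm h.2.2.1.symm hne
  have h3 := ori_swap' p q q'
  linarith

theorem HE.unique_left {P : Finset Pt} {c : Pt → ℕ} {p p' q : Pt} (h : HE P c p q)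
    (h' : HE P c p' q) : p = p' := by
  by_contra hne
  have hc : c p' = c p := h'.2.2.2.1.trans h.2.2.2.1.symm
  have h1 := h.2.2.2.2 p' h'.1 hc (fun h => hne h.symm) h'.2.2.1
  have h2 := h'.2.2.2.2 p h.1 hc.symm hne h.2.2.1
  have h3 : ori p' q p = -ori p q p' := by
    unfold ori
    ring
  linarith

namespace HullPlAux

lemma core {P : Finset Pt} {c : Pt → ℕ} {p q p' q' : Pt} (h : HE P c p q) (h' : HE P c p' q')
    (hc : c p = c p') (h1 : p ≠ q') (h2 : q ≠ p')
    (hz : ∀ z, z ∈ openSegment ℝ p p' → z ∈ openSegment ℝ q q' → False) : p = p' ∧ q = q' := by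
  by_cases hp : p = p'
  · refine ⟨hp, ?_⟩
    rw [← hp] at h'
    exact h.unique_right h'
  by_cases hq : q = q'
  · refine ⟨?_, hq⟩
    rw [← hq] at h'
    exact h.unique_left h'
  exfalso
  have hcq : c q = c p := h.2.2.2.1.symm
  have hcq' : c q' = c p := h'.2.2.2.1.symm.trans hc.symm
  have i1 := h.2.2.2.2 p' h'.1 hc.symm (fun e => hp e.symm) (fun e => h2 e.symm)
  have i2 := h.2.2.2.2 q' h'.2.1 hcq' (fun e => h1 e.symm) (fun e => hq e.symm)
  have i3 := h'.2.2.2.2 p h.1 hc hp h1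
  have i4 := h'.2.2.2.2 q h.2.1 (hcq.trans hc) h2 hq
  have hcr : Cr p p' q q' := by
    have e1 : ori p p' q = -ori p q p' := ori_swap' p q p'
    have e2 : ori p p' q' = ori p' q' p := (ori_cyc p p' q').symm
    have e3 : ori q q' p = ori p q q' := ori_cyc p q q'
    have e4 : ori q q' p' = -ori p' q' q := by
      unfold ori
      ring
    refine ⟨?_, ?_⟩
    · rw [e1, e2]
      nlinarith [mul_pos i1 i3]
    · rw [e3, e4]
      nlinarith [mul_pos i2 i4]
  obtain ⟨z, hz1, hz2⟩ := hcr.exists_mem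
  exact hz z hz1 hz2

lemma seg_val {x y a b z : Pt} (hz : z ∈ openSegment ℝ a b) :
    ∃ s t : ℝ, 0 < s ∧ 0 < t ∧ ori x y z = s * ori x y a + t * ori x y b := by
  obtain ⟨s, t, hs, ht, hst, rfl⟩ := hz
  exact ⟨s, t, hs, ht, NoCrossAux.ori_comb x y a b s t hst⟩

lemma sep {x y p p' q q' : Pt}
    (h : (ori x y p ≤ 0 ∧ ori x y p' ≤ 0 ∧ 0 < ori x y q ∧ 0 < ori x y q') ∨
      (ori x y p < 0 ∧ ori x y p' < 0 ∧ 0 ≤ ori x y q ∧ 0 ≤ ori x y q') ∨
      (0 < ori x y p ∧ 0 < ori x y p' ∧ ori x y q ≤ 0 ∧ ori x y q' ≤ 0) ∨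
      (0 ≤ ori x y p ∧ 0 ≤ ori x y p' ∧ ori x y q < 0 ∧ ori x y q' < 0)) :
    p ≠ q' ∧ q ≠ p' ∧ ∀ z, z ∈ openSegment ℝ p p' → z ∈ openSegment ℝ q q' → False := by
  refine ⟨?_, ?_, ?_⟩
  · rintro rfl
    rcases h with h | h | h | h <;> linarith [h.1, h.2.1, h.2.2.1, h.2.2.2]
  · rintro rfl
    rcases h with h | h | h | h <;> linarith [h.1, h.2.1, h.2.2.1, h.2.2.2]
  · intro z hz1 hz2
    obtain ⟨s, t, hs, ht, e1⟩ := seg_val (x := x) (y := y) hz1
    obtain ⟨u, v, hu, hv, e2⟩ := seg_val (x := x) (y := y) hz2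
    rcases h with ⟨a, b, c, d⟩ | ⟨a, b, c, d⟩ | ⟨a, b, c, d⟩ | ⟨a, b, c, d⟩
    · have := mul_nonpos_of_nonneg_of_nonpos hs.le a
      have := mul_nonpos_of_nonneg_of_nonpos ht.le b
      have := mul_pos hu c
      have := mul_pos hv d
      linarith
    · have := mul_neg_of_pos_of_neg hs a
      have := mul_neg_of_pos_of_neg ht b
      have := mul_nonneg hu.le c
      have := mul_nonneg hv.le d
      linarith
    · have := mul_pos hs a
      have := mul_pos ht b
      have := mul_nonpos_of_nonneg_of_nonpos hu.le c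
      have := mul_nonpos_of_nonneg_of_nonpos hv.le d
      linarith
    · have := mul_nonneg hs.le a
      have := mul_nonneg ht.le b
      have := mul_neg_of_pos_of_neg hu c
      have := mul_neg_of_pos_of_neg hv d
      linarith

open Classical in
lemma type_card {P : Finset Pt} {c : Pt → ℕ} {x y : Pt} (i : ℕ) (R : ℝ → ℝ → Prop)
    (hR : ∀ p q p' q' : Pt, R (ori x y p) (ori x y q) → R (ori x y p') (ori x y q') →
      (ori x y p ≤ 0 ∧ ori x y p' ≤ 0 ∧ 0 < ori x y q ∧ 0 < ori x y q') ∨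
      (ori x y p < 0 ∧ ori x y p' < 0 ∧ 0 ≤ ori x y q ∧ 0 ≤ ori x y q') ∨
      (0 < ori x y p ∧ 0 < ori x y p' ∧ ori x y q ≤ 0 ∧ ori x y q' ≤ 0) ∨
      (0 ≤ ori x y p ∧ 0 ≤ ori x y p' ∧ ori x y q < 0 ∧ ori x y q' < 0)) :
    (((cls P c i) ×ˢ (cls P c i)).filter
      (fun pq => HE P c pq.1 pq.2 ∧ R (ori x y pq.1) (ori x y pq.2))).card ≤ 1 := by
  refine Finset.card_le_one.2 ?_
  rintro ⟨p, q⟩ h ⟨p', q'⟩ h'
  simp only [Finset.mem_filter, Finset.mem_product, cls] at h h'
  obtain ⟨h1, h2, h3⟩ := sep (hR p q p' q' h.2.2 h'.2.2)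
  obtain ⟨e1, e2⟩ := core h.2.1 h'.2.1 (h.1.1.2.trans h'.1.1.2.symm) h1 h2 h3
  rw [e1, e2]

end HullPlAux

open Classical in
theorem hull_met {P : Finset Pt} {c : Pt → ℕ} (hgp : GenPos P) {x y : Pt} (hx : x ∈ P)
    (hy : y ∈ P) (hxy : x ≠ y) (i : ℕ) :
    (((cls P c i) ×ˢ (cls P c i)).filter
      (fun pq => HE P c pq.1 pq.2 ∧ ori x y pq.1 * ori x y pq.2 ≤ 0)).card ≤ 6 := by
  set C := (cls P c i) ×ˢ (cls P c i) with hC
  have hA := type_card (P := P) (c := c) (x := x) (y := y) i (fun a b => a ≤ 0 ∧ 0 < b)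
    (fun p q p' q' h h' => Or.inl ⟨h.1, h'.1, h.2, h'.2⟩)
  have hB := type_card (P := P) (c := c) (x := x) (y := y) i (fun a b => 0 < a ∧ b ≤ 0)
    (fun p q p' q' h h' => Or.inr (Or.inr (Or.inl ⟨h.1, h'.1, h.2, h'.2⟩)))
  have hCc := type_card (P := P) (c := c) (x := x) (y := y) i (fun a b => a < 0 ∧ 0 ≤ b)
    (fun p q p' q' h h' => Or.inr (Or.inl ⟨h.1, h'.1, h.2, h'.2⟩))
  have hD := type_card (P := P) (c := c) (x := x) (y := y) i (fun a b => 0 ≤ a ∧ b < 0)
    (fun p q p' q' h h' => Or.inr (Or.inr (Or.inr ⟨h.1, h'.1, h.2, h'.2⟩)))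
  rw [← hC] at hA hB hCc hD
  have hA' : (C.filter (fun pq => HE P c pq.1 pq.2 ∧
    (ori x y pq.1 ≤ 0 ∧ 0 < ori x y pq.2))).card ≤ 1 := by convert hA
  have hB' : (C.filter (fun pq => HE P c pq.1 pq.2 ∧
    (0 < ori x y pq.1 ∧ ori x y pq.2 ≤ 0))).card ≤ 1 := by convert hB
  have hC' : (C.filter (fun pq => HE P c pq.1 pq.2 ∧
    (ori x y pq.1 < 0 ∧ 0 ≤ ori x y pq.2))).card ≤ 1 := by convert hCc
  have hD' : (C.filter (fun pq => HE P c pq.1 pq.2 ∧
    (0 ≤ ori x y pq.1 ∧ ori x y pq.2 < 0))).card ≤ 1 := by convert hD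
  have hsub : C.filter (fun pq => HE P c pq.1 pq.2 ∧ ori x y pq.1 * ori x y pq.2 ≤ 0) ⊆
      (C.filter (fun pq => HE P c pq.1 pq.2 ∧ (ori x y pq.1 ≤ 0 ∧ 0 < ori x y pq.2)) ∪
      C.filter (fun pq => HE P c pq.1 pq.2 ∧ (0 < ori x y pq.1 ∧ ori x y pq.2 ≤ 0))) ∪
      (C.filter (fun pq => HE P c pq.1 pq.2 ∧ (ori x y pq.1 < 0 ∧ 0 ≤ ori x y pq.2)) ∪
      C.filter (fun pq => HE P c pq.1 pq.2 ∧ (0 ≤ ori x y pq.1 ∧ ori x y pq.2 < 0))) ∪
      {(x, y), (y, x)} := by
    rintro ⟨p, q⟩ h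
    obtain ⟨h0, h1, h2⟩ := Finset.mem_filter.1 h
    simp only at h1 h2
    have hgp' : ∀ z ∈ P, ori x y z = 0 → z = x ∨ z = y := by
      intro z hz h0
      by_contra hc
      push Not at hc
      exact hgp x hx y hy z hz hxy (fun e => hc.1 e.symm) (fun e => hc.2 e.symm) h0
    simp only [Finset.mem_union, Finset.mem_filter, h0, h1, true_and, Finset.mem_insert,
      Finset.mem_singleton, Prod.mk.injEq]
    by_cases hq : 0 < ori x y q
    · left; left; left
      refine ⟨?_, hq⟩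
      by_contra hc
      push Not at hc
      nlinarith [mul_pos hc hq]
    · push Not at hq
      by_cases hp : 0 < ori x y p
      · left; left; right
        exact ⟨hp, hq⟩
      · push Not at hp
        rcases hp.lt_or_eq with hp' | hp'
        · rcases hq.lt_or_eq with hq' | hq'
          · nlinarith [mul_pos_of_neg_of_neg hp' hq']
          · left; right; left
            exact ⟨hp', hq'.ge⟩
        · rcases hq.lt_or_eq with hq' | hq'
          · left; right; right
            exact ⟨hp'.ge, hq'⟩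
          · right
            have hne := h1.2.2.1
            rcases hgp' p h1.1 hp' with e1 | e1 <;> rcases hgp' q h1.2.1 hq' with e2 | e2
            · exact absurd (e1.trans e2.symm) hne
            · left
              exact ⟨e1, e2⟩
            · right
              exact ⟨e1, e2⟩
            · exact absurd (e1.trans e2.symm) hne
  refine (Finset.card_le_card hsub).trans ?_
  have h2 : ({(x, y), (y, x)} : Finset (Pt × Pt)).card ≤ 2 := Finset.card_le_two
  have u1 := Finset.card_union_le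
    ((C.filter (fun pq => HE P c pq.1 pq.2 ∧ (ori x y pq.1 ≤ 0 ∧ 0 < ori x y pq.2)) ∪
      C.filter (fun pq => HE P c pq.1 pq.2 ∧ (0 < ori x y pq.1 ∧ ori x y pq.2 ≤ 0))) ∪
      (C.filter (fun pq => HE P c pq.1 pq.2 ∧ (ori x y pq.1 < 0 ∧ 0 ≤ ori x y pq.2)) ∪
      C.filter (fun pq => HE P c pq.1 pq.2 ∧ (0 ≤ ori x y pq.1 ∧ ori x y pq.2 < 0))))
      {(x, y), (y, x)}
  have u2 := Finset.card_union_le
    (C.filter (fun pq => HE P c pq.1 pq.2 ∧ (ori x y pq.1 ≤ 0 ∧ 0 < ori x y pq.2)) ∪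
      C.filter (fun pq => HE P c pq.1 pq.2 ∧ (0 < ori x y pq.1 ∧ ori x y pq.2 ≤ 0)))
      (C.filter (fun pq => HE P c pq.1 pq.2 ∧ (ori x y pq.1 < 0 ∧ 0 ≤ ori x y pq.2)) ∪
      C.filter (fun pq => HE P c pq.1 pq.2 ∧ (0 ≤ ori x y pq.1 ∧ ori x y pq.2 < 0)))
  have u3 := Finset.card_union_le
    (C.filter (fun pq => HE P c pq.1 pq.2 ∧ (ori x y pq.1 ≤ 0 ∧ 0 < ori x y pq.2)))
      (C.filter (fun pq => HE P c pq.1 pq.2 ∧ (0 < ori x y pq.1 ∧ ori x y pq.2 ≤ 0)))
  have u4 := Finset.card_union_le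
    (C.filter (fun pq => HE P c pq.1 pq.2 ∧ (ori x y pq.1 < 0 ∧ 0 ≤ ori x y pq.2)))
      (C.filter (fun pq => HE P c pq.1 pq.2 ∧ (0 ≤ ori x y pq.1 ∧ ori x y pq.2 < 0)))
  omega

open Classical in
/-- at most `12 R` points have an ear which is met by the line `x y` -/
theorem ears_met {P : Finset Pt} {c : Pt → ℕ} (hgp : GenPos P) {x y : Pt} (hx : x ∈ P)
    (hy : y ∈ P) (hxy : x ≠ y) :
    (P.filter (fun b => ∃ l : Leaf, l.b = b ∧ HE P c l.m l.b ∧ HE P c l.b l.p ∧
      ¬ Miss x y l)).card ≤ 12 * (P.image c).card := by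
  set Sf : ℕ → Finset (Pt × Pt) := fun i => ((cls P c i) ×ˢ (cls P c i)).filter
      (fun pq => HE P c pq.1 pq.2 ∧ ori x y pq.1 * ori x y pq.2 ≤ 0) with hSf
  have hsub : P.filter (fun b => ∃ l : Leaf, l.b = b ∧ HE P c l.m l.b ∧ HE P c l.b l.p ∧
      ¬ Miss x y l) ⊆ (P.image c).biUnion (fun i => (Sf i).image Prod.fst ∪ (Sf i).image Prod.snd) := by
    intro b hb
    obtain ⟨hbP, l, hlb, h1, h2, h3⟩ := Finset.mem_filter.1 hb
    subst hlb
    rw [Finset.mem_biUnion]
    refine ⟨c l.b, Finset.mem_image_of_mem c hbP, ?_⟩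
    rw [Finset.mem_union]
    by_cases k1 : ori x y l.m * ori x y l.b ≤ 0
    · right
      refine Finset.mem_image.2 ⟨(l.m, l.b), ?_, rfl⟩
      rw [hSf]
      refine Finset.mem_filter.2 ⟨?_, h1, k1⟩
      rw [Finset.mem_product]
      unfold cls
      exact ⟨Finset.mem_filter.2 ⟨h1.1, h1.2.2.2.1⟩, Finset.mem_filter.2 ⟨hbP, rfl⟩⟩
    by_cases k2 : ori x y l.b * ori x y l.p ≤ 0
    · left
      refine Finset.mem_image.2 ⟨(l.b, l.p), ?_, rfl⟩
      rw [hSf]
      refine Finset.mem_filter.2 ⟨?_, h2, k2⟩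
      rw [Finset.mem_product]
      unfold cls
      exact ⟨Finset.mem_filter.2 ⟨hbP, rfl⟩, Finset.mem_filter.2 ⟨h2.2.1, h2.2.2.2.1.symm⟩⟩
    exfalso
    push Not at k1 k2
    apply h3
    unfold Miss
    rcases lt_trichotomy (ori x y l.b) 0 with hb0 | hb0 | hb0
    · right
      refine ⟨hb0, ?_, ?_⟩
      · by_contra hc
        push Not at hc
        nlinarith [mul_nonpos_of_nonneg_of_nonpos hc hb0.le]
      · by_contra hc
        push Not at hc
        nlinarith [mul_nonpos_of_nonpos_of_nonneg hb0.le hc]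
    · rw [hb0] at k1
      simp at k1
    · left
      refine ⟨hb0, ?_, ?_⟩
      · by_contra hc
        push Not at hc
        nlinarith [mul_nonpos_of_nonpos_of_nonneg hc hb0.le]
      · by_contra hc
        push Not at hc
        nlinarith [mul_nonpos_of_nonneg_of_nonpos hb0.le hc]
  refine (Finset.card_le_card hsub).trans (Finset.card_biUnion_le.trans ?_)
  rw [mul_comm, ← smul_eq_mul]
  refine Finset.sum_le_card_nsmul _ _ _ ?_
  intro i _
  have h6 : (Sf i).card ≤ 6 := hull_met hgp hx hy hxy i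
  have u := Finset.card_union_le ((Sf i).image Prod.fst) ((Sf i).image Prod.snd)
  have v1 : ((Sf i).image Prod.fst).card ≤ (Sf i).card := Finset.card_image_le
  have v2 : ((Sf i).image Prod.snd).card ≤ (Sf i).card := Finset.card_image_le
  omega

end F059
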