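import Pool.Agent.Lib.F059.CDefs
import Pool.Agent.Lib.F059.HullPl

/-!
# F059C.CandSys: conflict-free candidates form a star system; conflict degree

`starSys_of_free`.  mem: edge ∈ T ⊆ Seg P, Good (HE).  good: Good.  zne: e.z ≠ e'.b, e'.m, e'.p: if e = e': c e.z ≠ c e.b = c e.m = c e.p (HE).  If e ≠ e' and deg e.z < d0: e.z is a private point of e, so by no conflict it is not
a private point of e'.  If D0 ≤ deg e.z: deg e'.b < d0 ≤ D0, deg e'.m, deg e'.p < D0.  ear: private points.  clean: MissL.  nc: T plane.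

Counting, for a set U of candidates with at most one leaf structure per edge (hinj):
`leaf_count`: the candidates with l.b = b inject into the outer edges at b (l ↦ s(l.z,l.b)); if there is one, deg b < d0.  `z_count`: similarly for l.z = x with deg x < d0.
`pt_count`: for x ∈ P: number of l ∈ U with IsPt l x ≤ 4 d0: l.b = x; l.m = x: then l.b is the hull successor of x (HE x l.b, unique_right); l.p = x: l.b is the predecessor; l.z = x small.
`line_count`: number of l ∈ U with ¬ Miss x y l ≤ 12 R d0: the leaves l.b are among ≤ 12 R points (`ears_met`), each with ≤ d0 candidates.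
`missL_count`: number of l' ∈ U with ¬ MissL l l' ≤ 36 R d0 (three lines).
`popular_count`: U' = {l ∈ U : #{l' ∈ U : ¬ MissL l' l} ≤ K 36 R d0}: K |U \ U'| ≤ |U| (double counting: Σ_l #{l' : ¬ MissL l' l} = Σ_l' #{l : ¬ MissL l' l} ≤ |U| 36 R d0), if R d0 > 0.
`conf_count`: for l ∈ U': #{l' ∈ U' : Conf l l'} ≤ 16 d0 + 36 R d0 + K 36 R d0 ≤ (52 + 36 K) R d0 (1 ≤ R).
-/

namespace F059

lemma IsCand.mem {P : Finset Pt} {c : Pt → ℕ} {T : Finset (Sym2 Pt)} (S : TriSys P c T)
    {d0 D0 : ℕ} {l : Leaf} (h : IsCand P c T d0 D0 l) :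
    l.z ∈ P ∧ l.b ∈ P ∧ l.m ∈ P ∧ l.p ∈ P := by
  have h1 := mem_Seg.1 (S.sub h.edge)
  exact ⟨h1.1, h1.2.1, h.good.1.1, h.good.2.1.2.1⟩

theorem starSys_of_free {P : Finset Pt} {c : Pt → ℕ} {T : Finset (Sym2 Pt)} (S : TriSys P c T)
    {d0 D0 : ℕ} (hd : d0 ≤ D0) {E : Finset Leaf} (hE : ∀ l ∈ E, IsCand P c T d0 D0 l)
    (hfree : ∀ l ∈ E, ∀ l' ∈ E, l ≠ l' → ¬ Conf T c d0 l l') : StarSys P E where
  mem e he := (hE e he).mem S
  good e he := (hE e he).good.2.2
  zne := by
    intro e he e' he'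
    have C := hE e he
    have C' := hE e' he'
    have cm : c e'.m = c e'.b := C'.good.1.2.2.2.1
    have cp : c e'.b = c e'.p := C'.good.2.1.2.2.2.1
    by_cases hee : e = e'
    · subst hee
      refine ⟨?_, ?_, ?_⟩
      · intro h; exact C.out (by rw [← h])
      · intro h; apply C.out; rw [← cm, ← h]
      · intro h; apply C.out; rw [cp, ← h]
    · have hnc := hfree e he e' he' hee
      unfold Conf at hnc
      push Not at hnc
      rcases C.zend with hz | hz
      · have hp : IsPt T c d0 e e.z := Or.inr (Or.inr (Or.inr ⟨rfl, hz⟩))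
        refine ⟨?_, ?_, ?_⟩
        · intro h; exact hnc.1 e.z hp (Or.inl h)
        · intro h; exact hnc.1 e.z hp (Or.inr (Or.inl h))
        · intro h; exact hnc.1 e.z hp (Or.inr (Or.inr (Or.inl h)))
      · refine ⟨?_, ?_, ?_⟩
        · intro h; have := C'.bsmall; rw [← h] at this; omega
        · intro h; have := C'.mhub; rw [← h] at this; omega
        · intro h; have := C'.phub; rw [← h] at this; omega
  ear := by
    intro e he e' he' hee x hx
    have hnc := hfree e he e' he' hee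
    unfold Conf at hnc
    push Not at hnc
    have hp : IsPt T c d0 e x := by
      unfold IsPt; tauto
    refine ⟨?_, ?_, ?_⟩
    · intro h; exact hnc.1 x hp (Or.inl h)
    · intro h; exact hnc.1 x hp (Or.inr (Or.inl h))
    · intro h; exact hnc.1 x hp (Or.inr (Or.inr (Or.inl h)))
  clean := by
    intro e he e' he' hee x y hxy
    have hnc := hfree e he e' he' hee
    unfold Conf at hnc
    push Not at hnc
    obtain ⟨m1, m2, m3⟩ := hnc.2.1
    rcases hxy with ⟨rfl, rfl⟩ | ⟨rfl, rfl⟩ | ⟨rfl, rfl⟩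
    · exact m1
    · exact m2
    · exact m3
  nc := by
    intro e he e' he' h
    exact S.plane _ (hE e he).edge _ (hE e' he').edge (SCr_mk.2 h)

theorem Conf.symm {T : Finset (Sym2 Pt)} {c : Pt → ℕ} {d0 : ℕ} {l l' : Leaf}
    (h : Conf T c d0 l l') : Conf T c d0 l' l := by
  rcases h with ⟨x, h1, h2⟩ | h | h
  · exact Or.inl ⟨x, h2, h1⟩
  · exact Or.inr (Or.inr h)
  · exact Or.inr (Or.inl h)

/-- one leaf structure for every edge which admits one -/
theorem exists_cands {P : Finset Pt} {c : Pt → ℕ} {T : Finset (Sym2 Pt)} (d0 D0 : ℕ) :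
    ∃ U : Finset Leaf, (∀ l ∈ U, IsCand P c T d0 D0 l) ∧
      (∀ l ∈ U, ∀ l' ∈ U, s(l.z, l.b) = s(l'.z, l'.b) → l = l') ∧ U.card ≤ T.card ∧
      ∀ l, IsCand P c T d0 D0 l → ∃ l' ∈ U, s(l'.z, l'.b) = s(l.z, l.b) := by
  classical
  have hch : ∀ e : Sym2 Pt, ∃ l : Leaf, (∃ l : Leaf, IsCand P c T d0 D0 l ∧ s(l.z, l.b) = e) →
      (IsCand P c T d0 D0 l ∧ s(l.z, l.b) = e) := by
    intro e
    by_cases h : ∃ l : Leaf, IsCand P c T d0 D0 l ∧ s(l.z, l.b) = e
    · obtain ⟨l, hl⟩ := h
      exact ⟨l, fun _ => hl⟩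
    · exact ⟨⟨(0, 0), (0, 0), (0, 0), (0, 0)⟩, fun h' => absurd h' h⟩
  choose F hF using hch
  set T' := T.filter (fun e => ∃ l : Leaf, IsCand P c T d0 D0 l ∧ s(l.z, l.b) = e) with hT'
  refine ⟨T'.image F, ?_, ?_, ?_, ?_⟩
  · intro l hl
    obtain ⟨e, he, rfl⟩ := Finset.mem_image.1 hl
    exact (hF e (Finset.mem_filter.1 he).2).1
  · intro l hl l' hl' hll
    obtain ⟨e, he, rfl⟩ := Finset.mem_image.1 hl
    obtain ⟨e', he', rfl⟩ := Finset.mem_image.1 hl'
    rw [(hF e (Finset.mem_filter.1 he).2).2, (hF e' (Finset.mem_filter.1 he').2).2] at hll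
    rw [hll]
  · exact le_trans Finset.card_image_le (Finset.card_filter_le _ _)
  · intro l hl
    have he : s(l.z, l.b) ∈ T' := Finset.mem_filter.2 ⟨hl.edge, l, hl, rfl⟩
    exact ⟨F s(l.z, l.b), Finset.mem_image_of_mem _ he, (hF _ ⟨l, hl, rfl⟩).2⟩

lemma mem_edgesAt_outer {T : Finset (Sym2 Pt)} {c : Pt → ℕ} {z b x : Pt} (h : s(z, b) ∈ T)
    (hc : c z ≠ c b) (hx : x = z ∨ x = b) : s(z, b) ∈ edgesAt (outer T c) x := by
  classical
  unfold edgesAt outer
  rw [Finset.mem_filter, Finset.mem_filter]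
  refine ⟨⟨h, z, b, rfl, hc⟩, ?_⟩
  rw [Sym2.mem_iff]
  exact hx

open Classical in
/-- candidates with a given leaf -/
theorem leaf_count {P : Finset Pt} {c : Pt → ℕ} {T : Finset (Sym2 Pt)}
    {d0 D0 : ℕ} {U : Finset Leaf} (hU : ∀ l ∈ U, IsCand P c T d0 D0 l)
    (hinj : ∀ l ∈ U, ∀ l' ∈ U, s(l.z, l.b) = s(l'.z, l'.b) → l = l') (b : Pt) :
    (U.filter (fun l => l.b = b)).card ≤ d0 := by
  rcases (U.filter (fun l => l.b = b)).eq_empty_or_nonempty with h | ⟨l0, hl0⟩
  · rw [h]; simp
  · have hl0' := Finset.mem_filter.1 hl0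
    have hdeg : deg T c b < d0 := by
      have := (hU l0 hl0'.1).bsmall
      rwa [hl0'.2] at this
    refine le_trans ?_ hdeg.le
    unfold deg
    apply Finset.card_le_card_of_injOn (fun l => s(l.z, l.b))
    · intro l hl
      have hl' := Finset.mem_filter.1 (Finset.mem_coe.1 hl)
      have C := hU l hl'.1
      exact mem_edgesAt_outer C.edge C.out (Or.inr hl'.2.symm)
    · intro l hl l' hl' hll
      exact hinj l (Finset.mem_filter.1 (Finset.mem_coe.1 hl)).1 l'
        (Finset.mem_filter.1 (Finset.mem_coe.1 hl')).1 hll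

open Classical in
/-- candidates with a given small centre -/
theorem z_count {P : Finset Pt} {c : Pt → ℕ} {T : Finset (Sym2 Pt)}
    {d0 D0 : ℕ} {U : Finset Leaf} (hU : ∀ l ∈ U, IsCand P c T d0 D0 l)
    (hinj : ∀ l ∈ U, ∀ l' ∈ U, s(l.z, l.b) = s(l'.z, l'.b) → l = l') (x : Pt) :
    (U.filter (fun l => x = l.z ∧ deg T c l.z < d0)).card ≤ d0 := by
  rcases (U.filter (fun l => x = l.z ∧ deg T c l.z < d0)).eq_empty_or_nonempty with h | ⟨l0, hl0⟩
  · rw [h]; simp
  · have hl0' := Finset.mem_filter.1 hl0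
    have hdeg : deg T c x < d0 := by
      rw [hl0'.2.1]; exact hl0'.2.2
    refine le_trans ?_ hdeg.le
    unfold deg
    apply Finset.card_le_card_of_injOn (fun l => s(l.z, l.b))
    · intro l hl
      have hl' := Finset.mem_filter.1 (Finset.mem_coe.1 hl)
      have C := hU l hl'.1
      exact mem_edgesAt_outer C.edge C.out (Or.inl hl'.2.1)
    · intro l hl l' hl' hll
      exact hinj l (Finset.mem_filter.1 (Finset.mem_coe.1 hl)).1 l'
        (Finset.mem_filter.1 (Finset.mem_coe.1 hl')).1 hll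

open Classical in
/-- candidates with a given private point -/
theorem pt_count {P : Finset Pt} {c : Pt → ℕ} {T : Finset (Sym2 Pt)}
    {d0 D0 : ℕ} {U : Finset Leaf} (hU : ∀ l ∈ U, IsCand P c T d0 D0 l)
    (hinj : ∀ l ∈ U, ∀ l' ∈ U, s(l.z, l.b) = s(l'.z, l'.b) → l = l') (x : Pt) :
    (U.filter (fun l => IsPt T c d0 l x)).card ≤ 4 * d0 := by
  have hm : (U.filter (fun l => x = l.m)).card ≤ d0 := by
    rcases (U.filter (fun l => x = l.m)).eq_empty_or_nonempty with h | ⟨l0, hl0⟩
    · rw [h]; simp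
    · have hl0' := Finset.mem_filter.1 hl0
      refine le_trans (Finset.card_le_card ?_) (leaf_count hU hinj l0.b)
      intro l hl
      have hl' := Finset.mem_filter.1 hl
      refine Finset.mem_filter.2 ⟨hl'.1, ?_⟩
      have a1 := (hU l hl'.1).good.1
      have a2 := (hU l0 hl0'.1).good.1
      rw [← hl'.2] at a1
      rw [← hl0'.2] at a2
      exact HE.unique_right a1 a2
  have hp : (U.filter (fun l => x = l.p)).card ≤ d0 := by
    rcases (U.filter (fun l => x = l.p)).eq_empty_or_nonempty with h | ⟨l0, hl0⟩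
    · rw [h]; simp
    · have hl0' := Finset.mem_filter.1 hl0
      refine le_trans (Finset.card_le_card ?_) (leaf_count hU hinj l0.b)
      intro l hl
      have hl' := Finset.mem_filter.1 hl
      refine Finset.mem_filter.2 ⟨hl'.1, ?_⟩
      have a1 := (hU l hl'.1).good.2.1
      have a2 := (hU l0 hl0'.1).good.2.1
      rw [← hl'.2] at a1
      rw [← hl0'.2] at a2
      exact HE.unique_left a1 a2
  have hb := leaf_count hU hinj x
  have hz := z_count hU hinj x
  have hsub : U.filter (fun l => IsPt T c d0 l x) ⊆ U.filter (fun l => l.b = x) ∪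
      (U.filter (fun l => x = l.m) ∪ (U.filter (fun l => x = l.p) ∪
        U.filter (fun l => x = l.z ∧ deg T c l.z < d0))) := by
    intro l hl
    have hl' := Finset.mem_filter.1 hl
    simp only [Finset.mem_union, Finset.mem_filter]
    rcases hl'.2 with h | h | h | h
    · exact Or.inl ⟨hl'.1, h.symm⟩
    · exact Or.inr (Or.inl ⟨hl'.1, h⟩)
    · exact Or.inr (Or.inr (Or.inl ⟨hl'.1, h⟩))
    · exact Or.inr (Or.inr (Or.inr ⟨hl'.1, h⟩))
  have k1 := Finset.card_le_card hsub
  have k2 := Finset.card_union_le (U.filter (fun l => l.b = x)) (U.filter (fun l => x = l.m) ∪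
    (U.filter (fun l => x = l.p) ∪ U.filter (fun l => x = l.z ∧ deg T c l.z < d0)))
  have k3 := Finset.card_union_le (U.filter (fun l => x = l.m))
    (U.filter (fun l => x = l.p) ∪ U.filter (fun l => x = l.z ∧ deg T c l.z < d0))
  have k4 := Finset.card_union_le (U.filter (fun l => x = l.p))
    (U.filter (fun l => x = l.z ∧ deg T c l.z < d0))
  omega

open Classical in
/-- candidates whose ear is met by a line -/
theorem line_count {P : Finset Pt} {c : Pt → ℕ} {T : Finset (Sym2 Pt)} (S : TriSys P c T)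
    {d0 D0 : ℕ} {U : Finset Leaf} (hU : ∀ l ∈ U, IsCand P c T d0 D0 l)
    (hinj : ∀ l ∈ U, ∀ l' ∈ U, s(l.z, l.b) = s(l'.z, l'.b) → l = l') {R : ℕ}
    (hR : (P.image c).card ≤ R) {x y : Pt} (hx : x ∈ P) (hy : y ∈ P) (hxy : x ≠ y) :
    (U.filter (fun l => ¬ Miss x y l)).card ≤ 12 * R * d0 := by
  set B := P.filter (fun b => ∃ l : Leaf, l.b = b ∧ HE P c l.m l.b ∧ HE P c l.b l.p ∧
      ¬ Miss x y l) with hB
  have hBc : B.card ≤ 12 * R := by
    have h1 := ears_met (c := c) S.cs.gp hx hy hxy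
    have h2 : 12 * (P.image c).card ≤ 12 * R := Nat.mul_le_mul_left _ hR
    refine le_trans ?_ (le_trans h1 h2)
    apply le_of_eq
    rw [hB]
  have hmaps : ∀ l ∈ U.filter (fun l => ¬ Miss x y l), l.b ∈ B := by
    intro l hl
    have hl' := Finset.mem_filter.1 hl
    have C := hU l hl'.1
    rw [hB, Finset.mem_filter]
    exact ⟨(C.mem S).2.1, l, rfl, C.good.1, C.good.2.1, hl'.2⟩
  have hfib : ∀ b ∈ B, ((U.filter (fun l => ¬ Miss x y l)).filter (fun l => l.b = b)).card ≤ d0 := by
    intro b _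
    refine le_trans (Finset.card_le_card ?_) (leaf_count hU hinj b)
    intro l hl
    have hl' := Finset.mem_filter.1 hl
    exact Finset.mem_filter.2 ⟨(Finset.mem_filter.1 hl'.1).1, hl'.2⟩
  have hc := Finset.card_le_mul_card_image_of_maps_to hmaps d0 hfib
  calc _ ≤ d0 * B.card := hc
    _ ≤ d0 * (12 * R) := Nat.mul_le_mul_left _ hBc
    _ = 12 * R * d0 := by ring

open Classical in
/-- candidates whose ear is met by one of the three lines of `l` -/
theorem missL_count {P : Finset Pt} {c : Pt → ℕ} {T : Finset (Sym2 Pt)} (S : TriSys P c T)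
    {d0 D0 : ℕ} {U : Finset Leaf} (hU : ∀ l ∈ U, IsCand P c T d0 D0 l)
    (hinj : ∀ l ∈ U, ∀ l' ∈ U, s(l.z, l.b) = s(l'.z, l'.b) → l = l') {R : ℕ}
    (hR : (P.image c).card ≤ R) {l : Leaf} (hl : IsCand P c T d0 D0 l) :
    (U.filter (fun l' => ¬ MissL l l')).card ≤ 36 * R * d0 := by
  obtain ⟨hz, hb, hm, hp⟩ := hl.mem S
  have nzb : l.z ≠ l.b := fun h => hl.out (by rw [h])
  have nbm : l.b ≠ l.m := fun h => hl.good.1.2.2.1 h.symm
  have nbp : l.b ≠ l.p := hl.good.2.1.2.2.1
  have c1 := line_count S hU hinj hR hz hb nzb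
  have c2 := line_count S hU hinj hR hb hm nbm
  have c3 := line_count S hU hinj hR hb hp nbp
  have hsub : U.filter (fun l' => ¬ MissL l l') ⊆ U.filter (fun l' => ¬ Miss l.z l.b l') ∪
      (U.filter (fun l' => ¬ Miss l.b l.m l') ∪ U.filter (fun l' => ¬ Miss l.b l.p l')) := by
    intro l' hl'
    have h := Finset.mem_filter.1 hl'
    simp only [Finset.mem_union, Finset.mem_filter]
    have h2 := h.2
    unfold MissL at h2
    tauto
  have k1 := Finset.card_le_card hsub
  have k2 := Finset.card_union_le (U.filter (fun l' => ¬ Miss l.z l.b l'))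
    (U.filter (fun l' => ¬ Miss l.b l.m l') ∪ U.filter (fun l' => ¬ Miss l.b l.p l'))
  have k3 := Finset.card_union_le (U.filter (fun l' => ¬ Miss l.b l.m l'))
    (U.filter (fun l' => ¬ Miss l.b l.p l'))
  have e : 36 * R * d0 = 12 * R * d0 + (12 * R * d0 + 12 * R * d0) := by ring
  omega

open Classical in
/-- the conflict degree after deleting the popular candidates -/
theorem conf_count {P : Finset Pt} {c : Pt → ℕ} {T : Finset (Sym2 Pt)} (S : TriSys P c T)
    {d0 D0 : ℕ} {U : Finset Leaf} (hU : ∀ l ∈ U, IsCand P c T d0 D0 l)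
    (hinj : ∀ l ∈ U, ∀ l' ∈ U, s(l.z, l.b) = s(l'.z, l'.b) → l = l') (K R : ℕ)
    (hR : (P.image c).card ≤ R) (hR1 : 1 ≤ R) :
    ∃ U' ⊆ U, K * (U \ U').card ≤ U.card ∧
      ∀ l ∈ U', (U'.filter (Conf T c d0 l)).card ≤ (52 + 36 * K) * R * d0 := by
  set M := 36 * R * d0 with hM
  set U' := U.filter (fun l => (U.filter (fun l' => ¬ MissL l' l)).card ≤ K * M) with hU'
  refine ⟨U', Finset.filter_subset _ _, ?_, ?_⟩
  · -- the popular candidates are few
    rcases Nat.eq_zero_or_pos d0 with h0 | h0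
    · have hemp : U = ∅ := by
        rw [Finset.eq_empty_iff_forall_notMem]
        intro l hl
        have := (hU l hl).bsmall
        omega
      rw [hU', hemp]; simp
    · have hMpos : 0 < M := by positivity
      have hdc : ∑ l ∈ U, (U.filter (fun l' => ¬ MissL l' l)).card =
          ∑ l' ∈ U, (U.filter (fun l => ¬ MissL l' l)).card :=
        Finset.sum_card_bipartiteAbove_eq_sum_card_bipartiteBelow (fun l l' => ¬ MissL l' l)
      have hub : ∑ l' ∈ U, (U.filter (fun l => ¬ MissL l' l)).card ≤ U.card * M := by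
        calc ∑ l' ∈ U, (U.filter (fun l => ¬ MissL l' l)).card ≤ ∑ l' ∈ U, M :=
              Finset.sum_le_sum fun l' hl' => missL_count S hU hinj hR (hU l' hl')
          _ = U.card * M := by rw [Finset.sum_const, smul_eq_mul]
      have hlb : (U \ U').card * (K * M) ≤ ∑ l ∈ U, (U.filter (fun l' => ¬ MissL l' l)).card := by
        calc (U \ U').card * (K * M) = ∑ l ∈ U \ U', K * M := by
              rw [Finset.sum_const, smul_eq_mul]
          _ ≤ ∑ l ∈ U \ U', (U.filter (fun l' => ¬ MissL l' l)).card := by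
              apply Finset.sum_le_sum
              intro l hl
              rw [Finset.mem_sdiff, hU', Finset.mem_filter, not_and] at hl
              exact (not_le.1 (hl.2 hl.1)).le
          _ ≤ ∑ l ∈ U, (U.filter (fun l' => ¬ MissL l' l)).card :=
              Finset.sum_le_sum_of_subset Finset.sdiff_subset
      have hfin : (K * (U \ U').card) * M ≤ U.card * M := by
        calc (K * (U \ U').card) * M = (U \ U').card * (K * M) := by ring
          _ ≤ _ := hlb
          _ = _ := hdc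
          _ ≤ _ := hub
      exact Nat.le_of_mul_le_mul_right hfin hMpos
  · intro l hl
    have hlU : l ∈ U := (Finset.mem_filter.1 hl).1
    have hpop : (U.filter (fun l' => ¬ MissL l' l)).card ≤ K * M := (Finset.mem_filter.1 hl).2
    have hml := missL_count S hU hinj hR (hU l hlU)
    have p1 := pt_count hU hinj l.b
    have p2 := pt_count hU hinj l.m
    have p3 := pt_count hU hinj l.p
    have p4 := pt_count hU hinj l.z
    have hsub : U'.filter (Conf T c d0 l) ⊆ U.filter (fun l' => IsPt T c d0 l' l.b) ∪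
        (U.filter (fun l' => IsPt T c d0 l' l.m) ∪ (U.filter (fun l' => IsPt T c d0 l' l.p) ∪
        (U.filter (fun l' => IsPt T c d0 l' l.z) ∪ (U.filter (fun l' => ¬ MissL l l') ∪
          U.filter (fun l' => ¬ MissL l' l))))) := by
      intro l' hl'
      have h := Finset.mem_filter.1 hl'
      have hl'U : l' ∈ U := (Finset.mem_filter.1 h.1).1
      simp only [Finset.mem_union, Finset.mem_filter]
      rcases h.2 with ⟨x, h1, h2⟩ | h2 | h2
      · rcases h1 with rfl | rfl | rfl | ⟨rfl, -⟩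
        · exact Or.inl ⟨hl'U, h2⟩
        · exact Or.inr (Or.inl ⟨hl'U, h2⟩)
        · exact Or.inr (Or.inr (Or.inl ⟨hl'U, h2⟩))
        · exact Or.inr (Or.inr (Or.inr (Or.inl ⟨hl'U, h2⟩)))
      · exact Or.inr (Or.inr (Or.inr (Or.inr (Or.inl ⟨hl'U, h2⟩))))
      · exact Or.inr (Or.inr (Or.inr (Or.inr (Or.inr ⟨hl'U, h2⟩))))
    have k1 := Finset.card_le_card hsub
    have k2 := Finset.card_union_le (U.filter (fun l' => IsPt T c d0 l' l.b))
        (U.filter (fun l' => IsPt T c d0 l' l.m) ∪ (U.filter (fun l' => IsPt T c d0 l' l.p) ∪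
        (U.filter (fun l' => IsPt T c d0 l' l.z) ∪ (U.filter (fun l' => ¬ MissL l l') ∪
          U.filter (fun l' => ¬ MissL l' l)))))
    have k3 := Finset.card_union_le (U.filter (fun l' => IsPt T c d0 l' l.m))
        (U.filter (fun l' => IsPt T c d0 l' l.p) ∪
        (U.filter (fun l' => IsPt T c d0 l' l.z) ∪ (U.filter (fun l' => ¬ MissL l l') ∪
          U.filter (fun l' => ¬ MissL l' l))))
    have k4 := Finset.card_union_le (U.filter (fun l' => IsPt T c d0 l' l.p))
        (U.filter (fun l' => IsPt T c d0 l' l.z) ∪ (U.filter (fun l' => ¬ MissL l l') ∪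
          U.filter (fun l' => ¬ MissL l' l)))
    have k5 := Finset.card_union_le (U.filter (fun l' => IsPt T c d0 l' l.z))
        (U.filter (fun l' => ¬ MissL l l') ∪ U.filter (fun l' => ¬ MissL l' l))
    have k6 := Finset.card_union_le (U.filter (fun l' => ¬ MissL l l'))
        (U.filter (fun l' => ¬ MissL l' l))
    have e1 : 16 * d0 ≤ 16 * (R * d0) := Nat.mul_le_mul_left _ (Nat.le_mul_of_pos_left _ hR1)
    have e2 : (52 + 36 * K) * R * d0 = 16 * (R * d0) + (M + K * M) := by rw [hM]; ring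
    rw [e2]
    omega

end F059
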