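import Pool.Agent.Lib.F059.DDefs

/-!
# F059D.Conv: seeing is transitive, cells are open and convex

`vis_trans`: u, v, w in the square, u sees v, v sees w (the segments are disjoint from X), X closed
with property (*) (`Tight`).  Then u sees w.
PROOF.  Suppose [u,w] meets X.  If u, v, w are collinear then [u,w] is contained in [u,v] ∪ [v,w]
(or: every point of [u,w] is in one of them): contradiction.  Otherwise let T = conv{u,v,w}
(compact, contained in the ball, which is convex) and let φ be the linear form with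
φ(u) = φ(w) < φ(v) (e.g. φ = ± ori u w (· ) minus its constant part: φ(d) = ±((w-u).1 d.2 - (w-u).2 d.1)),
ψ a second linear form, ψ(d) = (w-u).1 d.1 + (w-u).2 d.2 (so ψ > 0 on w-u).
T ∩ X is compact and not empty; take the points where φ is maximal (compact), and among these a point
y where ψ is maximal.  y is not on [u,v], not on [v,w]: with barycentric coordinates
y = α u + β v + γ w (α+β+γ=1, all >= 0) this says γ > 0 and α > 0 (y ∉ [u,v] gives γ ≠ 0, y ∉ [v,w]
gives α ≠ 0).  A small step from y in a direction d with φ(d) >= 0 stays in T: the coordinate β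
changes by t φ(d)/φ(v-u) >= 0 and α, γ stay positive.
`Tight` at y with φ: (1) q with φ(q-y) > 0, [y,q] ⊆ X: a small step in direction q-y is in T ∩ X and
has larger φ: contradiction.  (2) y in the open segment q q' ⊆ X with φ(q-q')=0, q ≠ q': small steps
from y in both directions ±(q-q') stay in T ∩ X, have the same φ, and one of them has larger ψ
(ψ(q-q') ≠ 0 as q-q' is a nonzero multiple of w-u): contradiction.

The other facts: `cell_isOpen`: [u,v] compact, disjoint from the closed set X, so a δ-neighbourhood of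
[u,v] is disjoint from X, and for v' near v the segment [u,v'] is in this neighbourhood.
`cell_convex`: v, v' in the cell of u: v, v' see each other (through u), so every x in [v,v'] is seen
from v, hence from u.
-/

namespace F059

namespace ConvAux

/-- combinations of three points of a convex set -/
lemma tri_mem {S : Set Pt} (hS : Convex ℝ S) {u v w : Pt} (hu : u ∈ S) (hv : v ∈ S) (hw : w ∈ S)
    {a b c : ℝ} (ha : 0 ≤ a) (hb : 0 ≤ b) (hc : 0 ≤ c) (h1 : a + b + c = 1) :
    a • u + b • v + c • w ∈ S := by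
  rcases eq_or_lt_of_le (add_nonneg ha hb) with h0 | h0
  · have ha0 : a = 0 := by linarith
    have hb0 : b = 0 := by linarith
    have hc1 : c = 1 := by linarith
    rw [ha0, hb0, hc1, zero_smul, zero_smul, one_smul, zero_add, zero_add]
    exact hw
  · have h2 : (a / (a + b)) • u + (b / (a + b)) • v ∈ S :=
      hS hu hv (by positivity) (by positivity) (by field_simp)
    have h3 := hS h2 hw h0.le hc h1
    rw [smul_add, smul_smul, smul_smul, mul_div_cancel₀ _ h0.ne', mul_div_cancel₀ _ h0.ne'] at h3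
    exact h3

/-- the barycentric coordinates -/
lemma bary (u v w y : Pt) :
    (ori u w v) • y = (ori w v y) • u + (ori u w y) • v + (ori v u y) • w := by
  unfold ori
  ext
  · simp only [Prod.smul_fst, Prod.fst_add, smul_eq_mul]; ring
  · simp only [Prod.smul_snd, Prod.snd_add, smul_eq_mul]; ring

lemma bary_sum (u v w y : Pt) : ori w v y + ori u w y + ori v u y = ori u w v := by
  unfold ori; ring

lemma bary_mem {S : Set Pt} (hS : Convex ℝ S) {u v w y : Pt} (hu : u ∈ S) (hv : v ∈ S)
    (hw : w ∈ S) (hD : 0 < ori u w v) (h1 : 0 ≤ ori w v y) (h2 : 0 ≤ ori u w y)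
    (h3 : 0 ≤ ori v u y) : y ∈ S := by
  have h4 := tri_mem hS hu hv hw (div_nonneg h1 hD.le) (div_nonneg h2 hD.le)
    (div_nonneg h3 hD.le) (by
      rw [← add_div, ← add_div, bary_sum, div_self hD.ne'])
  have h5 : (ori w v y / ori u w v) • u + (ori u w y / ori u w v) • v +
      (ori v u y / ori u w v) • w = y := by
    have h6 := congrArg (fun z : Pt => (ori u w v)⁻¹ • z) (bary u v w y)
    simp only [smul_add, smul_smul] at h6
    rw [inv_mul_cancel₀ hD.ne', one_smul] at h6
    rw [div_eq_inv_mul, div_eq_inv_mul, div_eq_inv_mul]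
    exact h6.symm
  rwa [h5] at h4

/-- a point with `α = 0` is on the side `v w` -/
lemma mem_seg {u v w y : Pt} (hD : 0 < ori u w v) (h1 : ori w v y = 0) (h2 : 0 ≤ ori u w y)
    (h3 : 0 ≤ ori v u y) : y ∈ segment ℝ v w := by
  have hs := bary_sum u v w y
  rw [h1, zero_add] at hs
  refine ⟨ori u w y / ori u w v, ori v u y / ori u w v, div_nonneg h2 hD.le, div_nonneg h3 hD.le,
    by rw [← add_div, hs, div_self hD.ne'], ?_⟩
  have h6 := congrArg (fun z : Pt => (ori u w v)⁻¹ • z) (bary u v w y)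
  simp only [smul_add, smul_smul] at h6
  rw [inv_mul_cancel₀ hD.ne', one_smul, h1, mul_zero, zero_smul, zero_add] at h6
  rw [div_eq_inv_mul, div_eq_inv_mul]
  exact h6.symm

/-- a point with `γ = 0` is on the side `u v` -/
lemma mem_seg' {u v w y : Pt} (hD : 0 < ori u w v) (h1 : 0 ≤ ori w v y) (h2 : 0 ≤ ori u w y)
    (h3 : ori v u y = 0) : y ∈ segment ℝ u v := by
  have hs := bary_sum u v w y
  rw [h3, add_zero] at hs
  refine ⟨ori w v y / ori u w v, ori u w y / ori u w v, div_nonneg h1 hD.le, div_nonneg h2 hD.le,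
    by rw [← add_div, hs, div_self hD.ne'], ?_⟩
  have h6 := congrArg (fun z : Pt => (ori u w v)⁻¹ • z) (bary u v w y)
  simp only [smul_add, smul_smul] at h6
  rw [inv_mul_cancel₀ hD.ne', one_smul, h3, mul_zero, zero_smul, add_zero] at h6
  rw [div_eq_inv_mul, div_eq_inv_mul]
  exact h6.symm

lemma cont_ori (p q : Pt) : Continuous (ori p q) := by
  unfold ori
  fun_prop

/-- the linear part of `ori u w` -/
def lin (u w : Pt) : Pt →ₗ[ℝ] ℝ where
  toFun d := (w.1 - u.1) * d.2 - (w.2 - u.2) * d.1
  map_add' x y := by simp only [Prod.fst_add, Prod.snd_add]; ring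
  map_smul' c x := by simp only [Prod.smul_fst, Prod.smul_snd, smul_eq_mul, RingHom.id_apply]; ring

lemma lin_apply (u w d : Pt) : lin u w d = (w.1 - u.1) * d.2 - (w.2 - u.2) * d.1 := rfl

lemma ori_add (p q y d : Pt) (t : ℝ) : ori p q (y + t • d) = ori p q y + t * lin p q d := by
  unfold ori
  rw [lin_apply]
  simp only [Prod.fst_add, Prod.snd_add, Prod.smul_fst, Prod.smul_snd, smul_eq_mul]
  ring

/-- main case -/
lemma main {M : ℝ} {X : Set Pt} (hX : IsClosed X) (hT : Tight M X) {u v w : Pt}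
    (hu : u ∈ Om M) (hv : v ∈ Om M) (hw : w ∈ Om M) (huv : Disjoint (segment ℝ u v) X)
    (hvw : Disjoint (segment ℝ v w) X) (hD : 0 < ori u w v) : Disjoint (segment ℝ u w) X := by
  rw [Set.disjoint_left]
  intro y0 hy0 hy0X
  -- the triangle
  let T : Set Pt := {y | 0 ≤ ori w v y ∧ 0 ≤ ori u w y ∧ 0 ≤ ori v u y}
  have hTO : T ⊆ Om M := fun y hy => bary_mem (convex_ball 0 M) hu hv hw hD hy.1 hy.2.1 hy.2.2
  have hTc : IsClosed T := by
    refine IsClosed.inter (isClosed_le continuous_const (cont_ori w v)) (IsClosed.inter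
      (isClosed_le continuous_const (cont_ori u w)) (isClosed_le continuous_const (cont_ori v u)))
  have hTk : IsCompact T :=
    Metric.isCompact_of_isClosed_isBounded hTc (Metric.isBounded_ball.subset hTO)
  have hTXk : IsCompact (T ∩ X) := hTk.inter_right hX
  have hy0T : y0 ∈ T := by
    obtain ⟨a, b, ha, hb, hab, rfl⟩ := hy0
    have hb1 : b = 1 - a := by linarith
    have e1 : ori w v (a • u + b • w) = a * ori u w v := by
      rw [hb1]; unfold ori
      simp only [Prod.fst_add, Prod.snd_add, Prod.smul_fst, Prod.smul_snd, smul_eq_mul]; ring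
    have e2 : ori u w (a • u + b • w) = 0 := by
      rw [hb1]; unfold ori
      simp only [Prod.fst_add, Prod.snd_add, Prod.smul_fst, Prod.smul_snd, smul_eq_mul]; ring
    have e3 : ori v u (a • u + b • w) = b * ori u w v := by
      have : a = 1 - b := by linarith
      rw [this]; unfold ori
      simp only [Prod.fst_add, Prod.snd_add, Prod.smul_fst, Prod.smul_snd, smul_eq_mul]; ring
    exact ⟨by rw [e1]; positivity, by rw [e2], by rw [e3]; positivity⟩
  obtain ⟨y1, hy1, hmax1⟩ := hTXk.exists_isMaxOn ⟨y0, hy0T, hy0X⟩ (cont_ori u w).continuousOn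
  let ψ : Pt → ℝ := fun d => (w.1 - u.1) * d.1 + (w.2 - u.2) * d.2
  have hψ : Continuous ψ := by fun_prop
  have hSk : IsCompact (T ∩ X ∩ {y | ori u w y = ori u w y1}) :=
    hTXk.inter_right (isClosed_eq (cont_ori u w) continuous_const)
  obtain ⟨y, ⟨⟨hyT, hyX⟩, hy2⟩, hmax2⟩ := hSk.exists_isMaxOn ⟨y1, hy1, rfl⟩ hψ.continuousOn
  have hy2' : ori u w y = ori u w y1 := hy2
  have hA : ∀ z ∈ T, z ∈ X → ori u w z ≤ ori u w y := by
    intro z hz hzX
    rw [hy2']
    exact hmax1 ⟨hz, hzX⟩
  have hB : ∀ z ∈ T, z ∈ X → ori u w z = ori u w y → ψ z ≤ ψ y := by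
    intro z hz hzX hzz
    exact hmax2 ⟨⟨hz, hzX⟩, hzz.trans hy2'⟩
  -- positivity of two coordinates
  have hα : 0 < ori w v y := by
    refine lt_of_le_of_ne hyT.1 fun h => ?_
    exact Set.disjoint_left.mp hvw (mem_seg hD h.symm hyT.2.1 hyT.2.2) hyX
  have hγ : 0 < ori v u y := by
    refine lt_of_le_of_ne hyT.2.2 fun h => ?_
    exact Set.disjoint_left.mp huv (mem_seg' hD hyT.1 hyT.2.1 h.symm) hyX
  -- small steps
  have hstep : ∀ d : Pt, ∀ᶠ t : ℝ in nhds 0, 0 < ori w v (y + t • d) ∧ 0 < ori v u (y + t • d) := by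
    intro d
    have c1 : Continuous fun t : ℝ => ori w v (y + t • d) := (cont_ori w v).comp (by fun_prop)
    have c2 : Continuous fun t : ℝ => ori v u (y + t • d) := (cont_ori v u).comp (by fun_prop)
    have t1 : ∀ᶠ t : ℝ in nhds 0, 0 < ori w v (y + t • d) := by
      have := c1.tendsto 0
      rw [zero_smul, add_zero] at this
      exact this.eventually (lt_mem_nhds hα)
    have t2 : ∀ᶠ t : ℝ in nhds 0, 0 < ori v u (y + t • d) := by
      have := c2.tendsto 0
      rw [zero_smul, add_zero] at this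
      exact this.eventually (lt_mem_nhds hγ)
    exact t1.and t2
  have hwu : w ≠ u := by
    rintro rfl
    unfold ori at hD
    simp at hD
  have hlin : lin u w ≠ 0 := by
    intro h
    have := LinearMap.congr_fun h (v - u)
    rw [lin_apply, LinearMap.zero_apply] at this
    have e : ori u w v = (w.1 - u.1) * (v - u).2 - (w.2 - u.2) * (v - u).1 := by
      unfold ori; simp only [Prod.fst_sub, Prod.snd_sub]
    rw [e, this] at hD
    exact lt_irrefl _ hD
  rcases hT y hyX (hTO hyT) (lin u w) hlin with ⟨q, hq, hqX⟩ | ⟨q, q', hne, hq0, hyo, hqX⟩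
  · obtain ⟨ε, hε, hb⟩ := Metric.eventually_nhds_iff.mp (hstep (q - y))
    have ht0 : 0 < min (ε / 2) 1 := lt_min (by positivity) one_pos
    have ht1 : min (ε / 2) 1 ≤ 1 := min_le_right _ _
    have hd : dist (min (ε / 2) 1) 0 < ε := by
      rw [Real.dist_eq, sub_zero, abs_of_pos ht0]
      exact lt_of_le_of_lt (min_le_left _ _) (by linarith)
    obtain ⟨h1, h2⟩ := hb hd
    set t := min (ε / 2) 1 with ht
    have hmX : y + t • (q - y) ∈ X := by
      refine hqX ?_
      rw [segment_eq_image']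
      exact ⟨t, ⟨ht0.le, ht1⟩, rfl⟩
    have e := ori_add u w y (q - y) t
    have hpos : 0 < t * lin u w (q - y) := mul_pos ht0 hq
    have hmT : y + t • (q - y) ∈ T := ⟨h1.le, by rw [e]; linarith [hyT.2.1], h2.le⟩
    have := hA _ hmT hmX
    rw [e] at this
    linarith
  · obtain ⟨a, b, ha, hb, hab, hy⟩ := hyo
    obtain ⟨ε, hε, hbb⟩ := Metric.eventually_nhds_iff.mp (hstep (q - q'))
    have hkey : ∀ t : ℝ, |t| < ε → |t| < a → |t| < b → t * ψ (q - q') ≤ 0 := by
      intro t ht hta htb
      obtain ⟨h1, h2⟩ := hbb (by rw [Real.dist_eq, sub_zero]; exact ht : dist t 0 < ε)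
      have hmX : y + t • (q - q') ∈ X := by
        refine hqX ?_
        refine ⟨a + t, b - t, ?_, ?_, by linarith, ?_⟩
        · have := abs_lt.mp hta; linarith
        · have := abs_lt.mp htb; linarith
        · rw [← hy, add_smul, sub_smul, smul_sub]; abel
      have e := ori_add u w y (q - q') t
      rw [hq0, mul_zero, add_zero] at e
      have hmT : y + t • (q - q') ∈ T := ⟨h1.le, by rw [e]; exact hyT.2.1, h2.le⟩
      have h3 := hB _ hmT hmX e
      have e2 : ψ (y + t • (q - q')) = ψ y + t * ψ (q - q') := by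
        simp only [ψ, Prod.fst_add, Prod.snd_add, Prod.smul_fst, Prod.smul_snd, smul_eq_mul]
        ring
      rw [e2] at h3
      linarith
    have hψ0 : ψ (q - q') = 0 := by
      have ht0 : 0 < min (ε / 2) (min (a / 2) (b / 2)) := by positivity
      set t := min (ε / 2) (min (a / 2) (b / 2)) with ht
      have l1 : t ≤ ε / 2 := min_le_left _ _
      have l2 : t ≤ a / 2 := (min_le_right _ _).trans (min_le_left _ _)
      have l3 : t ≤ b / 2 := (min_le_right _ _).trans (min_le_right _ _)
      have k1 := hkey t (by rw [abs_of_pos ht0]; linarith) (by rw [abs_of_pos ht0]; linarith)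
        (by rw [abs_of_pos ht0]; linarith)
      have k2 := hkey (-t) (by rw [abs_neg, abs_of_pos ht0]; linarith)
        (by rw [abs_neg, abs_of_pos ht0]; linarith) (by rw [abs_neg, abs_of_pos ht0]; linarith)
      have k3 : t * ψ (q - q') = 0 := by linarith
      exact (mul_eq_zero.mp k3).resolve_left ht0.ne'
    have hnorm : 0 < (w.1 - u.1) ^ 2 + (w.2 - u.2) ^ 2 := by
      by_contra hcon
      have h1 : (w.1 - u.1) ^ 2 = 0 := by nlinarith [sq_nonneg (w.1 - u.1), sq_nonneg (w.2 - u.2)]
      have h2 : (w.2 - u.2) ^ 2 = 0 := by nlinarith [sq_nonneg (w.1 - u.1), sq_nonneg (w.2 - u.2)]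
      have h3 : w.1 - u.1 = 0 := by simpa using h1
      have h4 : w.2 - u.2 = 0 := by simpa using h2
      exact hwu (Prod.ext (by linarith) (by linarith))
    rw [lin_apply] at hq0
    simp only [ψ] at hψ0
    have g1 : (q - q').1 * ((w.1 - u.1) ^ 2 + (w.2 - u.2) ^ 2) = 0 := by
      linear_combination (w.1 - u.1) * hψ0 - (w.2 - u.2) * hq0
    have g2 : (q - q').2 * ((w.1 - u.1) ^ 2 + (w.2 - u.2) ^ 2) = 0 := by
      linear_combination (w.2 - u.2) * hψ0 + (w.1 - u.1) * hq0
    have g3 := (mul_eq_zero.mp g1).resolve_right hnorm.ne'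
    have g4 := (mul_eq_zero.mp g2).resolve_right hnorm.ne'
    exact hne (sub_eq_zero.mp (Prod.ext g3 g4))

/-- the collinear case -/
lemma col {X : Set Pt} {u v w : Pt} (huv : Disjoint (segment ℝ u v) X)
    (hvw : Disjoint (segment ℝ v w) X) (hD : ori u w v = 0) : Disjoint (segment ℝ u w) X := by
  rw [Set.disjoint_left] at *
  intro y hy hyX
  by_cases hwu : w = u
  · subst hwu
    rw [segment_same] at hy
    rw [Set.mem_singleton_iff] at hy
    subst hy
    exact huv (left_mem_segment ℝ _ _) hyX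
  -- v = u + t (w - u)
  have hnorm : 0 < (w.1 - u.1) ^ 2 + (w.2 - u.2) ^ 2 := by
    by_contra hcon
    have h1 : (w.1 - u.1) ^ 2 = 0 := by nlinarith [sq_nonneg (w.1 - u.1), sq_nonneg (w.2 - u.2)]
    have h2 : (w.2 - u.2) ^ 2 = 0 := by nlinarith [sq_nonneg (w.1 - u.1), sq_nonneg (w.2 - u.2)]
    have h3 : w.1 - u.1 = 0 := by simpa using h1
    have h4 : w.2 - u.2 = 0 := by simpa using h2
    exact hwu (Prod.ext (by linarith) (by linarith))
  obtain ⟨t, ht⟩ : ∃ t : ℝ, v = u + t • (w - u) := by
    refine ⟨((w.1 - u.1) * (v.1 - u.1) + (w.2 - u.2) * (v.2 - u.2)) /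
      ((w.1 - u.1) ^ 2 + (w.2 - u.2) ^ 2), ?_⟩
    unfold ori at hD
    ext
    · simp only [Prod.fst_add, Prod.smul_fst, Prod.fst_sub, smul_eq_mul]
      field_simp
      linear_combination (- (w.2 - u.2)) * hD
    · simp only [Prod.snd_add, Prod.smul_snd, Prod.snd_sub, smul_eq_mul]
      field_simp
      linear_combination (w.1 - u.1) * hD
  rw [segment_eq_image'] at hy
  obtain ⟨s, ⟨hs0, hs1⟩, hs⟩ := hy
  simp only at hs
  by_cases hst : s ≤ t
  · refine huv ?_ hyX
    rw [segment_eq_image']
    by_cases ht0 : t = 0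
    · have : s = 0 := le_antisymm (hst.trans ht0.le) hs0
      refine ⟨0, ⟨le_rfl, zero_le_one⟩, ?_⟩
      rw [← hs, this]
      simp
    · have htp : 0 < t := lt_of_le_of_ne (hs0.trans hst) (Ne.symm ht0)
      refine ⟨s / t, ⟨by positivity, (div_le_one htp).mpr hst⟩, ?_⟩
      simp only
      rw [← hs, ht, add_sub_cancel_left, smul_smul, div_mul_cancel₀ _ htp.ne']
  · have hst := not_le.mp hst
    refine hvw ?_ hyX
    rw [segment_eq_image']
    have h1t : 0 < 1 - t := by linarith
    refine ⟨(s - t) / (1 - t), ⟨div_nonneg (by linarith) h1t.le,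
      (div_le_one h1t).mpr (by linarith)⟩, ?_⟩
    simp only
    rw [← hs, ht]
    have e : w - (u + t • (w - u)) = (1 - t) • (w - u) := by
      rw [sub_smul, one_smul]; abel
    rw [e, smul_smul, div_mul_cancel₀ _ h1t.ne', add_assoc, ← add_smul]
    congr 2
    ring

end ConvAux

open ConvAux

theorem Vis.symm {X : Set Pt} {u v : Pt} (h : Vis X u v) : Vis X v u := by
  unfold Vis at *; rwa [segment_symm]

theorem vis_trans {M : ℝ} {X : Set Pt} (hX : IsClosed X) (hT : Tight M X) {u v w : Pt}
    (hu : u ∈ Om M) (hv : v ∈ Om M) (hw : w ∈ Om M) (huv : Vis X u v) (hvw : Vis X v w) :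
    Vis X u w := by
  rcases lt_trichotomy (ori u w v) 0 with h | h | h
  · refine Vis.symm ?_
    refine main hX hT hw hv hu (Vis.symm hvw) (Vis.symm huv) ?_
    rw [ori_swap]
    linarith
  · exact col huv hvw h
  · exact main hX hT hu hv hw huv hvw h

theorem vis_self {X : Set Pt} {u : Pt} (hu : u ∉ X) : Vis X u u := by
  unfold Vis
  rw [segment_same, Set.disjoint_singleton_left]
  exact hu

theorem cell_isOpen {M : ℝ} {X : Set Pt} (hX : IsClosed X) (u : Pt) : IsOpen (cell M X u) := by
  have h1 : IsOpen {v : Pt | Vis X u v} := by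
    rw [← isClosed_compl_iff]
    have h2 : IsClosed {p : unitInterval × Pt | u + (p.1 : ℝ) • (p.2 - u) ∈ X} :=
      hX.preimage (by fun_prop)
    have h3 := isClosedMap_snd_of_compactSpace _ h2
    have h4 : {v : Pt | Vis X u v}ᶜ =
        Prod.snd '' {p : unitInterval × Pt | u + (p.1 : ℝ) • (p.2 - u) ∈ X} := by
      ext v
      simp only [Set.mem_compl_iff, Set.mem_ofPred_eq, Vis, Set.mem_image, Prod.exists,
        exists_eq_right]
      rw [Set.not_disjoint_iff, segment_eq_image']
      constructor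
      · rintro ⟨x, ⟨t, ht, rfl⟩, hx⟩
        exact ⟨⟨t, ht⟩, hx⟩
      · rintro ⟨t, ht⟩
        exact ⟨_, ⟨(t : ℝ), t.2, rfl⟩, ht⟩
    rw [h4]
    exact h3
  exact Metric.isOpen_ball.inter h1

theorem cell_convex {M : ℝ} {X : Set Pt} (hX : IsClosed X) (hT : Tight M X) {u : Pt}
    (hu : u ∈ Om M) : Convex ℝ (cell M X u) := by
  rw [convex_iff_segment_subset]
  rintro v ⟨hv, huv⟩ v' ⟨hv', huv'⟩ x hx
  have hxO : x ∈ Om M := (convex_ball (0 : Pt) M).segment_subset hv hv' hx
  have h1 : Vis X v v' := vis_trans hX hT hv hu hv' (Vis.symm huv) huv'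
  have h2 : Vis X v x := by
    unfold Vis at *
    exact h1.mono_left ((convex_segment v v').segment_subset (left_mem_segment ℝ v v') hx)
  exact ⟨hxO, vis_trans hX hT hu hv hxO huv h2⟩

theorem mem_cell_self {M : ℝ} {X : Set Pt} {u : Pt} (hu : u ∈ Om M) (huX : u ∉ X) :
    u ∈ cell M X u := ⟨hu, vis_self huX⟩

theorem cell_disjoint {M : ℝ} {X : Set Pt} (u : Pt) : Disjoint (cell M X u) X := by
  rw [Set.disjoint_left]
  rintro v ⟨-, hv⟩ hvX
  exact Set.disjoint_left.mp hv (right_mem_segment ℝ u v) hvX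

theorem cell_sub {M : ℝ} {X : Set Pt} (u : Pt) : cell M X u ⊆ Om M := fun _ h => h.1

/-- a cell is the cell of each of its points -/
theorem cell_eq {M : ℝ} {X : Set Pt} (hX : IsClosed X) (hT : Tight M X) {u v : Pt}
    (hu : u ∈ Om M) (hv : v ∈ cell M X u) : cell M X v = cell M X u := by
  ext x
  constructor
  · rintro ⟨hx, hvx⟩
    exact ⟨hx, vis_trans hX hT hu hv.1 hx hv.2 hvx⟩
  · rintro ⟨hx, hux⟩
    exact ⟨hx, vis_trans hX hT hv.1 hu hx (Vis.symm hv.2) hux⟩

/-- a convex set in the square disjoint from X is contained in the cell of each of its points -/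
theorem convex_sub_cell {M : ℝ} {X S : Set Pt} (hS : Convex ℝ S) (hSM : S ⊆ Om M)
    (hSX : Disjoint S X) {u : Pt} (hu : u ∈ S) : S ⊆ cell M X u := by
  intro x hx
  exact ⟨hSM hx, hSX.mono_left (hS.segment_subset hu hx)⟩

theorem cell_disjoint_or_eq {M : ℝ} {X : Set Pt} (hX : IsClosed X) (hT : Tight M X) {u v : Pt}
    (hu : u ∈ Om M) (hv : v ∈ Om M) :
    cell M X u = cell M X v ∨ Disjoint (cell M X u) (cell M X v) := by
  by_cases h : Disjoint (cell M X u) (cell M X v)
  · exact Or.inr h
  · left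
    obtain ⟨x, hx1, hx2⟩ := Set.not_disjoint_iff.mp h
    rw [← cell_eq hX hT hu hx1, ← cell_eq hX hT hv hx2]

end F059
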