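import Pool.Agent.Lib.F059.Basic

/-!
# MP_f059c0_co, package D (polygon theorem): definitions
-/

namespace F059

/-- the open square `(-M, M)^2` (the ball of the sup norm); its boundary is the frame -/
abbrev Om (M : ℝ) : Set Pt := Metric.ball (0 : Pt) M

/-- property (*): at every point `y` of `X` inside the square and for every linear form `φ ≠ 0`,
either a segment of `X` leaves `y` in a direction where `φ` is positive, or a segment of `X`
in a level line of `φ` contains `y` in its relative interior -/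
def Tight (M : ℝ) (X : Set Pt) : Prop :=
  ∀ y ∈ X, y ∈ Om M → ∀ φ : Pt →ₗ[ℝ] ℝ, φ ≠ 0 →
    (∃ q, 0 < φ (q - y) ∧ segment ℝ y q ⊆ X) ∨
    (∃ q q', q ≠ q' ∧ φ (q - q') = 0 ∧ y ∈ openSegment ℝ q q' ∧ segment ℝ q q' ⊆ X)

/-- `u` and `v` see each other in the complement of `X` -/
def Vis (X : Set Pt) (u v : Pt) : Prop := Disjoint (segment ℝ u v) X

/-- the cell of `u`: the points of the square seen from `u` -/
def cell (M : ℝ) (X : Set Pt) (u : Pt) : Set Pt := {v | v ∈ Om M ∧ Vis X u v}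

/-- sets which can be built segment by segment, every new segment `[p, q]` meeting the old set
and the frame at most in its end `p` -/
inductive Slit (M : ℝ) : Set Pt → Prop
  | empty : Slit M ∅
  | add {Y : Set Pt} {p q : Pt} : Slit M Y → p ≠ q → q ∈ Om M →
      segment ℝ p q ∩ (Y ∪ (Om M)ᶜ) ⊆ {p} → Slit M (Y ∪ segment ℝ p q)

/-- a star edge `z b` with its ear: `z` the centre, `b` the leaf, `m` and `p` the gadget points
(`m` to the left, `p` to the right of the directed line `z b`) -/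
structure Leaf where
  z : Pt
  b : Pt
  m : Pt
  p : Pt

/-- star systems: hypotheses of the polygon theorem -/
structure StarSys (P : Finset Pt) (E : Finset Leaf) : Prop where
  mem : ∀ e ∈ E, e.z ∈ P ∧ e.b ∈ P ∧ e.m ∈ P ∧ e.p ∈ P
  /-- `m` left of `z b`, `p` right of `z b`, `b` inside the triangle `z p m` -/
  good : ∀ e ∈ E, 0 < ori e.z e.b e.m ∧ 0 < ori e.z e.p e.b ∧ 0 < ori e.p e.m e.b
  /-- centres are not points of ears -/
  zne : ∀ e ∈ E, ∀ e' ∈ E, e.z ≠ e'.b ∧ e.z ≠ e'.m ∧ e.z ≠ e'.p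
  /-- different ears have no common point -/
  ear : ∀ e ∈ E, ∀ e' ∈ E, e ≠ e' → ∀ x, (x = e.b ∨ x = e.m ∨ x = e.p) →
    x ≠ e'.b ∧ x ≠ e'.m ∧ x ≠ e'.p
  /-- no line `z b`, `b m`, `b p` of one element meets the closed ear of another element -/
  clean : ∀ e ∈ E, ∀ e' ∈ E, e ≠ e' → ∀ x y : Pt,
    ((x = e.z ∧ y = e.b) ∨ (x = e.b ∧ y = e.m) ∨ (x = e.b ∧ y = e.p)) →
    (0 < ori x y e'.b ∧ 0 < ori x y e'.m ∧ 0 < ori x y e'.p) ∨
    (ori x y e'.b < 0 ∧ ori x y e'.m < 0 ∧ ori x y e'.p < 0)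
  /-- star edges do not cross -/
  nc : ∀ e ∈ E, ∀ e' ∈ E, ¬ Cr e.z e.b e'.z e'.b

/-- union of all star edges -/
def stars (E : Finset Leaf) : Set Pt := ⋃ f ∈ E, segment ℝ f.z f.b

/-- union of the star edges with centre `c` -/
def starAt (E : Finset Leaf) (c : Pt) : Set Pt := ⋃ f ∈ E, ⋃ (_ : f.z = c), segment ℝ f.z f.b

/-- closed wall number `i`: from the centre `(e i).z` to `y i` -/
def cw (e : ℕ → Leaf) (y : ℕ → Pt) (i : ℕ) : Set Pt := segment ℝ (e i).z (y i)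

/-- the closed walls, in the order in which they are drawn (depth first order):
`e i` is the star edge which is prolonged beyond its centre, `y i` the end of the wall -/
structure Walls (M : ℝ) (E : Finset Leaf) (m : ℕ) (e : ℕ → Leaf) (y : ℕ → Pt) : Prop where
  memE : ∀ i < m, e i ∈ E
  inj : ∀ i < m, ∀ j < m, (e i).z = (e j).z → i = j
  cov : ∀ f ∈ E, ∃ i < m, (e i).z = f.z
  ray : ∀ i < m, ∃ t : ℝ, 0 < t ∧ y i = (e i).z + t • ((e i).z - (e i).b)
  /-- before its end a wall meets neither the frame nor star edges nor earlier walls -/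
  free : ∀ i < m, ∀ x ∈ openSegment ℝ (e i).z (y i),
    x ∈ Om M ∧ x ∉ stars E ∧ ∀ k < i, x ∉ cw e y k
  /-- a wall ends on the frame, or on the star edge prolonged next, or on an earlier star
  or wall -/
  hit : ∀ i < m, y i ∉ Om M ∨ (i + 1 < m ∧ y i ∈ segment ℝ (e (i + 1)).z (e (i + 1)).b) ∨
    ∃ k < i, y i ∈ cw e y k ∨ y i ∈ starAt E (e k).z

/-- gadget wall number `j`: from the leaf `(g j).b` through `h j` to `w j` -/
def gw (g : ℕ → Leaf) (w : ℕ → Pt) (j : ℕ) : Set Pt := segment ℝ (g j).b (w j)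

/-- the gadget walls, in the order in which they are drawn -/
structure Gads (M : ℝ) (E : Finset Leaf) (m : ℕ) (e : ℕ → Leaf) (y : ℕ → Pt)
    (K : ℕ) (g : ℕ → Leaf) (h w : ℕ → Pt) : Prop where
  memE : ∀ j < K, g j ∈ E ∧ (h j = (g j).m ∨ h j = (g j).p)
  inj : ∀ i < K, ∀ j < K, h i = h j → i = j
  cov : ∀ f ∈ E, (∃ j < K, g j = f ∧ h j = f.m) ∧ (∃ j < K, g j = f ∧ h j = f.p)
  ray : ∀ j < K, ∃ t : ℝ, 1 < t ∧ w j = (g j).b + t • (h j - (g j).b)
  free : ∀ j < K, ∀ x ∈ openSegment ℝ (g j).b (w j),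
    x ∈ Om M ∧ x ∉ stars E ∧ (∀ i < m, x ∉ cw e y i) ∧ ∀ i < j, x ∉ gw g w i
  hit : ∀ j < K, w j ∉ Om M ∨ w j ∈ stars E ∨ (∃ i < m, w j ∈ cw e y i) ∨ ∃ i < j, w j ∈ gw g w i

/-- the whole wall system -/
def XX (E : Finset Leaf) (m : ℕ) (e : ℕ → Leaf) (y : ℕ → Pt) (K : ℕ) (g : ℕ → Leaf)
    (w : ℕ → Pt) : Set Pt :=
  stars E ∪ (⋃ i < m, cw e y i) ∪ ⋃ j < K, gw g w j

/-- the point of the closed wall `i` at distance `δ` (times the length of the star edge) -/
def zc (δ : ℝ) (e : ℕ → Leaf) (i : ℕ) : Pt := (e i).z + δ • ((e i).z - (e i).b)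

/-- the point of the gadget wall `j` slightly beyond `h j` -/
def gc (δ : ℝ) (g : ℕ → Leaf) (h : ℕ → Pt) (j : ℕ) : Pt := (g j).b + (1 + δ) • (h j - (g j).b)

/-- `δ` is small enough for all openings: they are initial parts of the walls and nothing ends
in them -/
structure SmallCut (m : ℕ) (e : ℕ → Leaf) (y : ℕ → Pt) (K : ℕ) (g : ℕ → Leaf)
    (h w : ℕ → Pt) (δ : ℝ) : Prop where
  pos : 0 < δ
  zin : ∀ i < m, zc δ e i ∈ openSegment ℝ (e i).z (y i)
  gin : ∀ j < K, gc δ g h j ∈ openSegment ℝ (h j) (w j)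
  zy : ∀ i < m, ∀ k < m, y k ∉ segment ℝ (e i).z (zc δ e i)
  zw : ∀ i < m, ∀ j < K, w j ∉ segment ℝ (e i).z (zc δ e i)
  gw' : ∀ j < K, ∀ k < K, w k ∉ segment ℝ (g j).b (gc δ g h j)

open Classical in
/-- stars and closed walls, those with index in `C` without their initial piece -/
noncomputable def Ycl (E : Finset Leaf) (m : ℕ) (e : ℕ → Leaf) (y : ℕ → Pt) (δ : ℝ)
    (C : Finset ℕ) : Set Pt :=
  stars E ∪ ⋃ i < m, (if i ∈ C then segment ℝ (zc δ e i) (y i) else cw e y i)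

/-- the system with openings: closed walls in `C` and all gadget walls are cut -/
noncomputable def YY (E : Finset Leaf) (m : ℕ) (e : ℕ → Leaf) (y : ℕ → Pt) (K : ℕ)
    (g : ℕ → Leaf) (h w : ℕ → Pt) (δ : ℝ) (C : Finset ℕ) : Set Pt :=
  Ycl E m e y δ C ∪ ⋃ j < K, segment ℝ (gc δ g h j) (w j)

/-- the points close to the open segment `p q` are in `A` (on its left) and in `B` (on its
right) -/
def SideCells (p q : Pt) (A B : Set Pt) : Prop :=
  ∀ x ∈ openSegment ℝ p q, ∃ r > 0, ∀ a ∈ Metric.ball x r,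
    (0 < ori p q a → a ∈ A) ∧ (ori p q a < 0 → a ∈ B)

/-- `a` is an extreme point of the finite set `Q` -/
def Ext (Q : Finset Pt) (a : Pt) : Prop :=
  a ∈ Q ∧ a ∉ convexHull ℝ ((Q.erase a : Finset Pt) : Set Pt)

open Classical in
/-- the edges of `F` at the point `q` -/
noncomputable def edgesAt (F : Finset (Sym2 Pt)) (q : Pt) : Finset (Sym2 Pt) :=
  F.filter (fun e => q ∈ e)

/-- `T` is closed under adjacency in `F` -/
def EClosed (F : Finset (Sym2 Pt)) (T : Set Pt) : Prop :=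
  ∀ a b : Pt, s(a, b) ∈ F → a ∈ T → b ∈ T

open Classical in
/-- the doors (members of `D`) of the cell `v`; the door `d` leads from `A d` to `B d` -/
noncomputable def doorsOf (D : Finset Pt) (A B : Pt → Set Pt) (v : Set Pt) : Finset Pt :=
  D.filter (fun d => A d = v ∨ B d = v)

/-- the possible doors: leaves, ear points, and the centres in `C` -/
def IsDoor (E : Finset Leaf) (C : Finset Pt) (d : Pt) : Prop :=
  (∃ f ∈ E, d = f.b ∨ d = f.m ∨ d = f.p) ∨ d ∈ C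

/-- `d` is a point of the closure of `v`, and `v` lies strictly on the left of a line which
contains `d` and is spanned by two points of `P` -/
def Supp (P : Finset Pt) (v : Set Pt) (d : Pt) : Prop :=
  d ∈ P ∧ d ∈ closure v ∧ ∃ x ∈ P, ∃ y ∈ P, x ≠ y ∧ (d = x ∨ d = y) ∧ ∀ a ∈ v, 0 < ori x y a

open Classical in
/-- the door system: finitely many disjoint open convex cells (the members of `V`), whose closures
cover `P` and which are disjoint from the star edges; the door `d` leads from `A d` to `B d`;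
at the leaf edge `f`: `f.b` and `f.m` are doors of the left cell `A f.b = A f.m`, `f.m` and `f.p`
are doors of the front cell `B f.m = A f.p`, `f.b` and `f.p` are doors of the right cell
`B f.b = B f.p`; the doors `f.m`, `f.p` for all `f ∈ E` together with the doors in `Ce` connect all
cells, as do the same with `Cf` instead of `Ce`. -/
structure DoorSys (P : Finset Pt) (E : Finset Leaf) (V : Finset (Set Pt)) (A B : Pt → Set Pt)
    (Ce Cf : Finset Pt) : Prop where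
  isOpen : ∀ v ∈ V, IsOpen v
  conv : ∀ v ∈ V, Convex ℝ v
  disj : ∀ u ∈ V, ∀ v ∈ V, u ≠ v → Disjoint u v
  star : ∀ v ∈ V, ∀ f ∈ E, Disjoint v (segment ℝ f.z f.b)
  cov : ∀ p ∈ P, ∃ v ∈ V, p ∈ closure v
  left : ∀ f ∈ E, A f.b = A f.m
  front : ∀ f ∈ E, B f.m = A f.p
  right : ∀ f ∈ E, B f.b = B f.p
  cen : ∀ z ∈ Ce ∪ Cf, ∃ f ∈ E, z = f.z
  disjC : Disjoint Ce Cf
  door : ∀ d, IsDoor E (Ce ∪ Cf) d → A d ∈ V ∧ B d ∈ V ∧ A d ≠ B d ∧
    Supp P (A d) d ∧ Supp P (B d) d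
  conn_e : ∀ κ : Set Pt → Prop, (∀ d, IsDoor E Ce d → (∀ f ∈ E, d ≠ f.b) → (κ (A d) ↔ κ (B d))) →
    ∀ u ∈ V, ∀ v ∈ V, (κ u ↔ κ v)
  conn_f : ∀ κ : Set Pt → Prop, (∀ d, IsDoor E Cf d → (∀ f ∈ E, d ≠ f.b) → (κ (A d) ↔ κ (B d))) →
    ∀ u ∈ V, ∀ v ∈ V, (κ u ↔ κ v)

/-- a set `D` of used doors with even degrees which connects the cells -/
structure EvenDoors (P : Finset Pt) (V : Finset (Set Pt)) (A B : Pt → Set Pt) (D : Finset Pt) :
    Prop where
  isOpen : ∀ v ∈ V, IsOpen v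
  conv : ∀ v ∈ V, Convex ℝ v
  disj : ∀ u ∈ V, ∀ v ∈ V, u ≠ v → Disjoint u v
  cov : ∀ p ∈ P, ∃ v ∈ V, p ∈ closure v
  card : 3 ≤ D.card
  door : ∀ d ∈ D, A d ∈ V ∧ B d ∈ V ∧ A d ≠ B d ∧ Supp P (A d) d ∧ Supp P (B d) d
  even : ∀ v ∈ V, Even (doorsOf D A B v).card
  conn : ∀ κ : Set Pt → Prop, (∀ d ∈ D, (κ (A d) ↔ κ (B d))) → ∀ u ∈ V, ∀ v ∈ V, (κ u ↔ κ v)

/-- a non-crossing perfect matching of the doors in every cell: `Mt v d` is the partner of `d`
in the cell `v` -/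
structure Matching (V : Finset (Set Pt)) (A B : Pt → Set Pt) (D : Finset Pt)
    (Mt : Set Pt → Pt → Pt) : Prop where
  mem : ∀ v ∈ V, ∀ d ∈ doorsOf D A B v, Mt v d ∈ doorsOf D A B v
  ne : ∀ v ∈ V, ∀ d ∈ doorsOf D A B v, Mt v d ≠ d
  inv : ∀ v ∈ V, ∀ d ∈ doorsOf D A B v, Mt v (Mt v d) = d
  nc : ∀ v ∈ V, ∀ d ∈ doorsOf D A B v, ∀ d' ∈ doorsOf D A B v, ¬ Cr d (Mt v d) d' (Mt v d')

/-- a set of doors closed under the matchings -/
def MClosed (A B : Pt → Set Pt) (Mt : Set Pt → Pt → Pt) (T : Finset Pt) : Prop :=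
  ∀ d ∈ T, Mt (A d) d ∈ T ∧ Mt (B d) d ∈ T

end F059
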