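import Pool.Agent.Lib.F059.Meet

/-!
# F059D.Dfs: the closed walls exist

`first_hit`: C closed, the ray a + t v does not meet C for small t > 0, and meets C for some T > 0: there is a first
parameter t > 0 with a + t v ∈ C.  (The set {t ∈ [ε, T] : a + t v ∈ C} is compact, not empty: take the minimum.)

`exists_walls`.  PROOF.  Partial wall systems: PW(n, e, y): e i ∈ E, (e i).z different for i < n,
`ray`, `free` for i < n, `hit` for i + 1 < n in the form of `Walls.hit`, and for i + 1 = n: y i ∉ Om M ∨ y i ∈ stars E ∨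
∃ k < i, y i ∈ cw e y k.  PW(0) is trivial.  n ≤ E.card by injectivity of e on {i < n}.  So take a PW with n
maximal.  CLAIM: then all centres are covered, and it is a `Walls`.
If some centre is not covered, extend: if n > 0 and y (n-1) is on a star edge f ∈ E whose centre is not
among (e i).z, i < n, let e n := f, otherwise any f with uncovered centre.  C = (Om M)ᶜ ∪ stars E ∪ ⋃ i<n, cw e y i is closed.
The ray from z = f.z in direction v = f.z - f.b ≠ 0 does not meet C for small t > 0: z ∈ Om M (open); star edges f' with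
another centre and walls cw i do not contain z (P_star, zne; P_cw, uncovered), they are closed, so they stay away from z; star
edges f' with centre z meet the ray only in z (f' = f: opposite direction; f' ≠ f: other line, ear, GenPos).
The ray leaves the bounded set Om M.  y n := first hit.  free: no point before the first hit is in C.
hit for index n-1 (if n > 0): y (n-1) ∉ Om M, or in an earlier wall: fine.  y (n-1) on a star edge f': if the centre of f' is not covered by i < n
we chose e n = such an f with y (n-1) ∈ [f.z,f.b]: second alternative (i+1 < n+1).  If it is covered, f'.z = (e k).z with k < n; k ≠ n-1 because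
y (n-1) ∉ own star (own_star would give y = z, but t > 0); so k < n-1: y (n-1) ∈ starAt E (e k).z: third alternative.
(`own_star`, `P_cw` are stated for `Walls`; in this file prove what is needed for partial systems directly, or state PW so that
its restriction is easy to use; the arguments are one line each.)
If all centres are covered: hit for the last index n-1: y on a star edge f': its centre is (e k).z, k < n, k ≠ n-1 as before.  So Walls holds.
-/

namespace F059

open MeetAux Filter Topology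

theorem first_hit {C : Set Pt} (hC : IsClosed C) {a v : Pt} {ε T : ℝ} (hε : 0 < ε) (hT : 0 < T)
    (hfree : ∀ s, 0 < s → s ≤ ε → a + s • v ∉ C) (hmem : a + T • v ∈ C) :
    ∃ t, 0 < t ∧ t ≤ T ∧ a + t • v ∈ C ∧ ∀ s, 0 < s → s < t → a + s • v ∉ C := by
  have hεT : ε < T := by
    by_contra h
    exact hfree T hT (not_lt.mp h) hmem
  have hcont : Continuous fun t : ℝ => a + t • v := by fun_prop
  have hK : IsCompact (Set.Icc ε T ∩ (fun t : ℝ => a + t • v) ⁻¹' C) :=
    isCompact_Icc.inter_right (hC.preimage hcont)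
  obtain ⟨t, ⟨⟨ht1, ht2⟩, ht3⟩, hmin⟩ := hK.exists_isLeast ⟨T, ⟨hεT.le, le_rfl⟩, hmem⟩
  refine ⟨t, lt_of_lt_of_le hε ht1, ht2, ht3, ?_⟩
  intro s hs hst hsC
  by_cases h : s ≤ ε
  · exact hfree s hs h hsC
  · have h1 : t ≤ s := hmin ⟨⟨(not_le.mp h).le, hst.le.trans ht2⟩, hsC⟩
    linarith

/-- a ray leaves the square -/
theorem leaves (M : ℝ) (a : Pt) {v : Pt} (hv : v ≠ 0) : ∃ T > 0, a + T • v ∉ Om M := by
  have hn : 0 < ‖v‖ := norm_pos_iff.mpr hv
  obtain ⟨N, hN⟩ := exists_nat_gt ((|M| + ‖a‖) / ‖v‖)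
  have hN' : |M| + ‖a‖ < N * ‖v‖ := (div_lt_iff₀ hn).mp hN
  have hN0 : 0 < N := by
    rcases Nat.eq_zero_or_pos N with h0 | h0
    · rw [h0, Nat.cast_zero, zero_mul] at hN'
      have := abs_nonneg M
      have := norm_nonneg a
      linarith
    · exact h0
  refine ⟨N, hN0, fun h => ?_⟩
  rw [mem_ball_zero_iff] at h
  have h1 : ‖N • v‖ = N * ‖v‖ := by
    rw [← Nat.cast_smul_eq_nsmul ℝ, norm_smul, Real.norm_of_nonneg (Nat.cast_nonneg N)]
  have h2 : ‖N • v‖ ≤ ‖a + N • v‖ + ‖a‖ := by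
    have := norm_sub_le (a + N • v) a
    rwa [add_sub_cancel_left] at this
  have h3 := le_abs_self M
  linarith

/-- a ray leaves the square (real parameter) -/
theorem DfsAux.leavesR (M : ℝ) (a : Pt) {v : Pt} (hv : v ≠ 0) :
    ∃ T : ℝ, 0 < T ∧ a + T • v ∉ Om M := by
  obtain ⟨N, hN, h⟩ := leaves M a hv
  refine ⟨N, by exact_mod_cast hN, ?_⟩
  rwa [Nat.cast_smul_eq_nsmul]

namespace DfsAux

/-- partial wall systems -/
structure PW (M : ℝ) (E : Finset Leaf) (n : ℕ) (e : ℕ → Leaf) (y : ℕ → Pt) : Prop where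
  memE : ∀ i < n, e i ∈ E
  inj : ∀ i < n, ∀ j < n, (e i).z = (e j).z → i = j
  ray : ∀ i < n, ∃ t : ℝ, 0 < t ∧ y i = (e i).z + t • ((e i).z - (e i).b)
  free : ∀ i < n, ∀ x ∈ openSegment ℝ (e i).z (y i),
    x ∈ Om M ∧ x ∉ stars E ∧ ∀ k < i, x ∉ cw e y k
  hit : ∀ i, i + 1 < n → (y i ∉ Om M ∨ y i ∈ segment ℝ (e (i + 1)).z (e (i + 1)).b ∨
    ∃ k < i, y i ∈ cw e y k ∨ y i ∈ starAt E (e k).z)
  last : ∀ i < n, y i ∉ Om M ∨ y i ∈ stars E ∨ ∃ k < i, y i ∈ cw e y k

variable {P : Finset Pt} {E : Finset Leaf} {M : ℝ} {n : ℕ} {e : ℕ → Leaf} {y : ℕ → Pt}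

lemma PW.param (hW : PW M E n e y) {i : ℕ} (hi : i < n) {x : Pt} (h : x ∈ cw e y i) :
    ∃ s : ℝ, 0 ≤ s ∧ x = (e i).z + s • ((e i).z - (e i).b) := by
  obtain ⟨t, ht, hy⟩ := hW.ray i hi
  obtain ⟨s, hs0, -, hs⟩ := seg_param h
  refine ⟨s * t, by positivity, ?_⟩
  rw [hs, hy, add_sub_cancel_left, smul_smul]

lemma PW.P_cw (hgp : GenPos P) (hE : StarSys P E) (hW : PW M E n e y) {i : ℕ} (hi : i < n)
    {p : Pt} (hp : p ∈ P) (h : p ∈ cw e y i) : p = (e i).z := by
  have hf := hW.memE i hi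
  obtain ⟨s, hs, hx⟩ := hW.param hi h
  rcases on_line hgp (hE.mem _ hf).1 (hE.mem _ hf).2.1 hp (star_ne hE hf).1
    (by rw [hx]; exact ori_ray' _ _ _) with h1 | h1
  · exact h1
  · rw [h1] at hx
    exact (b_notin_ray (star_ne hE hf).1 hs hx).elim

/-- the ray from the centre meets the own star only in the centre -/
lemma ray_star (hgp : GenPos P) (hE : StarSys P E) {f f' : Leaf} (hf : f ∈ E) (hf' : f' ∈ E)
    (hz : f'.z = f.z) {s : ℝ} (hs : 0 < s) :
    f.z + s • (f.z - f.b) ∉ segment ℝ f'.z f'.b := by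
  intro h'
  have hne := (star_ne hE hf).1
  have hxz : f.z + s • (f.z - f.b) ≠ f.z := by
    intro h
    rw [add_eq_left] at h
    exact smul_sub_ne hne.symm hs.ne' h
  by_cases hb : f'.b = f.b
  · obtain ⟨r, hr, -, hx'⟩ := seg_param h'
    rw [hz, hb] at hx'
    have h2 : s • (f.z - f.b) = r • (f.b - f.z) := add_left_cancel hx'
    have h1 : (s + r) • (f.z - f.b) = 0 := by
      rw [add_smul, h2, ← smul_add]
      simp
    rcases smul_eq_zero.mp h1 with h2 | h2
    · linarith
    · exact absurd (sub_eq_zero.mp h2) hne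
  · have h3 : ori f.z f.b f'.b ≠ 0 :=
      hgp _ (hE.mem _ hf).1 _ (hE.mem _ hf).2.1 _ (hE.mem f' hf').2.1 hne
        (hE.zne _ hf f' hf').1 (Ne.symm hb)
    refine hxz (two_lines h3 (ori_ray' _ _ _) ?_)
    have := ori_seg h'
    rwa [hz] at this

lemma PW.y_own (hgp : GenPos P) (hE : StarSys P E) (hW : PW M E n e y) {i : ℕ} (hi : i < n)
    {f : Leaf} (hf : f ∈ E) (hz : f.z = (e i).z) : y i ∉ segment ℝ f.z f.b := by
  obtain ⟨t, ht, hy⟩ := hW.ray i hi
  rw [hy]
  exact ray_star hgp hE (hW.memE i hi) hf hz ht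

lemma mem_stars {x : Pt} : x ∈ stars E ↔ ∃ f ∈ E, x ∈ segment ℝ f.z f.b := by
  unfold stars
  simp only [Set.mem_iUnion, exists_prop]

lemma mem_starAt {c x : Pt} : x ∈ starAt E c ↔ ∃ f ∈ E, f.z = c ∧ x ∈ segment ℝ f.z f.b := by
  unfold starAt
  simp only [Set.mem_iUnion, exists_prop]

/-- one new wall -/
lemma PW.extend (hgp : GenPos P) (hE : StarSys P E) (hP : ∀ p ∈ P, p ∈ Om M)
    (hW : PW M E n e y) {f : Leaf} (hf : f ∈ E) (hfn : ∀ i < n, (e i).z ≠ f.z)
    (hlink : ∀ i, i + 1 = n → (y i ∉ Om M ∨ y i ∈ segment ℝ f.z f.b ∨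
      ∃ k < i, y i ∈ cw e y k ∨ y i ∈ starAt E (e k).z)) :
    ∃ e' y', PW M E (n + 1) e' y' := by
  have hne := (star_ne hE hf).1
  have hzP := (hE.mem f hf).1
  set z := f.z with hz
  set v := f.z - f.b with hv
  have hv0 : v ≠ 0 := sub_ne_zero.mpr hne
  let C : Set Pt := (Om M)ᶜ ∪ (stars E ∪ ⋃ i ∈ Finset.range n, cw e y i)
  have hCc : IsClosed C := by
    refine IsClosed.union Metric.isOpen_ball.isClosed_compl (IsClosed.union ?_ ?_)
    · exact isClosed_biUnion_finset fun f _ => isClosed_seg _ _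
    · exact isClosed_biUnion_finset fun f _ => isClosed_seg _ _
  have hCn : ∀ x, x ∉ C ↔ x ∈ Om M ∧ x ∉ stars E ∧ ∀ i < n, x ∉ cw e y i := by
    intro x
    simp only [C, Set.mem_union, Set.mem_compl_iff, Set.mem_iUnion, Finset.mem_range, not_or,
      not_not, not_exists]
  have hCy : ∀ x, x ∈ C ↔ x ∉ Om M ∨ x ∈ stars E ∨ ∃ i < n, x ∈ cw e y i := by
    intro x
    simp only [C, Set.mem_union, Set.mem_compl_iff, Set.mem_iUnion, Finset.mem_range,
      exists_prop]
  -- the closed set of the far pieces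
  classical
  let C' : Set Pt := (Om M)ᶜ ∪ ((⋃ f' ∈ E.filter (fun f' => f'.z ≠ z), segment ℝ f'.z f'.b) ∪
    ⋃ i ∈ Finset.range n, cw e y i)
  have hCc' : IsClosed C' := by
    refine IsClosed.union Metric.isOpen_ball.isClosed_compl (IsClosed.union ?_ ?_)
    · exact isClosed_biUnion_finset fun f _ => isClosed_seg _ _
    · exact isClosed_biUnion_finset fun f _ => isClosed_seg _ _
  have hzC' : z ∉ C' := by
    simp only [C', Set.mem_union, Set.mem_compl_iff, Set.mem_iUnion, Finset.mem_range, not_or,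
      not_not, not_exists, Finset.mem_filter, and_imp]
    refine ⟨hP _ hzP, ?_, ?_⟩
    · intro f' hf' hne' hx
      rcases P_star hgp hE hf' hzP hx with h1 | h1
      · exact hne' h1.symm
      · exact (hE.zne f hf f' hf').1 h1
    · intro i hi hx
      exact hfn i hi (hW.P_cw hgp hE hi hzP hx).symm
  have hev : ∀ᶠ s : ℝ in 𝓝 0, z + s • v ∉ C' := by
    have hcont : Continuous fun s : ℝ => z + s • v := by fun_prop
    have h0 : (fun s : ℝ => z + s • v) 0 ∈ C'ᶜ := by
      simp only [zero_smul, add_zero]; exact hzC'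
    exact hcont.continuousAt.eventually_mem (hCc'.isOpen_compl.mem_nhds h0)
  obtain ⟨ε, hε, hεv⟩ := Metric.eventually_nhds_iff.mp hev
  have hfree : ∀ s, 0 < s → s ≤ ε / 2 → z + s • v ∉ C := by
    intro s hs hsε
    have h1 : z + s • v ∉ C' := by
      refine hεv ?_
      rw [Real.dist_eq, sub_zero, abs_of_pos hs]
      linarith
    rw [hCn]
    simp only [C', Set.mem_union, Set.mem_compl_iff, Set.mem_iUnion, Finset.mem_range, not_or,
      not_not, not_exists, Finset.mem_filter, and_imp] at h1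
    obtain ⟨a1, a2, a3⟩ := h1
    refine ⟨a1, ?_, a3⟩
    rw [mem_stars]
    rintro ⟨f', hf', hx⟩
    by_cases hzz : f'.z = z
    · exact ray_star hgp hE hf hf' hzz hs hx
    · exact a2 f' hf' hzz hx
  obtain ⟨T, hT, hTC⟩ := leavesR M z hv0
  have hTC' : z + T • v ∈ C := (hCy _).mpr (Or.inl hTC)
  obtain ⟨t, ht0, -, htC, htf⟩ := first_hit hCc (half_pos hε) hT hfree hTC'
  let e' : ℕ → Leaf := Function.update e n f
  let y' : ℕ → Pt := Function.update y n (z + t • v)
  have he : ∀ i < n, e' i = e i := fun i hi => Function.update_of_ne hi.ne _ _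
  have hy : ∀ i < n, y' i = y i := fun i hi => Function.update_of_ne hi.ne _ _
  have hen : e' n = f := Function.update_self _ _ _
  have hyn : y' n = z + t • v := Function.update_self _ _ _
  have hcw : ∀ i < n, cw e' y' i = cw e y i := by
    intro i hi
    unfold cw
    rw [he i hi, hy i hi]
  refine ⟨e', y', ⟨?_, ?_, ?_, ?_, ?_, ?_⟩⟩
  · intro i hi
    rcases Nat.lt_succ_iff_lt_or_eq.mp hi with h | rfl
    · rw [he i h]; exact hW.memE i h
    · rw [hen]; exact hf
  · intro i hi j hj hij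
    rcases Nat.lt_succ_iff_lt_or_eq.mp hi with h | h <;>
      rcases Nat.lt_succ_iff_lt_or_eq.mp hj with h' | h'
    · rw [he i h, he j h'] at hij
      exact hW.inj i h j h' hij
    · rw [he i h, h', hen] at hij
      exact absurd hij (hfn i h)
    · rw [he j h', h, hen] at hij
      exact absurd hij.symm (hfn j h')
    · omega
  · intro i hi
    rcases Nat.lt_succ_iff_lt_or_eq.mp hi with h | h
    · rw [he i h, hy i h]; exact hW.ray i h
    · rw [h, hen, hyn]
      exact ⟨t, ht0, rfl⟩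
  · intro i hi x hx
    rcases Nat.lt_succ_iff_lt_or_eq.mp hi with h | h
    · rw [he i h, hy i h] at hx
      obtain ⟨a1, a2, a3⟩ := hW.free i h x hx
      refine ⟨a1, a2, fun k hk => ?_⟩
      rw [hcw k (hk.trans h)]
      exact a3 k hk
    · rw [h, hen, hyn, openSegment_eq_image'] at hx
      obtain ⟨θ, ⟨hθ0, hθ1⟩, hx⟩ := hx
      have hx' : x = z + (θ * t) • v := by
        rw [← hx]
        simp only [← hz, add_sub_cancel_left, smul_smul]
      rw [hx']
      have h1 := htf (θ * t) (by positivity) (by nlinarith)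
      rw [hCn] at h1
      obtain ⟨a1, a2, a3⟩ := h1
      refine ⟨a1, a2, fun k hk => ?_⟩
      rw [hcw k (by omega)]
      exact a3 k (by omega)
  · intro i hi
    have hin : i < n := by omega
    have key : ∀ g : Leaf, (y i ∉ Om M ∨ y i ∈ segment ℝ g.z g.b ∨
        ∃ k < i, y i ∈ cw e y k ∨ y i ∈ starAt E (e k).z) →
        (y' i ∉ Om M ∨ y' i ∈ segment ℝ g.z g.b ∨
        ∃ k < i, y' i ∈ cw e' y' k ∨ y' i ∈ starAt E (e' k).z) := by
      intro g hg
      rw [hy i hin]
      rcases hg with h1 | h1 | ⟨k, hk, h1⟩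
      · exact Or.inl h1
      · exact Or.inr (Or.inl h1)
      · refine Or.inr (Or.inr ⟨k, hk, ?_⟩)
        rw [hcw k (hk.trans hin), he k (hk.trans hin)]
        exact h1
    rcases Nat.lt_succ_iff_lt_or_eq.mp hi with h | h
    · have := hW.hit i h
      rw [he (i + 1) h]
      exact key _ this
    · have := hlink i h
      rw [h, hen]
      exact key _ this
  · intro i hi
    rcases Nat.lt_succ_iff_lt_or_eq.mp hi with h | h
    · rw [hy i h]
      rcases hW.last i h with h1 | h1 | ⟨k, hk, h1⟩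
      · exact Or.inl h1
      · exact Or.inr (Or.inl h1)
      · refine Or.inr (Or.inr ⟨k, hk, ?_⟩)
        rw [hcw k (hk.trans h)]
        exact h1
    · rw [h, hyn]
      rcases (hCy _).mp htC with h1 | h1 | ⟨k, hk, h1⟩
      · exact Or.inl h1
      · exact Or.inr (Or.inl h1)
      · refine Or.inr (Or.inr ⟨k, hk, ?_⟩)
        rw [hcw k hk]
        exact h1

/-- the number of walls is bounded -/
lemma PW.le_card (hW : PW M E n e y) : n ≤ E.card := by
  classical
  have h1 : ((Finset.range n).image e).card = n := by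
    rw [Finset.card_image_of_injOn, Finset.card_range]
    intro i hi j hj hij
    simp only [Finset.coe_range, Set.mem_Iio] at hi hj
    exact hW.inj i hi j hj (by rw [hij])
  rw [← h1]
  refine Finset.card_le_card ?_
  intro f hf
  simp only [Finset.mem_image, Finset.mem_range] at hf
  obtain ⟨i, hi, rfl⟩ := hf
  exact hW.memE i hi

lemma exists_max (M : ℝ) (E : Finset Leaf) :
    ∃ n e y, PW M E n e y ∧ ∀ e' y', ¬ PW M E (n + 1) e' y' := by
  by_contra hcon
  push Not at hcon
  have hall : ∀ n, ∃ e y, PW M E n e y := by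
    intro n
    induction n with
    | zero =>
      refine ⟨fun _ => ⟨0, 0, 0, 0⟩, fun _ => 0, ⟨?_, ?_, ?_, ?_, ?_, ?_⟩⟩
      · intro i hi; omega
      · intro i hi; omega
      · intro i hi; omega
      · intro i hi; omega
      · intro i hi; omega
      · intro i hi; omega
    | succ n ih =>
      obtain ⟨e, y, h⟩ := ih
      exact hcon n e y h
  obtain ⟨e, y, h⟩ := hall (E.card + 1)
  have := h.le_card
  omega

end DfsAux

open DfsAux

theorem exists_walls {P : Finset Pt} {E : Finset Leaf} {M : ℝ} (hgp : GenPos P)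
    (hE : StarSys P E) (hP : ∀ p ∈ P, p ∈ Om M) : ∃ m e y, Walls M E m e y := by
  obtain ⟨n, e, y, hW, hmax⟩ := exists_max M E
  -- a star edge hit by the wall `i` whose centre is already covered
  have hcov' : ∀ i < n, ∀ f ∈ E, y i ∈ segment ℝ f.z f.b → (∃ k ≤ i, (e k).z = f.z) →
      ∃ k < i, y i ∈ starAt E (e k).z := by
    rintro i hi f hf hx ⟨k, hk, hkf⟩
    refine ⟨k, ?_, mem_starAt.mpr ⟨f, hf, hkf.symm, hx⟩⟩
    refine lt_of_le_of_ne hk ?_
    rintro rfl
    exact hW.y_own hgp hE hi hf hkf.symm hx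
  have hcov : ∀ f ∈ E, ∃ i < n, (e i).z = f.z := by
    by_contra hcon
    push Not at hcon
    obtain ⟨f₀, hf₀, hf₀n⟩ := hcon
    have hex : ∃ f ∈ E, (∀ i < n, (e i).z ≠ f.z) ∧
        ∀ i, i + 1 = n → (y i ∉ Om M ∨ y i ∈ segment ℝ f.z f.b ∨
          ∃ k < i, y i ∈ cw e y k ∨ y i ∈ starAt E (e k).z) := by
      by_cases hc : ∃ i, i + 1 = n ∧ ∃ f ∈ E, y i ∈ segment ℝ f.z f.b ∧ ∀ k < n, (e k).z ≠ f.z
      · obtain ⟨i, hi, f, hf, hx, hfn⟩ := hc
        refine ⟨f, hf, hfn, fun j hj => ?_⟩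
        have : j = i := by omega
        subst this
        exact Or.inr (Or.inl hx)
      · refine ⟨f₀, hf₀, hf₀n, fun i hi => ?_⟩
        rcases hW.last i (by omega) with h1 | h1 | ⟨k, hk, h1⟩
        · exact Or.inl h1
        · obtain ⟨f, hf, hx⟩ := mem_stars.mp h1
          have h2 : ∃ k < n, (e k).z = f.z := by
            by_contra h3
            push Not at h3
            exact hc ⟨i, hi, f, hf, hx, h3⟩
          obtain ⟨k, hk, hkf⟩ := h2
          obtain ⟨k', hk', h4⟩ := hcov' i (by omega) f hf hx ⟨k, by omega, hkf⟩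
          exact Or.inr (Or.inr ⟨k', hk', Or.inr h4⟩)
        · exact Or.inr (Or.inr ⟨k, hk, Or.inl h1⟩)
    obtain ⟨f, hf, hfn, hlink⟩ := hex
    obtain ⟨e', y', h'⟩ := hW.extend hgp hE hP hf hfn hlink
    exact hmax e' y' h'
  refine ⟨n, e, y, ⟨hW.memE, hW.inj, hcov, hW.ray, hW.free, ?_⟩⟩
  intro i hi
  by_cases hi1 : i + 1 < n
  · rcases hW.hit i hi1 with h1 | h1 | h1
    · exact Or.inl h1
    · exact Or.inr (Or.inl ⟨hi1, h1⟩)
    · exact Or.inr (Or.inr h1)
  · rcases hW.last i hi with h1 | h1 | ⟨k, hk, h1⟩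
    · exact Or.inl h1
    · obtain ⟨f, hf, hx⟩ := mem_stars.mp h1
      obtain ⟨k, hk, hkf⟩ := hcov f hf
      obtain ⟨k', hk', h4⟩ := hcov' i hi f hf hx ⟨k, by omega, hkf⟩
      exact Or.inr (Or.inr ⟨k', hk', Or.inr h4⟩)
    · exact Or.inr (Or.inr ⟨k, hk, Or.inl h1⟩)

end F059
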