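import Pool.Agent.Lib.F059.CDefs

/-!
# F059B.Dirs: the two neighbouring directions

S in general position with at least 3 points, a ≠ b arbitrary points, u = b - a.  det(v,w) = v.1 w.2 - v.2 w.1; ori a b x - ori a b y = det(b-a, x-y).
CASE A: some difference w = q - p ≠ 0 of two points of S is parallel to u: u = λ w; if λ < 0 exchange p and q.  Take
a1 = a2 = p, b1 = b2 = q, κ1 = κ2 = λ/2.  (ii), (iii) are clear: ori a b x - ori a b y = λ (ori p q x - ori p q y).
CASE B: no difference is parallel: det(u,w) ≠ 0 for all w = q - p, p ≠ q ∈ S.  Put w' = w/det(u,w), t(w) = ⟨u,w'⟩ (finite set of pairs (p,q); t(-w) = t(w)).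
w' = (t u + u^⊥)/|u|^2 with u^⊥ = (-u.2, u.1), so det(w1', w2') = (t(w1) - t(w2))/|u|^2.  Let w1 have maximal t, w2 minimal t; choose the order of the two
points so that det(u,w1) > 0 and det(u,w2) < 0 (possible: w and -w).  (a1,b1), (a2,b2) := the two pairs, b_j - a_j = w_j.
(i) w1' - w2' = (t1 - t2) u/|u|^2, w1' = w1/det(u,w1), -w2' = w2/(-det(u,w2)) = w2/|det(u,w2)|: positive combination of w1, w2 which is (t1-t2)/|u|^2 · u;
t1 > t2, since otherwise all differences would be parallel (det(w1',w2')=0 for all), but three points not on a line have non-parallel differences.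
(ii) w = s' - s with det(u,w) > 0: det(w1,w) = det(u,w1) det(u,w) (t1 - t(w))/|u|^2 ≥ 0, det(w2,w) = det(u,w2) det(u,w) (t2 - t(w))/|u|^2 ≥ 0 (two factors ≤ 0).
(iii) det(u,w) = 0 only for w = 0.
-/

namespace F059

namespace DirsAux

/-- the determinant -/
def dt (v w : Pt) : ℝ := v.1 * w.2 - v.2 * w.1

/-- the scalar product -/
def sp (v w : Pt) : ℝ := v.1 * w.1 + v.2 * w.2

lemma ori_sub (a b x y : Pt) : ori a b x - ori a b y = dt (b - a) (x - y) := by
  unfold ori dt
  simp only [Prod.fst_sub, Prod.snd_sub]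
  ring

lemma dt_swap (v w : Pt) : dt v w = - dt w v := by unfold dt; ring

lemma dt_neg (v p q : Pt) : dt v (p - q) = - dt v (q - p) := by
  unfold dt
  simp only [Prod.fst_sub, Prod.snd_sub]
  ring

/-- `|u|^2 det(w1, w2) = det(u, w1) det(u, w2) (t1 - t2)`, with `t = ⟨u, w⟩/det(u, w)` -/
lemma dt_mul (u w1 w2 : Pt) :
    sp u u * dt w1 w2 = sp u w1 * dt u w2 - sp u w2 * dt u w1 := by
  unfold sp dt
  ring

end DirsAux

open DirsAux

theorem exists_dirs {S : Finset Pt} (hgp : GenPos S) (h3 : 3 ≤ S.card) {a b : Pt} (hab : a ≠ b) :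
    ∃ a1 ∈ S, ∃ b1 ∈ S, ∃ a2 ∈ S, ∃ b2 ∈ S, a1 ≠ b1 ∧ a2 ≠ b2 ∧
      (∃ κ1 > 0, ∃ κ2 > 0, ∀ x y : Pt, ori a b x - ori a b y =
        κ1 * (ori a1 b1 x - ori a1 b1 y) + κ2 * (ori a2 b2 x - ori a2 b2 y)) ∧
      (∀ s ∈ S, ∀ s' ∈ S, ori a b s < ori a b s' →
        ori a1 b1 s ≤ ori a1 b1 s' ∧ ori a2 b2 s ≤ ori a2 b2 s') ∧
      (∀ s ∈ S, ∀ s' ∈ S, ori a b s = ori a b s' →
        ori a1 b1 s = ori a1 b1 s' ∧ ori a2 b2 s = ori a2 b2 s') := by
  classical
  have huu : 0 < sp (b - a) (b - a) := by
    unfold sp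
    rcases eq_or_ne (b - a).1 0 with h | h
    · have h2 : (b - a).2 ≠ 0 := by
        intro h2
        apply hab
        have h1 : b - a = 0 := Prod.ext h h2
        exact (sub_eq_zero.1 h1).symm
      have := mul_self_pos.2 h2
      rw [h]
      linarith
    · have := mul_self_pos.2 h
      have := mul_self_nonneg (b - a).2
      linarith
  generalize hu : b - a = u at huu
  have hd : ∀ x y : Pt, ori a b x - ori a b y = dt u (x - y) := by
    intro x y
    rw [ori_sub, hu]
  by_cases hA : ∃ p ∈ S, ∃ q ∈ S, p ≠ q ∧ dt u (q - p) = 0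
  · -- case A
    obtain ⟨p0, hp0, q0, hq0, hne0, hdt0⟩ := hA
    -- `⟨u, q - p⟩ ≠ 0`
    have hsp0 : sp u (q0 - p0) ≠ 0 := by
      intro hs
      have e1 : sp u u * (q0 - p0).1 = u.1 * sp u (q0 - p0) - u.2 * dt u (q0 - p0) := by
        unfold sp dt
        ring
      have e2 : sp u u * (q0 - p0).2 = u.2 * sp u (q0 - p0) + u.1 * dt u (q0 - p0) := by
        unfold sp dt
        ring
      rw [hs, hdt0, mul_zero, mul_zero, sub_zero] at e1
      rw [hs, hdt0, mul_zero, mul_zero, add_zero] at e2
      have h1 : (q0 - p0).1 = 0 := (mul_eq_zero.1 e1).resolve_left huu.ne'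
      have h2 : (q0 - p0).2 = 0 := (mul_eq_zero.1 e2).resolve_left huu.ne'
      have h3 : q0 - p0 = 0 := Prod.ext h1 h2
      exact hne0 (sub_eq_zero.1 h3).symm
    obtain ⟨p, hp, q, hq, hne, hdt, hsp⟩ : ∃ p ∈ S, ∃ q ∈ S, p ≠ q ∧ dt u (q - p) = 0 ∧
        0 < sp u (q - p) := by
      rcases lt_or_gt_of_ne hsp0 with h | h
      · refine ⟨q0, hq0, p0, hp0, hne0.symm, ?_, ?_⟩
        · rw [dt_neg, hdt0, neg_zero]
        · have : sp u (p0 - q0) = - sp u (q0 - p0) := by
            unfold sp
            simp only [Prod.fst_sub, Prod.snd_sub]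
            ring
          rw [this]
          linarith
      · exact ⟨p0, hp0, q0, hq0, hne0, hdt0, h⟩
    -- `dt u v = lam * dt (q - p) v` with `lam = ⟨u,u⟩/⟨u, q-p⟩`
    have key : ∀ v : Pt, sp u (q - p) * dt u v = sp u u * dt (q - p) v := by
      intro v
      have := dt_mul u (q - p) v
      rw [hdt, mul_zero, sub_zero] at this
      exact this.symm
    have key2 : ∀ x y : Pt, ori a b x - ori a b y =
        (sp u u / sp u (q - p)) * (ori p q x - ori p q y) := by
      intro x y
      rw [hd, ori_sub, div_mul_eq_mul_div, eq_div_iff hsp.ne', mul_comm, key]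
    have hlam : 0 < sp u u / sp u (q - p) := div_pos huu hsp
    refine ⟨p, hp, q, hq, p, hp, q, hq, hne, hne, ⟨sp u u / sp u (q - p) / 2, by positivity,
      sp u u / sp u (q - p) / 2, by positivity, ?_⟩, ?_, ?_⟩
    · intro x y
      rw [key2]
      ring
    · intro s _ s' _ hlt
      have h1 := key2 s' s
      have h2 : 0 < (sp u u / sp u (q - p)) * (ori p q s' - ori p q s) := by linarith
      have h4 : 0 < ori p q s' - ori p q s := (mul_pos_iff_of_pos_left hlam).1 h2
      exact ⟨by linarith, by linarith⟩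
    · intro s _ s' _ heq
      have h1 := key2 s' s
      have h2 : (sp u u / sp u (q - p)) * (ori p q s' - ori p q s) = 0 := by linarith
      have h4 : ori p q s' - ori p q s = 0 := (mul_eq_zero.1 h2).resolve_left hlam.ne'
      exact ⟨by linarith, by linarith⟩
  · -- case B
    have hB : ∀ p ∈ S, ∀ q ∈ S, p ≠ q → dt u (q - p) ≠ 0 := by
      intro p hp q hq hne h
      exact hA ⟨p, hp, q, hq, hne, h⟩
    -- ordered pairs with positive determinant
    let W : Finset (Pt × Pt) := (S ×ˢ S).filter (fun w => 0 < dt u (w.2 - w.1))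
    let t : Pt × Pt → ℝ := fun w => sp u (w.2 - w.1) / dt u (w.2 - w.1)
    have hW : ∀ w ∈ W, w.1 ∈ S ∧ w.2 ∈ S ∧ 0 < dt u (w.2 - w.1) := by
      intro w hw
      rw [Finset.mem_filter, Finset.mem_product] at hw
      exact ⟨hw.1.1, hw.1.2, hw.2⟩
    have hpair : ∀ p ∈ S, ∀ q ∈ S, p ≠ q → (p, q) ∈ W ∨ (q, p) ∈ W := by
      intro p hp q hq hne
      rcases lt_or_gt_of_ne (hB p hp q hq hne) with h | h
      · right
        rw [Finset.mem_filter, Finset.mem_product]
        refine ⟨⟨hq, hp⟩, ?_⟩
        rw [dt_neg]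
        linarith
      · left
        rw [Finset.mem_filter, Finset.mem_product]
        exact ⟨⟨hp, hq⟩, h⟩
    obtain ⟨x, y, z, hx, hy, hz, hxy, hxz, hyz⟩ := Finset.two_lt_card_iff.1 (by omega : 2 < S.card)
    have hWne : W.Nonempty := by
      rcases hpair x hx y hy hxy with h | h
      · exact ⟨_, h⟩
      · exact ⟨_, h⟩
    obtain ⟨w1, hw1, hmax⟩ := Finset.exists_max_image W t hWne
    obtain ⟨w2, hw2, hmin⟩ := Finset.exists_min_image W t hWne
    obtain ⟨h11, h12, h13⟩ := hW w1 hw1
    obtain ⟨h21, h22, h23⟩ := hW w2 hw2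
    -- the formula
    have hform : ∀ w ∈ W, ∀ w' ∈ W, sp u u * dt (w.2 - w.1) (w'.2 - w'.1) =
        dt u (w.2 - w.1) * dt u (w'.2 - w'.1) * (t w - t w') := by
      intro w hw w' hw'
      obtain ⟨-, -, h1⟩ := hW w hw
      obtain ⟨-, -, h2⟩ := hW w' hw'
      rw [dt_mul]
      simp only [t]
      field_simp
    -- t1 > t2
    have ht : t w2 < t w1 := by
      by_contra hcon
      have hall : ∀ w ∈ W, ∀ w' ∈ W, t w = t w' := by
        intro w hw w' hw'
        have := hmax w hw
        have := hmax w' hw'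
        have := hmin w hw
        have := hmin w' hw'
        rw [not_lt] at hcon
        linarith
      have hz' : ∀ w ∈ W, ∀ w' ∈ W, dt (w.2 - w.1) (w'.2 - w'.1) = 0 := by
        intro w hw w' hw'
        have := hform w hw w' hw'
        rw [hall w hw w' hw', sub_self, mul_zero] at this
        exact (mul_eq_zero.1 this).resolve_left huu.ne'
      have hpar : ∀ p ∈ S, ∀ q ∈ S, p ≠ q → ∀ p' ∈ S, ∀ q' ∈ S, p' ≠ q' →
          dt (q - p) (q' - p') = 0 := by
        intro p hp q hq hne p' hp' q' hq' hne'
        rcases hpair p hp q hq hne with h | h <;> rcases hpair p' hp' q' hq' hne' with h' | h'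
        · exact hz' _ h _ h'
        · have := hz' _ h _ h'
          rw [dt_neg]
          simp only at this
          rw [this, neg_zero]
        · have := hz' _ h _ h'
          simp only at this
          rw [dt_swap, dt_neg, dt_swap, this]
          simp
        · have := hz' _ h _ h'
          simp only at this
          rw [dt_neg, dt_swap, dt_neg, dt_swap, this]
          simp
      have h0 := hpar x hx y hy hxy x hx z hz hxz
      apply hgp x hx y hy z hz hxy hxz hyz
      unfold dt at h0
      unfold ori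
      simp only [Prod.fst_sub, Prod.snd_sub] at h0
      linarith
    refine ⟨w1.1, h11, w1.2, h12, w2.2, h22, w2.1, h21, ?_, ?_, ?_, ?_, ?_⟩
    · intro h
      rw [h, sub_self] at h13
      unfold dt at h13
      simp at h13
    · intro h
      rw [h, sub_self] at h23
      unfold dt at h23
      simp at h23
    · -- positive combination
      refine ⟨sp u u / (t w1 - t w2) / dt u (w1.2 - w1.1), by
        have : 0 < t w1 - t w2 := by linarith
        positivity, sp u u / (t w1 - t w2) / dt u (w2.2 - w2.1), by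
        have : 0 < t w1 - t w2 := by linarith
        positivity, ?_⟩
      intro x y
      rw [hd, ori_sub, ori_sub]
      have ht' : t w1 - t w2 ≠ 0 := by
        have : 0 < t w1 - t w2 := by linarith
        exact this.ne'
      generalize x - y = v
      have e0 : w2.1 - w2.2 = -(w2.2 - w2.1) := by abel
      rw [e0]
      simp only [t] at ht' ⊢
      generalize w1.2 - w1.1 = v1 at *
      generalize w2.2 - w2.1 = v2 at *
      have hneg : dt (-v2) v = - dt v2 v := by
        unfold dt
        simp only [Prod.fst_neg, Prod.snd_neg]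
        ring
      rw [hneg]
      have f1 := dt_mul u v1 v
      have f2 := dt_mul u v2 v
      have g1 : sp u u * dt v1 v / dt u v1 = (sp u v1 / dt u v1) * dt u v - sp u v := by
        rw [f1]
        field_simp
      have g2 : sp u u * dt v2 v / dt u v2 = (sp u v2 / dt u v2) * dt u v - sp u v := by
        rw [f2]
        field_simp
      have e3 : sp u u / (sp u v1 / dt u v1 - sp u v2 / dt u v2) / dt u v1 * dt v1 v +
          sp u u / (sp u v1 / dt u v1 - sp u v2 / dt u v2) / dt u v2 * -dt v2 v =
          (sp u u * dt v1 v / dt u v1 - sp u u * dt v2 v / dt u v2) /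
            (sp u v1 / dt u v1 - sp u v2 / dt u v2) := by
        field_simp
        ring
      rw [e3, g1, g2, eq_div_iff ht']
      ring
    · intro s hs s' hs' hlt
      have hlt' : 0 < dt u (s' - s) := by
        rw [← hd]
        linarith
      have hmem : (s, s') ∈ W := by
        rw [Finset.mem_filter, Finset.mem_product]
        exact ⟨⟨hs, hs'⟩, hlt'⟩
      have k1 := hform w1 hw1 _ hmem
      have k2 := hform w2 hw2 _ hmem
      simp only at k1 k2
      have m1 := hmax _ hmem
      have m2 := hmin _ hmem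
      constructor
      · have e1 := ori_sub w1.1 w1.2 s' s
        have : 0 ≤ sp u u * dt (w1.2 - w1.1) (s' - s) := by
          rw [k1]
          exact mul_nonneg (mul_nonneg h13.le hlt'.le) (by linarith)
        have := nonneg_of_mul_nonneg_right this huu
        linarith
      · have e1 := ori_sub w2.2 w2.1 s' s
        have : 0 ≤ sp u u * -dt (w2.2 - w2.1) (s' - s) := by
          rw [mul_neg, k2, ← mul_neg]
          exact mul_nonneg (mul_nonneg h23.le hlt'.le) (by linarith)
        have h4 := nonneg_of_mul_nonneg_right this huu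
        have h5 : dt (w2.1 - w2.2) (s' - s) = -dt (w2.2 - w2.1) (s' - s) := by
          unfold dt
          simp only [Prod.fst_sub, Prod.snd_sub]
          ring
        linarith
    · intro s hs s' hs' heq
      have : s = s' := by
        by_contra hne
        apply hB s hs s' hs' hne
        rw [← hd]
        linarith
      rw [this]
      exact ⟨rfl, rfl⟩

end F059
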