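import Pool.Agent.Lib.F059.Conv

/-!
# F059D.DoorConn: from the connected complement of Y to the connectivity of the doors

X = wall system (closed, (*)), Y ⊆ X the system with openings, X \ Y (inside the square) is covered by
open segments (p t, q t) (t : ι, the openings), which are contained in X, and which have cells A t, B t
of X on their two sides (`SideCells`).  Let κ be a property of cells with κ (A t) ↔ κ (B t) for all t.
If Om M \ Y is preconnected, then κ has the same value for all cells.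
PROOF.  U = Om M \ Y.  G = {x ∈ U : ∃ r > 0, ∀ a ∈ ball x r, a ∈ Om M → a ∉ X → κ (cell M X a)}, and G' the same with
¬ κ.  Both are relatively open in U (triangle inequality; G = U ∩ open set {x : ∃ r > 0, ...}).
G ∪ G' = U: for x ∉ X: cell M X x is open and contains x, and for a in it cell a = cell x (`cell_eq`); so
x ∈ G or x ∈ G'.  For x ∈ X \ Y: x in an open segment (p t, q t); near x a point a ∉ X is not on the line
p t q t (the points of the line near x are in the open segment ⊆ X), so a ∈ A t or a ∈ B t by SideCells,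
and cell a = A t or B t (`cell_eq`); κ (A t) ↔ κ (B t).
G ∩ G' = ∅: every ball around x ∈ U contains a point a ∈ Om M \ X (x itself if x ∉ X; if x is in an
opening: points of A t close to x, on the left of the line; A t is disjoint from X).
U preconnected: if both G, G' met U, they would have a common point.  So one of them is empty, and
u ∈ Om M \ X ⊆ U belongs to G iff κ (cell u).
-/

namespace F059

namespace DoorConnAux

/-- close to a point of the open segment the points of the line are in the open segment -/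
lemma near_line {p q x : Pt} (hpq : p ≠ q) (hx : x ∈ openSegment ℝ p q) :
    ∃ r > 0, ∀ a ∈ Metric.ball x r, ori p q a = 0 → a ∈ openSegment ℝ p q := by
  set N : ℝ := (q.1 - p.1) ^ 2 + (q.2 - p.2) ^ 2 with hN
  have hN0 : 0 < N := by
    rcases eq_or_ne p.1 q.1 with h1 | h1
    · have h2 : p.2 ≠ q.2 := fun h2 => hpq (Prod.ext h1 h2)
      have h3 : 0 < (q.2 - p.2) ^ 2 := by
        have : q.2 - p.2 ≠ 0 := sub_ne_zero.2 (Ne.symm h2)
        positivity
      have h4 := sq_nonneg (q.1 - p.1)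
      linarith
    · have h3 : 0 < (q.1 - p.1) ^ 2 := by
        have : q.1 - p.1 ≠ 0 := sub_ne_zero.2 (Ne.symm h1)
        positivity
      have h4 := sq_nonneg (q.2 - p.2)
      linarith
  let τ : Pt → ℝ := fun a => ((a.1 - p.1) * (q.1 - p.1) + (a.2 - p.2) * (q.2 - p.2)) / N
  have hτ : Continuous τ := by
    show Continuous fun a : Pt => ((a.1 - p.1) * (q.1 - p.1) + (a.2 - p.2) * (q.2 - p.2)) / N
    fun_prop
  have hop : IsOpen {a : Pt | 0 < τ a ∧ τ a < 1} :=
    (isOpen_lt continuous_const hτ).inter (isOpen_lt hτ continuous_const)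
  have hxin : x ∈ {a : Pt | 0 < τ a ∧ τ a < 1} := by
    obtain ⟨s, t, hs, ht, hst, rfl⟩ := hx
    have hs' : s = 1 - t := by linarith
    have e : τ (s • p + t • q) = t := by
      show (((s • p + t • q).1 - p.1) * (q.1 - p.1) +
        ((s • p + t • q).2 - p.2) * (q.2 - p.2)) / N = t
      rw [div_eq_iff hN0.ne', hN, hs']
      simp only [Prod.fst_add, Prod.snd_add, Prod.smul_fst, Prod.smul_snd, smul_eq_mul]
      ring
    rw [Set.mem_ofPred_eq, e]
    exact ⟨ht, by linarith⟩
  obtain ⟨r, hr, hball⟩ := Metric.isOpen_iff.1 hop x hxin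
  refine ⟨r, hr, fun a ha h0 => ?_⟩
  obtain ⟨h1, h2⟩ := hball ha
  refine ⟨1 - τ a, τ a, by linarith, h1, by ring, ?_⟩
  have h3 : (q.1 - p.1) * (a.2 - p.2) = (q.2 - p.2) * (a.1 - p.1) := by
    unfold ori at h0
    linarith
  have h4 : τ a * N = (a.1 - p.1) * (q.1 - p.1) + (a.2 - p.2) * (q.2 - p.2) :=
    div_mul_cancel₀ _ hN0.ne'
  ext
  · simp only [Prod.fst_add, Prod.smul_fst, smul_eq_mul]
    have h5 : (τ a * (q.1 - p.1) - (a.1 - p.1)) * N = 0 := by
      rw [hN] at *
      linear_combination (q.1 - p.1) * h4 + (q.2 - p.2) * h3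
    have h6 := (mul_eq_zero.1 h5).resolve_right hN0.ne'
    linarith
  · simp only [Prod.snd_add, Prod.smul_snd, smul_eq_mul]
    have h5 : (τ a * (q.2 - p.2) - (a.2 - p.2)) * N = 0 := by
      rw [hN] at *
      linear_combination (q.2 - p.2) * h4 - (q.1 - p.1) * h3
    have h6 := (mul_eq_zero.1 h5).resolve_right hN0.ne'
    linarith

/-- points on the left of the line close to a point of the segment -/
lemma left_point {p q x : Pt} (hpq : p ≠ q) (hx : x ∈ openSegment ℝ p q) {r : ℝ} (hr : 0 < r) :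
    ∃ a ∈ Metric.ball x r, 0 < ori p q a := by
  have hN0 : 0 < (q.1 - p.1) ^ 2 + (q.2 - p.2) ^ 2 := by
    rcases eq_or_ne p.1 q.1 with h1 | h1
    · have h2 : p.2 ≠ q.2 := fun h2 => hpq (Prod.ext h1 h2)
      have h3 : 0 < (q.2 - p.2) ^ 2 := by
        have : q.2 - p.2 ≠ 0 := sub_ne_zero.2 (Ne.symm h2)
        positivity
      have h4 := sq_nonneg (q.1 - p.1)
      linarith
    · have h3 : 0 < (q.1 - p.1) ^ 2 := by
        have : q.1 - p.1 ≠ 0 := sub_ne_zero.2 (Ne.symm h1)
        positivity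
      have h4 := sq_nonneg (q.2 - p.2)
      linarith
  set n : Pt := (-(q.2 - p.2), q.1 - p.1) with hn
  set ε : ℝ := r / (‖n‖ + 1) with hε
  have hn1 : 0 < ‖n‖ + 1 := by
    have := norm_nonneg n
    linarith
  have hε0 : 0 < ε := div_pos hr hn1
  refine ⟨x + ε • n, ?_, ?_⟩
  · rw [Metric.mem_ball, dist_eq_norm, add_sub_cancel_left, norm_smul, Real.norm_eq_abs,
      abs_of_pos hε0, hε, div_mul_eq_mul_div, div_lt_iff₀ hn1]
    nlinarith
  · obtain ⟨s, t, hs, ht, hst, rfl⟩ := hx
    have hs' : s = 1 - t := by linarith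
    have e : ori p q (s • p + t • q + ε • n) = ε * ((q.1 - p.1) ^ 2 + (q.2 - p.2) ^ 2) := by
      rw [hs', hn]
      unfold ori
      simp only [Prod.fst_add, Prod.snd_add, Prod.smul_fst, Prod.smul_snd, smul_eq_mul]
      ring
    rw [e]
    exact mul_pos hε0 hN0

lemma key {ι : Type*} {M : ℝ} {X Y : Set Pt} (hX : IsClosed X) (hT : Tight M X)
    (hY : IsPreconnected (Om M \ Y)) (hYX : Y ⊆ X) (p q : ι → Pt)
    (hpq : ∀ t, p t ≠ q t)
    (hcov : ∀ x ∈ X, x ∉ Y → x ∈ Om M → ∃ t, x ∈ openSegment ℝ (p t) (q t))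
    (hsub : ∀ t, openSegment ℝ (p t) (q t) ⊆ X)
    (u v : ι → Pt) (hu : ∀ t, u t ∈ Om M) (hv : ∀ t, v t ∈ Om M)
    (hside : ∀ t, SideCells (p t) (q t) (cell M X (u t)) (cell M X (v t)))
    (κ : Set Pt → Prop) (hκ : ∀ t, κ (cell M X (u t)) ↔ κ (cell M X (v t)))
    {a b : Pt} (ha : a ∈ Om M) (haX : a ∉ X) (hb : b ∈ Om M) (hbX : b ∉ X)
    (hκa : κ (cell M X a)) : κ (cell M X b) := by
  by_contra hκb
  let O : (Set Pt → Prop) → Set Pt := fun P =>
    {x | ∃ r > 0, ∀ c ∈ Metric.ball x r, c ∈ Om M → c ∉ X → P (cell M X c)}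
  have hO : ∀ P, IsOpen (O P) := by
    intro P
    rw [Metric.isOpen_iff]
    rintro x ⟨r, hr, h⟩
    refine ⟨r, hr, fun y hy => ⟨r - dist y x, ?_, fun c hc => h c ?_⟩⟩
    · rw [Metric.mem_ball] at hy
      linarith
    · rw [Metric.mem_ball] at hc hy ⊢
      have := dist_triangle c y x
      linarith
  have hself : ∀ P, ∀ x ∈ O P, x ∈ Om M → x ∉ X → P (cell M X x) := by
    rintro P x ⟨r, hr, h⟩ hx hxX
    exact h x (Metric.mem_ball_self hr) hx hxX
  have hcover : Om M \ Y ⊆ O κ ∪ O (fun S => ¬ κ S) := by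
    rintro x ⟨hxO, hxY⟩
    by_cases hxX : x ∈ X
    · obtain ⟨t, ht⟩ := hcov x hxX hxY hxO
      obtain ⟨r1, hr1, h1⟩ := hside t x ht
      obtain ⟨r2, hr2, h2⟩ := near_line (hpq t) ht
      have h3 : ∀ c ∈ Metric.ball x (min r1 r2), c ∉ X →
          cell M X c = cell M X (u t) ∨ cell M X c = cell M X (v t) := by
        intro c hc hcX
        have hc1 : c ∈ Metric.ball x r1 := Metric.ball_subset_ball (min_le_left _ _) hc
        have hc2 : c ∈ Metric.ball x r2 := Metric.ball_subset_ball (min_le_right _ _) hc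
        rcases lt_trichotomy (ori (p t) (q t) c) 0 with h | h | h
        · exact Or.inr (cell_eq hX hT (hv t) ((h1 c hc1).2 h))
        · exact absurd (hsub t (h2 c hc2 h)) hcX
        · exact Or.inl (cell_eq hX hT (hu t) ((h1 c hc1).1 h))
      by_cases hk : κ (cell M X (u t))
      · left
        refine ⟨min r1 r2, lt_min hr1 hr2, fun c hc _ hcX => ?_⟩
        rcases h3 c hc hcX with h | h
        · rw [h]
          exact hk
        · rw [h]
          exact (hκ t).1 hk
      · right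
        refine ⟨min r1 r2, lt_min hr1 hr2, fun c hc _ hcX => ?_⟩
        rcases h3 c hc hcX with h | h
        · rw [h]
          exact hk
        · rw [h]
          exact fun h' => hk ((hκ t).2 h')
    · obtain ⟨r, hr, h⟩ := Metric.isOpen_iff.1 (cell_isOpen (M := M) hX x) x
        (mem_cell_self hxO hxX)
      by_cases hk : κ (cell M X x)
      · left
        refine ⟨r, hr, fun c hc _ _ => ?_⟩
        rw [cell_eq hX hT hxO (h hc)]
        exact hk
      · right
        refine ⟨r, hr, fun c hc _ _ => ?_⟩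
        rw [cell_eq hX hT hxO (h hc)]
        exact hk
  have haU : a ∈ Om M \ Y := ⟨ha, fun h => haX (hYX h)⟩
  have hbU : b ∈ Om M \ Y := ⟨hb, fun h => hbX (hYX h)⟩
  have ha1 : a ∈ O κ := by
    rcases hcover haU with h | h
    · exact h
    · exact absurd hκa (hself (fun S => ¬ κ S) a h ha haX)
  have hb1 : b ∈ O (fun S => ¬ κ S) := by
    rcases hcover hbU with h | h
    · exact absurd (hself κ b h hb hbX) hκb
    · exact h
  obtain ⟨x, ⟨hxO, hxY⟩, ⟨r1, hr1, h1⟩, ⟨r2, hr2, h2⟩⟩ :=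
    hY (O κ) (O fun S => ¬ κ S) (hO κ) (hO fun S => ¬ κ S) hcover ⟨a, haU, ha1⟩ ⟨b, hbU, hb1⟩
  obtain ⟨c, hc, hcO, hcX⟩ : ∃ c ∈ Metric.ball x (min r1 r2), c ∈ Om M ∧ c ∉ X := by
    by_cases hxX : x ∈ X
    · obtain ⟨t, ht⟩ := hcov x hxX hxY hxO
      obtain ⟨r3, hr3, h3⟩ := hside t x ht
      obtain ⟨c, hc, hc'⟩ := left_point (hpq t) ht (lt_min (lt_min hr1 hr2) hr3)
      have h4 := (h3 c (Metric.ball_subset_ball (min_le_right _ _) hc)).1 hc'
      exact ⟨c, Metric.ball_subset_ball (min_le_left _ _) hc, cell_sub _ h4,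
        Set.disjoint_left.1 (cell_disjoint (M := M) (u t)) h4⟩
    · exact ⟨x, Metric.mem_ball_self (lt_min hr1 hr2), hxO, hxX⟩
  exact h2 c (Metric.ball_subset_ball (min_le_right _ _) hc) hcO hcX
    (h1 c (Metric.ball_subset_ball (min_le_left _ _) hc) hcO hcX)

end DoorConnAux

theorem door_conn {ι : Type*} {M : ℝ} {X Y : Set Pt} (hX : IsClosed X) (hT : Tight M X)
    (hY : IsPreconnected (Om M \ Y)) (hYX : Y ⊆ X) (p q : ι → Pt)
    (hpq : ∀ t, p t ≠ q t)
    (hcov : ∀ x ∈ X, x ∉ Y → x ∈ Om M → ∃ t, x ∈ openSegment ℝ (p t) (q t))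
    (hsub : ∀ t, openSegment ℝ (p t) (q t) ⊆ X)
    (u v : ι → Pt) (hu : ∀ t, u t ∈ Om M) (hv : ∀ t, v t ∈ Om M)
    (hside : ∀ t, SideCells (p t) (q t) (cell M X (u t)) (cell M X (v t)))
    (κ : Set Pt → Prop) (hκ : ∀ t, κ (cell M X (u t)) ↔ κ (cell M X (v t))) :
    ∀ a ∈ Om M, a ∉ X → ∀ b ∈ Om M, b ∉ X → (κ (cell M X a) ↔ κ (cell M X b)) :=
  fun _ ha haX _ hb hbX =>
    ⟨DoorConnAux.key hX hT hY hYX p q hpq hcov hsub u v hu hv hside κ hκ ha haX hb hbX,
      DoorConnAux.key hX hT hY hYX p q hpq hcov hsub u v hu hv hside κ hκ hb hbX ha haX⟩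

end F059
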