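import Pool.Agent.Lib.F059.Dfs

/-!
# F059D.GadEx: the gadget walls exist

PROOF.  Enumerate the pairs (f, f.m), (f, f.p), f ∈ E, as (g j, h j), j < K = 2 |E| (e.g. from the list of E; h is injective on j < K by
`StarSys.ear` and m ≠ p).  Define w j one after the other (induction on the number n ≤ K of walls already drawn, existence of w
with ray, free, hit for all j < n): C = (Om M)ᶜ ∪ stars E ∪ ⋃ i<m, cw e y i ∪ ⋃ i<n, gw g w i is closed.  All points of the segment [b, h], b = (g n).b,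
h = h n, except b, are not in C: ear points are in Om M (convex); stars: f' ≠ g n: `clean_star`; own star edge:
the line b z is different from the line b h (`good`); closed walls: `clean_cw`; gadget walls i < n with g i ≠ g n: `clean_ray`; with
g i = g n: h i ≠ h n, so the lines b m, b p, meeting only in b.  In particular h ∉ C, so the ray from h in direction h - b is free
for small parameters; it leaves Om M; first hit (`first_hit`, `leaves`) at h + s (h-b), s > 0; w n = b + (1+s)(h-b), t = 1+s > 1.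
free: x in the open segment (b, w n): either in [b,h] \ {b} or beyond h before the first hit.  hit: w n ∈ C.
-/

namespace F059

namespace GadExAux

open Filter Topology

lemma seg_closed (a b : Pt) : IsClosed (segment ℝ a b) := by
  rw [segment_eq_image']
  have h : Continuous fun t : ℝ => a + t • (b - a) := by fun_prop
  exact (isCompact_Icc.image h).isClosed

lemma ori_ray (p q b h : Pt) (s : ℝ) :
    ori p q (b + s • (h - b)) = (1 - s) * ori p q b + s * ori p q h := by
  unfold ori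
  simp only [Prod.fst_add, Prod.snd_add, Prod.smul_fst, Prod.smul_snd, Prod.fst_sub,
    Prod.snd_sub, smul_eq_mul]
  ring

lemma ori_self (p q : Pt) : ori p q q = 0 := by unfold ori; ring

lemma ori_self' (p q : Pt) : ori p q p = 0 := by unfold ori; ring

lemma ori_segm {p q x : Pt} (hx : x ∈ segment ℝ p q) : ori p q x = 0 := by
  rw [segment_eq_image'] at hx
  obtain ⟨s, -, rfl⟩ := hx
  simp only
  rw [ori_ray, ori_self, ori_self']
  ring

/-- a ray leaves the square (real parameter) -/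
lemma leaves' (M : ℝ) (a : Pt) {v : Pt} (hv : v ≠ 0) :
    ∃ T : ℝ, 0 < T ∧ a + T • v ∉ Om M := by
  have hn : 0 < ‖v‖ := norm_pos_iff.mpr hv
  have hT : 0 < (|M| + ‖a‖ + 1) / ‖v‖ := by positivity
  refine ⟨(|M| + ‖a‖ + 1) / ‖v‖, hT, fun h => ?_⟩
  rw [mem_ball_zero_iff] at h
  have h1 : ‖((|M| + ‖a‖ + 1) / ‖v‖) • v‖ = |M| + ‖a‖ + 1 := by
    rw [norm_smul, Real.norm_of_nonneg hT.le, div_mul_cancel₀ _ hn.ne']
  have h2 : ‖((|M| + ‖a‖ + 1) / ‖v‖) • v‖ ≤ ‖a + ((|M| + ‖a‖ + 1) / ‖v‖) • v‖ + ‖a‖ := by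
    have := norm_sub_le (a + ((|M| + ‖a‖ + 1) / ‖v‖) • v) a
    rwa [add_sub_cancel_left] at this
  have h3 := le_abs_self M
  linarith

/-- the condition for the gadget wall number `j` -/
def GOK (M : ℝ) (E : Finset Leaf) (m : ℕ) (e : ℕ → Leaf) (y : ℕ → Pt)
    (g : ℕ → Leaf) (h w : ℕ → Pt) (j : ℕ) : Prop :=
  (∃ t : ℝ, 1 < t ∧ w j = (g j).b + t • (h j - (g j).b)) ∧
  (∀ x ∈ openSegment ℝ (g j).b (w j),
    x ∈ Om M ∧ x ∉ stars E ∧ (∀ i < m, x ∉ cw e y i) ∧ ∀ i < j, x ∉ gw g w i) ∧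
  (w j ∉ Om M ∨ w j ∈ stars E ∨ (∃ i < m, w j ∈ cw e y i) ∨ ∃ i < j, w j ∈ gw g w i)

lemma gok_congr {M : ℝ} {E : Finset Leaf} {m : ℕ} {e : ℕ → Leaf} {y : ℕ → Pt}
    {g : ℕ → Leaf} {h w w' : ℕ → Pt} {j : ℕ} (hw : ∀ i ≤ j, w' i = w i)
    (H : GOK M E m e y g h w j) : GOK M E m e y g h w' j := by
  have e1 : ∀ i ≤ j, gw g w' i = gw g w i := by
    intro i hi
    unfold gw
    rw [hw i hi]
  obtain ⟨h1, h2, h3⟩ := H
  refine ⟨?_, ?_, ?_⟩
  · rw [hw j le_rfl]; exact h1
  · rw [hw j le_rfl]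
    intro x hx
    obtain ⟨a1, a2, a3, a4⟩ := h2 x hx
    exact ⟨a1, a2, a3, fun i hi => by rw [e1 i hi.le]; exact a4 i hi⟩
  · rw [hw j le_rfl]
    rcases h3 with h3 | h3 | h3 | ⟨i, hi, h3⟩
    · exact Or.inl h3
    · exact Or.inr (Or.inl h3)
    · exact Or.inr (Or.inr (Or.inl h3))
    · exact Or.inr (Or.inr (Or.inr ⟨i, hi, by rw [e1 i hi.le]; exact h3⟩))

/-- one new gadget wall -/
lemma step {P : Finset Pt} {E : Finset Leaf} {M : ℝ}
    (hE : StarSys P E) (hP : ∀ p ∈ P, p ∈ Om M) {m : ℕ} {e : ℕ → Leaf} {y : ℕ → Pt}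
    (hW : Walls M E m e y) {K : ℕ} {g : ℕ → Leaf} {h w : ℕ → Pt}
    (hm : ∀ j < K, g j ∈ E ∧ (h j = (g j).m ∨ h j = (g j).p))
    (hinj : ∀ i < K, ∀ j < K, h i = h j → i = j) {n : ℕ} (hn : n < K)
    (hw : ∀ j < n, GOK M E m e y g h w j) :
    ∃ w' : ℕ → Pt, ∀ j < n + 1, GOK M E m e y g h w' j := by
  obtain ⟨hgE, hgh⟩ := hm n hn
  set b := (g n).b with hb
  set k := h n with hk
  obtain ⟨ne1, ne2, ne3, ne4, ne5, ne6⟩ := star_ne hE hgE
  obtain ⟨gd1, gd2, gd3⟩ := hE.good (g n) hgE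
  obtain ⟨mz, mb, mm, mp⟩ := hE.mem (g n) hgE
  have hkb : k - b ≠ 0 := by
    rw [sub_ne_zero]
    rcases hgh with h1 | h1
    · rw [h1]; exact ne2.symm
    · rw [h1]; exact ne3.symm
  have hkP : k ∈ P := by
    rcases hgh with h1 | h1
    · rw [h1]; exact mm
    · rw [h1]; exact mp
  have hzk : ori (g n).z b k ≠ 0 := by
    rcases hgh with h1 | h1
    · rw [h1]; exact gd1.ne'
    · rw [h1, ori_swap']; exact (neg_lt_zero.mpr gd2).ne
  let C : Set Pt := (Om M)ᶜ ∪ (stars E ∪ ((⋃ i ∈ Finset.range m, cw e y i) ∪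
    ⋃ i ∈ Finset.range n, gw g w i))
  have hCc : IsClosed C := by
    refine IsClosed.union Metric.isOpen_ball.isClosed_compl (IsClosed.union ?_ (IsClosed.union ?_ ?_))
    · exact isClosed_biUnion_finset fun f _ => seg_closed _ _
    · exact isClosed_biUnion_finset fun f _ => seg_closed _ _
    · exact isClosed_biUnion_finset fun f _ => seg_closed _ _
  have hCn : ∀ x, x ∉ C ↔ x ∈ Om M ∧ x ∉ stars E ∧ (∀ i < m, x ∉ cw e y i) ∧
      ∀ i < n, x ∉ gw g w i := by
    intro x
    simp only [C, Set.mem_union, Set.mem_compl_iff, Set.mem_iUnion, Finset.mem_range, not_or,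
      not_not, not_exists]
  -- the points of the ear edge
  have hfr : ∀ s : ℝ, 0 < s → s ≤ 1 → b + s • (k - b) ∉ C := by
    intro s hs0 hs1
    rw [hCn]
    have hseg : b + s • (k - b) ∈ segment ℝ b k := by
      rw [segment_eq_image']
      exact ⟨s, ⟨hs0.le, hs1⟩, rfl⟩
    have hear : ¬ (b + s • (k - b) ∉ segment ℝ (g n).b (g n).m ∧
        b + s • (k - b) ∉ segment ℝ (g n).b (g n).p) := by
      rintro ⟨h1, h2⟩
      rcases hgh with h3 | h3
      · rw [← h3] at h1; exact h1 hseg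
      · rw [← h3] at h2; exact h2 hseg
    refine ⟨(convex_ball (0 : Pt) M).segment_subset (hP _ mb) (hP _ hkP) hseg, ?_, ?_, ?_⟩
    · intro hx
      unfold stars at hx
      simp only [Set.mem_iUnion] at hx
      obtain ⟨f, hf, hx⟩ := hx
      by_cases hfg : g n = f
      · rw [← hfg] at hx
        have h1 := ori_segm hx
        rw [ori_ray, ori_self, mul_zero, zero_add] at h1
        exact (mul_ne_zero hs0.ne' hzk) h1
      · exact hear (clean_star hE hgE hf hfg hx)
    · intro i hi hx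
      exact hear (clean_cw hE hW hi hgE hx)
    · intro i hi hx
      obtain ⟨⟨t, ht, hwt⟩, -, -⟩ := hw i hi
      obtain ⟨giE, gih⟩ := hm i (hi.trans hn)
      unfold gw at hx
      rw [hwt, segment_eq_image'] at hx
      obtain ⟨r, -, hr⟩ := hx
      simp only at hr
      rw [add_sub_cancel_left, smul_smul] at hr
      by_cases hgg : g n = g i
      · have hne : h i ≠ k := fun h1 => hi.ne (hinj i (hi.trans hn) n hn h1)
        have h1 : ori b (h i) (b + s • (k - b)) = 0 := by
          rw [← hr, ← hgg, ori_ray, ori_self, ori_self']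
          ring
        rw [ori_ray, ori_self', mul_zero, zero_add] at h1
        have hmp : ori b (g n).m (g n).p ≠ 0 := by
          have e1 : ori (g n).p (g n).m b = ori b (g n).p (g n).m := ori_cyc b (g n).p (g n).m
          rw [ori_swap' b (g n).p (g n).m, ← e1]
          exact (neg_lt_zero.mpr gd3).ne
        have hpm : ori b (g n).p (g n).m ≠ 0 := by
          rw [ori_swap']
          exact neg_ne_zero.mpr hmp
        rw [← hgg] at gih
        have hik : ori b (h i) k ≠ 0 := by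
          rcases gih with h2 | h2 <;> rcases hgh with h3 | h3
          · exact absurd (h2.trans h3.symm) hne
          · rw [h2, h3]; exact hmp
          · rw [h2, h3]; exact hpm
          · exact absurd (h2.trans h3.symm) hne
        exact (mul_ne_zero hs0.ne' hik) h1
      · exact hear (clean_ray hE hgE giE hgg gih hr.symm)
  have hkC : k ∉ C := by
    have := hfr 1 one_pos le_rfl
    rwa [one_smul, add_sub_cancel] at this
  -- small steps beyond k
  obtain ⟨ε, hε, hεC⟩ : ∃ ε > 0, ∀ s : ℝ, 0 < s → s ≤ ε → k + s • (k - b) ∉ C := by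
    have hc : Continuous fun s : ℝ => k + s • (k - b) := by fun_prop
    have ht := hc.tendsto 0
    rw [zero_smul, add_zero] at ht
    have hev := ht.eventually (hCc.isOpen_compl.mem_nhds hkC)
    obtain ⟨ε, hε, hb⟩ := Metric.eventually_nhds_iff.mp hev
    refine ⟨ε / 2, by positivity, fun s hs0 hs1 => ?_⟩
    exact hb (by rw [Real.dist_eq, sub_zero, abs_of_pos hs0]; linarith : dist s 0 < ε)
  obtain ⟨T, hT, hTO⟩ := leaves' M k hkb
  have hTC : k + T • (k - b) ∈ C := Or.inl hTO
  obtain ⟨t, ht0, -, htC, htf⟩ := first_hit hCc hε hT hεC hTC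
  refine ⟨Function.update w n (k + t • (k - b)), fun j hj => ?_⟩
  rcases Nat.lt_succ_iff_lt_or_eq.mp hj with hj | hj
  · refine gok_congr (fun i hi => ?_) (hw j hj)
    exact Function.update_of_ne (by omega) _ _
  · subst hj
    have e1 : ∀ i < j, gw g (Function.update w j (k + t • (k - b))) i = gw g w i := by
      intro i hi
      unfold gw
      rw [Function.update_of_ne hi.ne]
    have e2 : k + t • (k - b) = b + (1 + t) • (k - b) := by
      rw [add_smul, one_smul]; abel
    refine ⟨?_, ?_, ?_⟩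
    · rw [Function.update_self]
      exact ⟨1 + t, by linarith, e2⟩
    · rw [Function.update_self]
      intro x hx
      have hxC : x ∉ C := by
        obtain ⟨a, c, ha, hc, hac, hx⟩ := hx
        have hx2 : x = b + (c * (1 + t)) • (k - b) := by
          rw [← hx, e2]
          have : a = 1 - c := by linarith
          rw [this, sub_smul, one_smul, smul_add, smul_smul]
          abel
        by_cases h1 : c * (1 + t) ≤ 1
        · rw [hx2]
          exact hfr _ (by positivity) h1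
        · have h1 := not_le.mp h1
          have hx3 : x = k + (c * (1 + t) - 1) • (k - b) := by
            rw [hx2, sub_smul, one_smul]; abel
          rw [hx3]
          refine htf _ (by linarith) ?_
          have : c * (1 + t) < 1 * (1 + t) :=
            mul_lt_mul_of_pos_right (by linarith) (by linarith)
          linarith
      obtain ⟨a1, a2, a3, a4⟩ := (hCn x).mp hxC
      exact ⟨a1, a2, a3, fun i hi => by rw [e1 i hi]; exact a4 i hi⟩
    · rw [Function.update_self]
      rcases htC with h1 | h1 | h1 | h1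
      · exact Or.inl h1
      · exact Or.inr (Or.inl h1)
      · simp only [Set.mem_iUnion, Finset.mem_range] at h1
        obtain ⟨i, hi, h1⟩ := h1
        exact Or.inr (Or.inr (Or.inl ⟨i, hi, h1⟩))
      · simp only [Set.mem_iUnion, Finset.mem_range] at h1
        obtain ⟨i, hi, h1⟩ := h1
        exact Or.inr (Or.inr (Or.inr ⟨i, hi, by rw [e1 i hi]; exact h1⟩))

/-- all gadget walls -/
lemma all {P : Finset Pt} {E : Finset Leaf} {M : ℝ}
    (hE : StarSys P E) (hP : ∀ p ∈ P, p ∈ Om M) {m : ℕ} {e : ℕ → Leaf} {y : ℕ → Pt}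
    (hW : Walls M E m e y) {K : ℕ} {g : ℕ → Leaf} {h : ℕ → Pt}
    (hm : ∀ j < K, g j ∈ E ∧ (h j = (g j).m ∨ h j = (g j).p))
    (hinj : ∀ i < K, ∀ j < K, h i = h j → i = j) (n : ℕ) (hn : n ≤ K) :
    ∃ w : ℕ → Pt, ∀ j < n, GOK M E m e y g h w j := by
  induction n with
  | zero => exact ⟨fun _ => 0, fun j hj => absurd hj (Nat.not_lt_zero j)⟩
  | succ n ih =>
    obtain ⟨w, hw⟩ := ih (by omega)
    exact step hE hP hW hm hinj (by omega) hw

/-- the enumeration -/
lemma enum {P : Finset Pt} {E : Finset Leaf} (hE : StarSys P E) :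
    ∃ (K : ℕ) (g : ℕ → Leaf) (h : ℕ → Pt),
      (∀ j < K, g j ∈ E ∧ (h j = (g j).m ∨ h j = (g j).p)) ∧
      (∀ i < K, ∀ j < K, h i = h j → i = j) ∧
      ∀ f ∈ E, (∃ j < K, g j = f ∧ h j = f.m) ∧ (∃ j < K, g j = f ∧ h j = f.p) := by
  classical
  let Q : Finset (Leaf × Pt) := E.image (fun f => (f, f.m)) ∪ E.image (fun f => (f, f.p))
  let gh : ℕ → Leaf × Pt := fun j =>
    if hj : j < Q.card then (Q.equivFin.symm ⟨j, hj⟩ : Leaf × Pt) else (⟨0, 0, 0, 0⟩, 0)
  have hgh : ∀ j (hj : j < Q.card), gh j = (Q.equivFin.symm ⟨j, hj⟩ : Leaf × Pt) := by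
    intro j hj
    simp only [gh]
    rw [dif_pos hj]
  have hQ : ∀ q ∈ Q, q.1 ∈ E ∧ (q.2 = q.1.m ∨ q.2 = q.1.p) := by
    intro q hq
    simp only [Q, Finset.mem_union, Finset.mem_image] at hq
    rcases hq with ⟨f, hf, rfl⟩ | ⟨f, hf, rfl⟩
    · exact ⟨hf, Or.inl rfl⟩
    · exact ⟨hf, Or.inr rfl⟩
  have hmem : ∀ j < Q.card, gh j ∈ Q := by
    intro j hj
    rw [hgh j hj]
    exact (Q.equivFin.symm ⟨j, hj⟩).2
  have hsurj : ∀ q ∈ Q, ∃ j < Q.card, gh j = q := by
    intro q hq
    refine ⟨(Q.equivFin ⟨q, hq⟩ : ℕ), (Q.equivFin ⟨q, hq⟩).2, ?_⟩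
    rw [hgh _ (Q.equivFin ⟨q, hq⟩).2]
    have : (⟨(Q.equivFin ⟨q, hq⟩ : ℕ), (Q.equivFin ⟨q, hq⟩).2⟩ : Fin Q.card) =
      Q.equivFin ⟨q, hq⟩ := rfl
    rw [this, Equiv.symm_apply_apply]
  refine ⟨Q.card, fun j => (gh j).1, fun j => (gh j).2, fun j hj => hQ _ (hmem j hj), ?_, ?_⟩
  · intro i hi j hj hij
    simp only at hij
    obtain ⟨iE, ih⟩ := hQ _ (hmem i hi)
    obtain ⟨jE, jh⟩ := hQ _ (hmem j hj)
    have h1 : (gh i).1 = (gh j).1 := by
      by_contra hne
      obtain ⟨-, e2, e3⟩ := hE.ear _ iE _ jE hne (gh i).2 (by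
        rcases ih with h | h
        · exact Or.inr (Or.inl h)
        · exact Or.inr (Or.inr h))
      rcases jh with h | h
      · exact e2 (hij.trans h)
      · exact e3 (hij.trans h)
    have h2 : gh i = gh j := Prod.ext h1 hij
    rw [hgh i hi, hgh j hj] at h2
    have h3 := Q.equivFin.symm.injective (Subtype.ext h2)
    exact congrArg Fin.val h3
  · intro f hf
    constructor
    · obtain ⟨j, hj, h1⟩ := hsurj (f, f.m) (by
        simp only [Q, Finset.mem_union, Finset.mem_image]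
        exact Or.inl ⟨f, hf, rfl⟩)
      exact ⟨j, hj, by simp only [h1], by simp only [h1]⟩
    · obtain ⟨j, hj, h1⟩ := hsurj (f, f.p) (by
        simp only [Q, Finset.mem_union, Finset.mem_image]
        exact Or.inr ⟨f, hf, rfl⟩)
      exact ⟨j, hj, by simp only [h1], by simp only [h1]⟩

end GadExAux

open GadExAux

theorem exists_gads {P : Finset Pt} {E : Finset Leaf} {M : ℝ} (hgp : GenPos P)
    (hE : StarSys P E) (hP : ∀ p ∈ P, p ∈ Om M) {m : ℕ} {e : ℕ → Leaf} {y : ℕ → Pt}
    (hW : Walls M E m e y) : ∃ K g h w, Gads M E m e y K g h w := by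
  obtain ⟨K, g, h, hm, hinj, hcov⟩ := enum hE
  obtain ⟨w, hw⟩ := all hE hP hW hm hinj K le_rfl
  exact ⟨K, g, h, w, ⟨hm, hinj, hcov, fun j hj => (hw j hj).1, fun j hj => (hw j hj).2.1,
    fun j hj => (hw j hj).2.2⟩⟩

end F059
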