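import Pool.Agent.Lib.F059.Meet

/-!
# F059D.TightX: the wall system has property (*)

PROOF.  Let x ∈ XX ∩ Om M, φ ≠ 0.  General remark (R): if x is in the open segment (q,q') with q ≠ q', [q,q'] ⊆ XX, then (*) holds at x: if
φ(q-q') = 0 second alternative; otherwise φ(q - x) > 0 or φ(q' - x) > 0 (they have opposite signs), first alternative.
(1) x ∈ [f.z, f.b], f ∈ E: in the open segment: (R).  x = f.z: by `cov` there is i < m with (e i).z = f.z = x;
y i = x + t (x - (e i).b), t > 0: x is in the open segment ((e i).b, y i), and [(e i).b, y i] = [(e i).b, x] ∪ [x, y i] ⊆ XX: (R).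
x = f.b: by `Gads.cov` there are j, j' < K with g j = g j' = f, h j = f.m, h j' = f.p; [b,m] ⊆ gw j (as w j = b + t (m-b), t > 1), [b,p] ⊆ gw j',
[b,z] ⊆ XX.  b = α z + β m + γ p with α, β, γ > 0 (from `good`: α : β : γ = ori b m p-type areas: α = ori p m b, β = ori z p b, γ = ori z b m up to
the common factor ori z p m): α φ(z-b) + β φ(m-b) + γ φ(p-b) = 0.  Not all three values are 0 (z-b and m-b are linearly independent, φ ≠ 0), so one of them is
positive: first alternative.
(2) x ∈ cw i: strong induction on i.  x = z: case (1).  open segment: (R).  x = y i ∈ Om M: `hit`: y i ∈ star edge of e (i+1) (∈ E): (1);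
k < i with y i ∈ cw k: induction; y i ∈ starAt ..: (1).
(3) x ∈ gw j: strong induction on j: x = b: (1); open segment: (R); x = w j: hit: stars (1), cw i (2), gw i with i < j: induction.
-/

namespace F059

variable {P : Finset Pt} {M : ℝ} {E : Finset Leaf} {m : ℕ} {e : ℕ → Leaf} {y : ℕ → Pt}
  {K : ℕ} {g : ℕ → Leaf} {h w : ℕ → Pt}

/-- the two alternatives of (*) at the point `x` for the form `φ` -/
def TAlt (X : Set Pt) (x : Pt) (φ : Pt →ₗ[ℝ] ℝ) : Prop :=
  (∃ q, 0 < φ (q - x) ∧ segment ℝ x q ⊆ X) ∨
    (∃ q q', q ≠ q' ∧ φ (q - q') = 0 ∧ x ∈ openSegment ℝ q q' ∧ segment ℝ q q' ⊆ X)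

theorem tAlt_of_open {X : Set Pt} {q q' x : Pt} (hne : q ≠ q') (hx : x ∈ openSegment ℝ q q')
    (hs : segment ℝ q q' ⊆ X) (φ : Pt →ₗ[ℝ] ℝ) : TAlt X x φ := by
  by_cases h0 : φ (q - q') = 0
  · exact Or.inr ⟨q, q', hne, h0, hx, hs⟩
  · left
    have hxs : x ∈ segment ℝ q q' := openSegment_subset_segment ℝ q q' hx
    have hq : segment ℝ x q ⊆ X :=
      ((convex_segment q q').segment_subset hxs (left_mem_segment ℝ q q')).trans hs
    have hq' : segment ℝ x q' ⊆ X :=
      ((convex_segment q q').segment_subset hxs (right_mem_segment ℝ q q')).trans hs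
    obtain ⟨a, b, ha, hb, hab, rfl⟩ := hx
    have e1 : q - (a • q + b • q') = b • (q - q') := by
      have : a = 1 - b := by linarith
      rw [this]
      module
    have e2 : q' - (a • q + b • q') = (-a) • (q - q') := by
      have : b = 1 - a := by linarith
      rw [this]
      module
    rcases lt_or_gt_of_ne h0 with h | h
    · refine ⟨q', ?_, hq'⟩
      rw [e2, map_smul, smul_eq_mul]
      nlinarith
    · refine ⟨q, ?_, hq⟩
      rw [e1, map_smul, smul_eq_mul]
      exact mul_pos hb h

theorem phi_zero {u v : Pt} {φ : Pt →ₗ[ℝ] ℝ} (hD : u.1 * v.2 - u.2 * v.1 ≠ 0) (hu : φ u = 0)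
    (hv : φ v = 0) : φ = 0 := by
  refine LinearMap.ext fun x => ?_
  have e1 : (u.1 * v.2 - u.2 * v.1) • x =
      (x.1 * v.2 - x.2 * v.1) • u + (u.1 * x.2 - u.2 * x.1) • v := by
    refine Prod.ext ?_ ?_
    · simp only [Prod.smul_fst, Prod.fst_add, smul_eq_mul]
      ring
    · simp only [Prod.smul_snd, Prod.snd_add, smul_eq_mul]
      ring
  have e2 : (u.1 * v.2 - u.2 * v.1) * φ x = 0 := by
    rw [← smul_eq_mul, ← map_smul, e1, map_add, map_smul, map_smul, hu, hv]
    simp
  rcases mul_eq_zero.1 e2 with h | h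
  · exact absurd h hD
  · rw [h]
    rfl

/-- a segment through `x` is the union of its two parts -/
theorem segment_sub_union {b x y : Pt} (hx : x ∈ segment ℝ b y) :
    segment ℝ b y ⊆ segment ℝ b x ∪ segment ℝ x y := by
  intro u hu
  rw [segment_eq_image] at hx hu
  obtain ⟨r, ⟨hr0, hr1⟩, rfl⟩ := hx
  obtain ⟨s, ⟨hs0, hs1⟩, rfl⟩ := hu
  simp only at *
  rcases le_total s r with h | h
  · left
    rcases eq_or_lt_of_le hr0 with h0 | h0
    · have hs : s = 0 := le_antisymm (by linarith) hs0
      rw [← h0, hs]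
      simp only [sub_zero, one_smul, zero_smul, add_zero]
      exact left_mem_segment ℝ b b
    · rw [segment_eq_image]
      refine ⟨s / r, ⟨by positivity, by rw [div_le_one h0]; exact h⟩, ?_⟩
      simp only
      have : s / r * r = s := div_mul_cancel₀ _ h0.ne'
      have e1 : (1 - s / r) • b + (s / r) • ((1 - r) • b + r • y) =
          (1 - s / r * r) • b + (s / r * r) • y := by module
      rw [e1, this]
  · right
    rcases eq_or_lt_of_le hr1 with h1 | h1
    · have hs : s = 1 := le_antisymm hs1 (by linarith)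
      rw [h1, hs]
      simp only [sub_self, one_smul, zero_smul, zero_add]
      exact left_mem_segment ℝ y y
    · rw [segment_eq_image]
      have h2 : 0 < 1 - r := by linarith
      refine ⟨(s - r) / (1 - r), ⟨div_nonneg (by linarith) h2.le, by
        rw [div_le_one h2]; linarith⟩, ?_⟩
      simp only
      have h3 : (s - r) / (1 - r) * (1 - r) = s - r := div_mul_cancel₀ _ h2.ne'
      set c := (s - r) / (1 - r) with hc
      have e1 : (1 - c) • ((1 - r) • b + r • y) + c • y =
          (1 - r - c * (1 - r)) • b + (r + c * (1 - r)) • y := by module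
      rw [e1, h3]
      congr 2 <;> ring

theorem stars_sub : stars E ⊆ XX E m e y K g w := fun _ hx => Or.inl (Or.inl hx)

theorem star_sub {f : Leaf} (hf : f ∈ E) : segment ℝ f.z f.b ⊆ XX E m e y K g w := by
  intro x hx
  refine stars_sub ?_
  unfold stars
  exact Set.mem_biUnion hf hx

theorem cw_sub {i : ℕ} (hi : i < m) : cw e y i ⊆ XX E m e y K g w := by
  intro x hx
  refine Or.inl (Or.inr ?_)
  exact Set.mem_biUnion (show i ∈ {i | i < m} from hi) hx

theorem gw_sub {j : ℕ} (hj : j < K) : gw g w j ⊆ XX E m e y K g w := by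
  intro x hx
  refine Or.inr ?_
  exact Set.mem_biUnion (show j ∈ {j | j < K} from hj) hx

/-- the barycentric relation at a leaf -/
theorem leafBary (z b m p : Pt) :
    ori p m b • (z - b) + ori z p b • (m - b) + ori z b m • (p - b) = 0 := by
  unfold ori
  refine Prod.ext ?_ ?_
  · simp only [Prod.smul_fst, Prod.fst_add, Prod.fst_sub, smul_eq_mul, Prod.fst_zero]
    ring
  · simp only [Prod.smul_snd, Prod.snd_add, Prod.snd_sub, smul_eq_mul, Prod.snd_zero]
    ring

theorem WSys.tight_star (S : WSys P M E m e y K g h w) {f : Leaf} (hf : f ∈ E) {x : Pt}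
    (hx : x ∈ segment ℝ f.z f.b) {φ : Pt →ₗ[ℝ] ℝ} (hφ : φ ≠ 0) :
    TAlt (XX E m e y K g w) x φ := by
  obtain ⟨hzb, -, -, -, -, -⟩ := star_ne S.star hf
  by_cases hxz : x = f.z
  · -- the centre
    subst hxz
    obtain ⟨i, hi, hiz⟩ := S.walls.cov f hf
    obtain ⟨t, ht, hyt⟩ := S.walls.ray i hi
    have hei := S.walls.memE i hi
    have h1 : f.z ∈ openSegment ℝ (e i).b (y i) := by
      refine ⟨t / (1 + t), 1 / (1 + t), by positivity, by positivity, by field_simp; ring, ?_⟩
      rw [hyt, hiz]
      have : (1 + t) ≠ 0 := by positivity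
      have e1 : t / (1 + t) = 1 - 1 / (1 + t) := by field_simp; ring
      have e2 : 1 / (1 + t) * t = 1 - 1 / (1 + t) := by field_simp; ring
      have e3 : (t / (1 + t)) • (e i).b + (1 / (1 + t)) • (f.z + t • (f.z - (e i).b)) =
          (t / (1 + t) - 1 / (1 + t) * t) • (e i).b + (1 / (1 + t) + 1 / (1 + t) * t) • f.z := by
        module
      rw [e3, e1, e2]
      have e4 : 1 - 1 / (1 + t) - (1 - 1 / (1 + t)) = 0 := by ring
      have e5 : 1 / (1 + t) + (1 - 1 / (1 + t)) = 1 := by ring
      rw [e4, e5, zero_smul, one_smul, zero_add]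
    refine tAlt_of_open ?_ h1 ?_ φ
    · intro h2
      rw [← h2] at h1
      rw [openSegment_same] at h1
      have h3 := Set.mem_singleton_iff.1 h1
      exact (star_ne S.star hei).1 (by rw [hiz, h3])
    · refine (segment_sub_union (openSegment_subset_segment ℝ _ _ h1)).trans ?_
      refine Set.union_subset ?_ ?_
      · have := star_sub (m := m) (e := e) (y := y) (K := K) (g := g) (w := w) hei
        rw [hiz, segment_symm] at this
        exact this
      · have := cw_sub (E := E) (e := e) (y := y) (K := K) (g := g) (w := w) hi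
        unfold cw at this
        rw [hiz] at this
        exact this
  · by_cases hxb : x = f.b
    · -- the leaf
      subst hxb
      obtain ⟨⟨j, hj, hgj, hhj⟩, ⟨j', hj', hgj', hhj'⟩⟩ := S.gads.cov f hf
      have hsub : ∀ k, k < K → g k = f → segment ℝ f.b (h k) ⊆ XX E m e y K g w := by
        intro k hk hgk
        obtain ⟨t, ht, hw⟩ := S.gads.ray k hk
        refine Set.Subset.trans ?_ (gw_sub (E := E) (m := m) (e := e) (y := y) hk)
        unfold gw
        rw [hgk] at hw ⊢
        refine (convex_segment _ _).segment_subset (left_mem_segment ℝ _ _) ?_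
        rw [segment_eq_image']
        refine ⟨1 / t, ⟨by positivity, by rw [div_le_one (by linarith)]; exact ht.le⟩, ?_⟩
        simp only
        rw [hw, add_sub_cancel_left, smul_smul, one_div_mul_cancel (by linarith), one_smul,
          add_sub_cancel]
      have hm := hsub j hj hgj
      have hp := hsub j' hj' hgj'
      rw [hhj] at hm
      rw [hhj'] at hp
      have hz : segment ℝ f.b f.z ⊆ XX E m e y K g w := by
        rw [segment_symm]
        exact star_sub hf
      obtain ⟨g1, g2, g3⟩ := S.star.good f hf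
      have hb := congrArg φ (leafBary f.z f.b f.m f.p)
      rw [map_add, map_add, map_smul, map_smul, map_smul, map_zero, smul_eq_mul, smul_eq_mul,
        smul_eq_mul] at hb
      by_contra hcon
      have h1 : ∀ q, segment ℝ f.b q ⊆ XX E m e y K g w → φ (q - f.b) ≤ 0 := by
        intro q hq
        by_contra h2
        push Not at h2
        exact hcon (Or.inl ⟨q, h2, hq⟩)
      have z1 := h1 _ hz
      have m1 := h1 _ hm
      have p1 := h1 _ hp
      have z2 : φ (f.z - f.b) = 0 := by
        nlinarith [mul_nonneg g3.le (neg_nonneg.2 z1), mul_nonneg g2.le (neg_nonneg.2 m1),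
          mul_nonneg g1.le (neg_nonneg.2 p1)]
      have m2 : φ (f.m - f.b) = 0 := by
        nlinarith [mul_nonneg g3.le (neg_nonneg.2 z1), mul_nonneg g2.le (neg_nonneg.2 m1),
          mul_nonneg g1.le (neg_nonneg.2 p1)]
      refine hφ (phi_zero ?_ z2 m2)
      have e1 : (f.z - f.b).1 * (f.m - f.b).2 - (f.z - f.b).2 * (f.m - f.b).1 =
          - ori f.z f.b f.m := by
        unfold ori
        simp only [Prod.fst_sub, Prod.snd_sub]
        ring
      rw [e1]
      exact neg_ne_zero.2 g1.ne'
    · refine tAlt_of_open hzb ?_ (star_sub hf) φ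
      rw [← insert_endpoints_openSegment] at hx
      rcases hx with h1 | h1 | h1
      · exact absurd h1 hxz
      · exact absurd h1 hxb
      · exact h1

theorem WSys.tight_stars (S : WSys P M E m e y K g h w) {x : Pt}
    (hx : x ∈ stars E) {φ : Pt →ₗ[ℝ] ℝ} (hφ : φ ≠ 0) :
    TAlt (XX E m e y K g w) x φ := by
  unfold stars at hx
  simp only [Set.mem_iUnion] at hx
  obtain ⟨f, hf, hx⟩ := hx
  exact S.tight_star hf hx hφ

theorem WSys.tight_starAt (S : WSys P M E m e y K g h w) {c x : Pt}
    (hx : x ∈ starAt E c) {φ : Pt →ₗ[ℝ] ℝ} (hφ : φ ≠ 0) :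
    TAlt (XX E m e y K g w) x φ := by
  unfold starAt at hx
  simp only [Set.mem_iUnion] at hx
  obtain ⟨f, hf, -, hx⟩ := hx
  exact S.tight_star hf hx hφ

theorem WSys.tight_cw (S : WSys P M E m e y K g h w) {φ : Pt →ₗ[ℝ] ℝ} (hφ : φ ≠ 0) (i : ℕ) :
    i < m → ∀ x ∈ cw e y i, x ∈ Om M → TAlt (XX E m e y K g w) x φ := by
  induction i using Nat.strong_induction_on with
  | _ i ih =>
    intro hi x hx hM
    have hei := S.walls.memE i hi
    by_cases hxz : x = (e i).z
    · rw [hxz]
      exact S.tight_star hei (left_mem_segment ℝ _ _) hφ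
    by_cases hxy : x = y i
    · subst hxy
      rcases S.walls.hit i hi with h1 | ⟨h1, h2⟩ | ⟨k, hk, h1 | h1⟩
      · exact absurd hM h1
      · exact S.tight_star (S.walls.memE _ h1) h2 hφ
      · exact ih k hk (hk.trans hi) _ h1 hM
      · exact S.tight_starAt h1 hφ
    · refine tAlt_of_open ?_ ?_ (cw_sub hi) φ
      · intro h1
        obtain ⟨t, ht, hyt⟩ := S.walls.ray i hi
        rw [← h1] at hyt
        have h2 : t • ((e i).z - (e i).b) = 0 := by
          have := hyt.symm
          rwa [add_eq_left] at this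
        rcases smul_eq_zero.1 h2 with h3 | h3
        · exact ht.ne' h3
        · exact (star_ne S.star hei).1 (sub_eq_zero.1 h3)
      · unfold cw at hx
        rw [← insert_endpoints_openSegment] at hx
        rcases hx with h1 | h1 | h1
        · exact absurd h1 hxz
        · exact absurd h1 hxy
        · exact h1

theorem WSys.tight_gw (S : WSys P M E m e y K g h w) {φ : Pt →ₗ[ℝ] ℝ} (hφ : φ ≠ 0) (j : ℕ) :
    j < K → ∀ x ∈ gw g w j, x ∈ Om M → TAlt (XX E m e y K g w) x φ := by
  induction j using Nat.strong_induction_on with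
  | _ j ih =>
    intro hj x hx hM
    obtain ⟨hgE, hhm⟩ := S.gads.memE j hj
    have hne : (g j).b ≠ h j := by
      rcases hhm with h1 | h1
      · rw [h1]
        exact (star_ne S.star hgE).2.1
      · rw [h1]
        exact (star_ne S.star hgE).2.2.1
    by_cases hxb : x = (g j).b
    · rw [hxb]
      exact S.tight_star hgE (right_mem_segment ℝ _ _) hφ
    by_cases hxw : x = w j
    · subst hxw
      rcases S.gads.hit j hj with h1 | h1 | ⟨i, hi, h1⟩ | ⟨i, hi, h1⟩
      · exact absurd hM h1
      · exact S.tight_stars h1 hφ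
      · exact S.tight_cw hφ i hi _ h1 hM
      · exact ih i hi (hi.trans hj) _ h1 hM
    · refine tAlt_of_open ?_ ?_ (gw_sub hj) φ
      · intro h1
        obtain ⟨t, ht, hwt⟩ := S.gads.ray j hj
        rw [← h1] at hwt
        have h2 : t • (h j - (g j).b) = 0 := by
          have := hwt.symm
          rwa [add_eq_left] at this
        rcases smul_eq_zero.1 h2 with h3 | h3
        · linarith
        · exact hne (sub_eq_zero.1 h3).symm
      · unfold gw at hx
        rw [← insert_endpoints_openSegment] at hx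
        rcases hx with h1 | h1 | h1
        · exact absurd h1 hxb
        · exact absurd h1 hxw
        · exact h1

theorem WSys.tight (S : WSys P M E m e y K g h w) : Tight M (XX E m e y K g w) := by
  intro x hx hM φ hφ
  rcases hx with (hx | hx) | hx
  · exact S.tight_stars hx hφ
  · simp only [Set.mem_iUnion] at hx
    obtain ⟨i, hi, hx⟩ := hx
    exact S.tight_cw hφ i hi x hx hM
  · simp only [Set.mem_iUnion] at hx
    obtain ⟨j, hj, hx⟩ := hx
    exact S.tight_gw hφ j hj x hx hM

end F059
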