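import Pool.Agent.Lib.F059.AllConn
import Pool.Agent.Lib.F059.TightX
import Pool.Agent.Lib.F059.GadEx

/-!
# F059D.DoorEx: the door system exists

M with all points of P in Om M.  The walls (`exists_walls`, `exists_gads`) give S : WSys; X = XX closed with property (*).
The cells: L f, F f, R f (f ∈ E) of `leaf_cells` and cA i, cB i (i < m) of `centre_cells`.
A = L, L, F at b, m, p and cA at centres; B = R, F, R and cB.  `WSys.conn` shows that all cells are among them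
and gives the two connectivity statements.
-/

namespace F059

namespace DoorAux

/-- `v` is a cell of a point of the square outside of `X` -/
def IsC (M : ℝ) (X : Set Pt) (v : Set Pt) : Prop := ∃ u ∈ Om M, u ∉ X ∧ v = cell M X u

theorem side_inter {p q : Pt} {A B A' B' : Set Pt} (h : SideCells p q A B)
    (h' : SideCells p q A' B') : SideCells p q (A ∩ A') (B ∩ B') := by
  intro x hx
  obtain ⟨r, hr, h1⟩ := h x hx
  obtain ⟨r', hr', h2⟩ := h' x hx
  refine ⟨min r r', lt_min hr hr', fun a ha => ?_⟩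
  have ha1 : a ∈ Metric.ball x r := Metric.ball_subset_ball (min_le_left _ _) ha
  have ha2 : a ∈ Metric.ball x r' := Metric.ball_subset_ball (min_le_right _ _) ha
  exact ⟨fun hh => ⟨(h1 a ha1).1 hh, (h2 a ha2).1 hh⟩,
    fun hh => ⟨(h1 a ha1).2 hh, (h2 a ha2).2 hh⟩⟩

theorem isC_eq {M : ℝ} {X : Set Pt} (hX : IsClosed X) (hT : Tight M X) {A A' : Set Pt}
    (hA : IsC M X A) (hA' : IsC M X A') (h : (A ∩ A').Nonempty) : A = A' := by
  obtain ⟨u, hu, -, rfl⟩ := hA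
  obtain ⟨u', hu', -, rfl⟩ := hA'
  rcases cell_disjoint_or_eq hX hT hu hu' with h1 | h1
  · exact h1
  · exact absurd h1 (Set.not_disjoint_iff_nonempty_inter.2 h)

theorem side_unique {M : ℝ} {X : Set Pt} (hX : IsClosed X) (hT : Tight M X) {p q : Pt}
    (hpq : p ≠ q) {A B A' B' : Set Pt} (h : SideCells p q A B) (h' : SideCells p q A' B')
    (hA : IsC M X A) (hB : IsC M X B) (hA' : IsC M X A') (hB' : IsC M X B') :
    A = A' ∧ B = B' := by
  obtain ⟨h1, h2⟩ := side_nonempty hpq (side_inter h h')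
  exact ⟨isC_eq hX hT hA hA' h1, isC_eq hX hT hB hB' h2⟩

theorem isC_open {M : ℝ} {X : Set Pt} (hX : IsClosed X) {A : Set Pt} (hA : IsC M X A) :
    IsOpen A := by
  obtain ⟨u, hu, -, rfl⟩ := hA
  exact cell_isOpen hX u

theorem isC_convex {M : ℝ} {X : Set Pt} (hX : IsClosed X) (hT : Tight M X) {A : Set Pt}
    (hA : IsC M X A) : Convex ℝ A := by
  obtain ⟨u, hu, -, rfl⟩ := hA
  exact cell_convex hX hT hu

theorem isC_disj {M : ℝ} {X : Set Pt} {A : Set Pt} (hA : IsC M X A) : Disjoint A X := by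
  obtain ⟨u, hu, -, rfl⟩ := hA
  exact cell_disjoint u

/-- the two cells at a door -/
theorem side_door {P : Finset Pt} {M : ℝ} {X : Set Pt} (hX : IsClosed X) (hT : Tight M X)
    {p q : Pt} (hpq : p ≠ q) {A B : Set Pt} (hs : SideCells p q A B) (hA : IsC M X A)
    (hB : IsC M X B) (hsub : openSegment ℝ p q ⊆ X) {x0 y0 d : Pt} (hx0 : x0 ∈ P) (hy0 : y0 ∈ P)
    (hxy : x0 ≠ y0) {c : ℝ} (hc : c ≠ 0) (hori : ∀ a, ori p q a = c * ori x0 y0 a)
    (hd : d = x0 ∨ d = y0) (hdseg : d ∈ segment ℝ p q) :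
    A ≠ B ∧ Supp P A d ∧ Supp P B d := by
  have hpos := side_pos hpq hs (isC_convex hX hT hA) (isC_open hX hA)
    ((isC_disj hA).symm.mono_left hsub)
  have hneg := side_neg hpq hs (isC_convex hX hT hB) (isC_open hX hB)
    ((isC_disj hB).symm.mono_left hsub)
  have hcl := side_closure hpq hs
  have hdP : d ∈ P := by rcases hd with rfl | rfl <;> assumption
  refine ⟨?_, ?_, ?_⟩
  · intro h
    obtain ⟨a, ha⟩ := (side_nonempty hpq hs).1
    have h1 := hpos a ha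
    have h2 := hneg a (h ▸ ha)
    linarith
  · refine ⟨hdP, hcl.1 hdseg, ?_⟩
    rcases lt_or_gt_of_ne hc with h | h
    · refine ⟨y0, hy0, x0, hx0, hxy.symm, hd.symm, fun a ha => ?_⟩
      have h1 := hpos a ha
      rw [hori] at h1
      rw [ori_swap]
      nlinarith
    · refine ⟨x0, hx0, y0, hy0, hxy, hd, fun a ha => ?_⟩
      have h1 := hpos a ha
      rw [hori] at h1
      exact (mul_pos_iff_of_pos_left h).1 h1
  · refine ⟨hdP, hcl.2 hdseg, ?_⟩
    rcases lt_or_gt_of_ne hc with h | h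
    · refine ⟨x0, hx0, y0, hy0, hxy, hd, fun a ha => ?_⟩
      have h1 := hneg a ha
      rw [hori] at h1
      nlinarith
    · refine ⟨y0, hy0, x0, hx0, hxy.symm, hd.symm, fun a ha => ?_⟩
      have h1 := hneg a ha
      rw [hori] at h1
      rw [ori_swap]
      nlinarith

theorem fun_of_rel {α β : Type*} [Nonempty β] (Rel : α → β → Prop)
    (h : ∀ a b b', Rel a b → Rel a b' → b = b') : ∃ A : α → β, ∀ a b, Rel a b → A a = b := by
  classical
  refine ⟨fun a => if hh : ∃ b, Rel a b then hh.choose else Classical.arbitrary β, ?_⟩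
  intro a b hab
  have hh : ∃ b, Rel a b := ⟨b, hab⟩
  show (if hh : ∃ b, Rel a b then hh.choose else Classical.arbitrary β) = b
  rw [dif_pos hh]
  exact h a _ _ hh.choose_spec hab

/-- a function with prescribed values at the leaves, ear points and centres -/
theorem exists_fun {P : Finset Pt} {E : Finset Leaf} (hE : StarSys P E) {m : ℕ} {e : ℕ → Leaf}
    (hmem : ∀ i < m, e i ∈ E) (hinj : ∀ i < m, ∀ j < m, (e i).z = (e j).z → i = j)
    (vb vm vp : Leaf → Set Pt) (vc : ℕ → Set Pt) :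
    ∃ A : Pt → Set Pt, (∀ f ∈ E, A f.b = vb f ∧ A f.m = vm f ∧ A f.p = vp f) ∧
      ∀ i < m, A (e i).z = vc i := by
  obtain ⟨A, hA⟩ := fun_of_rel (α := Pt) (β := Set Pt) (fun d v =>
      (∃ f ∈ E, (d = f.b ∧ v = vb f) ∨ (d = f.m ∧ v = vm f) ∨ (d = f.p ∧ v = vp f)) ∨
      (∃ i < m, d = (e i).z ∧ v = vc i)) (by
    rintro d v v' (⟨f, hf, h1⟩ | ⟨i, hi, hd, rfl⟩) (⟨f', hf', h2⟩ | ⟨i', hi', hd', rfl⟩)
    · by_cases hff : f = f'
      · subst hff
        obtain ⟨-, hbm, hbp, hmp, -, -⟩ := star_ne hE hf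
        rcases h1 with ⟨rfl, rfl⟩ | ⟨rfl, rfl⟩ | ⟨rfl, rfl⟩ <;>
          rcases h2 with ⟨h, rfl⟩ | ⟨h, rfl⟩ | ⟨h, rfl⟩ <;>
          first
            | rfl
            | exact absurd h hbm
            | exact absurd h.symm hbm
            | exact absurd h hbp
            | exact absurd h.symm hbp
            | exact absurd h hmp
            | exact absurd h.symm hmp
      · exfalso
        have h3 : d = f.b ∨ d = f.m ∨ d = f.p := by
          rcases h1 with h | h | h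
          · exact Or.inl h.1
          · exact Or.inr (Or.inl h.1)
          · exact Or.inr (Or.inr h.1)
        have h4 := hE.ear f hf f' hf' hff d h3
        rcases h2 with h | h | h
        · exact h4.1 h.1
        · exact h4.2.1 h.1
        · exact h4.2.2 h.1
    · exfalso
      have h4 := hE.zne (e i') (hmem i' hi') f hf
      rcases h1 with h | h | h
      · exact h4.1 (hd'.symm.trans h.1)
      · exact h4.2.1 (hd'.symm.trans h.1)
      · exact h4.2.2 (hd'.symm.trans h.1)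
    · exfalso
      have h4 := hE.zne (e i) (hmem i hi) f' hf'
      rcases h2 with h | h | h
      · exact h4.1 (hd.symm.trans h.1)
      · exact h4.2.1 (hd.symm.trans h.1)
      · exact h4.2.2 (hd.symm.trans h.1)
    · rw [hinj i hi i' hi' (hd.symm.trans hd')])
  refine ⟨A, fun f hf => ⟨?_, ?_, ?_⟩, fun i hi => ?_⟩
  · exact hA _ _ (Or.inl ⟨f, hf, Or.inl ⟨rfl, rfl⟩⟩)
  · exact hA _ _ (Or.inl ⟨f, hf, Or.inr (Or.inl ⟨rfl, rfl⟩)⟩)
  · exact hA _ _ (Or.inl ⟨f, hf, Or.inr (Or.inr ⟨rfl, rfl⟩)⟩)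
  · exact hA _ _ (Or.inr ⟨i, hi, rfl, rfl⟩)

theorem ori_smul (p q a : Pt) (c : ℝ) : ori p (p + c • (q - p)) a = c * ori p q a := by
  unfold ori
  simp only [Prod.fst_add, Prod.snd_add, Prod.smul_fst, Prod.smul_snd, Prod.fst_sub, Prod.snd_sub,
    smul_eq_mul]
  ring

theorem ne_smul {p q : Pt} (hpq : p ≠ q) {c : ℝ} (hc : c ≠ 0) : p ≠ p + c • (q - p) := by
  intro h
  have h1 : c • (q - p) = 0 := by simpa using h
  rcases smul_eq_zero.1 h1 with h2 | h2
  · exact hc h2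
  · exact hpq (sub_eq_zero.1 h2).symm

theorem mem_smul (p q : Pt) {c : ℝ} (hc : 1 < c) : q ∈ segment ℝ p (p + c • (q - p)) := by
  have hc0 : (0 : ℝ) < c := by linarith
  rw [segment_eq_image']
  refine ⟨c⁻¹, ⟨by positivity, inv_le_one_of_one_le₀ hc.le⟩, ?_⟩
  show p + c⁻¹ • (p + c • (q - p) - p) = q
  rw [add_sub_cancel_left, smul_smul, inv_mul_cancel₀ hc0.ne', one_smul]
  abel

end DoorAux

open DoorAux

theorem exists_doorSys {P : Finset Pt} {E : Finset Leaf} (hgp : GenPos P) (hE : StarSys P E)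
    (hne : E.Nonempty) : ∃ V A B Ce Cf, DoorSys P E V A B Ce Cf := by
  classical
  -- the square
  obtain ⟨M, hM⟩ : ∃ M : ℝ, ∀ p ∈ P, p ∈ Om M := by
    obtain ⟨M, hM⟩ := (P.finite_toSet.isBounded).subset_ball (0 : Pt)
    exact ⟨M, fun p hp => hM (Finset.mem_coe.2 hp)⟩
  obtain ⟨m, e, y, hW⟩ := exists_walls hgp hE hM
  obtain ⟨K, g, h, w, hG⟩ := exists_gads hgp hE hM hW
  have S : WSys P M E m e y K g h w := ⟨hgp, hE, hM, hW, hG⟩
  have hT := S.tight
  have hXc := S.XX_isClosed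
  obtain ⟨δ, hδ⟩ := S.exists_smallcut
  obtain ⟨f1, f2, f3, f3', f4⟩ := rank_facts hgp hE hM hW
  obtain ⟨Ie, If, hIe, hIf, hIdisj, ⟨ρW, ρS, hre⟩, ⟨ρW', ρS', hrf⟩⟩ :=
    ranks m (relA E e y) (relB e y) f1 f2 f3 f3' f4
  have hSe := S.slit_YY hδ Ie ρW ρS hre
  have hSf := S.slit_YY hδ If ρW' ρS' hrf
  set X : Set Pt := XX E m e y K g w with hX
  have hstarX : ∀ f ∈ E, segment ℝ f.z f.b ⊆ X := by
    intro f hf x hx
    rw [hX, XX]
    exact Or.inl (Or.inl (Set.mem_iUnion₂.2 ⟨f, hf, hx⟩))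
  -- the cells at the leaves
  have hleaf : ∀ f : Leaf, ∃ L F R : Set Pt, f ∈ E → IsC M X L ∧ IsC M X F ∧ IsC M X R ∧
      (SideCells f.b (f.b + (1 + δ) • (f.m - f.b)) L F ∧
        openSegment ℝ f.b (f.b + (1 + δ) • (f.m - f.b)) ⊆ X) ∧
      (SideCells f.b (f.b + (1 + δ) • (f.p - f.b)) F R ∧
        openSegment ℝ f.b (f.b + (1 + δ) • (f.p - f.b)) ⊆ X) ∧
      ∃ z' ∈ openSegment ℝ f.b f.z, SideCells f.b z' R L := by
    intro f
    by_cases hf : f ∈ E
    · obtain ⟨⟨j, hj, hgj, hhj⟩, ⟨j', hj', hgj', hhj'⟩⟩ := hG.cov f hf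
      obtain ⟨u1, u2, u3, hu1, hu2, hu3, hs1, hs2, hs3⟩ :=
        S.leaf_cells hT hδ hf hj hj' hgj hgj' hhj hhj'
      refine ⟨cell M X u1, cell M X u2, cell M X u3, fun _ => ⟨⟨u1, hu1.1, hu1.2, rfl⟩,
        ⟨u2, hu2.1, hu2.2, rfl⟩, ⟨u3, hu3.1, hu3.2, rfl⟩, ⟨?_, ?_⟩, ⟨?_, ?_⟩, hs3⟩⟩
      · have := hs1
        unfold gc at this
        rw [hgj, hhj] at this
        exact this
      · intro x hx
        have h1 : x ∈ openSegment ℝ (g j).b (gc δ g h j) := by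
          unfold gc
          rw [hgj, hhj]
          exact hx
        have h2 := (S.gap_b hδ hj h1).2.1
        rw [hX, XX]
        exact Or.inr (Set.mem_iUnion₂.2 ⟨j, hj, h2⟩)
      · have := hs2
        unfold gc at this
        rw [hgj', hhj'] at this
        exact this
      · intro x hx
        have h1 : x ∈ openSegment ℝ (g j').b (gc δ g h j') := by
          unfold gc
          rw [hgj', hhj']
          exact hx
        have h2 := (S.gap_b hδ hj' h1).2.1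
        rw [hX, XX]
        exact Or.inr (Set.mem_iUnion₂.2 ⟨j', hj', h2⟩)
    · exact ⟨∅, ∅, ∅, fun hh => absurd hh hf⟩
  choose L F R hLFR using hleaf
  have hcen : ∀ i : ℕ, ∃ cA cB : Set Pt, i < m → IsC M X cA ∧ IsC M X cB ∧
      SideCells (e i).z (zc δ e i) cA cB := by
    intro i
    by_cases hi : i < m
    · obtain ⟨u, v, hu, hv, hs⟩ := S.centre_cells hT hδ hi
      exact ⟨cell M X u, cell M X v, fun _ => ⟨⟨u, hu.1, hu.2, rfl⟩, ⟨v, hv.1, hv.2, rfl⟩, hs⟩⟩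
    · exact ⟨∅, ∅, fun hh => absurd hh hi⟩
  choose cA cB hAB using hcen
  obtain ⟨A, hA1, hA2⟩ := exists_fun hE hW.memE hW.inj L L F cA
  obtain ⟨B, hB1, hB2⟩ := exists_fun hE hW.memE hW.inj R F R cB
  -- the set of cells
  obtain ⟨V, hV⟩ : ∃ V : Finset (Set Pt), ∀ v, v ∈ V ↔
      (∃ f ∈ E, v = L f ∨ v = F f ∨ v = R f) ∨ (∃ i < m, v = cA i ∨ v = cB i) := by
    refine ⟨(E.image L ∪ E.image F ∪ E.image R) ∪
      ((Finset.range m).image cA ∪ (Finset.range m).image cB), fun v => ?_⟩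
    simp only [Finset.mem_union, Finset.mem_image, Finset.mem_range]
    constructor
    · rintro (((⟨f, hf, rfl⟩ | ⟨f, hf, rfl⟩) | ⟨f, hf, rfl⟩) | (⟨i, hi, rfl⟩ | ⟨i, hi, rfl⟩))
      · exact Or.inl ⟨f, hf, Or.inl rfl⟩
      · exact Or.inl ⟨f, hf, Or.inr (Or.inl rfl)⟩
      · exact Or.inl ⟨f, hf, Or.inr (Or.inr rfl)⟩
      · exact Or.inr ⟨i, hi, Or.inl rfl⟩
      · exact Or.inr ⟨i, hi, Or.inr rfl⟩
    · rintro (⟨f, hf, rfl | rfl | rfl⟩ | ⟨i, hi, rfl | rfl⟩)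
      · exact Or.inl (Or.inl (Or.inl ⟨f, hf, rfl⟩))
      · exact Or.inl (Or.inl (Or.inr ⟨f, hf, rfl⟩))
      · exact Or.inl (Or.inr ⟨f, hf, rfl⟩)
      · exact Or.inr (Or.inl ⟨i, hi, rfl⟩)
      · exact Or.inr (Or.inr ⟨i, hi, rfl⟩)
  have hVL : ∀ f ∈ E, L f ∈ V := fun f hf => (hV _).2 (Or.inl ⟨f, hf, Or.inl rfl⟩)
  have hVF : ∀ f ∈ E, F f ∈ V := fun f hf => (hV _).2 (Or.inl ⟨f, hf, Or.inr (Or.inl rfl)⟩)
  have hVR : ∀ f ∈ E, R f ∈ V := fun f hf => (hV _).2 (Or.inl ⟨f, hf, Or.inr (Or.inr rfl)⟩)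
  have hVA : ∀ i < m, cA i ∈ V := fun i hi => (hV _).2 (Or.inr ⟨i, hi, Or.inl rfl⟩)
  have hVB : ∀ i < m, cB i ∈ V := fun i hi => (hV _).2 (Or.inr ⟨i, hi, Or.inr rfl⟩)
  have hVC : ∀ v ∈ V, IsC M X v := by
    intro v hv
    rcases (hV v).1 hv with ⟨f, hf, h1 | h1 | h1⟩ | ⟨i, hi, h1 | h1⟩
    · rw [h1]; exact (hLFR f hf).1
    · rw [h1]; exact (hLFR f hf).2.1
    · rw [h1]; exact (hLFR f hf).2.2.1
    · rw [h1]; exact (hAB i hi).1
    · rw [h1]; exact (hAB i hi).2.1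
  have hδ0 := hδ.pos
  have hδ1 : (1 : ℝ) + δ ≠ 0 := by linarith
  have hzne : ∀ i < m, (e i).z ≠ zc δ e i := by
    intro i hi
    have h1 := (star_ne hE (hW.memE i hi)).1
    have h2 : zc δ e i = (e i).z + (-δ) • ((e i).b - (e i).z) := by
      unfold zc
      rw [← neg_sub (e i).z (e i).b, smul_neg, neg_smul, neg_neg]
    rw [h2]
    exact ne_smul h1 (neg_ne_zero.2 hδ0.ne')
  -- the connectivity in general form
  have hconn : ∀ C : Finset ℕ, Slit M (YY E m e y K g h w δ C) → ∀ κ : Set Pt → Prop,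
      (∀ i < m, i ∈ C → (κ (cA i) ↔ κ (cB i))) →
      (∀ f ∈ E, (κ (L f) ↔ κ (F f)) ∧ (κ (F f) ↔ κ (R f))) →
      ∀ u v, IsC M X u → IsC M X v → (κ u ↔ κ v) := by
    rintro C hC κ hz hg u v ⟨a, ha, haX, rfl⟩ ⟨b, hb, hbX, rfl⟩
    refine S.conn hT hδ C hC κ ?_ ?_ a ha haX b hb hbX
    · intro i hi hiC u hu v hv huX hvX hs
      obtain ⟨h1, h2, h3⟩ := hAB i hi
      obtain ⟨h4, h5⟩ := side_unique hXc hT (hzne i hi) hs h3 ⟨u, hu, huX, rfl⟩
        ⟨v, hv, hvX, rfl⟩ h1 h2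
      rw [h4, h5]
      exact hz i hi hiC
    · intro j hj u hu v hv huX hvX hs
      obtain ⟨hgE, hhj⟩ := hG.memE j hj
      obtain ⟨h1, h2, h3, ⟨h4, -⟩, ⟨h5, -⟩, -⟩ := hLFR (g j) hgE
      obtain ⟨-, hbm, hbp, -, -, -⟩ := star_ne hE hgE
      unfold gc at hs
      rcases hhj with hh | hh
      · rw [hh] at hs
        obtain ⟨h6, h7⟩ := side_unique hXc hT (ne_smul hbm hδ1) hs h4 ⟨u, hu, huX, rfl⟩
          ⟨v, hv, hvX, rfl⟩ h1 h2
        rw [h6, h7]
        exact (hg _ hgE).1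
      · rw [hh] at hs
        obtain ⟨h6, h7⟩ := side_unique hXc hT (ne_smul hbp hδ1) hs h5 ⟨u, hu, huX, rfl⟩
          ⟨v, hv, hvX, rfl⟩ h2 h3
        rw [h6, h7]
        exact (hg _ hgE).2
  -- all cells are in V
  have hall : ∀ v, IsC M X v → v ∈ V := by
    intro v hv
    obtain ⟨f0, hf0⟩ := hne
    have h1 := hconn Ie hSe (fun v => v ∈ V)
      (fun i hi _ => ⟨fun _ => hVB i hi, fun _ => hVA i hi⟩)
      (fun f hf => ⟨⟨fun _ => hVF f hf, fun _ => hVL f hf⟩, ⟨fun _ => hVR f hf,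
        fun _ => hVF f hf⟩⟩) v (L f0) hv (hLFR f0 hf0).1
    exact h1.2 (hVL f0 hf0)
  -- the doors
  have hdoor_m : ∀ f ∈ E, L f ≠ F f ∧ Supp P (L f) f.m ∧ Supp P (F f) f.m := by
    intro f hf
    obtain ⟨h1, h2, h3, ⟨h4, h4'⟩, -, -⟩ := hLFR f hf
    obtain ⟨-, hbm, hbp, -, -, -⟩ := star_ne hE hf
    exact side_door hXc hT (ne_smul hbm hδ1) h4 h1 h2 h4' (hE.mem f hf).2.1
      (hE.mem f hf).2.2.1 hbm hδ1 (fun a => ori_smul _ _ _ _) (Or.inr rfl)
      (mem_smul _ _ (by linarith))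
  have hdoor_p : ∀ f ∈ E, F f ≠ R f ∧ Supp P (F f) f.p ∧ Supp P (R f) f.p := by
    intro f hf
    obtain ⟨h1, h2, h3, -, ⟨h4, h4'⟩, -⟩ := hLFR f hf
    obtain ⟨-, hbm, hbp, -, -, -⟩ := star_ne hE hf
    exact side_door hXc hT (ne_smul hbp hδ1) h4 h2 h3 h4' (hE.mem f hf).2.1
      (hE.mem f hf).2.2.2 hbp hδ1 (fun a => ori_smul _ _ _ _) (Or.inr rfl)
      (mem_smul _ _ (by linarith))
  have hdoor_b : ∀ f ∈ E, R f ≠ L f ∧ Supp P (R f) f.b ∧ Supp P (L f) f.b := by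
    intro f hf
    obtain ⟨h1, h2, h3, -, -, ⟨z', hz', h4⟩⟩ := hLFR f hf
    obtain ⟨hzb, hbm, hbp, -, -, -⟩ := star_ne hE hf
    have hsub : segment ℝ f.b z' ⊆ X := by
      intro x hx
      apply hstarX f hf
      rw [segment_symm]
      exact (convex_segment f.b f.z).segment_subset (left_mem_segment ℝ _ _)
        (openSegment_subset_segment ℝ _ _ hz') hx
    rw [openSegment_eq_image'] at hz'
    obtain ⟨s, ⟨hs0, hs1⟩, rfl⟩ := hz'
    exact side_door hXc hT (ne_smul hzb.symm hs0.ne') h4 h3 h1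
      ((openSegment_subset_segment ℝ _ _).trans hsub) (hE.mem f hf).2.1
      (hE.mem f hf).1 hzb.symm hs0.ne' (fun a => ori_smul _ _ _ _) (Or.inl rfl)
      (left_mem_segment ℝ _ _)
  have hdoor_z : ∀ i < m, cA i ≠ cB i ∧ Supp P (cA i) (e i).z ∧ Supp P (cB i) (e i).z := by
    intro i hi
    obtain ⟨h1, h2, h3⟩ := hAB i hi
    have hf := hW.memE i hi
    obtain ⟨hzb, -, -, -, -, -⟩ := star_ne hE hf
    refine side_door hXc hT (hzne i hi) h3 h1 h2 ?_ (hE.mem _ hf).1 (hE.mem _ hf).2.1 hzb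
      (neg_ne_zero.2 hδ0.ne') (fun a => ori_zc δ e i a) (Or.inl rfl) (left_mem_segment ℝ _ _)
    intro x hx
    have h4 := (S.gap_z hδ hi hx).2.1
    rw [hX, XX]
    exact Or.inl (Or.inr (Set.mem_iUnion₂.2 ⟨i, hi, h4⟩))
  -- connectivity for the doors
  have hconn2 : ∀ C : Finset ℕ, C ⊆ Finset.range m → Slit M (YY E m e y K g h w δ C) →
      ∀ κ : Set Pt → Prop,
      (∀ d, IsDoor E (C.image fun i => (e i).z) d → (∀ f ∈ E, d ≠ f.b) →
        (κ (A d) ↔ κ (B d))) → ∀ u ∈ V, ∀ v ∈ V, (κ u ↔ κ v) := by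
    intro C hCm hC κ hκ u hu v hv
    refine hconn C hC κ ?_ ?_ u v (hVC u hu) (hVC v hv)
    · intro i hi hiC
      have h1 := hκ (e i).z (Or.inr (Finset.mem_image.2 ⟨i, hiC, rfl⟩))
        (fun f hf => (hE.zne (e i) (hW.memE i hi) f hf).1)
      rwa [hA2 i hi, hB2 i hi] at h1
    · intro f hf
      obtain ⟨-, hbm, hbp, -, -, -⟩ := star_ne hE hf
      have h1 := hκ f.m (Or.inl ⟨f, hf, Or.inr (Or.inl rfl)⟩) (by
        intro f' hf'
        by_cases hff : f = f'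
        · subst hff
          exact hbm.symm
        · exact (hE.ear f hf f' hf' hff f.m (Or.inr (Or.inl rfl))).1)
      have h2 := hκ f.p (Or.inl ⟨f, hf, Or.inr (Or.inr rfl)⟩) (by
        intro f' hf'
        by_cases hff : f = f'
        · subst hff
          exact hbp.symm
        · exact (hE.ear f hf f' hf' hff f.p (Or.inr (Or.inr rfl))).1)
      rw [(hA1 f hf).2.1, (hB1 f hf).2.1] at h1
      rw [(hA1 f hf).2.2, (hB1 f hf).2.2] at h2
      exact ⟨h1, h2⟩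
  refine ⟨V, A, B, Ie.image (fun i => (e i).z), If.image (fun i => (e i).z), ?_⟩
  refine
    { isOpen := fun v hv => isC_open hXc (hVC v hv)
      conv := fun v hv => isC_convex hXc hT (hVC v hv)
      disj := ?_
      star := ?_
      cov := ?_
      left := fun f hf => by rw [(hA1 f hf).1, (hA1 f hf).2.1]
      front := fun f hf => by rw [(hB1 f hf).2.1, (hA1 f hf).2.2]
      right := fun f hf => by rw [(hB1 f hf).1, (hB1 f hf).2.2]
      cen := ?_
      disjC := ?_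
      door := ?_
      conn_e := hconn2 Ie hIe hSe
      conn_f := hconn2 If hIf hSf }
  · intro u hu v hv huv
    rw [Set.disjoint_iff_inter_eq_empty]
    by_contra h1
    exact huv (isC_eq hXc hT (hVC u hu) (hVC v hv) (Set.nonempty_iff_ne_empty.2 h1))
  · intro v hv f hf
    exact (isC_disj (hVC v hv)).mono_right (hstarX f hf)
  · intro p hp
    have hz : ∀ i < m, p = (e i).z → ∃ v ∈ V, p ∈ closure v := by
      rintro i hi rfl
      exact ⟨cA i, hVA i hi, (hdoor_z i hi).2.1.2.1⟩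
    have hb : ∀ f ∈ E, p = f.b → ∃ v ∈ V, p ∈ closure v := by
      rintro f hf rfl
      exact ⟨L f, hVL f hf, (hdoor_b f hf).2.2.2.1⟩
    by_cases hpX : p ∈ X
    · rw [hX, XX] at hpX
      rcases hpX with (h1 | h1) | h1
      · rw [stars, Set.mem_iUnion₂] at h1
        obtain ⟨f, hf, h1⟩ := h1
        rcases P_star hgp hE hf hp h1 with h2 | h2
        · obtain ⟨i, hi, h3⟩ := hW.cov f hf
          exact hz i hi (h2.trans h3.symm)
        · exact hb f hf h2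
      · rw [Set.mem_iUnion₂] at h1
        obtain ⟨i, hi, h1⟩ := h1
        exact hz i hi (P_cw hgp hE hW hi hp h1)
      · rw [Set.mem_iUnion₂] at h1
        obtain ⟨j, hj, h1⟩ := h1
        obtain ⟨hgE, hhj⟩ := hG.memE j hj
        rcases S.P_gw hj hp h1 with h2 | h2
        · exact hb _ hgE h2
        · rcases hhj with h3 | h3
          · rw [h2, h3]
            exact ⟨L (g j), hVL _ hgE, (hdoor_m _ hgE).2.1.2.1⟩
          · rw [h2, h3]
            exact ⟨F (g j), hVF _ hgE, (hdoor_p _ hgE).2.1.2.1⟩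
    · exact ⟨cell M X p, hall _ ⟨p, hM p hp, hpX, rfl⟩,
        subset_closure (mem_cell_self (hM p hp) hpX)⟩
  · intro z hz
    rw [Finset.mem_union, Finset.mem_image, Finset.mem_image] at hz
    rcases hz with ⟨i, hi, rfl⟩ | ⟨i, hi, rfl⟩
    · exact ⟨e i, hW.memE i (Finset.mem_range.1 (hIe hi)), rfl⟩
    · exact ⟨e i, hW.memE i (Finset.mem_range.1 (hIf hi)), rfl⟩
  · rw [Finset.disjoint_left]
    intro z hz hz'
    rw [Finset.mem_image] at hz hz'
    obtain ⟨i, hi, rfl⟩ := hz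
    obtain ⟨i', hi', h1⟩ := hz'
    have h2 := hW.inj i' (Finset.mem_range.1 (hIf hi')) i (Finset.mem_range.1 (hIe hi)) h1
    subst h2
    exact Finset.disjoint_left.1 hIdisj hi hi'
  · intro d hd
    have hz : ∀ i < m, d = (e i).z → A d ∈ V ∧ B d ∈ V ∧ A d ≠ B d ∧
        Supp P (A d) d ∧ Supp P (B d) d := by
      rintro i hi rfl
      rw [hA2 i hi, hB2 i hi]
      exact ⟨hVA i hi, hVB i hi, (hdoor_z i hi).1, (hdoor_z i hi).2.1, (hdoor_z i hi).2.2⟩
    rcases hd with ⟨f, hf, rfl | rfl | rfl⟩ | hd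
    · rw [(hA1 f hf).1, (hB1 f hf).1]
      exact ⟨hVL f hf, hVR f hf, (hdoor_b f hf).1.symm, (hdoor_b f hf).2.2, (hdoor_b f hf).2.1⟩
    · rw [(hA1 f hf).2.1, (hB1 f hf).2.1]
      exact ⟨hVL f hf, hVF f hf, (hdoor_m f hf).1, (hdoor_m f hf).2.1, (hdoor_m f hf).2.2⟩
    · rw [(hA1 f hf).2.2, (hB1 f hf).2.2]
      exact ⟨hVF f hf, hVR f hf, (hdoor_p f hf).1, (hdoor_p f hf).2.1, (hdoor_p f hf).2.2⟩
    · rw [Finset.mem_union, Finset.mem_image, Finset.mem_image] at hd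
      rcases hd with ⟨i, hi, h1⟩ | ⟨i, hi, h1⟩
      · exact hz i (Finset.mem_range.1 (hIe hi)) h1.symm
      · exact hz i (Finset.mem_range.1 (hIf hi)) h1.symm

end F059
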