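import Pool.Agent.Lib.F059.CDefs
import Pool.Agent.Lib.F059.NoCross

/-!
# F059C.GoodBad: an outer edge is good or bad at each end

s(a,b) ∈ T, c a ≠ c b.  Q = class of b.  Suppose the line a b does not support Q at b (not `Bad`).  By general position no point of Q other than b is on the line a b.
So there are points of Q on both sides: Lq = {x ∈ Q : 0 < ori a b x}, Rq = {x ∈ Q : ori a b x < 0} are not empty.
CLAIM: for p ∈ Lq, q ∈ Rq the points a and b are strictly on the same side of the line p q and b is between a and the line: precisely 0 < ori q p b (b is on the left of q → p, as a is: 0 < ori q p a).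
  For p ∈ Lq, q ∈ Rq the segment p q meets the line a b in a point x(p,q) = a + t (b-a), t = t(p,q).  x(p,q) ∈ conv Q.  a ∉ conv Q (disj: a ∈ class of a), so t ≠ 0; t > 0: otherwise a is between x(p,q) and b,
  both in conv Q.  t ≠ 1 as b is not on the line p q.  Suppose some t(p,q) < 1.  Take the pair (p,q) with t minimal.  Then HE: all other points x of Q are strictly on the side of b of the line p q: x is not on the line (general position); suppose x
  is on the other side (the side of a; x ≠ b).  If x ∈ Lq: the segment x q meets the line a b in x(x,q), which is strictly on the side of a of the line p q, i.e. t(x,q) < t(p,q): contradiction.  If x ∈ Rq the same with (p,x).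
  So s(p,q) ∈ HEs ⊆ T (orientation: p → q or q → p with the class on the left).  And `Cr a b p q` (0 < t < 1): contradiction to Plane T.
  So all t(p,q) > 1.  [t = ori q p a/(ori q p a - ori q p b); with ori a b p > 0 > ori a b q we have ori q p a - ori q p b = ori a b p - ori a b q > 0... check the sign: t(p,q) is determined by ori q p (a + t(b-a)) = 0.]
  t > 1 and t > 0 mean: ori q p a > ori q p b > 0.
Now choose m ∈ Lq such that all x ∈ Lq, x ≠ m, satisfy ori b m x < 0 (largest angle at b; on the half plane Lq the relation ori b x x' > 0 is a strict linear order by general position: take the maximum),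
and p ∈ Rq such that all x ∈ Rq, x ≠ p, satisfy 0 < ori b p x.  For x ∈ Rq: 0 < ori x m b = ori b x m = - ori b m x by the claim, so ori b m x < 0; for x ∈ Lq: 0 < ori p x b = ori b p x by the claim.
So HE m b (0 < ori m b x = - ori b m x for all x ∈ Q other than m, b) and HE b p.
Good: 0 < ori a b m, ori a b p < 0 gives 0 < ori a p b, and 0 < ori p m b by the claim.
-/

namespace F059

namespace GoodBadAux

lemma ori_ne {P : Finset Pt} (hgp : GenPos P) {p q r : Pt} (hp : p ∈ P) (hq : q ∈ P) (hr : r ∈ P)
    (h1 : p ≠ q) (h2 : p ≠ r) (h3 : q ≠ r) : ori p q r ≠ 0 := hgp p hp q hq r hr h1 h2 h3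

/-- `a` is in the triangle `p q b` -/
lemma mem_hull {a b p q : Pt} (hp : 0 < ori a b p) (hq : ori a b q < 0) (hA : ori q p a ≤ 0)
    {s : Set Pt} (hps : p ∈ s) (hqs : q ∈ s) (hbs : b ∈ s) : a ∈ convexHull ℝ s := by
  have hAB : ori q p a - ori q p b = ori a b p - ori a b q := by unfold ori; ring
  have hB : 0 < - ori q p b := by linarith
  have hconv := convex_convexHull ℝ s
  have h1 := subset_convexHull ℝ s hps
  have h2 := subset_convexHull ℝ s hqs
  have h3 := subset_convexHull ℝ s hbs
  have key : a = ((-ori a b q) / (-ori q p b)) • p + ((ori a b p) / (-ori q p b)) • q +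
      ((-ori q p a) / (-ori q p b)) • b := by
    apply Prod.ext
    · simp only [Prod.fst_add, Prod.smul_fst, smul_eq_mul]
      rw [div_mul_eq_mul_div, div_mul_eq_mul_div, div_mul_eq_mul_div, ← add_div, ← add_div,
        eq_div_iff hB.ne']
      unfold ori
      ring
    · simp only [Prod.snd_add, Prod.smul_snd, smul_eq_mul]
      rw [div_mul_eq_mul_div, div_mul_eq_mul_div, div_mul_eq_mul_div, ← add_div, ← add_div,
        eq_div_iff hB.ne']
      unfold ori
      ring
  have hsum : (-ori a b q) / (-ori q p b) + (ori a b p) / (-ori q p b) +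
      (-ori q p a) / (-ori q p b) = 1 := by
    rw [← add_div, ← add_div, div_eq_one_iff_eq hB.ne']
    linarith
  have := hconv.sum_mem (t := (Finset.univ : Finset (Fin 3)))
    (w := ![(-ori a b q) / (-ori q p b), (ori a b p) / (-ori q p b), (-ori q p a) / (-ori q p b)])
    (z := ![p, q, b]) ?_ ?_ ?_
  · rw [Fin.sum_univ_three] at this
    simp only [Matrix.cons_val_zero, Matrix.cons_val_one, Matrix.cons_val] at this
    rw [key]
    exact this
  · intro i _
    fin_cases i
    · exact div_nonneg (by linarith) hB.le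
    · exact div_nonneg hp.le hB.le
    · exact div_nonneg (by linarith) hB.le
  · rw [Fin.sum_univ_three]
    simpa using hsum
  · intro i _
    fin_cases i
    · exact h1
    · exact h2
    · exact h3

end GoodBadAux

open GoodBadAux

theorem good_or_bad {P : Finset Pt} {c : Pt → ℕ} {T : Finset (Sym2 Pt)} (S : TriSys P c T)
    {a b : Pt} (hab : s(a, b) ∈ T) (hc : c a ≠ c b) :
    Bad P c a b ∨ ∃ l : Leaf, l.z = a ∧ l.b = b ∧ Good P c l := by
  classical
  obtain ⟨haP, hbP, hne⟩ := mem_Seg.1 (S.sub hab)
  have hgp := S.cs.gp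
  by_cases hbad : Bad P c a b
  · exact Or.inl hbad
  right
  -- points of the class of `b` are different from `a`
  have hxa : ∀ x, c x = c b → x ≠ a := by
    rintro x hx rfl; exact hc hx
  have hf0 : ∀ x ∈ P, c x = c b → x ≠ b → ori a b x ≠ 0 := fun x hx hcx hxb =>
    ori_ne hgp haP hbP hx hne (hxa x hcx).symm hxb.symm
  -- both sides are not empty
  obtain ⟨⟨xL, hxL, hcL, hbL, hfL⟩, ⟨xR, hxR, hcR, hbR, hfR⟩⟩ :
      (∃ x ∈ P, c x = c b ∧ x ≠ b ∧ 0 < ori a b x) ∧
      (∃ x ∈ P, c x = c b ∧ x ≠ b ∧ ori a b x < 0) := by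
    unfold Bad at hbad
    push Not at hbad
    obtain ⟨⟨x, hx, hcx, hxb, hx0⟩, ⟨y, hy, hcy, hyb, hy0⟩⟩ := hbad
    exact ⟨⟨y, hy, hcy, hyb, lt_of_le_of_ne hy0 (hf0 y hy hcy hyb).symm⟩,
      ⟨x, hx, hcx, hxb, lt_of_le_of_ne hx0 (hf0 x hx hcx hxb)⟩⟩
  have hbne : ∀ x, ori a b x ≠ 0 → x ≠ b := by
    rintro x hx rfl
    apply hx; unfold ori; ring
  -- the first claim
  have claim1 : ∀ p ∈ P, ∀ q ∈ P, c p = c b → c q = c b → 0 < ori a b p → ori a b q < 0 →
      0 < ori q p a := by
    intro p hp q hq hcp hcq hfp hfq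
    by_contra hcon
    have h1 : a ∈ convexHull ℝ (cls P c (c b) : Set Pt) := by
      apply mem_hull hfp hfq (not_lt.1 hcon)
      · simp [cls, hp, hcp]
      · simp [cls, hq, hcq]
      · simp [cls, hbP]
    have h2 : a ∈ convexHull ℝ (cls P c (c a) : Set Pt) := by
      apply subset_convexHull
      simp [cls, haP]
    exact Set.disjoint_left.1 (S.cs.disj (c a) (c b) hc) h2 h1
  -- the second claim
  have claim2 : ∀ p ∈ P, ∀ q ∈ P, c p = c b → c q = c b → 0 < ori a b p → ori a b q < 0 →
      0 < ori q p b := by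
    intro p0 hp0 q0 hq0 hcp0 hcq0 hfp0 hfq0
    by_contra hcon
    have hpq0 : p0 ≠ q0 := by rintro rfl; linarith
    have hB0 : ori q0 p0 b < 0 := by
      refine lt_of_le_of_ne (not_lt.1 hcon) ?_
      exact ori_ne hgp hq0 hp0 hbP hpq0.symm (hbne q0 hfq0.ne) (hbne p0 hfp0.ne')
    set F : Finset (Pt × Pt) := (P ×ˢ P).filter (fun x => c x.1 = c b ∧ c x.2 = c b ∧
      0 < ori a b x.1 ∧ ori a b x.2 < 0) with hF
    set t : Pt × Pt → ℝ := fun x => ori x.2 x.1 a / (ori a b x.1 - ori a b x.2) with ht
    have hF0 : (p0, q0) ∈ F := by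
      simp only [hF, Finset.mem_filter, Finset.mem_product]
      exact ⟨⟨hp0, hq0⟩, hcp0, hcq0, hfp0, hfq0⟩
    obtain ⟨⟨p, q⟩, hpq, hmin⟩ := F.exists_min_image t ⟨_, hF0⟩
    have hpq' := hpq
    simp only [hF, Finset.mem_filter, Finset.mem_product] at hpq'
    obtain ⟨⟨hp, hq⟩, hcp, hcq, hfp, hfq⟩ := hpq'
    have hpne : p ≠ q := by rintro rfl; linarith
    have hden : ∀ x y : Pt, 0 < ori a b x → ori a b y < 0 → 0 < ori a b x - ori a b y :=
      fun x y hx hy => by linarith
    have hAB : ∀ x y : Pt, ori y x a - ori y x b = ori a b x - ori a b y := by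
      intro x y; unfold ori; ring
    have ht0 : t (p0, q0) < 1 := by
      simp only [ht]
      rw [div_lt_one (hden _ _ hfp0 hfq0)]
      have := hAB p0 q0
      linarith
    have ht1 : t (p, q) < 1 := (hmin _ hF0).trans_lt ht0
    have hB : ori q p b < 0 := by
      simp only [ht] at ht1
      rw [div_lt_one (hden _ _ hfp hfq)] at ht1
      have := hAB p q
      linarith
    have hA := claim1 p hp q hq hcp hcq hfp hfq
    have hHE : HE P c p q := by
      refine ⟨hp, hq, hpne, hcp.trans hcq.symm, ?_⟩
      intro x hx hcx hxp hxq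
      by_contra hneg
      have hcxb : c x = c b := hcx.trans hcp
      have h0 : ori q p x ≠ 0 := ori_ne hgp hq hp hx hpne.symm hxq.symm hxp.symm
      have h1 : ori p q x = - ori q p x := by unfold ori; ring
      have h2 : 0 < ori q p x := lt_of_le_of_ne (by linarith [not_lt.1 hneg]) h0.symm
      have hxb : x ≠ b := by rintro rfl; linarith
      rcases lt_or_gt_of_ne (hf0 x hx hcxb hxb) with h3 | h3
      · -- `x` on the right
        have h4 : (p, x) ∈ F := by
          simp only [hF, Finset.mem_filter, Finset.mem_product]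
          exact ⟨⟨hp, hx⟩, hcp, hcxb, hfp, h3⟩
        have h5 := hmin _ h4
        simp only [ht] at h5
        rw [div_le_div_iff₀ (hden _ _ hfp hfq) (hden _ _ hfp h3)] at h5
        have h6 : ori x p a * (ori a b p - ori a b q) - ori q p a * (ori a b p - ori a b x) =
            - (ori q p x * ori a b p) := by unfold ori; ring
        have h7 : 0 < ori q p x * ori a b p := mul_pos h2 hfp
        linarith
      · have h4 : (x, q) ∈ F := by
          simp only [hF, Finset.mem_filter, Finset.mem_product]
          exact ⟨⟨hx, hq⟩, hcxb, hcq, h3, hfq⟩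
        have h5 := hmin _ h4
        simp only [ht] at h5
        rw [div_le_div_iff₀ (hden _ _ hfp hfq) (hden _ _ h3 hfq)] at h5
        have h6 : ori q x a * (ori a b p - ori a b q) - ori q p a * (ori a b x - ori a b q) =
            ori q p x * ori a b q := by unfold ori; ring
        have h7 : ori q p x * ori a b q < 0 := mul_neg_of_pos_of_neg h2 hfq
        linarith
    have hmemT : s(p, q) ∈ T := by
      apply S.hull
      unfold HEs
      rw [Finset.mem_filter]
      exact ⟨mem_Seg.2 ⟨hp, hq, hpne⟩, p, q, rfl, hHE⟩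
    refine S.plane _ hab _ hmemT (SCr_mk.2 ⟨mul_neg_of_pos_of_neg hfp hfq, ?_⟩)
    have e1 : ori p q a = - ori q p a := by unfold ori; ring
    have e2 : ori p q b = - ori q p b := by unfold ori; ring
    rw [e1, e2, neg_mul_neg]
    exact mul_neg_of_pos_of_neg hA hB
  -- the slopes
  set g : Pt → ℝ := fun x =>
    ((x.1 - b.1) * (b.1 - a.1) + (x.2 - b.2) * (b.2 - a.2)) / ori a b x with hg
  have hu : 0 < (b.1 - a.1) ^ 2 + (b.2 - a.2) ^ 2 := by
    by_contra hcon
    have h1 : (b.1 - a.1) ^ 2 = 0 := by nlinarith [sq_nonneg (b.1 - a.1), sq_nonneg (b.2 - a.2)]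
    have h2 : (b.2 - a.2) ^ 2 = 0 := by nlinarith [sq_nonneg (b.1 - a.1), sq_nonneg (b.2 - a.2)]
    apply hne
    apply Prod.ext
    · nlinarith [pow_eq_zero_iff (two_ne_zero) |>.1 h1]
    · nlinarith [pow_eq_zero_iff (two_ne_zero) |>.1 h2]
  have hslope : ∀ x y : Pt, ori a b x ≠ 0 → ori a b y ≠ 0 →
      ((b.1 - a.1) ^ 2 + (b.2 - a.2) ^ 2) * ori b x y = ori a b x * ori a b y * (g x - g y) := by
    intro x y hx hy
    have h1 : ori a b x * ori a b y * (g x - g y) =
        ((x.1 - b.1) * (b.1 - a.1) + (x.2 - b.2) * (b.2 - a.2)) * ori a b y -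
        ((y.1 - b.1) * (b.1 - a.1) + (y.2 - b.2) * (b.2 - a.2)) * ori a b x := by
      simp only [hg]
      field_simp
    rw [h1]
    unfold ori
    ring
  -- the point `m`
  obtain ⟨m, hmF, hmmin⟩ := (P.filter (fun x => c x = c b ∧ 0 < ori a b x)).exists_min_image g
    ⟨xL, by simp [hxL, hcL, hfL]⟩
  obtain ⟨p, hpF, hpmax⟩ := (P.filter (fun x => c x = c b ∧ ori a b x < 0)).exists_max_image g
    ⟨xR, by simp [hxR, hcR, hfR]⟩
  simp only [Finset.mem_filter] at hmF hpF
  obtain ⟨hmP, hcm, hfm⟩ := hmF
  obtain ⟨hpP, hcp, hfp⟩ := hpF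
  have hmb : m ≠ b := hbne m hfm.ne'
  have hpb : p ≠ b := hbne p hfp.ne
  have hHE1 : HE P c m b := by
    refine ⟨hmP, hbP, hmb, hcm, ?_⟩
    intro x hx hcx hxm hxb
    have hcxb : c x = c b := hcx.trans hcm
    have e : ori m b x = - ori b m x := by unfold ori; ring
    rcases lt_or_gt_of_ne (hf0 x hx hcxb hxb) with h3 | h3
    · have h4 := claim2 m hmP x hx hcm hcxb hfm h3
      have e' : ori m b x = ori x m b := by unfold ori; ring
      rw [e']; exact h4
    · have h4 := hmmin x (by simp [hx, hcxb, h3])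
      have h5 := hslope m x hfm.ne' h3.ne'
      have h6 : ori a b m * ori a b x * (g m - g x) ≤ 0 :=
        mul_nonpos_of_nonneg_of_nonpos (mul_pos hfm h3).le (by linarith)
      have h7 : ori b m x ≤ 0 := by
        rw [← h5] at h6
        by_contra hcon
        have := mul_pos hu (not_le.1 hcon)
        linarith
      have h8 : ori b m x ≠ 0 := ori_ne hgp hbP hmP hx hmb.symm hxb.symm hxm.symm
      have h9 : ori b m x < 0 := lt_of_le_of_ne h7 h8
      rw [e]; linarith
  have hHE2 : HE P c b p := by
    refine ⟨hbP, hpP, hpb.symm, hcp.symm, ?_⟩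
    intro x hx hcx hxb hxp
    have hcxb : c x = c b := hcx
    rcases lt_or_gt_of_ne (hf0 x hx hcxb hxb) with h3 | h3
    · have h4 := hpmax x (by simp [hx, hcxb, h3])
      have h5 := hslope p x hfp.ne h3.ne
      have h6 : 0 ≤ ori a b p * ori a b x * (g p - g x) :=
        mul_nonneg (mul_pos_of_neg_of_neg hfp h3).le (by linarith)
      have h7 : 0 ≤ ori b p x := by
        rw [← h5] at h6
        by_contra hcon
        have := mul_neg_of_pos_of_neg hu (not_le.1 hcon)
        linarith
      have h8 : ori b p x ≠ 0 := ori_ne hgp hbP hpP hx hpb.symm hxb.symm hxp.symm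
      exact lt_of_le_of_ne h7 h8.symm
    · have h4 := claim2 x hx p hpP hcxb hcp h3 hfp
      have e' : ori b p x = ori p x b := by unfold ori; ring
      rw [e']; exact h4
  refine ⟨⟨a, b, m, p⟩, rfl, rfl, hHE1, hHE2, hfm, ?_, ?_⟩
  · change 0 < ori a p b
    have : ori a p b = - ori a b p := by unfold ori; ring
    rw [this]; linarith
  · exact claim2 m hmP p hpP hcm hcp hfm hfp

end F059
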