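import Pool.Agent.Lib.F059.CDefs
import Pool.Agent.Lib.F059.NoCross

/-!
# F059C.Tangent: few edges are bad

`bad_fixed`: z fixed, class i: two points b ≠ b' of the class with all other points of the class on the left of z → b, resp. z → b': 0 < ori z b b' and 0 < ori z b' b = - ori z b b': contradiction.
The same for right.  So at most 2 per class, at most 2 R in total (classes i ∈ P.image c).
`bad_bad`: edges s(a,b) ∈ T, c a ≠ c b, bad at both ends.  For i < j (values of c) and a ∈ class i, b ∈ class j there are four types (class of b left/right of the line a → b, class of a left/right of a → b).  At most one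
edge of each type: let (a,b) ≠ (a',b') be of the same type.  If a = a' then b ≠ b' and as in `bad_fixed` contradiction; similarly b = b'.  So a ≠ a', b ≠ b'.
Type (left,left): 0 < ori a b a', 0 < ori a b b', 0 < ori a' b' a, 0 < ori a' b' b: then `Cr a a' b b'` (ori a a' b = - ori a b a' < 0, ori a a' b' = ori a' b' a > 0, ori b b' a = ori a b b' > 0, ori b b' a' = - ori a' b' b < 0),
so the hulls of class i and class j have a common point: contradiction to `disj`.  (right,right): mirror image.
Type (b's class left, a's class right): ori a b a' < 0 < ori a b b', ori a' b' a < 0 < ori a' b' b: `Cr a b a' b'`: contradiction, T is plane.  The other mixed type: the same.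
Total ≤ 4 (number of pairs i<j) ≤ 4 R^2.  (Bad P c b a says: all other points of the class of a are strictly on one side of the line b a.)
-/

namespace F059

namespace TangentAux

/-- all other points of the class of `b` are on the left of `a → b` -/
def Lft (P : Finset Pt) (c : Pt → ℕ) (a b : Pt) : Prop :=
  ∀ x ∈ P, c x = c b → x ≠ b → 0 < ori a b x

/-- all other points of the class of `b` are on the right of `a → b` -/
def Rgt (P : Finset Pt) (c : Pt → ℕ) (a b : Pt) : Prop :=
  ∀ x ∈ P, c x = c b → x ≠ b → ori a b x < 0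

lemma bad_rgt {P : Finset Pt} {c : Pt → ℕ} {a b : Pt} (h : Bad P c a b) (h' : ¬ Lft P c a b) :
    Rgt P c a b := h.resolve_left h'

/-- same centre, same class, same side: same point -/
lemma eq_of_side {P : Finset Pt} {c : Pt → ℕ} {z b b' : Pt} (hb : b ∈ P) (hb' : b' ∈ P)
    (hc : c b = c b') (h : Bad P c z b) (h' : Bad P c z b') (hl : Lft P c z b ↔ Lft P c z b') :
    b = b' := by
  by_contra hne
  have e := ori_swap' z b b'
  by_cases h1 : Lft P c z b
  · have h2 := hl.1 h1
    have h3 := h1 b' hb' hc.symm (Ne.symm hne)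
    have h4 := h2 b hb hc hne
    linarith
  · have h2 : ¬ Lft P c z b' := fun h2 => h1 (hl.2 h2)
    have h3 := bad_rgt h h1 b' hb' hc.symm (Ne.symm hne)
    have h4 := bad_rgt h' h2 b hb hc hne
    linarith

/-- two different classes: no crossing of segments inside the classes -/
lemma no_class_cross {P : Finset Pt} {c : Pt → ℕ} (S : ClsSys P c) {a a' b b' : Pt} (ha : a ∈ P)
    (ha' : a' ∈ P) (hb : b ∈ P) (hb' : b' ∈ P) (hca : c a = c a') (hcb : c b = c b')
    (hab : c a ≠ c b) : ¬ Cr a a' b b' := by
  intro h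
  obtain ⟨x, hx1, hx2⟩ := h.exists_mem
  have hmem : ∀ u ∈ P, ∀ i, c u = i → u ∈ convexHull ℝ (cls P c i : Set Pt) := by
    intro u hu i hi
    apply subset_convexHull
    unfold cls
    simp [hu, hi]
  have h1 : x ∈ convexHull ℝ (cls P c (c a) : Set Pt) :=
    (convex_convexHull ℝ _).segment_subset (hmem a ha _ rfl) (hmem a' ha' _ hca.symm)
      (openSegment_subset_segment ℝ _ _ hx1)
  have h2 : x ∈ convexHull ℝ (cls P c (c b) : Set Pt) :=
    (convex_convexHull ℝ _).segment_subset (hmem b hb _ rfl) (hmem b' hb' _ hcb.symm)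
      (openSegment_subset_segment ℝ _ _ hx2)
  exact Set.disjoint_left.1 (S.disj (c a) (c b) hab) h1 h2

/-- at most one edge of each type -/
lemma eq_of_type {P : Finset Pt} {c : Pt → ℕ} {T : Finset (Sym2 Pt)} (S : TriSys P c T)
    {a b a' b' : Pt} (he : s(a, b) ∈ T) (he' : s(a', b') ∈ T) (hca : c a = c a')
    (hcb : c b = c b') (hab : c a ≠ c b) (h1 : Bad P c a b) (h2 : Bad P c b a)
    (h1' : Bad P c a' b') (h2' : Bad P c b' a') (hl : Lft P c a b ↔ Lft P c a' b')
    (hr : Lft P c b a ↔ Lft P c b' a') : a = a' ∧ b = b' := by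
  obtain ⟨ha, hb, -⟩ := mem_Seg.1 (S.sub he)
  obtain ⟨ha', hb', -⟩ := mem_Seg.1 (S.sub he')
  by_cases haa : a = a'
  · subst haa
    exact ⟨rfl, eq_of_side hb hb' hcb h1 h1' hl⟩
  by_cases hbb : b = b'
  · subst hbb
    exact ⟨eq_of_side ha ha' hca h2 h2' hr, rfl⟩
  exfalso
  have c1 : ori b a a' = - ori a b a' := ori_swap a b a'
  have c2 : ori b' a' a = - ori a' b' a := ori_swap a' b' a
  have d1 : ori a a' b = - ori a b a' := ori_swap' a b a'
  have d2 : ori a a' b' = ori a' b' a := by unfold ori; ring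
  have d3 : ori b b' a = ori a b b' := by unfold ori; ring
  have d4 : ori b b' a' = - ori a' b' b := by unfold ori; ring
  by_cases hL : Lft P c a b
  · have k1 := hL b' hb' hcb.symm (Ne.symm hbb)
    have k1' := hl.1 hL b hb hcb hbb
    by_cases hR : Lft P c b a
    · have k2 := hR a' ha' hca.symm (Ne.symm haa)
      have k2' := hr.1 hR a ha hca haa
      -- mixed type
      apply S.plane _ he _ he'
      rw [SCr_mk]
      refine ⟨?_, ?_⟩
      · exact mul_neg_of_neg_of_pos (by linarith) k1
      · exact mul_neg_of_neg_of_pos (by linarith) k1'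
    · have hR' : ¬ Lft P c b' a' := fun h => hR (hr.2 h)
      have k2 := bad_rgt h2 hR a' ha' hca.symm (Ne.symm haa)
      have k2' := bad_rgt h2' hR' a ha hca haa
      apply no_class_cross S.cs ha ha' hb hb' hca hcb hab
      refine ⟨?_, ?_⟩
      · exact mul_neg_of_neg_of_pos (by linarith) (by linarith)
      · exact mul_neg_of_pos_of_neg (by linarith) (by linarith)
  · have hL' : ¬ Lft P c a' b' := fun h => hL (hl.2 h)
    have k1 := bad_rgt h1 hL b' hb' hcb.symm (Ne.symm hbb)
    have k1' := bad_rgt h1' hL' b hb hcb hbb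
    by_cases hR : Lft P c b a
    · have k2 := hR a' ha' hca.symm (Ne.symm haa)
      have k2' := hr.1 hR a ha hca haa
      apply no_class_cross S.cs ha ha' hb hb' hca hcb hab
      refine ⟨?_, ?_⟩
      · exact mul_neg_of_pos_of_neg (by linarith) (by linarith)
      · exact mul_neg_of_neg_of_pos (by linarith) (by linarith)
    · have hR' : ¬ Lft P c b' a' := fun h => hR (hr.2 h)
      have k2 := bad_rgt h2 hR a' ha' hca.symm (Ne.symm haa)
      have k2' := bad_rgt h2' hR' a ha hca haa
      apply S.plane _ he _ he'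
      rw [SCr_mk]
      refine ⟨?_, ?_⟩
      · exact mul_neg_of_pos_of_neg (by linarith) k1
      · exact mul_neg_of_pos_of_neg (by linarith) k1'

end TangentAux

open TangentAux

open Classical in
theorem bad_fixed {P : Finset Pt} {c : Pt → ℕ} (z : Pt) :
    (P.filter (fun b => Bad P c z b)).card ≤ 2 * (P.image c).card := by
  have h : (P.filter (fun b => Bad P c z b)).card ≤
      ((P.image c) ×ˢ (Finset.univ : Finset Bool)).card := by
    refine Finset.card_le_card_of_injOn (fun b => (c b, decide (Lft P c z b))) ?_ ?_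
    · intro b hb
      rw [Finset.mem_coe, Finset.mem_filter] at hb
      rw [Finset.mem_coe, Finset.mem_product]
      exact ⟨Finset.mem_image_of_mem _ hb.1, Finset.mem_univ _⟩
    · intro b hb b' hb' heq
      rw [Finset.mem_coe, Finset.mem_filter] at hb hb'
      rw [Prod.mk.injEq, decide_eq_decide] at heq
      exact eq_of_side hb.1 hb'.1 heq.1 hb.2 hb'.2 heq.2
  rw [Finset.card_product, Finset.card_univ, Fintype.card_bool] at h
  omega

open Classical in
theorem bad_bad {P : Finset Pt} {c : Pt → ℕ} {T : Finset (Sym2 Pt)} (S : TriSys P c T) :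
    (T.filter (fun e => ∃ a b, e = s(a, b) ∧ c a ≠ c b ∧ Bad P c a b ∧ Bad P c b a)).card
      ≤ 4 * (P.image c).card ^ 2 := by
  have hrep : ∀ e : Sym2 Pt, ∃ w : Pt × Pt,
      (∃ a b, e = s(a, b) ∧ c a ≠ c b ∧ Bad P c a b ∧ Bad P c b a) →
      e = s(w.1, w.2) ∧ c w.1 < c w.2 ∧ Bad P c w.1 w.2 ∧ Bad P c w.2 w.1 := by
    intro e
    by_cases h : ∃ a b, e = s(a, b) ∧ c a ≠ c b ∧ Bad P c a b ∧ Bad P c b a
    · obtain ⟨a, b, he, hne, h1, h2⟩ := h
      rcases lt_or_gt_of_ne hne with hlt | hlt
      · exact ⟨(a, b), fun _ => ⟨he, hlt, h1, h2⟩⟩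
      · exact ⟨(b, a), fun _ => ⟨by rw [he, Sym2.eq_swap], hlt, h2, h1⟩⟩
    · exact ⟨((0 : Pt), (0 : Pt)), fun h' => absurd h' h⟩
  choose r hr using hrep
  have h : (T.filter (fun e => ∃ a b, e = s(a, b) ∧ c a ≠ c b ∧ Bad P c a b ∧ Bad P c b a)).card ≤
      (((P.image c) ×ˢ (P.image c)) ×ˢ ((Finset.univ : Finset Bool) ×ˢ
        (Finset.univ : Finset Bool))).card := by
    refine Finset.card_le_card_of_injOn (fun e => ((c (r e).1, c (r e).2),
      (decide (Lft P c (r e).1 (r e).2), decide (Lft P c (r e).2 (r e).1)))) ?_ ?_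
    · intro e he
      rw [Finset.mem_coe, Finset.mem_filter] at he
      obtain ⟨h1, -⟩ := hr e he.2
      have hT := S.sub he.1
      rw [h1, mem_Seg] at hT
      rw [Finset.mem_coe, Finset.mem_product, Finset.mem_product]
      exact ⟨⟨Finset.mem_image_of_mem _ hT.1, Finset.mem_image_of_mem _ hT.2.1⟩,
        Finset.mem_product.2 ⟨Finset.mem_univ _, Finset.mem_univ _⟩⟩
    · intro e he e' he' heq
      rw [Finset.mem_coe, Finset.mem_filter] at he he'
      obtain ⟨h1, h2, h3, h4⟩ := hr e he.2
      obtain ⟨h1', h2', h3', h4'⟩ := hr e' he'.2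
      simp only [Prod.mk.injEq, decide_eq_decide] at heq
      obtain ⟨⟨e1, e2⟩, e3, e4⟩ := heq
      have hT := he.1
      have hT' := he'.1
      rw [h1] at hT
      rw [h1'] at hT'
      have := eq_of_type S hT hT' e1 e2 (ne_of_lt h2) h3 h4 h3' h4' e3 e4
      rw [h1, h1', this.1, this.2]
  refine h.trans ?_
  simp only [Finset.card_product, Finset.card_univ, Fintype.card_bool]
  apply le_of_eq
  ring

end F059
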