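import Pool.Agent.Lib.F059.CDefs
import Pool.Agent.Lib.F059.HullPl
import Pool.Agent.Lib.F059.Tangent
import Pool.Agent.Lib.F059.GoodBad

/-!
# F059C.Excl: few outer edges are no candidates

Let e = s(a,b) be an outer edge of T which is not of the form s(l.z,l.b), l a candidate.  One of:
(x1) an end v with d0 ≤ deg v < D0: at most Σ deg v over these v ≤ μ edges.
(x2) both ends are hubs (D0 ≤ deg): a plane set of segments with ends in the set H of hubs: ≤ 6 |H| (hplane: the bound 6|Q| for plane sets on any finite Q ⊆ P).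
(x3) one end z is a hub, the other end b is small (deg < d0) and Bad z b: ≤ |H| 2 R (`bad_fixed` for each hub z).
(x4) both ends small, Bad at both ends: ≤ 4 R^2 (`bad_bad`).
(x5) otherwise at one end b, small, `good_or_bad` gives Good l with l.b = b, l.z = the other end (hub or small); it is not a candidate, so l.m or l.p is a hub: b is a hull neighbour of a hub: b is one of the
≤ 2 |H| points b with HE h b or HE b h, h ∈ H (unique_right, unique_left), each small: ≤ 2 |H| d0 edges.
Total ≤ μ + 6 h + 2 R h + 4 R^2 + 2 h d0.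
-/

namespace F059

open Classical in
theorem excl_count {P : Finset Pt} {c : Pt → ℕ} {T : Finset (Sym2 Pt)} (S : TriSys P c T)
    (hplane : ∀ Q ⊆ P, ∀ A : Finset (Sym2 Pt), A ⊆ Seg Q → Plane A → A.card ≤ 6 * Q.card)
    {d0 D0 : ℕ} (hd : d0 ≤ D0) {R h μ : ℕ} (hR : (P.image c).card ≤ R)
    (hh : (P.filter (fun v => D0 ≤ deg T c v)).card ≤ h)
    (hμ : ∑ v ∈ P.filter (fun v => d0 ≤ deg T c v ∧ deg T c v < D0), deg T c v ≤ μ) :
    ((outer T c).filter (fun e => ¬ ∃ l, IsCand P c T d0 D0 l ∧ e = s(l.z, l.b))).card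
      ≤ μ + 6 * h + 2 * R * h + 4 * R ^ 2 + 2 * h * d0 := by
  set H : Finset Pt := P.filter (fun v => D0 ≤ deg T c v) with hH
  set Mid : Finset Pt := P.filter (fun v => d0 ≤ deg T c v ∧ deg T c v < D0) with hMid
  set W : Finset Pt := (H.biUnion fun u => P.filter (fun b => HE P c u b) ∪
    P.filter (fun b => HE P c b u)).filter (fun b => deg T c b < d0) with hW
  set A1 : Finset (Sym2 Pt) := Mid.biUnion fun v => edgesAt (outer T c) v with hA1
  set A2 : Finset (Sym2 Pt) := (outer T c).filter (fun e => e ∈ Seg H) with hA2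
  set A3 : Finset (Sym2 Pt) :=
    H.biUnion fun z => (P.filter (fun b => Bad P c z b)).image (fun b => s(z, b)) with hA3
  set A4 : Finset (Sym2 Pt) :=
    T.filter (fun e => ∃ a b, e = s(a, b) ∧ c a ≠ c b ∧ Bad P c a b ∧ Bad P c b a) with hA4
  set A5 : Finset (Sym2 Pt) := W.biUnion fun b => edgesAt (outer T c) b with hA5
  -- cardinalities
  have c1 : A1.card ≤ μ := Finset.card_biUnion_le.trans hμ
  have c2 : A2.card ≤ 6 * h := by
    have h1 : A2 ⊆ Seg H := fun e he => (Finset.mem_filter.1 he).2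
    have h2 : Plane A2 := by
      intro e he f hf
      have he' : e ∈ T := (Finset.mem_filter.1 (Finset.mem_filter.1 he).1).1
      have hf' : f ∈ T := (Finset.mem_filter.1 (Finset.mem_filter.1 hf).1).1
      exact S.plane e he' f hf'
    exact (hplane H (Finset.filter_subset _ _) A2 h1 h2).trans (Nat.mul_le_mul_left _ hh)
  have c3 : A3.card ≤ 2 * R * h := by
    refine Finset.card_biUnion_le.trans ?_
    calc ∑ z ∈ H, ((P.filter (fun b => Bad P c z b)).image (fun b => s(z, b))).card
        ≤ ∑ _z ∈ H, 2 * R := Finset.sum_le_sum fun z _ =>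
          Finset.card_image_le.trans ((bad_fixed z).trans (Nat.mul_le_mul_left _ hR))
      _ = H.card * (2 * R) := by rw [Finset.sum_const, smul_eq_mul]
      _ ≤ h * (2 * R) := Nat.mul_le_mul_right _ hh
      _ = 2 * R * h := Nat.mul_comm _ _
  have c4 : A4.card ≤ 4 * R ^ 2 :=
    (bad_bad S).trans (Nat.mul_le_mul_left _ (Nat.pow_le_pow_left hR 2))
  have cW : W.card ≤ 2 * h := by
    refine (Finset.card_filter_le _ _).trans (Finset.card_biUnion_le.trans ?_)
    calc ∑ u ∈ H, (P.filter (fun b => HE P c u b) ∪ P.filter (fun b => HE P c b u)).card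
        ≤ ∑ _u ∈ H, 2 := by
          refine Finset.sum_le_sum fun u _ => ?_
          refine (Finset.card_union_le _ _).trans ?_
          have e1 : (P.filter (fun b => HE P c u b)).card ≤ 1 := by
            refine Finset.card_le_one.2 fun x hx y hy => ?_
            exact HE.unique_right (Finset.mem_filter.1 hx).2 (Finset.mem_filter.1 hy).2
          have e2 : (P.filter (fun b => HE P c b u)).card ≤ 1 := by
            refine Finset.card_le_one.2 fun x hx y hy => ?_
            exact HE.unique_left (Finset.mem_filter.1 hx).2 (Finset.mem_filter.1 hy).2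
          omega
      _ = H.card * 2 := by rw [Finset.sum_const, smul_eq_mul]
      _ ≤ h * 2 := Nat.mul_le_mul_right _ hh
      _ = 2 * h := Nat.mul_comm _ _
  have c5 : A5.card ≤ 2 * h * d0 := by
    refine Finset.card_biUnion_le.trans ?_
    calc ∑ b ∈ W, (edgesAt (outer T c) b).card ≤ ∑ _b ∈ W, d0 := by
          refine Finset.sum_le_sum fun b hb => ?_
          exact (Finset.mem_filter.1 hb).2.le
      _ = W.card * d0 := by rw [Finset.sum_const, smul_eq_mul]
      _ ≤ 2 * h * d0 := Nat.mul_le_mul_right _ cW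
  -- good ends
  have key : ∀ e ∈ outer T c, (¬ ∃ l, IsCand P c T d0 D0 l ∧ e = s(l.z, l.b)) →
      ∀ l : Leaf, e = s(l.z, l.b) → c l.z ≠ c l.b → Good P c l → deg T c l.b < d0 →
      (deg T c l.z < d0 ∨ D0 ≤ deg T c l.z) → e ∈ A5 := by
    intro e he hno l hel hcl hg hb hz
    have heT : e ∈ T := (Finset.mem_filter.1 he).1
    have hor : D0 ≤ deg T c l.m ∨ D0 ≤ deg T c l.p := by
      by_contra hcon
      push Not at hcon
      exact hno ⟨l, ⟨hel ▸ heT, hcl, hg, hb, hz, hcon.1, hcon.2⟩, hel⟩
    have hbW : l.b ∈ W := by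
      refine Finset.mem_filter.2 ⟨Finset.mem_biUnion.2 ?_, hb⟩
      rcases hor with hm | hp
      · refine ⟨l.m, Finset.mem_filter.2 ⟨hg.1.1, hm⟩, Finset.mem_union_left _ ?_⟩
        exact Finset.mem_filter.2 ⟨hg.1.2.1, hg.1⟩
      · refine ⟨l.p, Finset.mem_filter.2 ⟨hg.2.1.2.1, hp⟩, Finset.mem_union_right _ ?_⟩
        exact Finset.mem_filter.2 ⟨hg.2.1.1, hg.2.1⟩
    refine Finset.mem_biUnion.2 ⟨l.b, hbW, Finset.mem_filter.2 ⟨he, ?_⟩⟩
    rw [hel]
    exact Sym2.mem_mk_right _ _
  have hsub : (outer T c).filter (fun e => ¬ ∃ l, IsCand P c T d0 D0 l ∧ e = s(l.z, l.b)) ⊆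
      A1 ∪ A2 ∪ A3 ∪ A4 ∪ A5 := by
    intro e he
    obtain ⟨heo, hno⟩ := Finset.mem_filter.1 he
    obtain ⟨heT, a, b, hab, hcab⟩ := Finset.mem_filter.1 heo
    have hs : s(a, b) ∈ T := hab ▸ heT
    obtain ⟨haP, hbP, -⟩ := mem_Seg.1 (S.sub hs)
    have hs' : s(b, a) ∈ T := by rw [Sym2.eq_swap]; exact hs
    have hab' : e = s(b, a) := by rw [hab, Sym2.eq_swap]
    simp only [Finset.mem_union]
    by_cases ha1 : d0 ≤ deg T c a ∧ deg T c a < D0
    · refine Or.inl (Or.inl (Or.inl (Or.inl (Finset.mem_biUnion.2 ⟨a, ?_, ?_⟩))))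
      · exact Finset.mem_filter.2 ⟨haP, ha1⟩
      · refine Finset.mem_filter.2 ⟨heo, ?_⟩
        rw [hab]
        exact Sym2.mem_mk_left _ _
    by_cases hb1 : d0 ≤ deg T c b ∧ deg T c b < D0
    · refine Or.inl (Or.inl (Or.inl (Or.inl (Finset.mem_biUnion.2 ⟨b, ?_, ?_⟩))))
      · exact Finset.mem_filter.2 ⟨hbP, hb1⟩
      · refine Finset.mem_filter.2 ⟨heo, ?_⟩
        rw [hab]
        exact Sym2.mem_mk_right _ _
    have ha2 : deg T c a < d0 ∨ D0 ≤ deg T c a := by
      by_contra hcon
      push Not at hcon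
      exact ha1 hcon
    have hb2 : deg T c b < d0 ∨ D0 ≤ deg T c b := by
      by_contra hcon
      push Not at hcon
      exact hb1 hcon
    rcases hb2 with hbs | hbh
    · rcases ha2 with has | hah
      · -- both small
        rcases good_or_bad S hs hcab with hbad | ⟨l, hl1, hl2, hg⟩
        · rcases good_or_bad S hs' hcab.symm with hbad' | ⟨l, hl1, hl2, hg⟩
          · exact Or.inl (Or.inr (Finset.mem_filter.2 ⟨heT, a, b, hab, hcab, hbad, hbad'⟩))
          · exact Or.inr (key e heo hno l (by rw [hl1, hl2]; exact hab')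
              (by rw [hl1, hl2]; exact hcab.symm) hg (by rw [hl2]; exact has)
              (by rw [hl1]; exact Or.inl hbs))
        · exact Or.inr (key e heo hno l (by rw [hl1, hl2]; exact hab)
              (by rw [hl1, hl2]; exact hcab) hg (by rw [hl2]; exact hbs)
              (by rw [hl1]; exact Or.inl has))
      · -- a hub, b small
        rcases good_or_bad S hs hcab with hbad | ⟨l, hl1, hl2, hg⟩
        · refine Or.inl (Or.inl (Or.inr (Finset.mem_biUnion.2
            ⟨a, Finset.mem_filter.2 ⟨haP, hah⟩, Finset.mem_image.2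
              ⟨b, Finset.mem_filter.2 ⟨hbP, hbad⟩, hab.symm⟩⟩)))
        · exact Or.inr (key e heo hno l (by rw [hl1, hl2]; exact hab)
              (by rw [hl1, hl2]; exact hcab) hg (by rw [hl2]; exact hbs)
              (by rw [hl1]; exact Or.inr hah))
    · rcases ha2 with has | hah
      · -- b hub, a small
        rcases good_or_bad S hs' hcab.symm with hbad | ⟨l, hl1, hl2, hg⟩
        · refine Or.inl (Or.inl (Or.inr (Finset.mem_biUnion.2
            ⟨b, Finset.mem_filter.2 ⟨hbP, hbh⟩, Finset.mem_image.2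
              ⟨a, Finset.mem_filter.2 ⟨haP, hbad⟩, hab'.symm⟩⟩)))
        · exact Or.inr (key e heo hno l (by rw [hl1, hl2]; exact hab')
              (by rw [hl1, hl2]; exact hcab.symm) hg (by rw [hl2]; exact has)
              (by rw [hl1]; exact Or.inr hbh))
      · -- both hubs
        refine Or.inl (Or.inl (Or.inl (Or.inr (Finset.mem_filter.2 ⟨heo, ?_⟩))))
        rw [hab]
        exact mem_Seg.2 ⟨Finset.mem_filter.2 ⟨haP, hah⟩, Finset.mem_filter.2 ⟨hbP, hbh⟩,
          fun h => hcab (by rw [h])⟩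
  calc _ ≤ (A1 ∪ A2 ∪ A3 ∪ A4 ∪ A5).card := Finset.card_le_card hsub
    _ ≤ A1.card + A2.card + A3.card + A4.card + A5.card := by
      refine (Finset.card_union_le _ _).trans (Nat.add_le_add_right ?_ _)
      refine (Finset.card_union_le _ _).trans (Nat.add_le_add_right ?_ _)
      refine (Finset.card_union_le _ _).trans (Nat.add_le_add_right ?_ _)
      exact Finset.card_union_le _ _
    _ ≤ _ := by omega

end F059
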