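import Pool.Agent.Lib.F059.Main

/-!
# F059C.Final: h(n) = o(n^2)

`hT_le`: IsTriangulation P T, k ≤ N, Reach P k (edg T) B, Ham P B, GenPos P: hT P T ≤ N: `a_out` gives T' with ReachT k T T', IsTriangulation P T', HamT P T'; iInf₂_le.
`h_le`: for n ≥ 1 and a bound N valid for all P in general position with |P| = n, 3 ≤ n: h n ≤ N (iSup_le).  For n = 1, 2 there is no triangulation (a triangle has 3 vertices in P; P nonempty, `vertex`).
`h_finite`: 1 ≤ n → h n ≠ ⊤: h n ≤ 36 n^2 (`finite_tri`, `a_in`).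
`h_isLittleO`: Asymptotics.isLittleO_iff: for ε > 0 eventually (h n).toNat ≤ ε n^2: h n ≤ ⌊ε n^2⌋₊ from `main_tri` (k natural number ≤ ε n^2 gives k ≤ ⌊ε n^2⌋₊), ENat.toNat_le_of_le_coe.
-/

namespace F059

open Asymptotics Filter

namespace FinalAux

lemma hT_le {P : Finset Pt} (hgp : GenPos P) {T : Finset (Finset Pt)} (hT' : IsTriangulation P T)
    {k M : ℕ} (hk : k ≤ M) {B : Finset (Sym2 Pt)} (hr : Reach P k (edg T) B) (hB : Ham P B) :
    hT P T ≤ (M : ℕ∞) := by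
  obtain ⟨T', h1, h2, -, h4⟩ := a_out hgp hT' hr
  unfold hT
  exact (iInf₂_le k ⟨T', h1, h2, h4 hB⟩).trans (by exact_mod_cast hk)

lemma three_le {P : Finset Pt} {T : Finset (Finset Pt)} (hT' : IsTriangulation P T)
    (hP : 1 ≤ P.card) : 3 ≤ P.card := by
  obtain ⟨p, hp⟩ := Finset.card_pos.1 (by omega : 0 < P.card)
  obtain ⟨t, ht, -⟩ := hT'.vertex p hp
  obtain ⟨h1, h2⟩ := hT'.tri t ht
  rw [← h2]
  exact Finset.card_le_card h1

lemma h_le {n M : ℕ} (hn : 1 ≤ n)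
    (H : ∀ P : Finset Pt, GenPos P → P.card = n → 3 ≤ P.card → ∀ A, Tri P A →
      ∃ (k : ℕ) (T' : Finset (Sym2 Pt)), k ≤ M ∧ Reach P k A T' ∧ Ham P T') :
    h n ≤ (M : ℕ∞) := by
  unfold h
  refine iSup₂_le fun P hP => iSup₂_le fun T hT' => ?_
  obtain ⟨k, B, hk, hr, hB⟩ := H P hP.1 hP.2 (three_le hT' (by rw [hP.2]; exact hn)) _
    (a_in hP.1 hT')
  exact hT_le hP.1 hT' hk hr hB

end FinalAux

open FinalAux

theorem h_finite {n : ℕ} (hn : 1 ≤ n) : h n ≠ ⊤ := by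
  have h1 : h n ≤ ((36 * n ^ 2 : ℕ) : ℕ∞) := by
    refine h_le hn ?_
    intro P hgp hPn h3 A hA
    obtain ⟨k, T', hk, hr, hH⟩ := finite_tri hgp h3 hA
    rw [hPn] at hk
    exact ⟨k, T', hk, hr, hH⟩
  exact ne_top_of_le_ne_top (ENat.natCast_ne_top _) h1

theorem h_isLittleO : (fun n : ℕ => ((h n).toNat : ℝ)) =o[atTop] (fun n : ℕ => (n : ℝ) ^ 2) := by
  rw [isLittleO_iff]
  intro ε hε
  obtain ⟨n0, hn0⟩ := main_tri ε hε
  filter_upwards [eventually_ge_atTop n0, eventually_ge_atTop 1] with n hn hn1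
  have h0 : (0 : ℝ) ≤ ε * (n : ℝ) ^ 2 := by positivity
  have h1 : h n ≤ ((⌊ε * (n : ℝ) ^ 2⌋₊ : ℕ) : ℕ∞) := by
    refine h_le hn1 ?_
    intro P hgp hPn h3 A hA
    obtain ⟨k, T', hk, hr, hH⟩ := hn0 P (by rw [hPn]; exact hn) hgp A hA
    rw [hPn] at hk
    exact ⟨k, T', Nat.le_floor hk, hr, hH⟩
  have h2 : (h n).toNat ≤ ⌊ε * (n : ℝ) ^ 2⌋₊ := ENat.toNat_le_of_le_natCast h1
  rw [Real.norm_of_nonneg (Nat.cast_nonneg _), Real.norm_of_nonneg (by positivity)]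
  exact (Nat.cast_le.2 h2).trans (Nat.floor_le h0)

end F059
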