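import Mathlib

/-!
# F059B.Greedy: greedy hitting sets

`greedy_hit`.  PROOF.  As long as ranges remain, choose the element of V which is in the largest number of remaining
ranges; by double counting it is in at least |F'| |range| / |V| ≥ |F'|/k of them.  So the number of remaining ranges
is multiplied by at most (1 - 1/k) in each step, after k steps by at most (1-1/k)^k ≤ 1/2, after
k (Nat.log 2 |F| + 1) steps fewer than 1 range remains.

`greedy_conf`.  The same, with conf symmetric, conflict degree ≤ κ and the chosen set conflict-free: let N = k (Nat.log 2 |F| + 1).  After fewer than N choices E,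
the elements of U which are equal to or in conflict with a chosen element are at most N (κ+1) ≤ b, so every
remaining range still has ≥ 2b - b = b available elements (not chosen, not in conflict with a chosen one); double counting over
U, |U| ≤ k b: some available element is in at least |F'| b / |U| ≥ |F'|/k of the remaining ranges.
-/

namespace F059

namespace GreedyAux

open Classical in
/-- double counting: some element is in at least the `k`-th part of the ranges -/
lemma pick {α β : Type*} (U : Finset α) (F : Finset β) (mem : β → Finset α)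
    (hF : F.Nonempty) (hpos : ∀ f ∈ F, (mem f).Nonempty) (hsub : ∀ f ∈ F, mem f ⊆ U) (k : ℕ)
    (hbig : ∀ f ∈ F, U.card ≤ k * (mem f).card) :
    ∃ u ∈ U, (∃ f ∈ F, u ∈ mem f) ∧ F.card ≤ k * (F.filter (fun f => u ∈ mem f)).card := by
  by_contra hcon
  push Not at hcon
  obtain ⟨f0, hf0⟩ := hF
  obtain ⟨u0, hu0⟩ := hpos f0 hf0
  have hlt : ∀ u ∈ U, k * (F.filter (fun f => u ∈ mem f)).card < F.card := by
    intro u hu
    by_cases h : ∃ f ∈ F, u ∈ mem f
    · exact hcon u hu h
    · push Not at h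
      have h0 : F.filter (fun f => u ∈ mem f) = ∅ := by
        rw [Finset.filter_eq_empty_iff]
        intro f hf
        exact h f hf
      rw [h0]
      simp only [Finset.card_empty, mul_zero]
      exact Finset.card_pos.2 ⟨f0, hf0⟩
  have h1 : ∑ u ∈ U, k * (F.filter (fun f => u ∈ mem f)).card < ∑ _u ∈ U, F.card := by
    apply Finset.sum_lt_sum_of_nonempty ⟨u0, hsub f0 hf0 hu0⟩
    exact hlt
  have h2 : ∑ u ∈ U, (F.filter (fun f => u ∈ mem f)).card = ∑ f ∈ F, (mem f).card := by
    have h3 := Finset.sum_card_bipartiteAbove_eq_sum_card_bipartiteBelow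
      (s := U) (t := F) (fun u f => u ∈ mem f)
    have h4 : ∀ f ∈ F, (Finset.bipartiteBelow (fun u f => u ∈ mem f) U f).card = (mem f).card := by
      intro f hf
      congr 1
      ext u
      simp only [Finset.bipartiteBelow, Finset.mem_filter]
      exact ⟨fun h => h.2, fun h => ⟨hsub f hf h, h⟩⟩
    rw [Finset.sum_congr rfl h4] at h3
    rw [← h3]
    rfl
  rw [← Finset.mul_sum, h2, Finset.sum_const, smul_eq_mul] at h1
  have h5 : ∑ _f ∈ F, U.card ≤ ∑ f ∈ F, k * (mem f).card := Finset.sum_le_sum hbig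
  rw [← Finset.mul_sum, Finset.sum_const, smul_eq_mul] at h5
  have : F.card * U.card = U.card * F.card := mul_comm _ _
  omega

/-- `2 (k-1)^k ≤ k^k` -/
lemma half_pow (k : ℕ) (hk : 0 < k) : 2 * (k - 1) ^ k ≤ k ^ k := by
  have h1 : (1 - 1 / (k : ℝ)) ^ k ≤ Real.exp (-1) := by
    apply Real.one_sub_div_pow_le_exp_neg
    exact_mod_cast hk
  have h2 : Real.exp (-1) < 0.3678794412 := Real.exp_neg_one_lt_d9
  have hk0 : (0 : ℝ) < k := by exact_mod_cast hk
  have h3 : (1 - 1 / (k : ℝ)) ^ k ≤ 1 / 2 := by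
    refine h1.trans (h2.le.trans ?_)
    norm_num
  have h4 : (1 - 1 / (k : ℝ)) = ((k : ℝ) - 1) / k := by field_simp
  rw [h4, div_pow, div_le_iff₀ (by positivity)] at h3
  have h5 : (2 : ℝ) * ((k : ℝ) - 1) ^ k ≤ (k : ℝ) ^ k := by linarith
  have h6 : ((k - 1 : ℕ) : ℝ) = (k : ℝ) - 1 := by
    rw [Nat.cast_sub hk]; simp
  have h7 : (((2 * (k - 1) ^ k : ℕ)) : ℝ) ≤ ((k ^ k : ℕ) : ℝ) := by
    push_cast
    rw [h6]
    exact h5
  exact_mod_cast h7

lemma end_pow (k m n : ℕ) (hk : 0 < k)
    (h : k ^ (k * (Nat.log 2 n + 1)) * m ≤ (k - 1) ^ (k * (Nat.log 2 n + 1)) * n) : m = 0 := by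
  set L := Nat.log 2 n + 1 with hL
  have h1 : 2 ^ L * (k - 1) ^ (k * L) ≤ k ^ (k * L) := by
    rw [pow_mul, pow_mul, ← mul_pow]
    exact Nat.pow_le_pow_left (half_pow k hk) L
  have h2 : n < 2 ^ L := Nat.lt_pow_succ_log_self (by norm_num) n
  by_contra hm
  have hm1 : 1 ≤ m := Nat.one_le_iff_ne_zero.2 hm
  have hkp : 0 < k ^ (k * L) := Nat.pow_pos hk
  have h3 : k ^ (k * L) ≤ (k - 1) ^ (k * L) * n := by
    calc k ^ (k * L) = k ^ (k * L) * 1 := (mul_one _).symm
      _ ≤ k ^ (k * L) * m := Nat.mul_le_mul_left _ hm1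
      _ ≤ _ := h
  have h4 : 0 < (k - 1) ^ (k * L) := by
    rcases Nat.eq_zero_or_pos ((k - 1) ^ (k * L)) with h0 | h0
    · rw [h0, zero_mul] at h3; omega
    · exact h0
  have h5 : (k - 1) ^ (k * L) * n < (k - 1) ^ (k * L) * 2 ^ L := (Nat.mul_lt_mul_left h4).2 h2
  have h6 : 2 ^ L * (k - 1) ^ (k * L) = (k - 1) ^ (k * L) * 2 ^ L := mul_comm _ _
  omega

open Classical in
/-- the greedy algorithm -/
lemma core {α β : Type*} (U : Finset α) (F : Finset β) (mem : β → Finset α)
    (ok : Finset α → Prop) (k : ℕ) (hk : 0 < k) (h0 : ok ∅)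
    (hstep : ∀ E ⊆ U, ok E → E.card < k * (Nat.log 2 F.card + 1) →
      (F.filter (fun f => ∀ u ∈ E, u ∉ mem f)).Nonempty →
      ∃ u ∈ U, ok (insert u E) ∧ (F.filter (fun f => ∀ u ∈ E, u ∉ mem f)).card ≤
        k * ((F.filter (fun f => ∀ u ∈ E, u ∉ mem f)).filter (fun f => u ∈ mem f)).card) :
    ∃ E ⊆ U, ok E ∧ E.card ≤ k * (Nat.log 2 F.card + 1) ∧ ∀ f ∈ F, ∃ u ∈ E, u ∈ mem f := by
  set N := k * (Nat.log 2 F.card + 1) with hN
  have key : ∀ m ≤ N, ∃ E ⊆ U, ok E ∧ E.card ≤ m ∧
      k ^ m * (F.filter (fun f => ∀ u ∈ E, u ∉ mem f)).card ≤ (k - 1) ^ m * F.card := by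
    intro m
    induction m with
    | zero =>
      intro _
      refine ⟨∅, Finset.empty_subset _, h0, by simp, ?_⟩
      simp
    | succ m ih =>
      intro hm
      obtain ⟨E, hE, hok, hcard, hpot⟩ := ih (by omega)
      rcases Finset.eq_empty_or_nonempty (F.filter (fun f => ∀ u ∈ E, u ∉ mem f)) with he | he
      · refine ⟨E, hE, hok, by omega, ?_⟩
        rw [he]
        simp
      · obtain ⟨u, hu, hok', hu2⟩ := hstep E hE hok (by omega) he
        refine ⟨insert u E, Finset.insert_subset hu hE, hok', ?_, ?_⟩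
        · exact (Finset.card_insert_le _ _).trans (by omega)
        · set F' := F.filter (fun f => ∀ u ∈ E, u ∉ mem f) with hF'
          have h1 : F.filter (fun f => ∀ w ∈ insert u E, w ∉ mem f)
              = F'.filter (fun f => u ∉ mem f) := by
            ext f
            simp only [Finset.mem_filter, hF', Finset.mem_insert, forall_eq_or_imp]
            tauto
          rw [h1]
          have h2 : (F'.filter (fun f => u ∈ mem f)).card + (F'.filter (fun f => u ∉ mem f)).card
              = F'.card := Finset.card_filter_add_card_filter_not _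
          set A := (F'.filter (fun f => u ∈ mem f)).card
          set B := (F'.filter (fun f => u ∉ mem f)).card
          have h3 : k * B ≤ (k - 1) * F'.card := by
            obtain ⟨j, rfl⟩ : ∃ j, k = j + 1 := ⟨k - 1, by omega⟩
            have h4 : (j + 1) * (A + B) = (j + 1) * F'.card := by rw [h2]
            have h5 : j + 1 - 1 = j := by omega
            rw [h5]
            have h6 : (j + 1) * F'.card = j * F'.card + F'.card := by ring
            have h7 : (j + 1) * (A + B) = (j + 1) * A + (j + 1) * B := by ring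
            omega
          calc k ^ (m + 1) * B = k ^ m * (k * B) := by ring
            _ ≤ k ^ m * ((k - 1) * F'.card) := Nat.mul_le_mul_left _ h3
            _ = (k - 1) * (k ^ m * F'.card) := by ring
            _ ≤ (k - 1) * ((k - 1) ^ m * F.card) := Nat.mul_le_mul_left _ hpot
            _ = (k - 1) ^ (m + 1) * F.card := by ring
  obtain ⟨E, hE, hok, hcard, hpot⟩ := key N le_rfl
  refine ⟨E, hE, hok, hcard, ?_⟩
  have h1 := end_pow k _ _ hk hpot
  rw [Finset.card_eq_zero, Finset.filter_eq_empty_iff] at h1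
  intro f hf
  have h2 := h1 hf
  push Not at h2
  exact h2

end GreedyAux

open Classical in
lemma GreedyAux.hit {α β : Type*} (V : Finset α) (F : Finset β)
    (mem : β → Finset α) (hsub : ∀ f ∈ F, mem f ⊆ V) (k : ℕ) (hk : 0 < k)
    (hpos : ∀ f ∈ F, (mem f).Nonempty) (hbig : ∀ f ∈ F, V.card ≤ k * (mem f).card) :
    ∃ S ⊆ V, (∀ f ∈ F, ∃ s ∈ S, s ∈ mem f) ∧ S.card ≤ k * (Nat.log 2 F.card + 1) := by
  obtain ⟨E, hE, -, hcard, hhit⟩ := GreedyAux.core V F mem (fun _ => True) k hk trivial (by
    intro E _ _ _ hne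
    obtain ⟨u, hu, -, h⟩ := GreedyAux.pick V _ mem hne
      (fun f hf => hpos f (Finset.mem_of_mem_filter f hf))
      (fun f hf => hsub f (Finset.mem_of_mem_filter f hf)) k
      (fun f hf => hbig f (Finset.mem_of_mem_filter f hf))
    exact ⟨u, hu, trivial, h⟩)
  exact ⟨E, hE, hhit, hcard⟩

theorem greedy_hit {α β : Type*} [DecidableEq α] [DecidableEq β] (V : Finset α) (F : Finset β)
    (mem : β → Finset α) (hsub : ∀ f ∈ F, mem f ⊆ V) (k : ℕ) (hk : 0 < k)
    (hpos : ∀ f ∈ F, (mem f).Nonempty) (hbig : ∀ f ∈ F, V.card ≤ k * (mem f).card) :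
    ∃ S ⊆ V, (∀ f ∈ F, ∃ s ∈ S, s ∈ mem f) ∧ S.card ≤ k * (Nat.log 2 F.card + 1) :=
  GreedyAux.hit V F mem hsub k hk hpos hbig

open Classical in
theorem greedy_conf {α β : Type*} (U : Finset α) (F : Finset β) (mem : β → Finset α)
    (conf : α → α → Prop) (hsymm : ∀ u v, conf u v → conf v u) (κ : ℕ)
    (hκ : ∀ u ∈ U, (U.filter (conf u)).card ≤ κ) (k b : ℕ) (hk : 0 < k) (hb : 0 < b)
    (hsub : ∀ f ∈ F, mem f ⊆ U) (hbig : ∀ f ∈ F, 2 * b ≤ (mem f).card)
    (hU : U.card ≤ k * b) (hN : k * (Nat.log 2 F.card + 1) * (κ + 1) ≤ b) :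
    ∃ E ⊆ U, (∀ u ∈ E, ∀ v ∈ E, u ≠ v → ¬ conf u v) ∧ ∀ f ∈ F, ∃ u ∈ E, u ∈ mem f := by
  obtain ⟨E, hE, hok, -, hhit⟩ := GreedyAux.core U F mem
    (fun E => ∀ u ∈ E, ∀ v ∈ E, u ≠ v → ¬ conf u v) k hk (by simp) (by
    intro E hE hok hcard hne
    -- blocked elements
    set Bl : Finset α := E ∪ E.biUnion (fun e => U.filter (conf e)) with hBl
    have hBc : Bl.card ≤ b := by
      have h1 : (E.biUnion (fun e => U.filter (conf e))).card ≤ E.card * κ := by
        apply Finset.card_biUnion_le_card_mul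
        intro e he
        exact hκ e (hE he)
      have h2 : Bl.card ≤ E.card + E.card * κ := (Finset.card_union_le _ _).trans (by omega)
      have h3 : E.card + E.card * κ = E.card * (κ + 1) := by ring
      have h4 : E.card * (κ + 1) ≤ k * (Nat.log 2 F.card + 1) * (κ + 1) :=
        Nat.mul_le_mul_right _ hcard.le
      omega
    obtain ⟨u, hu, ⟨f, hf, huf⟩, h⟩ := GreedyAux.pick U (F.filter (fun f => ∀ u ∈ E, u ∉ mem f))
      (fun f => mem f \ Bl) hne (by
        intro f hf
        have h1 := hbig f (Finset.mem_of_mem_filter f hf)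
        have h2 := Finset.le_card_sdiff Bl (mem f)
        apply Finset.card_pos.1
        omega) (by
        intro f hf
        exact Finset.sdiff_subset.trans (hsub f (Finset.mem_of_mem_filter f hf))) k (by
        intro f hf
        have h1 := hbig f (Finset.mem_of_mem_filter f hf)
        have h2 := Finset.le_card_sdiff Bl (mem f)
        have h3 : b ≤ (mem f \ Bl).card := by omega
        exact hU.trans (Nat.mul_le_mul_left _ h3))
    rw [Finset.mem_sdiff] at huf
    have hub : u ∉ Bl := huf.2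
    refine ⟨u, hu, ?_, ?_⟩
    · have huc : ∀ e ∈ E, ¬ conf e u := by
        intro e he hc
        apply hub
        rw [hBl, Finset.mem_union, Finset.mem_biUnion]
        exact Or.inr ⟨e, he, by rw [Finset.mem_filter]; exact ⟨hu, hc⟩⟩
      intro x hx y hy hxy
      rw [Finset.mem_insert] at hx hy
      rcases hx with rfl | hx
      · rcases hy with rfl | hy
        · exact absurd rfl hxy
        · intro hc
          exact huc y hy (hsymm _ _ hc)
      · rcases hy with rfl | hy
        · exact huc x hx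
        · exact hok x hx y hy hxy
    · refine h.trans (Nat.mul_le_mul_left _ (Finset.card_le_card ?_))
      intro f' hf'
      rw [Finset.mem_filter] at hf' ⊢
      exact ⟨hf'.1, (Finset.mem_sdiff.1 hf'.2).1⟩)
  exact ⟨E, hE, hok, hhit⟩

end F059
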