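import Pool.Agent.Lib.F059.DDefs

/-!
# F059D.HamM: a connected 2-regular graph has a Hamiltonian cycle

H ⊆ Seg P, every point of P has exactly two edges in H, and every H-closed set of points which contains
a point of P contains P; |P| ≥ 3.  Then `Ham P H`.
PROOF.  The graph G = gr P H on the subtype: every vertex has exactly two neighbours (G.neighborSet x ≃
edgesAt H x: an edge e ∋ x of H has the form s(x,y) with y ∈ P, y ≠ x), so `G.IsCycles`
(SimpleGraph.IsCycles: for all v, (G.neighborSet v).Nonempty → (G.neighborSet v).ncard = 2).  G is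
connected: T = {points reachable from x} is H-closed.  Mathlib:
`SimpleGraph.IsCycles.exists_cycle_toSubgraph_verts_eq_connectedComponentSupp` gives a cycle at x whose
vertices are the whole component = everything; so it is a Hamiltonian cycle (`IsHamiltonianCycle`:
IsCycle and tail is Hamiltonian: every vertex appears exactly once: tail.support is nodup and contains every vertex).
`SimpleGraph.IsHamiltonian`: Fintype.card ≠ 1 → ∃ a, ∃ p : G.Walk a a, p.IsHamiltonianCycle.
-/

namespace F059

theorem ham_of_closed {P : Finset Pt} {H : Finset (Sym2 Pt)} (h3 : 3 ≤ P.card) (hH : H ⊆ Seg P)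
    (hdeg : ∀ p ∈ P, (edgesAt H p).card = 2)
    (hcl : ∀ T : Set Pt, EClosed H T → (∃ q ∈ P, q ∈ T) → ∀ q ∈ P, q ∈ T) : Ham P H := by
  have hn : ∀ x : {x : Pt // x ∈ P}, ((gr P H).neighborSet x).ncard = 2 := by
    intro x
    rw [← hdeg x.1 x.2, ← Set.ncard_coe_finset (edgesAt H x.1)]
    refine Set.ncard_congr (fun y _ => s(x.1, y.1)) ?_ ?_ ?_
    · intro y hy
      rw [Finset.mem_coe]
      unfold edgesAt
      rw [Finset.mem_filter]
      exact ⟨hy.2, Sym2.mem_mk_left _ _⟩
    · intro y z _ _ h
      exact Subtype.ext (Sym2.congr_right.1 h)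
    · intro e he
      rw [Finset.mem_coe] at he
      unfold edgesAt at he
      rw [Finset.mem_filter] at he
      obtain ⟨heH, y, rfl⟩ := he
      have h1 := mem_Seg.1 (hH heH)
      exact ⟨⟨y, h1.2.1⟩, ⟨fun h => h1.2.2 (congrArg Subtype.val h), heH⟩, rfl⟩
  have hcyc : (gr P H).IsCycles := fun x _ => hn x
  obtain ⟨q0, hq0⟩ : P.Nonempty := by
    rw [← Finset.card_pos]
    omega
  set x0 : {x : Pt // x ∈ P} := ⟨q0, hq0⟩ with hx0
  have hreach : ∀ x : {x : Pt // x ∈ P}, (gr P H).Reachable x0 x := by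
    have h1 := hcl {q | ∃ hq : q ∈ P, (gr P H).Reachable x0 ⟨q, hq⟩} ?_
      ⟨q0, hq0, hq0, SimpleGraph.Reachable.refl _⟩
    · intro x
      obtain ⟨_, h2⟩ := h1 x.1 x.2
      exact h2
    · rintro a b hab ⟨ha, hra⟩
      have h2 := mem_Seg.1 (hH hab)
      refine ⟨h2.2.1, hra.trans (SimpleGraph.Adj.reachable ?_)⟩
      exact ⟨fun h => h2.2.2 (congrArg Subtype.val h), hab⟩
  have hne : ((gr P H).neighborSet x0).Nonempty := by
    rw [Set.nonempty_iff_ne_empty]
    intro h0
    have h1 := hn x0
    rw [h0, Set.ncard_empty] at h1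
    omega
  obtain ⟨p, hp, hverts⟩ := hcyc.exists_cycle_toSubgraph_verts_eq_connectedComponentSupp
    (c := (gr P H).connectedComponentMk x0) (v := x0) rfl hne
  unfold Ham SimpleGraph.IsHamiltonian
  intro _
  refine ⟨x0, p, ?_⟩
  rw [SimpleGraph.Walk.isHamiltonianCycle_iff_isCycle_and_support_count_tail_eq_one]
  refine ⟨hp, fun a => ?_⟩
  refine @List.count_eq_one_of_mem _ (_) ?_ a _ hp.support_nodup ?_
  · infer_instance
  have ha : a ∈ p.support := by
    rw [← SimpleGraph.Walk.mem_verts_toSubgraph, hverts, SimpleGraph.ConnectedComponent.mem_supp_iff,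
      SimpleGraph.ConnectedComponent.eq]
    exact (hreach a).symm
  rcases p.mem_support_iff.1 ha with h1 | h1
  · rw [h1]
    exact SimpleGraph.Walk.end_mem_tail_support hp.not_nil
  · exact h1

end F059
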