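import Pool.Agent.Lib.F059.DDefs

/-!
# F059D.HullNbr: extreme points and their hull neighbours

`ext_form`: an extreme point is strictly separated from the other points by a linear form
(geometric Hahn-Banach for the compact convex hull of the finite set `Q.erase a`).
`Ext.mono`: a ∈ Q' ⊆ Q.
`ext_of_supp`: d ∈ Q, all points q of Q have 0 ≤ ori x y q, x ≠ y, d ∈ {x, y}, and the only points of Q
on the line x y are among x, y (from general position of P ∋ x,y, Q ⊆ P): d is extreme in Q.  PROOF: let d = x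
(the other case is symmetric); in a convex combination Σ λ_q q = x over Q \ {x} apply the affine function
ori x y: all q with λ_q > 0 have ori x y q = 0, so q = y, x = y: contradiction.
(Equivalently a linear form: ori x y · plus ε times the component along y - x.)
`hull_nbr`: a extreme in Q (general position), |Q| ≥ 3: there are c ≠ c' in Q with all other points on
the left of a → c and all other points on the right of a → c'.  PROOF: φ linear, 0 < φ(q - a) for q ≠ a;
among the q ≠ a take c minimising / c' maximising det-slope: s(q) = ψ(q-a)/φ(q-a), ψ independent of φ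
with (φ,ψ) positively oriented.  ori a c q = (s(q) - s(c)) φ(q-a) φ(c-a) · (positive constant).  Strict by
general position.  c ≠ c' as |Q| ≥ 3: a third point q has 0 < ori a c q and ori a c' q < 0.
`hull_nbr_ext`: if all points of Q other than a, c are strictly on the left of a → c, a ≠ c ∈ Q, then a and c are
extreme (use ext_of_supp).
-/

namespace F059

theorem ext_form {Q : Finset Pt} {a : Pt} (h : Ext Q a) :
    ∃ φ : Pt →ₗ[ℝ] ℝ, ∀ q ∈ Q, q ≠ a → 0 < φ (q - a) := by
  have hcl : IsClosed (convexHull ℝ ((Q.erase a : Finset Pt) : Set Pt)) :=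
    (Finset.finite_toSet _).isClosed_convexHull _
  obtain ⟨f, u, h1, h2⟩ := geometric_hahn_banach_point_closed (convex_convexHull ℝ _) hcl h.2
  refine ⟨f.toLinearMap, fun q hq hqa => ?_⟩
  have h3 := h2 q (subset_convexHull ℝ _ (by simp [hq, hqa]))
  have h4 : f.toLinearMap (q - a) = f q - f a := by
    rw [map_sub]
    rfl
  rw [h4]
  linarith

theorem ext_of_form {Q : Finset Pt} {a : Pt} (ha : a ∈ Q) (φ : Pt →ₗ[ℝ] ℝ)
    (h : ∀ q ∈ Q, q ≠ a → 0 < φ (q - a)) : Ext Q a := by
  refine ⟨ha, fun hc => ?_⟩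
  have hconv : Convex ℝ {x : Pt | φ a < φ x} := convex_halfSpace_gt φ.isLinear (φ a)
  have hsub : ((Q.erase a : Finset Pt) : Set Pt) ⊆ {x : Pt | φ a < φ x} := by
    intro q hq
    have hq' : q ≠ a ∧ q ∈ Q := by simpa [and_comm] using hq
    have h1 := h q hq'.2 hq'.1
    rw [map_sub] at h1
    exact sub_pos.1 h1
  have h2 : φ a < φ a := convexHull_min hsub hconv hc
  exact lt_irrefl _ h2

theorem Ext.mono {Q Q' : Finset Pt} {a : Pt} (h : Ext Q a) (hs : Q' ⊆ Q) (ha : a ∈ Q') :
    Ext Q' a := by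
  refine ⟨ha, fun hc => h.2 (convexHull_mono ?_ hc)⟩
  intro q hq
  have hq' : q ≠ a ∧ q ∈ Q' := by simpa [and_comm] using hq
  simp [hq'.1, hs hq'.2]

namespace HullNbrAux

theorem ori_comb (x y z w : Pt) (s t : ℝ) (hst : s + t = 1) :
    ori x y (s • z + t • w) = s * ori x y z + t * ori x y w := by
  have ht : t = 1 - s := by linarith
  subst ht
  unfold ori
  simp only [Prod.fst_add, Prod.snd_add, Prod.smul_fst, Prod.smul_snd, smul_eq_mul]
  ring

theorem convex_half (x y w : Pt) (hw : ori x y w = 0) :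
    Convex ℝ {z : Pt | 0 < ori x y z ∨ z = w} := by
  intro z₁ h₁ z₂ h₂ s t hs ht hst
  simp only [Set.mem_ofPred_eq] at h₁ h₂ ⊢
  rw [ori_comb x y z₁ z₂ s t hst]
  rcases h₁ with h₁ | h₁ <;> rcases h₂ with h₂ | h₂
  · left
    rcases hs.lt_or_eq with hs' | hs'
    · have := mul_pos hs' h₁
      have := mul_nonneg ht h₂.le
      linarith
    · have ht' : t = 1 := by linarith
      rw [← hs', ht']
      linarith
  · subst h₂
    rcases hs.lt_or_eq with hs' | hs'
    · left
      rw [hw]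
      have := mul_pos hs' h₁
      linarith
    · right
      have ht' : t = 1 := by linarith
      rw [← hs', ht', zero_smul, one_smul, zero_add]
  · subst h₁
    rcases ht.lt_or_eq with ht' | ht'
    · left
      rw [hw]
      have := mul_pos ht' h₂
      linarith
    · right
      have hs' : s = 1 := by linarith
      rw [← ht', hs', zero_smul, one_smul, add_zero]
  · right
    rw [h₁, h₂, ← add_smul, hst, one_smul]

theorem ori_left (x y : Pt) : ori x y x = 0 := by
  unfold ori
  ring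

theorem ori_right (x y : Pt) : ori x y y = 0 := by
  unfold ori
  ring

theorem ori_cont (x y : Pt) : Continuous fun z => ori x y z := by
  unfold ori
  fun_prop

end HullNbrAux

open HullNbrAux

theorem ext_of_side {Q : Finset Pt} {x y d : Pt} (hxy : x ≠ y) (hd : d ∈ Q) (hdxy : d = x ∨ d = y)
    (hQ : ∀ q ∈ Q, q ≠ x → q ≠ y → 0 < ori x y q) : Ext Q d := by
  obtain ⟨w, hwd, hw, hxw⟩ : ∃ w, w ≠ d ∧ ori x y w = 0 ∧ ∀ q, q ≠ d → q ≠ w → q ≠ x ∧ q ≠ y := by
    rcases hdxy with rfl | rfl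
    · exact ⟨y, hxy.symm, ori_right _ _, fun q h1 h2 => ⟨h1, h2⟩⟩
    · exact ⟨x, hxy, ori_left _ _, fun q h1 h2 => ⟨h2, h1⟩⟩
  have hd0 : ori x y d = 0 := by
    rcases hdxy with rfl | rfl
    · exact ori_left _ _
    · exact ori_right _ _
  refine ⟨hd, fun hc => ?_⟩
  have hsub : ((Q.erase d : Finset Pt) : Set Pt) ⊆ {z : Pt | 0 < ori x y z ∨ z = w} := by
    intro q hq
    have hq' : q ≠ d ∧ q ∈ Q := by simpa [and_comm] using hq
    by_cases hqw : q = w
    · exact Or.inr hqw
    · left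
      have h1 := hxw q hq'.1 hqw
      exact hQ q hq'.2 h1.1 h1.2
  rcases convexHull_min hsub (convex_half x y w hw) hc with h1 | h1
  · rw [hd0] at h1
    exact lt_irrefl _ h1
  · exact hwd h1.symm

/-- a point with a supporting line of the cell is extreme among the points of `P` in the closure -/
theorem ext_of_supp {P Q : Finset Pt} (hgp : GenPos P) {v : Set Pt} {d : Pt} (h : Supp P v d)
    (hQP : Q ⊆ P) (hQ : ∀ q ∈ Q, q ∈ closure v) (hd : d ∈ Q) : Ext Q d := by
  obtain ⟨-, -, x, hx, y, hy, hxy, hdxy, hv⟩ := h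
  refine ext_of_side hxy hd hdxy fun q hq hqx hqy => ?_
  have h1 : 0 ≤ ori x y q := by
    have hcl : IsClosed {z : Pt | 0 ≤ ori x y z} :=
      isClosed_le continuous_const (ori_cont x y)
    have hsub : closure v ⊆ {z : Pt | 0 ≤ ori x y z} :=
      closure_minimal (fun a ha => (hv a ha).le) hcl
    exact hsub (hQ q hq)
  exact lt_of_le_of_ne h1 (Ne.symm (hgp x hx y hy q (hQP hq) hxy (Ne.symm hqx) (Ne.symm hqy)))

theorem hull_nbr {Q : Finset Pt} (hgp : GenPos Q) {a : Pt} (ha : Ext Q a) (h3 : 3 ≤ Q.card) :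
    ∃ c ∈ Q, ∃ c' ∈ Q, c ≠ a ∧ c' ≠ a ∧ c ≠ c' ∧
      (∀ q ∈ Q, q ≠ a → q ≠ c → 0 < ori a c q) ∧ (∀ q ∈ Q, q ≠ a → q ≠ c' → ori a c' q < 0) := by
  obtain ⟨φ, hφ⟩ := ext_form ha
  set α := φ (1, 0) with hα
  set β := φ (0, 1) with hβ
  have hφ' : ∀ v : Pt, φ v = α * v.1 + β * v.2 := by
    intro v
    have h1 : v = v.1 • ((1, 0) : Pt) + v.2 • ((0, 1) : Pt) := by
      ext <;> simp
    conv_lhs => rw [h1]
    rw [map_add, map_smul, map_smul, smul_eq_mul, smul_eq_mul]
    ring
  set ψ : Pt → ℝ := fun v => -β * v.1 + α * v.2 with hψ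
  have key : ∀ c q : Pt, (α ^ 2 + β ^ 2) * ori a c q =
      φ (c - a) * ψ (q - a) - ψ (c - a) * φ (q - a) := by
    intro c q
    rw [hφ', hφ', hψ]
    unfold ori
    simp only [Prod.fst_sub, Prod.snd_sub]
    ring
  have hne : (Q.erase a).Nonempty := by
    rw [← Finset.card_pos, Finset.card_erase_of_mem ha.1]
    omega
  have hpos : 0 < α ^ 2 + β ^ 2 := by
    obtain ⟨q, hq⟩ := hne
    have h1 := hφ q (Finset.mem_of_mem_erase hq) (Finset.ne_of_mem_erase hq)
    rw [hφ'] at h1
    rcases eq_or_ne α 0 with h2 | h2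
    · rcases eq_or_ne β 0 with h4 | h4
      · rw [h2, h4] at h1
        simp at h1
      · positivity
    · positivity
  set s : Pt → ℝ := fun q => ψ (q - a) / φ (q - a) with hs
  have key2 : ∀ c ∈ Q.erase a, ∀ q ∈ Q.erase a, s c ≤ s q → 0 ≤ ori a c q := by
    intro c hc q hq hcq
    have h1 := hφ q (Finset.mem_of_mem_erase hq) (Finset.ne_of_mem_erase hq)
    have h2 := hφ c (Finset.mem_of_mem_erase hc) (Finset.ne_of_mem_erase hc)
    rw [hs] at hcq
    simp only at hcq
    rw [div_le_div_iff₀ h2 h1] at hcq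
    have h4 := key c q
    have h5 : 0 ≤ (α ^ 2 + β ^ 2) * ori a c q := by
      rw [h4]
      linarith
    exact nonneg_of_mul_nonneg_right h5 hpos
  obtain ⟨c, hc, hcmin⟩ := Finset.exists_min_image (Q.erase a) s hne
  obtain ⟨c', hc', hcmax⟩ := Finset.exists_max_image (Q.erase a) s hne
  have hcQ := Finset.mem_of_mem_erase hc
  have hca := Finset.ne_of_mem_erase hc
  have hcQ' := Finset.mem_of_mem_erase hc'
  have hca' := Finset.ne_of_mem_erase hc'
  have A1 : ∀ q ∈ Q, q ≠ a → q ≠ c → 0 < ori a c q := by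
    intro q hq hqa hqc
    have hq' : q ∈ Q.erase a := Finset.mem_erase.2 ⟨hqa, hq⟩
    exact lt_of_le_of_ne (key2 c hc q hq' (hcmin q hq'))
      (Ne.symm (hgp a ha.1 c hcQ q hq (Ne.symm hca) (Ne.symm hqa) (Ne.symm hqc)))
  have A2 : ∀ q ∈ Q, q ≠ a → q ≠ c' → ori a c' q < 0 := by
    intro q hq hqa hqc
    have hq' : q ∈ Q.erase a := Finset.mem_erase.2 ⟨hqa, hq⟩
    have h1 := key2 q hq' c' hc' (hcmax q hq')
    rw [ori_swap' a c' q] at h1
    exact lt_of_le_of_ne (by linarith)
      (hgp a ha.1 c' hcQ' q hq (Ne.symm hca') (Ne.symm hqa) (Ne.symm hqc))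
  refine ⟨c, hcQ, c', hcQ', hca, hca', fun hcc => ?_, A1, A2⟩
  have h4 : ∃ q ∈ Q, q ≠ a ∧ q ≠ c := by
    by_contra hcon
    push Not at hcon
    have h5 : Q ⊆ {a, c} := by
      intro q hq
      rw [Finset.mem_insert, Finset.mem_singleton]
      by_cases hqa : q = a
      · exact Or.inl hqa
      · exact Or.inr (hcon q hq hqa)
    have h6 := Finset.card_le_card h5
    have h7 : ({a, c} : Finset Pt).card ≤ 2 := Finset.card_le_two
    omega
  obtain ⟨q, hq, hqa, hqc⟩ := h4
  have h5 := A1 q hq hqa hqc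
  have h6 := A2 q hq hqa (by rw [← hcc]; exact hqc)
  rw [← hcc] at h6
  exact lt_asymm h5 h6

/-- every nonempty finite set has an extreme point -/
theorem exists_ext {Q : Finset Pt} (hQ : Q.Nonempty) : ∃ a, Ext Q a := by
  obtain ⟨a, ha, hmax⟩ := Finset.exists_max_image Q (fun q : Pt => q.1 ^ 2 + q.2 ^ 2) hQ
  refine ⟨a, ext_of_form ha (-(a.1 • LinearMap.fst ℝ ℝ ℝ + a.2 • LinearMap.snd ℝ ℝ ℝ)) ?_⟩
  intro q hq hqa
  have h1 := hmax q hq
  have h2 : (-(a.1 • LinearMap.fst ℝ ℝ ℝ + a.2 • LinearMap.snd ℝ ℝ ℝ)) (q - a) =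
      -(a.1 * (q.1 - a.1) + a.2 * (q.2 - a.2)) := by
    simp
  rw [h2]
  have h3 : 0 < (q.1 - a.1) ^ 2 + (q.2 - a.2) ^ 2 := by
    by_contra h4
    push Not at h4
    have h5 : q.1 - a.1 = 0 := by nlinarith [sq_nonneg (q.1 - a.1), sq_nonneg (q.2 - a.2)]
    have h6 : q.2 - a.2 = 0 := by nlinarith [sq_nonneg (q.1 - a.1), sq_nonneg (q.2 - a.2)]
    exact hqa (Prod.ext (by linarith) (by linarith))
  nlinarith

/-- `y` is not inside a triangle of other points of `Q` -/
theorem Ext.not_inside {Q : Finset Pt} {y a b c : Pt} (h : Ext Q y) (ha : a ∈ Q) (hb : b ∈ Q)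
    (hc : c ∈ Q) (h1 : 0 < ori a b y) (h2 : 0 < ori b c y) (h3 : 0 < ori c a y) : False := by
  obtain ⟨φ, hφ⟩ := ext_form h
  have hay : a ≠ y := by
    rintro rfl
    rw [ori_left] at h1
    exact lt_irrefl _ h1
  have hby : b ≠ y := by
    rintro rfl
    rw [ori_right] at h1
    exact lt_irrefl _ h1
  have hcy : c ≠ y := by
    rintro rfl
    rw [ori_right] at h2
    exact lt_irrefl _ h2
  have h4 := hφ a ha hay
  have h5 := hφ b hb hby
  have h6 := hφ c hc hcy
  have h7 : ori b c y • (a - y) + ori c a y • (b - y) + ori a b y • (c - y) = 0 := by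
    unfold ori
    ext
    · simp only [Prod.fst_add, Prod.smul_fst, Prod.fst_sub, smul_eq_mul, Prod.fst_zero]
      ring
    · simp only [Prod.snd_add, Prod.smul_snd, Prod.snd_sub, smul_eq_mul, Prod.snd_zero]
      ring
  have h8 := congrArg φ h7
  rw [map_add, map_add, map_smul, map_smul, map_smul, map_zero, smul_eq_mul, smul_eq_mul,
    smul_eq_mul] at h8
  have := mul_pos h2 h4
  have := mul_pos h3 h5
  have := mul_pos h1 h6
  linarith

end F059
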