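import Pool.Agent.Lib.F059.CDefs

/-!
# F059C.InnerX: an edge crosses few inner edges of T; the symmetry of cr

`inner_cross`: an edge s(a,b) ∈ T which is not outer has c a = c b (a, b ∈ P).  If it crosses s(x,y): ori x y a * ori x y b < 0, so a and b are in W = metBy P (fun p q => c q = c p) x y.  These edges form a plane set ⊆ Seg W: ≤ 6 |W|.
`N_le`: N T f ≤ (outer edges crossing f) + (inner edges crossing f).
`cr_symm`: Σ_{e ∈ A} #{f ∈ B : SCr e f} = Σ_{f ∈ B} #{e ∈ A : SCr f e} (SCr.symm).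
`cr_le`: if N B g ≤ t for all g ∈ A (real t) then cr A B ≤ |A| t.
-/

namespace F059

namespace InnerXAux

open Classical in
theorem mem_metBy {P : Finset Pt} {Rel : Pt → Pt → Prop} {x y p : Pt} : p ∈ metBy P Rel x y ↔
    p ∈ P ∧ ∃ q ∈ P, ∃ q' ∈ P, Rel p q ∧ Rel p q' ∧ ori x y q ≤ 0 ∧ 0 ≤ ori x y q' := by
  unfold metBy
  rw [Finset.mem_filter]

theorem mem_met {P : Finset Pt} {c : Pt → ℕ} {x y a b : Pt} (ha : a ∈ P) (hb : b ∈ P) (hc : c a = c b)
    (h : ori x y a * ori x y b < 0) : a ∈ metBy P (fun p q => c q = c p) x y := by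
  rw [mem_metBy]
  refine ⟨ha, ?_⟩
  rcases le_or_gt (ori x y a) 0 with h1 | h1
  · refine ⟨a, ha, b, hb, rfl, hc.symm, h1, ?_⟩
    by_contra h2
    push Not at h2
    have := mul_nonneg_of_nonpos_of_nonpos h1 h2.le
    linarith
  · refine ⟨b, hb, a, ha, hc.symm, rfl, ?_, h1.le⟩
    by_contra h2
    push Not at h2
    have := mul_pos h1 h2
    linarith

end InnerXAux

open Classical in
theorem inner_cross {P : Finset Pt} {c : Pt → ℕ} {T : Finset (Sym2 Pt)} (hT : T ⊆ Seg P)
    (hTp : Plane T)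
    (hplane : ∀ Q ⊆ P, ∀ A : Finset (Sym2 Pt), A ⊆ Seg Q → Plane A → A.card ≤ 6 * Q.card)
    (x y : Pt) :
    N T s(x, y) ≤ ((outer T c).filter (fun e => SCr s(x, y) e)).card +
      6 * (metBy P (fun p q => c q = c p) x y).card := by
  set W := metBy P (fun p q => c q = c p) x y with hW
  set I := T.filter (fun e => SCr s(x, y) e ∧ e ∉ outer T c) with hI
  have h1 : T.filter (SCr s(x, y)) ⊆ (outer T c).filter (fun e => SCr s(x, y) e) ∪ I := by
    intro e he
    rw [Finset.mem_filter] at he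
    rw [Finset.mem_union, Finset.mem_filter, hI, Finset.mem_filter]
    by_cases h : e ∈ outer T c
    · exact Or.inl ⟨h, he.2⟩
    · exact Or.inr ⟨he.1, he.2, h⟩
  have h2 : I ⊆ Seg W := by
    intro e he
    rw [hI, Finset.mem_filter] at he
    obtain ⟨h3, h4, h5⟩ := he
    induction e using Sym2.ind with
    | _ a b =>
      obtain ⟨ha, hb, hab⟩ := mem_Seg.1 (hT h3)
      have hc : c a = c b := by
        by_contra hc
        apply h5
        unfold outer
        rw [Finset.mem_filter]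
        exact ⟨h3, a, b, rfl, hc⟩
      have h6 : ori x y a * ori x y b < 0 := (SCr_mk.1 h4).1
      refine mem_Seg.2 ⟨InnerXAux.mem_met ha hb hc h6, InnerXAux.mem_met hb ha hc.symm ?_, hab⟩
      rw [mul_comm]
      exact h6
  have h3 : I.card ≤ 6 * W.card := by
    refine hplane W (fun p hp => (InnerXAux.mem_metBy.1 hp).1) I h2 ?_
    intro e he f hf
    exact hTp e (Finset.mem_filter.1 he).1 f (Finset.mem_filter.1 hf).1
  calc N T s(x, y) = (T.filter (SCr s(x, y))).card := rfl
    _ ≤ ((outer T c).filter (fun e => SCr s(x, y) e) ∪ I).card := Finset.card_le_card h1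
    _ ≤ ((outer T c).filter (fun e => SCr s(x, y) e)).card + I.card := Finset.card_union_le _ _
    _ ≤ _ := Nat.add_le_add_left h3 _

theorem cr_symm (A B : Finset (Sym2 Pt)) : cr A B = cr B A := by
  classical
  unfold cr N
  simp only [Finset.card_filter]
  rw [Finset.sum_comm]
  refine Finset.sum_congr rfl fun f _ => Finset.sum_congr rfl fun e _ => ?_
  by_cases h : SCr e f
  · rw [if_pos h, if_pos h.symm]
  · rw [if_neg h, if_neg (fun h' => h h'.symm)]

theorem cr_le {A B : Finset (Sym2 Pt)} {t : ℝ} (h : ∀ g ∈ A, (N B g : ℝ) ≤ t) :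
    (cr A B : ℝ) ≤ A.card * t := by
  unfold cr
  push_cast
  calc ∑ e ∈ A, (N B e : ℝ) ≤ ∑ _e ∈ A, t := Finset.sum_le_sum h
    _ = A.card * t := by rw [Finset.sum_const, nsmul_eq_mul]

end F059
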