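import Pool.Agent.Lib.F059.Dirs

/-!
# F059B.LowCross: every line meets classes with few points

PROOF.  Line x y: f(p) = ori x y p; `exists_dirs` with (a,b) = (x,y): ψj(p) = ori aj bj p, j = 1, 2.
p in `metBy P (SameS S) x y`: q, q' ∈ P in the class of p, f(q) ≤ 0 ≤ f(q').
s- := a point of S with f(s) ≤ 0 and f(s) maximal (if there is one), s+ := a point of S with f(s) ≥ 0 and f(s) minimal (if there is one).
(1) If s- exists: f(q') - f(s-) ≥ 0, so by (i) ψ1(q') ≥ ψ1(s-) or ψ2(q') ≥ ψ2(s-); as p and q' have the same sign vector ((aj,bj,s-) ∈ S^3), ψj(p) ≥ ψj(s-) for some j.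
(2) If s+ exists: ψk(p) ≤ ψk(s+) for some k.
(3) Both exist: p is in one of: closed strip 1 {ψ1(s-) ≤ ψ1 ≤ ψ1(s+)}, closed strip 2, closed double wedge at s- {(ψ1 - ψ1(s-))(ψ2 - ψ2(s-)) ≤ 0}.  [j = k: strip j.
j ≠ k, say ψ1(p) ≥ ψ1(s-), ψ2(p) ≤ ψ2(s+): if ψ2(p) ≥ ψ2(s-) strip 2, otherwise double wedge.]
(4) The open versions contain no point of S: strip j: s with ψj(s-) < ψj(s) < ψj(s+): f(s) ≥ f(s-) (otherwise (ii) gives ψj(s) ≤ ψj(s-)) and f(s) ≤ f(s+); f(s) = f(s-) gives ψj(s) = ψj(s-) by (iii): contradiction, so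
f(s-) < f(s) < f(s+), contradicting the choice of s-, s+ (f(s) ≤ 0 or ≥ 0).  Double wedge: f(s) > f(s-): ψj(s) ≥ ψj(s-) for both j; f(s) < f(s-): ≤ for both; f(s) = f(s-): equal:
the product is never < 0.  So by hypothesis each open range has ≤ t points of P.
(5) The boundary points lie on the four lines ψj = ψj(s-), ψj = ψj(s+): a line with direction bj - aj ≠ 0 contains at most 2 points of P.  Total ≤ 3 t + 8.
(6) s+ does not exist: all points of S have f < 0 [s- exists, S not empty].  By (1) ψj(p) ≥ ψj(s-), j = 1 or 2.  Let p_j^max be a point of P with ψj maximal.  p is on the line ψj = ψj(s-), or on the line ψj = ψj(p_j^max), or in the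
open strip between s- and p_j^max, which contains no point of S (as in (4): ψj(s) > ψj(s-) gives f(s) > f(s-), contradiction to the choice of s-).  Total ≤ 2t + 8.  Similarly if s- does not exist.
-/

namespace F059

/-- a line with a given direction contains at most two points of `P` -/
theorem card_level_le {P : Finset Pt} (hgp : GenPos P) {a b : Pt} (hab : a ≠ b) (t : ℝ) :
    (P.filter (fun p => ori a b p = t)).card ≤ 2 := by
  classical
  by_contra hc
  push Not at hc
  obtain ⟨p, hp, q, hq, r, hr, hpq, hpr, hqr⟩ := Finset.two_lt_card.1 hc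
  simp only [Finset.mem_filter] at hp hq hr
  apply hgp p hp.1 q hq.1 r hr.1 hpq hpr hqr
  have h1 : ori a b q - ori a b p = 0 := by rw [hq.2, hp.2]; ring
  have h2 : ori a b r - ori a b p = 0 := by rw [hr.2, hp.2]; ring
  unfold ori at h1 h2 ⊢
  have h1' : (b.1 - a.1) * (q.2 - p.2) = (b.2 - a.2) * (q.1 - p.1) := by linarith
  have h2' : (b.1 - a.1) * (r.2 - p.2) = (b.2 - a.2) * (r.1 - p.1) := by linarith
  by_cases hx : b.1 - a.1 = 0
  · have hy : b.2 - a.2 ≠ 0 := by
      intro hy
      apply hab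
      exact Prod.ext (by linarith) (by linarith)
    apply mul_left_cancel₀ hy
    linear_combination (r.2 - p.2) * (-h1') + (q.2 - p.2) * h2'
  · apply mul_left_cancel₀ hx
    linear_combination (q.1 - p.1) * h2' - (r.1 - p.1) * h1'

lemma sign_sub_transfer {u v w z : ℝ}
    (h : SignType.sign (u - v) = SignType.sign (w - z)) : (v ≤ u ↔ z ≤ w) ∧ (u ≤ v ↔ w ≤ z) := by
  constructor
  · constructor
    · intro h1
      by_contra h2
      push Not at h2
      rw [sign_neg (by linarith : w - z < 0)] at h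
      rcases lt_or_eq_of_le h1 with h3 | h3
      · rw [sign_pos (by linarith : 0 < u - v)] at h; exact absurd h (by decide)
      · rw [h3, sub_self, sign_zero] at h; exact absurd h (by decide)
    · intro h1
      by_contra h2
      push Not at h2
      rw [sign_neg (by linarith : u - v < 0)] at h
      rcases lt_or_eq_of_le h1 with h3 | h3
      · rw [sign_pos (by linarith : 0 < w - z)] at h; exact absurd h (by decide)
      · rw [h3, sub_self, sign_zero] at h; exact absurd h (by decide)
  · constructor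
    · intro h1
      by_contra h2
      push Not at h2
      rw [sign_pos (by linarith : 0 < w - z)] at h
      rcases lt_or_eq_of_le h1 with h3 | h3
      · rw [sign_neg (by linarith : u - v < 0)] at h; exact absurd h (by decide)
      · rw [h3, sub_self, sign_zero] at h; exact absurd h (by decide)
    · intro h1
      by_contra h2
      push Not at h2
      rw [sign_pos (by linarith : 0 < u - v)] at h
      rcases lt_or_eq_of_le h1 with h3 | h3
      · rw [sign_neg (by linarith : w - z < 0)] at h; exact absurd h (by decide)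
      · rw [h3, sub_self, sign_zero] at h; exact absurd h (by decide)

open Classical in
theorem low_cross_aux {P S : Finset Pt} (hgp : GenPos P) (hSP : S ⊆ P) (h3 : 3 ≤ S.card) (t : ℕ)
    (hstrip : ∀ a ∈ S, ∀ b ∈ S, ∀ s1 ∈ P, ∀ s2 ∈ P, (∀ s ∈ S, ¬ Strip a b s1 s2 s) →
      (P.filter (Strip a b s1 s2)).card ≤ t)
    (hwedge : ∀ a ∈ S, ∀ b ∈ S, ∀ a' ∈ S, ∀ b' ∈ S, ∀ s0 ∈ S, (∀ s ∈ S, ¬ DWedge a b a' b' s0 s) →
      (P.filter (DWedge a b a' b' s0)).card ≤ t)
    {x y : Pt} (hxy : x ≠ y) (hneg : ∃ s ∈ S, ori x y s ≤ 0) :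
    (metBy P (SameS S) x y).card ≤ 3 * t + 8 := by
  have hgpS : GenPos S := fun p hp q hq r hr => hgp p (hSP hp) q (hSP hq) r (hSP hr)
  obtain ⟨a1, ha1, b1, hb1, a2, ha2, b2, hb2, hab1, hab2, ⟨κ1, hκ1, κ2, hκ2, hi⟩, hii, hiii⟩ :=
    exists_dirs hgpS h3 hxy
  -- the point of S just below
  obtain ⟨sm, hsm, hsmax⟩ := Finset.exists_max_image (S.filter (fun s => ori x y s ≤ 0))
    (fun s => ori x y s) (by
      obtain ⟨s, hs, hs'⟩ := hneg
      exact ⟨s, Finset.mem_filter.2 ⟨hs, hs'⟩⟩)
  rw [Finset.mem_filter] at hsm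
  obtain ⟨hsmS, hsm0⟩ := hsm
  have hsmax' : ∀ s ∈ S, ori x y s ≤ 0 → ori x y s ≤ ori x y sm := fun s hs h0 =>
    hsmax s (Finset.mem_filter.2 ⟨hs, h0⟩)
  -- consequences of larger psi
  have hup : ∀ s ∈ S, (ori a1 b1 sm < ori a1 b1 s ∨ ori a2 b2 sm < ori a2 b2 s) →
      ori x y sm < ori x y s := by
    intro s hs h
    by_contra hc
    push Not at hc
    rcases lt_or_eq_of_le hc with h1 | h1
    · have := hii s hs sm hsmS h1
      rcases h with h | h
      · linarith [this.1]
      · linarith [this.2]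
    · have := hiii s hs sm hsmS h1
      rcases h with h | h
      · linarith [this.1]
      · linarith [this.2]
  -- (1)
  have h1 : ∀ p ∈ metBy P (SameS S) x y, ori a1 b1 sm ≤ ori a1 b1 p ∨ ori a2 b2 sm ≤ ori a2 b2 p := by
    intro p hp
    unfold metBy at hp
    rw [Finset.mem_filter] at hp
    obtain ⟨-, q, hq, q', hq', hr, hr', hf, hf'⟩ := hp
    have e := hi q' sm
    have t1 := (sign_sub_transfer (hr' a1 ha1 b1 hb1 sm hsmS)).1
    have t2 := (sign_sub_transfer (hr' a2 ha2 b2 hb2 sm hsmS)).1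
    by_contra hc
    push Not at hc
    have c1 : ori a1 b1 q' < ori a1 b1 sm := by
      by_contra h; push Not at h; exact absurd (t1.2 h) (not_le.2 hc.1)
    have c2 : ori a2 b2 q' < ori a2 b2 sm := by
      by_contra h; push Not at h; exact absurd (t2.2 h) (not_le.2 hc.2)
    have m1 : κ1 * (ori a1 b1 q' - ori a1 b1 sm) < 0 := mul_neg_of_pos_of_neg hκ1 (by linarith)
    have m2 : κ2 * (ori a2 b2 q' - ori a2 b2 sm) < 0 := mul_neg_of_pos_of_neg hκ2 (by linarith)
    linarith
  have hmetP : ∀ p ∈ metBy P (SameS S) x y, p ∈ P := fun p hp => (Finset.mem_filter.1 hp).1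
  by_cases hpos : ∃ s ∈ S, 0 ≤ ori x y s
  · obtain ⟨sp, hsp, hspmin⟩ := Finset.exists_min_image (S.filter (fun s => 0 ≤ ori x y s))
      (fun s => ori x y s) (by
        obtain ⟨s, hs, hs'⟩ := hpos
        exact ⟨s, Finset.mem_filter.2 ⟨hs, hs'⟩⟩)
    rw [Finset.mem_filter] at hsp
    obtain ⟨hspS, hsp0⟩ := hsp
    have hspmin' : ∀ s ∈ S, 0 ≤ ori x y s → ori x y sp ≤ ori x y s := fun s hs h0 =>
      hspmin s (Finset.mem_filter.2 ⟨hs, h0⟩)
    have hdn : ∀ s ∈ S, (ori a1 b1 s < ori a1 b1 sp ∨ ori a2 b2 s < ori a2 b2 sp) →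
        ori x y s < ori x y sp := by
      intro s hs h
      by_contra hc
      push Not at hc
      rcases lt_or_eq_of_le hc with h1 | h1
      · have := hii sp hspS s hs h1
        rcases h with h | h
        · linarith [this.1]
        · linarith [this.2]
      · have := hiii sp hspS s hs h1
        rcases h with h | h
        · linarith [this.1]
        · linarith [this.2]
    have h2 : ∀ p ∈ metBy P (SameS S) x y,
        ori a1 b1 p ≤ ori a1 b1 sp ∨ ori a2 b2 p ≤ ori a2 b2 sp := by
      intro p hp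
      unfold metBy at hp
      rw [Finset.mem_filter] at hp
      obtain ⟨-, q, hq, q', hq', hr, hr', hf, hf'⟩ := hp
      have e := hi q sp
      have t1 := (sign_sub_transfer (hr a1 ha1 b1 hb1 sp hspS)).2
      have t2 := (sign_sub_transfer (hr a2 ha2 b2 hb2 sp hspS)).2
      by_contra hc
      push Not at hc
      have c1 : ori a1 b1 sp < ori a1 b1 q := by
        by_contra h; push Not at h; exact absurd (t1.2 h) (not_le.2 hc.1)
      have c2 : ori a2 b2 sp < ori a2 b2 q := by
        by_contra h; push Not at h; exact absurd (t2.2 h) (not_le.2 hc.2)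
      have m1 : 0 < κ1 * (ori a1 b1 q - ori a1 b1 sp) := mul_pos hκ1 (by linarith)
      have m2 : 0 < κ2 * (ori a2 b2 q - ori a2 b2 sp) := mul_pos hκ2 (by linarith)
      linarith
    have hbetween : ∀ s ∈ S, ori x y sm < ori x y s → ori x y s < ori x y sp → False := by
      intro s hs h3 h4
      rcases le_total (ori x y s) 0 with h5 | h5
      · linarith [hsmax' s hs h5]
      · linarith [hspmin' s hs h5]
    have z1 := hstrip a1 ha1 b1 hb1 sm (hSP hsmS) sp (hSP hspS) (by
      rintro s hs ⟨h3, h4⟩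
      exact hbetween s hs (hup s hs (Or.inl h3)) (hdn s hs (Or.inl h4)))
    have z2 := hstrip a2 ha2 b2 hb2 sm (hSP hsmS) sp (hSP hspS) (by
      rintro s hs ⟨h3, h4⟩
      exact hbetween s hs (hup s hs (Or.inr h3)) (hdn s hs (Or.inr h4)))
    have z3 := hwedge a1 ha1 b1 hb1 a2 ha2 b2 hb2 sm hsmS (by
      intro s hs h
      unfold DWedge at h
      rcases lt_trichotomy (ori x y s) (ori x y sm) with h3 | h3 | h3
      · have := hii s hs sm hsmS h3
        have : 0 ≤ (ori a1 b1 s - ori a1 b1 sm) * (ori a2 b2 s - ori a2 b2 sm) :=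
          mul_nonneg_of_nonpos_of_nonpos (by linarith [this.1]) (by linarith [this.2])
        linarith
      · have := hiii s hs sm hsmS h3
        rw [this.1, this.2] at h
        simp at h
      · have := hii sm hsmS s hs h3
        have : 0 ≤ (ori a1 b1 s - ori a1 b1 sm) * (ori a2 b2 s - ori a2 b2 sm) :=
          mul_nonneg (by linarith [this.1]) (by linarith [this.2])
        linarith)
    have l1 := card_level_le hgp hab1 (ori a1 b1 sm)
    have l2 := card_level_le hgp hab2 (ori a2 b2 sm)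
    have l3 := card_level_le hgp hab1 (ori a1 b1 sp)
    have l4 := card_level_le hgp hab2 (ori a2 b2 sp)
    set A1 := P.filter (Strip a1 b1 sm sp) with hA1
    set A2 := P.filter (Strip a2 b2 sm sp) with hA2
    set A3 := P.filter (DWedge a1 b1 a2 b2 sm) with hA3
    set B1 := P.filter (fun p => ori a1 b1 p = ori a1 b1 sm) with hB1
    set B2 := P.filter (fun p => ori a2 b2 p = ori a2 b2 sm) with hB2
    set B3 := P.filter (fun p => ori a1 b1 p = ori a1 b1 sp) with hB3
    set B4 := P.filter (fun p => ori a2 b2 p = ori a2 b2 sp) with hB4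
    have hcov : metBy P (SameS S) x y ⊆ A1 ∪ (A2 ∪ (A3 ∪ (B1 ∪ (B2 ∪ (B3 ∪ B4))))) := by
      intro p hp
      have hpP := hmetP p hp
      have c1 := h1 p hp
      have c2 := h2 p hp
      by_cases e1 : ori a1 b1 p = ori a1 b1 sm
      · simp only [Finset.mem_union, hB1, Finset.mem_filter]; tauto
      by_cases e2 : ori a2 b2 p = ori a2 b2 sm
      · simp only [Finset.mem_union, hB2, Finset.mem_filter]; tauto
      by_cases e3 : ori a1 b1 p = ori a1 b1 sp
      · simp only [Finset.mem_union, hB3, Finset.mem_filter]; tauto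
      by_cases e4 : ori a2 b2 p = ori a2 b2 sp
      · simp only [Finset.mem_union, hB4, Finset.mem_filter]; tauto
      have hA : p ∈ A1 ∨ p ∈ A2 ∨ p ∈ A3 := by
        rcases c1 with c1 | c1
        · have c1' := lt_of_le_of_ne c1 (Ne.symm e1)
          rcases c2 with c2 | c2
          · have c2' := lt_of_le_of_ne c2 e3
            exact Or.inl (Finset.mem_filter.2 ⟨hpP, c1', c2'⟩)
          · have c2' := lt_of_le_of_ne c2 e4
            rcases lt_or_gt_of_ne e2 with h | h
            · refine Or.inr (Or.inr (Finset.mem_filter.2 ⟨hpP, ?_⟩))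
              unfold DWedge
              exact mul_neg_of_pos_of_neg (by linarith) (by linarith)
            · exact Or.inr (Or.inl (Finset.mem_filter.2 ⟨hpP, h, c2'⟩))
        · have c1' := lt_of_le_of_ne c1 (Ne.symm e2)
          rcases c2 with c2 | c2
          · have c2' := lt_of_le_of_ne c2 e3
            rcases lt_or_gt_of_ne e1 with h | h
            · refine Or.inr (Or.inr (Finset.mem_filter.2 ⟨hpP, ?_⟩))
              unfold DWedge
              exact mul_neg_of_neg_of_pos (by linarith) (by linarith)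
            · exact Or.inl (Finset.mem_filter.2 ⟨hpP, h, c2'⟩)
          · have c2' := lt_of_le_of_ne c2 e4
            exact Or.inr (Or.inl (Finset.mem_filter.2 ⟨hpP, c1', c2'⟩))
      simp only [Finset.mem_union]
      tauto
    have k1 := Finset.card_le_card hcov
    have k2 := Finset.card_union_le A1 (A2 ∪ (A3 ∪ (B1 ∪ (B2 ∪ (B3 ∪ B4)))))
    have k3 := Finset.card_union_le A2 (A3 ∪ (B1 ∪ (B2 ∪ (B3 ∪ B4))))
    have k4 := Finset.card_union_le A3 (B1 ∪ (B2 ∪ (B3 ∪ B4)))
    have k5 := Finset.card_union_le B1 (B2 ∪ (B3 ∪ B4))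
    have k6 := Finset.card_union_le B2 (B3 ∪ B4)
    have k7 := Finset.card_union_le B3 B4
    omega
  · push Not at hpos
    have hPne : P.Nonempty := ⟨sm, hSP hsmS⟩
    obtain ⟨m1, hm1, hmax1⟩ := Finset.exists_max_image P (fun p => ori a1 b1 p) hPne
    obtain ⟨m2, hm2, hmax2⟩ := Finset.exists_max_image P (fun p => ori a2 b2 p) hPne
    have z1 := hstrip a1 ha1 b1 hb1 sm (hSP hsmS) m1 hm1 (by
      rintro s hs ⟨h3, h4⟩
      have := hup s hs (Or.inl h3)
      linarith [hsmax' s hs (hpos s hs).le])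
    have z2 := hstrip a2 ha2 b2 hb2 sm (hSP hsmS) m2 hm2 (by
      rintro s hs ⟨h3, h4⟩
      have := hup s hs (Or.inr h3)
      linarith [hsmax' s hs (hpos s hs).le])
    have l1 := card_level_le hgp hab1 (ori a1 b1 sm)
    have l2 := card_level_le hgp hab2 (ori a2 b2 sm)
    have l3 := card_level_le hgp hab1 (ori a1 b1 m1)
    have l4 := card_level_le hgp hab2 (ori a2 b2 m2)
    set A1 := P.filter (Strip a1 b1 sm m1) with hA1
    set A2 := P.filter (Strip a2 b2 sm m2) with hA2
    set B1 := P.filter (fun p => ori a1 b1 p = ori a1 b1 sm) with hB1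
    set B2 := P.filter (fun p => ori a2 b2 p = ori a2 b2 sm) with hB2
    set B3 := P.filter (fun p => ori a1 b1 p = ori a1 b1 m1) with hB3
    set B4 := P.filter (fun p => ori a2 b2 p = ori a2 b2 m2) with hB4
    have hcov : metBy P (SameS S) x y ⊆ A1 ∪ (A2 ∪ (B1 ∪ (B2 ∪ (B3 ∪ B4)))) := by
      intro p hp
      have hpP := hmetP p hp
      have c1 := h1 p hp
      have d1 := hmax1 p hpP
      have d2 := hmax2 p hpP
      by_cases e1 : ori a1 b1 p = ori a1 b1 sm
      · simp only [Finset.mem_union, hB1, Finset.mem_filter]; tauto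
      by_cases e2 : ori a2 b2 p = ori a2 b2 sm
      · simp only [Finset.mem_union, hB2, Finset.mem_filter]; tauto
      by_cases e3 : ori a1 b1 p = ori a1 b1 m1
      · simp only [Finset.mem_union, hB3, Finset.mem_filter]; tauto
      by_cases e4 : ori a2 b2 p = ori a2 b2 m2
      · simp only [Finset.mem_union, hB4, Finset.mem_filter]; tauto
      have hA : p ∈ A1 ∨ p ∈ A2 := by
        rcases c1 with c1 | c1
        · exact Or.inl (Finset.mem_filter.2 ⟨hpP, lt_of_le_of_ne c1 (Ne.symm e1),
            lt_of_le_of_ne d1 e3⟩)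
        · exact Or.inr (Finset.mem_filter.2 ⟨hpP, lt_of_le_of_ne c1 (Ne.symm e2),
            lt_of_le_of_ne d2 e4⟩)
      simp only [Finset.mem_union]
      tauto
    have k1 := Finset.card_le_card hcov
    have k2 := Finset.card_union_le A1 (A2 ∪ (B1 ∪ (B2 ∪ (B3 ∪ B4))))
    have k3 := Finset.card_union_le A2 (B1 ∪ (B2 ∪ (B3 ∪ B4)))
    have k5 := Finset.card_union_le B1 (B2 ∪ (B3 ∪ B4))
    have k6 := Finset.card_union_le B2 (B3 ∪ B4)
    have k7 := Finset.card_union_le B3 B4
    omega

lemma metBy_swap (P : Finset Pt) (Rel : Pt → Pt → Prop) (x y : Pt) :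
    metBy P Rel x y = metBy P Rel y x := by
  classical
  unfold metBy
  apply Finset.filter_congr
  intro p _
  constructor
  · rintro ⟨q, hq, q', hq', hr, hr', hf, hf'⟩
    exact ⟨q', hq', q, hq, hr', hr, by rw [ori_swap x y q']; linarith,
      by rw [ori_swap x y q]; linarith⟩
  · rintro ⟨q, hq, q', hq', hr, hr', hf, hf'⟩
    exact ⟨q', hq', q, hq, hr', hr, by rw [ori_swap y x q']; linarith,
      by rw [ori_swap y x q]; linarith⟩

open Classical in
theorem low_cross {P S : Finset Pt} (hgp : GenPos P) (hSP : S ⊆ P) (h3 : 3 ≤ S.card) (t : ℕ)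
    (hstrip : ∀ a ∈ S, ∀ b ∈ S, ∀ s1 ∈ P, ∀ s2 ∈ P, (∀ s ∈ S, ¬ Strip a b s1 s2 s) →
      (P.filter (Strip a b s1 s2)).card ≤ t)
    (hwedge : ∀ a ∈ S, ∀ b ∈ S, ∀ a' ∈ S, ∀ b' ∈ S, ∀ s0 ∈ S, (∀ s ∈ S, ¬ DWedge a b a' b' s0 s) →
      (P.filter (DWedge a b a' b' s0)).card ≤ t)
    {x y : Pt} (hxy : x ≠ y) : (metBy P (SameS S) x y).card ≤ 3 * t + 8 := by
  by_cases h : ∃ s ∈ S, ori x y s ≤ 0
  · exact low_cross_aux hgp hSP h3 t hstrip hwedge hxy h
  · push Not at h
    rw [metBy_swap]
    have hne : S.Nonempty := Finset.card_pos.1 (by omega)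
    obtain ⟨s, hs⟩ := hne
    exact low_cross_aux hgp hSP h3 t hstrip hwedge hxy.symm
      ⟨s, hs, by rw [ori_swap x y s]; linarith [h s hs]⟩

end F059
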