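import Pool.Agent.Lib.F059.CDefs
import Pool.Agent.Lib.F059.Greedy

/-!
# F059B.Net: the set S

n = |P|, T ⊆ Seg P plane with |T| ≤ 6n.  k1 = number with 6n ≤ k1 (t1+1), i.e. every segment crossing more than t1 edges of T.  `greedy_hit` with V = T, F = {e ∈ Seg P : t1 < N T e}, mem e = T.filter (SCr e):
V.card ≤ 6n ≤ k (t1+1) ≤ k |mem|; |F| ≤ |Seg P| ≤ n^2; gives E0 ⊆ T with |E0| ≤ k (log2(n^2)+1); S1 = ends of the edges of E0 (≤ 2 |E0| points; Finset.biUnion of Sym2.toFinset).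
Strips: F = P^4 (a,b,s1,s2) with more than t2 points in the open strip, |F| ≤ n^4, V = P, n ≤ k (t2+1).  Double wedges: P^5.
S = S1 ∪ S2 ∪ S3 ∪ {three points of P}.
Total |S| ≤ 2k(log2(n^2)+1) + k(log2(n^4)+1) + k(log2(n^5)+1) + 3 ≤ 4 k (log2(n^5)+1) + 3.
(Nat.log 2 is monotone.)
-/

namespace F059

namespace NetAux

open Classical in
theorem hit_edges {P : Finset Pt} {T : Finset (Sym2 Pt)} (hT : T ⊆ Seg P)
    (hcard : T.card ≤ 6 * P.card) (k t1 : ℕ) (hk : 0 < k) (h1 : 6 * P.card ≤ k * (t1 + 1)) :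
    ∃ S ⊆ P, S.card ≤ 2 * (k * (Nat.log 2 (P.card ^ 2) + 1)) ∧
      (∀ p ∈ P, ∀ q ∈ P, p ≠ q → t1 < N T s(p, q) → ∃ a ∈ S, ∃ b ∈ S, Cr p q a b) := by
  set F := (Seg P).filter (fun e => t1 < N T e) with hF
  have hFc : F.card ≤ P.card ^ 2 := by
    calc F.card ≤ (Seg P).card := Finset.card_filter_le _ _
      _ ≤ P.sym2.card := Finset.card_filter_le _ _
      _ = (P.card + 1).choose 2 := Finset.card_sym2 _
      _ ≤ P.card ^ 2 := by
        rw [Nat.choose_two_right, Nat.add_sub_cancel, sq]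
        apply Nat.div_le_of_le_mul
        nlinarith [Nat.zero_le P.card]
  obtain ⟨E0, hE0, hit, hE0c⟩ := greedy_hit T F (fun e => T.filter (SCr e)) (fun f _ => Finset.filter_subset _ _) k hk
    (fun f hf => by
      rw [← Finset.card_pos]
      have h4 := (Finset.mem_filter.1 hf).2
      exact lt_of_le_of_lt (Nat.zero_le _) h4)
    (fun f hf => by
      have h4 : t1 < (T.filter (SCr f)).card := (Finset.mem_filter.1 hf).2
      calc T.card ≤ 6 * P.card := hcard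
        _ ≤ k * (t1 + 1) := h1
        _ ≤ k * (T.filter (SCr f)).card := Nat.mul_le_mul_left _ h4)
  refine ⟨E0.biUnion (fun e => e.toFinset), ?_, ?_, ?_⟩
  · intro p hp
    rw [Finset.mem_biUnion] at hp
    obtain ⟨e, he, hpe⟩ := hp
    rw [Sym2.mem_toFinset] at hpe
    have h5 := hT (hE0 he)
    obtain ⟨q, rfl⟩ := hpe
    exact (mem_Seg.1 h5).1
  · calc (E0.biUnion (fun e => e.toFinset)).card ≤ ∑ e ∈ E0, (e.toFinset).card := Finset.card_biUnion_le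
      _ ≤ ∑ _e ∈ E0, 2 := by
        apply Finset.sum_le_sum
        intro e _
        induction e using Sym2.ind with
        | _ a b =>
          rw [Sym2.toFinset_mk_eq]
          exact Finset.card_le_two
      _ = 2 * E0.card := by rw [Finset.sum_const, smul_eq_mul, mul_comm]
      _ ≤ 2 * (k * (Nat.log 2 (P.card ^ 2) + 1)) := by
        apply Nat.mul_le_mul_left
        refine le_trans hE0c ?_
        apply Nat.mul_le_mul_left
        exact Nat.succ_le_succ (Nat.log_mono_right hFc)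
  · intro p hp q hq hpq hN
    obtain ⟨e, he, he2⟩ := hit s(p, q) (Finset.mem_filter.2 ⟨mem_Seg.2 ⟨hp, hq, hpq⟩, hN⟩)
    rw [Finset.mem_filter] at he2
    induction e using Sym2.ind with
    | _ a b =>
      refine ⟨a, ?_, b, ?_, SCr_mk.1 he2.2⟩
      · rw [Finset.mem_biUnion]
        exact ⟨_, he, by rw [Sym2.mem_toFinset]; exact Sym2.mem_mk_left a b⟩
      · rw [Finset.mem_biUnion]
        exact ⟨_, he, by rw [Sym2.mem_toFinset]; exact Sym2.mem_mk_right a b⟩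

open Classical in
theorem hit_pts {β : Type*} (P : Finset Pt) (F₀ : Finset β) (R : β → Pt → Prop) (k t2 m : ℕ) (hk : 0 < k)
    (h2 : P.card ≤ k * (t2 + 1)) (hF : F₀.card ≤ P.card ^ m) :
    ∃ S ⊆ P, S.card ≤ k * (Nat.log 2 (P.card ^ m) + 1) ∧
      ∀ f ∈ F₀, (∀ s ∈ S, ¬ R f s) → (P.filter (R f)).card ≤ t2 := by
  obtain ⟨S, hS, hit, hSc⟩ := greedy_hit P (F₀.filter (fun f => t2 < (P.filter (R f)).card)) (fun f => P.filter (R f))
    (fun f _ => Finset.filter_subset _ _) k hk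
    (fun f hf => by
      rw [← Finset.card_pos]
      exact lt_of_le_of_lt (Nat.zero_le _) (Finset.mem_filter.1 hf).2)
    (fun f hf => le_trans h2 (Nat.mul_le_mul_left _ (Finset.mem_filter.1 hf).2))
  refine ⟨S, hS, ?_, ?_⟩
  · refine le_trans hSc (Nat.mul_le_mul_left _ (Nat.succ_le_succ (Nat.log_mono_right ?_)))
    exact le_trans (Finset.card_filter_le _ _) hF
  · intro f hf h
    by_contra hcon
    push Not at hcon
    obtain ⟨s, hs, hs2⟩ := hit f (Finset.mem_filter.2 ⟨hf, hcon⟩)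
    exact h s hs (Finset.mem_filter.1 hs2).2

end NetAux

open Classical in
theorem net {P : Finset Pt} (h3 : 3 ≤ P.card) {T : Finset (Sym2 Pt)} (hT : T ⊆ Seg P)
    (hcard : T.card ≤ 6 * P.card) (k t1 t2 : ℕ) (hk : 0 < k)
    (h1 : 6 * P.card ≤ k * (t1 + 1)) (h2 : P.card ≤ k * (t2 + 1)) :
    ∃ S ⊆ P, 3 ≤ S.card ∧ S.card ≤ 4 * k * (Nat.log 2 (P.card ^ 5) + 1) + 3 ∧
      (∀ p ∈ P, ∀ q ∈ P, p ≠ q → t1 < N T s(p, q) → ∃ a ∈ S, ∃ b ∈ S, Cr p q a b) ∧
      (∀ a ∈ P, ∀ b ∈ P, ∀ s1 ∈ P, ∀ s2 ∈ P, (∀ s ∈ S, ¬ Strip a b s1 s2 s) →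
        (P.filter (Strip a b s1 s2)).card ≤ t2) ∧
      (∀ a ∈ P, ∀ b ∈ P, ∀ a' ∈ P, ∀ b' ∈ P, ∀ s0 ∈ P, (∀ s ∈ S, ¬ DWedge a b a' b' s0 s) →
        (P.filter (DWedge a b a' b' s0)).card ≤ t2) := by
  obtain ⟨S1, hS1, hc1, hp1⟩ := NetAux.hit_edges hT hcard k t1 hk h1
  obtain ⟨S2, hS2, hc2, hp2⟩ := NetAux.hit_pts P (P ×ˢ P ×ˢ P ×ˢ P)
    (fun f => Strip f.1 f.2.1 f.2.2.1 f.2.2.2) k t2 4 hk h2 (by
      simp only [Finset.card_product]
      apply le_of_eq; ring)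
  obtain ⟨S3, hS3, hc3, hp3⟩ := NetAux.hit_pts P (P ×ˢ P ×ˢ P ×ˢ P ×ˢ P)
    (fun f => DWedge f.1 f.2.1 f.2.2.1 f.2.2.2.1 f.2.2.2.2) k t2 5 hk h2 (by
      simp only [Finset.card_product]
      apply le_of_eq; ring)
  obtain ⟨S0, hS0, hc0⟩ := Finset.exists_subset_card_eq h3
  have hn : 0 < P.card := by omega
  have l2 : Nat.log 2 (P.card ^ 2) ≤ Nat.log 2 (P.card ^ 5) :=
    Nat.log_mono_right (Nat.pow_le_pow_right hn (by norm_num))
  have l4 : Nat.log 2 (P.card ^ 4) ≤ Nat.log 2 (P.card ^ 5) :=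
    Nat.log_mono_right (Nat.pow_le_pow_right hn (by norm_num))
  refine ⟨S0 ∪ (S1 ∪ (S2 ∪ S3)), ?_, ?_, ?_, ?_, ?_, ?_⟩
  · exact Finset.union_subset hS0 (Finset.union_subset hS1 (Finset.union_subset hS2 hS3))
  · rw [← hc0]
    exact Finset.card_le_card Finset.subset_union_left
  · have u1 := Finset.card_union_le S0 (S1 ∪ (S2 ∪ S3))
    have u2 := Finset.card_union_le S1 (S2 ∪ S3)
    have u3 := Finset.card_union_le S2 S3
    have m1 : k * (Nat.log 2 (P.card ^ 2) + 1) ≤ k * (Nat.log 2 (P.card ^ 5) + 1) :=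
      Nat.mul_le_mul_left _ (by omega)
    have m2 : k * (Nat.log 2 (P.card ^ 4) + 1) ≤ k * (Nat.log 2 (P.card ^ 5) + 1) :=
      Nat.mul_le_mul_left _ (by omega)
    have e : 4 * k * (Nat.log 2 (P.card ^ 5) + 1) = 4 * (k * (Nat.log 2 (P.card ^ 5) + 1)) := by ring
    rw [e]
    omega
  · intro p hp q hq hpq hN
    obtain ⟨a, ha, b, hb, h⟩ := hp1 p hp q hq hpq hN
    exact ⟨a, by simp [ha], b, by simp [hb], h⟩
  · intro a ha b hb s1 hs1 s2 hs2 h
    refine hp2 (a, b, s1, s2) ?_ (fun s hs => h s (by simp [hs]))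
    simp [ha, hb, hs1, hs2]
  · intro a ha b hb a' ha' b' hb' s0 hs0 h
    refine hp3 (a, b, a', b', s0) ?_ (fun s hs => h s (by simp [hs]))
    simp [ha, hb, ha', hb', hs0]

end F059
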