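import Pool.Agent.Lib.F059.CDefs
import Pool.Agent.Lib.F059.NoCross

/-!
# F059B.SignCount: few sign vectors of affine functions on the plane

`sign_count_line`: m affine functions on ℝ (t ↦ α t + β) have at most 2m+1 sign vectors.  PROOF.  Induction: adding a
function h = α t + β, α ≠ 0 (if α = 0 its sign is constant and nothing changes), with zero t0: a class (interval,
convex) of the old sign vectors which does not contain t0 (convex!) is not split: h has constant sign on it.  The
class of t0 is split into at most 3.  So the number grows by at most 2.  (Convexity: two points with the same signs of all old functions, then every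
point between them has the same signs.)

`sign_count`: m affine functions on the plane: at most 4 (m+1)^2 (indeed 1 + 2 m^2) sign vectors.  PROOF.  Induction on I: adding g (affine; if g has constant
sign on the plane nothing changes).  A class of the old sign vectors (convex subset of the plane) in which g takes two different signs contains a point with g = 0
(segment between the two points).  Classes which meet the line {g = 0}: parametrise the line by t; the old functions restricted to the line are affine in t, so
at most 2m+1 old sign vectors occur on the line (`sign_count_line`).  Each of these classes is split into at most 3 classes.  So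
N(m+1) ≤ N(m) + 2 (2m+1), N(0) = 1.  State the induction for the number of sign vectors realised on the whole plane
(Set.ncard or: for every finite P the image has card ≤ 1 + 2 m^2).

`exists_class_fun`: a relation with finitely many classes is given by a function to ℕ.  SameS: sign vectors of the functions
p ↦ ori a b p - ori a b s, (a,b,s) ∈ S^3 (m ≤ |S|^3).  The convex hulls of different classes are disjoint: a function with different signs σ ≠ τ on the two classes:
the sets {f has sign σ} and {f has sign τ} are convex and disjoint.
-/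

namespace F059

namespace SignCountAux

lemma card_image_le_of {α β γ : Type*} [DecidableEq β] [DecidableEq γ] (P : Finset α) (f : α → β)
    (g : α → γ) (h : ∀ x ∈ P, ∀ y ∈ P, g x = g y → f x = f y) :
    (P.image f).card ≤ (P.image g).card := by
  rcases P.eq_empty_or_nonempty with h0 | ⟨x0, _⟩
  · rw [h0]
    simp
  have : Nonempty α := ⟨x0⟩
  have hk : ∀ v ∈ P.image f, ∃ x ∈ P, f x = v := fun v hv => by
    simpa only [Finset.mem_image] using hv
  choose! k hk1 hk2 using hk
  refine Finset.card_le_card_of_injOn (fun v => g (k v)) ?_ ?_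
  · intro v hv
    exact Finset.mem_coe.2 (Finset.mem_image_of_mem g (hk1 v hv))
  · intro v hv w hw hvw
    have h1 := h _ (hk1 v hv) _ (hk1 w hw) hvw
    rw [hk2 v hv, hk2 w hw] at h1
    exact h1

lemma sign_combo {u v a b : ℝ} (hu : 0 ≤ u) (hv : 0 ≤ v) (huv : u + v = 1)
    (h : SignType.sign a = SignType.sign b) : SignType.sign (u * a + v * b) = SignType.sign a := by
  rcases lt_trichotomy a 0 with ha | ha | ha
  · have hb : b < 0 := by
      rw [sign_neg ha] at h
      exact sign_eq_neg_one_iff.1 h.symm
    rw [sign_neg ha, sign_eq_neg_one_iff]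
    rcases hu.eq_or_lt with h0 | h0
    · have hv1 : v = 1 := by linarith
      rw [← h0, hv1]
      linarith
    · have := mul_neg_of_pos_of_neg h0 ha
      have := mul_nonpos_of_nonneg_of_nonpos hv hb.le
      linarith
  · have hb : b = 0 := by
      rw [ha, sign_zero] at h
      exact sign_eq_zero_iff.1 h.symm
    rw [ha, hb]
    simp
  · have hb : 0 < b := by
      rw [sign_pos ha] at h
      exact sign_eq_one_iff.1 h.symm
    rw [sign_pos ha, sign_eq_one_iff]
    rcases hu.eq_or_lt with h0 | h0
    · have hv1 : v = 1 := by linarith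
      rw [← h0, hv1]
      linarith
    · have := mul_pos h0 ha
      have := mul_nonneg hv hb.le
      linarith

/-- two numbers with different signs: a zero between them -/
lemma exists_zero {a b : ℝ} (h : SignType.sign a ≠ SignType.sign b) :
    ∃ u v : ℝ, 0 ≤ u ∧ 0 ≤ v ∧ u + v = 1 ∧ u * a + v * b = 0 := by
  have hab : a ≠ b := fun h' => h (by rw [h'])
  have hmul : a * b ≤ 0 := by
    by_contra hc
    push Not at hc
    rcases mul_pos_iff.1 hc with ⟨h1, h2⟩ | ⟨h1, h2⟩
    · exact h (by rw [sign_pos h1, sign_pos h2])
    · exact h (by rw [sign_neg h1, sign_neg h2])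
  have hd : a - b ≠ 0 := sub_ne_zero.2 hab
  have hdd : 0 < (a - b) * (a - b) := mul_self_pos.2 hd
  refine ⟨-b / (a - b), a / (a - b), ?_, ?_, ?_, ?_⟩
  · have : -b / (a - b) = (b * b - a * b) / ((a - b) * (a - b)) := by
      field_simp
      ring
    rw [this]
    exact div_nonneg (by nlinarith [mul_self_nonneg b]) hdd.le
  · have : a / (a - b) = (a * a - a * b) / ((a - b) * (a - b)) := by
      field_simp
    rw [this]
    exact div_nonneg (by nlinarith [mul_self_nonneg a]) hdd.le
  · rw [← add_div, div_eq_one_iff_eq hd]
    ring
  · field_simp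
    ring

lemma card_pair_le {X A : Type*} [DecidableEq A] (P : Finset X) (a : X → A) (c : X → SignType) :
    ∃ S : Finset A, (∀ v ∈ S, ∃ p ∈ P, ∃ q ∈ P, a p = v ∧ a q = v ∧ c p ≠ c q) ∧
    (P.image (fun p => (a p, c p))).card ≤ (P.image a).card + 2 * S.card := by
  classical
  set S := (P.image a).filter (fun v => ∃ p ∈ P, ∃ q ∈ P, a p = v ∧ a q = v ∧ c p ≠ c q) with hS
  refine ⟨S, fun v hv => (Finset.mem_filter.1 hv).2, ?_⟩
  have hmap : ∀ w ∈ P.image (fun p => (a p, c p)), w.1 ∈ P.image a := by
    intro w hw
    obtain ⟨p, hp, rfl⟩ := Finset.mem_image.1 hw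
    exact Finset.mem_image_of_mem a hp
  rw [Finset.card_eq_sum_card_fiberwise hmap]
  have hb : ∀ v ∈ P.image a, ((P.image (fun p => (a p, c p))).filter (fun w => w.1 = v)).card ≤
      1 + (if v ∈ S then 2 else 0) := by
    intro v hv
    split_ifs with hvS
    · have : ((P.image (fun p => (a p, c p))).filter (fun w => w.1 = v)).card ≤
          (Finset.univ : Finset SignType).card := by
        refine Finset.card_le_card_of_injOn Prod.snd (fun _ _ => Finset.mem_coe.2 (Finset.mem_univ _)) ?_
        intro w hw w' hw' h
        have h1 := (Finset.mem_filter.1 (Finset.mem_coe.1 hw)).2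
        have h2 := (Finset.mem_filter.1 (Finset.mem_coe.1 hw')).2
        exact Prod.ext (h1.trans h2.symm) h
      refine this.trans (le_of_eq ?_)
      decide
    · rw [add_zero]
      refine Finset.card_le_one.2 ?_
      intro w hw w' hw'
      obtain ⟨hw1, hw2⟩ := Finset.mem_filter.1 hw
      obtain ⟨hw1', hw2'⟩ := Finset.mem_filter.1 hw'
      obtain ⟨p, hp, rfl⟩ := Finset.mem_image.1 hw1
      obtain ⟨q, hq, rfl⟩ := Finset.mem_image.1 hw1'
      refine Prod.ext (hw2.trans hw2'.symm) ?_
      by_contra hc
      exact hvS (Finset.mem_filter.2 ⟨hv, p, hp, q, hq, hw2, hw2', hc⟩)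
  refine (Finset.sum_le_sum hb).trans (le_of_eq ?_)
  rw [Finset.sum_add_distrib, Finset.sum_const, smul_eq_mul, mul_one, ← Finset.sum_filter,
    Finset.sum_const, smul_eq_mul]
  have : (P.image a).filter (fun v => v ∈ S) = S := by
    ext v
    rw [Finset.mem_filter]
    refine ⟨fun h => h.2, fun h => ⟨?_, h⟩⟩
    rw [hS] at h
    exact (Finset.mem_filter.1 h).1
  rw [this, mul_comm]

/-- sign vector with index set `I` -/
noncomputable def sv {X ι : Type*} [DecidableEq ι] (F : ι → X → ℝ) (I : Finset ι) (p : X) :
    ι → SignType := fun i => if i ∈ I then SignType.sign (F i p) else 0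

lemma sv_eq_iff {X ι : Type*} [DecidableEq ι] (F : ι → X → ℝ) (I : Finset ι) (p q : X) :
    sv F I p = sv F I q ↔ ∀ i ∈ I, SignType.sign (F i p) = SignType.sign (F i q) := by
  constructor
  · intro h i hi
    have := congrFun h i
    simpa only [sv, if_pos hi] using this
  · intro h
    funext i
    unfold sv
    split_ifs with hi
    · exact h i hi
    · rfl

/-- adding one function -/
lemma split {X ι : Type*} [DecidableEq ι] [DecidableEq (ι → SignType)] [AddCommGroup X]
    [Module ℝ X] (F : ι → X → ℝ)
    (hF : ∀ i, ∀ x y : X, ∀ u v : ℝ, u + v = 1 → F i (u • x + v • y) = u * F i x + v * F i y)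
    (I : Finset ι) (g : ι) (hg : g ∉ I) (P : Finset X) (B1 B2 : ℕ)
    (h1 : (P.image (sv F I)).card ≤ B1)
    (h2 : ∀ Q : Finset X, (∀ x ∈ Q, F g x = 0) → (Q.image (sv F I)).card ≤ B2) :
    (P.image (sv F (insert g I))).card ≤ B1 + 2 * B2 := by
  classical
  have e1 : (P.image (sv F (insert g I))).card ≤
      (P.image (fun p => (sv F I p, SignType.sign (F g p)))).card := by
    refine card_image_le_of P _ _ ?_
    intro x _ y _ hxy
    rw [Prod.mk.injEq] at hxy
    rw [sv_eq_iff]
    intro i hi
    rcases Finset.mem_insert.1 hi with rfl | hi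
    · exact hxy.2
    · exact (sv_eq_iff F I x y).1 hxy.1 i hi
  obtain ⟨S, hS, e2⟩ := card_pair_le P (sv F I) (fun p => SignType.sign (F g p))
  refine e1.trans (e2.trans (Nat.add_le_add h1 (Nat.mul_le_mul_left 2 ?_)))
  have key : ∀ v ∈ S, ∃ r : X, sv F I r = v ∧ F g r = 0 := by
    intro v hv
    obtain ⟨p, hp, q, hq, hpv, hqv, hne⟩ := hS v hv
    obtain ⟨s, t, hs, ht, hst, h0⟩ := exists_zero hne
    refine ⟨s • p + t • q, ?_, ?_⟩
    · rw [← hpv, sv_eq_iff]
      intro i hi
      rw [hF i p q s t hst]
      exact sign_combo hs ht hst ((sv_eq_iff F I p q).1 (hpv.trans hqv.symm) i hi)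
    · rw [hF g p q s t hst, h0]
  choose! r hr1 hr2 using key
  have hsub : S ⊆ (S.image r).image (sv F I) := by
    intro v hv
    rw [Finset.mem_image]
    exact ⟨r v, Finset.mem_image_of_mem r hv, hr1 v hv⟩
  refine (Finset.card_le_card hsub).trans (h2 _ ?_)
  intro x hx
  obtain ⟨v, hv, rfl⟩ := Finset.mem_image.1 hx
  exact hr2 v hv

/-- adding the zero function -/
lemma split_zero {X ι : Type*} [DecidableEq ι] [DecidableEq (ι → SignType)] (F : ι → X → ℝ) (I : Finset ι) (g : ι) (hg : ∀ x, F g x = 0)
    (P : Finset X) : (P.image (sv F (insert g I))).card ≤ (P.image (sv F I)).card := by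
  refine card_image_le_of P _ _ ?_
  intro x _ y _ hxy
  rw [sv_eq_iff] at hxy ⊢
  intro i hi
  rcases Finset.mem_insert.1 hi with rfl | hi
  · rw [hg, hg]
  · exact hxy i hi

lemma image_empty_card {X ι : Type*} [DecidableEq ι] [DecidableEq (ι → SignType)] (F : ι → X → ℝ) (P : Finset X) :
    (P.image (sv F ∅)).card ≤ 1 := by
  refine Finset.card_le_one.2 ?_
  intro a ha b hb
  obtain ⟨x, _, rfl⟩ := Finset.mem_image.1 ha
  obtain ⟨y, _, rfl⟩ := Finset.mem_image.1 hb
  rw [sv_eq_iff]
  intro i hi
  exact absurd hi (Finset.notMem_empty i)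

lemma line_count {ι : Type*} [DecidableEq ι] [DecidableEq (ι → SignType)] (α β : ι → ℝ) (I : Finset ι) : ∀ Q : Finset ℝ,
    (Q.image (sv (fun i t => α i * t + β i) I)).card ≤ 2 * I.card + 1 := by
  induction I using Finset.induction_on with
  | empty =>
      intro Q
      have := image_empty_card (fun i t => α i * t + β i) Q
      simpa using this
  | insert g I hg ih =>
      intro Q
      rw [Finset.card_insert_of_notMem hg]
      by_cases h0 : α g = 0 ∧ β g = 0
      · have := split_zero (fun i t => α i * t + β i) I g (fun x => by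
          simp only [h0.1, h0.2]
          ring) Q
        have := ih Q
        omega
      · have := split (fun i t => α i * t + β i) (fun i x y u v huv => by
            simp only [smul_eq_mul]
            linear_combination (-(β i)) * huv) I g hg Q _ 1 (ih Q) (fun Q' hQ' => by
            refine Finset.card_le_one.2 ?_
            intro a ha b hb
            obtain ⟨x, hx, rfl⟩ := Finset.mem_image.1 ha
            obtain ⟨y, hy, rfl⟩ := Finset.mem_image.1 hb
            have hx0 := hQ' x hx
            have hy0 := hQ' y hy
            have hα : α g ≠ 0 := by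
              intro h
              refine h0 ⟨h, ?_⟩
              rw [h] at hx0
              linarith
            have : α g * (x - y) = 0 := by linarith
            rcases mul_eq_zero.1 this with h | h
            · exact absurd h hα
            · rw [show x = y by linarith])
        omega

lemma plane_count {ι : Type*} [DecidableEq ι] [DecidableEq (ι → SignType)] (α β γ : ι → ℝ) (I : Finset ι) : ∀ P : Finset Pt,
    (P.image (sv (fun i (p : Pt) => α i * p.1 + β i * p.2 + γ i) I)).card ≤
      1 + 2 * I.card ^ 2 := by
  induction I using Finset.induction_on with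
  | empty =>
      intro Q
      have := image_empty_card (fun i (p : Pt) => α i * p.1 + β i * p.2 + γ i) Q
      simpa using this
  | insert g I hg ih =>
      intro Q
      rw [Finset.card_insert_of_notMem hg]
      have hsq : 1 + 2 * (I.card + 1) ^ 2 = (1 + 2 * I.card ^ 2) + (4 * I.card + 2) := by ring
      by_cases h0 : (α g = 0 ∧ β g = 0) ∧ γ g = 0
      · have := split_zero (fun i (p : Pt) => α i * p.1 + β i * p.2 + γ i) I g (fun x => by
          simp only [h0.1.1, h0.1.2, h0.2]
          ring) Q
        refine this.trans ((ih Q).trans ?_)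
        rw [hsq]
        exact Nat.le_add_right _ _
      · have := split (fun i (p : Pt) => α i * p.1 + β i * p.2 + γ i) (fun i x y u v huv => by
            simp only [Prod.fst_add, Prod.snd_add, Prod.smul_fst, Prod.smul_snd, smul_eq_mul]
            linear_combination (-(γ i)) * huv) I g hg Q _ (2 * I.card + 1) (ih Q)
            (fun Q' hQ' => by
            by_cases hQe : Q'.Nonempty
            · obtain ⟨o, ho⟩ := hQe
              have ho0 := hQ' o ho
              have hαβ : 0 < α g ^ 2 + β g ^ 2 := by
                by_contra hc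
                have h1 : α g = 0 := by nlinarith [sq_nonneg (α g), sq_nonneg (β g)]
                have h2 : β g = 0 := by nlinarith [sq_nonneg (α g), sq_nonneg (β g)]
                refine h0 ⟨⟨h1, h2⟩, ?_⟩
                rw [h1, h2] at ho0
                linarith
              set D := α g ^ 2 + β g ^ 2 with hD
              -- parameter of a point
              let τ : Pt → ℝ := fun p => ((p.1 - o.1) * (-β g) + (p.2 - o.2) * α g) / D
              have hτ : ∀ p ∈ Q', p.1 = o.1 + τ p * (-β g) ∧ p.2 = o.2 + τ p * α g := by
                intro p hp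
                have hp0 := hQ' p hp
                have h3 : α g * (p.1 - o.1) + β g * (p.2 - o.2) = 0 := by linarith
                constructor
                · simp only [τ]
                  field_simp
                  rw [hD]
                  linear_combination (α g) * h3
                · simp only [τ]
                  field_simp
                  rw [hD]
                  linear_combination (β g) * h3
              have h4 := line_count (fun i => α i * (-β g) + β i * α g)
                (fun i => α i * o.1 + β i * o.2 + γ i) I (Q'.image τ)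
              rw [Finset.image_image] at h4
              refine le_trans (card_image_le_of Q' _ _ ?_) h4
              intro x hx y hy hxy
              rw [Function.comp_apply, Function.comp_apply, sv_eq_iff] at hxy
              rw [sv_eq_iff]
              intro i hi
              have h5 := hxy i hi
              have hval : ∀ p ∈ Q', α i * p.1 + β i * p.2 + γ i =
                  (α i * (-β g) + β i * α g) * τ p + (α i * o.1 + β i * o.2 + γ i) := by
                intro p hp
                obtain ⟨k1, k2⟩ := hτ p hp
                rw [k1, k2]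
                ring
              rw [hval x hx, hval y hy]
              exact h5
            · rw [Finset.not_nonempty_iff_eq_empty.1 hQe]
              simp)
        rw [hsq]
        omega

lemma image_sub_card {X ι : Type*} [DecidableEq ι] [DecidableEq (ι → SignType)]
    (F : ι → X → ℝ) (I : Finset ι) (P : Finset X) :
    (P.image (fun p => fun i : I => SignType.sign (F i p))).card ≤ (P.image (sv F I)).card := by
  refine card_image_le_of P (fun p => fun i : I => SignType.sign (F i p)) (sv F I) ?_
  intro x _ y _ hxy
  rw [sv_eq_iff] at hxy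
  funext i
  exact hxy i i.2

end SignCountAux

open SignCountAux

theorem sign_count_line {ι : Type*} [DecidableEq ι] (I : Finset ι) (α β : ι → ℝ) (Q : Finset ℝ) :
    (Q.image (fun t => fun i : I => SignType.sign (α i * t + β i))).card ≤ 2 * I.card + 1 := by
  let : DecidableEq (ι → SignType) := Classical.decEq _
  exact (image_sub_card (fun i t => α i * t + β i) I Q).trans (line_count α β I Q)

theorem sign_count {ι : Type*} [DecidableEq ι] (I : Finset ι) (α β γ : ι → ℝ) (P : Finset Pt) :
    (P.image (fun p => fun i : I => SignType.sign (α i * p.1 + β i * p.2 + γ i))).card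
      ≤ 4 * (I.card + 1) ^ 2 := by
  let : DecidableEq (ι → SignType) := Classical.decEq _
  have h := (image_sub_card (fun i (p : Pt) => α i * p.1 + β i * p.2 + γ i) I P).trans
    (plane_count α β γ I P)
  have h2 : 1 + 2 * I.card ^ 2 ≤ 4 * (I.card + 1) ^ 2 := by
    calc 1 + 2 * I.card ^ 2 ≤ (1 + 2 * I.card ^ 2) + (2 * I.card ^ 2 + 8 * I.card + 3) :=
          Nat.le_add_right _ _
      _ = 4 * (I.card + 1) ^ 2 := by ring
  exact h.trans h2

/-- the classes of `SameS` -/
theorem exists_classes (P S : Finset Pt) :
    ∃ c : Pt → ℕ, (∀ p ∈ P, ∀ q ∈ P, (c p = c q ↔ SameS S p q)) ∧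
      (P.image c).card ≤ 4 * (S.card ^ 3 + 1) ^ 2 ∧
      ∀ i j, i ≠ j → Disjoint (convexHull ℝ (cls P c i : Set Pt))
        (convexHull ℝ (cls P c j : Set Pt)) := by
  classical
  set I : Finset (Pt × Pt × Pt) := S ×ˢ S ×ˢ S with hI
  set α : Pt × Pt × Pt → ℝ := fun k => -(k.2.1.2 - k.1.2) with hα
  set β : Pt × Pt × Pt → ℝ := fun k => k.2.1.1 - k.1.1 with hβ
  set γ : Pt × Pt × Pt → ℝ := fun k =>
    -(k.2.1.1 - k.1.1) * k.1.2 + (k.2.1.2 - k.1.2) * k.1.1 - ori k.1 k.2.1 k.2.2 with hγ
  have hval : ∀ (k : Pt × Pt × Pt) (p : Pt), α k * p.1 + β k * p.2 + γ k =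
      ori k.1 k.2.1 p - ori k.1 k.2.1 k.2.2 := by
    intro k p
    simp only [hα, hβ, hγ]
    unfold ori
    ring
  set σ : Pt → (I → SignType) := fun p => fun i : I =>
    SignType.sign (α i * p.1 + β i * p.2 + γ i) with hσ
  obtain ⟨f, hf⟩ := Countable.exists_injective_nat (I → SignType)
  have hS : ∀ p q, σ p = σ q ↔ SameS S p q := by
    intro p q
    constructor
    · intro h a ha b hb s hs
      have hm : ((a, b, s) : Pt × Pt × Pt) ∈ I := by
        rw [hI]
        simp [ha, hb, hs]
      have := congrFun h ⟨(a, b, s), hm⟩
      simp only [hσ, hval] at this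
      exact this
    · intro h
      funext ⟨⟨a, b, s⟩, hm⟩
      simp only [hσ, hval]
      rw [hI] at hm
      simp only [Finset.mem_product] at hm
      exact h a hm.1 b hm.2.1 s hm.2.2
  refine ⟨fun p => f (σ p), fun p _ q _ => ?_, ?_, ?_⟩
  · rw [← hS]
    exact ⟨fun h => hf h, fun h => congrArg f h⟩
  · have h1 : (P.image (fun p => f (σ p))).card ≤ (P.image σ).card := by
      refine card_image_le_of P _ _ ?_
      intro x _ y _ hxy
      show f (σ x) = f (σ y)
      rw [hxy]
    have h2 := sign_count I α β γ P
    have h3 : I.card = S.card ^ 3 := by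
      rw [hI, Finset.card_product, Finset.card_product]
      ring
    rw [h3] at h2
    refine h1.trans (le_trans (le_of_eq ?_) h2)
    rw [hσ]
  · intro i j hij
    rcases (cls P (fun p => f (σ p)) i).eq_empty_or_nonempty with he | ⟨p, hp⟩
    · rw [he]
      simp
    rcases (cls P (fun p => f (σ p)) j).eq_empty_or_nonempty with he | ⟨q, hq⟩
    · rw [he]
      simp
    unfold cls at hp hq
    rw [Finset.mem_filter] at hp hq
    have hne : σ p ≠ σ q := by
      intro h
      exact hij (hp.2.symm.trans ((congrArg f h).trans hq.2))
    obtain ⟨k, hk⟩ := Function.ne_iff.1 hne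
    have hconv : ∀ s : SignType, Convex ℝ {x : Pt | SignType.sign
        (ori k.1.1 k.1.2.1 x - ori k.1.1 k.1.2.1 k.1.2.2) = s} := by
      intro s x hx y hy u v hu hv huv
      rw [Set.mem_ofPred_eq] at hx hy ⊢
      have e : ori k.1.1 k.1.2.1 (u • x + v • y) - ori k.1.1 k.1.2.1 k.1.2.2 =
          u * (ori k.1.1 k.1.2.1 x - ori k.1.1 k.1.2.1 k.1.2.2) +
          v * (ori k.1.1 k.1.2.1 y - ori k.1.1 k.1.2.1 k.1.2.2) := by
        rw [NoCrossAux.ori_comb _ _ _ _ u v huv]
        linear_combination (ori k.1.1 k.1.2.1 k.1.2.2) * huv
      rw [e, sign_combo hu hv huv (hx.trans hy.symm), hx]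
    have hsub : ∀ (l : ℕ) (r : Pt), f (σ r) = l →
        convexHull ℝ (cls P (fun p => f (σ p)) l : Set Pt) ⊆ {x : Pt | SignType.sign
        (ori k.1.1 k.1.2.1 x - ori k.1.1 k.1.2.1 k.1.2.2) = σ r k} := by
      intro l r hr
      refine convexHull_min ?_ (hconv _)
      intro x hx
      have hx' := (Finset.mem_filter.1 (Finset.mem_coe.1 hx)).2
      have h5 : σ x = σ r := hf (hx'.trans hr.symm)
      have h6 := congrFun h5 k
      rw [Set.mem_ofPred_eq, ← h6]
      simp only [hσ, hval]
    refine Set.disjoint_left.2 ?_
    intro x hx1 hx2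
    have h7 := hsub i p hp.2 hx1
    have h8 := hsub j q hq.2 hx2
    rw [Set.mem_ofPred_eq] at h7 h8
    exact hk (h7.symm.trans h8)

end F059
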