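import Pool.Agent.Lib.F059.LowCross
import Pool.Agent.Lib.F059.Net
import Pool.Agent.Lib.F059.SignCount

/-!
# F059B.Nodes: the class decomposition, asymptotic form

PROOF.  Given ε1, θ > 0 (real).  n = |P| large.  t1 = ⌊ε1 n⌋, t2 = ⌊θ n / 5⌋ hmm: choose t2 := ⌊θ n/4⌋ with 3 t2 + 8 ≤ θ n for n ≥ 32/θ; k = ⌈6/ε1⌉ + ⌈4/θ⌉ + 1 (constant): 6 n ≤ k (t1+1), n ≤ k (t2+1).
`net` gives S with |S| ≤ 4k(log2(n^5)+1)+3 = O(log n).  `exists_classes`: c with (P.image c).card ≤ 4 (|S|^3+1)^2 = O((log n)^6) ≤ n^(1/100) for large n (isLittleO_log_rpow_atTop etc.; |S| ≤ C log n).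
low: p, q in the same class; if t1 < N T s(p,q) then some a, b ∈ S with Cr p q a b, but ori a b p and ori a b q have the same sign (SameS with s = a, ori a b a = 0), while Cr gives ori a b p * ori a b q < 0.
line: `low_cross` (metBy with Rel = SameS S equals metBy with Rel p q := c q = c p for p, q ∈ P).
-/

namespace F059

namespace NodesAux

open Filter

lemma growth (K : ℝ) (hK : 1 ≤ K) : ∀ᶠ n : ℕ in atTop,
    1 ≤ Real.log n ∧ 4 * ((K * Real.log n) ^ 3 + 1) ^ 2 ≤ (n : ℝ) ^ (1 / 100 : ℝ) := by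
  have h1 : ∀ᶠ n : ℕ in atTop, 1 ≤ Real.log n :=
    (Real.tendsto_log_atTop.comp tendsto_natCast_atTop_atTop).eventually_ge_atTop 1
  have hc : (0 : ℝ) < 1 / (16 * K ^ 6) := by positivity
  have h2 : ∀ᶠ x : ℝ in atTop, ‖Real.log x ^ (6 : ℝ)‖ ≤ 1 / (16 * K ^ 6) * ‖x ^ (1 / 100 : ℝ)‖ :=
    (isLittleO_log_rpow_rpow_atTop (6 : ℝ) (by norm_num : (0 : ℝ) < 1 / 100)).bound hc
  have h3 : ∀ᶠ n : ℕ in atTop, ‖Real.log (n : ℝ) ^ (6 : ℝ)‖ ≤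
      1 / (16 * K ^ 6) * ‖(n : ℝ) ^ (1 / 100 : ℝ)‖ :=
    tendsto_natCast_atTop_atTop.eventually h2
  filter_upwards [h1, h3] with n hn1 hn2
  refine ⟨hn1, ?_⟩
  set L := Real.log (n : ℝ) with hL
  have e1 : L ^ (6 : ℝ) = L ^ 6 := by
    rw [← Real.rpow_natCast]
    norm_num
  have hn0 : (0 : ℝ) ≤ (n : ℝ) ^ (1 / 100 : ℝ) := by positivity
  rw [e1, Real.norm_of_nonneg (by positivity), Real.norm_of_nonneg hn0] at hn2
  have hx : 1 ≤ (K * L) ^ 3 := one_le_pow₀ (by nlinarith)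
  have e2 : 4 * ((K * L) ^ 3 + 1) ^ 2 ≤ 16 * K ^ 6 * L ^ 6 := by
    have : ((K * L) ^ 3 + 1) ^ 2 ≤ (2 * (K * L) ^ 3) ^ 2 :=
      pow_le_pow_left₀ (by linarith) (by linarith) 2
    calc 4 * ((K * L) ^ 3 + 1) ^ 2 ≤ 4 * (2 * (K * L) ^ 3) ^ 2 := by linarith
      _ = 16 * K ^ 6 * L ^ 6 := by ring
  refine e2.trans ?_
  have h16 : 0 < 16 * K ^ 6 := by positivity
  calc 16 * K ^ 6 * L ^ 6 ≤ 16 * K ^ 6 * (1 / (16 * K ^ 6) * (n : ℝ) ^ (1 / 100 : ℝ)) :=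
        mul_le_mul_of_nonneg_left hn2 h16.le
    _ = (n : ℝ) ^ (1 / 100 : ℝ) := by
        field_simp

lemma natlog_le {n : ℕ} (hn : 1 ≤ n) : (Nat.log 2 (n ^ 5) : ℝ) ≤ 10 * Real.log n := by
  have h1 : (Nat.log 2 (n ^ 5) : ℝ) * Real.log 2 ≤ Real.log ((n ^ 5 : ℕ) : ℝ) := by
    have h2 : (2 : ℕ) ^ Nat.log 2 (n ^ 5) ≤ n ^ 5 := Nat.pow_log_le_self 2 (by positivity)
    have h3 : ((2 : ℝ) ^ Nat.log 2 (n ^ 5)) ≤ ((n ^ 5 : ℕ) : ℝ) := by exact_mod_cast h2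
    have h4 := Real.log_le_log (by positivity) h3
    rwa [Real.log_pow] at h4
  have h5 : Real.log ((n ^ 5 : ℕ) : ℝ) = 5 * Real.log n := by
    push_cast
    rw [Real.log_pow]
    norm_num
  rw [h5] at h1
  have h6 : (1 : ℝ) / 2 < Real.log 2 := by
    have := Real.log_two_gt_d9
    linarith
  have h7 : (0 : ℝ) ≤ (Nat.log 2 (n ^ 5) : ℝ) := Nat.cast_nonneg _
  nlinarith

lemma mem_metBy {P : Finset Pt} {Rel : Pt → Pt → Prop} {x y p : Pt} :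
    p ∈ metBy P Rel x y ↔ p ∈ P ∧ ∃ q ∈ P, ∃ q' ∈ P, Rel p q ∧ Rel p q' ∧ ori x y q ≤ 0 ∧
      0 ≤ ori x y q' := by
  classical
  unfold metBy
  rw [Finset.mem_filter]

end NodesAux

open NodesAux

theorem nodes (ε1 θ : ℝ) (h1 : 0 < ε1) (hθ : 0 < θ) :
    ∃ n0 : ℕ, ∀ P : Finset Pt, n0 ≤ P.card → GenPos P → ∀ T : Finset (Sym2 Pt), T ⊆ Seg P →
      T.card ≤ 6 * P.card →
      ∃ c : Pt → ℕ, ClsSys P c ∧ ((P.image c).card : ℝ) ≤ (P.card : ℝ) ^ (1 / 100 : ℝ) ∧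
        (∀ p ∈ P, ∀ q ∈ P, p ≠ q → c p = c q → (N T s(p, q) : ℝ) ≤ ε1 * P.card) ∧
        ∀ x y : Pt, x ≠ y → ((metBy P (fun p q => c q = c p) x y).card : ℝ) ≤ θ * P.card := by
  classical
  set k : ℕ := ⌈6 / ε1⌉₊ + ⌈4 / θ⌉₊ + 1 with hk
  have hk1 : (6 / ε1 : ℝ) ≤ k := by
    have := Nat.le_ceil (6 / ε1)
    have : (0 : ℝ) ≤ (⌈4 / θ⌉₊ : ℝ) := Nat.cast_nonneg _
    rw [hk]
    push_cast
    linarith
  have hk2 : (4 / θ : ℝ) ≤ k := by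
    have := Nat.le_ceil (4 / θ)
    have : (0 : ℝ) ≤ (⌈6 / ε1⌉₊ : ℝ) := Nat.cast_nonneg _
    rw [hk]
    push_cast
    linarith
  have hk0 : 0 < k := by omega
  obtain ⟨n1, hn1⟩ := Filter.eventually_atTop.1 (growth (44 * k + 3) (by
    have : (0 : ℝ) ≤ k := Nat.cast_nonneg _
    linarith))
  refine ⟨max (max n1 3) ⌈32 / θ⌉₊, ?_⟩
  intro P hP hgp T hT hTc
  have hPn1 : n1 ≤ P.card := (le_max_left _ _).trans ((le_max_left _ _).trans hP)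
  have hP3 : 3 ≤ P.card := (le_max_right _ _).trans ((le_max_left _ _).trans hP)
  have hP32 : (32 / θ : ℝ) ≤ P.card :=
    (Nat.le_ceil _).trans (by exact_mod_cast (le_max_right _ _).trans hP)
  obtain ⟨hL, hgrow⟩ := hn1 _ hPn1
  set n : ℝ := (P.card : ℝ) with hn
  have hn0 : 0 ≤ n := Nat.cast_nonneg _
  have ha1 : 0 ≤ ε1 * n := by positivity
  have ha2 : 0 ≤ θ * n / 4 := by positivity
  have g1 : 6 * P.card ≤ k * (⌊ε1 * n⌋₊ + 1) := by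
    have h := Nat.lt_floor_add_one (ε1 * n)
    have : (6 : ℝ) * n ≤ k * ((⌊ε1 * n⌋₊ : ℝ) + 1) := by
      calc (6 : ℝ) * n = 6 / ε1 * (ε1 * n) := by field_simp
        _ ≤ k * ((⌊ε1 * n⌋₊ : ℝ) + 1) := mul_le_mul hk1 h.le ha1 (Nat.cast_nonneg _)
    have h' : (((6 * P.card : ℕ) : ℝ)) ≤ ((k * (⌊ε1 * n⌋₊ + 1) : ℕ) : ℝ) := by
      push_cast
      exact this
    exact Nat.cast_le.1 h'
  have g2 : P.card ≤ k * (⌊θ * n / 4⌋₊ + 1) := by
    have h := Nat.lt_floor_add_one (θ * n / 4)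
    have : n ≤ k * ((⌊θ * n / 4⌋₊ : ℝ) + 1) := by
      calc n = 4 / θ * (θ * n / 4) := by field_simp
        _ ≤ k * ((⌊θ * n / 4⌋₊ : ℝ) + 1) := mul_le_mul hk2 h.le ha2 (Nat.cast_nonneg _)
    have h' : ((P.card : ℕ) : ℝ) ≤ ((k * (⌊θ * n / 4⌋₊ + 1) : ℕ) : ℝ) := by
      push_cast
      exact this
    exact Nat.cast_le.1 h'
  obtain ⟨S, hSP, hS3, hSc, hS1, hS2, hS4⟩ := net hP3 hT hTc k ⌊ε1 * n⌋₊ ⌊θ * n / 4⌋₊ hk0 g1 g2
  obtain ⟨c, hc1, hc2, hc3⟩ := exists_classes P S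
  refine ⟨c, ⟨hgp, hc3⟩, ?_, ?_, ?_⟩
  · -- number of classes
    have hlog := natlog_le (n := P.card) (by omega)
    have hSr : (S.card : ℝ) ≤ (44 * k + 3) * Real.log n := by
      have h5 : (S.card : ℝ) ≤ 4 * k * ((Nat.log 2 (P.card ^ 5) : ℝ) + 1) + 3 := by
        exact_mod_cast hSc
      have hkr : (0 : ℝ) ≤ k := Nat.cast_nonneg _
      have h6 : (4 : ℝ) * k * ((Nat.log 2 (P.card ^ 5) : ℝ) + 1) ≤
          4 * k * (10 * Real.log n + Real.log n) :=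
        mul_le_mul_of_nonneg_left (by linarith) (by positivity)
      nlinarith
    have h7 : ((P.image c).card : ℝ) ≤ 4 * ((S.card : ℝ) ^ 3 + 1) ^ 2 := by
      exact_mod_cast hc2
    refine h7.trans (le_trans ?_ hgrow)
    have hS0 : (0 : ℝ) ≤ S.card := Nat.cast_nonneg _
    have h8 : (S.card : ℝ) ^ 3 ≤ ((44 * k + 3) * Real.log n) ^ 3 := pow_le_pow_left₀ hS0 hSr 3
    have h9 : ((S.card : ℝ) ^ 3 + 1) ^ 2 ≤ (((44 * k + 3) * Real.log n) ^ 3 + 1) ^ 2 :=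
      pow_le_pow_left₀ (by positivity) (by linarith) 2
    linarith
  · intro p hp q hq hpq hcpq
    by_contra hcon
    push Not at hcon
    have h5 : ⌊ε1 * n⌋₊ < N T s(p, q) := (Nat.floor_lt ha1).2 hcon
    obtain ⟨a, ha, b, hb, hcr⟩ := hS1 p hp q hq hpq h5
    have h6 := (hc1 p hp q hq).1 hcpq a ha b hb a ha
    have h7 : ori a b a = 0 := by
      unfold ori
      ring
    rw [h7, sub_zero, sub_zero] at h6
    have h8 := hcr.2
    rcases lt_trichotomy (ori a b p) 0 with hlt | heq | hgt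
    · rw [sign_neg hlt] at h6
      have := sign_eq_neg_one_iff.1 h6.symm
      nlinarith [mul_pos_of_neg_of_neg hlt this]
    · rw [heq, zero_mul] at h8
      exact lt_irrefl _ h8
    · rw [sign_pos hgt] at h6
      have := sign_eq_one_iff.1 h6.symm
      nlinarith [mul_pos hgt this]
  · intro x y hxy
    have h5 := low_cross hgp hSP hS3 ⌊θ * n / 4⌋₊
      (fun a ha b hb s1 hs1 s2 hs2 h => hS2 a (hSP ha) b (hSP hb) s1 hs1 s2 hs2 h)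
      (fun a ha b hb a' ha' b' hb' s0 hs0 h =>
        hS4 a (hSP ha) b (hSP hb) a' (hSP ha') b' (hSP hb') s0 (hSP hs0) h) hxy
    have h6 : metBy P (fun p q => c q = c p) x y = metBy P (SameS S) x y := by
      ext p
      rw [mem_metBy, mem_metBy]
      refine and_congr_right (fun hp => ?_)
      constructor
      · rintro ⟨q, hq, q', hq', e1, e2, h⟩
        exact ⟨q, hq, q', hq', (hc1 p hp q hq).1 e1.symm, (hc1 p hp q' hq').1 e2.symm, h⟩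
      · rintro ⟨q, hq, q', hq', e1, e2, h⟩
        exact ⟨q, hq, q', hq', ((hc1 p hp q hq).2 e1).symm, ((hc1 p hp q' hq').2 e2).symm, h⟩
    rw [h6]
    have h7 : ((metBy P (SameS S) x y).card : ℝ) ≤ 3 * (⌊θ * n / 4⌋₊ : ℝ) + 8 := by
      exact_mod_cast h5
    have h8 := Nat.floor_le ha2
    have h9 : 32 ≤ θ * n := by
      rw [div_le_iff₀ hθ] at hP32
      linarith
    linarith

end F059
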