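import Pool.Agent.Lib.F059.TSpan

/-!
# F059D.TJoin: choosing an even set of doors

PROOF.  I = {f.m, f.p : f ∈ E} ∪ Cf, J = Ce.  `span_join` (connectivity conn_f; J: `door`) gives I' ⊆ I.
D = {f.b : f ∈ E, not (f.m ∈ I' and f.p ∈ I')} ∪ {f.m : f ∈ E, not (f.m ∈ I' and f.p ∉ I')} ∪
{f.p : f ∈ E, not (f.p ∈ I' and f.m ∉ I')} ∪ Ce ∪ (Cf ∩ I').
All these points are different: `StarSys.ear` (different ears), within an ear b, m, p are different (they are
the vertices of a nondegenerate triangle, `good`), `StarSys.zne` (centres are no ear points), disjC.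
At the leaf f put L = A f.b = A f.m, F = B f.m = A f.p, R = B f.b = B f.p (three different cells by `door`: L ≠ R,
L ≠ F, F ≠ R).  For v the number of used doors among b, m, p at v is (mod 2)
  b, m, p:  [L=v]+[R=v] + [L=v]+[F=v] + [F=v]+[R=v] = 0,
  b, p (m ∈ I', p ∉ I'): [L=v]+[R=v]+[F=v]+[R=v] = [L=v]+[F=v]      (= contribution of f.m ∈ I'),
  b, m (p ∈ I', m ∉ I'): [L=v]+[R=v]+[L=v]+[F=v] = [F=v]+[R=v]      (= contribution of f.p ∈ I'),
  m, p (both in I'):     [L=v]+[F=v]+[F=v]+[R=v]                    (= contribution of f.m, f.p ∈ I').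
(doorsOf D A B v counts d with A d = v or B d = v; as A d ≠ B d, its card is #(A d = v) + #(B d = v).)
So |doorsOf D A B v| ≡ Σ_{d ∈ I'} ([A d = v] + [B d = v]) + Σ_{d ∈ Ce} (...) ≡ 0.
conn: let κ(A d) ↔ κ(B d) for d ∈ D.  At each leaf two of b, m, p are in D, and they connect L, F, R; so
κ(A d) ↔ κ(B d) for all d = f.m, f.p; also for d ∈ Ce ⊆ D; apply conn_e.
card: D contains at least two of f.b, f.m, f.p for f ∈ E (E nonempty).  If |D| ≤ 2 then D is exactly two of them, and one of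
L, F, R has degree 1 (b,m: F; b,p: F; m,p: L): contradiction with evenness.
-/

namespace F059

lemma mem_doorsOf' {D : Finset Pt} {A B : Pt → Set Pt} {v : Set Pt} {d : Pt} :
    d ∈ doorsOf D A B v ↔ d ∈ D ∧ (A d = v ∨ B d = v) := by
  unfold doorsOf; simp [Finset.mem_filter]

/-- basic distinctness facts of star systems -/
lemma StarSys.distinct {P : Finset Pt} {E : Finset Leaf} (hE : StarSys P E) :
    (∀ f ∈ E, f.b ≠ f.m ∧ f.b ≠ f.p ∧ f.m ≠ f.p) ∧
    (∀ f ∈ E, ∀ f' ∈ E, f.b ≠ f'.m ∧ f.b ≠ f'.p ∧ f.m ≠ f'.p) ∧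
    (∀ f ∈ E, ∀ f' ∈ E, (f.b = f'.b → f = f') ∧ (f.m = f'.m → f = f') ∧ (f.p = f'.p → f = f')) := by
  have h1 : ∀ f ∈ E, f.b ≠ f.m ∧ f.b ≠ f.p ∧ f.m ≠ f.p := by
    intro f hf
    obtain ⟨g1, g2, g3⟩ := hE.good f hf
    refine ⟨?_, ?_, ?_⟩
    · intro h
      rw [← h] at g1
      have : ori f.z f.b f.b = 0 := by unfold ori; ring
      linarith
    · intro h
      rw [← h] at g2
      have : ori f.z f.b f.b = 0 := by unfold ori; ring
      linarith
    · intro h
      rw [h] at g3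
      have : ori f.p f.p f.b = 0 := by unfold ori; ring
      linarith
  refine ⟨h1, ?_, ?_⟩
  · intro f hf f' hf'
    by_cases hff : f = f'
    · subst hff; exact h1 f hf
    · have a1 := hE.ear f hf f' hf' hff f.b (Or.inl rfl)
      have a2 := hE.ear f hf f' hf' hff f.m (Or.inr (Or.inl rfl))
      exact ⟨a1.2.1, a1.2.2, a2.2.2⟩
  · intro f hf f' hf'
    refine ⟨?_, ?_, ?_⟩
    · intro h
      by_contra hff
      exact (hE.ear f hf f' hf' hff f.b (Or.inl rfl)).1 h
    · intro h
      by_contra hff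
      exact (hE.ear f hf f' hf' hff f.m (Or.inr (Or.inl rfl))).2.1 h
    · intro h
      by_contra hff
      exact (hE.ear f hf f' hf' hff f.p (Or.inr (Or.inr rfl))).2.2 h

theorem even_doors {P : Finset Pt} {E : Finset Leaf} (hE : StarSys P E) (hne : E.Nonempty)
    {V : Finset (Set Pt)} {A B : Pt → Set Pt} {Ce Cf : Finset Pt} (h : DoorSys P E V A B Ce Cf) :
    ∃ D : Finset Pt, EvenDoors P V A B D := by
  classical
  obtain ⟨hd1, hd2, hd3⟩ := hE.distinct
  set I : Finset Pt := (E.image (fun f => f.m) ∪ E.image (fun f => f.p)) ∪ Cf with hI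
  have hImem : ∀ d, d ∈ I ↔ ((∃ f ∈ E, f.m = d) ∨ ∃ f ∈ E, f.p = d) ∨ d ∈ Cf := by
    intro d; rw [hI]; simp only [Finset.mem_union, Finset.mem_image]
  have hconnI : ∀ κ : Set Pt → Prop, (∀ i ∈ I, (κ (A i) ↔ κ (B i))) →
      ∀ u ∈ V, ∀ v ∈ V, (κ u ↔ κ v) := by
    intro κ hκ
    apply h.conn_f κ
    intro d hd hdb
    apply hκ
    rw [hImem]
    rcases hd with ⟨f, hf, h1 | h1 | h1⟩ | hd
    · exact absurd h1 (hdb f hf)
    · exact Or.inl (Or.inl ⟨f, hf, h1.symm⟩)
    · exact Or.inl (Or.inr ⟨f, hf, h1.symm⟩)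
    · exact Or.inr hd
  have hJ : ∀ j ∈ Ce, A j ∈ V ∧ B j ∈ V := by
    intro j hj
    have := h.door j (Or.inr (Finset.mem_union_left _ hj))
    exact ⟨this.1, this.2.1⟩
  obtain ⟨I', hI'I, hI'⟩ := span_join V A B I Ce hconnI hJ
  -- centres are not ear points
  have hcz : ∀ z ∈ Ce ∪ Cf, ∀ f ∈ E, z ≠ f.b ∧ z ≠ f.m ∧ z ≠ f.p := by
    intro z hz f hf
    obtain ⟨f', hf', rfl⟩ := h.cen z hz
    exact hE.zne f' hf' f hf
  set Eb := E.filter (fun f => ¬ (f.m ∈ I' ∧ f.p ∈ I')) with hEb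
  set Em := E.filter (fun f => ¬ (f.m ∈ I' ∧ f.p ∉ I')) with hEm
  set Ep := E.filter (fun f => ¬ (f.p ∈ I' ∧ f.m ∉ I')) with hEp
  set D : Finset Pt := (((Eb.image (fun f => f.b) ∪ Em.image (fun f => f.m)) ∪
    Ep.image (fun f => f.p)) ∪ Ce) ∪ (Cf ∩ I') with hD
  have hDmem : ∀ d, d ∈ D ↔ ((((∃ f ∈ Eb, f.b = d) ∨ ∃ f ∈ Em, f.m = d) ∨ ∃ f ∈ Ep, f.p = d) ∨
      d ∈ Ce) ∨ (d ∈ Cf ∧ d ∈ I') := by
    intro d; rw [hD]; simp only [Finset.mem_union, Finset.mem_image, Finset.mem_inter]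
  have hEbm : ∀ f, f ∈ Eb ↔ f ∈ E ∧ ¬ (f.m ∈ I' ∧ f.p ∈ I') := by
    intro f; rw [hEb, Finset.mem_filter]
  have hEmm : ∀ f, f ∈ Em ↔ f ∈ E ∧ ¬ (f.m ∈ I' ∧ f.p ∉ I') := by
    intro f; rw [hEm, Finset.mem_filter]
  have hEpm : ∀ f, f ∈ Ep ↔ f ∈ E ∧ ¬ (f.p ∈ I' ∧ f.m ∉ I') := by
    intro f; rw [hEp, Finset.mem_filter]
  have hDb : ∀ f ∈ E, ¬ (f.m ∈ I' ∧ f.p ∈ I') → f.b ∈ D := by
    intro f hf h1
    exact (hDmem _).2 (Or.inl (Or.inl (Or.inl (Or.inl ⟨f, (hEbm f).2 ⟨hf, h1⟩, rfl⟩))))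
  have hDm : ∀ f ∈ E, ¬ (f.m ∈ I' ∧ f.p ∉ I') → f.m ∈ D := by
    intro f hf h1
    exact (hDmem _).2 (Or.inl (Or.inl (Or.inl (Or.inr ⟨f, (hEmm f).2 ⟨hf, h1⟩, rfl⟩))))
  have hDp : ∀ f ∈ E, ¬ (f.p ∈ I' ∧ f.m ∉ I') → f.p ∈ D := by
    intro f hf h1
    exact (hDmem _).2 (Or.inl (Or.inl (Or.inr ⟨f, (hEpm f).2 ⟨hf, h1⟩, rfl⟩)))
  have hDoor : ∀ d ∈ D, IsDoor E (Ce ∪ Cf) d := by
    intro d hd
    rcases (hDmem d).1 hd with (((⟨f, hf, rfl⟩ | ⟨f, hf, rfl⟩) | ⟨f, hf, rfl⟩) | hd) | ⟨hd, -⟩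
    · exact Or.inl ⟨f, ((hEbm f).1 hf).1, Or.inl rfl⟩
    · exact Or.inl ⟨f, ((hEmm f).1 hf).1, Or.inr (Or.inl rfl)⟩
    · exact Or.inl ⟨f, ((hEpm f).1 hf).1, Or.inr (Or.inr rfl)⟩
    · exact Or.inr (Finset.mem_union_left _ hd)
    · exact Or.inr (Finset.mem_union_right _ hd)
  have hIsb : ∀ f ∈ E, IsDoor E (Ce ∪ Cf) f.b := fun f hf => Or.inl ⟨f, hf, Or.inl rfl⟩
  have hIsm : ∀ f ∈ E, IsDoor E (Ce ∪ Cf) f.m := fun f hf => Or.inl ⟨f, hf, Or.inr (Or.inl rfl)⟩
  have hIsp : ∀ f ∈ E, IsDoor E (Ce ∪ Cf) f.p := fun f hf => Or.inl ⟨f, hf, Or.inr (Or.inr rfl)⟩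
  -- evenness
  have heven : ∀ v : Set Pt, Even (doorsOf D A B v).card := by
    intro v
    obtain ⟨g, hg⟩ : ∃ g : Pt → ZMod 2,
        g = fun d => (if A d = v then 1 else 0) + (if B d = v then 1 else 0) := ⟨_, rfl⟩
    have hcardD : ((doorsOf D A B v).card : ZMod 2) = ∑ d ∈ D, g d := by
      have : doorsOf D A B v = D.filter (fun d => A d = v ∨ B d = v) := by
        ext d; rw [mem_doorsOf', Finset.mem_filter]
      rw [this, Finset.card_filter, Nat.cast_sum]
      apply Finset.sum_congr rfl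
      intro d hd
      have hAB := (h.door d (hDoor d hd)).2.2.1
      rw [hg]
      by_cases h1 : A d = v
      · have h2 : B d ≠ v := fun h2 => hAB (h1.trans h2.symm)
        simp [h1, h2]
      · by_cases h2 : B d = v
        · simp [h1, h2]
        · simp [h1, h2]
    -- sums over D
    have hsumD : ∑ d ∈ D, g d = ∑ f ∈ E, ((if ¬ (f.m ∈ I' ∧ f.p ∈ I') then g f.b else 0) +
        (if ¬ (f.m ∈ I' ∧ f.p ∉ I') then g f.m else 0) +
        (if ¬ (f.p ∈ I' ∧ f.m ∉ I') then g f.p else 0)) + ∑ d ∈ Ce, g d + ∑ d ∈ Cf ∩ I', g d := by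
      have dj1 : Disjoint (Eb.image (fun f => f.b)) (Em.image (fun f => f.m)) := by
        rw [Finset.disjoint_left]
        intro d h1 h2
        simp only [Finset.mem_image] at h1 h2
        obtain ⟨f, hf, rfl⟩ := h1
        obtain ⟨f', hf', h3⟩ := h2
        exact (hd2 f ((hEbm f).1 hf).1 f' ((hEmm f').1 hf').1).1 h3.symm
      have dj2 : Disjoint (Eb.image (fun f => f.b) ∪ Em.image (fun f => f.m))
          (Ep.image (fun f => f.p)) := by
        rw [Finset.disjoint_left]
        intro d h1 h2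
        simp only [Finset.mem_image, Finset.mem_union] at h1 h2
        obtain ⟨f', hf', h3⟩ := h2
        rcases h1 with ⟨f, hf, rfl⟩ | ⟨f, hf, rfl⟩
        · exact (hd2 f ((hEbm f).1 hf).1 f' ((hEpm f').1 hf').1).2.1 h3.symm
        · exact (hd2 f ((hEmm f).1 hf).1 f' ((hEpm f').1 hf').1).2.2 h3.symm
      have dj3 : Disjoint ((Eb.image (fun f => f.b) ∪ Em.image (fun f => f.m)) ∪
          Ep.image (fun f => f.p)) Ce := by
        rw [Finset.disjoint_left]
        intro d h1 h2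
        have hz := hcz d (Finset.mem_union_left _ h2)
        simp only [Finset.mem_image, Finset.mem_union] at h1
        rcases h1 with (⟨f, hf, h3⟩ | ⟨f, hf, h3⟩) | ⟨f, hf, h3⟩
        · exact (hz f ((hEbm f).1 hf).1).1 h3.symm
        · exact (hz f ((hEmm f).1 hf).1).2.1 h3.symm
        · exact (hz f ((hEpm f).1 hf).1).2.2 h3.symm
      have dj4 : Disjoint (((Eb.image (fun f => f.b) ∪ Em.image (fun f => f.m)) ∪
          Ep.image (fun f => f.p)) ∪ Ce) (Cf ∩ I') := by
        rw [Finset.disjoint_left]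
        intro d h1 h2
        have h2' := (Finset.mem_inter.1 h2).1
        have hz := hcz d (Finset.mem_union_right _ h2')
        simp only [Finset.mem_image, Finset.mem_union] at h1
        rcases h1 with ((⟨f, hf, h3⟩ | ⟨f, hf, h3⟩) | ⟨f, hf, h3⟩) | h1
        · exact (hz f ((hEbm f).1 hf).1).1 h3.symm
        · exact (hz f ((hEmm f).1 hf).1).2.1 h3.symm
        · exact (hz f ((hEpm f).1 hf).1).2.2 h3.symm
        · exact Finset.disjoint_left.1 h.disjC h1 h2'
      rw [hD, Finset.sum_union dj4, Finset.sum_union dj3, Finset.sum_union dj2,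
        Finset.sum_union dj1]
      have s1 : ∑ d ∈ Eb.image (fun f => f.b), g d =
          ∑ f ∈ E, (if ¬ (f.m ∈ I' ∧ f.p ∈ I') then g f.b else 0) := by
        rw [Finset.sum_image, hEb, Finset.sum_filter]
        intro f hf f' hf' hff
        exact (hd3 f ((hEbm f).1 hf).1 f' ((hEbm f').1 hf').1).1 hff
      have s2 : ∑ d ∈ Em.image (fun f => f.m), g d =
          ∑ f ∈ E, (if ¬ (f.m ∈ I' ∧ f.p ∉ I') then g f.m else 0) := by
        rw [Finset.sum_image, hEm, Finset.sum_filter]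
        intro f hf f' hf' hff
        exact (hd3 f ((hEmm f).1 hf).1 f' ((hEmm f').1 hf').1).2.1 hff
      have s3 : ∑ d ∈ Ep.image (fun f => f.p), g d =
          ∑ f ∈ E, (if ¬ (f.p ∈ I' ∧ f.m ∉ I') then g f.p else 0) := by
        rw [Finset.sum_image, hEp, Finset.sum_filter]
        intro f hf f' hf' hff
        exact (hd3 f ((hEpm f).1 hf).1 f' ((hEpm f').1 hf').1).2.2 hff
      rw [s1, s2, s3, Finset.sum_add_distrib, Finset.sum_add_distrib]
    -- sum over I'
    have hsumI : ∑ d ∈ I', g d = ∑ f ∈ E, ((if f.m ∈ I' then g f.m else 0) +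
        (if f.p ∈ I' then g f.p else 0)) + ∑ d ∈ Cf ∩ I', g d := by
      have hI'eq : I' = (((E.filter (fun f => f.m ∈ I')).image (fun f => f.m)) ∪
          ((E.filter (fun f => f.p ∈ I')).image (fun f => f.p))) ∪ (Cf ∩ I') := by
        ext d
        simp only [Finset.mem_union, Finset.mem_image, Finset.mem_filter, Finset.mem_inter]
        constructor
        · intro hd
          rcases (hImem d).1 (hI'I hd) with (⟨f, hf, rfl⟩ | ⟨f, hf, rfl⟩) | h1
          · exact Or.inl (Or.inl ⟨f, ⟨hf, hd⟩, rfl⟩)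
          · exact Or.inl (Or.inr ⟨f, ⟨hf, hd⟩, rfl⟩)
          · exact Or.inr ⟨h1, hd⟩
        · rintro ((⟨f, ⟨hf, hd⟩, rfl⟩ | ⟨f, ⟨hf, hd⟩, rfl⟩) | ⟨-, hd⟩)
          · exact hd
          · exact hd
          · exact hd
      have dj1 : Disjoint ((E.filter (fun f => f.m ∈ I')).image (fun f => f.m))
          ((E.filter (fun f => f.p ∈ I')).image (fun f => f.p)) := by
        rw [Finset.disjoint_left]
        intro d h1 h2
        simp only [Finset.mem_image, Finset.mem_filter] at h1 h2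
        obtain ⟨f, hf, rfl⟩ := h1
        obtain ⟨f', hf', h3⟩ := h2
        exact (hd2 f hf.1 f' hf'.1).2.2 h3.symm
      have dj2 : Disjoint (((E.filter (fun f => f.m ∈ I')).image (fun f => f.m)) ∪
          ((E.filter (fun f => f.p ∈ I')).image (fun f => f.p))) (Cf ∩ I') := by
        rw [Finset.disjoint_left]
        intro d h1 h2
        have h2' := (Finset.mem_inter.1 h2).1
        have hz := hcz d (Finset.mem_union_right _ h2')
        simp only [Finset.mem_image, Finset.mem_union, Finset.mem_filter] at h1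
        rcases h1 with ⟨f, hf, h3⟩ | ⟨f, hf, h3⟩
        · exact (hz f hf.1).2.1 h3.symm
        · exact (hz f hf.1).2.2 h3.symm
      have s1 : ∑ d ∈ (E.filter (fun f => f.m ∈ I')).image (fun f => f.m), g d =
          ∑ f ∈ E, (if f.m ∈ I' then g f.m else 0) := by
        rw [Finset.sum_image, Finset.sum_filter]
        intro f hf f' hf' hff
        exact (hd3 f (Finset.mem_filter.1 hf).1 f' (Finset.mem_filter.1 hf').1).2.1 hff
      have s2 : ∑ d ∈ (E.filter (fun f => f.p ∈ I')).image (fun f => f.p), g d =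
          ∑ f ∈ E, (if f.p ∈ I' then g f.p else 0) := by
        rw [Finset.sum_image, Finset.sum_filter]
        intro f hf f' hf' hff
        exact (hd3 f (Finset.mem_filter.1 hf).1 f' (Finset.mem_filter.1 hf').1).2.2 hff
      calc ∑ d ∈ I', g d = ∑ d ∈ (((E.filter (fun f => f.m ∈ I')).image (fun f => f.m)) ∪
          ((E.filter (fun f => f.p ∈ I')).image (fun f => f.p))) ∪ (Cf ∩ I'), g d := by
            rw [← hI'eq]
        _ = _ := by
            rw [Finset.sum_union dj2, Finset.sum_union dj1, s1, s2, Finset.sum_add_distrib]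
    have htwo : ∀ x : ZMod 2, x + x = 0 := by decide
    have hloc : ∑ f ∈ E, ((if ¬ (f.m ∈ I' ∧ f.p ∈ I') then g f.b else 0) +
        (if ¬ (f.m ∈ I' ∧ f.p ∉ I') then g f.m else 0) +
        (if ¬ (f.p ∈ I' ∧ f.m ∉ I') then g f.p else 0)) =
        ∑ f ∈ E, ((if f.m ∈ I' then g f.m else 0) + (if f.p ∈ I' then g f.p else 0)) := by
      apply Finset.sum_congr rfl
      intro f hf
      have g1 : g f.b + g f.m + g f.p = 0 := by
        simp only [hg]
        rw [h.left f hf, h.front f hf, h.right f hf]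
        generalize (if A f.m = v then (1 : ZMod 2) else 0) = a
        generalize (if A f.p = v then (1 : ZMod 2) else 0) = b
        generalize (if B f.p = v then (1 : ZMod 2) else 0) = c
        linear_combination htwo a + htwo b + htwo c
      by_cases c1 : f.m ∈ I' <;> by_cases c2 : f.p ∈ I'
      · simp [c1, c2]
      · simp only [c1, c2, and_false, not_false_eq_true, if_true, and_true, not_true_eq_false,
          if_false, add_zero]
        linear_combination g1 - htwo (g f.m)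
      · simp only [c1, c2, and_false, not_false_eq_true, if_true, and_true, not_true_eq_false,
          if_false, add_zero, zero_add]
        linear_combination g1 - htwo (g f.p)
      · simp only [c1, c2, and_false, not_false_eq_true, if_true, and_true,
          if_false, add_zero]
        exact g1
    have hspan : ∑ d ∈ I', g d + ∑ d ∈ Ce, g d = 0 := by
      have h1 := hI' v
      have h2 : (((I'.filter (fun d => A d = v)).card + (I'.filter (fun d => B d = v)).card
        + (Ce.filter (fun d => A d = v)).card + (Ce.filter (fun d => B d = v)).card : ℕ) :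
          ZMod 2) = 0 := by
        rw [ZMod.natCast_eq_zero_iff_even]; exact h1
      rw [← h2]
      push_cast
      simp only [hg, Finset.sum_add_distrib, Finset.natCast_card_filter]
      ring
    rw [← ZMod.natCast_eq_zero_iff_even, hcardD, hsumD, hloc]
    rw [hsumI] at hspan
    linear_combination hspan
  -- the cardinality
  have hcard : 3 ≤ D.card := by
    by_contra hlt
    push Not at hlt
    have key : ∀ d1 ∈ D, ∀ d2 ∈ D, d1 ≠ d2 → ∀ v, (A d1 = v ∨ B d1 = v) →
        ¬ (A d2 = v ∨ B d2 = v) → False := by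
      intro d1 h1 d2 h2 h12 v hv1 hv2
      have hsub : doorsOf D A B v ⊆ D.erase d2 := by
        intro d hd
        rw [mem_doorsOf'] at hd
        refine Finset.mem_erase.2 ⟨?_, hd.1⟩
        rintro rfl
        exact hv2 hd.2
      have hc1 : (doorsOf D A B v).card ≤ 1 := by
        have := Finset.card_le_card hsub
        rw [Finset.card_erase_of_mem h2] at this
        omega
      have hc2 : 0 < (doorsOf D A B v).card :=
        Finset.card_pos.2 ⟨d1, mem_doorsOf'.2 ⟨h1, hv1⟩⟩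
      have hc3 := heven v
      have : (doorsOf D A B v).card = 1 := by omega
      rw [this] at hc3
      exact absurd hc3 (by decide)
    obtain ⟨f, hf⟩ := hne
    have dB := (h.door f.b (hIsb f hf)).2.2.1
    have dM := (h.door f.m (hIsm f hf)).2.2.1
    have dP := (h.door f.p (hIsp f hf)).2.2.1
    have eL := h.left f hf
    have eF := h.front f hf
    have eR := h.right f hf
    obtain ⟨nbm, nbp, nmp⟩ := hd1 f hf
    by_cases c1 : f.m ∈ I' ∧ f.p ∈ I'
    · -- m, p in D
      have hm := hDm f hf (by tauto)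
      have hp := hDp f hf (by tauto)
      refine key f.m hm f.p hp nmp (A f.m) (Or.inl rfl) ?_
      rintro (h1 | h1)
      · rw [← eF] at h1; exact dM h1.symm
      · rw [← eR, ← eL] at h1; exact dB h1.symm
    · have hb := hDb f hf c1
      by_cases c2 : f.m ∈ I' ∧ f.p ∉ I'
      · have hp := hDp f hf (by tauto)
        refine key f.p hp f.b hb nbp.symm (A f.p) (Or.inl rfl) ?_
        rintro (h1 | h1)
        · rw [← eF, eL] at h1; exact dM h1
        · rw [eR] at h1; exact dP h1.symm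
      · have hm := hDm f hf c2
        refine key f.m hm f.b hb nbm.symm (B f.m) (Or.inr rfl) ?_
        rintro (h1 | h1)
        · rw [eL] at h1; exact dM h1
        · rw [eR, eF] at h1; exact dP h1.symm
  refine ⟨D, ⟨h.isOpen, h.conv, h.disj, h.cov, hcard, ?_, fun v _ => heven v, ?_⟩⟩
  · intro d hd
    exact h.door d (hDoor d hd)
  · intro κ hκ
    apply h.conn_e κ
    intro d hd hdb
    rcases hd with ⟨f, hf, h1⟩ | hd
    · have eL := h.left f hf
      have eF := h.front f hf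
      have eR := h.right f hf
      have kb : f.b ∈ D → (κ (A f.m) ↔ κ (B f.p)) := by
        intro hb
        have := hκ f.b hb
        rwa [eL, eR] at this
      have km : f.m ∈ D → (κ (A f.m) ↔ κ (A f.p)) := by
        intro hm
        have := hκ f.m hm
        rwa [eF] at this
      have kp : f.p ∈ D → (κ (A f.p) ↔ κ (B f.p)) := hκ f.p
      have hall : (κ (A f.m) ↔ κ (A f.p)) ∧ (κ (A f.p) ↔ κ (B f.p)) := by
        by_cases c1 : f.m ∈ I' ∧ f.p ∈ I'
        · exact ⟨km (hDm f hf (by tauto)), kp (hDp f hf (by tauto))⟩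
        · have hb := kb (hDb f hf c1)
          by_cases c2 : f.m ∈ I' ∧ f.p ∉ I'
          · have := kp (hDp f hf (by tauto))
            exact ⟨hb.trans this.symm, this⟩
          · have := km (hDm f hf c2)
            exact ⟨this, this.symm.trans hb⟩
      rcases h1 with h1 | h1 | h1
      · exact absurd h1 (hdb f hf)
      · rw [h1, eF]; exact hall.1
      · rw [h1]; exact hall.2
    · exact hκ d ((hDmem d).2 (Or.inl (Or.inr hd)))

end F059
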