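import Pool.Agent.Lib.F059.DoorEx
import Pool.Agent.Lib.F059.TJoin
import Pool.Agent.Lib.F059.Asm
import Pool.Agent.Lib.F059.HamM

/-!
# F059D.Polygon: the polygon theorem

PROOF.  E empty: `polygon_free`, `ham_of_closed`.  E not empty: `exists_doorSys`, `even_doors`, `assemble`, `ham_of_closed`.  No edge
s(a,b) of H crosses a star edge f: a, b ∈ closure v, v ∈ V open, convex, not empty (closure v is not empty), disjoint from the convex set
segment f.z f.b: `no_cross`.  (DoorSys.star; keep the DoorSys at hand: V is the same in EvenDoors.)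
-/

namespace F059

theorem polygon {P : Finset Pt} {E : Finset Leaf} (hgp : GenPos P) (h3 : 3 ≤ P.card)
    (hE : StarSys P E) :
    ∃ H : Finset (Sym2 Pt), H ⊆ Seg P ∧ Plane H ∧
      (∀ f ∈ H, ∀ e ∈ E, ¬ SCr f s(e.z, e.b)) ∧ Ham P H := by
  rcases E.eq_empty_or_nonempty with rfl | hne
  · obtain ⟨H, h1, h2, h4, h5⟩ := polygon_free hgp h3
    exact ⟨H, h1, h2, fun f _ e he => absurd he (Finset.notMem_empty e),
      ham_of_closed h3 h1 h4 h5⟩
  · obtain ⟨V, A, B, Ce, Cf, hD⟩ := exists_doorSys hgp hE hne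
    obtain ⟨D, hED⟩ := even_doors hE hne hD
    obtain ⟨H, h1, h2, h4, h5, h6⟩ := assemble hgp hED
    refine ⟨H, h1, h2, ?_, ham_of_closed h3 h1 h4 h5⟩
    intro f hf e he hcr
    obtain ⟨v, hv, hcl⟩ := h6 f hf
    induction f using Sym2.ind with
    | _ a b =>
      rw [SCr_mk] at hcr
      have ha : a ∈ closure v := hcl a (Sym2.mem_mk_left a b)
      have hb : b ∈ closure v := hcl b (Sym2.mem_mk_right a b)
      have hvne : v.Nonempty := closure_nonempty_iff.1 ⟨a, ha⟩
      exact no_cross (hD.isOpen v hv) (hD.conv v hv) hvne (convex_segment e.z e.b)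
        (hD.star v hv e he) ha hb (subset_closure (left_mem_segment ℝ _ _))
        (subset_closure (right_mem_segment ℝ _ _)) hcr

end F059
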