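import Pool.Agent.Lib.F059.Select

/-!
# F059C.SelectA: asymptotic form of the selection (see the header of Select.lean, part `select`)
-/

namespace F059

namespace SelectAAux

open Filter

lemma ev_pow (C δ s : ℝ) (hδ : 0 < δ) (hs : s < 1) :
    ∀ᶠ n : ℕ in atTop, C * (n : ℝ) ^ s ≤ δ * n := by
  have h1 : Tendsto (fun n : ℕ => (n : ℝ) ^ (1 - s)) atTop atTop :=
    (tendsto_rpow_atTop (by linarith)).comp tendsto_natCast_atTop_atTop
  filter_upwards [h1.eventually_ge_atTop (C / δ), eventually_gt_atTop 0] with n hn hn0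
  have hn0' : (0 : ℝ) < n := by exact_mod_cast hn0
  have e : (n : ℝ) = (n : ℝ) ^ s * (n : ℝ) ^ (1 - s) := by
    rw [← Real.rpow_add hn0']
    simp
  have hp : 0 < (n : ℝ) ^ s := Real.rpow_pos_of_pos hn0' s
  have h2 : C ≤ δ * (n : ℝ) ^ (1 - s) := by
    rw [div_le_iff₀ hδ] at hn
    linarith
  calc C * (n : ℝ) ^ s ≤ (δ * (n : ℝ) ^ (1 - s)) * (n : ℝ) ^ s :=
        mul_le_mul_of_nonneg_right h2 hp.le
    _ = δ * ((n : ℝ) ^ s * (n : ℝ) ^ (1 - s)) := by ring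
    _ = δ * n := by rw [← e]

lemma log_bound {n : ℕ} (hn : 1 ≤ n) :
    (Nat.log 2 (n ^ 2) : ℝ) + 1 ≤ 401 * (n : ℝ) ^ (1 / 100 : ℝ) := by
  have hn' : (1 : ℝ) ≤ n := by exact_mod_cast hn
  have h1 : (Nat.log 2 (n ^ 2) : ℝ) ≤ Real.logb 2 ((n ^ 2 : ℕ) : ℝ) := by
    have := Real.natLog_le_logb (n ^ 2) 2
    simpa using this
  have h2 : Real.logb 2 ((n ^ 2 : ℕ) : ℝ) = 2 * Real.log n / Real.log 2 := by
    rw [Real.logb]
    push_cast
    rw [Real.log_pow]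
    push_cast
    ring
  have h3 : Real.log n ≤ (n : ℝ) ^ (1 / 100 : ℝ) / (1 / 100) :=
    Real.log_le_rpow_div (by linarith) (by norm_num)
  have h4 : (1 : ℝ) / 2 < Real.log 2 := by
    have := Real.log_two_gt_d9
    linarith
  have h5 : 1 ≤ (n : ℝ) ^ (1 / 100 : ℝ) := Real.one_le_rpow hn' (by norm_num)
  have h6 : 2 * Real.log n / Real.log 2 ≤ 400 * (n : ℝ) ^ (1 / 100 : ℝ) := by
    rw [div_le_iff₀ (by linarith)]
    have h7 : 0 ≤ Real.log n := Real.log_nonneg hn'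
    nlinarith
  rw [h2] at h1
  linarith

end SelectAAux

open SelectAAux Filter

open Classical in
theorem select (ε : ℝ) (hε : 0 < ε) :
    ∃ n0 : ℕ, ∀ P : Finset Pt, n0 ≤ P.card → ∀ (c : Pt → ℕ) (T : Finset (Sym2 Pt)),
      TriSys P c T →
      (∀ Q ⊆ P, ∀ A : Finset (Sym2 Pt), A ⊆ Seg Q → Plane A → A.card ≤ 6 * Q.card) →
      ((P.image c).card : ℝ) ≤ (P.card : ℝ) ^ (1 / 100 : ℝ) →
      ∃ E : Finset Leaf, StarSys P E ∧ ∀ f ∈ Seg P, (∀ l ∈ E, ¬ SCr f s(l.z, l.b)) →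
        (((outer T c).filter (fun e => SCr f e)).card : ℝ) ≤ ε * P.card := by
  -- constants
  obtain ⟨J, hJ⟩ := exists_nat_ge (96 / ε)
  obtain ⟨K, hK⟩ := exists_nat_ge (48 / ε)
  obtain ⟨ρ, hρ⟩ := exists_nat_ge (192 / ε)
  obtain ⟨k, hk⟩ := exists_nat_ge (200 / ε)
  have hJ' : 96 ≤ ε * J := by rwa [div_le_iff₀ hε, mul_comm] at hJ
  have hK' : 48 ≤ ε * K := by rwa [div_le_iff₀ hε, mul_comm] at hK
  have hρ' : 192 ≤ ε * ρ := by rwa [div_le_iff₀ hε, mul_comm] at hρ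
  have hk' : 200 ≤ ε * k := by rwa [div_le_iff₀ hε, mul_comm] at hk
  have posn : ∀ m : ℕ, (1 : ℝ) ≤ ε * m → 0 < m := by
    intro m hm
    rcases Nat.eq_zero_or_pos m with h | h
    · rw [h] at hm
      norm_num at hm
    · exact h
  have hJ0 : 0 < J := posn J (by linarith)
  have hK0 : 0 < K := posn K (by linarith)
  have hρ0 : 0 < ρ := posn ρ (by linarith)
  have hk0 : 0 < k := posn k (by linarith)
  have hJr : (0 : ℝ) < J := by exact_mod_cast hJ0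
  have hKr : (0 : ℝ) < K := by exact_mod_cast hK0
  have hρr : (0 : ℝ) < ρ := by exact_mod_cast hρ0
  have hkr : (0 : ℝ) < k := by exact_mod_cast hk0
  have hρ1 : (1 : ℝ) ≤ ρ := by exact_mod_cast hρ0
  -- the asymptotic conditions
  have ev1 := ev_pow (k * 401 * ((52 + 36 * K) * 2 * (ρ : ℝ) ^ J + 1)) (ε / 16) (92 / 100)
    (by positivity) (by norm_num)
  have ev2 := ev_pow 100 (ε / 2) (11 / 100) (by positivity) (by norm_num)
  have ev3 : ∀ᶠ n : ℕ in atTop, 16 / ε + 40 * k + 1 ≤ (n : ℝ) :=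
    tendsto_natCast_atTop_atTop.eventually_ge_atTop _
  obtain ⟨n0, hn0⟩ := eventually_atTop.1 (ev1.and (ev2.and ev3))
  refine ⟨n0, fun P hP c T S hplane hR => ?_⟩
  obtain ⟨hA1, hA2, hA3⟩ := hn0 _ hP
  generalize hn : P.card = n at *
  have h16 : 0 < 16 / ε := by positivity
  have hn1r : (1 : ℝ) ≤ n := by nlinarith
  have hn1 : 1 ≤ n := by exact_mod_cast hn1r
  have hnr : (0 : ℝ) < n := by linarith
  have hT6 : T.card ≤ 6 * n := by
    rw [← hn]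
    exact hplane P (Finset.Subset.refl _) T S.sub S.plane
  -- the scale
  set a : ℕ := ⌈(n : ℝ) ^ (9 / 10 : ℝ)⌉₊ with ha
  have ha1 : (n : ℝ) ^ (9 / 10 : ℝ) ≤ a := Nat.le_ceil _
  have hp1 : 1 ≤ (n : ℝ) ^ (9 / 10 : ℝ) := Real.one_le_rpow hn1r (by norm_num)
  have ha2 : (a : ℝ) ≤ 2 * (n : ℝ) ^ (9 / 10 : ℝ) := by
    have := (Nat.ceil_lt_add_one (by linarith : (0 : ℝ) ≤ (n : ℝ) ^ (9 / 10 : ℝ))).le
    rw [← ha] at this
    linarith
  have hds := deg_sum S.sub c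
  obtain ⟨j, hjJ, hμ⟩ := scales P (deg T c) (12 * n) (by omega) a ρ J hJ0 hρ0
  set μ : ℕ := ∑ v ∈ P.filter (fun v => a * ρ ^ j ≤ deg T c v ∧ deg T c v < a * ρ ^ (j + 1)),
    deg T c v with hμd
  set d0 : ℕ := a * ρ ^ j with hd0
  set D0 : ℕ := a * ρ ^ (j + 1) with hD0
  have hD0' : D0 = d0 * ρ := by rw [hD0, hd0, pow_succ, mul_assoc]
  have hdD : d0 ≤ D0 := by
    rw [hD0']
    exact Nat.le_mul_of_pos_right _ hρ0
  set h : ℕ := (P.filter (fun v => D0 ≤ deg T c v)).card with hh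
  have hhub := hub_count S.sub c D0
  rw [← hh] at hhub
  set b : ℕ := ⌊ε * n / 16⌋₊ with hb
  have hεn : 0 ≤ ε * n / 16 := by positivity
  have hb1 : (b : ℝ) ≤ ε * n / 16 := Nat.floor_le hεn
  have hb2 : ε * n / 16 < b + 1 := Nat.lt_floor_add_one _
  have hεn16 : 16 < ε * n := by
    have : 16 / ε < n := by nlinarith
    rwa [div_lt_iff₀ hε, mul_comm] at this
  have hb0 : 0 < b := by
    rw [hb, Nat.floor_pos]
    linarith
  set R : ℕ := (P.image c).card with hRd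
  have hR1 : 1 ≤ R := by
    rw [hRd, Nat.one_le_iff_ne_zero, Finset.card_ne_zero]
    apply Finset.Nonempty.image
    rw [← Finset.card_pos, hn]
    exact hn1
  -- powers of n
  have hq : ∀ s t u : ℝ, s + t = u → (n : ℝ) ^ s * (n : ℝ) ^ t = (n : ℝ) ^ u := by
    intro s t u h
    rw [← Real.rpow_add hnr, h]
  have hmono : ∀ s t : ℝ, s ≤ t → (n : ℝ) ^ s ≤ (n : ℝ) ^ t := fun s t h =>
    Real.rpow_le_rpow_of_exponent_le hn1r h
  have hge1 : ∀ s : ℝ, 0 ≤ s → 1 ≤ (n : ℝ) ^ s := fun s h => Real.one_le_rpow hn1r h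
  have hpos : ∀ s : ℝ, 0 < (n : ℝ) ^ s := fun s => Real.rpow_pos_of_pos hnr s
  -- d0
  have hd0r : (d0 : ℝ) ≤ 2 * (ρ : ℝ) ^ J * (n : ℝ) ^ (9 / 10 : ℝ) := by
    rw [hd0]
    push_cast
    have h1 : (ρ : ℝ) ^ j ≤ (ρ : ℝ) ^ J := pow_le_pow_right₀ hρ1 hjJ.le
    calc (a : ℝ) * (ρ : ℝ) ^ j ≤ (2 * (n : ℝ) ^ (9 / 10 : ℝ)) * (ρ : ℝ) ^ J :=
          mul_le_mul ha2 h1 (by positivity) (by positivity)
      _ = _ := by ring
  have hRd0 : (R : ℝ) * d0 ≤ 2 * (ρ : ℝ) ^ J * (n : ℝ) ^ (91 / 100 : ℝ) := by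
    calc (R : ℝ) * d0 ≤ (n : ℝ) ^ (1 / 100 : ℝ) * (2 * (ρ : ℝ) ^ J * (n : ℝ) ^ (9 / 10 : ℝ)) :=
          mul_le_mul hR hd0r (by positivity) (by positivity)
      _ = 2 * (ρ : ℝ) ^ J * ((n : ℝ) ^ (1 / 100 : ℝ) * (n : ℝ) ^ (9 / 10 : ℝ)) := by ring
      _ = _ := by rw [hq _ _ (91 / 100) (by norm_num)]
  -- the condition hN
  have hN : k * (Nat.log 2 (n ^ 2) + 1) * ((52 + 36 * K) * R * d0 + 1) ≤ b := by
    rw [hb, Nat.le_floor_iff hεn]
    push_cast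
    have h1 := log_bound hn1
    have h2 : (52 + 36 * (K : ℝ)) * R * d0 + 1 ≤
        ((52 + 36 * K) * 2 * (ρ : ℝ) ^ J + 1) * (n : ℝ) ^ (91 / 100 : ℝ) := by
      have h3 := mul_le_mul_of_nonneg_left hRd0 (by positivity : (0 : ℝ) ≤ 52 + 36 * (K : ℝ))
      have h4 := hge1 (91 / 100) (by norm_num)
      nlinarith
    calc (k : ℝ) * ((Nat.log 2 (n ^ 2) : ℝ) + 1) * ((52 + 36 * (K : ℝ)) * R * d0 + 1)
        ≤ (k : ℝ) * (401 * (n : ℝ) ^ (1 / 100 : ℝ)) *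
          (((52 + 36 * K) * 2 * (ρ : ℝ) ^ J + 1) * (n : ℝ) ^ (91 / 100 : ℝ)) := by
          apply mul_le_mul _ h2 (by positivity) (by positivity)
          exact mul_le_mul_of_nonneg_left h1 hkr.le
      _ = k * 401 * ((52 + 36 * K) * 2 * (ρ : ℝ) ^ J + 1) *
          ((n : ℝ) ^ (1 / 100 : ℝ) * (n : ℝ) ^ (91 / 100 : ℝ)) := by ring
      _ = k * 401 * ((52 + 36 * K) * 2 * (ρ : ℝ) ^ J + 1) * (n : ℝ) ^ (92 / 100 : ℝ) := by
          rw [hq _ _ (92 / 100) (by norm_num)]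
      _ ≤ ε / 16 * n := hA1
      _ = ε * n / 16 := by ring
  have hkb : 6 * P.card ≤ k * b := by
    rw [hn]
    have h1 : (6 : ℝ) * n ≤ k * b := by
      have h2 : (k : ℝ) * (ε * n / 16 - 1) ≤ k * b :=
        mul_le_mul_of_nonneg_left (by linarith) hkr.le
      have h3 : (200 : ℝ) * n ≤ ε * k * n := mul_le_mul_of_nonneg_right hk' hnr.le
      nlinarith
    exact_mod_cast h1
  obtain ⟨E, hE1, hE2⟩ := select_nat S (by rwa [← hn] at *) hdD (R := R) (h := h) (μ := μ) (K := K)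
    (k := k) (b := b) le_rfl hR1 le_rfl le_rfl hK0 hk0 hb0 hkb (by rw [hn]; exact hN)
  refine ⟨E, hE1, fun f hf hfE => ?_⟩
  have key := hE2 f hf hfE
  rw [hn] at key
  have key' : (((outer T c).filter (fun e => SCr f e)).card : ℝ) ≤
      2 * b + 6 * n / K + (μ + 6 * h + 2 * R * h + 4 * R ^ 2 + 2 * h * d0) := by
    have h1 : ((6 * n / K : ℕ) : ℝ) ≤ 6 * n / K := by
      have := @Nat.cast_div_le ℝ _ _ _ (6 * n) K
      simpa using this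
    have h2 : (((outer T c).filter (fun e => SCr f e)).card : ℝ) ≤
        ((2 * b + 6 * n / K + (μ + 6 * h + 2 * R * h + 4 * R ^ 2 + 2 * h * d0) : ℕ) : ℝ) := by
      exact_mod_cast key
    push_cast at h2
    linarith
  -- the single terms
  have t1 : (2 : ℝ) * b ≤ ε * n / 8 := by linarith
  have t2 : (6 : ℝ) * n / K ≤ ε * n / 8 := by
    rw [div_le_iff₀ hKr]
    have := mul_le_mul_of_nonneg_right hK' hnr.le
    nlinarith
  have t3 : (μ : ℝ) ≤ ε * n / 8 := by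
    have h1 : (J : ℝ) * μ ≤ 12 * n := by exact_mod_cast hμ
    have h2 : (96 : ℝ) * n ≤ ε * J * n := mul_le_mul_of_nonneg_right hJ' hnr.le
    have h3 : (J : ℝ) * μ ≤ J * (ε * n / 8) := by nlinarith
    exact le_of_mul_le_mul_left h3 hJr
  have hhub' : (h : ℝ) * D0 ≤ 12 * n := by
    have : h * D0 ≤ 12 * n := by omega
    exact_mod_cast this
  have t4 : (2 : ℝ) * h * d0 ≤ ε * n / 8 := by
    have h1 : (h : ℝ) * (d0 * ρ) ≤ 12 * n := by
      rw [hD0'] at hhub'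
      push_cast at hhub'
      exact hhub'
    have h2 : (192 : ℝ) * n ≤ ε * ρ * n := mul_le_mul_of_nonneg_right hρ' hnr.le
    have h3 : (ρ : ℝ) * (2 * h * d0) ≤ ρ * (ε * n / 8) := by nlinarith
    exact le_of_mul_le_mul_left h3 hρr
  have t5 : (h : ℝ) ≤ 12 * (n : ℝ) ^ (1 / 10 : ℝ) := by
    have h1 : (a : ℝ) ≤ D0 := by
      rw [hD0]
      push_cast
      exact le_mul_of_one_le_right (by positivity) (one_le_pow₀ hρ1)
    have h2 : (h : ℝ) * (n : ℝ) ^ (9 / 10 : ℝ) ≤ 12 * n :=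
      (mul_le_mul_of_nonneg_left (ha1.trans h1) (by positivity)).trans hhub'
    have h3 : (n : ℝ) = (n : ℝ) ^ (1 / 10 : ℝ) * (n : ℝ) ^ (9 / 10 : ℝ) := by
      rw [hq _ _ 1 (by norm_num), Real.rpow_one]
    have h4 : (h : ℝ) * (n : ℝ) ^ (9 / 10 : ℝ) ≤
        (12 * (n : ℝ) ^ (1 / 10 : ℝ)) * (n : ℝ) ^ (9 / 10 : ℝ) := by
      rw [mul_assoc, ← h3]
      exact h2
    exact le_of_mul_le_mul_right h4 (hpos _)
  have u1 : (n : ℝ) ^ (1 / 10 : ℝ) ≤ (n : ℝ) ^ (11 / 100 : ℝ) := hmono _ _ (by norm_num)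
  have t6 : (2 : ℝ) * R * h ≤ 24 * (n : ℝ) ^ (11 / 100 : ℝ) := by
    calc (2 : ℝ) * R * h ≤ 2 * (n : ℝ) ^ (1 / 100 : ℝ) * (12 * (n : ℝ) ^ (1 / 10 : ℝ)) := by
          apply mul_le_mul _ t5 (by positivity) (by positivity)
          linarith
      _ = 24 * ((n : ℝ) ^ (1 / 100 : ℝ) * (n : ℝ) ^ (1 / 10 : ℝ)) := by ring
      _ = _ := by rw [hq _ _ (11 / 100) (by norm_num)]
  have t7 : (4 : ℝ) * R ^ 2 ≤ 4 * (n : ℝ) ^ (11 / 100 : ℝ) := by
    have h1 : (R : ℝ) ^ 2 ≤ (n : ℝ) ^ (1 / 100 : ℝ) * (n : ℝ) ^ (1 / 100 : ℝ) := by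
      rw [sq]
      exact mul_le_mul hR hR (by positivity) (by positivity)
    rw [hq _ _ (1 / 50) (by norm_num)] at h1
    have h2 := hmono (1 / 50) (11 / 100) (by norm_num)
    linarith
  have hfin : (72 : ℝ) * (n : ℝ) ^ (1 / 10 : ℝ) + 24 * (n : ℝ) ^ (11 / 100 : ℝ) +
      4 * (n : ℝ) ^ (11 / 100 : ℝ) ≤ ε / 2 * n := by linarith
  linarith

end F059
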