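import Pool.Agent.Lib.F059.AIface
import Pool.Agent.Lib.F059.Polygon
import Pool.Agent.Lib.F059.Nodes
import Pool.Agent.Lib.F059.SelectA
import Pool.Agent.Lib.F059.InnerX

/-!
# F059C.Main: the main theorem for triangulations as sets of segments

`Reach.trans`: induction.  `Ham.mono`: gr P H ≤ gr P T, SimpleGraph.IsHamiltonian.mono.
`main_tri`.  PROOF.  ε1 = ε/36, θ = ε/216, ε3 = ε/36.  n = |P| ≥ all n0 and ≥ 3.  hplane: `a_card` for Q ⊆ P (GenPos is inherited).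
`nodes` (T ⊆ Seg P, |T| ≤ 6n) gives c.  `a_min` with F = HEs P c (HEs_sub, HEs_plane), B = T: T1 with N T g ≤ sup over HEs of N T ≤ ε1 n for all g ∈ T1
(an element of HEs is s(p,q), p ≠ q ∈ P, c p = c q).  cr T T1 = cr T1 T ≤ 6 n ε1 n (cr_symm, cr_le, a_card).  `a_reach`: k1 ≤ cr T T1.
TriSys P c T1.  `select` ε3: E with StarSys.  `polygon`: H.  For f = s(x,y) ∈ H (x ≠ y): N T1 f ≤ (outer edges of T1 crossing f) + 6 |metBy ... x y| ≤ ε3 n + 6 θ n (`inner_cross`).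
`a_min` with F = H, B = T1: T2 ⊇ H with N T1 g ≤ (ε3 + 6θ) n; cr T1 T2 ≤ 6n (ε3+6θ) n; `a_reach`: k2.  k = k1 + k2 ≤ (6 ε1 + 6 ε3 + 36 θ) n^2 = ε/2 n^2.  Ham P T2 by Ham.mono.
`finite_tri`.  P with 3 ≤ |P|: `polygon_free`, `ham_of_closed`: H plane, Ham P H; `a_min` with F = H, B = T gives T2 ⊇ H; `a_reach`: k ≤ cr T T2 ≤ |T| |T2| ≤ 36 n^2 (N T2 e ≤ |T2|).
-/

namespace F059

theorem Reach.trans {P : Finset Pt} {k l : ℕ} {A B C : Finset (Sym2 Pt)} (h1 : Reach P k A B)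
    (h2 : Reach P l B C) : Reach P (k + l) A C := by
  induction h2 with
  | refl _ => exact h1
  | step _ hf ih => exact Reach.step (ih h1) hf

theorem Ham.mono {P : Finset Pt} {H T : Finset (Sym2 Pt)} (h : Ham P H) (hs : H ⊆ T) :
    Ham P T := by
  unfold Ham at h ⊢
  refine SimpleGraph.IsHamiltonian.mono ?_ h
  intro x y hxy
  exact ⟨hxy.1, hs hxy.2⟩

namespace MainAux

lemma genPos_mono {P Q : Finset Pt} (h : GenPos P) (hs : Q ⊆ P) : GenPos Q :=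
  fun p hp q hq r hr => h p (hs hp) q (hs hq) r (hs hr)

lemma sup_real {F : Finset (Sym2 Pt)} {B : Finset (Sym2 Pt)} {t : ℝ} (ht : 0 ≤ t)
    (h : ∀ e ∈ F, (N B e : ℝ) ≤ t) {n : ℕ} (hn : n ≤ F.sup (N B)) : (n : ℝ) ≤ t := by
  have h1 : F.sup (N B) ≤ ⌊t⌋₊ := Finset.sup_le fun e he => Nat.le_floor (h e he)
  exact (Nat.cast_le.2 (hn.trans h1)).trans (Nat.floor_le ht)

lemma starSys_empty (P : Finset Pt) : StarSys P ∅ where
  mem := fun e he => absurd he (Finset.notMem_empty e)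
  good := fun e he => absurd he (Finset.notMem_empty e)
  zne := fun e he => absurd he (Finset.notMem_empty e)
  ear := fun e he => absurd he (Finset.notMem_empty e)
  clean := fun e he => absurd he (Finset.notMem_empty e)
  nc := fun e he => absurd he (Finset.notMem_empty e)

end MainAux

open MainAux

theorem main_tri (ε : ℝ) (hε : 0 < ε) :
    ∃ n0 : ℕ, ∀ P : Finset Pt, n0 ≤ P.card → GenPos P → ∀ T, Tri P T →
      ∃ (k : ℕ) (T' : Finset (Sym2 Pt)), (k : ℝ) ≤ ε * (P.card : ℝ) ^ 2 ∧ Reach P k T T' ∧ Ham P T' := by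
  classical
  obtain ⟨n1, hnodes⟩ := nodes (ε / 36) (ε / 216) (by positivity) (by positivity)
  obtain ⟨n2, hselect⟩ := select (ε / 36) (by positivity)
  refine ⟨max (max n1 n2) 3, ?_⟩
  intro P hP hgp T hT
  have hP1 : n1 ≤ P.card := le_trans (le_trans (le_max_left _ _) (le_max_left _ _)) hP
  have hP2 : n2 ≤ P.card := le_trans (le_trans (le_max_right _ _) (le_max_left _ _)) hP
  have hP3 : 3 ≤ P.card := le_trans (le_max_right _ _) hP
  have hplane : ∀ Q ⊆ P, ∀ A : Finset (Sym2 Pt), A ⊆ Seg Q → Plane A → A.card ≤ 6 * Q.card :=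
    fun Q hQ A hA hAp => a_card (genPos_mono hgp hQ) hA hAp
  obtain ⟨n, hn⟩ : ∃ n : ℝ, n = (P.card : ℝ) := ⟨_, rfl⟩
  have hn0 : 0 ≤ n := by rw [hn]; exact Nat.cast_nonneg _
  have hT6 : T.card ≤ 6 * P.card := a_card hgp hT.1 hT.2.1
  obtain ⟨c, hcs, hccard, hlow, hline⟩ := hnodes P hP1 hgp T hT.1 hT6
  obtain ⟨T1, hT1, hHT1, hN1⟩ := a_min hgp (HEs_sub P c) (HEs_plane hcs) hT
  have hN1' : ∀ g ∈ T1, (N T g : ℝ) ≤ ε / 36 * n := by
    intro g hg
    refine sup_real (by positivity) ?_ (hN1 g hg)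
    intro e he
    obtain ⟨p, q, rfl, hpq⟩ := (Finset.mem_filter.1 he).2
    rw [hn]
    exact hlow p hpq.1 q hpq.2.1 hpq.2.2.1 hpq.2.2.2.1
  have hT16 : (T1.card : ℝ) ≤ 6 * n := by
    rw [hn]; exact_mod_cast a_card hgp hT1.1 hT1.2.1
  obtain ⟨k1, hk1, hr1⟩ := a_reach hgp hT hT1
  have hk1' : (k1 : ℝ) ≤ 6 * n * (ε / 36 * n) := by
    rw [cr_symm] at hk1
    calc (k1 : ℝ) ≤ (cr T1 T : ℝ) := by exact_mod_cast hk1
      _ ≤ T1.card * (ε / 36 * n) := cr_le hN1'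
      _ ≤ 6 * n * (ε / 36 * n) := mul_le_mul_of_nonneg_right hT16 (by positivity)
  have hS : TriSys P c T1 := ⟨hcs, hT1.1, hT1.2.1, hHT1⟩
  obtain ⟨E, hE, hsel⟩ := hselect P hP2 c T1 hS hplane hccard
  obtain ⟨H, hH, hHp, hHE, hHam⟩ := polygon hgp hP3 hE
  obtain ⟨T2, hT2, hHT2, hN2⟩ := a_min hgp hH hHp hT1
  have hN2' : ∀ g ∈ T2, (N T1 g : ℝ) ≤ ε / 18 * n := by
    intro g hg
    refine sup_real (by positivity) ?_ (hN2 g hg)
    intro e he
    induction e using Sym2.ind with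
    | _ x y =>
      have hxy := mem_Seg.1 (hH he)
      have h1 := inner_cross (c := c) hT1.1 hT1.2.1 hplane x y
      have h2 := hsel _ (hH he) (fun l hl => hHE _ he l hl)
      have h3 := hline x y hxy.2.2
      have h4 : (N T1 s(x, y) : ℝ) ≤
          (((outer T1 c).filter (fun e => SCr s(x, y) e)).card : ℝ) +
            6 * ((metBy P (fun p q => c q = c p) x y).card : ℝ) := by
        exact_mod_cast h1
      rw [← hn] at h2 h3
      linarith
  have hT26 : (T2.card : ℝ) ≤ 6 * n := by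
    rw [hn]; exact_mod_cast a_card hgp hT2.1 hT2.2.1
  obtain ⟨k2, hk2, hr2⟩ := a_reach hgp hT1 hT2
  have hk2' : (k2 : ℝ) ≤ 6 * n * (ε / 18 * n) := by
    rw [cr_symm] at hk2
    calc (k2 : ℝ) ≤ (cr T2 T1 : ℝ) := by exact_mod_cast hk2
      _ ≤ T2.card * (ε / 18 * n) := cr_le hN2'
      _ ≤ 6 * n * (ε / 18 * n) := mul_le_mul_of_nonneg_right hT26 (by positivity)
  refine ⟨k1 + k2, T2, ?_, hr1.trans hr2, hHam.mono hHT2⟩
  rw [← hn]
  push_cast
  have h5 : 0 ≤ ε * n ^ 2 := by positivity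
  nlinarith

theorem finite_tri {P : Finset Pt} (hgp : GenPos P) (h3 : 3 ≤ P.card) {T : Finset (Sym2 Pt)}
    (hT : Tri P T) : ∃ (k : ℕ) (T' : Finset (Sym2 Pt)), k ≤ 36 * P.card ^ 2 ∧ Reach P k T T' ∧ Ham P T' := by
  classical
  obtain ⟨H, hH, hHp, -, hHam⟩ := polygon hgp h3 (starSys_empty P)
  obtain ⟨T2, hT2, hHT2, -⟩ := a_min hgp hH hHp hT
  obtain ⟨k, hk, hr⟩ := a_reach hgp hT hT2
  refine ⟨k, T2, ?_, hr, hHam.mono hHT2⟩
  have h1 : T.card ≤ 6 * P.card := a_card hgp hT.1 hT.2.1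
  have h2 : T2.card ≤ 6 * P.card := a_card hgp hT2.1 hT2.2.1
  have h4 : cr T T2 ≤ T.card * T2.card := by
    unfold cr
    calc ∑ e ∈ T, N T2 e ≤ ∑ _e ∈ T, T2.card :=
          Finset.sum_le_sum fun e _ => Finset.card_filter_le _ _
      _ = T.card * T2.card := by rw [Finset.sum_const, smul_eq_mul]
  calc k ≤ T.card * T2.card := hk.trans h4
    _ ≤ (6 * P.card) * (6 * P.card) := Nat.mul_le_mul h1 h2
    _ = 36 * P.card ^ 2 := by ring

end F059
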