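import Pool.Agent.Lib.F059.NoCross

/-!
# F059D.Meet: how the pieces of the wall system meet

`WSys`: all data.  Everything follows from general position of P: every line of a piece is spanned by
two points of P (star edge f: f.z, f.b; closed wall i: (e i).z, (e i).b; gadget wall j: (g j).b, h j),
from `free` and from `StarSys`.
PROOFS.
* y_notin_P: y i = z + t (z-b), t > 0, is on the line z b; in P it would be z or b (GenPos): z gives t = 0, b gives
  t = -1.  w_notin_P: w j = b + t (h-b), t > 1.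
* P_cw: p ∈ P on cw i: on the line z b, so p = z or p = b; b is not on cw i = {z + s (z-b) : 0 ≤ s ≤ t}.
* P_star, P_gw: GenPos (h j ≠ b by `good`).
* star_star: same centre: f.b ≠ f'.b (`ear`), the lines z b, z b' are different and meet only in z.
  Different centres: z, b, z', b' are four different points (`zne`, `ear`); x is not an end (P_star),
  so x is in both open segments, `cr_of_mem` gives `Cr`: contradiction to `nc`.
* own_star: x = z + s (z - b_i), s ≥ 0, and x = z + r (f.b - z), r ≥ 0: if f = e i then s = r = 0; otherwise the lines are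
  different.
* wall_star, gad_star: `free`.  wall_wall: free k: x = z_k or y_k; z_k ∈ cw i gives z_k = z_i (P_cw), i = k by `inj`.
* gad_wall: x = b_j or w_j; b_j ∈ cw i gives b_j = z_i, contradiction `zne`.
* gad_gad (i < j): x = w_j or b_j; b_j ∈ gw i: P_gw: b_j = b_i, then g i = g j by `ear`; or b_j = h i (= (g i).m or (g i).p): if
  g i ≠ g j contradiction to `ear`; if g i = g j then b = m or b = p contradicts `good` (ori degenerate).
* gad_own_star: the line b h is different from the line b z (`good`), so x = b.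
* clean_star: `clean` with (f, e'): the line f.z f.b has e'.b, e'.m, e'.p strictly on one side, hence also
  every point of their convex hull; so no point of the ear is on the segment f.z f.b.  The same for the lines of
  closed walls and gadget walls.
* ear_free: x ∈ [b_j, h_j], x ≠ b_j.  x ∈ openSegment b_j w_j (as w_j = b + t (h-b), t > 1), so x ∉ stars, ∉ cw i, ∉ gw k for
  k < j by `free`.  k > j (k ≠ j): if g k ≠ g j: `clean_gad`; if g k = g j then h k ≠ h j (`inj`), so {h k, h j} = {m, p},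
  the lines b m and b p meet only in b.
-/

namespace F059

namespace MeetAux

lemma ori_comb (p q r s : Pt) {a b : ℝ} (hab : a + b = 1) :
    ori p q (a • r + b • s) = a * ori p q r + b * ori p q s := by
  have ha : a = 1 - b := by linarith
  subst ha
  unfold ori
  simp only [Prod.fst_add, Prod.snd_add, Prod.smul_fst, Prod.smul_snd, smul_eq_mul]
  ring

lemma ori_left (p q : Pt) : ori p q p = 0 := by unfold ori; ring

lemma ori_right (p q : Pt) : ori p q q = 0 := by unfold ori; ring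

lemma ori_same (p r : Pt) : ori p p r = 0 := by unfold ori; ring

lemma ori_param (p q v : Pt) (t : ℝ) : ori p q (p + t • v) = t * ori p q (p + v) := by
  unfold ori
  simp only [Prod.fst_add, Prod.snd_add, Prod.smul_fst, Prod.smul_snd, smul_eq_mul]
  ring

lemma ori_ray (p q : Pt) (t : ℝ) : ori p q (p + t • (q - p)) = 0 := by
  rw [ori_param, add_sub_cancel, ori_right, mul_zero]

lemma ori_ray' (p q : Pt) (t : ℝ) : ori p q (p + t • (p - q)) = 0 := by
  have : p + t • (p - q) = p + (-t) • (q - p) := by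
    rw [neg_smul, ← smul_neg, neg_sub]
  rw [this, ori_ray]

lemma ori_seg {p q x : Pt} (h : x ∈ segment ℝ p q) : ori p q x = 0 := by
  obtain ⟨a, b, _, _, hab, rfl⟩ := h
  rw [ori_comb _ _ _ _ hab, ori_left, ori_right]; ring

lemma seg_ne {p q r s x : Pt} (h : x ∈ segment ℝ r s)
    (h2 : (0 < ori p q r ∧ 0 < ori p q s) ∨ (ori p q r < 0 ∧ ori p q s < 0)) :
    ori p q x ≠ 0 := by
  obtain ⟨a, b, ha, hb, hab, rfl⟩ := h
  rw [ori_comb _ _ _ _ hab]
  rcases h2 with ⟨h1, h2⟩ | ⟨h1, h2⟩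
  · rcases eq_or_lt_of_le ha with h0 | h0
    · have : b = 1 := by linarith
      subst this; rw [← h0]; simpa using h2.ne'
    · have := mul_pos h0 h1
      have := mul_nonneg hb h2.le
      linarith
  · rcases eq_or_lt_of_le ha with h0 | h0
    · have : b = 1 := by linarith
      subst this; rw [← h0]; simpa using h2.ne
    · have := mul_neg_of_pos_of_neg h0 h1
      have := mul_nonpos_of_nonneg_of_nonpos hb h2.le
      linarith

/-- two different lines through `p` meet only in `p` -/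
lemma two_lines {p q r x : Pt} (h : ori p q r ≠ 0) (h1 : ori p q x = 0) (h2 : ori p r x = 0) :
    x = p := by
  have e1 : ori p q r * (x.1 - p.1) = 0 := by
    have : ori p q r * (x.1 - p.1) = ori p q x * (r.1 - p.1) - ori p r x * (q.1 - p.1) := by
      unfold ori; ring
    rw [this, h1, h2]; ring
  have e2 : ori p q r * (x.2 - p.2) = 0 := by
    have : ori p q r * (x.2 - p.2) = ori p q x * (r.2 - p.2) - ori p r x * (q.2 - p.2) := by
      unfold ori; ring
    rw [this, h1, h2]; ring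
  have f1 := (mul_eq_zero.mp e1).resolve_left h
  have f2 := (mul_eq_zero.mp e2).resolve_left h
  exact Prod.ext (by linarith) (by linarith)

lemma smul_sub_ne {p q : Pt} (h : p ≠ q) {t : ℝ} (ht : t ≠ 0) : t • (q - p) ≠ 0 := by
  rw [smul_ne_zero_iff]
  exact ⟨ht, sub_ne_zero.mpr h.symm⟩

lemma seg_param {p q x : Pt} (h : x ∈ segment ℝ p q) :
    ∃ s : ℝ, 0 ≤ s ∧ s ≤ 1 ∧ x = p + s • (q - p) := by
  rw [segment_eq_image'] at h
  obtain ⟨s, ⟨h0, h1⟩, rfl⟩ := h
  exact ⟨s, h0, h1, rfl⟩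

lemma isClosed_seg (p q : Pt) : IsClosed (segment ℝ p q) := by
  rw [segment_eq_image']
  exact (isCompact_Icc.image (by fun_prop)).isClosed

end MeetAux

open MeetAux

/-- all data of the wall system -/
structure WSys (P : Finset Pt) (M : ℝ) (E : Finset Leaf) (m : ℕ) (e : ℕ → Leaf) (y : ℕ → Pt)
    (K : ℕ) (g : ℕ → Leaf) (h w : ℕ → Pt) : Prop where
  gp : GenPos P
  star : StarSys P E
  hP : ∀ p ∈ P, p ∈ Om M
  walls : Walls M E m e y
  gads : Gads M E m e y K g h w

theorem on_line {P : Finset Pt} (hgp : GenPos P) {p q r : Pt} (hp : p ∈ P) (hq : q ∈ P)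
    (hr : r ∈ P) (hpq : p ≠ q) (h : ori p q r = 0) : r = p ∨ r = q := by
  by_contra hcon
  push Not at hcon
  exact hgp p hp q hq r hr hpq hcon.1.symm hcon.2.symm h

/-! ### facts which need only the closed walls -/

section
variable {P : Finset Pt} {M : ℝ} {E : Finset Leaf} {m : ℕ} {e : ℕ → Leaf} {y : ℕ → Pt}

theorem star_ne (hE : StarSys P E) {f : Leaf} (hf : f ∈ E) :
    f.z ≠ f.b ∧ f.b ≠ f.m ∧ f.b ≠ f.p ∧ f.m ≠ f.p ∧ f.z ≠ f.m ∧ f.z ≠ f.p := by
  obtain ⟨h1, h2, h3⟩ := hE.good f hf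
  refine ⟨?_, ?_, ?_, ?_, ?_, ?_⟩
  · intro h
    rw [h, ori_same] at h1
    exact lt_irrefl _ h1
  · intro h
    rw [← h, ori_right] at h1
    exact lt_irrefl _ h1
  · intro h
    rw [← h, ori_right] at h2
    exact lt_irrefl _ h2
  · intro h
    rw [h, ori_same] at h3
    exact lt_irrefl _ h3
  · intro h
    rw [← h, ori_left] at h1
    exact lt_irrefl _ h1
  · intro h
    rw [← h, ori_same] at h2
    exact lt_irrefl _ h2

theorem star_Om (hE : StarSys P E) (hP : ∀ p ∈ P, p ∈ Om M) {f : Leaf} (hf : f ∈ E) :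
    segment ℝ f.z f.b ⊆ Om M :=
  (convex_ball (0 : Pt) M).segment_subset (hP _ (hE.mem f hf).1) (hP _ (hE.mem f hf).2.1)

theorem P_star (hgp : GenPos P) (hE : StarSys P E) {f : Leaf} (hf : f ∈ E) {p : Pt} (hp : p ∈ P)
    (h : p ∈ segment ℝ f.z f.b) : p = f.z ∨ p = f.b :=
  on_line hgp (hE.mem f hf).1 (hE.mem f hf).2.1 hp (star_ne hE hf).1 (ori_seg h)

theorem MeetAux.cw_param (hW : Walls M E m e y) {i : ℕ} (hi : i < m) {x : Pt} (h : x ∈ cw e y i) :
    ∃ s : ℝ, 0 ≤ s ∧ x = (e i).z + s • ((e i).z - (e i).b) := by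
  obtain ⟨t, ht, hy⟩ := hW.ray i hi
  obtain ⟨s, hs0, -, hs⟩ := seg_param h
  refine ⟨s * t, by positivity, ?_⟩
  rw [hs, hy, add_sub_cancel_left, smul_smul]

theorem cw_ori (hW : Walls M E m e y) {i : ℕ} (hi : i < m) {x : Pt} (h : x ∈ cw e y i) :
    ori (e i).z (e i).b x = 0 := by
  obtain ⟨s, -, rfl⟩ := cw_param hW hi h
  exact ori_ray' _ _ _

theorem MeetAux.b_notin_ray {f : Leaf} (hne : f.z ≠ f.b) {s : ℝ} (hs : 0 ≤ s)
    (h : f.b = f.z + s • (f.z - f.b)) : False := by
  have h1 : (1 + s) • (f.z - f.b) = 0 := by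
    rw [add_smul, one_smul, sub_add_eq_add_sub, ← h, sub_self]
  rcases smul_eq_zero.mp h1 with h2 | h2
  · linarith
  · exact hne (sub_eq_zero.mp h2)

theorem P_cw (hgp : GenPos P) (hE : StarSys P E) (hW : Walls M E m e y) {i : ℕ} (hi : i < m)
    {p : Pt} (hp : p ∈ P) (h : p ∈ cw e y i) : p = (e i).z := by
  have hf := hW.memE i hi
  rcases on_line hgp (hE.mem _ hf).1 (hE.mem _ hf).2.1 hp (star_ne hE hf).1 (cw_ori hW hi h) with
    h1 | h1
  · exact h1
  · obtain ⟨s, hs, hx⟩ := cw_param hW hi h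
    rw [h1] at hx
    exact (b_notin_ray (star_ne hE hf).1 hs hx).elim

theorem y_notin_P (hgp : GenPos P) (hE : StarSys P E) (hW : Walls M E m e y) {i : ℕ}
    (hi : i < m) : y i ∉ P := by
  intro hy
  have hf := hW.memE i hi
  have h1 := P_cw hgp hE hW hi hy (right_mem_segment _ _ _)
  obtain ⟨t, ht, hyt⟩ := hW.ray i hi
  rw [h1] at hyt
  have h2 : t • ((e i).z - (e i).b) = 0 := by
    have := hyt.symm
    rwa [add_eq_left] at this
  exact smul_sub_ne (star_ne hE hf).1.symm ht.ne' h2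

theorem star_star (hgp : GenPos P) (hE : StarSys P E) {f f' : Leaf} (hf : f ∈ E) (hf' : f' ∈ E)
    (hne : f ≠ f') {x : Pt} (h : x ∈ segment ℝ f.z f.b) (h' : x ∈ segment ℝ f'.z f'.b) :
    f.z = f'.z ∧ x = f.z := by
  have hbb : f.b ≠ f'.b := (hE.ear f hf f' hf' hne f.b (Or.inl rfl)).1
  by_cases hz : f.z = f'.z
  · refine ⟨hz, ?_⟩
    have h3 : ori f.z f.b f'.b ≠ 0 :=
      hgp _ (hE.mem f hf).1 _ (hE.mem f hf).2.1 _ (hE.mem f' hf').2.1 (star_ne hE hf).1
        (hE.zne f hf f' hf').1 hbb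
    refine two_lines h3 (ori_seg h) ?_
    rw [hz]
    exact ori_seg h'
  · exfalso
    have z1 : f.z ≠ f'.b := (hE.zne f hf f' hf').1
    have z2 : f'.z ≠ f.b := (hE.zne f' hf' f hf).1
    have hx1 : f.z ≠ x := by
      rintro rfl
      rcases P_star hgp hE hf' (hE.mem f hf).1 h' with h3 | h3
      · exact hz h3
      · exact z1 h3
    have hx2 : f.b ≠ x := by
      rintro rfl
      rcases P_star hgp hE hf' (hE.mem f hf).2.1 h' with h3 | h3
      · exact z2 h3.symm
      · exact hbb h3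
    have hx3 : f'.z ≠ x := by
      rintro rfl
      rcases P_star hgp hE hf (hE.mem f' hf').1 h with h3 | h3
      · exact hz h3.symm
      · exact z2 h3
    have hx4 : f'.b ≠ x := by
      rintro rfl
      rcases P_star hgp hE hf (hE.mem f' hf').2.1 h with h3 | h3
      · exact z1 h3.symm
      · exact hbb h3.symm
    have o1 := mem_openSegment_of_ne_left_right hx1 hx2 h
    have o2 := mem_openSegment_of_ne_left_right hx3 hx4 h'
    refine hE.nc f hf f' hf' (cr_of_mem o1 o2 ?_)
    exact hgp _ (hE.mem f hf).1 _ (hE.mem f hf).2.1 _ (hE.mem f' hf').1 (star_ne hE hf).1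
        hz z2.symm

theorem own_star (hgp : GenPos P) (hE : StarSys P E) (hW : Walls M E m e y) {i : ℕ} (hi : i < m)
    {f : Leaf} (hf : f ∈ E) (hz : f.z = (e i).z) {x : Pt} (h : x ∈ cw e y i)
    (h' : x ∈ segment ℝ f.z f.b) : x = (e i).z := by
  have hi' := hW.memE i hi
  by_cases hb : f.b = (e i).b
  · obtain ⟨s, hs, hx⟩ := cw_param hW hi h
    obtain ⟨r, hr, -, hx'⟩ := seg_param h'
    rw [hz, hb] at hx'
    have h1 : (s + r) • ((e i).z - (e i).b) = 0 := by
      have h2 : s • ((e i).z - (e i).b) = r • ((e i).b - (e i).z) := by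
        have := hx.symm.trans hx'
        exact add_left_cancel this
      rw [add_smul, h2, ← smul_add]
      simp
    rcases smul_eq_zero.mp h1 with h2 | h2
    · have : s = 0 := by linarith
      rw [hx, this, zero_smul, add_zero]
    · exact absurd (sub_eq_zero.mp h2) (star_ne hE hi').1
  · have h3 : ori (e i).z (e i).b f.b ≠ 0 :=
      hgp _ (hE.mem _ hi').1 _ (hE.mem _ hi').2.1 _ (hE.mem f hf).2.1 (star_ne hE hi').1
        (hE.zne _ hi' f hf).1 (Ne.symm hb)
    refine two_lines h3 (cw_ori hW hi h) ?_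
    rw [← hz]
    exact ori_seg h'

theorem wall_star (hW : Walls M E m e y) {i : ℕ} (hi : i < m) {x : Pt} (h : x ∈ cw e y i)
    (h' : x ∈ stars E) : x = (e i).z ∨ x = y i := by
  by_contra hcon
  push Not at hcon
  exact (hW.free i hi x (mem_openSegment_of_ne_left_right hcon.1.symm hcon.2.symm h)).2.1 h'

theorem wall_wall (hgp : GenPos P) (hE : StarSys P E) (hW : Walls M E m e y) {i k : ℕ}
    (hik : i < k) (hk : k < m) {x : Pt} (h : x ∈ cw e y k) (h' : x ∈ cw e y i) : x = y k := by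
  by_contra hcon
  have hi : i < m := hik.trans hk
  by_cases hz : (e k).z = x
  · rw [← hz] at h'
    have h1 := P_cw hgp hE hW hi (hE.mem _ (hW.memE k hk)).1 h'
    have := hW.inj k hk i hi h1
    omega
  · exact (hW.free k hk x (mem_openSegment_of_ne_left_right hz (Ne.symm hcon) h)).2.2 i hik h'

/-- the closed walls avoid the closed ears -/
theorem clean_cw (hE : StarSys P E) (hW : Walls M E m e y) {i : ℕ} (hi : i < m) {f : Leaf}
    (hf : f ∈ E) {x : Pt} (h : x ∈ cw e y i) :
    x ∉ segment ℝ f.b f.m ∧ x ∉ segment ℝ f.b f.p := by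
  have hi' := hW.memE i hi
  have h0 := cw_ori hW hi h
  by_cases hef : e i = f
  · obtain ⟨s, hs, hx⟩ := cw_param hW hi h
    obtain ⟨g1, g2, g3⟩ := hE.good f hf
    rw [hef] at h0 hx
    constructor
    · rintro ⟨a, b, ha, hb, hab, hxx⟩
      rw [← hxx, ori_comb _ _ _ _ hab, ori_right, mul_zero, zero_add] at h0
      have hb0 : b = 0 := (mul_eq_zero.mp h0).resolve_right g1.ne'
      have ha1 : a = 1 := by linarith
      rw [hb0, ha1, one_smul, zero_smul, add_zero] at hxx
      rw [← hxx] at hx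
      exact b_notin_ray (star_ne hE hf).1 hs hx
    · rintro ⟨a, b, ha, hb, hab, hxx⟩
      rw [← hxx, ori_comb _ _ _ _ hab, ori_right, mul_zero, zero_add, ori_swap'] at h0
      have hb0 : b = 0 := by
        rcases mul_eq_zero.mp h0 with h1 | h1
        · exact h1
        · rw [neg_eq_zero] at h1; exact absurd h1 g2.ne'
      have ha1 : a = 1 := by linarith
      rw [hb0, ha1, one_smul, zero_smul, add_zero] at hxx
      rw [← hxx] at hx
      exact b_notin_ray (star_ne hE hf).1 hs hx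
  · have h1 := hE.clean (e i) hi' f hf hef (e i).z (e i).b (Or.inl ⟨rfl, rfl⟩)
    constructor
    · intro hx
      refine seg_ne hx ?_ h0
      rcases h1 with ⟨a, b, c⟩ | ⟨a, b, c⟩
      · exact Or.inl ⟨a, b⟩
      · exact Or.inr ⟨a, b⟩
    · intro hx
      refine seg_ne hx ?_ h0
      rcases h1 with ⟨a, b, c⟩ | ⟨a, b, c⟩
      · exact Or.inl ⟨a, c⟩
      · exact Or.inr ⟨a, c⟩

theorem clean_star (hE : StarSys P E) {f f' : Leaf} (hf : f ∈ E) (hf' : f' ∈ E) (hne : f ≠ f')
    {x : Pt} (h : x ∈ segment ℝ f'.z f'.b) :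
    x ∉ segment ℝ f.b f.m ∧ x ∉ segment ℝ f.b f.p := by
  have h0 := ori_seg h
  have h1 := hE.clean f' hf' f hf hne.symm f'.z f'.b (Or.inl ⟨rfl, rfl⟩)
  constructor
  · intro hx
    refine seg_ne hx ?_ h0
    rcases h1 with ⟨a, b, c⟩ | ⟨a, b, c⟩
    · exact Or.inl ⟨a, b⟩
    · exact Or.inr ⟨a, b⟩
  · intro hx
    refine seg_ne hx ?_ h0
    rcases h1 with ⟨a, b, c⟩ | ⟨a, b, c⟩
    · exact Or.inl ⟨a, c⟩
    · exact Or.inr ⟨a, c⟩

/-- the rays from `f'.b` through `f'.m`, `f'.p` avoid the closed ear of `f ≠ f'` -/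
theorem clean_ray (hE : StarSys P E) {f f' : Leaf} (hf : f ∈ E) (hf' : f' ∈ E) (hne : f ≠ f')
    {h : Pt} (hh : h = f'.m ∨ h = f'.p) {x : Pt} {t : ℝ} (hx : x = f'.b + t • (h - f'.b)) :
    x ∉ segment ℝ f.b f.m ∧ x ∉ segment ℝ f.b f.p := by
  have h0 : ori f'.b h x = 0 := by rw [hx, ori_ray]
  have h1 : (0 < ori f'.b h f.b ∧ 0 < ori f'.b h f.m ∧ 0 < ori f'.b h f.p) ∨
      (ori f'.b h f.b < 0 ∧ ori f'.b h f.m < 0 ∧ ori f'.b h f.p < 0) := by
    refine hE.clean f' hf' f hf hne.symm f'.b h ?_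
    rcases hh with rfl | rfl
    · exact Or.inr (Or.inl ⟨rfl, rfl⟩)
    · exact Or.inr (Or.inr ⟨rfl, rfl⟩)
  constructor
  · intro hx
    refine seg_ne hx ?_ h0
    rcases h1 with ⟨a, b, c⟩ | ⟨a, b, c⟩
    · exact Or.inl ⟨a, b⟩
    · exact Or.inr ⟨a, b⟩
  · intro hx
    refine seg_ne hx ?_ h0
    rcases h1 with ⟨a, b, c⟩ | ⟨a, b, c⟩
    · exact Or.inl ⟨a, c⟩
    · exact Or.inr ⟨a, c⟩

end

/-! ### facts on the whole system -/

section
variable {P : Finset Pt} {M : ℝ} {E : Finset Leaf} {m : ℕ} {e : ℕ → Leaf} {y : ℕ → Pt}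
  {K : ℕ} {g : ℕ → Leaf} {h w : ℕ → Pt}

theorem WSys.h_mem (S : WSys P M E m e y K g h w) {j : ℕ} (hj : j < K) :
    h j ∈ P ∧ (g j).b ≠ h j ∧ (g j).z ≠ h j ∧ ori (g j).z (g j).b (h j) ≠ 0 := by
  obtain ⟨hgE, hh⟩ := S.gads.memE j hj
  obtain ⟨n1, n2, n3, n4, n5, n6⟩ := star_ne S.star hgE
  obtain ⟨m1, m2, m3, m4⟩ := S.star.mem _ hgE
  obtain ⟨g1, g2, g3⟩ := S.star.good _ hgE
  rcases hh with hh | hh
  · rw [hh]; exact ⟨m3, n2, n5, g1.ne'⟩
  · rw [hh]
    refine ⟨m4, n3, n6, ?_⟩
    rw [ori_swap']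
    linarith

theorem MeetAux.gw_param (S : WSys P M E m e y K g h w) {j : ℕ} (hj : j < K) {x : Pt}
    (hx : x ∈ gw g w j) : ∃ s : ℝ, 0 ≤ s ∧ x = (g j).b + s • (h j - (g j).b) := by
  obtain ⟨t, ht, hw⟩ := S.gads.ray j hj
  obtain ⟨s, hs0, -, hs⟩ := seg_param hx
  refine ⟨s * t, by positivity, ?_⟩
  rw [hs, hw, add_sub_cancel_left, smul_smul]

theorem WSys.gw_ori (S : WSys P M E m e y K g h w) {j : ℕ} (hj : j < K) {x : Pt}
    (hx : x ∈ gw g w j) : ori (g j).b (h j) x = 0 := by
  obtain ⟨s, -, rfl⟩ := gw_param S hj hx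
  exact ori_ray _ _ _

theorem WSys.P_gw (S : WSys P M E m e y K g h w) {j : ℕ} (hj : j < K) {p : Pt} (hp : p ∈ P)
    (hx : p ∈ gw g w j) : p = (g j).b ∨ p = h j :=
  on_line S.gp (S.star.mem _ (S.gads.memE j hj).1).2.1 (S.h_mem hj).1 hp (S.h_mem hj).2.1
    (S.gw_ori hj hx)

theorem WSys.w_notin_P (S : WSys P M E m e y K g h w) {j : ℕ} (hj : j < K) : w j ∉ P := by
  intro hw
  obtain ⟨t, ht, hwt⟩ := S.gads.ray j hj
  obtain ⟨h1, h2, h3, h4⟩ := S.h_mem hj
  rcases S.P_gw hj hw (right_mem_segment _ _ _) with h5 | h5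
  · rw [h5] at hwt
    have h6 : t • (h j - (g j).b) = 0 := by
      have := hwt.symm
      rwa [add_eq_left] at this
    exact smul_sub_ne h2 (by linarith) h6
  · rw [h5] at hwt
    have h6 : (t - 1) • (h j - (g j).b) = 0 := by
      rw [sub_smul, one_smul]
      have h7 : t • (h j - (g j).b) = h j - (g j).b := by
        rw [eq_sub_iff_add_eq, add_comm]; exact hwt.symm
      rw [h7, sub_self]
    exact smul_sub_ne h2 (by linarith) h6

theorem WSys.gad_star (S : WSys P M E m e y K g h w) {j : ℕ} (hj : j < K) {x : Pt}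
    (hx : x ∈ gw g w j) (hx' : x ∈ stars E) : x = (g j).b ∨ x = w j := by
  by_contra hcon
  push Not at hcon
  exact (S.gads.free j hj x
    (mem_openSegment_of_ne_left_right hcon.1.symm hcon.2.symm hx)).2.1 hx'

theorem WSys.gad_wall (S : WSys P M E m e y K g h w) {j : ℕ} (hj : j < K) {i : ℕ} (hi : i < m)
    {x : Pt} (hx : x ∈ gw g w j) (hx' : x ∈ cw e y i) : x = w j := by
  by_contra hcon
  have hgE := (S.gads.memE j hj).1
  by_cases hb : (g j).b = x
  · rw [← hb] at hx'
    have h1 := P_cw S.gp S.star S.walls hi (S.star.mem _ hgE).2.1 hx'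
    exact (S.star.zne _ (S.walls.memE i hi) _ hgE).1 h1.symm
  · exact (S.gads.free j hj x
      (mem_openSegment_of_ne_left_right hb (Ne.symm hcon) hx)).2.2.1 i hi hx'

theorem WSys.gad_gad (S : WSys P M E m e y K g h w) {i j : ℕ} (hij : i < j) (hj : j < K) {x : Pt}
    (hx : x ∈ gw g w j) (hx' : x ∈ gw g w i) : x = w j ∨ (x = (g j).b ∧ g i = g j) := by
  have hi : i < K := hij.trans hj
  by_cases hw : x = w j
  · exact Or.inl hw
  right
  have hgE := (S.gads.memE j hj).1
  obtain ⟨hgE', hh⟩ := S.gads.memE i hi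
  by_cases hb : (g j).b = x
  · refine ⟨hb.symm, ?_⟩
    by_contra hne
    rw [← hb] at hx'
    have hear := S.star.ear _ hgE _ hgE' (Ne.symm hne) (g j).b (Or.inl rfl)
    rcases S.P_gw hi (S.star.mem _ hgE).2.1 hx' with h1 | h1
    · exact hear.1 h1
    · rcases hh with h2 | h2
      · rw [h2] at h1; exact hear.2.1 h1
      · rw [h2] at h1; exact hear.2.2 h1
  · exact ((S.gads.free j hj x
      (mem_openSegment_of_ne_left_right hb (Ne.symm hw) hx)).2.2.2 i hij hx').elim

theorem WSys.gad_own_star (S : WSys P M E m e y K g h w) {j : ℕ} (hj : j < K) {x : Pt}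
    (hx : x ∈ gw g w j) (hx' : x ∈ segment ℝ (g j).z (g j).b) : x = (g j).b := by
  obtain ⟨h1, h2, h3, h4⟩ := S.h_mem hj
  refine two_lines (q := h j) (r := (g j).z) ?_ (S.gw_ori hj hx) ?_
  · rw [ori_cyc]; exact h4
  · have := ori_seg hx'
    rw [ori_swap] at this
    linarith

theorem WSys.ear_free (S : WSys P M E m e y K g h w) {j : ℕ} (hj : j < K) {x : Pt}
    (hx : x ∈ segment ℝ (g j).b (h j)) (hxb : x ≠ (g j).b) :
    x ∈ Om M ∧ x ∉ stars E ∧ (∀ i < m, x ∉ cw e y i) ∧ ∀ k < K, k ≠ j → x ∉ gw g w k := by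
  obtain ⟨t, ht, hwt⟩ := S.gads.ray j hj
  obtain ⟨h1, h2, h3, h4⟩ := S.h_mem hj
  have hgE := (S.gads.memE j hj).1
  obtain ⟨s, hs0, hs1, hs⟩ := seg_param hx
  have hspos : 0 < s := by
    refine lt_of_le_of_ne hs0 ?_
    rintro rfl
    rw [zero_smul, add_zero] at hs
    exact hxb hs
  have hxo : x ∈ openSegment ℝ (g j).b (w j) := by
    rw [openSegment_eq_image']
    refine ⟨s / t, ⟨by positivity, ?_⟩, ?_⟩
    · rw [div_lt_one (by linarith)]; linarith
    · simp only
      rw [hwt, add_sub_cancel_left, smul_smul, div_mul_cancel₀ _ (by linarith), hs]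
  obtain ⟨f1, f2, f3, f4⟩ := S.gads.free j hj x hxo
  refine ⟨f1, f2, f3, ?_⟩
  intro k hk hkj hxk
  rcases lt_or_gt_of_ne hkj with hlt | hgt
  · exact f4 k hlt hxk
  · obtain ⟨hgk, hhk⟩ := S.gads.memE k hk
    have hhj := (S.gads.memE j hj).2
    by_cases hg : g k = g j
    · -- the other arm of the same ear
      have hne : h k ≠ h j := fun h => hkj (S.gads.inj k hk j hj h)
      have ho := S.gw_ori hk hxk
      rw [hg] at ho hhk
      obtain ⟨g1, g2, g3⟩ := S.star.good _ hgE
      have hoo : ori (g j).b (h j) (h k) ≠ 0 := by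
        rcases hhj with e1 | e1 <;> rcases hhk with e2 | e2
        · exact absurd (e2.trans e1.symm) hne
        · rw [e1, e2]
          have : ori (g j).b (g j).m (g j).p = - ori (g j).p (g j).m (g j).b := by
            unfold ori; ring
          rw [this]; linarith
        · rw [e1, e2]
          have : ori (g j).b (g j).p (g j).m = ori (g j).p (g j).m (g j).b := by
            unfold ori; ring
          rw [this]; linarith
        · exact absurd (e2.trans e1.symm) hne
      exact hxb (two_lines hoo (ori_seg hx) ho)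
    · obtain ⟨r, -, hr⟩ := gw_param S hk hxk
      have hc := clean_ray S.star hgE hgk (Ne.symm hg) hhk hr
      rcases hhj with e1 | e1
      · rw [e1] at hx; exact hc.1 hx
      · rw [e1] at hx; exact hc.2 hx

theorem WSys.XX_isClosed (_ : WSys P M E m e y K g h w) : IsClosed (XX E m e y K g w) := by
  unfold XX stars
  refine IsClosed.union (IsClosed.union ?_ ?_) ?_
  · exact Set.Finite.isClosed_biUnion E.finite_toSet fun f _ => isClosed_seg _ _
  · exact Set.Finite.isClosed_biUnion (Set.finite_lt_nat m) fun i _ => isClosed_seg _ _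
  · exact Set.Finite.isClosed_biUnion (Set.finite_lt_nat K) fun i _ => isClosed_seg _ _

end

end F059
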