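import Pool.Agent.Lib.F059.HullNbr

/-!
# F059D.PathL: plane Hamiltonian paths between two extreme points, plane polygons

`path_lemma`: Q in general position, a ≠ b extreme in Q: there is a plane Hamiltonian path of Q from a to
b.  It is given by its edge set F: a and b have one edge, all other points two, and every F-closed set
of points which contains a point of Q contains all of Q.
PROOF.  Induction on |Q|.  |Q| = 2: F = {ab}.  |Q| ≥ 3: by `hull_nbr` a has two hull neighbours; let c be
one of them with c ≠ b.  Q' = Q \ {a}: b, c are extreme in Q' (c is extreme in Q by `ext_of_side`; Ext.mono), c ≠ b; F' = path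
of Q' from c to b; F = F' ∪ {ac}.  The hull edge ac crosses no segment with ends in Q: all points of Q
are weakly on one side of the line a c (so in `Cr` the product ori a c r * ori a c s is >= 0).
Degrees: a: only ac (F' ⊆ Seg Q'); c: its one edge in F' plus ac (different, as a ∉ Q'); others as in F'.
Connectivity: T F-closed and meeting Q: T meets Q' (if a ∈ T then c ∈ T), T is F'-closed, so T ⊇ Q', then
c ∈ T gives a ∈ T.

`polygon_free`: Q in general position, |Q| ≥ 3: plane Hamiltonian cycle: a extreme (`exists_ext`), b a hull neighbour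
of a (extreme), F from the path lemma, H = F ∪ {ab}; ab ∉ F: otherwise {a,b} would be F-closed (a and b
have only one F-edge) and would contain Q, but |Q| ≥ 3.
-/

namespace F059

namespace PathLAux

open HullNbrAux

/-- a hull neighbour different from `b` -/
theorem nbr {Q : Finset Pt} (hgp : GenPos Q) {a : Pt} (ha : Ext Q a) (h3 : 3 ≤ Q.card) (b : Pt) :
    ∃ c ∈ Q, c ≠ a ∧ c ≠ b ∧ Ext Q c ∧ ∀ q ∈ Q, ∀ r ∈ Q, 0 ≤ ori a c q * ori a c r := by
  obtain ⟨c, hc, c', hc', hca, hca', hcc, h1, h2⟩ := hull_nbr hgp ha h3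
  by_cases hcb : c = b
  · refine ⟨c', hc', hca', fun h => hcc (hcb.trans h.symm), ?_, ?_⟩
    · refine ext_of_side (x := c') (y := a) hca' hc' (Or.inl rfl) fun q hq hq1 hq2 => ?_
      rw [ori_swap]
      have := h2 q hq hq2 hq1
      linarith
    · have h4 : ∀ q ∈ Q, ori a c' q ≤ 0 := by
        intro q hq
        by_cases hqa : q = a
        · rw [hqa, ori_left]
        · by_cases hqc : q = c'
          · rw [hqc, ori_right]
          · exact (h2 q hq hqa hqc).le
      intro q hq r hr
      exact mul_nonneg_of_nonpos_of_nonpos (h4 q hq) (h4 r hr)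
  · refine ⟨c, hc, hca, hcb, ?_, ?_⟩
    · exact ext_of_side (x := a) (y := c) (Ne.symm hca) hc (Or.inr rfl) fun q hq hq1 hq2 =>
        h1 q hq hq1 hq2
    · have h4 : ∀ q ∈ Q, 0 ≤ ori a c q := by
        intro q hq
        by_cases hqa : q = a
        · rw [hqa, ori_left]
        · by_cases hqc : q = c
          · rw [hqc, ori_right]
          · exact (h1 q hq hqa hqc).le
      intro q hq r hr
      exact mul_nonneg (h4 q hq) (h4 r hr)

theorem mem_edgesAt {F : Finset (Sym2 Pt)} {q : Pt} {e : Sym2 Pt} :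
    e ∈ edgesAt F q ↔ e ∈ F ∧ q ∈ e := by
  unfold edgesAt
  rw [Finset.mem_filter]

theorem edgesAt_insert_of_mem {F : Finset (Sym2 Pt)} {q : Pt} {e : Sym2 Pt} (h : q ∈ e)
    (he : e ∉ F) : (edgesAt (insert e F) q).card = (edgesAt F q).card + 1 := by
  have h1 : edgesAt (insert e F) q = insert e (edgesAt F q) := by
    ext x
    simp only [mem_edgesAt, Finset.mem_insert]
    constructor
    · rintro ⟨h1 | h1, h2⟩
      · exact Or.inl h1
      · exact Or.inr ⟨h1, h2⟩
    · rintro (h1 | h1)
      · subst h1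
        exact ⟨Or.inl rfl, h⟩
      · exact ⟨Or.inr h1.1, h1.2⟩
  rw [h1, Finset.card_insert_of_notMem fun h2 => he (mem_edgesAt.1 h2).1]

theorem edgesAt_insert_of_notMem {F : Finset (Sym2 Pt)} {q : Pt} {e : Sym2 Pt} (h : q ∉ e) :
    edgesAt (insert e F) q = edgesAt F q := by
  ext x
  simp only [mem_edgesAt, Finset.mem_insert]
  constructor
  · rintro ⟨h1 | h1, h2⟩
    · subst h1
      exact absurd h2 h
    · exact ⟨h1, h2⟩
  · rintro ⟨h1, h2⟩
    exact ⟨Or.inr h1, h2⟩

theorem not_mem_pair {q a b : Pt} (h1 : q ≠ a) (h2 : q ≠ b) : q ∉ s(a, b) := by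
  rw [Sym2.mem_iff]
  rintro (h | h)
  · exact h1 h
  · exact h2 h

theorem plane_insert {Q : Finset Pt} {F : Finset (Sym2 Pt)} (hF : F ⊆ Seg Q) (hp : Plane F)
    {a c : Pt} (ha : a ∈ Q) (hc : c ∈ Q)
    (h : ∀ q ∈ Q, ∀ r ∈ Q, 0 ≤ ori a c q * ori a c r) : Plane (insert s(a, c) F) := by
  have key : ∀ f ∈ insert s(a, c) F, ¬ SCr s(a, c) f := by
    intro f
    refine Sym2.ind (fun x y => ?_) f
    intro hf hcr
    rw [SCr_mk] at hcr
    have hxy : x ∈ Q ∧ y ∈ Q := by
      rcases Finset.mem_insert.1 hf with h1 | h1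
      · rcases Sym2.eq_iff.1 h1 with ⟨rfl, rfl⟩ | ⟨rfl, rfl⟩
        · exact ⟨ha, hc⟩
        · exact ⟨hc, ha⟩
      · have h2 := mem_Seg.1 (hF h1)
        exact ⟨h2.1, h2.2.1⟩
    exact absurd hcr.1 (not_lt.2 (h x hxy.1 y hxy.2))
  intro e he f hf hcr
  rcases Finset.mem_insert.1 he with h1 | h1
  · subst h1
    exact key f hf hcr
  · rcases Finset.mem_insert.1 hf with h2 | h2
    · subst h2
      exact key e he hcr.symm
    · exact hp e h1 f h2 hcr

theorem path_aux (n : ℕ) : ∀ (Q : Finset Pt), Q.card = n → GenPos Q → ∀ a b : Pt, a ≠ b →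
    Ext Q a → Ext Q b →
    ∃ F : Finset (Sym2 Pt), F ⊆ Seg Q ∧ Plane F ∧ (edgesAt F a).card = 1 ∧
      (edgesAt F b).card = 1 ∧ (∀ q ∈ Q, q ≠ a → q ≠ b → (edgesAt F q).card = 2) ∧
      ∀ T : Set Pt, EClosed F T → (∃ q ∈ Q, q ∈ T) → ∀ q ∈ Q, q ∈ T := by
  induction n with
  | zero =>
    intro Q hQ _ a b _ ha _
    rw [Finset.card_eq_zero.1 hQ] at ha
    exact absurd ha.1 (Finset.notMem_empty _)
  | succ n ih =>
    intro Q hQ hgp a b hab ha hb
    by_cases h3 : 3 ≤ Q.card
    · obtain ⟨c, hc, hca, hcb, hcext, hside⟩ := nbr hgp ha h3 b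
      have hcQ' : c ∈ Q.erase a := Finset.mem_erase.2 ⟨hca, hc⟩
      have hbQ' : b ∈ Q.erase a := Finset.mem_erase.2 ⟨hab.symm, hb.1⟩
      have hgp' : GenPos (Q.erase a) := fun p hp q hq r hr =>
        hgp p (Finset.mem_of_mem_erase hp) q (Finset.mem_of_mem_erase hq) r
          (Finset.mem_of_mem_erase hr)
      obtain ⟨F, hF, hpl, h1, h2, h4, h5⟩ := ih (Q.erase a)
        (by rw [Finset.card_erase_of_mem ha.1]; omega) hgp' c b hcb
        (hcext.mono (Finset.erase_subset _ _) hcQ') (hb.mono (Finset.erase_subset _ _) hbQ')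
      have haF : ∀ e ∈ F, a ∉ e := by
        intro e
        refine Sym2.ind (fun x y => ?_) e
        intro he hae
        have h6 := mem_Seg.1 (hF he)
        rcases Sym2.mem_iff.1 hae with h7 | h7
        · exact Finset.ne_of_mem_erase h6.1 h7.symm
        · exact Finset.ne_of_mem_erase h6.2.1 h7.symm
      have hac : s(a, c) ∉ F := fun h => haF _ h (Sym2.mem_mk_left _ _)
      have hFQ : F ⊆ Seg Q := by
        intro e he
        revert he
        refine Sym2.ind (fun x y => ?_) e
        intro he
        have h6 := mem_Seg.1 (hF he)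
        exact mem_Seg.2 ⟨Finset.mem_of_mem_erase h6.1, Finset.mem_of_mem_erase h6.2.1, h6.2.2⟩
      refine ⟨insert s(a, c) F, ?_, plane_insert hFQ hpl ha.1 hc hside, ?_, ?_, ?_, ?_⟩
      · intro e he
        rcases Finset.mem_insert.1 he with h6 | h6
        · subst h6
          exact mem_Seg.2 ⟨ha.1, hc, Ne.symm hca⟩
        · exact hFQ h6
      · rw [edgesAt_insert_of_mem (Sym2.mem_mk_left _ _) hac]
        have h6 : edgesAt F a = ∅ := by
          rw [Finset.eq_empty_iff_forall_notMem]
          intro e he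
          exact haF e (mem_edgesAt.1 he).1 (mem_edgesAt.1 he).2
        rw [h6, Finset.card_empty]
      · rw [edgesAt_insert_of_notMem (not_mem_pair hab.symm (Ne.symm hcb)), h2]
      · intro q hq hqa hqb
        by_cases hqc : q = c
        · subst hqc
          rw [edgesAt_insert_of_mem (Sym2.mem_mk_right _ _) hac, h1]
        · rw [edgesAt_insert_of_notMem (not_mem_pair hqa hqc)]
          exact h4 q (Finset.mem_erase.2 ⟨hqa, hq⟩) hqc hqb
      · intro T hT hq
        have hT' : EClosed F T := fun x y hxy hx => hT x y (Finset.mem_insert_of_mem hxy) hx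
        have hq' : ∃ q ∈ Q.erase a, q ∈ T := by
          obtain ⟨q, hqQ, hqT⟩ := hq
          by_cases hqa : q = a
          · subst hqa
            exact ⟨c, hcQ', hT q c (Finset.mem_insert_self _ _) hqT⟩
          · exact ⟨q, Finset.mem_erase.2 ⟨hqa, hqQ⟩, hqT⟩
        have h6 := h5 T hT' hq'
        intro q hqQ
        by_cases hqa : q = a
        · subst hqa
          refine hT c q ?_ (h6 c hcQ')
          rw [Sym2.eq_swap]
          exact Finset.mem_insert_self _ _
        · exact h6 q (Finset.mem_erase.2 ⟨hqa, hqQ⟩)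
    · have hQab : Q = {a, b} := by
        symm
        refine Finset.eq_of_subset_of_card_le ?_ ?_
        · intro x hx
          rcases Finset.mem_insert.1 hx with h | h
          · rw [h]
            exact ha.1
          · rw [Finset.mem_singleton.1 h]
            exact hb.1
        · rw [Finset.card_pair hab]
          omega
      have hself : ∀ x : Pt, x ∈ s(a, b) → (edgesAt (insert s(a, b) ∅) x).card = 1 := by
        intro x hx
        rw [edgesAt_insert_of_mem hx (Finset.notMem_empty _)]
        have : edgesAt ∅ x = ∅ := by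
          unfold edgesAt
          exact Finset.filter_empty _
        rw [this, Finset.card_empty]
      refine ⟨insert s(a, b) ∅, ?_, ?_, hself a (Sym2.mem_mk_left _ _),
        hself b (Sym2.mem_mk_right _ _), ?_, ?_⟩
      · intro e he
        rcases Finset.mem_insert.1 he with h6 | h6
        · subst h6
          exact mem_Seg.2 ⟨ha.1, hb.1, hab⟩
        · exact absurd h6 (Finset.notMem_empty _)
      · refine plane_insert (Q := Q) (Finset.empty_subset _)
          (fun e he => absurd he (Finset.notMem_empty _)) ha.1 hb.1 ?_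
        have h7 : ∀ q ∈ Q, ori a b q = 0 := by
          intro q hq
          rw [hQab] at hq
          rcases Finset.mem_insert.1 hq with h | h
          · rw [h, ori_left]
          · rw [Finset.mem_singleton.1 h, ori_right]
        intro q hq r hr
        rw [h7 q hq, zero_mul]
      · intro q hq hqa hqb
        rw [hQab] at hq
        rcases Finset.mem_insert.1 hq with h | h
        · exact absurd h hqa
        · exact absurd (Finset.mem_singleton.1 h) hqb
      · intro T hT hq q hqQ
        have h8 : a ∈ T ↔ b ∈ T := by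
          constructor
          · exact hT a b (Finset.mem_insert_self _ _)
          · refine hT b a ?_
            rw [Sym2.eq_swap]
            exact Finset.mem_insert_self _ _
        have h9 : a ∈ T ∧ b ∈ T := by
          obtain ⟨x, hx, hxT⟩ := hq
          rw [hQab] at hx
          rcases Finset.mem_insert.1 hx with h | h
          · subst h
            exact ⟨hxT, h8.1 hxT⟩
          · have h' := Finset.mem_singleton.1 h
            subst h'
            exact ⟨h8.2 hxT, hxT⟩
        rw [hQab] at hqQ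
        rcases Finset.mem_insert.1 hqQ with h | h
        · rw [h]
          exact h9.1
        · rw [Finset.mem_singleton.1 h]
          exact h9.2

end PathLAux

open PathLAux HullNbrAux

theorem path_lemma {Q : Finset Pt} (hgp : GenPos Q) {a b : Pt} (hab : a ≠ b) (ha : Ext Q a)
    (hb : Ext Q b) :
    ∃ F : Finset (Sym2 Pt), F ⊆ Seg Q ∧ Plane F ∧ (edgesAt F a).card = 1 ∧
      (edgesAt F b).card = 1 ∧ (∀ q ∈ Q, q ≠ a → q ≠ b → (edgesAt F q).card = 2) ∧
      ∀ T : Set Pt, EClosed F T → (∃ q ∈ Q, q ∈ T) → ∀ q ∈ Q, q ∈ T :=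
  path_aux Q.card Q rfl hgp a b hab ha hb

theorem polygon_free {Q : Finset Pt} (hgp : GenPos Q) (h3 : 3 ≤ Q.card) :
    ∃ H : Finset (Sym2 Pt), H ⊆ Seg Q ∧ Plane H ∧ (∀ q ∈ Q, (edgesAt H q).card = 2) ∧
      ∀ T : Set Pt, EClosed H T → (∃ q ∈ Q, q ∈ T) → ∀ q ∈ Q, q ∈ T := by
  obtain ⟨a, ha⟩ := exists_ext (Q := Q) (Finset.card_pos.1 (by omega))
  obtain ⟨b, hb, hba, -, hbext, hside⟩ := nbr hgp ha h3 a
  obtain ⟨F, hF, hpl, h1, h2, h4, h5⟩ := path_lemma hgp (Ne.symm hba) ha hbext
  have hab : s(a, b) ∉ F := by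
    intro hmem
    have hT : EClosed F ({a, b} : Set Pt) := by
      have key : ∀ x : Pt, x ∈ s(a, b) → (edgesAt F x).card = 1 → ∀ y, s(x, y) ∈ F →
          y ∈ ({a, b} : Set Pt) := by
        intro x hx hcard y hxy
        obtain ⟨e, he⟩ := Finset.card_eq_one.1 hcard
        have h6 : s(a, b) ∈ edgesAt F x := mem_edgesAt.2 ⟨hmem, hx⟩
        have h7 : s(x, y) ∈ edgesAt F x := mem_edgesAt.2 ⟨hxy, Sym2.mem_mk_left _ _⟩
        rw [he, Finset.mem_singleton] at h6 h7
        have h8 : y ∈ s(a, b) := by
          rw [h6, ← h7]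
          exact Sym2.mem_mk_right _ _
        rcases Sym2.mem_iff.1 h8 with h | h
        · exact Or.inl h
        · exact Or.inr h
      intro x y hxy hx
      rcases hx with hx | hx
      · subst hx
        exact key _ (Sym2.mem_mk_left _ _) h1 y hxy
      · rw [Set.mem_singleton_iff] at hx
        subst hx
        exact key _ (Sym2.mem_mk_right _ _) h2 y hxy
    have h6 := h5 {a, b} hT ⟨a, ha.1, Or.inl rfl⟩
    have h7 : Q ⊆ {a, b} := by
      intro q hq
      rcases h6 q hq with h | h
      · rw [h]
        exact Finset.mem_insert_self _ _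
      · rw [Set.mem_singleton_iff] at h
        rw [h]
        exact Finset.mem_insert_of_mem (Finset.mem_singleton_self _)
    have h8 := Finset.card_le_card h7
    have h9 : ({a, b} : Finset Pt).card ≤ 2 := Finset.card_le_two
    omega
  refine ⟨insert s(a, b) F, ?_, plane_insert hF hpl ha.1 hb hside, ?_, ?_⟩
  · intro e he
    rcases Finset.mem_insert.1 he with h6 | h6
    · subst h6
      exact mem_Seg.2 ⟨ha.1, hb, Ne.symm hba⟩
    · exact hF h6
  · intro q hq
    by_cases hqa : q = a
    · subst hqa
      rw [edgesAt_insert_of_mem (Sym2.mem_mk_left _ _) hab, h1]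
    · by_cases hqb : q = b
      · subst hqb
        rw [edgesAt_insert_of_mem (Sym2.mem_mk_right _ _) hab, h2]
      · rw [edgesAt_insert_of_notMem (not_mem_pair hqa hqb)]
        exact h4 q hq hqa hqb
  · intro T hT hq
    exact h5 T (fun x y hxy hx => hT x y (Finset.mem_insert_of_mem hxy) hx) hq

end F059
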