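import Pool.Agent.Lib.F059.CDefs

/-!
# F059C.Scales: pigeonhole over scales

The sets {v : a ρ^j ≤ d v < a ρ^(j+1)}, j < J, are disjoint (1 ≤ ρ, a ρ^(j+1) ≤ a ρ^j' for j < j'), so the sum over j of the partial sums is ≤ tot; the smallest is ≤ tot/J.
-/

namespace F059

theorem scales (P : Finset Pt) (d : Pt → ℕ) (tot : ℕ) (hsum : ∑ v ∈ P, d v ≤ tot) (a ρ J : ℕ)
    (hJ : 0 < J) (hρ : 1 ≤ ρ) :
    ∃ j < J, J * ∑ v ∈ P.filter (fun v => a * ρ ^ j ≤ d v ∧ d v < a * ρ ^ (j + 1)), d v ≤ tot := by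
  have huniq : ∀ v : Pt, ∀ j j' : ℕ, (a * ρ ^ j ≤ d v ∧ d v < a * ρ ^ (j + 1)) →
      (a * ρ ^ j' ≤ d v ∧ d v < a * ρ ^ (j' + 1)) → ¬ j < j' := by
    intro v j j' h h' hlt
    have h1 : a * ρ ^ (j + 1) ≤ a * ρ ^ j' := Nat.mul_le_mul_left _ (Nat.pow_le_pow_right hρ hlt)
    have := h.2
    have := h'.1
    omega
  have hv : ∀ v : Pt, ∑ j ∈ Finset.range J,
      (if a * ρ ^ j ≤ d v ∧ d v < a * ρ ^ (j + 1) then d v else 0) ≤ d v := by
    intro v
    by_cases h : ∃ j ∈ Finset.range J, a * ρ ^ j ≤ d v ∧ d v < a * ρ ^ (j + 1)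
    · obtain ⟨j0, hj0, hc⟩ := h
      rw [Finset.sum_eq_single j0]
      · rw [if_pos hc]
      · intro j _ hne
        rw [if_neg]
        intro hc'
        rcases Nat.lt_or_gt_of_ne hne with hlt | hlt
        · exact huniq v j j0 hc' hc hlt
        · exact huniq v j0 j hc hc' hlt
      · intro hn
        exact absurd hj0 hn
    · rw [Finset.sum_eq_zero]
      · exact Nat.zero_le _
      · intro j hj
        rw [if_neg]
        intro hc
        exact h ⟨j, hj, hc⟩
  have htot : ∑ j ∈ Finset.range J,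
      ∑ v ∈ P.filter (fun v => a * ρ ^ j ≤ d v ∧ d v < a * ρ ^ (j + 1)), d v ≤ tot := by
    calc _ = ∑ j ∈ Finset.range J, ∑ v ∈ P,
          (if a * ρ ^ j ≤ d v ∧ d v < a * ρ ^ (j + 1) then d v else 0) := by
          refine Finset.sum_congr rfl fun j _ => ?_
          rw [Finset.sum_filter]
      _ = ∑ v ∈ P, ∑ j ∈ Finset.range J,
          (if a * ρ ^ j ≤ d v ∧ d v < a * ρ ^ (j + 1) then d v else 0) := Finset.sum_comm
      _ ≤ ∑ v ∈ P, d v := Finset.sum_le_sum fun v _ => hv v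
      _ ≤ tot := hsum
  by_contra hcon
  have hcon' : ∀ j ∈ Finset.range J, tot + 1 ≤
      J * ∑ v ∈ P.filter (fun v => a * ρ ^ j ≤ d v ∧ d v < a * ρ ^ (j + 1)), d v := by
    intro j hj
    by_contra h
    exact hcon ⟨j, Finset.mem_range.1 hj, by omega⟩
  have h1 := Finset.sum_le_sum hcon'
  rw [Finset.sum_const, Finset.card_range, smul_eq_mul, ← Finset.mul_sum] at h1
  have h2 := Nat.mul_le_mul_left J htot
  have h3 : J * (tot + 1) ≤ J * tot := h1.trans h2
  have h4 := Nat.le_of_mul_le_mul_left h3 hJ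
  omega

/-- sum of the degrees -/
theorem deg_sum {P : Finset Pt} {T : Finset (Sym2 Pt)} (hT : T ⊆ Seg P) (c : Pt → ℕ) :
    ∑ v ∈ P, deg T c v ≤ 2 * T.card := by
  classical
  have h1 : ∑ v ∈ P, deg T c v = ∑ e ∈ outer T c, (P.filter (fun v => v ∈ e)).card := by
    unfold deg edgesAt
    exact Finset.sum_card_bipartiteAbove_eq_sum_card_bipartiteBelow (fun v (e : Sym2 Pt) => v ∈ e)
  have h2 : ∀ e : Sym2 Pt, (P.filter (fun v => v ∈ e)).card ≤ 2 := by
    intro e
    induction e using Sym2.ind with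
    | _ p q =>
      refine (Finset.card_le_card (t := {p, q}) ?_).trans Finset.card_le_two
      intro v hv
      rw [Finset.mem_filter, Sym2.mem_iff] at hv
      simpa using hv.2
  have h3 : (outer T c).card ≤ T.card := Finset.card_le_card (Finset.filter_subset _ _)
  calc _ = ∑ e ∈ outer T c, (P.filter (fun v => v ∈ e)).card := h1
    _ ≤ ∑ _e ∈ outer T c, 2 := Finset.sum_le_sum fun e _ => h2 e
    _ = 2 * (outer T c).card := by rw [Finset.sum_const, smul_eq_mul, mul_comm]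
    _ ≤ 2 * T.card := Nat.mul_le_mul_left _ h3

open Classical in
/-- number of hubs -/
theorem hub_count {P : Finset Pt} {T : Finset (Sym2 Pt)} (hT : T ⊆ Seg P) (c : Pt → ℕ) (D0 : ℕ) :
    (P.filter (fun v => D0 ≤ deg T c v)).card * D0 ≤ 2 * T.card := by
  calc (P.filter (fun v => D0 ≤ deg T c v)).card * D0
      ≤ ∑ v ∈ P.filter (fun v => D0 ≤ deg T c v), deg T c v := by
        rw [← smul_eq_mul]
        refine Finset.card_nsmul_le_sum _ _ _ fun v hv => ?_
        exact (Finset.mem_filter.1 hv).2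
    _ ≤ ∑ v ∈ P, deg T c v := Finset.sum_le_sum_of_subset (Finset.filter_subset _ _)
    _ ≤ 2 * T.card := deg_sum hT c

end F059
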