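import Pool.Agent.Lib.F059.Greedy
import Pool.Agent.Lib.F059.CandSys
import Pool.Agent.Lib.F059.Excl
import Pool.Agent.Lib.F059.Scales

/-!
# F059C.Select: selection of the star system

`select_nat`.  PROOF.  `exists_cands` gives U (|U| ≤ |T| ≤ 6n), `conf_count` gives U' ⊆ U, K |U \ U'| ≤ 6n.  F = {f ∈ Seg P : 2b ≤ #{l ∈ U' : SCr f s(l.z,l.b)}}, mem f = this set of l.
`greedy_conf` (U', κ = (52+36K) R d0, |F| ≤ |Seg P| ≤ n^2, Nat.log monotone) gives E ⊆ U' conflict-free hitting all f ∈ F; StarSys by `starSys_of_free`.  If f ∈ Seg P crosses no s(l.z,l.b), l ∈ E, then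
f ∉ F.  The outer edges crossing f: those s(l.z,l.b) with l ∈ U' (< 2b, injective), those with l ∈ U \ U' (≤ |U \ U'| ≤ 6n/K), the others have no candidate structure: `excl_count`.

`select`: asymptotics.  Given ε > 0, n = |P| large: R = |P.image c| ≤ n^(1/100).  J = ⌈12·8/ε⌉₊+1, K = ⌈6·8/ε⌉₊+1, ρ = ⌈24·8/ε⌉₊ + 1 (constants), a = ⌈n^(9/10)⌉₊; `scales` with d = deg T c, tot = 12 n (deg_sum, |T| ≤ 6n) gives
j < J with μ := the sum ≤ 12n/J ≤ ε n/8, d0 = a ρ^j, D0 = a ρ^(j+1).  h := number of hubs, h D0 ≤ 12 n (hub_count): h ≤ 12 n^(1/10).  b = ⌊ε n/16⌋₊ (2b ≤ ε n/8), k = ⌈200/ε⌉₊ (6n ≤ k b for large n).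
6n/K ≤ ε n/8; 6h ≤ 72 n^(1/10); 2 R h ≤ 24 n^(11/100); 4R^2 ≤ 4 n^(1/50); 2 h d0 = 2 h D0/ρ ≤ 24 n/ρ ≤ ε n/8.  hN: k (log2(n^2)+1) ((52+36K) R d0 + 1) ≤ b: the left side is O(log n · n^(1/100) · n^(9/10)).
Sum ≤ ε n for large n.
-/

namespace F059

open Classical in
theorem select_nat {P : Finset Pt} {c : Pt → ℕ} {T : Finset (Sym2 Pt)} (S : TriSys P c T)
    (hplane : ∀ Q ⊆ P, ∀ A : Finset (Sym2 Pt), A ⊆ Seg Q → Plane A → A.card ≤ 6 * Q.card)
    {d0 D0 : ℕ} (hd : d0 ≤ D0) {R h μ K k b : ℕ} (hR : (P.image c).card ≤ R) (hR1 : 1 ≤ R)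
    (hh : (P.filter (fun v => D0 ≤ deg T c v)).card ≤ h)
    (hμ : ∑ v ∈ P.filter (fun v => d0 ≤ deg T c v ∧ deg T c v < D0), deg T c v ≤ μ)
    (hK : 0 < K) (hk : 0 < k) (hb : 0 < b) (hkb : 6 * P.card ≤ k * b)
    (hN : k * (Nat.log 2 (P.card ^ 2) + 1) * ((52 + 36 * K) * R * d0 + 1) ≤ b) :
    ∃ E : Finset Leaf, StarSys P E ∧ ∀ f ∈ Seg P, (∀ l ∈ E, ¬ SCr f s(l.z, l.b)) →
      ((outer T c).filter (fun e => SCr f e)).card
        ≤ 2 * b + 6 * P.card / K + (μ + 6 * h + 2 * R * h + 4 * R ^ 2 + 2 * h * d0) := by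
  obtain ⟨U, hU, hinj, hUT, hex⟩ := exists_cands (P := P) (c := c) (T := T) d0 D0
  have hT6 : T.card ≤ 6 * P.card := hplane P subset_rfl T S.sub S.plane
  have hU6 : U.card ≤ 6 * P.card := hUT.trans hT6
  obtain ⟨U', hU'U, hKU, hdeg⟩ := conf_count S hU hinj K R hR hR1
  set mem : Sym2 Pt → Finset Leaf := fun f => U'.filter (fun l => SCr f s(l.z, l.b)) with hmem
  set F : Finset (Sym2 Pt) := (Seg P).filter (fun f => 2 * b ≤ (mem f).card) with hF
  have hSeg : (Seg P).card ≤ P.card ^ 2 := by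
    have h1 : (Seg P).card ≤ P.sym2.card := Finset.card_filter_le _ _
    refine h1.trans ?_
    rw [Finset.card_sym2, Nat.choose_two_right]
    have h2 : (P.card + 1) * (P.card + 1 - 1) ≤ 2 * P.card ^ 2 := by
      rcases Nat.eq_zero_or_pos P.card with h0 | h0
      · simp [h0]
      · rw [Nat.add_sub_cancel]
        nlinarith
    omega
  have hFc : F.card ≤ P.card ^ 2 := (Finset.card_filter_le _ _).trans hSeg
  obtain ⟨E, hEU', hfree, hhit⟩ := greedy_conf U' F mem (Conf T c d0) (fun u v h => h.symm)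
    ((52 + 36 * K) * R * d0) hdeg k b hk hb (fun f _ => Finset.filter_subset _ _)
    (fun f hf => (Finset.mem_filter.1 hf).2)
    ((Finset.card_le_card hU'U).trans (hU6.trans hkb))
    (by
      refine le_trans ?_ hN
      exact Nat.mul_le_mul_right _ (Nat.mul_le_mul_left _
        (Nat.add_le_add_right (Nat.log_mono_right hFc) 1)))
  refine ⟨E, starSys_of_free S hd (fun l hl => hU l (hU'U (hEU' hl))) hfree, ?_⟩
  intro f hf hno
  have hfF : f ∉ F := by
    intro hfF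
    obtain ⟨u, huE, hum⟩ := hhit f hfF
    exact hno u huE (Finset.mem_filter.1 hum).2
  have hmf : (mem f).card ≤ 2 * b := by
    by_contra hlt
    exact hfF (Finset.mem_filter.2 ⟨hf, by omega⟩)
  set A3 := (outer T c).filter (fun e => ¬ ∃ l, IsCand P c T d0 D0 l ∧ e = s(l.z, l.b)) with hA3
  have hsub : (outer T c).filter (fun e => SCr f e) ⊆
      ((mem f).image fun l => s(l.z, l.b)) ∪ ((U \ U').image fun l => s(l.z, l.b)) ∪ A3 := by
    intro e he
    obtain ⟨he1, he2⟩ := Finset.mem_filter.1 he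
    by_cases hc : ∃ l, IsCand P c T d0 D0 l ∧ e = s(l.z, l.b)
    · obtain ⟨l, hl, hel⟩ := hc
      obtain ⟨l', hl'U, hl'⟩ := hex l hl
      have hel' : e = s(l'.z, l'.b) := by rw [hel, hl']
      refine Finset.mem_union_left _ ?_
      by_cases hl'U' : l' ∈ U'
      · refine Finset.mem_union_left _ (Finset.mem_image.2 ⟨l', ?_, hel'.symm⟩)
        refine Finset.mem_filter.2 ⟨hl'U', ?_⟩
        rw [← hel']
        exact he2
      · exact Finset.mem_union_right _ (Finset.mem_image.2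
          ⟨l', Finset.mem_sdiff.2 ⟨hl'U, hl'U'⟩, hel'.symm⟩)
    · exact Finset.mem_union_right _ (Finset.mem_filter.2 ⟨he1, hc⟩)
  have hK' : (U \ U').card ≤ 6 * P.card / K := by
    rw [Nat.le_div_iff_mul_le hK]
    calc (U \ U').card * K = K * (U \ U').card := Nat.mul_comm _ _
      _ ≤ U.card := hKU
      _ ≤ 6 * P.card := hU6
  calc ((outer T c).filter (fun e => SCr f e)).card
      ≤ (((mem f).image fun l => s(l.z, l.b)) ∪ ((U \ U').image fun l => s(l.z, l.b)) ∪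
          A3).card := Finset.card_le_card hsub
    _ ≤ (((mem f).image fun l => s(l.z, l.b)) ∪ ((U \ U').image fun l => s(l.z, l.b))).card +
          A3.card := Finset.card_union_le _ _
    _ ≤ ((mem f).image fun l => s(l.z, l.b)).card + ((U \ U').image fun l => s(l.z, l.b)).card +
          A3.card := Nat.add_le_add_right (Finset.card_union_le _ _) _
    _ ≤ (mem f).card + (U \ U').card + A3.card :=
        Nat.add_le_add_right (Nat.add_le_add Finset.card_image_le Finset.card_image_le) _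
    _ ≤ 2 * b + 6 * P.card / K + (μ + 6 * h + 2 * R * h + 4 * R ^ 2 + 2 * h * d0) :=
        Nat.add_le_add (Nat.add_le_add hmf hK') (excl_count S hplane hd hR hh hμ)

end F059
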