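import Pool.Agent.Lib.F059.Conv

/-!
# F059D.Side: the cells on the two sides of a piece of wall

`side_cell`: if near every point x of the open segment (p,q) all points on the left side of the line
p q are in the square and not in X, then there is ONE cell containing all points on the left close to
the open segment.  PROOF.  For x in the open segment let r(x) > 0 be a radius as in the hypothesis; the
half disc H(x) = ball x (r x) ∩ {0 < ori p q ·} is convex, not empty (as p ≠ q) and disjoint from X, so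
it is contained in one cell c(x) (`convex_sub_cell`, take the point x + ε·n, n the left normal).
The function x ↦ c(x) is locally constant on the open segment: for x' in ball x (r x) the half discs
meet (any half disc at x' of small radius is contained in ball x (r x) and not empty), so the cells are
equal.  The open segment is preconnected, so c is constant.  (Or: for two points x, x' use a Lebesgue
number for the compact segment [x,x']: the shifted segment [x+εn, x'+εn] is disjoint from X.)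

`side_pos`: a convex open set A disjoint from the open segment (p,q), which contains all points on the
left close to the open segment, is contained in the open half plane on the left: if a ∈ A with
ori p q a < 0: take x = a point of the open segment, the points a' = x + ε (x - a) are on the left
(ori p q a' = -ε ori p q a) and close to x, so in A; x is in the open segment a a', so x ∈ A: contradiction.
If a ∈ A with ori p q a = 0: A is open, so some a'' ∈ A near a has ori p q a'' < 0.
-/

namespace F059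

namespace SideAux

open ConvAux Filter Topology

/-- the left normal -/
def nrm (p q : Pt) : Pt := (-(q.2 - p.2), q.1 - p.1)

lemma lin_nrm {p q : Pt} (hpq : p ≠ q) : 0 < lin p q (nrm p q) := by
  rw [lin_apply, nrm]
  simp only
  have h : 0 ≤ (q.1 - p.1) * (q.1 - p.1) + (q.2 - p.2) * (q.2 - p.2) :=
    add_nonneg (mul_self_nonneg _) (mul_self_nonneg _)
  have h2 : (q.1 - p.1) * (q.1 - p.1) + (q.2 - p.2) * (q.2 - p.2) ≠ 0 := by
    intro h0
    have h1 : (q.1 - p.1) * (q.1 - p.1) = 0 := by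
      nlinarith [mul_self_nonneg (q.1 - p.1), mul_self_nonneg (q.2 - p.2)]
    have h2 : (q.2 - p.2) * (q.2 - p.2) = 0 := by
      nlinarith [mul_self_nonneg (q.1 - p.1), mul_self_nonneg (q.2 - p.2)]
    have h3 : q.1 - p.1 = 0 := by simpa using h1
    have h4 : q.2 - p.2 = 0 := by simpa using h2
    exact hpq (Prod.ext (by linarith) (by linarith))
  have h3 := lt_of_le_of_ne h (Ne.symm h2)
  linarith

lemma ori_seg {p q x : Pt} (hx : x ∈ openSegment ℝ p q) : ori p q x = 0 := by
  obtain ⟨a, b, ha, hb, hab, rfl⟩ := hx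
  have hb1 : b = 1 - a := by linarith
  rw [hb1]
  unfold ori
  simp only [Prod.fst_add, Prod.snd_add, Prod.smul_fst, Prod.smul_snd, smul_eq_mul]
  ring

lemma tends (x d : Pt) : Tendsto (fun t : ℝ => x + t • d) (𝓝[>] 0) (𝓝 x) := by
  have h : Continuous fun t : ℝ => x + t • d := by fun_prop
  have h2 := h.tendsto 0
  rw [zero_smul, add_zero] at h2
  exact h2.mono_left nhdsWithin_le_nhds

lemma near_pos {p q x : Pt} (hpq : p ≠ q) (hx : 0 ≤ ori p q x) {U : Set Pt} (hU : U ∈ 𝓝 x) :
    ∃ a ∈ U, 0 < ori p q a := by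
  have h1 : ∀ᶠ t : ℝ in 𝓝[>] 0, x + t • nrm p q ∈ U := (tends x (nrm p q)).eventually hU
  have h2 : ∀ᶠ t : ℝ in 𝓝[>] 0, (0 : ℝ) < t := eventually_mem_nhdsWithin
  obtain ⟨t, ht1, ht2⟩ := (h1.and h2).exists
  refine ⟨_, ht1, ?_⟩
  rw [ori_add]
  have := mul_pos ht2 (lin_nrm hpq)
  linarith

lemma near_neg {p q x : Pt} (hpq : p ≠ q) (hx : ori p q x ≤ 0) {U : Set Pt} (hU : U ∈ 𝓝 x) :
    ∃ a ∈ U, ori p q a < 0 := by
  obtain ⟨a, ha, ha2⟩ := near_pos (p := q) (q := p) hpq.symm (x := x)
    (by rw [ori_swap p q x]; linarith) hU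
  rw [ori_swap p q a] at ha2
  exact ⟨a, ha, by linarith⟩

/-- half discs -/
def hd (p q x : Pt) (r : ℝ) : Set Pt := Metric.ball x r ∩ {a | 0 < ori p q a}

lemma hd_convex (p q x : Pt) (r : ℝ) : Convex ℝ (hd p q x r) := by
  refine (convex_ball x r).inter ?_
  intro a ha b hb s t hs ht hst
  simp only [Set.mem_ofPred_eq] at ha hb ⊢
  have e : ori p q (s • a + t • b) = s * ori p q a + t * ori p q b := by
    have : s = 1 - t := by linarith
    rw [this]; unfold ori
    simp only [Prod.fst_add, Prod.snd_add, Prod.smul_fst, Prod.smul_snd, smul_eq_mul]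
    ring
  rw [e]
  rcases eq_or_lt_of_le hs with h | h
  · have ht1 : t = 1 := by linarith
    rw [← h, ht1]; linarith
  · have h1 := mul_pos h ha
    have h2 := mul_nonneg ht hb.le
    linarith

lemma mid_mem (p q : Pt) : (1 / 2 : ℝ) • p + (1 / 2 : ℝ) • q ∈ openSegment ℝ p q :=
  ⟨1 / 2, 1 / 2, by norm_num, by norm_num, by norm_num, rfl⟩

end SideAux

open SideAux ConvAux Filter Topology

theorem side_cell {M : ℝ} {X : Set Pt} (hX : IsClosed X) (hT : Tight M X) {p q : Pt} (hpq : p ≠ q)
    (hfree : ∀ x ∈ openSegment ℝ p q, ∃ r > 0, ∀ a ∈ Metric.ball x r, 0 < ori p q a →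
      a ∈ Om M ∧ a ∉ X) :
    ∃ u ∈ Om M, u ∉ X ∧ ∀ x ∈ openSegment ℝ p q, ∃ r > 0, ∀ a ∈ Metric.ball x r, 0 < ori p q a →
      a ∈ cell M X u := by
  choose! r hr using hfree
  have hpt : ∀ x ∈ openSegment ℝ p q, ∃ a, a ∈ hd p q x (r x) := by
    intro x hx
    obtain ⟨a, ha, ha2⟩ := near_pos hpq (ori_seg hx).ge (Metric.ball_mem_nhds x (hr x hx).1)
    exact ⟨a, ha, ha2⟩
  choose! h hh using hpt
  have hO : ∀ x ∈ openSegment ℝ p q, ∀ a ∈ hd p q x (r x), a ∈ Om M := fun x hx a ha =>
    ((hr x hx).2 a ha.1 ha.2).1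
  have hsub : ∀ x ∈ openSegment ℝ p q, hd p q x (r x) ⊆ cell M X (h x) := by
    intro x hx
    refine convex_sub_cell (hd_convex p q x (r x)) (hO x hx) ?_ (hh x hx)
    rw [Set.disjoint_left]
    exact fun a ha => ((hr x hx).2 a ha.1 ha.2).2
  have hconst : ∀ x ∈ openSegment ℝ p q, ∀ y ∈ openSegment ℝ p q,
      cell M X (h x) = cell M X (h y) := by
    intro x hx y hy
    refine (convex_openSegment p q).isPreconnected.induction₂
      (fun a b => cell M X (h a) = cell M X (h b)) ?_ ?_ ?_ hx hy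
    · intro a ha
      have h1 : ∀ᶠ b in 𝓝[openSegment ℝ p q] a, b ∈ Metric.ball a (r a) :=
        mem_nhdsWithin_of_mem_nhds (Metric.ball_mem_nhds a (hr a ha).1)
      have h2 : ∀ᶠ b in 𝓝[openSegment ℝ p q] a, b ∈ openSegment ℝ p q :=
        eventually_mem_nhdsWithin
      filter_upwards [h1, h2] with b hb1 hb2
      rcases cell_disjoint_or_eq hX hT (hO a ha _ (hh a ha)) (hO b hb2 _ (hh b hb2)) with h3 | h3
      · exact h3
      · exfalso
        obtain ⟨c, hc, hc2⟩ := near_pos hpq (ori_seg hb2).ge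
          (Filter.inter_mem (Metric.ball_mem_nhds b (hr b hb2).1) (Metric.isOpen_ball.mem_nhds hb1))
        exact Set.disjoint_left.mp h3 (hsub a ha ⟨hc.2, hc2⟩) (hsub b hb2 ⟨hc.1, hc2⟩)
    · intro a b c _ _ _ h1 h2
      exact h1.trans h2
    · intro a b _ _ h1
      exact h1.symm
  have hm := mid_mem p q
  refine ⟨h ((1 / 2 : ℝ) • p + (1 / 2 : ℝ) • q), hO _ hm _ (hh _ hm), ?_, ?_⟩
  · exact ((hr _ hm).2 _ (hh _ hm).1 (hh _ hm).2).2
  · intro x hx
    refine ⟨r x, (hr x hx).1, fun a ha ha2 => ?_⟩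
    rw [← hconst x hx _ hm]
    exact hsub x hx ⟨ha, ha2⟩

/-- both sides -/
theorem side_cells {M : ℝ} {X : Set Pt} (hX : IsClosed X) (hT : Tight M X) {p q : Pt} (hpq : p ≠ q)
    (hfree : ∀ x ∈ openSegment ℝ p q, ∃ r > 0, ∀ a ∈ Metric.ball x r, ori p q a ≠ 0 →
      a ∈ Om M ∧ a ∉ X) :
    ∃ u ∈ Om M, ∃ v ∈ Om M, u ∉ X ∧ v ∉ X ∧ SideCells p q (cell M X u) (cell M X v) := by
  obtain ⟨u, hu, huX, h1⟩ := side_cell hX hT hpq (fun x hx => by
    obtain ⟨r, hr, h⟩ := hfree x hx
    exact ⟨r, hr, fun a ha ha2 => h a ha ha2.ne'⟩)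
  obtain ⟨v, hv, hvX, h2⟩ := side_cell hX hT hpq.symm (fun x hx => by
    rw [openSegment_symm] at hx
    obtain ⟨r, hr, h⟩ := hfree x hx
    refine ⟨r, hr, fun a ha ha2 => h a ha ?_⟩
    rw [ori_swap p q a] at ha2
    intro h0
    rw [h0] at ha2
    linarith)
  refine ⟨u, hu, v, hv, huX, hvX, fun x hx => ?_⟩
  obtain ⟨r, hr, h3⟩ := h1 x hx
  obtain ⟨r', hr', h4⟩ := h2 x (by rw [openSegment_symm]; exact hx)
  refine ⟨min r r', lt_min hr hr', fun a ha => ⟨fun ha2 => ?_, fun ha2 => ?_⟩⟩
  · exact h3 a (Metric.ball_subset_ball (min_le_left _ _) ha) ha2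
  · exact h4 a (Metric.ball_subset_ball (min_le_right _ _) ha) (by rw [ori_swap p q a]; linarith)

theorem side_pos {p q : Pt} (hpq : p ≠ q) {A B : Set Pt} (hs : SideCells p q A B)
    (hA : Convex ℝ A) (hA' : IsOpen A) (hd : Disjoint (openSegment ℝ p q) A) :
    ∀ a ∈ A, 0 < ori p q a := by
  intro a ha
  by_contra hcon
  have hcon := not_lt.mp hcon
  obtain ⟨c, hc, hc2⟩ := near_neg hpq hcon (hA'.mem_nhds ha)
  have hm := mid_mem p q
  set x := (1 / 2 : ℝ) • p + (1 / 2 : ℝ) • q with hx
  obtain ⟨r, hr, h⟩ := hs x hm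
  have h1 : ∀ᶠ t : ℝ in 𝓝[>] 0, x + t • (x - c) ∈ Metric.ball x r :=
    (tends x (x - c)).eventually (Metric.ball_mem_nhds x hr)
  have h2 : ∀ᶠ t : ℝ in 𝓝[>] 0, (0 : ℝ) < t := eventually_mem_nhdsWithin
  obtain ⟨t, ht1, ht2⟩ := (h1.and h2).exists
  have e1 : lin p q (x - c) = ori p q x - ori p q c := by
    rw [lin_apply]; unfold ori
    simp only [Prod.fst_sub, Prod.snd_sub]; ring
  have h3 : x + t • (x - c) ∈ A := by
    refine (h _ ht1).1 ?_
    rw [ori_add, e1, ori_seg hm]
    have := mul_pos ht2 (neg_pos.mpr hc2)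
    linarith
  have h4 : x ∈ A := by
    have h5 := hA h3 hc (a := 1 / (1 + t)) (b := t / (1 + t)) (by positivity) (by positivity)
      (by field_simp)
    have h6 : (1 / (1 + t)) • (x + t • (x - c)) + (t / (1 + t)) • c = x := by
      have h7 : (1 + t) ≠ 0 := by positivity
      ext
      · simp only [Prod.fst_add, Prod.smul_fst, Prod.fst_sub, smul_eq_mul]
        field_simp
        ring
      · simp only [Prod.snd_add, Prod.smul_snd, Prod.snd_sub, smul_eq_mul]
        field_simp
        ring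
    rwa [h6] at h5
  exact Set.disjoint_left.mp hd hm h4

theorem SideCells.swap {p q : Pt} {A B : Set Pt} (hs : SideCells p q A B) :
    SideCells q p B A := by
  intro x hx
  rw [openSegment_symm] at hx
  obtain ⟨r, hr, h⟩ := hs x hx
  refine ⟨r, hr, fun a ha => ⟨fun h1 => (h a ha).2 ?_, fun h1 => (h a ha).1 ?_⟩⟩
  · rw [ori_swap p q a] at h1; linarith
  · rw [ori_swap p q a] at h1; linarith

theorem side_neg {p q : Pt} (hpq : p ≠ q) {A B : Set Pt} (hs : SideCells p q A B)
    (hB : Convex ℝ B) (hB' : IsOpen B) (hd : Disjoint (openSegment ℝ p q) B) :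
    ∀ a ∈ B, ori p q a < 0 := by
  intro a ha
  have h := side_pos hpq.symm hs.swap hB hB' (by rw [openSegment_symm]; exact hd) a ha
  rw [ori_swap p q a] at h
  linarith

theorem side_closure {p q : Pt} (hpq : p ≠ q) {A B : Set Pt} (hs : SideCells p q A B) :
    segment ℝ p q ⊆ closure A ∧ segment ℝ p q ⊆ closure B := by
  have key : ∀ p q : Pt, p ≠ q → ∀ A B : Set Pt, SideCells p q A B →
      segment ℝ p q ⊆ closure A := by
    intro p q hpq A B hs
    rw [← closure_openSegment]
    refine closure_minimal ?_ isClosed_closure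
    intro x hx
    rw [mem_closure_iff_nhds]
    intro U hU
    obtain ⟨r, hr, h⟩ := hs x hx
    obtain ⟨a, ha, ha2⟩ := near_pos hpq (ori_seg hx).ge
      (Filter.inter_mem hU (Metric.ball_mem_nhds x hr))
    exact ⟨a, ha.1, (h a ha.2).1 ha2⟩
  refine ⟨key p q hpq A B hs, ?_⟩
  rw [segment_symm]
  exact key q p hpq.symm B A hs.swap

/-- the sets of points close to the segment are not empty -/
theorem side_nonempty {p q : Pt} (hpq : p ≠ q) {A B : Set Pt} (hs : SideCells p q A B) :
    A.Nonempty ∧ B.Nonempty := by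
  obtain ⟨h1, h2⟩ := side_closure hpq hs
  exact ⟨closure_nonempty_iff.mp ⟨p, h1 (left_mem_segment ℝ p q)⟩,
    closure_nonempty_iff.mp ⟨p, h2 (left_mem_segment ℝ p q)⟩⟩

theorem SideCells.symm {p q : Pt} {A B : Set Pt} (hs : SideCells p q A B) : SideCells q p B A :=
  hs.swap

end F059
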