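import Pool.Agent.Lib.F059.DDefs

/-!
# F059D.SlitRank: building a slit set from ranked segments

Finitely many segments [p i, q i] (i ∈ s), with ranks ρ i; p i is the attached end.  If every segment
meets the complement of the square at most in p i, and meets every OTHER segment of the same or smaller
rank at most in its own end p i, then the union of the segments is `Slit`.
PROOF.  Induction on the cardinality of s: take i ∈ s with ρ i maximal; the union over s.erase i is
`Slit` by induction, and [p i, q i] meets it and the frame at most in p i; use `Slit.add`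
(q i ∈ Om M because q i ≠ p i).
-/

namespace F059

theorem slit_of_rank {ι : Type*} [DecidableEq ι] {M : ℝ} (s : Finset ι) (p q : ι → Pt) (ρ : ι → ℕ)
    (hne : ∀ i ∈ s, p i ≠ q i)
    (hom : ∀ i ∈ s, ∀ x ∈ segment ℝ (p i) (q i), x ≠ p i → x ∈ Om M)
    (hcr : ∀ i ∈ s, ∀ j ∈ s, i ≠ j → ρ j ≤ ρ i → ∀ x ∈ segment ℝ (p i) (q i),
      x ∈ segment ℝ (p j) (q j) → x = p i) :
    Slit M (⋃ i ∈ s, segment ℝ (p i) (q i)) := by
  induction s using Finset.induction_on_max_value ρ with
  | empty =>
    simp only [Finset.notMem_empty, Set.iUnion_of_empty, Set.iUnion_empty]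
    exact Slit.empty
  | insert a s ha hmax ih =>
    have ih' := ih (fun i hi => hne i (Finset.mem_insert_of_mem hi))
      (fun i hi => hom i (Finset.mem_insert_of_mem hi))
      (fun i hi j hj => hcr i (Finset.mem_insert_of_mem hi) j (Finset.mem_insert_of_mem hj))
    have haa : a ∈ insert a s := Finset.mem_insert_self a s
    have h1 : (⋃ i ∈ insert a s, segment ℝ (p i) (q i)) =
        (⋃ i ∈ s, segment ℝ (p i) (q i)) ∪ segment ℝ (p a) (q a) := by
      rw [Finset.set_biUnion_insert, Set.union_comm]
    rw [h1]
    refine Slit.add ih' (hne a haa) (hom a haa _ (right_mem_segment ℝ _ _) (hne a haa).symm) ?_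
    rintro x ⟨hx, hx' | hx'⟩
    · simp only [Set.mem_iUnion] at hx'
      obtain ⟨j, hj, hxj⟩ := hx'
      refine hcr a haa j (Finset.mem_insert_of_mem hj) (fun h => ha (h ▸ hj)) (hmax j hj) x hx hxj
    · by_contra hcon
      exact hx' (hom a haa x hx hcon)

end F059
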