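import Pool.Agent.Lib.F059.DDefs

/-!
# F059D.TSpan: T-joins

If the edges (A i, B i), i ∈ I, connect V, then every finite set J of edges with ends in V is cancelled
mod 2 by a subset I' ⊆ I: every vertex has even total degree in I' and J.
PROOF.  Work in the ZMod 2-vector space of functions α → ZMod 2.  δ(u) = Pi.single u 1.  Let
W = span {δ(A i) + δ(B i) : i ∈ I}.  For u ∈ V: κ(w) := (δ(u) + δ(w) ∈ W) satisfies κ(A i) ↔ κ(B i), κ(u) holds
(δ u + δ u = 0), so δ(u) + δ(v) ∈ W for all u, v ∈ V.  So Σ_{j ∈ J} (δ(A j) + δ(B j)) ∈ W, and this is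
Σ_{i ∈ I'} (δ(A i) + δ(B i)) for some I' ⊆ I (coefficients 0, 1 in ZMod 2; or avoid vector spaces: the set of functions
of the form Σ_{i ∈ I'} with I' ⊆ I is closed under addition, by symmetric differences).  Evaluate at v.
-/

namespace F059

theorem span_join {α : Type*} [DecidableEq α] (V : Finset α) (A B : Pt → α) (I J : Finset Pt)
    (hconn : ∀ κ : α → Prop, (∀ i ∈ I, (κ (A i) ↔ κ (B i))) → ∀ u ∈ V, ∀ v ∈ V, (κ u ↔ κ v))
    (hJ : ∀ j ∈ J, A j ∈ V ∧ B j ∈ V) :
    ∃ I' ⊆ I, ∀ v : α, Even ((I'.filter (fun d => A d = v)).card + (I'.filter (fun d => B d = v)).card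
      + (J.filter (fun d => A d = v)).card + (J.filter (fun d => B d = v)).card) := by
  classical
  set δ : α → α → ZMod 2 := fun a v => if a = v then 1 else 0 with hδ
  have h2 : ∀ x : ZMod 2, x + x = 0 := fun x => CharTwo.add_self_eq_zero x
  set Q : (α → ZMod 2) → Prop := fun g => ∃ c : Pt → ZMod 2,
    ∀ v, g v = ∑ i ∈ I, c i * (δ (A i) v + δ (B i) v) with hQ
  have hQ0 : Q (fun _ => 0) := ⟨fun _ => 0, fun v => by simp⟩
  have hQadd : ∀ g g', Q g → Q g' → Q (fun v => g v + g' v) := by
    rintro g g' ⟨c, hc⟩ ⟨c', hc'⟩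
    refine ⟨fun i => c i + c' i, fun v => ?_⟩
    change g v + g' v = _
    rw [hc, hc', ← Finset.sum_add_distrib]
    exact Finset.sum_congr rfl fun i _ => by ring
  have hQi : ∀ i ∈ I, Q (fun v => δ (A i) v + δ (B i) v) := by
    intro i hi
    refine ⟨fun j => if j = i then 1 else 0, fun v => ?_⟩
    rw [Finset.sum_eq_single i]
    · simp
    · intro j _ hj
      simp [hj]
    · intro h
      exact absurd hi h
  have hQV : ∀ u ∈ V, ∀ w ∈ V, Q (fun v => δ u v + δ w v) := by
    intro u hu w hw
    have hk := hconn (fun w => Q (fun v => δ u v + δ w v)) (by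
      intro i hi
      constructor
      · intro h
        have h3 := hQadd _ _ h (hQi i hi)
        have h4 : (fun v => δ u v + δ (A i) v + (δ (A i) v + δ (B i) v)) =
            fun v => δ u v + δ (B i) v := by
          funext v
          have h5 := h2 (δ (A i) v)
          linear_combination h5
        rwa [h4] at h3
      · intro h
        have h3 := hQadd _ _ h (hQi i hi)
        have h4 : (fun v => δ u v + δ (B i) v + (δ (A i) v + δ (B i) v)) =
            fun v => δ u v + δ (A i) v := by
          funext v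
          have h5 := h2 (δ (B i) v)
          linear_combination h5
        rwa [h4] at h3) u hu w hw
    apply hk.1
    have h4 : (fun v => δ u v + δ u v) = fun _ => 0 := by
      funext v
      exact h2 _
    change Q (fun v => δ u v + δ u v)
    rw [h4]
    exact hQ0
  have hQJ : ∀ J' : Finset Pt, J' ⊆ J → Q (fun v => ∑ j ∈ J', (δ (A j) v + δ (B j) v)) := by
    intro J'
    induction J' using Finset.induction_on with
    | empty =>
      intro _
      simpa using hQ0
    | insert j J' hj ih =>
      intro hJ'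
      have hjJ := hJ j (hJ' (Finset.mem_insert_self j J'))
      have h3 := hQadd _ _ (hQV _ hjJ.1 _ hjJ.2)
        (ih fun x hx => hJ' (Finset.mem_insert_of_mem hx))
      have h4 : (fun v => δ (A j) v + δ (B j) v + ∑ j ∈ J', (δ (A j) v + δ (B j) v)) =
          fun v => ∑ j ∈ insert j J', (δ (A j) v + δ (B j) v) := by
        funext v
        rw [Finset.sum_insert hj]
      rwa [h4] at h3
  obtain ⟨c, hc⟩ := hQJ J (Finset.Subset.refl J)
  refine ⟨I.filter (fun i => c i = 1), Finset.filter_subset _ _, fun v => ?_⟩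
  have hcount : ∀ (T : Finset Pt) (f : Pt → α),
      (((T.filter (fun d => f d = v)).card : ℕ) : ZMod 2) = ∑ d ∈ T, δ (f d) v := by
    intro T f
    rw [Finset.card_filter]
    push_cast
    rfl
  rw [← ZMod.natCast_eq_zero_iff_even]
  push_cast
  rw [hcount, hcount, hcount, hcount]
  have hcv : ∑ j ∈ J, (δ (A j) v + δ (B j) v) = _ := hc v
  have hc01 : ∀ x : ZMod 2, x = 0 ∨ x = 1 := by decide
  have h5 : ∑ i ∈ I, c i * (δ (A i) v + δ (B i) v) =
      ∑ i ∈ I.filter (fun i => c i = 1), (δ (A i) v + δ (B i) v) := by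
    rw [Finset.sum_filter]
    refine Finset.sum_congr rfl fun i _ => ?_
    rcases hc01 (c i) with h | h
    · rw [h, zero_mul, if_neg (by decide)]
    · rw [h, one_mul, if_pos rfl]
  rw [h5, Finset.sum_add_distrib, Finset.sum_add_distrib] at hcv
  have h6 := h2 (∑ i ∈ I.filter (fun i => c i = 1), δ (A i) v +
    ∑ i ∈ I.filter (fun i => c i = 1), δ (B i) v)
  linear_combination h6 + hcv

end F059
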