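import Pool.Agent.Lib.F059.Adj

/-!
# F059D.Trail: non-crossing matchings which form a single closed trail

`exists_trail`: even doors connecting the cells; there are non-crossing matchings (one in every cell)
such that the only nonempty set of doors closed under all partners is D.
Proof: the doors of a cell are in convex position (`ext_of_supp`). Take matchings with the smallest
number of closed sets of doors. If `T` is closed, nonempty and different from `D`, some cell has doors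
in `T` and outside (`conn`), so there are two neighbouring doors `x ∈ T`, `y ∉ T` of one cell
(`exists_adj`), and exchanging their partners (`swap_nc`) destroys the closed set `T` and creates no new
closed set (parity of an involution on the pairs (door in `T ∩ T'`, cell)).
-/

namespace F059

namespace TrailAux

open Classical in
/-- the pairs (door of `W`, cell of this door) -/
noncomputable def Zs (A B : Pt → Set Pt) (W : Finset Pt) : Finset (Pt × Set Pt) :=
  W.image (fun d => (d, A d)) ∪ W.image (fun d => (d, B d))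

theorem mem_Zs {A B : Pt → Set Pt} {W : Finset Pt} {d : Pt} {u : Set Pt} :
    (d, u) ∈ Zs A B W ↔ d ∈ W ∧ (A d = u ∨ B d = u) := by
  classical
  unfold Zs
  simp only [Finset.mem_union, Finset.mem_image, Prod.mk.injEq]
  constructor
  · rintro (⟨a, ha, rfl, rfl⟩ | ⟨a, ha, rfl, rfl⟩)
    · exact ⟨ha, Or.inl rfl⟩
    · exact ⟨ha, Or.inr rfl⟩
  · rintro ⟨hd, h | h⟩
    · exact Or.inl ⟨d, hd, rfl, h⟩
    · exact Or.inr ⟨d, hd, rfl, h⟩

theorem card_Zs {A B : Pt → Set Pt} {W : Finset Pt} (h : ∀ d ∈ W, A d ≠ B d) :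
    (Zs A B W).card = 2 * W.card := by
  classical
  unfold Zs
  rw [Finset.card_union_of_disjoint, Finset.card_image_of_injective, Finset.card_image_of_injective]
  · ring
  · intro a b hab
    exact congrArg Prod.fst hab
  · intro a b hab
    exact congrArg Prod.fst hab
  · rw [Finset.disjoint_left]
    intro z hz hz'
    rw [Finset.mem_image] at hz hz'
    obtain ⟨a, ha, rfl⟩ := hz
    obtain ⟨b, hb, hab⟩ := hz'
    have h1 : b = a := congrArg Prod.fst hab
    subst h1
    exact h b hb (congrArg Prod.snd hab).symm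

theorem even_card {α : Type*} (s : Finset α) (g : α → α) (h1 : ∀ a ∈ s, g a ∈ s)
    (h2 : ∀ a ∈ s, g a ≠ a) (h3 : ∀ a ∈ s, g (g a) = a) : Even s.card := by
  have h := Finset.sum_involution (s := s) (f := fun _ => (1 : ZMod 2)) (fun a _ => g a)
    (fun a ha => by decide) (fun a ha _ => h2 a ha) (fun a ha => h1 a ha) (fun a ha => h3 a ha)
  simp only [Finset.sum_const, nsmul_eq_mul, mul_one] at h
  exact (ZMod.natCast_eq_zero_iff_even).1 h

theorem mem_doors {D : Finset Pt} {A B : Pt → Set Pt} {v : Set Pt} {d : Pt} :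
    d ∈ doorsOf D A B v ↔ d ∈ D ∧ (A d = v ∨ B d = v) := by
  unfold doorsOf
  rw [Finset.mem_filter]

theorem closed_mem {D : Finset Pt} {A B : Pt → Set Pt} {Mt : Set Pt → Pt → Pt} {T : Finset Pt}
    (hT : MClosed A B Mt T) {u : Set Pt} {d : Pt} (hd : d ∈ doorsOf D A B u) (hdT : d ∈ T) :
    Mt u d ∈ T := by
  rcases (mem_doors.1 hd).2 with rfl | rfl
  · exact (hT d hdT).1
  · exact (hT d hdT).2

theorem par_core {V : Finset (Set Pt)} {A B : Pt → Set Pt} {D : Finset Pt}
    {Mt Mt' : Set Pt → Pt → Pt} (hM : Matching V A B D Mt)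
    (hD : ∀ d ∈ D, A d ∈ V ∧ B d ∈ V ∧ A d ≠ B d) {v : Set Pt}
    {T T' : Finset Pt} (hTD : T ⊆ D) (hT : MClosed A B Mt T) (hT' : MClosed A B Mt' T') {c : Pt}
    (hc : c ∈ doorsOf D A B v) (hcT : c ∈ T) (hcT' : c ∈ T') (hc' : Mt v c ∉ T')
    (h1 : ∀ u, u ≠ v → Mt' u = Mt u)
    (h2 : ∀ d ∈ T, d ≠ c → d ≠ Mt v c → Mt' v d = Mt v d) : False := by
  classical
  set W : Finset Pt := T ∩ T' with hW
  have hWD : ∀ d ∈ W, A d ≠ B d := fun d hd => (hD d (hTD (Finset.mem_inter.1 hd).1)).2.2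
  have hcZ : (c, v) ∈ Zs A B W :=
    mem_Zs.2 ⟨Finset.mem_inter.2 ⟨hcT, hcT'⟩, (mem_doors.1 hc).2⟩
  have hkey : ∀ z ∈ (Zs A B W).erase (c, v), z.1 ∈ T ∧ z.1 ∈ T' ∧ z.2 ∈ V ∧
      z.1 ∈ doorsOf D A B z.2 ∧ (z.2 = v → z.1 ≠ c) := by
    rintro ⟨d, u⟩ hz
    obtain ⟨hz1, hz2⟩ := Finset.mem_erase.1 hz
    obtain ⟨hd, hu⟩ := mem_Zs.1 hz2
    obtain ⟨hdT, hdT'⟩ := Finset.mem_inter.1 hd
    refine ⟨hdT, hdT', ?_, mem_doors.2 ⟨hTD hdT, hu⟩, ?_⟩
    · rcases hu with rfl | rfl
      · exact (hD d (hTD hdT)).1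
      · exact (hD d (hTD hdT)).2.1
    · rintro h rfl
      exact hz1 (by rw [Prod.mk.injEq]; exact ⟨rfl, h⟩)
  have hev : Even ((Zs A B W).erase (c, v)).card := by
    refine even_card _ (fun z => (Mt z.2 z.1, z.2)) ?_ ?_ ?_
    · rintro ⟨d, u⟩ hz
      obtain ⟨hdT, hdT', huV, hdu, hne⟩ := hkey _ hz
      simp only at hdT hdT' huV hdu hne ⊢
      have m1 : Mt u d ∈ T := closed_mem hT hdu hdT
      have m2 : Mt u d ∈ T' := by
        by_cases huv : u = v
        · subst huv
          have hd' : d ≠ Mt u c := by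
            rintro rfl
            exact hc' hdT'
          rw [← h2 d hdT (hne rfl) hd']
          exact closed_mem hT' hdu hdT'
        · rw [← h1 u huv]
          exact closed_mem hT' hdu hdT'
      refine Finset.mem_erase.2 ⟨?_, mem_Zs.2 ⟨Finset.mem_inter.2 ⟨m1, m2⟩, ?_⟩⟩
      · intro he
        rw [Prod.mk.injEq] at he
        obtain ⟨e1, e2⟩ := he
        subst e2
        have e3 := hM.inv u huV d hdu
        rw [e1] at e3
        rw [← e3] at hdT'
        exact hc' hdT'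
      · exact (mem_doors.1 (hM.mem u huV d hdu)).2
    · rintro ⟨d, u⟩ hz he
      obtain ⟨hdT, hdT', huV, hdu, hne⟩ := hkey _ hz
      exact hM.ne u huV d hdu (congrArg Prod.fst he)
    · rintro ⟨d, u⟩ hz
      obtain ⟨hdT, hdT', huV, hdu, hne⟩ := hkey _ hz
      simp only at hdT hdT' huV hdu hne ⊢
      rw [hM.inv u huV d hdu]
  rw [Finset.card_erase_of_mem hcZ, card_Zs hWD] at hev
  have hpos : 0 < W.card := Finset.card_pos.2 ⟨c, Finset.mem_inter.2 ⟨hcT, hcT'⟩⟩
  obtain ⟨k, hk⟩ := hev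
  omega

theorem par {V : Finset (Set Pt)} {A B : Pt → Set Pt} {D : Finset Pt}
    {Mt Mt' : Set Pt → Pt → Pt} (hM : Matching V A B D Mt)
    (hD : ∀ d ∈ D, A d ∈ V ∧ B d ∈ V ∧ A d ≠ B d) {v : Set Pt} (hv : v ∈ V)
    {T T' : Finset Pt} (hTD : T ⊆ D) (hT : MClosed A B Mt T) (hT' : MClosed A B Mt' T') {a b : Pt}
    (ha : a ∈ doorsOf D A B v) (haT : a ∈ T) (hb : b ∈ doorsOf D A B v) (hbT : b ∉ T)
    (h1 : ∀ u, u ≠ v → Mt' u = Mt u)
    (h2 : ∀ d, d ≠ a → d ≠ b → d ≠ Mt v a → d ≠ Mt v b → Mt' v d = Mt v d) :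
    a ∈ T' ↔ Mt v a ∈ T' := by
  have ha'T : Mt v a ∈ T := closed_mem hT ha haT
  have ha' : Mt v a ∈ doorsOf D A B v := hM.mem v hv a ha
  have hinv : Mt v (Mt v a) = a := hM.inv v hv a ha
  have hb'T : Mt v b ∉ T := by
    intro h
    have h3 := closed_mem hT (hM.mem v hv b hb) h
    rw [hM.inv v hv b hb] at h3
    exact hbT h3
  constructor
  · intro h
    by_contra h'
    refine par_core hM hD hTD hT hT' ha haT h h' h1 (fun d hd hda hda' => ?_)
    refine h2 d hda ?_ hda' ?_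
    · rintro rfl
      exact hbT hd
    · rintro rfl
      exact hb'T hd
  · intro h
    by_contra h'
    refine par_core hM hD hTD hT hT' ha' ha'T h (by rwa [hinv]) h1 (fun d hd hda hda' => ?_)
    rw [hinv] at hda'
    refine h2 d hda' ?_ hda ?_
    · rintro rfl
      exact hbT hd
    · rintro rfl
      exact hb'T hd

open Classical in
/-- number of closed sets -/
noncomputable def mu (A B : Pt → Set Pt) (D : Finset Pt) (Mt : Set Pt → Pt → Pt) : ℕ :=
  (D.powerset.filter (fun T => MClosed A B Mt T)).card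

theorem step {P : Finset Pt} (hgp : GenPos P) {V : Finset (Set Pt)} {A B : Pt → Set Pt}
    {D : Finset Pt} (h : EvenDoors P V A B D) {Mt : Set Pt → Pt → Pt} (hM : Matching V A B D Mt)
    {T : Finset Pt} (hTD : T ⊆ D) (hTn : T.Nonempty) (hT : MClosed A B Mt T) (hne : T ≠ D) :
    ∃ Mt' : Set Pt → Pt → Pt, Matching V A B D Mt' ∧ mu A B D Mt' < mu A B D Mt := by
  classical
  have hD : ∀ d ∈ D, A d ∈ V ∧ B d ∈ V ∧ A d ≠ B d := fun d hd =>
    ⟨(h.door d hd).1, (h.door d hd).2.1, (h.door d hd).2.2.1⟩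
  -- a cell with doors in `T` and outside
  obtain ⟨v, hv, x0, hx0, hx0T, y0, hy0, hy0T⟩ : ∃ v ∈ V, ∃ x0 ∈ doorsOf D A B v, x0 ∈ T ∧
      ∃ y0 ∈ doorsOf D A B v, y0 ∉ T := by
    by_contra hcon
    push Not at hcon
    have hk : ∀ v ∈ V, ∀ d ∈ doorsOf D A B v, ((∃ d' ∈ doorsOf D A B v, d' ∈ T) ↔ d ∈ T) := by
      intro v hv d hd
      constructor
      · rintro ⟨d', hd', hd'T⟩
        exact hcon v hv d' hd' hd'T d hd
      · intro hdT
        exact ⟨d, hd, hdT⟩
    have hconst := h.conn (fun v => ∃ d' ∈ doorsOf D A B v, d' ∈ T) (fun d hd => by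
      rw [hk _ (hD d hd).1 d (mem_doors.2 ⟨hd, Or.inl rfl⟩),
        hk _ (hD d hd).2.1 d (mem_doors.2 ⟨hd, Or.inr rfl⟩)])
    obtain ⟨t, ht⟩ := hTn
    obtain ⟨d, hdD, hdT⟩ : ∃ d ∈ D, d ∉ T := by
      by_contra hc
      push Not at hc
      exact hne (Finset.Subset.antisymm hTD hc)
    have h1 := hconst (A t) (hD t (hTD ht)).1 (A d) (hD d hdD).1
    rw [hk _ (hD t (hTD ht)).1 t (mem_doors.2 ⟨hTD ht, Or.inl rfl⟩),
      hk _ (hD d hdD).1 d (mem_doors.2 ⟨hdD, Or.inl rfl⟩)] at h1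
    exact hdT (h1.1 ht)
  -- convex position
  have hsupp : ∀ d ∈ doorsOf D A B v, Supp P v d := by
    intro d hd
    obtain ⟨hdD, hd'⟩ := mem_doors.1 hd
    rcases hd' with rfl | rfl
    · exact (h.door d hdD).2.2.2.1
    · exact (h.door d hdD).2.2.2.2
  have hSP : doorsOf D A B v ⊆ P := fun d hd => (hsupp d hd).1
  have hgS : GenPos (doorsOf D A B v) := fun p hp q hq r hr => hgp p (hSP hp) q (hSP hq) r (hSP hr)
  have hext : ∀ s ∈ doorsOf D A B v, Ext (doorsOf D A B v) s := fun s hs =>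
    ext_of_supp hgp (hsupp s hs) hSP (fun q hq => (hsupp q hq).2.1) hs
  obtain ⟨x, hx, y, hy, hcol, hadj⟩ := exists_adj hgS hext (fun d => d ∈ T) hx0 hx0T hy0 hy0T
  have hMv : ∀ s ∈ doorsOf D A B v, Mt v s ∈ doorsOf D A B v ∧ Mt v s ≠ s ∧ Mt v (Mt v s) = s :=
    fun s hs => ⟨hM.mem v hv s hs, hM.ne v hv s hs, hM.inv v hv s hs⟩
  have hclT : ∀ d ∈ doorsOf D A B v, (d ∈ T ↔ Mt v d ∈ T) := by
    intro d hd
    constructor
    · exact closed_mem hT hd
    · intro h3
      have h4 := closed_mem hT (hM.mem v hv d hd) h3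
      rwa [hM.inv v hv d hd] at h4
  have hxy : x ≠ y := by
    rintro rfl
    rcases hcol with ⟨h1, h2⟩ | ⟨h1, h2⟩
    · exact h2 h1
    · exact h1 h2
  have hxy' : Mt v x ≠ y := by
    intro he
    have h3 := hclT x hx
    rw [he] at h3
    rcases hcol with ⟨h1, h2⟩ | ⟨h1, h2⟩
    · exact h2 (h3.1 h1)
    · exact h1 (h3.2 h2)
  obtain ⟨Nv, hN, hNnc, hNx, hNy, hNx', hNy', hNd⟩ := swap_nc hgS hext (Mt v) hMv
    (fun s hs t ht => hM.nc v hv s hs t ht) hx hy hxy hxy' hadj
  set Mt' : Set Pt → Pt → Pt := fun u => if u = v then Nv else Mt u with hMt'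
  have e1 : Mt' v = Nv := by rw [hMt']; simp
  have e2 : ∀ u, u ≠ v → Mt' u = Mt u := fun u hu => by rw [hMt']; simp [hu]
  have hM' : Matching V A B D Mt' := by
    constructor
    · intro u hu d hd
      by_cases huv : u = v
      · subst huv
        rw [e1]
        exact (hN d hd).1
      · rw [e2 u huv]
        exact hM.mem u hu d hd
    · intro u hu d hd
      by_cases huv : u = v
      · subst huv
        rw [e1]
        exact (hN d hd).2.1
      · rw [e2 u huv]
        exact hM.ne u hu d hd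
    · intro u hu d hd
      by_cases huv : u = v
      · subst huv
        rw [e1]
        exact (hN d hd).2.2
      · rw [e2 u huv]
        exact hM.inv u hu d hd
    · intro u hu d hd d' hd'
      by_cases huv : u = v
      · subst huv
        rw [e1]
        exact hNnc d hd d' hd'
      · rw [e2 u huv]
        exact hM.nc u hu d hd d' hd'
  refine ⟨Mt', hM', ?_⟩
  unfold mu
  apply Finset.card_lt_card
  rw [Finset.ssubset_iff_of_subset]
  · refine ⟨T, Finset.mem_filter.2 ⟨Finset.mem_powerset.2 hTD, hT⟩, ?_⟩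
    intro hmem
    have hT2 := (Finset.mem_filter.1 hmem).2
    have h3 := fun hxT => closed_mem hT2 hx hxT
    have h4 := fun hyT => closed_mem hT2 hy hyT
    rw [e1, hNx] at h3
    rw [e1, hNy] at h4
    rcases hcol with ⟨h1, h2⟩ | ⟨h1, h2⟩
    · exact h2 (h3 h1)
    · exact h1 (h4 h2)
  · intro T' hT'
    obtain ⟨hT'P, hT'c⟩ := Finset.mem_filter.1 hT'
    have hT'D := Finset.mem_powerset.1 hT'P
    refine Finset.mem_filter.2 ⟨hT'P, ?_⟩
    have hagree : ∀ d, d ≠ x → d ≠ y → d ≠ Mt v x → d ≠ Mt v y → Mt' v d = Mt v d := by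
      intro d
      rw [e1]
      exact hNd d
    have F1 : x ∈ T' ↔ y ∈ T' := by
      constructor
      · intro h3
        have := closed_mem hT'c hx h3
        rwa [e1, hNx] at this
      · intro h3
        have := closed_mem hT'c hy h3
        rwa [e1, hNy] at this
    have hx' : Mt v x ∈ doorsOf D A B v := (hMv x hx).1
    have hy' : Mt v y ∈ doorsOf D A B v := (hMv y hy).1
    have F2 : Mt v x ∈ T' ↔ Mt v y ∈ T' := by
      constructor
      · intro h3
        have := closed_mem hT'c hx' h3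
        rwa [e1, hNx'] at this
      · intro h3
        have := closed_mem hT'c hy' h3
        rwa [e1, hNy'] at this
    have E : (x ∈ T' ↔ Mt v x ∈ T') ∧ (y ∈ T' ↔ Mt v y ∈ T') := by
      rcases hcol with ⟨h1, h2⟩ | ⟨h1, h2⟩
      · have E1 := par hM hD hv hTD hT hT'c hx h1 hy h2 e2 hagree
        exact ⟨E1, by rw [← F1, ← F2]; exact E1⟩
      · have E2 := par hM hD hv hTD hT hT'c hy h2 hx h1 e2
          (fun d hd1 hd2 hd3 hd4 => hagree d hd2 hd1 hd4 hd3)
        exact ⟨by rw [F1, F2]; exact E2, E2⟩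
    have hmain : ∀ u ∈ V, ∀ d ∈ doorsOf D A B u, d ∈ T' → Mt u d ∈ T' := by
      intro u hu d hd hdT'
      by_cases huv : u = v
      · subst huv
        by_cases c1 : d = x
        · rw [c1]
          exact E.1.1 (c1 ▸ hdT')
        by_cases c2 : d = y
        · rw [c2]
          exact E.2.1 (c2 ▸ hdT')
        by_cases c3 : d = Mt u x
        · rw [c3, (hMv x hx).2.2]
          exact E.1.2 (c3 ▸ hdT')
        by_cases c4 : d = Mt u y
        · rw [c4, (hMv y hy).2.2]
          exact E.2.2 (c4 ▸ hdT')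
        rw [← hagree d c1 c2 c3 c4]
        exact closed_mem hT'c hd hdT'
      · rw [← e2 u huv]
        exact closed_mem hT'c hd hdT'
    intro d hd
    exact ⟨hmain _ (hD d (hT'D hd)).1 d (mem_doors.2 ⟨hT'D hd, Or.inl rfl⟩) hd,
      hmain _ (hD d (hT'D hd)).2.1 d (mem_doors.2 ⟨hT'D hd, Or.inr rfl⟩) hd⟩

theorem exists_first {V : Finset (Set Pt)} {A B : Pt → Set Pt} {D : Finset Pt}
    (he : ∀ v ∈ V, Even (doorsOf D A B v).card) : ∃ Mt : Set Pt → Pt → Pt, Matching V A B D Mt := by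
  classical
  have h : ∀ v : Set Pt, ∃ f : Pt → Pt, v ∈ V → (∀ s ∈ doorsOf D A B v,
      f s ∈ doorsOf D A B v ∧ f s ≠ s ∧ f (f s) = s) ∧
      ∀ s ∈ doorsOf D A B v, ∀ t ∈ doorsOf D A B v, ¬ Cr s (f s) t (f t) := by
    intro v
    by_cases hv : v ∈ V
    · obtain ⟨f, hf⟩ := exists_match _ (he v hv)
      exact ⟨f, fun _ => hf⟩
    · exact ⟨id, fun h => absurd h hv⟩
  choose Mt hMt using h
  exact ⟨Mt, fun v hv d hd => ((hMt v hv).1 d hd).1, fun v hv d hd => ((hMt v hv).1 d hd).2.1,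
    fun v hv d hd => ((hMt v hv).1 d hd).2.2, fun v hv d hd d' hd' => (hMt v hv).2 d hd d' hd'⟩

end TrailAux

open TrailAux in
theorem exists_trail {P : Finset Pt} (hgp : GenPos P) {V : Finset (Set Pt)} {A B : Pt → Set Pt}
    {D : Finset Pt} (h : EvenDoors P V A B D) :
    ∃ Mt : Set Pt → Pt → Pt, Matching V A B D Mt ∧
      ∀ T ⊆ D, T.Nonempty → MClosed A B Mt T → T = D := by
  obtain ⟨Mt0, hM0⟩ := exists_first (V := V) (A := A) (B := B) (D := D) h.even
  have key : ∀ n : ℕ, ∀ Mt : Set Pt → Pt → Pt, Matching V A B D Mt → mu A B D Mt = n →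
      ∃ Mt' : Set Pt → Pt → Pt, Matching V A B D Mt' ∧
        ∀ T ⊆ D, T.Nonempty → MClosed A B Mt' T → T = D := by
    intro n
    induction n using Nat.strong_induction_on with
    | _ n ih =>
      intro Mt hM hn
      by_cases hall : ∀ T ⊆ D, T.Nonempty → MClosed A B Mt T → T = D
      · exact ⟨Mt, hM, hall⟩
      · push Not at hall
        obtain ⟨T, hTD, hTn, hT, hne⟩ := hall
        obtain ⟨Mt', hM', hlt⟩ := step hgp h hM hTD hTn hT hne
        exact ih _ (hn ▸ hlt) Mt' hM' rfl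
  exact key _ Mt0 hM0 rfl

end F059
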